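import Mathlib
open Filter Topology
open scoped ArithmeticFunction.Moebius

/-! Definitions for the Moebius disjointness of generalized Morse systems. -/

namespace Pool.Agent.Helper51.Morse

/-- A word over `{0,1}` (`false = 0`, `true = 1`). -/
abbrev Word := List Bool

/-- `B + c`: the letter `c` is added modulo 2 to every letter of `B`. -/
def addLetter (B : Word) (c : Bool) : Word := B.map (fun a => xor a c)

/-- `B × C = (B + C(0)) (B + C(1)) ⋯ (B + C(ℓ-1))`. -/
def prod (B C : Word) : Word := C.flatMap (fun c => addLetter B c)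

/-- `b⁰ × b¹ × ⋯ × bⁿ`. -/
def fprod (b : ℕ → Word) : ℕ → Word
  | 0 => b 0
  | n + 1 => prod (fprod b n) (b (n + 1))

/-- `x = b⁰ × b¹ × b² × ⋯` is the generalized Morse sequence of the words `bⁱ`: every `bⁱ` has
length `≥ 2` and first letter `0`, and every finite product is a prefix of `x`. -/
structure IsMorse (b : ℕ → Word) (x : ℕ → Bool) : Prop where
  two_le : ∀ i, 2 ≤ (b i).length
  zero : ∀ i, (b i)[0]? = some false
  pref : ∀ n k, k < (fprod b n).length → (fprod b n)[k]? = some (x k)

/-- The left shift on `{0,1}^ℕ`. -/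
def shift (y : ℕ → Bool) : ℕ → Bool := fun n => y (n + 1)

/-- `X_x`, the closure of the orbit of `x` under the shift. -/
def orbitClosure (x : ℕ → Bool) : Set (ℕ → Bool) := closure (Set.range fun n : ℕ => shift^[n] x)

theorem continuous_shift : Continuous shift :=
  continuous_pi fun n => continuous_apply (n + 1)

theorem shift_mem (x : ℕ → Bool) {y : ℕ → Bool} (hy : y ∈ orbitClosure x) :
    shift y ∈ orbitClosure x := by
  have h1 : shift '' orbitClosure x ⊆ closure (shift '' (Set.range fun n : ℕ => shift^[n] x)) :=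
    image_closure_subset_closure_image continuous_shift
  have h2 : shift '' (Set.range fun n : ℕ => shift^[n] x) ⊆ Set.range fun n : ℕ => shift^[n] x := by
    rintro _ ⟨_, ⟨n, rfl⟩, rfl⟩
    exact ⟨n + 1, Function.iterate_succ_apply' shift n x⟩
  exact closure_mono h2 (h1 ⟨y, hy, rfl⟩)

/-- The system `(X_x, S)` arising from `x`: the shift restricted to `X_x`. -/
def morseMap (x : ℕ → Bool) : orbitClosure x → orbitClosure x :=
  fun y => ⟨shift y.1, shift_mem x y.2⟩

/-- A topological system `(X, T)` is Moebius disjoint if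
`(1/N) ∑_{n ≤ N} f (Tⁿ y) μ(n) → 0` for all `f ∈ C(X)` and all `y ∈ X`. -/
def MoebiusDisjoint {X : Type*} [TopologicalSpace X] (T : X → X) : Prop :=
  ∀ (f : C(X, ℂ)) (y : X),
    Tendsto (fun N : ℕ => (∑ n ∈ Finset.Icc 1 N, f (T^[n] y) * (μ n : ℂ)) / (N : ℂ)) atTop (𝓝 0)

/-- Number of positions `k` with `0 ≤ k < ℓ - 1` and `w(k) = w(k+1)`. -/
def same (w : Word) : ℕ :=
  ((Finset.range (w.length - 1)).filter (fun k => w.getD k false = w.getD (k + 1) false)).card

/-- Number of positions `k` with `0 ≤ k < ℓ - 1` and `w(k) ≠ w(k+1)`. -/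
def diff (w : Word) : ℕ :=
  ((Finset.range (w.length - 1)).filter (fun k => w.getD k false ≠ w.getD (k + 1) false)).card

/-- The defect `D(w)`: the smaller of the two numbers above.  It vanishes iff `w` is constant
or alternating. -/
def defect (w : Word) : ℕ := min (same w) (diff w)

/-- Number of positions `k < ℓ` with `w(k) ≠ g(k)`. -/
def hamming (w : Word) (g : ℕ → Bool) : ℕ :=
  ((Finset.range w.length).filter (fun k => w.getD k false ≠ g k)).card

/-- Hamming distance from `w` to the nearest of the four words `00⋯0`, `11⋯1`, `0101⋯`, `1010⋯`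
of the same length. -/
def geomDist (w : Word) : ℕ :=
  min (min (hamming w fun _ => false) (hamming w fun _ => true))
    (min (hamming w fun k => decide (k % 2 = 1)) (hamming w fun k => decide (k % 2 = 0)))

end Pool.Agent.Helper51.Morse
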