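import Mathlib
import Pool.Agent.Helper40.Katai
import Pool.Agent.Helper40.Tauber4
open Filter Topology
open scoped ArithmeticFunction.Moebius

/-! Number-theoretic input for the Moebius disjointness of generalized Morse systems:
Kátai's criterion for large primes and the prime number theorem in arithmetic progressions. -/

namespace Pool.Agent.Helper51.Mo

open Pool.Agent.Helper40.Katai

theorem exists_large_gt (K : ℕ) (C : ℝ) :
    ∃ P : Finset ℕ, (∀ p ∈ P, p.Prime ∧ K < p) ∧ C < LL P := by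
  classical
  obtain ⟨P, hP, hC⟩ := exists_large (C + (K + 1))
  refine ⟨P.filter (fun p => K < p), fun p hp => ?_, ?_⟩
  · obtain ⟨h1, h2⟩ := Finset.mem_filter.1 hp
    exact ⟨hP p h1, h2⟩
  · have h1 : LL P = LL (P.filter (fun p => K < p)) + LL (P.filter (fun p => ¬ K < p)) := by
      unfold LL
      rw [Finset.sum_filter_add_sum_filter_not]
    have h2 : LL (P.filter (fun p => ¬ K < p)) ≤ K + 1 := by
      unfold LL
      have h3 : ∀ p ∈ P.filter (fun p => ¬ K < p), (1 : ℝ) / p ≤ 1 := by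
        intro p hp
        have hp1 := (hP p (Finset.mem_filter.1 hp).1).one_le
        have hp2 : (1 : ℝ) ≤ p := by exact_mod_cast hp1
        rw [div_le_one (by linarith)]
        exact hp2
      have h4 : P.filter (fun p => ¬ K < p) ⊆ Finset.range (K + 1) := by
        intro p hp
        have := (Finset.mem_filter.1 hp).2
        rw [Finset.mem_range]; omega
      calc ∑ p ∈ P.filter (fun p => ¬ K < p), (1 : ℝ) / p
          ≤ ∑ p ∈ P.filter (fun p => ¬ K < p), (1 : ℝ) := Finset.sum_le_sum h3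
        _ ≤ ∑ p ∈ Finset.range (K + 1), (1 : ℝ) :=
            Finset.sum_le_sum_of_subset_of_nonneg h4 fun _ _ _ => by norm_num
        _ = K + 1 := by simp
    linarith

theorem pair_tendsto' (a : ℕ → ℂ) (p q : ℕ) (hp : p.Prime) (hq : q.Prime)
    (hcorr : Tendsto (fun N : ℕ => (∑ n ∈ Finset.Icc 1 N, a (p * n) *
      (starRingEnd ℂ) (a (q * n))) / (N : ℂ)) atTop (𝓝 0)) :
    Tendsto (fun N : ℕ => ‖∑ m ∈ Finset.Icc 1 N, tr a N p m * (starRingEnd ℂ) (tr a N q m)‖ / (N : ℝ))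
      atTop (𝓝 0) := by
  have hM0 : 0 < max p q := lt_max_of_lt_left hp.pos
  have hred : ∀ N : ℕ, ∑ m ∈ Finset.Icc 1 N, tr a N p m * (starRingEnd ℂ) (tr a N q m) =
      ∑ n ∈ Finset.Icc 1 (N / max p q), a (p * n) * (starRingEnd ℂ) (a (q * n)) := by
    intro N
    have h1 : Finset.Icc 1 (N / max p q) ⊆ Finset.Icc 1 N :=
      Finset.Icc_subset_Icc_right (Nat.div_le_self N _)
    rw [← Finset.sum_subset h1]
    · refine Finset.sum_congr rfl fun m hm => ?_
      obtain ⟨_, hm2⟩ := Finset.mem_Icc.1 hm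
      have hm3 := (Nat.le_div_iff_mul_le hM0).1 hm2
      have h2 : p * m ≤ N := by
        calc p * m ≤ max p q * m := Nat.mul_le_mul_right _ (le_max_left _ _)
          _ ≤ N := by rw [mul_comm]; exact hm3
      have h3 : q * m ≤ N := by
        calc q * m ≤ max p q * m := Nat.mul_le_mul_right _ (le_max_right _ _)
          _ ≤ N := by rw [mul_comm]; exact hm3
      rw [tr, tr, if_pos h2, if_pos h3]
    · intro m hm1 hm2
      obtain ⟨hm3, _⟩ := Finset.mem_Icc.1 hm1
      by_cases h2 : p * m ≤ N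
      · by_cases h3 : q * m ≤ N
        · exfalso
          apply hm2
          refine Finset.mem_Icc.2 ⟨hm3, ?_⟩
          rw [Nat.le_div_iff_mul_le hM0, mul_comm]
          rcases max_choice p q with h | h <;> rw [h] <;> assumption
        · rw [tr, tr, if_neg h3]; simp
      · rw [tr, if_neg h2, zero_mul]
  have h2 := hcorr.comp (Nat.tendsto_div_const_atTop hM0.ne')
  rw [tendsto_zero_iff_norm_tendsto_zero] at h2
  refine squeeze_zero (fun _ => by positivity) (fun N => ?_) h2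
  simp only [Function.comp]
  rw [hred, norm_div, Complex.norm_natCast]
  rcases Nat.eq_zero_or_pos (N / max p q) with h0 | h0
  · rw [h0]; simp
  · have hle : ((N / max p q : ℕ) : ℝ) ≤ N := by exact_mod_cast Nat.div_le_self N _
    have hpos : (0 : ℝ) < ((N / max p q : ℕ) : ℝ) := by exact_mod_cast h0
    gcongr

/-- Kátai's criterion, with correlations only for large primes. -/
theorem kataiC_gt (K : ℕ) (a : ℕ → ℂ) (ha : ∀ n, ‖a n‖ ≤ 1)
    (hcorr : ∀ p q : ℕ, p.Prime → q.Prime → K < p → K < q → p ≠ q →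
      Tendsto (fun N : ℕ => (∑ n ∈ Finset.Icc 1 N, a (p * n) * (starRingEnd ℂ) (a (q * n))) / (N : ℂ))
        atTop (𝓝 0)) :
    Tendsto (fun N : ℕ => (∑ n ∈ Finset.Icc 1 N, (μ n : ℂ) * a n) / (N : ℂ)) atTop (𝓝 0) := by
  classical
  rw [Metric.tendsto_atTop]
  intro ε hε
  obtain ⟨P, hP', hPL⟩ := exists_large_gt K (max 1 ((12 / ε) ^ 2))
  have hP : ∀ p ∈ P, p.Prime := fun p hp => (hP' p hp).1
  set L := LL P with hL
  have hL1 : 1 < L := (le_max_left _ _).trans_lt hPL
  have hL0 : 0 < L := by linarith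
  have hL2 : (12 / ε) ^ 2 < L := (le_max_right _ _).trans_lt hPL
  have hsqrtL : 12 / ε < √L := by
    rw [Real.lt_sqrt (by positivity)]; exact hL2
  -- off diagonal terms
  have hoff : Tendsto (fun N : ℕ => (∑ p ∈ P, ∑ q ∈ P.erase p,
        ‖∑ m ∈ Finset.Icc 1 N, tr a N p m * (starRingEnd ℂ) (tr a N q m)‖) / (N : ℝ)) atTop
        (𝓝 0) := by
    have h1 : Tendsto (fun N : ℕ => ∑ p ∈ P, ∑ q ∈ P.erase p,
        (‖∑ m ∈ Finset.Icc 1 N, tr a N p m * (starRingEnd ℂ) (tr a N q m)‖ / (N : ℝ))) atTop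
        (𝓝 (∑ p ∈ P, ∑ q ∈ P.erase p, 0)) := by
      refine tendsto_finsetSum _ fun p hp => tendsto_finsetSum _ fun q hq => ?_
      obtain ⟨hq1, hq2⟩ := Finset.mem_erase.1 hq
      exact pair_tendsto' a p q (hP p hp) (hP q hq2)
        (hcorr p q (hP p hp) (hP q hq2) (hP' p hp).2 (hP' q hq2).2 (Ne.symm hq1))
    simp only [Finset.sum_const_zero] at h1
    refine h1.congr fun N => ?_
    rw [Finset.sum_div]
    exact Finset.sum_congr rfl fun p _ => by rw [Finset.sum_div]
  have hcardt : Tendsto (fun N : ℕ => (2 * L * P.card) / (N : ℝ)) atTop (𝓝 0) :=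
    tendsto_const_div_atTop_nhds_zero_nat _
  obtain ⟨N1, hN1⟩ := (hoff.eventually (gt_mem_nhds one_pos)).exists_forall_of_atTop
  obtain ⟨N2, hN2⟩ := (hcardt.eventually (gt_mem_nhds one_pos)).exists_forall_of_atTop
  refine ⟨max 1 (max N1 N2), fun N hN => ?_⟩
  have hN0 : 1 ≤ N := (le_max_left _ _).trans hN
  have hNpos : (0 : ℝ) < N := by exact_mod_cast hN0
  have h1 := hN1 N ((le_max_left _ _).trans ((le_max_right _ _).trans hN))
  have h2 := hN2 N ((le_max_right _ _).trans ((le_max_right _ _).trans hN))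
  rw [div_lt_one hNpos] at h1 h2
  have h3 := main_bound a ha P hP N
  rw [← hL] at h3
  have h4 : √N * √(N * L + ∑ p ∈ P, ∑ q ∈ P.erase p,
        ‖∑ m ∈ Finset.Icc 1 N, tr a N p m * (starRingEnd ℂ) (tr a N q m)‖) ≤ N * √(4 * L) := by
    calc _ ≤ √N * √(N * (4 * L)) := by
          gcongr
          nlinarith
      _ = √N * (√N * √(4 * L)) := by rw [Real.sqrt_mul hNpos.le]
      _ = (√N * √N) * √(4 * L) := by ring
      _ = _ := by rw [Real.mul_self_sqrt hNpos.le]
  have h5 : √N * √(N * L + 2 * L * P.card) ≤ N * √(4 * L) := by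
    calc _ ≤ √N * √(N * (4 * L)) := by
          gcongr
          nlinarith
      _ = √N * (√N * √(4 * L)) := by rw [Real.sqrt_mul hNpos.le]
      _ = (√N * √N) * √(4 * L) := by ring
      _ = _ := by rw [Real.mul_self_sqrt hNpos.le]
  have h6 : √(4 * L) = 2 * √L := by
    rw [Real.sqrt_mul (by norm_num)]
    have : √(4 : ℝ) = 2 := by
      rw [show (4 : ℝ) = 2 ^ 2 by norm_num, Real.sqrt_sq (by norm_num)]
    rw [this]
  rw [h6] at h4 h5
  have hsq : √L * √L = L := Real.mul_self_sqrt hL0.le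
  have hsL : 0 < √L := Real.sqrt_pos.2 hL0
  have hsL1 : 1 < √L := by
    rw [Real.lt_sqrt (by norm_num)]; simpa using hL1
  have h7 : L * ‖∑ n ∈ Finset.Icc 1 N, (μ n : ℂ) * a n‖ ≤ N * (6 * √L) := by
    have : (2 : ℝ) * N ≤ N * (2 * √L) := by nlinarith
    calc _ ≤ _ := h3
      _ ≤ N * (2 * √L) + N * (2 * √L) + N * (2 * √L) := by
          exact add_le_add (add_le_add h4 this) h5
      _ = _ := by ring
  rw [dist_zero_right, norm_div, Complex.norm_natCast, div_lt_iff₀ hNpos]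
  have h8 : √L * ‖∑ n ∈ Finset.Icc 1 N, (μ n : ℂ) * a n‖ ≤ 6 * N := by
    have h9 : √L * (√L * ‖∑ n ∈ Finset.Icc 1 N, (μ n : ℂ) * a n‖) ≤ √L * (6 * N) := by
      rw [← mul_assoc, hsq]
      calc _ ≤ _ := h7
        _ = _ := by ring
    exact le_of_mul_le_mul_left h9 hsL
  have h9 : 12 < √L * ε := by
    rw [div_lt_iff₀ hε] at hsqrtL
    exact hsqrtL
  by_contra hcon
  push Not at hcon
  have : √L * (ε * N) ≤ 6 * N := (mul_le_mul_of_nonneg_left hcon hsL.le).trans h8
  nlinarith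

theorem tendsto_real_of_complex (u : ℕ → ℝ)
    (h : Tendsto (fun N : ℕ => (u N : ℂ)) atTop (𝓝 0)) : Tendsto u atTop (𝓝 0) := by
  rw [tendsto_zero_iff_norm_tendsto_zero] at h ⊢
  simpa using h

theorem tendsto_complex_of_real (u : ℕ → ℝ) (h : Tendsto u atTop (𝓝 0)) :
    Tendsto (fun N : ℕ => (u N : ℂ)) atTop (𝓝 0) := by
  rw [tendsto_zero_iff_norm_tendsto_zero] at h ⊢
  simpa using h

/-- Kátai's criterion with correlations only for large primes, real sequences. -/
theorem katai_gt (K : ℕ) (a : ℕ → ℝ) (ha : ∀ n, |a n| ≤ 1)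
    (hcorr : ∀ p q : ℕ, p.Prime → q.Prime → K < p → K < q → p ≠ q →
      Tendsto (fun N : ℕ => (∑ n ∈ Finset.Icc 1 N, a (p * n) * a (q * n)) / (N : ℝ))
        atTop (𝓝 0)) :
    Tendsto (fun N : ℕ => (∑ n ∈ Finset.Icc 1 N, (μ n : ℝ) * a n) / (N : ℝ)) atTop (𝓝 0) := by
  apply tendsto_real_of_complex
  have h1 := kataiC_gt K (fun n => (a n : ℂ)) (fun n => by
    rw [Complex.norm_real]; exact ha n) (by
    intro p q hp hq hKp hKq hpq
    have h2 := tendsto_complex_of_real _ (hcorr p q hp hq hKp hKq hpq)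
    refine h2.congr fun N => ?_
    push_cast
    simp only [Complex.conj_ofReal])
  refine h1.congr fun N => ?_
  push_cast
  rfl

/-- PNT in arithmetic progressions for the Moebius function, real form. -/
theorem moebius_per (q : ℕ) (hq : 1 ≤ q) (g : ℕ → ℝ) (hg : ∀ n, g (n + q) = g n) :
    Tendsto (fun N : ℕ => (∑ n ∈ Finset.Icc 1 N, (μ n : ℝ) * g n) / (N : ℝ)) atTop (𝓝 0) := by
  haveI : NeZero q := ⟨by omega⟩
  apply tendsto_real_of_complex
  have hmod : ∀ n, g (n % q) = g n := by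
    intro n
    have h1 : ∀ k m, g (m + q * k) = g m := by
      intro k
      induction k with
      | zero => intro m; simp
      | succ k ih => intro m; rw [Nat.mul_succ, ← add_assoc, hg, ih]
    conv_rhs => rw [← Nat.mod_add_div n q]
    rw [h1]
  have h1 := Pool.Agent.Helper40.Tauber.moebius_periodic q (fun z : ZMod q => (g z.val : ℂ))
  refine h1.congr fun N => ?_
  push_cast
  congr 1
  refine Finset.sum_congr rfl fun n _ => ?_
  rw [ZMod.val_natCast, hmod, mul_comm]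

/-- Linear-plus-constant bound form of `o(N)`. -/
theorem lin_bound (u : ℕ → ℝ) (h : Tendsto (fun N : ℕ => u N / (N : ℝ)) atTop (𝓝 0))
    {δ : ℝ} (hδ : 0 < δ) : ∃ C : ℝ, 0 ≤ C ∧ ∀ N, |u N| ≤ δ * N + C := by
  have h1 := (Metric.tendsto_atTop.1 h) δ hδ
  obtain ⟨N0, hN0⟩ := h1
  refine ⟨∑ n ∈ Finset.range (N0 + 1), |u n|, Finset.sum_nonneg fun _ _ => abs_nonneg _,
    fun N => ?_⟩
  by_cases hN : N < N0 + 1
  · have h2 : |u N| ≤ ∑ n ∈ Finset.range (N0 + 1), |u n| :=
      Finset.single_le_sum (f := fun n => |u n|) (fun _ _ => abs_nonneg _)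
        (Finset.mem_range.2 hN)
    have h3 : 0 ≤ δ * N := by positivity
    linarith
  · have h2 := hN0 N (by omega)
    have hN1 : (0 : ℝ) < N := by exact_mod_cast (by omega : 0 < N)
    rw [dist_zero_right, Real.norm_eq_abs, abs_div, Nat.abs_cast, div_lt_iff₀ hN1] at h2
    have h3 : 0 ≤ ∑ n ∈ Finset.range (N0 + 1), |u n| :=
      Finset.sum_nonneg fun _ _ => abs_nonneg _
    linarith

/-- Converse: linear-plus-constant bounds give `o(N)`. -/
theorem tendsto_of_lin_bound (u : ℕ → ℝ)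
    (h : ∀ δ : ℝ, 0 < δ → ∃ C : ℝ, ∀ N : ℕ, |u N| ≤ δ * N + C) :
    Tendsto (fun N : ℕ => u N / (N : ℝ)) atTop (𝓝 0) := by
  rw [Metric.tendsto_atTop]
  intro ε hε
  obtain ⟨C, hC⟩ := h (ε / 2) (by positivity)
  obtain ⟨N0, hN0⟩ := exists_nat_gt (2 * |C| / ε)
  refine ⟨N0 + 1, fun N hN => ?_⟩
  have hN1 : (0 : ℝ) < N := by exact_mod_cast (by omega : 0 < N)
  have hN2 : (N0 : ℝ) ≤ N := by exact_mod_cast (by omega : N0 ≤ N)
  rw [dist_zero_right, Real.norm_eq_abs, abs_div, Nat.abs_cast, div_lt_iff₀ hN1]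
  have h1 := hC N
  have h2 : 2 * |C| / ε < N := hN0.trans_le hN2
  rw [div_lt_iff₀ hε] at h2
  have h3 := le_abs_self C
  linarith

end Pool.Agent.Helper51.Mo
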