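import Mathlib
import Pool.Agent.Helper51.MoNT
open Filter Topology Finset
open scoped ArithmeticFunction.Moebius

/-! Product words as periodic functions, state sums and the correlation bound. -/

namespace Pool.Agent.Helper51.Mo

/-- sign-valued -/
def PM (u : ℝ) : Prop := u = 1 ∨ u = -1

theorem PM.mul {u v : ℝ} (hu : PM u) (hv : PM v) : PM (u * v) := by
  rcases hu with rfl | rfl <;> rcases hv with rfl | rfl <;> simp [PM]

theorem PM.abs {u : ℝ} (hu : PM u) : |u| = 1 := by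
  rcases hu with rfl | rfl <;> simp

theorem PM.abs_le {u : ℝ} (hu : PM u) : |u| ≤ 1 := hu.abs.le

theorem PM.sq {u : ℝ} (hu : PM u) : u * u = 1 := by
  rcases hu with rfl | rfl <;> norm_num

theorem PM.neg {u : ℝ} (hu : PM u) : PM (-u) := by
  rcases hu with rfl | rfl <;> simp [PM]

theorem PM.pow {u : ℝ} (hu : PM u) (n : ℕ) : PM (u ^ n) := by
  induction n with
  | zero => left; simp
  | succ n ih => rw [pow_succ]; exact ih.mul hu

theorem pm_one : PM 1 := Or.inl rfl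

/-- The (periodic extension of the) product word of the blocks `s, s+1, …, s+k-1`. -/
def pw (β : ℕ → ℕ → ℝ) (ℓ : ℕ → ℕ) : ℕ → ℕ → ℕ → ℝ
  | _, 0, _ => 1
  | s, (k+1), n => β s n * pw β ℓ (s+1) k (n / ℓ s)

/-- The length of the product of the blocks `s, …, s+k-1`. -/
def len (ℓ : ℕ → ℕ) : ℕ → ℕ → ℕ
  | _, 0 => 1
  | s, (k+1) => ℓ s * len ℓ (s+1) k

theorem len_pos (ℓ : ℕ → ℕ) (hℓ : ∀ i, 1 ≤ ℓ i) (s k : ℕ) : 0 < len ℓ s k := by
  induction k generalizing s with
  | zero => simp [len]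
  | succ k ih => rw [len]; exact Nat.mul_pos (hℓ s) (ih _)

theorem len_add (ℓ : ℕ → ℕ) (s j k : ℕ) : len ℓ s (j + k) = len ℓ s j * len ℓ (s + j) k := by
  induction j generalizing s with
  | zero => simp [len]
  | succ j ih =>
    rw [show j + 1 + k = (j + k) + 1 by ring, len, len, ih, show s + 1 + j = s + (j + 1) by ring]
    ring

theorem len_one (ℓ : ℕ → ℕ) (s : ℕ) : len ℓ s 1 = ℓ s := by simp [len]

theorem len_succ' (ℓ : ℕ → ℕ) (s k : ℕ) : len ℓ s (k + 1) = len ℓ s k * ℓ (s + k) := by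
  rw [len_add, len_one]

theorem two_pow_le_len (ℓ : ℕ → ℕ) (hℓ : ∀ i, 2 ≤ ℓ i) (s k : ℕ) : 2 ^ k ≤ len ℓ s k := by
  induction k generalizing s with
  | zero => simp [len]
  | succ k ih =>
    rw [len, pow_succ, mul_comm]
    exact Nat.mul_le_mul (hℓ s) (ih _)

theorem pw_add (β : ℕ → ℕ → ℝ) (ℓ : ℕ → ℕ) (s j k n : ℕ) :
    pw β ℓ s (j + k) n = pw β ℓ s j n * pw β ℓ (s + j) k (n / len ℓ s j) := by
  induction j generalizing s n with
  | zero => simp [pw, len]
  | succ j ih =>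
    rw [show j + 1 + k = (j + k) + 1 by ring, pw, pw, ih, show s + 1 + j = s + (j + 1) by ring,
      len, Nat.div_div_eq_div_mul]
    ring

theorem pw_one (β : ℕ → ℕ → ℝ) (ℓ : ℕ → ℕ) (s n : ℕ) : pw β ℓ s 1 n = β s n := by simp [pw]

theorem pw_pm (β : ℕ → ℕ → ℝ) (ℓ : ℕ → ℕ) (hβ : ∀ i n, PM (β i n)) (s k n : ℕ) :
    PM (pw β ℓ s k n) := by
  induction k generalizing s n with
  | zero => exact pm_one
  | succ k ih => rw [pw]; exact (hβ _ _).mul (ih _ _)

theorem per_mul (f : ℕ → ℝ) (L : ℕ) (hf : ∀ n, f (n + L) = f n) (k n : ℕ) :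
    f (n + L * k) = f n := by
  induction k with
  | zero => simp
  | succ k ih => rw [Nat.mul_succ, ← add_assoc, hf, ih]

theorem pw_per (β : ℕ → ℕ → ℝ) (ℓ : ℕ → ℕ) (hℓ : ∀ i, 1 ≤ ℓ i)
    (hper : ∀ i n, β i (n + ℓ i) = β i n) (s k n : ℕ) :
    pw β ℓ s k (n + len ℓ s k) = pw β ℓ s k n := by
  induction k generalizing s n with
  | zero => simp [pw]
  | succ k ih =>
    rw [pw, pw, len, per_mul (β s) (ℓ s) (hper s), Nat.add_mul_div_left _ _ (hℓ s), ih]

/-- splitting a sum over `range (L * M)` -/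
theorem sum_split (L M : ℕ) (F : ℕ → ℝ) :
    ∑ n ∈ range (L * M), F n = ∑ m ∈ range L, ∑ f ∈ range M, F (L * f + m) := by
  induction M with
  | zero => simp
  | succ M ih =>
    rw [Nat.mul_succ, sum_range_add, ih, ← sum_add_distrib]
    refine sum_congr rfl fun m _ => ?_
    rw [sum_range_succ]

/-- State sum bound of a word `ξ` (an `L`-periodic function). -/
def SB (p q : ℕ) (ξ : ℕ → ℝ) (L : ℕ) (ρ : ℝ) : Prop :=
  ∀ (a b : ℕ) (σ : ℕ → ℕ → ℝ), (∀ k l, |σ k l| ≤ 1) →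
    |∑ m ∈ range L, σ ((p * m + a) / L) ((q * m + b) / L) * (ξ (p * m + a) * ξ (q * m + b))| ≤ ρ * L

theorem SB.mono {p q : ℕ} {ξ : ℕ → ℝ} {L : ℕ} {ρ ρ' : ℝ} (h : SB p q ξ L ρ) (hρ : ρ ≤ ρ') :
    SB p q ξ L ρ' := fun a b σ hσ =>
  (h a b σ hσ).trans (mul_le_mul_of_nonneg_right hρ (Nat.cast_nonneg _))

theorem SB.one (p q : ℕ) (ξ : ℕ → ℝ) (L : ℕ) (hξ : ∀ n, |ξ n| ≤ 1) : SB p q ξ L 1 := by
  intro a b σ hσ
  refine (abs_sum_le_sum_abs _ _).trans ?_
  calc _ ≤ ∑ m ∈ range L, (1 : ℝ) := by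
        refine sum_le_sum fun m _ => ?_
        rw [abs_mul, abs_mul]
        calc _ ≤ (1 : ℝ) * (1 * 1) := by
              gcongr
              · exact hσ _ _
              · exact hξ _
              · exact hξ _
          _ = 1 := by norm_num
    _ = 1 * L := by simp

theorem SB.mul {p q : ℕ} {ξ ζ : ℕ → ℝ} {L M : ℕ} {ρ₁ ρ₂ : ℝ} (hL : 0 < L)
    (hξ : ∀ n, ξ (n + L) = ξ n) (h0 : 0 ≤ ρ₂)
    (h1 : SB p q ξ L ρ₁) (h2 : SB p q ζ M ρ₂) :
    SB p q (fun n => ξ n * ζ (n / L)) (L * M) (ρ₁ * ρ₂) := by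
  intro a b σ hσ
  rw [sum_split]
  -- inner sums
  set I : ℕ → ℕ → ℝ := fun k l => ∑ f ∈ range M,
    σ ((p * f + k) / M) ((q * f + l) / M) * (ζ (p * f + k) * ζ (q * f + l)) with hI
  have hI1 : ∀ k l, |I k l| ≤ ρ₂ * M := fun k l => h2 k l σ hσ
  have key : ∀ m ∈ range L, ∑ f ∈ range M,
      σ ((p * (L * f + m) + a) / (L * M)) ((q * (L * f + m) + b) / (L * M)) *
        ((ξ (p * (L * f + m) + a) * ζ ((p * (L * f + m) + a) / L)) *
          (ξ (q * (L * f + m) + b) * ζ ((q * (L * f + m) + b) / L))) =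
      (ξ (p * m + a) * ξ (q * m + b)) * I ((p * m + a) / L) ((q * m + b) / L) := by
    intro m _
    rw [hI]
    simp only
    rw [mul_sum]
    refine sum_congr rfl fun f _ => ?_
    have e1 : ∀ r c : ℕ, r * (L * f + m) + c = (r * m + c) + L * (r * f) := by
      intro r c; ring
    have e2 : ∀ r c : ℕ, (r * (L * f + m) + c) / L = r * f + (r * m + c) / L := by
      intro r c
      rw [e1, Nat.add_mul_div_left _ _ hL, add_comm]
    have e3 : ∀ r c : ℕ, (r * (L * f + m) + c) / (L * M) = (r * f + (r * m + c) / L) / M := by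
      intro r c
      rw [← Nat.div_div_eq_div_mul, e2]
    have e4 : ∀ r c : ℕ, ξ (r * (L * f + m) + c) = ξ (r * m + c) := by
      intro r c
      rw [e1, per_mul ξ L hξ]
    rw [e3, e3, e2, e2, e4, e4]
    ring
  rw [sum_congr rfl key]
  by_cases hM : ρ₂ * (M : ℝ) = 0
  · -- inner sums vanish
    have hz : ∀ k l, I k l = 0 := by
      intro k l
      have h3 := hI1 k l
      rw [hM] at h3
      exact abs_nonpos_iff.1 h3
    simp only [hz, mul_zero, sum_const_zero, abs_zero]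
    push_cast
    have : ρ₁ * ρ₂ * ((L : ℝ) * M) = ρ₁ * L * (ρ₂ * M) := by ring
    rw [this, hM, mul_zero]
  · have hMpos : 0 < ρ₂ * (M : ℝ) := lt_of_le_of_ne (by positivity) (Ne.symm hM)
    have h3 := h1 a b (fun k l => I k l / (ρ₂ * M)) (by
      intro k l
      rw [abs_div, abs_of_pos hMpos, div_le_one hMpos]
      exact hI1 k l)
    have h4 : ∑ m ∈ range L, (ξ (p * m + a) * ξ (q * m + b)) *
        I ((p * m + a) / L) ((q * m + b) / L) = (ρ₂ * M) *
        ∑ m ∈ range L, (fun k l => I k l / (ρ₂ * M)) ((p * m + a) / L) ((q * m + b) / L) *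
          (ξ (p * m + a) * ξ (q * m + b)) := by
      rw [mul_sum]
      refine sum_congr rfl fun m hm => ?_
      simp only
      generalize ρ₂ * (M : ℝ) = c at hMpos
      have : c ≠ 0 := hMpos.ne'
      field_simp
    rw [h4, abs_mul, abs_of_pos hMpos]
    calc _ ≤ (ρ₂ * M) * (ρ₁ * L) := mul_le_mul_of_nonneg_left h3 hMpos.le
      _ = _ := by push_cast; ring

/-- The correlation bound over full blocks. -/
theorem corr_block {p q : ℕ} {ξ ζ ω w η : ℕ → ℝ} {L M : ℕ} {ρ : ℝ} (hL : 0 < L) (hM : 0 < M)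
    (hξ : ∀ n, ξ (n + L) = ξ n) (hξ1 : ∀ n, |ξ n| ≤ 1) (hζ : ∀ n, ζ (n + M) = ζ n)
    (hω : ∀ n, |ω n| ≤ 1) (hw : ∀ n, w (n + L) = w n) (hw1 : ∀ n, |w n| ≤ 1)
    (hSB : SB p q ζ M ρ) (a : ℕ)
    (hη : ∀ n, η n = ξ (n + a) * (ζ ((n + a) / L) * ω ((n + a) / L / M))) (e : ℕ) :
    |∑ n ∈ range (L * M * e), w n * (η (p * n) * η (q * n))| ≤ ρ * (L * M * e : ℕ) := by
  rw [sum_split, sum_comm]
  -- now: ∑ g < e, ∑ r < L*M
  have key : ∀ g, |∑ r ∈ range (L * M), w (L * M * g + r) *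
      (η (p * (L * M * g + r)) * η (q * (L * M * g + r)))| ≤ ρ * (L * M : ℕ) := by
    intro g
    rw [sum_split]
    have h1 : ∀ m ∈ range L, ∑ f ∈ range M, w (L * M * g + (L * f + m)) *
        (η (p * (L * M * g + (L * f + m))) * η (q * (L * M * g + (L * f + m)))) =
        (w m * (ξ (p * m + a) * ξ (q * m + a))) * ∑ f ∈ range M,
          (fun k l => ω (k + p * g) * ω (l + q * g)) ((p * f + (p * m + a) / L) / M)
            ((q * f + (q * m + a) / L) / M) *
          (ζ (p * f + (p * m + a) / L) * ζ (q * f + (q * m + a) / L)) := by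
      intro m _
      rw [mul_sum]
      refine sum_congr rfl fun f _ => ?_
      have e0 : w (L * M * g + (L * f + m)) = w m := by
        rw [show L * M * g + (L * f + m) = m + L * (M * g + f) by ring, per_mul w L hw]
      have e1 : ∀ r : ℕ, η (r * (L * M * g + (L * f + m))) =
          ξ (r * m + a) * (ζ (r * f + (r * m + a) / L) *
            ω ((r * f + (r * m + a) / L) / M + r * g)) := by
        intro r
        rw [hη]
        have e2 : r * (L * M * g + (L * f + m)) + a = (r * m + a) + L * (r * M * g + r * f) := by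
          ring
        have e3 : (r * (L * M * g + (L * f + m)) + a) / L =
            (r * f + (r * m + a) / L) + M * (r * g) := by
          rw [e2, Nat.add_mul_div_left _ _ hL]
          ring
        rw [e3, Nat.add_mul_div_left _ _ hM, per_mul ζ M hζ, e2, per_mul ξ L hξ]
      rw [e0, e1, e1]
      ring
    rw [sum_congr rfl h1]
    refine (abs_sum_le_sum_abs _ _).trans ?_
    have h5 : ∀ m ∈ range L, |w m * (ξ (p * m + a) * ξ (q * m + a)) * ∑ f ∈ range M,
          (fun k l => ω (k + p * g) * ω (l + q * g)) ((p * f + (p * m + a) / L) / M)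
            ((q * f + (q * m + a) / L) / M) *
          (ζ (p * f + (p * m + a) / L) * ζ (q * f + (q * m + a) / L))| ≤ ρ * M := by
      intro m hm
      rw [abs_mul]
      have h2 := hSB ((p * m + a) / L) ((q * m + a) / L) (fun k l => ω (k + p * g) * ω (l + q * g))
        (fun k l => by
          rw [abs_mul]
          calc _ ≤ (1 : ℝ) * 1 := by
                gcongr
                · exact hω _
                · exact hω _
            _ = 1 := one_mul 1)
      have h3 : |w m * (ξ (p * m + a) * ξ (q * m + a))| ≤ 1 := by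
        rw [abs_mul, abs_mul]
        calc _ ≤ (1 : ℝ) * (1 * 1) := by
              gcongr
              · exact hw1 _
              · exact hξ1 _
              · exact hξ1 _
          _ = 1 := by norm_num
      exact (mul_le_mul h3 h2 (abs_nonneg _) zero_le_one).trans_eq (one_mul _)
    refine (sum_le_sum h5).trans_eq ?_
    rw [sum_const, card_range, nsmul_eq_mul]
    push_cast
    ring
  refine (abs_sum_le_sum_abs _ _).trans ?_
  refine (sum_le_sum fun g _ => key g).trans_eq ?_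
  rw [sum_const, card_range, nsmul_eq_mul]
  push_cast
  ring

/-- The correlation bound for all `N`. -/
theorem corr_bound {p q : ℕ} {ξ ζ ω w η : ℕ → ℝ} {L M : ℕ} {ρ : ℝ} (hL : 0 < L) (hM : 0 < M)
    (hξ : ∀ n, ξ (n + L) = ξ n) (hξ1 : ∀ n, |ξ n| ≤ 1) (hζ : ∀ n, ζ (n + M) = ζ n)
    (hω : ∀ n, |ω n| ≤ 1) (hw : ∀ n, w (n + L) = w n) (hw1 : ∀ n, |w n| ≤ 1)
    (hη1 : ∀ n, |η n| ≤ 1) (hρ : 0 ≤ ρ)
    (hSB : SB p q ζ M ρ) (a : ℕ)
    (hη : ∀ n, η n = ξ (n + a) * (ζ ((n + a) / L) * ω ((n + a) / L / M))) (N : ℕ) :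
    |∑ n ∈ range N, w n * (η (p * n) * η (q * n))| ≤ ρ * N + (L * M : ℕ) := by
  set P := L * M with hP
  have hPpos : 0 < P := Nat.mul_pos hL hM
  have h1 := corr_block hL hM hξ hξ1 hζ hω hw hw1 hSB a hη (N / P)
  have h2 : N = P * (N / P) + N % P := (Nat.div_add_mod N P).symm
  have h3 : ∑ n ∈ range N, w n * (η (p * n) * η (q * n)) =
      ∑ n ∈ range (P * (N / P)), w n * (η (p * n) * η (q * n)) +
      ∑ r ∈ range (N % P), w (P * (N / P) + r) * (η (p * (P * (N / P) + r)) *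
        η (q * (P * (N / P) + r))) := by
    conv_lhs => rw [h2]
    rw [sum_range_add]
  rw [h3]
  refine (abs_add_le _ _).trans ?_
  have h4 : ρ * ((P * (N / P) : ℕ) : ℝ) ≤ ρ * N := by
    apply mul_le_mul_of_nonneg_left _ hρ
    exact_mod_cast Nat.mul_div_le N P
  have h5 : |∑ r ∈ range (N % P), w (P * (N / P) + r) * (η (p * (P * (N / P) + r)) *
        η (q * (P * (N / P) + r)))| ≤ (P : ℕ) := by
    refine (abs_sum_le_sum_abs _ _).trans ?_
    calc _ ≤ ∑ r ∈ range (N % P), (1 : ℝ) := by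
          refine sum_le_sum fun r _ => ?_
          rw [abs_mul, abs_mul]
          calc _ ≤ (1 : ℝ) * (1 * 1) := by
                gcongr
                · exact hw1 _
                · exact hη1 _
                · exact hη1 _
            _ = 1 := by norm_num
      _ = ((N % P : ℕ) : ℝ) := by simp
      _ ≤ P := by exact_mod_cast (Nat.mod_lt _ hPpos).le
  exact add_le_add (h1.trans h4) h5

/-- The level structure of a point of the Morse system. -/
def Lev (β : ℕ → ℕ → ℝ) (ℓ : ℕ → ℕ) (η : ℕ → ℝ) : Prop :=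
  ∀ i, ∃ a < len ℓ 0 i, ∃ ω : ℕ → ℝ, (∀ k, PM (ω k)) ∧
    ∀ n, η n = pw β ℓ 0 i (n + a) * ω ((n + a) / len ℓ 0 i)

theorem Lev.pm {β : ℕ → ℕ → ℝ} {ℓ : ℕ → ℕ} {η : ℕ → ℝ} (h : Lev β ℓ η)
    (hβ : ∀ i n, PM (β i n)) (n : ℕ) : PM (η n) := by
  obtain ⟨a, _, ω, hω, hη⟩ := h 0
  rw [hη]
  exact (pw_pm β ℓ hβ _ _ _).mul (hω _)

/-- Mixing property: state sums of windows starting anywhere tend to zero. -/
def Mix (β : ℕ → ℕ → ℝ) (ℓ : ℕ → ℕ) : Prop :=
  ∃ K : ℕ, ∀ p q : ℕ, p.Prime → q.Prime → K < p → K < q → p ≠ q →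
    ∀ j : ℕ, ∀ δ : ℝ, 0 < δ → ∃ k, SB p q (pw β ℓ j k) (len ℓ j k) δ

/-- Moebius orthogonality against periodic weights of level periods. -/
def Orth (ℓ : ℕ → ℕ) (η : ℕ → ℝ) : Prop :=
  ∀ i, ∀ g : ℕ → ℝ, (∀ n, g (n + len ℓ 0 i) = g n) → (∀ n, |g n| ≤ 1) →
    Tendsto (fun N : ℕ => (∑ n ∈ Finset.Icc 1 N, (μ n : ℝ) * (g n * η n)) / (N : ℝ)) atTop (𝓝 0)

theorem sum_Icc_one (F : ℕ → ℝ) (N : ℕ) :
    ∑ n ∈ Finset.Icc 1 N, F n = ∑ n ∈ range (N + 1), F n - F 0 := by
  rw [Finset.range_eq_Ico, Finset.sum_eq_sum_Ico_succ_bot (Nat.succ_pos N)]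
  have : Finset.Icc 1 N = Finset.Ico (0 + 1) (N + 1) := by
    ext x; simp [Nat.lt_succ_iff]
  rw [this]
  ring

theorem orth_of_mix {β : ℕ → ℕ → ℝ} {ℓ : ℕ → ℕ} {η : ℕ → ℝ} (hβ : ∀ i n, PM (β i n))
    (hℓ : ∀ i, 1 ≤ ℓ i) (hper : ∀ i n, β i (n + ℓ i) = β i n) (hmix : Mix β ℓ)
    (h : Lev β ℓ η) : Orth ℓ η := by
  intro i g hg hg1
  obtain ⟨K, hK⟩ := hmix
  have hη1 : ∀ n, |η n| ≤ 1 := fun n => (h.pm hβ n).abs_le
  apply katai_gt K
  · intro n
    rw [abs_mul]
    calc _ ≤ (1 : ℝ) * 1 := by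
          gcongr
          · exact hg1 _
          · exact hη1 _
      _ = 1 := one_mul 1
  · intro p q hp hq hKp hKq hpq
    apply tendsto_of_lin_bound
    intro δ hδ
    obtain ⟨k, hk⟩ := hK p q hp hq hKp hKq hpq i δ hδ
    obtain ⟨a, ha, ω, hω, hηω⟩ := h (i + k)
    set L := len ℓ 0 i with hLdef
    set M := len ℓ i k with hMdef
    have hL : 0 < L := len_pos ℓ hℓ 0 i
    have hM : 0 < M := len_pos ℓ hℓ i k
    have hlen : len ℓ 0 (i + k) = L * M := by rw [len_add, zero_add]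
    have hform : ∀ n, η n = pw β ℓ 0 i (n + a) *
        (pw β ℓ i k ((n + a) / L) * ω ((n + a) / L / M)) := by
      intro n
      rw [hηω, pw_add, zero_add, hlen, ← Nat.div_div_eq_div_mul]
      ring
    have hw : ∀ n, (fun n => g (p * n) * g (q * n)) (n + L) = (fun n => g (p * n) * g (q * n)) n := by
      intro n
      simp only
      rw [show p * (n + L) = p * n + L * p by ring, show q * (n + L) = q * n + L * q by ring,
        per_mul g L hg, per_mul g L hg]
    have hw1 : ∀ n, |(fun n => g (p * n) * g (q * n)) n| ≤ 1 := by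
      intro n
      simp only
      rw [abs_mul]
      calc _ ≤ (1 : ℝ) * 1 := by
            gcongr
            · exact hg1 _
            · exact hg1 _
        _ = 1 := one_mul 1
    have hmain := corr_bound (p := p) (q := q) hL hM (pw_per β ℓ hℓ hper 0 i)
      (fun n => (pw_pm β ℓ hβ 0 i n).abs_le) (pw_per β ℓ hℓ hper i k)
      (fun n => (hω n).abs_le) hw hw1 hη1 hδ.le hk a hform
    refine ⟨δ + (L * M : ℕ) + 1, fun N => ?_⟩
    rw [sum_Icc_one]
    have h1 := hmain (N + 1)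
    have h2 : ∑ n ∈ range (N + 1), g (p * n) * η (p * n) * (g (q * n) * η (q * n)) =
        ∑ n ∈ range (N + 1), (fun n => g (p * n) * g (q * n)) n * (η (p * n) * η (q * n)) := by
      refine sum_congr rfl fun n _ => ?_
      simp only
      ring
    rw [h2]
    have h3 : |g (p * 0) * η (p * 0) * (g (q * 0) * η (q * 0))| ≤ 1 := by
      rw [abs_mul, abs_mul, abs_mul]
      calc _ ≤ ((1 : ℝ) * 1) * (1 * 1) := by
            gcongr
            · exact hg1 _
            · exact hη1 _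
            · exact hg1 _
            · exact hη1 _
        _ = 1 := by norm_num
    refine (abs_sub _ _).trans ?_
    push_cast at h1 ⊢
    linarith

end Pool.Agent.Helper51.Mo
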