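import Mathlib
import Pool.Agent.Helper51.MoCore
open Filter Topology Finset

/-! Counting lemma behind the drop lemma. -/

namespace Pool.Agent.Helper51.Mo

/-- indicator -/
noncomputable def ind (P : Prop) : ℝ := open Classical in if P then 1 else 0

theorem ind_nonneg (P : Prop) : 0 ≤ ind P := by
  unfold ind; split_ifs <;> norm_num

theorem ind_le_one (P : Prop) : ind P ≤ 1 := by
  unfold ind; split_ifs <;> norm_num

theorem ind_true {P : Prop} (h : P) : ind P = 1 := by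
  unfold ind; rw [if_pos h]

theorem ind_false {P : Prop} (h : ¬ P) : ind P = 0 := by
  unfold ind; rw [if_neg h]

theorem sum_shift (G : ℕ → ℝ) (ℓ : ℕ) (hG : ∀ n, G (n + ℓ) = G n) (c : ℕ) :
    ∑ n ∈ range ℓ, G (n + c) = ∑ n ∈ range ℓ, G n := by
  induction c with
  | zero => simp
  | succ c ih =>
    rw [← ih]
    have h1 : ∑ n ∈ range (ℓ + 1), G (n + c) = ∑ n ∈ range ℓ, G (n + c) + G (ℓ + c) :=
      sum_range_succ _ _
    have h2 : ∑ n ∈ range (ℓ + 1), G (n + c) = ∑ n ∈ range ℓ, G (n + 1 + c) + G (0 + c) :=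
      sum_range_succ' _ _
    have h3 : G (ℓ + c) = G (0 + c) := by rw [add_comm ℓ c, hG, zero_add]
    rw [h3] at h1
    have h4 : ∑ n ∈ range ℓ, G (n + (c + 1)) = ∑ n ∈ range ℓ, G (n + 1 + c) :=
      sum_congr rfl fun n _ => by rw [show n + (c + 1) = n + 1 + c by ring]
    rw [h4]
    linarith

theorem sum_mul_period (G : ℕ → ℝ) (ℓ : ℕ) (hG : ∀ n, G (n + ℓ) = G n) (r c : ℕ) :
    ∑ n ∈ range (ℓ * r), G (n + c) = r * ∑ n ∈ range ℓ, G n := by
  induction r with
  | zero => simp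
  | succ r ih =>
    rw [Nat.mul_succ, sum_range_add, ih]
    have : ∑ x ∈ range ℓ, G (ℓ * r + x + c) = ∑ x ∈ range ℓ, G x := by
      rw [← sum_shift G ℓ hG c]
      refine sum_congr rfl fun x _ => ?_
      rw [show ℓ * r + x + c = (x + c) + ℓ * r by ring, per_mul G ℓ hG]
    rw [this]
    push_cast
    ring

/-- exact cover -/
theorem sum_cover (G : ℕ → ℝ) (ℓ : ℕ) (hG : ∀ n, G (n + ℓ) = G n) (r c : ℕ) :
    ∑ t ∈ range r, ∑ d ∈ range ℓ, G (r * d + t + c) = r * ∑ n ∈ range ℓ, G n := by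
  rw [← sum_split r ℓ (fun n => G (n + c)), mul_comm r ℓ, sum_mul_period G ℓ hG]

/-- sampling inequality -/
theorem sum_sample (G : ℕ → ℝ) (ℓ : ℕ) (hG : ∀ n, G (n + ℓ) = G n) (h0 : ∀ n, 0 ≤ G n)
    (r c : ℕ) (hr : 1 ≤ r) :
    ∑ s ∈ range ℓ, G (r * s + c) ≤ r * ∑ n ∈ range ℓ, G n := by
  rw [← sum_cover G ℓ hG r c]
  have h1 := single_le_sum (f := fun t => ∑ d ∈ range ℓ, G (r * d + t + c))
    (fun t _ => sum_nonneg fun d _ => h0 _) (mem_range.2 hr : 0 ∈ range r)
  simpa using h1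

/-- the class `i` modulo `r` is nearly monochromatic -/
def Good (ℓ : ℕ) (J : ℕ → ℝ) (V : ℝ) (r i : ℕ) : Prop :=
  ∃ ε : ℝ, PM ε ∧ ∑ d ∈ range ℓ, ind (J (r * d + i) ≠ ε) ≤ V

theorem per_arg (J : ℕ → ℝ) (ℓ : ℕ) (hJ : ∀ n, J (n + ℓ) = J n) (r i n : ℕ) :
    J (r * (n + ℓ) + i) = J (r * n + i) := by
  rw [show r * (n + ℓ) + i = (r * n + i) + ℓ * r by ring, per_mul J ℓ hJ]

theorem good_add {ℓ : ℕ} {J : ℕ → ℝ} {V : ℝ} (hJ : ∀ n, J (n + ℓ) = J n) (r i : ℕ)
    (ε : ℝ) (h : ∑ d ∈ range ℓ, ind (J (r * d + i) ≠ ε) ≤ V) (k : ℕ) :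
    ∑ d ∈ range ℓ, ind (J (r * d + (i + r * k)) ≠ ε) ≤ V := by
  have h1 : ∑ d ∈ range ℓ, ind (J (r * d + (i + r * k)) ≠ ε) =
      ∑ d ∈ range ℓ, (fun d => ind (J (r * d + i) ≠ ε)) (d + k) := by
    refine sum_congr rfl fun d _ => ?_
    simp only
    rw [show r * (d + k) + i = r * d + (i + r * k) by ring]
  rw [h1, sum_shift (fun d => ind (J (r * d + i) ≠ ε)) ℓ (fun n => by rw [per_arg J ℓ hJ])]
  exact h

theorem good_of_add {ℓ : ℕ} {J : ℕ → ℝ} {V : ℝ} (hJ : ∀ n, J (n + ℓ) = J n) (r i : ℕ)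
    (ε : ℝ) (k : ℕ) (h : ∑ d ∈ range ℓ, ind (J (r * d + (i + r * k)) ≠ ε) ≤ V) :
    ∑ d ∈ range ℓ, ind (J (r * d + i) ≠ ε) ≤ V := by
  have h1 : ∑ d ∈ range ℓ, ind (J (r * d + (i + r * k)) ≠ ε) =
      ∑ d ∈ range ℓ, (fun d => ind (J (r * d + i) ≠ ε)) (d + k) := by
    refine sum_congr rfl fun d _ => ?_
    simp only
    rw [show r * (d + k) + i = r * d + (i + r * k) by ring]
  rw [h1, sum_shift (fun d => ind (J (r * d + i) ≠ ε)) ℓ (fun n => by rw [per_arg J ℓ hJ])] at h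
  exact h

theorem good_congr {ℓ : ℕ} {J : ℕ → ℝ} {V : ℝ} (hJ : ∀ n, J (n + ℓ) = J n) {r i i' : ℕ}
    (hii : i ≡ i' [MOD r]) (h : Good ℓ J V r i) : Good ℓ J V r i' := by
  obtain ⟨ε, hε, hs⟩ := h
  refine ⟨ε, hε, ?_⟩
  rcases le_total i i' with hle | hle
  · obtain ⟨k, hk⟩ := (Nat.modEq_iff_dvd' hle).1 hii
    have : i' = i + r * k := by omega
    rw [this]
    exact good_add hJ r i ε hs k
  · obtain ⟨k, hk⟩ := (Nat.modEq_iff_dvd' hle).1 hii.symm
    have : i = i' + r * k := by omega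
    rw [this] at hs
    exact good_of_add hJ r i' ε k hs

/-- A common large representative of two residue classes. -/
theorem exists_common (p q : ℕ) (hcop : Nat.Coprime p q) (hp : 1 ≤ p) (hq : 1 ≤ q) (i j : ℕ) :
    ∃ c₁ c₂ : ℕ, p * c₁ + i = q * c₂ + j := by
  obtain ⟨k, hk1, hk2⟩ := Nat.chineseRemainder hcop i j
  have hpq : 1 ≤ p * q := Nat.mul_pos hp hq
  have e1 : i ≤ k + p * q * (i + j) := by nlinarith
  have e2 : j ≤ k + p * q * (i + j) := by nlinarith
  have m1 : i ≡ k + p * q * (i + j) [MOD p] := by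
    have : k + p * q * (i + j) ≡ k + 0 [MOD p] := by
      refine Nat.ModEq.add_left k ?_
      rw [Nat.modEq_zero_iff_dvd]
      exact Dvd.intro (q * (i + j)) (by ring)
    exact (this.trans hk1).symm
  have m2 : j ≡ k + p * q * (i + j) [MOD q] := by
    have : k + p * q * (i + j) ≡ k + 0 [MOD q] := by
      refine Nat.ModEq.add_left k ?_
      rw [Nat.modEq_zero_iff_dvd]
      exact Dvd.intro (p * (i + j)) (by ring)
    exact (this.trans hk2).symm
  obtain ⟨c₁, h1⟩ := (Nat.modEq_iff_dvd' e1).1 m1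
  obtain ⟨c₂, h2⟩ := (Nat.modEq_iff_dvd' e2).1 m2
  exact ⟨c₁, c₂, by omega⟩

/-- linking of signs -/
theorem link {p q ℓ : ℕ} {J : ℕ → ℝ} {V : ℝ} (hcop : Nat.Coprime p q) (hp : 1 ≤ p) (hq : 1 ≤ q)
    (hJ : ∀ n, J (n + ℓ) = J n) (i j : ℕ) {ε ε' : ℝ}
    (h1 : ∑ d ∈ range ℓ, ind (J (p * d + i) ≠ ε) ≤ V)
    (h2 : ∑ d ∈ range ℓ, ind (J (q * d + j) ≠ ε') ≤ V) (hne : ε ≠ ε') :
    (ℓ : ℝ) ≤ (p + q) * V := by
  obtain ⟨c₁, c₂, hc⟩ := exists_common p q hcop hp hq i j
  have s1 := sum_sample (fun d => ind (J (p * d + i) ≠ ε)) ℓ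
    (fun n => by rw [per_arg J ℓ hJ]) (fun n => ind_nonneg _) q c₁ hq
  have s2 := sum_sample (fun d => ind (J (q * d + j) ≠ ε')) ℓ
    (fun n => by rw [per_arg J ℓ hJ]) (fun n => ind_nonneg _) p c₂ hp
  have h3 : (ℓ : ℝ) ≤ ∑ s ∈ range ℓ, ind (J (p * (q * s + c₁) + i) ≠ ε) +
      ∑ s ∈ range ℓ, ind (J (q * (p * s + c₂) + j) ≠ ε') := by
    rw [← sum_add_distrib]
    calc (ℓ : ℝ) = ∑ s ∈ range ℓ, (1 : ℝ) := by simp
      _ ≤ _ := by
        refine sum_le_sum fun s _ => ?_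
        have e : q * (p * s + c₂) + j = p * (q * s + c₁) + i := by
          have : q * (p * s + c₂) + j = p * q * s + (q * c₂ + j) := by ring
          rw [this, ← hc]; ring
        rw [e]
        by_cases hh : J (p * (q * s + c₁) + i) = ε
        · have : J (p * (q * s + c₁) + i) ≠ ε' := by rw [hh]; exact hne
          rw [ind_true this]
          have := ind_nonneg (J (p * (q * s + c₁) + i) ≠ ε)
          linarith
        · rw [ind_true hh]
          have := ind_nonneg (J (p * (q * s + c₁) + i) ≠ ε')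
          linarith
  have hq' : (0 : ℝ) ≤ q := Nat.cast_nonneg _
  have hp' : (0 : ℝ) ≤ p := Nat.cast_nonneg _
  have t1 := mul_le_mul_of_nonneg_left h1 hq'
  have t2 := mul_le_mul_of_nonneg_left h2 hp'
  linarith

theorem exists_avoid (p q : ℕ) (hp : p.Prime) (hq : q.Prime) (hpq : p ≠ q) (hp3 : 3 ≤ p)
    (hq3 : 3 ≤ q) (I₀ J₀ : ℕ) :
    ∃ c : ℕ, ¬ (p * c + I₀ ≡ J₀ [MOD q]) ∧ ¬ (q * c + J₀ ≡ I₀ [MOD p]) := by
  by_contra hcon
  push Not at hcon
  have hcop : Nat.Coprime q p := (Nat.coprime_primes hq hp).2 (Ne.symm hpq)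
  -- each condition excludes at most one of 0,1,2
  have key : ∀ (p q : ℕ), q.Prime → Nat.Coprime q p → 3 ≤ q → ∀ I₀ J₀ c c' : ℕ, c < c' → c' ≤ 2 →
      (p * c + I₀ ≡ J₀ [MOD q]) → (p * c' + I₀ ≡ J₀ [MOD q]) → False := by
    intro p q hq hcop hq3 I₀ J₀ c c' hcc hc' h1 h2
    have h3 : p * c + I₀ ≡ p * c' + I₀ [MOD q] := h1.trans h2.symm
    have h4 : p * c ≡ p * c' [MOD q] := Nat.ModEq.add_right_cancel' I₀ h3
    have h5 : c ≡ c' [MOD q] := Nat.ModEq.cancel_left_of_coprime hcop h4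
    have h6 := (Nat.modEq_iff_dvd' hcc.le).1 h5
    have h7 := Nat.le_of_dvd (by omega) h6
    omega
  have h0 := hcon 0
  have h1 := hcon 1
  have h2 := hcon 2
  by_cases a0 : (p * 0 + I₀ ≡ J₀ [MOD q])
  · by_cases a1 : (p * 1 + I₀ ≡ J₀ [MOD q])
    · exact key p q hq hcop hq3 I₀ J₀ 0 1 (by norm_num) (by norm_num) a0 a1
    · by_cases a2 : (p * 2 + I₀ ≡ J₀ [MOD q])
      · exact key p q hq hcop hq3 I₀ J₀ 0 2 (by norm_num) (by norm_num) a0 a2
      · exact key q p hp hcop.symm hp3 J₀ I₀ 1 2 (by norm_num) (by norm_num) (h1 a1) (h2 a2)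
  · by_cases a1 : (p * 1 + I₀ ≡ J₀ [MOD q])
    · by_cases a2 : (p * 2 + I₀ ≡ J₀ [MOD q])
      · exact key p q hq hcop hq3 I₀ J₀ 1 2 (by norm_num) (by norm_num) a1 a2
      · exact key q p hp hcop.symm hp3 J₀ I₀ 0 2 (by norm_num) (by norm_num) (h0 a0) (h2 a2)
    · exact key q p hp hcop.symm hp3 J₀ I₀ 0 1 (by norm_num) (by norm_num) (h0 a0) (h1 a1)

/-- The counting lemma. -/
theorem count_main {p q ℓ : ℕ} {J : ℕ → ℝ} {V : ℝ} (hp : p.Prime) (hq : q.Prime) (hpq : p ≠ q)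
    (hp3 : 3 ≤ p) (hq3 : 3 ≤ q) (hJ : ∀ n, J (n + ℓ) = J n) (hJ1 : ∀ n, PM (J n)) (hV : 0 ≤ V)
    (I₀ J₀ : ℕ)
    (h1 : ∀ i, ¬ (i ≡ I₀ [MOD p]) → Good ℓ J V p i)
    (h2 : ∀ j, ¬ (j ≡ J₀ [MOD q]) → Good ℓ J V q j)
    (h3 : Good ℓ J V p I₀ ∨
      ∃ τ : ℝ, PM τ ∧ ∑ d ∈ range ℓ, ind (J (p * d + I₀) * J (q * d + J₀) ≠ τ) ≤ V) :
    ∃ ε : ℝ, PM ε ∧ ∑ n ∈ range ℓ, ind (J n ≠ ε) ≤ (p + q) ^ 2 * V := by
  have hcop : Nat.Coprime p q := (Nat.coprime_primes hp hq).2 hpq
  have hpR : (3 : ℝ) ≤ p := by exact_mod_cast hp3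
  have hqR : (3 : ℝ) ≤ q := by exact_mod_cast hq3
  by_cases hbig : (ℓ : ℝ) ≤ (p + q) ^ 2 * V
  · refine ⟨1, pm_one, ?_⟩
    refine le_trans ?_ hbig
    calc _ ≤ ∑ n ∈ range ℓ, (1 : ℝ) := sum_le_sum fun n _ => ind_le_one _
      _ = ℓ := by simp
  push Not at hbig
  have hbig' : (p + q) * V < ℓ := by
    refine lt_of_le_of_lt ?_ hbig
    have : (p + q : ℝ) ≤ (p + q) ^ 2 := by nlinarith
    exact mul_le_mul_of_nonneg_right this hV
  -- the common sign
  have hne : ∀ r : ℕ, 3 ≤ r → ∀ i, ¬ (i + 1 ≡ i [MOD r]) := by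
    intro r hr i hcon
    have h4 := (Nat.modEq_iff_dvd' (Nat.le_succ i)).1 hcon.symm
    have h5 := Nat.le_of_dvd (by omega) h4
    omega
  obtain ⟨ε, hε, hεs⟩ := h2 (J₀ + 1) (hne q hq3 J₀)
  have g1 : ∀ i, Good ℓ J V p i → ∑ d ∈ range ℓ, ind (J (p * d + i) ≠ ε) ≤ V := by
    intro i hi
    obtain ⟨ε', hε', hs⟩ := hi
    have : ε' = ε := by
      by_contra hcon
      have := link hcop (by omega) (by omega) hJ i (J₀ + 1) hs hεs hcon
      linarith
    rw [← this]; exact hs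
  have g2 : ∀ j, Good ℓ J V q j → ∑ d ∈ range ℓ, ind (J (q * d + j) ≠ ε) ≤ V := by
    intro j hj
    obtain ⟨ε', hε', hs⟩ := hj
    have : ε = ε' := by
      by_contra hcon
      have := link hcop (by omega) (by omega) hJ (I₀ + 1) j
        (g1 _ (h1 _ (hne p hp3 I₀))) hs hcon
      linarith
    rw [this]; exact hs
  refine ⟨ε, hε, ?_⟩
  set G : ℕ → ℝ := fun n => ind (J n ≠ ε) with hG
  have hGper : ∀ n, G (n + ℓ) = G n := fun n => by rw [hG]; simp only; rw [hJ]
  have hG0 : ∀ n, 0 ≤ G n := fun n => ind_nonneg _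
  set S := ∑ n ∈ range ℓ, G n with hS
  have hS0 : 0 ≤ S := sum_nonneg fun n _ => hG0 n
  have hsq : (1 : ℝ) ≤ (p + q) ^ 2 := by nlinarith
  -- the class sums
  have c1 : p * S ≤ (p - 1) * V + ∑ d ∈ range ℓ, G (p * d + I₀) := by
    rw [hS, ← sum_cover G ℓ hGper p I₀]
    have hp1 : p = (p - 1) + 1 := by omega
    have e : ∑ t ∈ range p, ∑ d ∈ range ℓ, G (p * d + t + I₀) =
        ∑ t ∈ range (p - 1), ∑ d ∈ range ℓ, G (p * d + (t + 1) + I₀) +
          ∑ d ∈ range ℓ, G (p * d + 0 + I₀) := by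
      conv_lhs => rw [hp1]
      rw [sum_range_succ' (fun t => ∑ d ∈ range ℓ, G ((p - 1 + 1) * d + t + I₀))]
      rw [← hp1]
    rw [e]
    have e2 : ∑ t ∈ range (p - 1), ∑ d ∈ range ℓ, G (p * d + (t + 1) + I₀) ≤ (p - 1) * V := by
      calc _ ≤ ∑ t ∈ range (p - 1), V := by
            refine sum_le_sum fun t ht => ?_
            have ht' := mem_range.1 ht
            have := g1 (I₀ + (t + 1)) (h1 _ (by
              intro hcon
              have h4 := (Nat.modEq_iff_dvd' (Nat.le_add_right I₀ (t + 1))).1 hcon.symm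
              have h5 := Nat.le_of_dvd (by omega) h4
              omega))
            refine le_trans (le_of_eq ?_) this
            refine sum_congr rfl fun d _ => ?_
            rw [hG]; simp only
            rw [show p * d + (t + 1) + I₀ = p * d + (I₀ + (t + 1)) by ring]
        _ = (p - 1) * V := by
            rw [sum_const, card_range, nsmul_eq_mul]
            rw [Nat.cast_sub (by omega)]; push_cast; ring
    simpa using e2
  have c2 : q * S ≤ (q - 1) * V + ∑ d ∈ range ℓ, G (q * d + J₀) := by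
    rw [hS, ← sum_cover G ℓ hGper q J₀]
    have hp1 : q = (q - 1) + 1 := by omega
    have e : ∑ t ∈ range q, ∑ d ∈ range ℓ, G (q * d + t + J₀) =
        ∑ t ∈ range (q - 1), ∑ d ∈ range ℓ, G (q * d + (t + 1) + J₀) +
          ∑ d ∈ range ℓ, G (q * d + 0 + J₀) := by
      conv_lhs => rw [hp1]
      rw [sum_range_succ' (fun t => ∑ d ∈ range ℓ, G ((q - 1 + 1) * d + t + J₀))]
      rw [← hp1]
    rw [e]
    have e2 : ∑ t ∈ range (q - 1), ∑ d ∈ range ℓ, G (q * d + (t + 1) + J₀) ≤ (q - 1) * V := by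
      calc _ ≤ ∑ t ∈ range (q - 1), V := by
            refine sum_le_sum fun t ht => ?_
            have ht' := mem_range.1 ht
            have := g2 (J₀ + (t + 1)) (h2 _ (by
              intro hcon
              have h4 := (Nat.modEq_iff_dvd' (Nat.le_add_right J₀ (t + 1))).1 hcon.symm
              have h5 := Nat.le_of_dvd (by omega) h4
              omega))
            refine le_trans (le_of_eq ?_) this
            refine sum_congr rfl fun d _ => ?_
            rw [hG]; simp only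
            rw [show q * d + (t + 1) + J₀ = q * d + (J₀ + (t + 1)) by ring]
        _ = (q - 1) * V := by
            rw [sum_const, card_range, nsmul_eq_mul]
            rw [Nat.cast_sub (by omega)]; push_cast; ring
    simpa using e2
  have hpV : (p - 1 : ℝ) * V ≤ p * V := by nlinarith
  rcases h3 with h3 | ⟨τ, hτ, hτs⟩
  · have c3 := g1 I₀ h3
    have c4 : p * S ≤ p * V := by
      have : (p - 1 : ℝ) * V + V = p * V := by ring
      have c5 : ∑ d ∈ range ℓ, G (p * d + I₀) ≤ V := c3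
      linarith
    have c5 : S ≤ V := le_of_mul_le_mul_left c4 (by linarith)
    calc S ≤ 1 * V := by linarith
      _ ≤ (p + q) ^ 2 * V := mul_le_mul_of_nonneg_right hsq hV
  · set Y₁ := ∑ d ∈ range ℓ, G (p * d + I₀) with hY₁
    set Y₂ := ∑ d ∈ range ℓ, G (q * d + J₀) with hY₂
    have y1 : Y₁ ≤ p * S := sum_sample G ℓ hGper hG0 p I₀ (by omega)
    have y2 : Y₂ ≤ q * S := sum_sample G ℓ hGper hG0 q J₀ (by omega)
    rcases hτ with rfl | rfl
    · -- τ = 1
      have d1 : Y₁ ≤ Y₂ + V := by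
        rw [hY₁, hY₂]
        refine le_trans ?_ (add_le_add_right hτs _)
        rw [← sum_add_distrib]
        refine sum_le_sum fun d _ => ?_
        by_cases hrel : J (p * d + I₀) * J (q * d + J₀) = 1
        · have : J (p * d + I₀) = J (q * d + J₀) := by
            rcases hJ1 (p * d + I₀) with ha | ha <;> rcases hJ1 (q * d + J₀) with hb | hb <;>
              rw [ha, hb] at hrel ⊢ <;> norm_num at hrel
          rw [hG]; simp only
          rw [this]
          have := ind_nonneg (J (q * d + J₀) * J (q * d + J₀) ≠ 1)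
          linarith
        · rw [ind_true hrel]
          have := hG0 (q * d + J₀)
          have h6 : G (p * d + I₀) ≤ 1 := ind_le_one _
          linarith
      have d2 : Y₂ ≤ Y₁ + V := by
        rw [hY₁, hY₂]
        refine le_trans ?_ (add_le_add_right hτs _)
        rw [← sum_add_distrib]
        refine sum_le_sum fun d _ => ?_
        by_cases hrel : J (p * d + I₀) * J (q * d + J₀) = 1
        · have : J (p * d + I₀) = J (q * d + J₀) := by
            rcases hJ1 (p * d + I₀) with ha | ha <;> rcases hJ1 (q * d + J₀) with hb | hb <;>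
              rw [ha, hb] at hrel ⊢ <;> norm_num at hrel
          rw [hG]; simp only
          rw [this]
          have := ind_nonneg (J (q * d + J₀) * J (q * d + J₀) ≠ 1)
          linarith
        · rw [ind_true hrel]
          have := hG0 (p * d + I₀)
          have h6 : G (q * d + J₀) ≤ 1 := ind_le_one _
          linarith
      have hfin : S ≤ (p + q) * V := by
        rcases lt_or_gt_of_ne hpq with hlt | hlt
        · have h7 : (1 : ℝ) ≤ q - p := by
            have : (p : ℝ) + 1 ≤ q := by exact_mod_cast hlt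
            linarith
          nlinarith
        · have h7 : (1 : ℝ) ≤ p - q := by
            have : (q : ℝ) + 1 ≤ p := by exact_mod_cast hlt
            linarith
          nlinarith
      refine hfin.trans (mul_le_mul_of_nonneg_right ?_ hV)
      nlinarith
    · -- τ = -1
      exfalso
      obtain ⟨c, hc1, hc2⟩ := exists_avoid p q hp hq hpq hp3 hq3 I₀ J₀
      have k1 := g2 _ (h2 _ hc1)
      have k2 := g1 _ (h1 _ hc2)
      have r1 := sum_sample (fun d => ind (J (q * d + (p * c + I₀)) ≠ ε)) ℓ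
        (fun n => by rw [per_arg J ℓ hJ]) (fun n => ind_nonneg _) (p ^ 2) 0
        (Nat.one_le_pow _ _ (by omega))
      have r2 := sum_sample (fun d => ind (J (p * d + (q * c + J₀)) ≠ ε)) ℓ
        (fun n => by rw [per_arg J ℓ hJ]) (fun n => ind_nonneg _) (q ^ 2) 0
        (Nat.one_le_pow _ _ (by omega))
      have r3 := sum_sample (fun d => ind (J (p * d + I₀) * J (q * d + J₀) ≠ -1)) ℓ
        (fun n => by rw [per_arg J ℓ hJ, per_arg J ℓ hJ]) (fun n => ind_nonneg _)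
        (p * q) c (Nat.mul_pos (by omega) (by omega))
      simp only [add_zero] at r1 r2 r3
      have hall : (ℓ : ℝ) ≤ ∑ s ∈ range ℓ, ind (J (q * (p ^ 2 * s) + (p * c + I₀)) ≠ ε) +
          ∑ s ∈ range ℓ, ind (J (p * (q ^ 2 * s) + (q * c + J₀)) ≠ ε) +
          ∑ s ∈ range ℓ, ind (J (p * (p * q * s + c) + I₀) * J (q * (p * q * s + c) + J₀) ≠ -1) := by
        rw [← sum_add_distrib, ← sum_add_distrib]
        calc (ℓ : ℝ) = ∑ s ∈ range ℓ, (1 : ℝ) := by simp
          _ ≤ _ := by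
            refine sum_le_sum fun s _ => ?_
            rw [show p * (p * q * s + c) + I₀ = q * (p ^ 2 * s) + (p * c + I₀) by ring,
              show q * (p * q * s + c) + J₀ = p * (q ^ 2 * s) + (q * c + J₀) by ring]
            generalize q * (p ^ 2 * s) + (p * c + I₀) = x
            generalize p * (q ^ 2 * s) + (q * c + J₀) = y
            have n1 := ind_nonneg (J x ≠ ε)
            have n2 := ind_nonneg (J y ≠ ε)
            have n3 := ind_nonneg (J x * J y ≠ -1)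
            by_cases hx : J x = ε
            · by_cases hy : J y = ε
              · have : J x * J y ≠ -1 := by
                  rw [hx, hy, hε.sq]; norm_num
                rw [ind_true this]; linarith
              · rw [ind_true hy]; linarith
            · rw [ind_true hx]; linarith
      have hp0 : (0 : ℝ) ≤ p := by linarith
      have hq0 : (0 : ℝ) ≤ q := by linarith
      have t1 : ((p ^ 2 : ℕ) : ℝ) * ∑ n ∈ range ℓ, ind (J (q * n + (p * c + I₀)) ≠ ε) ≤
          (p : ℝ) ^ 2 * V := by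
        push_cast
        exact mul_le_mul_of_nonneg_left k1 (by positivity)
      have t2 : ((q ^ 2 : ℕ) : ℝ) * ∑ n ∈ range ℓ, ind (J (p * n + (q * c + J₀)) ≠ ε) ≤
          (q : ℝ) ^ 2 * V := by
        push_cast
        exact mul_le_mul_of_nonneg_left k2 (by positivity)
      have t3 : ((p * q : ℕ) : ℝ) * ∑ n ∈ range ℓ, ind (J (p * n + I₀) * J (q * n + J₀) ≠ -1) ≤
          (p * q : ℝ) * V := by
        push_cast
        exact mul_le_mul_of_nonneg_left hτs (by positivity)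
      have hpqV : 0 ≤ (p : ℝ) * q * V := by positivity
      have : (ℓ : ℝ) ≤ (p + q) ^ 2 * V := by nlinarith
      linarith

end Pool.Agent.Helper51.Mo
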