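import Mathlib
import Pool.Agent.Helper51.MoCore
import Pool.Agent.Helper51.MoCount
open Filter Topology Finset
open scoped ArithmeticFunction.Moebius

/-! Reduction of products of shifts to the orthogonality with periodic weights. -/

namespace Pool.Agent.Helper51.Mo

theorem list_prod_pm (s : List ℕ) (u : ℕ → ℝ) (hu : ∀ n, PM (u n)) :
    PM ((s.map u).prod) := by
  induction s with
  | nil => exact pm_one
  | cons a s ih => rw [List.map_cons, List.prod_cons]; exact (hu a).mul ih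

theorem list_prod_factor (s : List ℕ) (u v : ℕ → ℝ) (w : ℝ) (h : ∀ c ∈ s, u c = v c * w) :
    (s.map u).prod = (s.map v).prod * w ^ s.length := by
  induction s with
  | nil => simp
  | cons c s ih =>
    rw [List.map_cons, List.prod_cons, List.map_cons, List.prod_cons, List.length_cons, pow_succ,
      ih (fun c hc => h c (List.mem_cons_of_mem _ hc)), h c List.mem_cons_self]
    ring

theorem abs_mu_le (n : ℕ) : |(μ n : ℝ)| ≤ 1 := by
  have : |μ n| ≤ 1 := ArithmeticFunction.abs_moebius_le_one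
  exact_mod_cast this

/-- The characters. -/
theorem char_orth {β : ℕ → ℕ → ℝ} {ℓ : ℕ → ℕ} {η : ℕ → ℝ} (hβ : ∀ i n, PM (β i n))
    (hℓ : ∀ i, 2 ≤ ℓ i) (hper : ∀ i n, β i (n + ℓ i) = β i n) (h : Lev β ℓ η) (ho : Orth ℓ η)
    (s : List ℕ) :
    Tendsto (fun N : ℕ => (∑ n ∈ Finset.Icc 1 N, (μ n : ℝ) * (s.map fun c => η (n + c)).prod) /
      (N : ℝ)) atTop (𝓝 0) := by
  have hℓ1 : ∀ i, 1 ≤ ℓ i := fun i => by have := hℓ i; omega
  have hη : ∀ n, PM (η n) := h.pm hβ
  apply tendsto_of_lin_bound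
  intro δ hδ
  -- bound for the shifts
  obtain ⟨m₀, hm₀⟩ : ∃ m₀, ∀ a ∈ s, a ≤ m₀ := ⟨s.sum, fun a ha => List.le_sum_of_mem ha⟩
  -- choose the level
  obtain ⟨i, hi⟩ : ∃ i : ℕ, 4 * (m₀ : ℝ) / δ < 2 ^ i := pow_unbounded_of_one_lt _ (by norm_num)
  obtain ⟨a, ha, ω, hω, hηω⟩ := h i
  set L := len ℓ 0 i with hL
  have hLpos : 0 < L := len_pos ℓ hℓ1 0 i
  have hLR : (0 : ℝ) < L := by exact_mod_cast hLpos
  have hLbig : 4 * (m₀ : ℝ) / δ < L := by
    have h1 : ((2 ^ i : ℕ) : ℝ) ≤ L := by exact_mod_cast two_pow_le_len ℓ hℓ 0 i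
    push_cast at h1
    linarith
  set ξ := pw β ℓ 0 i with hξ
  have hξper : ∀ n, ξ (n + L) = ξ n := pw_per β ℓ hℓ1 hper 0 i
  have hξpm : ∀ n, PM (ξ n) := pw_pm β ℓ hβ 0 i
  set G : ℕ → ℝ := fun n => (s.map fun c => ξ (n + a + c)).prod with hG
  have hGper : ∀ n, G (n + L) = G n := by
    intro n
    rw [hG]
    simp only
    congr 1
    refine List.map_congr_left fun c _ => ?_
    rw [show n + L + a + c = (n + a + c) + L by ring, hξper]
  have hGpm : ∀ n, PM (G n) := fun n => list_prod_pm s _ fun c => hξpm _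
  -- the bad set
  set Bad : ℕ → Prop := fun n => L ≤ (n + a) % L + m₀ with hBad
  have hgood : ∀ n, ¬ Bad n → (s.map fun c => η (n + c)).prod = G n * ω ((n + a) / L) ^ s.length := by
    intro n hn
    rw [hBad] at hn
    simp only at hn
    push Not at hn
    apply list_prod_factor
    intro c hc
    have h2 := hm₀ c hc
    rw [hηω, show n + c + a = n + a + c by ring]
    congr 2
    have h3 := Nat.mod_add_div (n + a) L
    rw [show n + a + c = ((n + a) % L + c) + L * ((n + a) / L) by omega,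
      Nat.add_mul_div_left _ _ hLpos, Nat.div_eq_of_lt (by omega), zero_add]
  -- counting bad integers
  have hBadper : ∀ n, ind (Bad (n + L)) = ind (Bad n) := by
    intro n
    have : Bad (n + L) ↔ Bad n := by
      rw [hBad]; simp only
      rw [show n + L + a = n + a + L by ring, Nat.add_mod_right]
    simp only [this]
  have hBadsum : ∑ n ∈ range L, ind (Bad n) ≤ m₀ := by
    have h1 : ∑ n ∈ range L, ind (Bad n) = ∑ n ∈ range L, ind (L ≤ n % L + m₀) := by
      have h2 := sum_shift (fun n => ind (L ≤ n % L + m₀)) L (fun n => by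
        rw [Nat.add_mod_right]) a
      rw [← h2]
    rw [h1]
    have h3 : ∑ n ∈ range L, ind (L ≤ n % L + m₀) ≤ ∑ n ∈ Finset.Ico (L - m₀) L, (1 : ℝ) := by
      have h4 : ∑ n ∈ range L, ind (L ≤ n % L + m₀) =
          ∑ n ∈ (range L).filter (fun n => L ≤ n % L + m₀), (1 : ℝ) := by
        rw [Finset.sum_filter]
        refine sum_congr rfl fun n _ => ?_
        unfold ind
        congr
      rw [h4]
      apply sum_le_sum_of_subset_of_nonneg
      · intro n hn
        obtain ⟨hn1, hn2⟩ := mem_filter.1 hn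
        have hn3 := mem_range.1 hn1
        rw [Nat.mod_eq_of_lt hn3] at hn2
        exact Finset.mem_Ico.2 ⟨by omega, hn3⟩
      · intro n _ _; norm_num
    refine h3.trans ?_
    simp only [sum_const, Nat.card_Ico, nsmul_eq_mul, mul_one]
    have : L - (L - m₀) ≤ m₀ := by omega
    exact_mod_cast this
  have hBadN : ∀ N : ℕ, ∑ n ∈ Finset.Icc 1 N, ind (Bad n) ≤ (N / L + 1 : ℕ) * m₀ := by
    intro N
    have h1 : Finset.Icc 1 N ⊆ range (L * (N / L + 1)) := by
      intro n hn
      rw [mem_range]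
      have hn1 := (Finset.mem_Icc.1 hn).2
      have := Nat.lt_mul_div_succ N hLpos
      omega
    refine (sum_le_sum_of_subset_of_nonneg h1 fun n _ _ => ind_nonneg _).trans ?_
    have h2 := sum_mul_period (fun n => ind (Bad n)) L hBadper (N / L + 1) 0
    simp only [add_zero] at h2
    rw [h2]
    exact mul_le_mul_of_nonneg_left hBadsum (Nat.cast_nonneg _)
  -- the model function
  have hmodel : ∃ F : ℕ → ℝ, (∀ n, |F n| ≤ 1) ∧
      (∀ n, ¬ Bad n → (s.map fun c => η (n + c)).prod = F n) ∧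
      Tendsto (fun N : ℕ => (∑ n ∈ Finset.Icc 1 N, (μ n : ℝ) * F n) / (N : ℝ)) atTop (𝓝 0) := by
    rcases Nat.even_or_odd s.length with hev | hodd
    · refine ⟨G, fun n => (hGpm n).abs_le, fun n hn => ?_, moebius_per L hLpos G hGper⟩
      rw [hgood n hn]
      have : ω ((n + a) / L) ^ s.length = 1 := by
        rcases hω ((n + a) / L) with h1 | h1
        · rw [h1, one_pow]
        · rw [h1, hev.neg_one_pow]
      rw [this, mul_one]
    · refine ⟨fun n => (G n * ξ (n + a)) * η n, fun n => ?_, fun n hn => ?_, ?_⟩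
      · exact (((hGpm n).mul (hξpm _)).mul (hη n)).abs_le
      · rw [hgood n hn]
        have h1 : ω ((n + a) / L) ^ s.length = ω ((n + a) / L) := by
          obtain ⟨t, ht⟩ := hodd
          rw [ht, pow_succ, pow_mul, pow_two, (hω _).sq, one_pow, one_mul]
        simp only
        rw [h1, hηω n]
        have h2 := (hξpm (n + a)).sq
        calc G n * ω ((n + a) / L) = G n * ((ξ (n + a) * ξ (n + a)) * ω ((n + a) / L)) := by
              rw [h2, one_mul]
          _ = _ := by ring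
      · refine ho i (fun n => G n * ξ (n + a)) (fun n => ?_) (fun n => ?_)
        · rw [← hL, hGper, show n + L + a = n + a + L by ring, hξper]
        · exact ((hGpm n).mul (hξpm _)).abs_le
  obtain ⟨F, hF1, hF2, hF3⟩ := hmodel
  obtain ⟨C, hC0, hC⟩ := lin_bound _ hF3 (half_pos hδ)
  refine ⟨C + 2 * m₀, fun N => ?_⟩
  have hdiff : |∑ n ∈ Finset.Icc 1 N, (μ n : ℝ) * (s.map fun c => η (n + c)).prod -
      ∑ n ∈ Finset.Icc 1 N, (μ n : ℝ) * F n| ≤ 2 * ((N / L + 1 : ℕ) * m₀) := by
    rw [← sum_sub_distrib]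
    refine (abs_sum_le_sum_abs _ _).trans ?_
    have h1 : ∀ n ∈ Finset.Icc 1 N, |(μ n : ℝ) * (s.map fun c => η (n + c)).prod - (μ n : ℝ) * F n| ≤
        2 * ind (Bad n) := by
      intro n _
      by_cases hb : Bad n
      · rw [ind_true hb, ← mul_sub, abs_mul]
        have h2 : |(s.map fun c => η (n + c)).prod - F n| ≤ 2 := by
          refine (abs_sub _ _).trans ?_
          have h3 := (list_prod_pm s (fun c => η (n + c)) fun c => hη _).abs_le
          have h4 := hF1 n
          linarith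
        calc _ ≤ 1 * 2 := mul_le_mul (abs_mu_le n) h2 (abs_nonneg _) zero_le_one
          _ = 2 * 1 := by norm_num
      · rw [ind_false hb, hF2 n hb, sub_self]; simp
    refine (sum_le_sum h1).trans ?_
    rw [← mul_sum]
    exact mul_le_mul_of_nonneg_left (hBadN N) (by norm_num)
  have hcount : 2 * (((N / L + 1 : ℕ) : ℝ) * m₀) ≤ δ / 2 * N + 2 * m₀ := by
    have h1 : ((N / L : ℕ) : ℝ) ≤ (N : ℝ) / L := Nat.cast_div_le
    have h2 : (N : ℝ) / L * m₀ * 4 ≤ δ * N := by
      rw [div_lt_iff₀ hδ] at hLbig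
      rw [div_mul_eq_mul_div, div_mul_eq_mul_div, div_le_iff₀ hLR]
      have hN : (0 : ℝ) ≤ N := Nat.cast_nonneg _
      nlinarith
    have hm : (0 : ℝ) ≤ m₀ := Nat.cast_nonneg _
    push_cast
    nlinarith
  have h5 := hC N
  have h6 : |∑ n ∈ Finset.Icc 1 N, (μ n : ℝ) * (s.map fun c => η (n + c)).prod| ≤
      |∑ n ∈ Finset.Icc 1 N, (μ n : ℝ) * F n| +
      |∑ n ∈ Finset.Icc 1 N, (μ n : ℝ) * (s.map fun c => η (n + c)).prod -
      ∑ n ∈ Finset.Icc 1 N, (μ n : ℝ) * F n| := by
    have := abs_add_le (∑ n ∈ Finset.Icc 1 N, (μ n : ℝ) * F n)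
      (∑ n ∈ Finset.Icc 1 N, (μ n : ℝ) * (s.map fun c => η (n + c)).prod -
      ∑ n ∈ Finset.Icc 1 N, (μ n : ℝ) * F n)
    rwa [add_sub_cancel] at this
  linarith

end Pool.Agent.Helper51.Mo
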