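import Mathlib
import Pool.Agent.Helper51.MoCount
open Filter Topology Finset

/-! Lower bound for the decorrelation of a slowly varying sign pattern, logarithmic loss. -/

namespace Pool.Agent.Helper51.Mo

theorem sum_mul_coprime (M p : ℕ) (hM : 1 ≤ M) (hcop : Nat.Coprime p M) (Φ : ℕ → ℝ)
    (hΦ : ∀ i, Φ (i + M) = Φ i) :
    ∑ j ∈ range M, Φ (p * j) = ∑ i ∈ range M, Φ i := by
  have hmod : ∀ i, Φ (i % M) = Φ i := by
    intro i
    conv_rhs => rw [← Nat.mod_add_div i M]
    rw [per_mul Φ M hΦ]
  have hmaps : Set.MapsTo (fun j => (p * j) % M) (range M : Set ℕ) (range M : Set ℕ) := by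
    intro j _
    exact Finset.mem_coe.2 (mem_range.2 (Nat.mod_lt _ hM))
  have hinj : Set.InjOn (fun j => (p * j) % M) (range M : Set ℕ) := by
    intro i hi j hj hij
    have hi' := mem_range.1 (Finset.mem_coe.1 hi)
    have hj' := mem_range.1 (Finset.mem_coe.1 hj)
    have h1 : p * i ≡ p * j [MOD M] := hij
    have h2 : i ≡ j [MOD M] := Nat.ModEq.cancel_left_of_coprime hcop.symm h1
    have h3 : i % M = j % M := h2
    rwa [Nat.mod_eq_of_lt hi', Nat.mod_eq_of_lt hj'] at h3
  have hsurj : Set.SurjOn (fun j => (p * j) % M) (range M : Set ℕ) (range M : Set ℕ) :=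
    Finset.surjOn_of_injOn_of_card_le _ hmaps hinj le_rfl
  refine sum_nbij (fun j => (p * j) % M) (fun j hj => ?_) hinj hsurj (fun j _ => ?_)
  · exact mem_range.2 (Nat.mod_lt _ hM)
  · exact (hmod _).symm

/-- averaging operator -/
noncomputable def Pk (τ : ℝ) (lam N : ℕ) (F : ℕ → ℝ) (x : ℕ) : ℝ :=
  (∑ j ∈ range N, τ ^ j * F (x + j * lam)) / N

theorem Pk_contr {τ : ℝ} (hτ : PM τ) (lam N L : ℕ) (hN : 1 ≤ N) (F : ℕ → ℝ)
    (hF : ∀ x, |F (x + L)| = |F x|) :
    ∑ x ∈ range L, |Pk τ lam N F x| ≤ ∑ x ∈ range L, |F x| := by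
  have hNR : (0 : ℝ) < N := by exact_mod_cast hN
  have h1 : ∀ x, |Pk τ lam N F x| ≤ (∑ j ∈ range N, |F (x + j * lam)|) / N := by
    intro x
    unfold Pk
    rw [abs_div, abs_of_pos hNR]
    apply div_le_div_of_nonneg_right _ hNR.le
    refine (abs_sum_le_sum_abs _ _).trans (le_of_eq ?_)
    refine sum_congr rfl fun j _ => ?_
    rw [abs_mul, (hτ.pow j).abs, one_mul]
  calc _ ≤ ∑ x ∈ range L, (∑ j ∈ range N, |F (x + j * lam)|) / N := sum_le_sum fun x _ => h1 x
    _ = (∑ j ∈ range N, ∑ x ∈ range L, |F (x + j * lam)|) / N := by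
        rw [← sum_div, sum_comm]
    _ = (∑ j ∈ range N, ∑ x ∈ range L, |F x|) / N := by
        congr 1
        refine sum_congr rfl fun j _ => ?_
        exact sum_shift (fun x => |F x|) L hF (j * lam)
    _ = _ := by
        rw [sum_const, card_range, nsmul_eq_mul]
        field_simp

theorem PM.pow_odd {u : ℝ} (hu : PM u) {n : ℕ} (hn : Odd n) : u ^ n = u := by
  rcases hu with rfl | rfl
  · exact one_pow n
  · exact hn.neg_one_pow

theorem Pk_p {τ : ℝ} (hτ : PM τ) {lam N L p : ℕ} (hN : 1 ≤ N) (hNodd : Odd N) (hp : Odd p)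
    (hcop : Nat.Coprime p N) (hlam : N * lam = L) (f : ℕ → ℝ) (hf : ∀ x, f (x + L) = τ * f x)
    (c m : ℕ) : Pk τ lam N (fun m => f (p * m + c)) m = Pk τ lam N f (p * m + c) := by
  unfold Pk
  congr 1
  set x := p * m + c with hx
  have h1 := sum_mul_coprime N p hN hcop (fun i => τ ^ i * f (x + i * lam)) (fun i => by
    rw [show x + (i + N) * lam = x + i * lam + L by rw [← hlam]; ring, hf, pow_add,
      hτ.pow_odd hNodd]
    calc _ = (τ * τ) * (τ ^ i * f (x + i * lam)) := by ring
      _ = _ := by rw [hτ.sq, one_mul])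
  rw [← h1]
  refine sum_congr rfl fun j _ => ?_
  rw [pow_mul, hτ.pow_odd hp]
  congr 2
  rw [hx]; ring

theorem Pk_q {τ : ℝ} (hτ : PM τ) {lam N L q : ℕ} (hN : 1 ≤ N) (hNodd : Odd N) (hq : 1 ≤ q)
    (hlam : N * (q * lam) = L) (f : ℕ → ℝ) (hf : ∀ x, f (x + L) = τ * f x)
    (c m : ℕ) : Pk τ lam (N * q) (fun m => f (q * m + c)) m = Pk τ (q * lam) N f (q * m + c) := by
  unfold Pk
  set x := q * m + c with hx
  have h1 := sum_mul_period (fun j => τ ^ j * f (x + j * (q * lam))) N (fun i => by
    rw [show x + (i + N) * (q * lam) = x + i * (q * lam) + L by rw [← hlam]; ring, hf, pow_add,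
      hτ.pow_odd hNodd]
    calc _ = (τ * τ) * (τ ^ i * f (x + i * (q * lam))) := by ring
      _ = _ := by rw [hτ.sq, one_mul]) q 0
  simp only [add_zero] at h1
  have h2 : ∑ j ∈ range (N * q), τ ^ j * f (q * (m + j * lam) + c) =
      ∑ n ∈ range (N * q), τ ^ n * f (x + n * (q * lam)) := by
    refine sum_congr rfl fun j _ => ?_
    congr 2
    rw [hx]; ring
  rw [h2, h1]
  have hqR : (q : ℝ) ≠ 0 := by exact_mod_cast (by omega : q ≠ 0)
  have hNR : (N : ℝ) ≠ 0 := by exact_mod_cast (by omega : N ≠ 0)
  push_cast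
  field_simp

theorem pm_ne {u v : ℝ} (hu : PM u) (hv : PM v) (h : u ≠ v) : u = -v := by
  rcases hu with rfl | rfl <;> rcases hv with rfl | rfl <;> first | exact absurd rfl h | norm_num

/-- jump indicator -/
noncomputable def jp (f : ℕ → ℝ) (y : ℕ) : ℝ := ind (f (y + 1) ≠ f y)

theorem abs_sub_le_jumps {f : ℕ → ℝ} (hf : ∀ n, PM (f n)) (x i : ℕ) :
    |f (x + i) - f x| ≤ 2 * ∑ t ∈ range i, jp f (x + t) := by
  induction i with
  | zero => simp
  | succ i ih =>
    rw [sum_range_succ, mul_add]
    have h1 : |f (x + (i + 1)) - f (x + i)| ≤ 2 * jp f (x + i) := by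
      unfold jp
      rw [show x + (i + 1) = x + i + 1 by ring]
      by_cases h : f (x + i + 1) = f (x + i)
      · rw [h, sub_self, abs_zero]
        have := ind_nonneg (f (x + i) ≠ f (x + i))
        linarith
      · rw [ind_true h]
        refine (abs_sub _ _).trans ?_
        rw [(hf _).abs, (hf _).abs]; norm_num
    calc |f (x + (i + 1)) - f x| = |(f (x + i) - f x) + (f (x + (i + 1)) - f (x + i))| := by
          congr 1; ring
      _ ≤ _ := (abs_add_le _ _).trans (add_le_add ih h1)

theorem jp_nonneg (f : ℕ → ℝ) (y : ℕ) : 0 ≤ jp f y := ind_nonneg _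

theorem jp_per {f : ℕ → ℝ} {τ : ℝ} (hτ : PM τ) {L : ℕ} (hf : ∀ x, f (x + L) = τ * f x) (y : ℕ) :
    jp f (y + L) = jp f y := by
  unfold jp
  rw [show y + L + 1 = y + 1 + L by ring, hf, hf]
  congr 1
  apply propext
  apply not_congr
  constructor
  · intro h
    have : τ * (τ * f (y + 1)) = τ * (τ * f y) := by rw [h]
    rw [← mul_assoc, ← mul_assoc, hτ.sq, one_mul, one_mul] at this
    exact this
  · intro h; rw [h]

/-- The lower bound. -/
theorem slow_lower2 (p q : ℕ) (hp : Odd p) (hq : Odd q) (hcop : Nat.Coprime p q)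
    (n ℓ D : ℕ) (θ : ℕ → ℝ) (τ s : ℝ) (hℓ : 1 ≤ ℓ) (hθ : ∀ m, PM (θ m)) (hτ : PM τ) (hs : PM s)
    (hper : ∀ m, θ (m + ℓ) = τ * θ m)
    (hjump : ((Finset.Ico 1 ℓ).filter (fun m => θ m ≠ θ (m - 1))).card ≤ D)
    (hn : 16 * (D + 1) ≤ q ^ n) (a b : ℕ) :
    (τ = 1 → ∃ s₀ : ℝ, PM s₀ ∧ (((range ℓ).filter (fun m => θ m ≠ s₀)).card : ℝ) ≤
      6 * n * ((((range ℓ).filter (fun m => θ (p * m + a) ≠ s * θ (q * m + b))).card : ℝ) +
        (p + q) * (D + 1))) ∧
    (τ = -1 → (ℓ : ℝ) ≤
      6 * n * ((((range ℓ).filter (fun m => θ (p * m + a) ≠ s * θ (q * m + b))).card : ℝ) +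
        (p + q) * (D + 1))) := by
  classical
  have hp1 : 1 ≤ p := hp.pos
  have hq1 : 1 ≤ q := hq.pos
  have hpR : (0 : ℝ) < p := by exact_mod_cast hp1
  have hqR : (0 : ℝ) < q := by exact_mod_cast hq1
  set Q := q ^ n with hQ
  have hQ1 : 1 ≤ Q := Nat.one_le_pow _ _ hq1
  have hQR : (0 : ℝ) < Q := by exact_mod_cast hQ1
  set L := ℓ * Q with hL
  have hL1 : 1 ≤ L := Nat.mul_pos hℓ hQ1
  have hℓR : (0 : ℝ) < ℓ := by exact_mod_cast hℓ
  set f : ℕ → ℝ := fun x => θ (x / Q) with hf
  have hfpm : ∀ x, PM (f x) := fun x => hθ _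
  have hfper : ∀ x, f (x + L) = τ * f x := by
    intro x
    rw [hf]
    simp only
    rw [hL, mul_comm ℓ Q, Nat.add_mul_div_left _ _ hQ1, hper]
  set R : ℝ := (((range ℓ).filter (fun m => θ (p * m + a) ≠ s * θ (q * m + b))).card : ℝ) with hR
  have hRsum : R = ∑ m ∈ range ℓ, ind (θ (p * m + a) ≠ s * θ (q * m + b)) := by
    rw [hR, ← Finset.sum_boole]
    refine sum_congr rfl fun m _ => ?_
    unfold ind
    congr
  have hR0 : 0 ≤ R := by rw [hR]; positivity
  -- jumps of θ per period
  have hJθ : ∑ y ∈ range ℓ, jp θ y ≤ (D : ℝ) + 1 := by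
    have h1 : ∑ y ∈ range ℓ, jp θ y = ∑ y ∈ range (ℓ - 1), jp θ y + jp θ (ℓ - 1) := by
      conv_lhs => rw [show ℓ = (ℓ - 1) + 1 by omega]
      rw [sum_range_succ]
    rw [h1]
    refine add_le_add ?_ (ind_le_one _)
    have h2 : ∑ y ∈ range (ℓ - 1), jp θ y =
        (((Finset.Ico 1 ℓ).filter (fun m => θ m ≠ θ (m - 1))).card : ℝ) := by
      rw [← Finset.sum_boole, Finset.sum_Ico_eq_sum_range]
      refine sum_congr rfl fun y _ => ?_
      unfold jp ind
      rw [show 1 + y = y + 1 by ring, Nat.add_sub_cancel]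
      congr
    rw [h2]
    exact_mod_cast hjump
  -- jumps of f per period
  have hJf : ∑ y ∈ range L, jp f y ≤ (D : ℝ) + 1 := by
    refine le_trans (le_of_eq ?_) hJθ
    rw [hL, mul_comm ℓ Q, sum_split]
    have hQe : Q = (Q - 1) + 1 := by omega
    have h1 : ∀ r ∈ range (Q - 1), ∑ κ ∈ range ℓ, jp f (Q * κ + r) = 0 := by
      intro r hr
      refine sum_eq_zero fun κ _ => ?_
      have hr' := mem_range.1 hr
      unfold jp
      apply ind_false
      push Not
      rw [hf]
      simp only
      rw [show Q * κ + r + 1 = (r + 1) + Q * κ by ring, show Q * κ + r = r + Q * κ by ring,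
        Nat.add_mul_div_left _ _ hQ1, Nat.add_mul_div_left _ _ hQ1, Nat.div_eq_of_lt (by omega),
        Nat.div_eq_of_lt (by omega)]
    have h2 : ∑ r ∈ range Q, ∑ κ ∈ range ℓ, jp f (Q * κ + r) =
        ∑ r ∈ range (Q - 1), ∑ κ ∈ range ℓ, jp f (Q * κ + r) +
          ∑ κ ∈ range ℓ, jp f (Q * κ + (Q - 1)) := by
      conv_lhs => rw [hQe]
      rw [sum_range_succ, ← hQe]
    rw [h2, sum_eq_zero h1, zero_add]
    refine sum_congr rfl fun κ _ => ?_
    unfold jp
    rw [hf]
    simp only
    rw [show Q * κ + (Q - 1) + 1 = Q * (κ + 1) by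
      have : Q * (κ + 1) = Q * κ + Q := by ring
      omega, Nat.mul_div_cancel_left _ hQ1,
      show Q * κ + (Q - 1) = (Q - 1) + Q * κ by ring, Nat.add_mul_div_left _ _ hQ1,
      Nat.div_eq_of_lt (by omega), zero_add]
  -- the projections
  set lam : ℕ → ℕ := fun k => ℓ * q ^ (n - k) with hlam
  set T : ℕ → ℝ := fun k => ∑ x ∈ range L, |f x - Pk τ (lam k) (q ^ k) f x| with hT
  -- the total disagreement
  set SH : ℝ := ∑ t ∈ range p, ∑ t' ∈ range q, ∑ m ∈ range L,
    |f (p * m + (a * Q + t)) - s * f (q * m + (b * Q + t'))| with hSH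
  have hSHbound : SH ≤ p * q * (2 * Q * (R + (p + q) * (D + 1))) := by
    have h1 : ∀ t ∈ range p, ∀ t' ∈ range q, ∑ m ∈ range L,
        |f (p * m + (a * Q + t)) - s * f (q * m + (b * Q + t'))| ≤
        2 * Q * (R + (p + q) * (D + 1)) := by
      intro t ht t' ht'
      have ht2 := mem_range.1 ht
      have ht2' := mem_range.1 ht'
      rw [hL, mul_comm ℓ Q, sum_split]
      have h2 : ∀ r ∈ range Q, ∑ m₁ ∈ range ℓ, |f (p * (Q * m₁ + r) + (a * Q + t)) -
          s * f (q * (Q * m₁ + r) + (b * Q + t'))| ≤ 2 * (R + (p + q) * (D + 1)) := by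
        intro r hr
        have hr' := mem_range.1 hr
        have hi : (p * r + t) / Q < p := by
          rw [Nat.div_lt_iff_lt_mul hQ1]
          have : p * r + p ≤ p * Q := by
            calc p * r + p = p * (r + 1) := by ring
              _ ≤ p * Q := Nat.mul_le_mul_left _ hr'
          omega
        have hi' : (q * r + t') / Q < q := by
          rw [Nat.div_lt_iff_lt_mul hQ1]
          have : q * r + q ≤ q * Q := by
            calc q * r + q = q * (r + 1) := by ring
              _ ≤ q * Q := Nat.mul_le_mul_left _ hr'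
          omega
        set i := (p * r + t) / Q with hi_def
        set i' := (q * r + t') / Q with hi'_def
        have hterm : ∀ m₁ ∈ range ℓ, |f (p * (Q * m₁ + r) + (a * Q + t)) -
            s * f (q * (Q * m₁ + r) + (b * Q + t'))| ≤
            2 * ∑ u ∈ range p, jp θ (p * m₁ + u + a) +
            2 * ind (θ (p * m₁ + a) ≠ s * θ (q * m₁ + b)) +
            2 * ∑ u ∈ range q, jp θ (q * m₁ + u + b) := by
          intro m₁ _
          have e1 : f (p * (Q * m₁ + r) + (a * Q + t)) = θ (p * m₁ + a + i) := by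
            rw [hf]
            simp only
            congr 1
            rw [show p * (Q * m₁ + r) + (a * Q + t) = (p * r + t) + Q * (p * m₁ + a) by ring,
              Nat.add_mul_div_left _ _ hQ1, ← hi_def, add_comm]
          have e2 : f (q * (Q * m₁ + r) + (b * Q + t')) = θ (q * m₁ + b + i') := by
            rw [hf]
            simp only
            congr 1
            rw [show q * (Q * m₁ + r) + (b * Q + t') = (q * r + t') + Q * (q * m₁ + b) by ring,
              Nat.add_mul_div_left _ _ hQ1, ← hi'_def, add_comm]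
          rw [e1, e2]
          have a1 := abs_sub_le_jumps hθ (p * m₁ + a) i
          have a2 := abs_sub_le_jumps hθ (q * m₁ + b) i'
          have b1 : ∑ t ∈ range i, jp θ (p * m₁ + a + t) ≤
              ∑ u ∈ range p, jp θ (p * m₁ + u + a) := by
            calc _ ≤ ∑ u ∈ range p, jp θ (p * m₁ + a + u) := by
                  apply sum_le_sum_of_subset_of_nonneg (range_subset_range.2 hi.le)
                  intro u _ _; exact jp_nonneg _ _
              _ = _ := sum_congr rfl fun u _ => by
                  rw [show p * m₁ + a + u = p * m₁ + u + a by ring]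
          have b2 : ∑ t ∈ range i', jp θ (q * m₁ + b + t) ≤
              ∑ u ∈ range q, jp θ (q * m₁ + u + b) := by
            calc _ ≤ ∑ u ∈ range q, jp θ (q * m₁ + b + u) := by
                  apply sum_le_sum_of_subset_of_nonneg (range_subset_range.2 hi'.le)
                  intro u _ _; exact jp_nonneg _ _
              _ = _ := sum_congr rfl fun u _ => by
                  rw [show q * m₁ + b + u = q * m₁ + u + b by ring]
          have a3 : |θ (p * m₁ + a) - s * θ (q * m₁ + b)| ≤
              2 * ind (θ (p * m₁ + a) ≠ s * θ (q * m₁ + b)) := by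
            by_cases h : θ (p * m₁ + a) = s * θ (q * m₁ + b)
            · rw [h, sub_self, abs_zero]
              have := ind_nonneg (s * θ (q * m₁ + b) ≠ s * θ (q * m₁ + b))
              linarith
            · rw [ind_true h]
              refine (abs_sub _ _).trans ?_
              rw [(hθ _).abs, (hs.mul (hθ _)).abs]; norm_num
          have a4 : |s * θ (q * m₁ + b) - s * θ (q * m₁ + b + i')| ≤
              2 * ∑ t ∈ range i', jp θ (q * m₁ + b + t) := by
            rw [← mul_sub, abs_mul, hs.abs, one_mul, abs_sub_comm]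
            exact a2
          have a5 : θ (p * m₁ + a + i) - s * θ (q * m₁ + b + i') =
              (θ (p * m₁ + a + i) - θ (p * m₁ + a)) + (θ (p * m₁ + a) - s * θ (q * m₁ + b)) +
              (s * θ (q * m₁ + b) - s * θ (q * m₁ + b + i')) := by ring
          rw [a5]
          refine (abs_add_three _ _ _).trans ?_
          linarith
        refine (sum_le_sum hterm).trans ?_
        rw [sum_add_distrib, sum_add_distrib, ← mul_sum, ← mul_sum, ← mul_sum, ← hRsum]
        have c1 : ∑ m₁ ∈ range ℓ, ∑ u ∈ range p, jp θ (p * m₁ + u + a) ≤ p * (D + 1) := by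
          rw [sum_comm, sum_cover (jp θ) ℓ (jp_per hτ hper) p a]
          exact mul_le_mul_of_nonneg_left hJθ hpR.le
        have c2 : ∑ m₁ ∈ range ℓ, ∑ u ∈ range q, jp θ (q * m₁ + u + b) ≤ q * (D + 1) := by
          rw [sum_comm, sum_cover (jp θ) ℓ (jp_per hτ hper) q b]
          exact mul_le_mul_of_nonneg_left hJθ hqR.le
        linarith
      refine (sum_le_sum h2).trans (le_of_eq ?_)
      rw [sum_const, card_range, nsmul_eq_mul]
      ring
    rw [hSH]
    calc _ ≤ ∑ t ∈ range p, ∑ t' ∈ range q, 2 * Q * (R + (p + q) * (D + 1)) :=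
          sum_le_sum fun t ht => sum_le_sum fun t' ht' => h1 t ht t' ht'
      _ = _ := by
          rw [sum_const, sum_const, card_range, card_range, nsmul_eq_mul, nsmul_eq_mul]
          ring
  -- the recursion
  have hTstep : ∀ k, k < n → T (k + 1) ≤ T k + 2 * SH / (p * q) := by
    intro k hk
    have hqk : 1 ≤ q ^ k := Nat.one_le_pow _ _ hq1
    have hlk : q * lam (k + 1) = lam k := by
      rw [hlam]
      simp only
      rw [show n - k = (n - (k + 1)) + 1 by omega, pow_succ]
      ring
    have hNk : q ^ k * lam k = L := by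
      rw [hlam, hL, hQ]
      simp only
      rw [show n = k + (n - k) by omega, pow_add, show k + (n - k) - k = n - k by omega]
      ring
    have hNk1 : q ^ (k + 1) * lam (k + 1) = L := by
      rw [pow_succ, mul_assoc, hlk, hNk]
    set u : ℕ → ℝ := fun x => f x - Pk τ (lam (k + 1)) (q ^ (k + 1)) f x with hu
    set v : ℕ → ℝ := fun x => f x - Pk τ (lam k) (q ^ k) f x with hv
    have hPper : ∀ (l N : ℕ) x, Pk τ l N f (x + L) = τ * Pk τ l N f x := by
      intro l N x
      unfold Pk
      rw [← mul_div_assoc, mul_sum]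
      congr 1
      refine sum_congr rfl fun j _ => ?_
      rw [show x + L + j * l = x + j * l + L by ring, hfper]
      ring
    have huper : ∀ x, |u (x + L)| = |u x| := by
      intro x
      rw [hu]
      simp only
      rw [hfper, hPper, ← mul_sub, abs_mul, hτ.abs, one_mul]
    have hvper : ∀ x, |v (x + L)| = |v x| := by
      intro x
      rw [hv]
      simp only
      rw [hfper, hPper, ← mul_sub, abs_mul, hτ.abs, one_mul]
    have hone : ∀ c c' : ℕ, ∑ m ∈ range L, |u (p * m + c)| ≤
        2 * ∑ m ∈ range L, |f (p * m + c) - s * f (q * m + c')| +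
          ∑ m ∈ range L, |v (q * m + c')| := by
      intro c c'
      set H : ℕ → ℝ := fun m => f (p * m + c) - s * f (q * m + c') with hH
      have hHper : ∀ m, |H (m + L)| = |H m| := by
        intro m
        rw [hH]
        simp only
        have e1 : ∀ (r : ℕ) (_ : Odd r) (c : ℕ), f (r * (m + L) + c) = τ * f (r * m + c) := by
          intro r hr c
          have : ∀ (g : ℕ → ℝ) (_ : ∀ x, g (x + L) = τ * g x) (k x : ℕ),
              g (x + k * L) = τ ^ k * g x := by
            intro g hg k
            induction k with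
            | zero => intro x; simp
            | succ k ih =>
              intro x
              rw [show x + (k + 1) * L = (x + k * L) + L by ring, hg, ih, pow_succ]; ring
          rw [show r * (m + L) + c = (r * m + c) + r * L by ring, this f hfper, hτ.pow_odd hr]
        rw [e1 p hp, e1 q hq]
        rw [show τ * f (p * m + c) - s * (τ * f (q * m + c')) =
          τ * (f (p * m + c) - s * f (q * m + c')) by ring, abs_mul, hτ.abs, one_mul]
      have hPH : ∀ m, H m - Pk τ (lam (k + 1)) (q ^ (k + 1)) H m =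
          u (p * m + c) - s * v (q * m + c') := by
        intro m
        have e1 := Pk_p hτ (Nat.one_le_pow (k + 1) q hq1) (hq.pow) hp (hcop.pow_right (k + 1)) hNk1
          f hfper c m
        have e2 := Pk_q hτ hqk hq.pow hq1 (lam := lam (k + 1)) (by rw [hlk]; exact hNk) f hfper c' m
        have e3 : Pk τ (lam (k + 1)) (q ^ (k + 1)) H m =
            Pk τ (lam (k + 1)) (q ^ (k + 1)) (fun m => f (p * m + c)) m -
            s * Pk τ (lam (k + 1)) (q ^ (k + 1)) (fun m => f (q * m + c')) m := by
          unfold Pk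
          rw [← mul_div_assoc, ← sub_div, mul_sum, ← sum_sub_distrib]
          congr 1
          refine sum_congr rfl fun j _ => ?_
          rw [hH]
          simp only
          ring
        rw [e3, e1]
        rw [← pow_succ] at e2
        rw [e2, hlk, hH, hu, hv]
        simp only
        ring
      have hcontr := Pk_contr hτ (lam (k + 1)) (q ^ (k + 1)) L (Nat.one_le_pow _ _ hq1) H hHper
      calc ∑ m ∈ range L, |u (p * m + c)|
          ≤ ∑ m ∈ range L, (|H m| + |Pk τ (lam (k + 1)) (q ^ (k + 1)) H m| +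
              |v (q * m + c')|) := by
            refine sum_le_sum fun m _ => ?_
            have e : u (p * m + c) = H m + -(Pk τ (lam (k + 1)) (q ^ (k + 1)) H m) +
                s * v (q * m + c') := by
              have := hPH m
              linarith
            rw [e]
            refine (abs_add_three _ _ _).trans (le_of_eq ?_)
            rw [abs_neg, abs_mul, hs.abs, one_mul]
        _ = ∑ m ∈ range L, |H m| + ∑ m ∈ range L, |Pk τ (lam (k + 1)) (q ^ (k + 1)) H m| +
              ∑ m ∈ range L, |v (q * m + c')| := by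
            rw [sum_add_distrib, sum_add_distrib]
        _ ≤ _ := by linarith
    -- sum over the offsets
    have hsumall : ∑ t ∈ range p, ∑ t' ∈ range q, ∑ m ∈ range L, |u (p * m + (a * Q + t))| ≤
        ∑ t ∈ range p, ∑ t' ∈ range q, (2 * ∑ m ∈ range L,
          |f (p * m + (a * Q + t)) - s * f (q * m + (b * Q + t'))| +
          ∑ m ∈ range L, |v (q * m + (b * Q + t'))|) :=
      sum_le_sum fun t _ => sum_le_sum fun t' _ => hone _ _
    have hleft : ∑ t ∈ range p, ∑ t' ∈ range q, ∑ m ∈ range L, |u (p * m + (a * Q + t))| =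
        p * q * T (k + 1) := by
      have e1 : ∑ t ∈ range p, ∑ m ∈ range L, |u (p * m + (a * Q + t))| = p * T (k + 1) := by
        have := sum_cover (fun x => |u x|) L huper p (a * Q)
        rw [← hu] at *
        calc _ = ∑ t ∈ range p, ∑ m ∈ range L, |u (p * m + t + a * Q)| := by
              refine sum_congr rfl fun t _ => sum_congr rfl fun m _ => ?_
              rw [show p * m + (a * Q + t) = p * m + t + a * Q by ring]
          _ = _ := this
      rw [sum_comm]
      rw [sum_congr rfl fun t' _ => e1, sum_const, card_range, nsmul_eq_mul]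
      ring
    have hright : ∑ t ∈ range p, ∑ t' ∈ range q, (2 * ∑ m ∈ range L,
          |f (p * m + (a * Q + t)) - s * f (q * m + (b * Q + t'))| +
          ∑ m ∈ range L, |v (q * m + (b * Q + t'))|) = 2 * SH + p * q * T k := by
      have e1 : ∑ t' ∈ range q, ∑ m ∈ range L, |v (q * m + (b * Q + t'))| = q * T k := by
        have := sum_cover (fun x => |v x|) L hvper q (b * Q)
        calc _ = ∑ t ∈ range q, ∑ m ∈ range L, |v (q * m + t + b * Q)| := by
              refine sum_congr rfl fun t _ => sum_congr rfl fun m _ => ?_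
              rw [show q * m + (b * Q + t) = q * m + t + b * Q by ring]
          _ = _ := this
      simp only [sum_add_distrib, ← mul_sum]
      rw [e1, sum_const, card_range, nsmul_eq_mul, hSH]
      ring
    rw [hleft, hright] at hsumall
    have hpq : (0 : ℝ) < p * q := by positivity
    rw [← sub_le_iff_le_add', le_div_iff₀ hpq]
    linarith
  have hT0 : T 0 = 0 := by
    rw [hT]
    simp only
    refine sum_eq_zero fun x _ => ?_
    unfold Pk
    simp
  have hTn : T n ≤ 4 * n * Q * (R + (p + q) * (D + 1)) := by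
    have h1 : ∀ k, k ≤ n → T k ≤ k * (2 * SH / (p * q)) := by
      intro k
      induction k with
      | zero => intro _; rw [hT0]; simp
      | succ k ih =>
        intro hk
        have h2 := hTstep k (by omega)
        have h3 := ih (by omega)
        push_cast
        linarith
    have h4 := h1 n le_rfl
    have h5 : 2 * SH / (p * q) ≤ 4 * Q * (R + (p + q) * (D + 1)) := by
      rw [div_le_iff₀ (by positivity)]
      calc 2 * SH ≤ 2 * (p * q * (2 * Q * (R + (p + q) * (D + 1)))) := by linarith
        _ = _ := by ring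
    have hnR : (0 : ℝ) ≤ n := Nat.cast_nonneg _
    calc T n ≤ n * (2 * SH / (p * q)) := h4
      _ ≤ n * (4 * Q * (R + (p + q) * (D + 1))) := mul_le_mul_of_nonneg_left h5 hnR
      _ = _ := by ring
  have hlamn : lam n = ℓ := by rw [hlam]; simp
  have hQD : 16 * ((D : ℝ) + 1) ≤ Q := by exact_mod_cast hn
  have hnR : (0 : ℝ) ≤ n := Nat.cast_nonneg _
  have hX0 : 0 ≤ R + (p + q) * (D + 1) := by positivity
  -- jumps of f in any period window
  have hJfx : ∀ x, ∑ y ∈ range L, jp f (y + x) ≤ (D : ℝ) + 1 := by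
    intro x
    rw [sum_shift (jp f) L (jp_per hτ hfper) x]
    exact hJf
  have hJsplit : ∀ x, ∑ j ∈ range Q, ∑ r ∈ range ℓ, jp f (x + j * ℓ + r) ≤ (D : ℝ) + 1 := by
    intro x
    refine le_trans (le_of_eq ?_) (hJfx x)
    rw [hL, sum_split, sum_comm]
    refine sum_congr rfl fun r _ => sum_congr rfl fun j _ => ?_
    rw [show x + j * ℓ + r = ℓ * j + r + x by ring]
  constructor
  · intro hτ1
    -- majority sign
    obtain ⟨s₀, hs₀, hmaj⟩ : ∃ s₀ : ℝ, PM s₀ ∧
        2 * ((range ℓ).filter (fun m => θ m ≠ s₀)).card ≤ ℓ := by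
      have h1 : ((range ℓ).filter (fun m => θ m ≠ 1)).card +
          ((range ℓ).filter (fun m => θ m ≠ -1)).card = ℓ := by
        rw [← card_union_of_disjoint]
        · rw [← filter_or]
          have : (range ℓ).filter (fun m => θ m ≠ 1 ∨ θ m ≠ -1) = range ℓ := by
            apply filter_true_of_mem
            intro m _
            rcases hθ m with h | h
            · right; rw [h]; norm_num
            · left; rw [h]; norm_num
          rw [this, card_range]
        · rw [Finset.disjoint_filter]
          intro m _ h2 h3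
          rcases hθ m with h | h
          · exact h2 h
          · exact h3 h
      by_cases h2 : 2 * ((range ℓ).filter (fun m => θ m ≠ 1)).card ≤ ℓ
      · exact ⟨1, pm_one, h2⟩
      · exact ⟨-1, Or.inr rfl, by omega⟩
    refine ⟨s₀, hs₀, ?_⟩
    set e : ℝ := (((range ℓ).filter (fun m => θ m ≠ s₀)).card : ℝ) with he
    have he2 : 2 * e ≤ ℓ := by rw [he]; exact_mod_cast hmaj
    set g : ℕ → ℝ := fun x => ind (f x ≠ s₀) with hg
    have hgper : ∀ x, g (x + L) = g x := by
      intro x; rw [hg]; simp only; rw [hfper, hτ1, one_mul]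
    have hgsum : ∑ x ∈ range L, g x = Q * e := by
      rw [hL, mul_comm ℓ Q, sum_split]
      have h1 : ∀ r ∈ range Q, ∑ κ ∈ range ℓ, g (Q * κ + r) = e := by
        intro r hr
        rw [he, ← Finset.sum_boole]
        refine sum_congr rfl fun κ _ => ?_
        rw [hg, hf]
        simp only
        rw [add_comm (Q * κ) r, Nat.add_mul_div_left _ _ hQ1, Nat.div_eq_of_lt (mem_range.1 hr),
          zero_add]
        unfold ind
        congr
      rw [sum_congr rfl h1, sum_const, card_range, nsmul_eq_mul]
    -- pointwise counting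
    have hN : ∀ x, ∑ j ∈ range Q, g (x + j * ℓ) ≤ 5 / 8 * Q := by
      intro x
      have hstep : ∀ y r, g y ≤ g (y + r) + ∑ u ∈ range r, jp f (y + u) := by
        intro y r
        rw [hg]
        simp only
        by_cases h1 : f y = s₀
        · rw [ind_false (by push Not; exact h1)]
          have := ind_nonneg (f (y + r) ≠ s₀)
          have h2 : 0 ≤ ∑ u ∈ range r, jp f (y + u) := sum_nonneg fun u _ => jp_nonneg _ _
          linarith
        · by_cases h2 : f (y + r) = s₀
          · have h3 := abs_sub_le_jumps hfpm y r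
            have h4 : |f (y + r) - f y| = 2 := by
              rw [h2, pm_ne (hfpm y) hs₀ h1, sub_neg_eq_add, ← two_mul, abs_mul, hs₀.abs]
              norm_num
            rw [h4] at h3
            have := ind_le_one (f y ≠ s₀)
            have := ind_nonneg (f (y + r) ≠ s₀)
            linarith
          · rw [ind_true h2]
            have := ind_le_one (f y ≠ s₀)
            have h2 : 0 ≤ ∑ u ∈ range r, jp f (y + u) := sum_nonneg fun u _ => jp_nonneg _ _
            linarith
      have hblock : ∀ y, ℓ * g y ≤ ∑ r ∈ range ℓ, g (y + r) + ℓ * ∑ u ∈ range ℓ, jp f (y + u) := by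
        intro y
        have h1 : ∑ r ∈ range ℓ, g y ≤ ∑ r ∈ range ℓ, (g (y + r) + ∑ u ∈ range ℓ, jp f (y + u)) := by
          refine sum_le_sum fun r hr => ?_
          refine (hstep y r).trans (add_le_add_right ?_ _)
          apply sum_le_sum_of_subset_of_nonneg (range_subset_range.2 (mem_range.1 hr).le)
          intro u _ _; exact jp_nonneg _ _
        rw [sum_const, card_range, nsmul_eq_mul, sum_add_distrib, sum_const, card_range,
          nsmul_eq_mul] at h1
        exact h1
      have h2 : ℓ * ∑ j ∈ range Q, g (x + j * ℓ) ≤ Q * e + ℓ * (D + 1) := by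
        rw [mul_sum]
        refine (sum_le_sum fun j _ => hblock (x + j * ℓ)).trans ?_
        rw [sum_add_distrib, ← mul_sum]
        have h3 : ∑ j ∈ range Q, ∑ r ∈ range ℓ, g (x + j * ℓ + r) = Q * e := by
          rw [← hgsum, ← sum_shift g L hgper x, hL, sum_split, sum_comm]
          refine sum_congr rfl fun r _ => sum_congr rfl fun j _ => ?_
          rw [show x + j * ℓ + r = ℓ * j + r + x by ring]
        rw [h3]
        exact add_le_add_right (mul_le_mul_of_nonneg_left (hJsplit x) hℓR.le) _
      have h4 : ℓ * ∑ j ∈ range Q, g (x + j * ℓ) ≤ ℓ * (5 / 8 * Q) := by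
        refine h2.trans ?_
        nlinarith
      exact le_of_mul_le_mul_left h4 hℓR
    have hlow : 3 / 4 * (Q * e) ≤ T n := by
      rw [← hgsum, mul_sum, hT]
      simp only
      refine sum_le_sum fun x _ => ?_
      have h1 : Pk τ (lam n) (q ^ n) f x = s₀ * (1 - 2 * (∑ j ∈ range Q, g (x + j * ℓ)) / Q) := by
        unfold Pk
        rw [hlamn, ← hQ, hτ1]
        have h2 : ∑ j ∈ range Q, (1 : ℝ) ^ j * f (x + j * ℓ) =
            s₀ * (Q - 2 * ∑ j ∈ range Q, g (x + j * ℓ)) := by
          have h3 : (Q : ℝ) = ∑ j ∈ range Q, (1 : ℝ) := by simp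
          rw [h3, mul_sum, ← sum_sub_distrib, mul_sum]
          refine sum_congr rfl fun j _ => ?_
          rw [one_pow, one_mul, hg]
          simp only
          by_cases h4 : f (x + j * ℓ) = s₀
          · rw [ind_false (by push Not; exact h4), h4]; ring
          · rw [ind_true h4, pm_ne (hfpm _) hs₀ h4]; ring
        rw [h2]
        field_simp
      rw [h1]
      by_cases h5 : f x = s₀
      · have : g x = 0 := by rw [hg]; simp only; exact ind_false (by push Not; exact h5)
        rw [this, mul_zero]; exact abs_nonneg _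
      · have : g x = 1 := by rw [hg]; simp only; exact ind_true h5
        rw [this, mul_one, pm_ne (hfpm x) hs₀ h5]
        have h6 : -s₀ - s₀ * (1 - 2 * (∑ j ∈ range Q, g (x + j * ℓ)) / Q) =
            -s₀ * (2 - 2 * (∑ j ∈ range Q, g (x + j * ℓ)) / Q) := by ring
        rw [h6, abs_mul, hs₀.neg.abs, one_mul]
        refine le_trans ?_ (le_abs_self _)
        have h7 : 2 * (∑ j ∈ range Q, g (x + j * ℓ)) / Q ≤ 5 / 4 := by
          rw [div_le_iff₀ hQR]
          have := hN x
          linarith
        linarith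
    have h8 : Q * (3 / 4 * e) ≤ Q * (4 * n * (R + (p + q) * (D + 1))) := by
      calc Q * (3 / 4 * e) = 3 / 4 * (Q * e) := by ring
        _ ≤ T n := hlow
        _ ≤ 4 * n * Q * (R + (p + q) * (D + 1)) := hTn
        _ = _ := by ring
    have h9 := le_of_mul_le_mul_left h8 hQR
    have h10 : 0 ≤ n * (R + (p + q) * (D + 1)) := mul_nonneg hnR hX0
    linarith
  · intro hτ1
    have hlow : 3 / 4 * ((L : ℕ) : ℝ) ≤ T n := by
      have h1 : ((L : ℕ) : ℝ) = ∑ x ∈ range L, (1 : ℝ) := by simp
      rw [h1, mul_sum, hT]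
      simp only
      refine sum_le_sum fun x _ => ?_
      set A := ∑ j ∈ range Q, τ ^ j * f (x + j * ℓ) with hA
      have hPk : Pk τ (lam n) (q ^ n) f x = A / Q := by
        unfold Pk
        rw [hlamn, ← hQ]
      have hQodd : Odd Q := hq.pow
      have hAbound : |A| ≤ D + 1 := by
        set B := ∑ j ∈ range Q, τ ^ j * f (x + (j + 1) * ℓ) with hB
        have hAB : B = -A := by
          have e1 : ∑ j ∈ range (Q + 1), τ ^ j * f (x + j * ℓ) = A + τ ^ Q * f (x + Q * ℓ) :=
            sum_range_succ _ _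
          have e2 : ∑ j ∈ range (Q + 1), τ ^ j * f (x + j * ℓ) =
              ∑ j ∈ range Q, τ ^ (j + 1) * f (x + (j + 1) * ℓ) + τ ^ 0 * f (x + 0 * ℓ) :=
            sum_range_succ' _ _
          have e3 : τ ^ Q * f (x + Q * ℓ) = f x := by
            rw [show x + Q * ℓ = x + L by rw [hL]; ring, hfper, hτ.pow_odd hQodd, ← mul_assoc,
              hτ.sq, one_mul]
          have e4 : ∑ j ∈ range Q, τ ^ (j + 1) * f (x + (j + 1) * ℓ) = τ * B := by
            rw [hB, mul_sum]
            refine sum_congr rfl fun j _ => ?_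
            rw [pow_succ]; ring
          rw [e3] at e1
          rw [e4, zero_mul, add_zero, pow_zero, one_mul] at e2
          have e5 : τ * B = -B := by rw [hτ1]; ring
          rw [e5] at e2
          linarith
        have hABdiff : |A - B| ≤ 2 * (D + 1) := by
          rw [hA, hB, ← sum_sub_distrib]
          refine (abs_sum_le_sum_abs _ _).trans ?_
          calc _ ≤ ∑ j ∈ range Q, 2 * ∑ r ∈ range ℓ, jp f (x + j * ℓ + r) := by
                refine sum_le_sum fun j _ => ?_
                rw [← mul_sub, abs_mul, (hτ.pow j).abs, one_mul, abs_sub_comm,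
                  show x + (j + 1) * ℓ = x + j * ℓ + ℓ by ring]
                exact abs_sub_le_jumps hfpm (x + j * ℓ) ℓ
            _ = 2 * ∑ j ∈ range Q, ∑ r ∈ range ℓ, jp f (x + j * ℓ + r) := by rw [mul_sum]
            _ ≤ _ := by linarith [hJsplit x]
        rw [hAB] at hABdiff
        have : A - -A = 2 * A := by ring
        rw [this, abs_mul, abs_of_pos (by norm_num : (0 : ℝ) < 2)] at hABdiff
        linarith
      rw [hPk]
      have h2 : |A / Q| ≤ 1 / 4 := by
        rw [abs_div, abs_of_pos hQR, div_le_iff₀ hQR]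
        have hD0 : (0 : ℝ) ≤ D := Nat.cast_nonneg _
        linarith
      have h3 : |f x| ≤ |f x - A / Q| + |A / Q| := by
        have := abs_add_le (f x - A / Q) (A / Q)
        rwa [sub_add_cancel] at this
      rw [(hfpm x).abs] at h3
      linarith
    have h8 : Q * (3 / 4 * (ℓ : ℝ)) ≤ Q * (4 * n * (R + (p + q) * (D + 1))) := by
      calc Q * (3 / 4 * (ℓ : ℝ)) = 3 / 4 * ((L : ℕ) : ℝ) := by rw [hL]; push_cast; ring
        _ ≤ T n := hlow
        _ ≤ 4 * n * Q * (R + (p + q) * (D + 1)) := hTn
        _ = _ := by ring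
    have h9 := le_of_mul_le_mul_left h8 hQR
    have h10 : 0 ≤ n * (R + (p + q) * (D + 1)) := mul_nonneg hnR hX0
    linarith

end Pool.Agent.Helper51.Mo
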