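import Mathlib
import Pool.Agent.Helper51.MoCore
open Filter Topology Finset
open scoped ArithmeticFunction.Moebius

/-! The almost periodic case (module M5). -/

namespace Pool.Agent.Helper51.Mo

/-- Abel summation. -/
theorem abel_bound (f v : ℕ → ℝ) (B : ℝ) (N : ℕ) (hB : ∀ M ≤ N, |∑ n ∈ Icc 1 M, f n| ≤ B)
    (hv : ∀ n, |v n| ≤ 1) :
    |∑ n ∈ Icc 1 N, f n * v n| ≤ B * (1 + ∑ n ∈ Ico 1 N, |v (n + 1) - v n|) := by
  have hB0 : 0 ≤ B := (abs_nonneg _).trans (hB 0 (Nat.zero_le _))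
  rcases Nat.eq_zero_or_pos N with h0 | h0
  · subst h0
    simpa using hB0
  have key : ∀ M, 1 ≤ M → ∑ n ∈ Icc 1 M, f n * v n =
      (∑ n ∈ Icc 1 M, f n) * v M - ∑ n ∈ Ico 1 M, (∑ k ∈ Icc 1 n, f k) * (v (n + 1) - v n) := by
    intro M h1
    induction M, h1 using Nat.le_induction with
    | base => simp
    | succ M h1 ih =>
      rw [sum_Icc_succ_top (by omega), sum_Icc_succ_top (by omega), sum_Ico_succ_top h1, ih]
      ring
  rw [key N h0, mul_add, mul_one]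
  refine (abs_sub _ _).trans (add_le_add ?_ ?_)
  · rw [abs_mul]
    calc _ ≤ B * 1 := mul_le_mul (hB N le_rfl) (hv N) (abs_nonneg _) hB0
      _ = B := mul_one B
  · refine (abs_sum_le_sum_abs _ _).trans ?_
    rw [mul_sum]
    refine sum_le_sum fun n hn => ?_
    rw [abs_mul]
    exact mul_le_mul_of_nonneg_right (hB n (mem_Ico.1 hn).2.le) (abs_nonneg _)

theorem count_Ico (p : ℕ → Prop) [DecidablePred p] (P : ℕ) (hper : ∀ n, p (n + P) ↔ p n)
    (b k : ℕ) : ((Ico b (b + k * P)).filter p).card = k * ((range P).filter p).card := by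
  have hpp : Function.Periodic p P := fun n => propext (hper n)
  induction k with
  | zero => simp
  | succ k ih =>
    have h1 : Ico b (b + (k + 1) * P) = Ico b (b + k * P) ∪ Ico (b + k * P) (b + k * P + P) := by
      rw [Ico_union_Ico_eq_Ico (Nat.le_add_right _ _) (Nat.le_add_right _ _)]
      congr 1; ring
    rw [h1, filter_union, card_union_of_disjoint, ih, Nat.filter_Ico_card_eq_of_periodic _ _ _ hpp,
      Nat.count_eq_card_filter_range]
    · ring
    · exact disjoint_filter_filter (Ico_disjoint_Ico_consecutive _ _ _)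

theorem count_window (p : ℕ → Prop) [DecidablePred p] (P c : ℕ) (hP : 0 < P)
    (hper : ∀ n, p (n + P) ↔ p n) (hc : ((range P).filter p).card ≤ c) (a N : ℕ) :
    ((Icc 1 N).filter fun n => p (n + a)).card ≤ (N / P + 1) * c := by
  have h1 : ((Icc 1 N).filter fun n => p (n + a)).card ≤
      ((Ico (1 + a) (1 + a + (N / P + 1) * P)).filter p).card := by
    refine card_le_card_of_injOn (fun n => n + a) ?_ (fun x _ y _ h => by simpa using h)
    intro n hn
    rw [mem_coe, mem_filter, mem_Icc] at hn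
    show n + a ∈ (Ico (1 + a) (1 + a + (N / P + 1) * P)).filter p
    rw [mem_filter, mem_Ico]
    refine ⟨⟨by omega, ?_⟩, hn.2⟩
    have h2 : N < (N / P + 1) * P := by
      have := Nat.lt_mul_div_succ N hP
      rw [mul_comm]; exact this
    omega
  rw [count_Ico p P hper] at h1
  exact h1.trans (Nat.mul_le_mul_left _ hc)

theorem count_div (q : ℕ → Prop) [DecidablePred q] (L ℓ : ℕ) (hL : 0 < L) :
    ((range (L * ℓ)).filter fun m => q (m / L % ℓ)).card ≤ L * ((range ℓ).filter q).card := by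
  have h1 : ((range (L * ℓ)).filter fun m => q (m / L % ℓ)).card ≤
      (range L ×ˢ ((range ℓ).filter q)).card := by
    refine card_le_card_of_injOn (fun m => (m % L, m / L)) ?_ ?_
    · intro m hm
      rw [mem_coe, mem_filter, mem_range] at hm
      have h2 : m / L < ℓ := Nat.div_lt_of_lt_mul hm.1
      rw [mem_coe, mem_product, mem_range, mem_filter, mem_range]
      have h3 := hm.2
      rw [Nat.mod_eq_of_lt h2] at h3
      exact ⟨Nat.mod_lt _ hL, h2, h3⟩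
    · intro x _ y _ h
      simp only [Prod.mk.injEq] at h
      rw [← Nat.div_add_mod x L, ← Nat.div_add_mod y L, h.1, h.2]
  rw [card_product, card_range] at h1
  exact h1

/-- the sign-corrected word -/
def PP (β : ℕ → ℕ → ℝ) (ℓ : ℕ → ℕ) (ε : ℕ → ℝ) (i m : ℕ) : ℝ :=
  pw β ℓ 0 i m * ε i ^ (m / len ℓ 0 i)

/-- the sign-corrected block value -/
def th (β : ℕ → ℕ → ℝ) (ℓ : ℕ → ℕ) (ε : ℕ → ℝ) (i x : ℕ) : ℝ := β i (x % ℓ i) * ε i ^ (x % ℓ i)

theorem th_pm {β : ℕ → ℕ → ℝ} {ℓ : ℕ → ℕ} {ε : ℕ → ℝ} (hβ : ∀ i n, PM (β i n))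
    (hε : ∀ i, PM (ε i)) (i x : ℕ) : PM (th β ℓ ε i x) := (hβ _ _).mul ((hε _).pow _)

theorem PP_pm {β : ℕ → ℕ → ℝ} {ℓ : ℕ → ℕ} {ε : ℕ → ℝ} (hβ : ∀ i n, PM (β i n))
    (hε : ∀ i, PM (ε i)) (i m : ℕ) : PM (PP β ℓ ε i m) := (pw_pm β ℓ hβ _ _ _).mul ((hε _).pow _)

theorem PP_succ {β : ℕ → ℕ → ℝ} {ℓ : ℕ → ℕ} {ε : ℕ → ℝ}
    (hper : ∀ i n, β i (n + ℓ i) = β i n) (hε : ∀ i, PM (ε i)) (i : ℕ)
    (hcons : ε (i + 1) = ε i ^ ℓ i) (m : ℕ) :
    PP β ℓ ε (i + 1) m = PP β ℓ ε i m * th β ℓ ε i (m / len ℓ 0 i) := by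
  unfold PP th
  have h1 : pw β ℓ 0 (i + 1) m = pw β ℓ 0 i m * β i (m / len ℓ 0 i) := by
    rw [pw_add, pw_one, zero_add]
  have h2 : m / len ℓ 0 (i + 1) = m / len ℓ 0 i / ℓ i := by
    rw [len_succ', zero_add, Nat.div_div_eq_div_mul]
  rw [h1, h2]
  set x := m / len ℓ 0 i with hx
  have h3 : ε (i + 1) ^ (x / ℓ i) = ε i ^ x * ε i ^ (x % ℓ i) := by
    rw [hcons, ← pow_mul]
    have h4 : ε i ^ x = ε i ^ (ℓ i * (x / ℓ i)) * ε i ^ (x % ℓ i) := by
      rw [← pow_add, Nat.div_add_mod]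
    rw [h4, mul_assoc, PM.sq ((hε i).pow _), mul_one]
  have h5 : β i x = β i (x % ℓ i) := by
    conv_lhs => rw [← Nat.mod_add_div x (ℓ i)]
    rw [per_mul (β i) (ℓ i) (hper i)]
  rw [h3, ← h5]
  ring

theorem PP_add {β : ℕ → ℕ → ℝ} {ℓ : ℕ → ℕ} {ε : ℕ → ℝ}
    (hper : ∀ i n, β i (n + ℓ i) = β i n) (hε : ∀ i, PM (ε i)) (j k : ℕ)
    (hcons : ∀ i, j ≤ i → ε (i + 1) = ε i ^ ℓ i) (m : ℕ) :
    PP β ℓ ε (j + k) m = PP β ℓ ε j m * ∏ i ∈ Ico j (j + k), th β ℓ ε i (m / len ℓ 0 i) := by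
  induction k with
  | zero => simp
  | succ k ih =>
    rw [← add_assoc, PP_succ hper hε (j + k) (hcons _ (Nat.le_add_right _ _)), ih,
      prod_Ico_succ_top (Nat.le_add_right _ _), mul_assoc]

theorem PP_per {β : ℕ → ℕ → ℝ} {ℓ : ℕ → ℕ} {ε : ℕ → ℝ} (hℓ : ∀ i, 1 ≤ ℓ i)
    (hper : ∀ i n, β i (n + ℓ i) = β i n) (hε : ∀ i, PM (ε i)) (j m : ℕ) :
    PP β ℓ ε j (m + 2 * len ℓ 0 j) = PP β ℓ ε j m := by
  unfold PP
  have hL := len_pos ℓ hℓ 0 j
  rw [mul_comm 2, per_mul (pw β ℓ 0 j) (len ℓ 0 j) (pw_per β ℓ hℓ hper 0 j),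
    Nat.add_mul_div_left _ _ hL, pow_add, pow_two, PM.sq (hε j), mul_one]

theorem len_mono (ℓ : ℕ → ℕ) (hℓ : ∀ i, 1 ≤ ℓ i) {i k : ℕ} (h : i ≤ k) :
    len ℓ 0 i ≤ len ℓ 0 k := by
  obtain ⟨d, rfl⟩ := Nat.exists_eq_add_of_le h
  rw [len_add]
  exact Nat.le_mul_of_pos_right _ (len_pos ℓ hℓ _ _)

/-- the number of jumps of the sign-corrected block followed by another sign function. -/
theorem jump_card {β : ℕ → ℕ → ℝ} {ℓ : ℕ → ℕ} {ε : ℕ → ℝ}
    (hε : ∀ i, PM (ε i)) (i D : ℕ) (hℓ : 1 ≤ ℓ i)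
    (hD : ((Finset.Ico 1 (ℓ i)).filter (fun n => β i n ≠ ε i * β i (n - 1))).card ≤ D)
    (c : ℝ) (ω : ℕ → ℝ) :
    ((Ico 1 (2 * ℓ i)).filter (fun x => c * th β ℓ ε i x * ω (x / ℓ i) ≠
      c * th β ℓ ε i (x - 1) * ω ((x - 1) / ℓ i))).card ≤ 2 * D + 1 := by
  classical
  have hth : ∀ x, 1 ≤ x → x < ℓ i → th β ℓ ε i x ≠ th β ℓ ε i (x - 1) →
      β i x ≠ ε i * β i (x - 1) := by
    intro x h1 h2 hne heq
    apply hne
    unfold th
    rw [Nat.mod_eq_of_lt h2, Nat.mod_eq_of_lt (by omega), heq]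
    obtain ⟨y, rfl⟩ : ∃ y, x = y + 1 := ⟨x - 1, by omega⟩
    rw [Nat.add_sub_cancel, pow_succ]
    have := PM.sq (hε i)
    calc ε i * β i y * (ε i ^ y * ε i) = (ε i * ε i) * (β i y * ε i ^ y) := by ring
      _ = _ := by rw [this, one_mul]
  set S := (Finset.Ico 1 (ℓ i)).filter (fun n => β i n ≠ ε i * β i (n - 1)) with hS
  have hsub : (Ico 1 (2 * ℓ i)).filter (fun x => c * th β ℓ ε i x * ω (x / ℓ i) ≠
      c * th β ℓ ε i (x - 1) * ω ((x - 1) / ℓ i)) ⊆ S ∪ {ℓ i} ∪ S.image (fun x => x + ℓ i) := by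
    intro x hx
    rw [mem_filter, mem_Ico] at hx
    obtain ⟨⟨h1, h2⟩, h3⟩ := hx
    rw [mem_union, mem_union, mem_singleton, mem_image]
    rcases lt_trichotomy x (ℓ i) with h | h | h
    · left; left
      rw [hS, mem_filter, mem_Ico]
      refine ⟨⟨h1, h⟩, hth x h1 h ?_⟩
      intro heq
      apply h3
      rw [heq, Nat.div_eq_of_lt h, Nat.div_eq_of_lt (by omega)]
    · left; right; exact h
    · right
      refine ⟨x - ℓ i, ?_, by omega⟩
      rw [hS, mem_filter, mem_Ico]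
      refine ⟨⟨by omega, by omega⟩, hth _ (by omega) (by omega) ?_⟩
      intro heq
      apply h3
      have e1 : th β ℓ ε i x = th β ℓ ε i (x - ℓ i) := by
        unfold th
        rw [Nat.mod_eq_sub_mod h.le]
      have e2 : th β ℓ ε i (x - 1) = th β ℓ ε i (x - ℓ i - 1) := by
        unfold th
        rw [Nat.mod_eq_sub_mod (by omega : ℓ i ≤ x - 1), Nat.sub_right_comm]
      have e3 : x / ℓ i = 1 := by
        rw [Nat.div_eq_iff (by omega)]
        constructor <;> omega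
      have e4 : (x - 1) / ℓ i = 1 := by
        rw [Nat.div_eq_iff (by omega)]
        constructor <;> omega
      rw [e1, e2, e3, e4, heq]
  calc _ ≤ _ := card_le_card hsub
    _ ≤ (S ∪ {ℓ i}).card + (S.image (fun x => x + ℓ i)).card := card_union_le _ _
    _ ≤ (S.card + 1) + S.card := by
        refine add_le_add ((card_union_le _ _).trans ?_) card_image_le
        rw [card_singleton]
    _ ≤ 2 * D + 1 := by omega

/-- variation of `n ↦ W ((n + a) / L)`. -/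
theorem var_bound (W : ℕ → ℝ) (hW : ∀ x, |W x| ≤ 1) (L a N T K : ℕ) (_hL : 0 < L)
    (hT : N + a < L * T) (hK : ((Ico 1 T).filter (fun x => W x ≠ W (x - 1))).card ≤ K) :
    ∑ n ∈ Ico 1 N, |W ((n + 1 + a) / L) - W ((n + a) / L)| ≤ 2 * K := by
  classical
  have h1 : ∀ n ∈ Ico 1 N, |W ((n + 1 + a) / L) - W ((n + a) / L)| ≤
      if W ((n + 1 + a) / L) ≠ W ((n + a) / L) then (2 : ℝ) else 0 := by
    intro n _
    split_ifs with h
    · refine (abs_sub _ _).trans ?_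
      have := hW ((n + 1 + a) / L)
      have := hW ((n + a) / L)
      linarith
    · push Not at h
      rw [h, sub_self, abs_zero]
  refine (sum_le_sum h1).trans ?_
  rw [← sum_filter, sum_const, nsmul_eq_mul]
  have h2 : ((Ico 1 N).filter fun n => W ((n + 1 + a) / L) ≠ W ((n + a) / L)).card ≤ K := by
    refine le_trans ?_ hK
    have hstep : ∀ n, W ((n + 1 + a) / L) ≠ W ((n + a) / L) →
        n + 1 + a = L * ((n + 1 + a) / L) ∧ (n + a) / L = (n + 1 + a) / L - 1 ∧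
          1 ≤ (n + 1 + a) / L := by
      intro n hn
      have hdvd : L ∣ n + a + 1 := by
        by_contra hnd
        apply hn
        have : (n + a + 1) / L = (n + a) / L := by
          rw [Nat.succ_div, if_neg hnd, add_zero]
        rw [show n + 1 + a = n + a + 1 by ring, this]
      have h3 : (n + a + 1) / L = (n + a) / L + 1 := Nat.succ_div_of_dvd hdvd
      rw [show n + 1 + a = n + a + 1 by ring]
      refine ⟨(Nat.mul_div_cancel' hdvd).symm, ?_, ?_⟩
      · rw [h3, Nat.add_sub_cancel]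
      · rw [h3]; exact Nat.le_add_left _ _
    refine card_le_card_of_injOn (fun n => (n + 1 + a) / L) ?_ ?_
    · intro n hn
      rw [mem_coe, mem_filter, mem_Ico] at hn
      obtain ⟨h3, h4, h5⟩ := hstep n hn.2
      show (n + 1 + a) / L ∈ (Ico 1 T).filter (fun x => W x ≠ W (x - 1))
      rw [mem_filter, mem_Ico]
      refine ⟨⟨h5, ?_⟩, ?_⟩
      · apply Nat.div_lt_of_lt_mul
        omega
      · rw [← h4]; exact hn.2
    · intro x hx y hy h
      rw [mem_coe, mem_filter] at hx hy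
      have hx1 := (hstep x hx.2).1
      have hy1 := (hstep y hy.2).1
      have h' : (x + 1 + a) / L = (y + 1 + a) / L := h
      rw [h'] at hx1
      omega
  have h3 : (((Ico 1 N).filter fun n => W ((n + 1 + a) / L) ≠ W ((n + a) / L)).card : ℝ) ≤ K := by
    exact_mod_cast h2
  linarith

theorem exists_level (ℓ : ℕ → ℕ) (hℓ : ∀ i, 2 ≤ ℓ i) (i N : ℕ) (h : len ℓ 0 i ≤ N) :
    ∃ k, i ≤ k ∧ len ℓ 0 k ≤ N ∧ N < len ℓ 0 (k + 1) := by
  classical
  have hex : ∃ k, N < len ℓ 0 k := ⟨N, by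
    have := two_pow_le_len ℓ hℓ 0 N
    exact (Nat.lt_two_pow_self).trans_le this⟩
  have h1 := Nat.find_spec hex
  have h2 : i < Nat.find hex := by
    by_contra hcon
    push Not at hcon
    have := len_mono ℓ (fun i => by have := hℓ i; omega) hcon
    omega
  refine ⟨Nat.find hex - 1, by omega, ?_, ?_⟩
  · have := Nat.find_min hex (m := Nat.find hex - 1) (by omega)
    omega
  · rw [Nat.sub_add_cancel (by omega)]
    exact h1

/-- If from level `J` on the blocks `β i` are consistent (`ε (i+1) = (ε i)^{ℓ i}`), have at most `D`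
jumps relative to the sign `ε i`, and agree with `s (ε i)^n` off `e i` positions with
`∑ e i / ℓ i < ∞`, then every point with the level structure is orthogonal to Moebius
(with periodic weights). -/
theorem orth_of_ap {β : ℕ → ℕ → ℝ} {ℓ : ℕ → ℕ} {η : ℕ → ℝ} (hβ : ∀ i n, PM (β i n))
    (hℓ : ∀ i, 2 ≤ ℓ i) (hper : ∀ i n, β i (n + ℓ i) = β i n) (ε : ℕ → ℝ) (hε : ∀ i, PM (ε i))
    (J D : ℕ) (hcons : ∀ i, J ≤ i → ε (i + 1) = ε i ^ ℓ i)
    (hD : ∀ i, J ≤ i → ((Finset.Ico 1 (ℓ i)).filter (fun n => β i n ≠ ε i * β i (n - 1))).card ≤ D)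
    (e : ℕ → ℕ) (he : ∀ i, J ≤ i → ∃ s : ℝ, PM s ∧
      ((range (ℓ i)).filter (fun n => β i n * ε i ^ n ≠ s)).card ≤ e i)
    (hsum : Summable fun i => (e i : ℝ) / ℓ i) (h : Lev β ℓ η) : Orth ℓ η := by
  classical
  intro i₀ g hg hg1
  have hℓ1 : ∀ i, 1 ≤ ℓ i := fun i => by have := hℓ i; omega
  have hη1 : ∀ n, |η n| ≤ 1 := fun n => (h.pm hβ n).abs_le
  apply tendsto_of_lin_bound
  intro δ' hδ'
  set δ : ℝ := δ' / (4 * D + 7) with hδ
  have hδpos : 0 < δ := by positivity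
  -- choice of j
  obtain ⟨s₀, hs₀⟩ := summable_iff_vanishing_norm.mp hsum δ hδpos
  set j := max (max J i₀) (s₀.sup id + 1) with hj
  have hjJ : J ≤ j := (le_max_left _ _).trans (le_max_left _ _)
  have hji : i₀ ≤ j := (le_max_right _ _).trans (le_max_left _ _)
  have htail : ∀ k, ∑ i ∈ Ico j k, (e i : ℝ) / ℓ i ≤ δ := by
    intro k
    have h1 := hs₀ (Ico j k) (by
      rw [Finset.disjoint_left]
      intro x hx hxs
      have h2 : x ≤ s₀.sup id := Finset.le_sup (f := id) hxs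
      have h3 := (mem_Ico.1 hx).1
      have h4 : s₀.sup id + 1 ≤ j := le_max_right _ _
      omega)
    exact (le_abs_self _).trans h1.le
  set L := len ℓ 0 j with hL
  have hLpos : 0 < L := len_pos ℓ hℓ1 0 j
  -- the constants
  have hgP : ∀ a n, (fun n => g n * PP β ℓ ε j (n + a)) (n + 2 * L) =
      (fun n => g n * PP β ℓ ε j (n + a)) n := by
    intro a n
    simp only
    have h1 : g (n + 2 * L) = g n := by
      obtain ⟨d, hd⟩ := Nat.exists_eq_add_of_le hji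
      have : 2 * L = len ℓ 0 i₀ * (2 * len ℓ (0 + i₀) d) := by
        rw [hL, hd, len_add]; ring
      rw [this, per_mul g _ hg]
    rw [h1, show n + 2 * L + a = n + a + 2 * L by ring, PP_per hℓ1 hper hε]
  have hC : ∀ a, ∃ C : ℝ, 0 ≤ C ∧ ∀ M : ℕ,
      |∑ n ∈ Finset.Icc 1 M, (μ n : ℝ) * (g n * PP β ℓ ε j (n + a))| ≤ δ * M + C := by
    intro a
    exact lin_bound _ (moebius_per (2 * L) (by omega) _ (hgP a)) hδpos
  choose Cf hCf0 hCf using hC
  set C : ℝ := ∑ a ∈ range (2 * L), Cf a with hCdef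
  have hC0 : 0 ≤ C := sum_nonneg fun a _ => hCf0 a
  have hCC : ∀ a M : ℕ, |∑ n ∈ Finset.Icc 1 M, (μ n : ℝ) * (g n * PP β ℓ ε j (n + a))| ≤
      δ * M + C := by
    intro a M
    have h1 : ∀ n, PP β ℓ ε j (n + a) = PP β ℓ ε j (n + a % (2 * L)) := by
      intro n
      conv_lhs => rw [← Nat.mod_add_div a (2 * L), ← add_assoc]
      rw [per_mul (PP β ℓ ε j) (2 * L) (fun m => PP_per hℓ1 hper hε j m)]
    simp only [h1]
    refine (hCf (a % (2 * L)) M).trans ?_
    have h2 : Cf (a % (2 * L)) ≤ C :=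
      single_le_sum (f := Cf) (fun a _ => hCf0 a) (mem_range.2 (Nat.mod_lt _ (by omega)))
    linarith
  refine ⟨(4 * D + 3) * C + len ℓ 0 (j + 1), fun N => ?_⟩
  by_cases hN : N < len ℓ 0 (j + 1)
  · -- trivial bound
    have h1 : |∑ n ∈ Finset.Icc 1 N, (μ n : ℝ) * (g n * η n)| ≤ N := by
      refine (abs_sum_le_sum_abs _ _).trans ?_
      calc _ ≤ ∑ n ∈ Finset.Icc 1 N, (1 : ℝ) := by
            refine sum_le_sum fun n _ => ?_
            rw [abs_mul, abs_mul]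
            have h2 : |(μ n : ℝ)| ≤ 1 := by exact_mod_cast ArithmeticFunction.abs_moebius_le_one
            calc _ ≤ (1 : ℝ) * (1 * 1) := by
                  gcongr
                  · exact hg1 _
                  · exact hη1 _
              _ = 1 := by norm_num
        _ = N := by simp
    have h2 : (N : ℝ) ≤ len ℓ 0 (j + 1) := by exact_mod_cast hN.le
    have h3 : 0 ≤ δ' * N := by positivity
    have h4 : 0 ≤ (4 * (D : ℝ) + 3) * C := by positivity
    linarith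
  push Not at hN
  obtain ⟨k, hjk, hkN, hNk⟩ := exists_level ℓ hℓ (j + 1) N hN
  obtain ⟨a, ha, ω, hω, hηω⟩ := h (k + 1)
  set ω' : ℕ → ℝ := fun y => ε (k + 1) ^ y * ω y with hω'
  have hω'1 : ∀ y, PM (ω' y) := fun y => ((hε _).pow _).mul (hω y)
  choose! s hs1 hs2 using he
  set T : ℝ := ∏ i ∈ Ico j k, s i with hT
  have hT1 : |T| ≤ 1 := by
    rw [hT, abs_prod]
    refine prod_le_one (fun _ _ => abs_nonneg _) fun i hi => ?_
    exact (hs1 i (hjJ.trans (mem_Ico.1 hi).1)).abs_le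
  set W : ℕ → ℝ := fun x => T * th β ℓ ε k x * ω' (x / ℓ k) with hW
  have hW1 : ∀ x, |W x| ≤ 1 := by
    intro x
    rw [hW]
    simp only
    rw [abs_mul, abs_mul]
    calc _ ≤ (1 : ℝ) * 1 * 1 := by
          gcongr
          · exact (th_pm hβ hε k x).abs_le
          · exact (hω'1 _).abs_le
      _ = 1 := by norm_num
  set Lk := len ℓ 0 k with hLk
  have hLkpos : 0 < Lk := len_pos ℓ hℓ1 0 k
  have hlenk : len ℓ 0 (k + 1) = Lk * ℓ k := by rw [len_succ', zero_add]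
  -- the exact formula
  have hform : ∀ n, η n = PP β ℓ ε j (n + a) * ((∏ i ∈ Ico j k, th β ℓ ε i ((n + a) / len ℓ 0 i)) *
      th β ℓ ε k ((n + a) / Lk)) * ω' ((n + a) / Lk / ℓ k) := by
    intro n
    have h1 : PP β ℓ ε (k + 1) (n + a) = PP β ℓ ε j (n + a) *
        ((∏ i ∈ Ico j k, th β ℓ ε i ((n + a) / len ℓ 0 i)) * th β ℓ ε k ((n + a) / Lk)) := by
      have h2 := PP_add hper hε j (k + 1 - j) (fun i hi => hcons i (hjJ.trans hi)) (n + a)
      rw [Nat.add_sub_cancel' (by omega : j ≤ k + 1)] at h2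
      rw [h2, prod_Ico_succ_top (by omega : j ≤ k)]
    rw [← h1, hηω, hω']
    simp only
    unfold PP
    rw [Nat.div_div_eq_div_mul, ← hlenk]
    have h3 := PM.sq ((hε (k + 1)).pow ((n + a) / len ℓ 0 (k + 1)))
    calc _ = pw β ℓ 0 (k + 1) (n + a) * ω ((n + a) / len ℓ 0 (k + 1)) * 1 := by ring
      _ = pw β ℓ 0 (k + 1) (n + a) * ω ((n + a) / len ℓ 0 (k + 1)) *
          (ε (k + 1) ^ ((n + a) / len ℓ 0 (k + 1)) * ε (k + 1) ^ ((n + a) / len ℓ 0 (k + 1))) := by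
            rw [h3]
      _ = _ := by ring
  -- deviation
  have hdev : ∀ n, |η n - PP β ℓ ε j (n + a) * W ((n + a) / Lk)| ≤
      2 * ∑ i ∈ Ico j k, (if th β ℓ ε i ((n + a) / len ℓ 0 i) ≠ s i then (1 : ℝ) else 0) := by
    intro n
    by_cases hall : ∀ i ∈ Ico j k, th β ℓ ε i ((n + a) / len ℓ 0 i) = s i
    · have h1 : ∏ i ∈ Ico j k, th β ℓ ε i ((n + a) / len ℓ 0 i) = T := prod_congr rfl hall
      rw [hform n, h1, hW]
      simp only
      have h2 : PP β ℓ ε j (n + a) * (T * th β ℓ ε k ((n + a) / Lk)) * ω' ((n + a) / Lk / ℓ k) -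
          PP β ℓ ε j (n + a) * (T * th β ℓ ε k ((n + a) / Lk) * ω' ((n + a) / Lk / ℓ k)) = 0 := by
        ring
      rw [h2, abs_zero]
      have : 0 ≤ ∑ i ∈ Ico j k, (if th β ℓ ε i ((n + a) / len ℓ 0 i) ≠ s i then (1 : ℝ) else 0) :=
        sum_nonneg fun i _ => by split_ifs <;> norm_num
      linarith
    · push Not at hall
      obtain ⟨i, hi, hne⟩ := hall
      have h1 : (1 : ℝ) ≤ ∑ i ∈ Ico j k, (if th β ℓ ε i ((n + a) / len ℓ 0 i) ≠ s i then (1 : ℝ) else 0) := by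
        have h2 := single_le_sum (f := fun i =>
          (if th β ℓ ε i ((n + a) / len ℓ 0 i) ≠ s i then (1 : ℝ) else 0))
          (fun i _ => by split_ifs <;> norm_num) hi
        rw [if_pos hne] at h2
        exact h2
      have h3 : |PP β ℓ ε j (n + a) * W ((n + a) / Lk)| ≤ 1 := by
        rw [abs_mul]
        calc _ ≤ (1 : ℝ) * 1 := by
              gcongr
              · exact (PP_pm hβ hε _ _).abs_le
              · exact hW1 _
          _ = 1 := one_mul 1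
      have h4 := hη1 n
      refine (abs_sub _ _).trans ?_
      linarith
  -- counting the bad positions
  have hcount : ∀ i ∈ Ico j k,
      ∑ n ∈ Finset.Icc 1 N, (if th β ℓ ε i ((n + a) / len ℓ 0 i) ≠ s i then (1 : ℝ) else 0) ≤
        2 * N * ((e i : ℝ) / ℓ i) := by
    intro i hi
    obtain ⟨hi1, hi2⟩ := mem_Ico.1 hi
    rw [← sum_filter, sum_const, nsmul_eq_mul, mul_one]
    have hLi : 0 < len ℓ 0 i := len_pos ℓ hℓ1 0 i
    have hli : 0 < ℓ i := hℓ1 i
    have h1 := count_window (fun m => th β ℓ ε i (m / len ℓ 0 i) ≠ s i) (len ℓ 0 i * ℓ i)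
      (len ℓ 0 i * e i) (Nat.mul_pos hLi hli) (by
        intro n
        rw [Nat.add_mul_div_left _ _ hLi]
        unfold th
        rw [Nat.add_mod_right]) (by
        refine (count_div (fun y => β i y * ε i ^ y ≠ s i) (len ℓ 0 i) (ℓ i) hLi).trans ?_
        exact Nat.mul_le_mul_left _ (hs2 i (hjJ.trans hi1))) a N
    have h2 : len ℓ 0 i * ℓ i ≤ N := by
      have h3 : len ℓ 0 (i + 1) = len ℓ 0 i * ℓ i := by rw [len_succ', zero_add]
      rw [← h3]
      exact (len_mono ℓ hℓ1 (by omega : i + 1 ≤ k)).trans hkN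
    have h3 : N / (len ℓ 0 i * ℓ i) + 1 ≤ 2 * (N / (len ℓ 0 i * ℓ i)) := by
      have : 1 ≤ N / (len ℓ 0 i * ℓ i) := (Nat.one_le_div_iff (Nat.mul_pos hLi hli)).2 h2
      omega
    have h4 : (((Finset.Icc 1 N).filter fun n => th β ℓ ε i ((n + a) / len ℓ 0 i) ≠ s i).card : ℝ) ≤
        2 * ((N : ℝ) / (len ℓ 0 i * ℓ i)) * (len ℓ 0 i * e i) := by
      have h5 := h1.trans (Nat.mul_le_mul_right _ h3)
      have h6 : (((Finset.Icc 1 N).filter fun n => th β ℓ ε i ((n + a) / len ℓ 0 i) ≠ s i).card : ℝ) ≤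
        2 * ((N / (len ℓ 0 i * ℓ i) : ℕ) : ℝ) * (len ℓ 0 i * e i) := by exact_mod_cast h5
      refine h6.trans ?_
      have h7 : ((N / (len ℓ 0 i * ℓ i) : ℕ) : ℝ) ≤ (N : ℝ) / (len ℓ 0 i * ℓ i) := by
        have := @Nat.cast_div_le ℝ _ _ _ N (len ℓ 0 i * ℓ i)
        push_cast at this
        exact this
      gcongr
    refine h4.trans (le_of_eq ?_)
    have h8 : (len ℓ 0 i : ℝ) ≠ 0 := by exact_mod_cast hLi.ne'
    have h9 : (ℓ i : ℝ) ≠ 0 := by exact_mod_cast hli.ne'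
    field_simp
  have hbad : ∑ n ∈ Finset.Icc 1 N, |η n - PP β ℓ ε j (n + a) * W ((n + a) / Lk)| ≤ 4 * δ * N := by
    calc _ ≤ ∑ n ∈ Finset.Icc 1 N, 2 * ∑ i ∈ Ico j k,
            (if th β ℓ ε i ((n + a) / len ℓ 0 i) ≠ s i then (1 : ℝ) else 0) :=
          sum_le_sum fun n _ => hdev n
      _ = 2 * ∑ i ∈ Ico j k, ∑ n ∈ Finset.Icc 1 N,
            (if th β ℓ ε i ((n + a) / len ℓ 0 i) ≠ s i then (1 : ℝ) else 0) := by
          rw [← mul_sum, sum_comm]
      _ ≤ 2 * ∑ i ∈ Ico j k, 2 * N * ((e i : ℝ) / ℓ i) := by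
          gcongr with i hi
          exact hcount i hi
      _ = 4 * N * ∑ i ∈ Ico j k, (e i : ℝ) / ℓ i := by
          rw [← mul_sum]; ring
      _ ≤ 4 * N * δ := mul_le_mul_of_nonneg_left (htail k) (by positivity)
      _ = _ := by ring
  -- main term
  have hvar := var_bound W hW1 Lk a N (2 * ℓ k) (2 * D + 1) hLkpos (by
      rw [hlenk] at ha hNk
      have : Lk * (2 * ℓ k) = Lk * ℓ k + Lk * ℓ k := by ring
      omega) (jump_card hε k D (hℓ1 k) (hD k (by omega)) T ω')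
  have hmain := abel_bound (fun n => (μ n : ℝ) * (g n * PP β ℓ ε j (n + a)))
    (fun n => W ((n + a) / Lk)) (δ * N + C) N (fun M hM => (hCC a M).trans (by
      have : (M : ℝ) ≤ N := by exact_mod_cast hM
      have := mul_le_mul_of_nonneg_left this hδpos.le
      linarith)) (fun n => hW1 _)
  have hmain2 : |∑ n ∈ Finset.Icc 1 N, (μ n : ℝ) * (g n * PP β ℓ ε j (n + a)) * W ((n + a) / Lk)| ≤
      (δ * N + C) * (4 * D + 3) := by
    refine hmain.trans ?_
    apply mul_le_mul_of_nonneg_left _ (by positivity)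
    have : ((2 * D + 1 : ℕ) : ℝ) = 2 * D + 1 := by push_cast; ring
    rw [this] at hvar
    linarith
  have hsplit : ∑ n ∈ Finset.Icc 1 N, (μ n : ℝ) * (g n * η n) =
      ∑ n ∈ Finset.Icc 1 N, (μ n : ℝ) * (g n * PP β ℓ ε j (n + a)) * W ((n + a) / Lk) +
      ∑ n ∈ Finset.Icc 1 N, (μ n : ℝ) * (g n * (η n - PP β ℓ ε j (n + a) * W ((n + a) / Lk))) := by
    rw [← sum_add_distrib]
    refine sum_congr rfl fun n _ => ?_
    ring
  have hrest : |∑ n ∈ Finset.Icc 1 N, (μ n : ℝ) * (g n * (η n - PP β ℓ ε j (n + a) * W ((n + a) / Lk)))| ≤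
      4 * δ * N := by
    refine (abs_sum_le_sum_abs _ _).trans (le_trans ?_ hbad)
    refine sum_le_sum fun n _ => ?_
    rw [abs_mul, abs_mul]
    have h2 : |(μ n : ℝ)| ≤ 1 := by exact_mod_cast ArithmeticFunction.abs_moebius_le_one
    calc _ ≤ (1 : ℝ) * (1 * |η n - PP β ℓ ε j (n + a) * W ((n + a) / Lk)|) := by
          gcongr
          exact hg1 _
      _ = _ := by rw [one_mul, one_mul]
  rw [hsplit]
  refine (abs_add_le _ _).trans ((add_le_add hmain2 hrest).trans ?_)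
  have hδe : δ' = δ * (4 * D + 7) := by rw [hδ]; field_simp
  rw [hδe]
  have h0 : (0 : ℝ) ≤ (len ℓ 0 (j + 1) : ℝ) := Nat.cast_nonneg _
  nlinarith

end Pool.Agent.Helper51.Mo
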