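import Mathlib
import Pool.Agent.Helper51.MoCount
open Filter Topology Finset

/-! The drop lemma: a nongeometric block makes the state sums drop. -/

namespace Pool.Agent.Helper51.Mo

/-- The defect function of the state sum of `ξ × β`. -/
noncomputable def wf (p q L ℓ a b : ℕ) (ξ β : ℕ → ℝ) (σ : ℕ → ℕ → ℝ) (n : ℕ) : ℝ :=
  1 - σ ((p * n + a) / (L * ℓ)) ((q * n + b) / (L * ℓ)) *
    ((ξ (p * n + a) * β ((p * n + a) / L)) * (ξ (q * n + b) * β ((q * n + b) / L)))

theorem wf_swap (p q L ℓ a b : ℕ) (ξ β : ℕ → ℝ) (σ : ℕ → ℕ → ℝ) (n : ℕ) :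
    wf p q L ℓ a b ξ β σ n = wf q p L ℓ b a ξ β (fun k l => σ l k) n := by
  unfold wf; ring

theorem wf_nonneg {p q L ℓ a b : ℕ} {ξ β : ℕ → ℝ} {σ : ℕ → ℕ → ℝ} (hσ : ∀ k l, |σ k l| ≤ 1)
    (hξ : ∀ n, PM (ξ n)) (hβ : ∀ n, PM (β n)) (n : ℕ) : 0 ≤ wf p q L ℓ a b ξ β σ n := by
  unfold wf
  have h1 : |σ ((p * n + a) / (L * ℓ)) ((q * n + b) / (L * ℓ)) *
    ((ξ (p * n + a) * β ((p * n + a) / L)) * (ξ (q * n + b) * β ((q * n + b) / L)))| ≤ 1 := by
    rw [abs_mul, (((hξ _).mul (hβ _)).mul ((hξ _).mul (hβ _))).abs, mul_one]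
    exact hσ _ _
  have := (abs_le.1 h1).2
  linarith

/-- Averaging over a window of base points. -/
theorem window (w : ℕ → ℝ) (hw : ∀ n, 0 ≤ w n) (L ℓ n₀ h H : ℕ) (hh : 1 ≤ h) (hL : h ≤ L)
    (hr : n₀ + H ≤ 2 * L) :
    ∃ n, n₀ ≤ n ∧ n < n₀ + h ∧
      ∑ d ∈ range (ℓ - 2), (w (n + L * d) + w (n + H + L * d)) ≤
        2 * ((∑ m ∈ range (L * ℓ), w m) / h) := by
  set W := ∑ m ∈ range (L * ℓ), w m with hW
  have hone : ∀ x : ℕ, x ≤ 2 * L →
      ∑ i ∈ range h, ∑ d ∈ range (ℓ - 2), w (x + i + L * d) ≤ W := by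
    intro x hx
    calc ∑ i ∈ range h, ∑ d ∈ range (ℓ - 2), w (x + i + L * d)
        ≤ ∑ i ∈ range L, ∑ d ∈ range (ℓ - 2), w (x + i + L * d) := by
          apply sum_le_sum_of_subset_of_nonneg
          · exact range_subset_range.2 hL
          · intro i _ _
            exact sum_nonneg fun d _ => hw _
      _ = ∑ n ∈ range (L * (ℓ - 2)), w (x + n) := by
          rw [sum_split]
          refine sum_congr rfl fun i _ => sum_congr rfl fun d _ => ?_
          rw [show x + i + L * d = x + (L * d + i) by ring]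
      _ = ∑ n ∈ Finset.Ico x (x + L * (ℓ - 2)), w n := by
          rw [Finset.sum_Ico_eq_sum_range]
          simp
      _ ≤ W := by
          apply sum_le_sum_of_subset_of_nonneg
          · intro n hn
            rw [Finset.mem_Ico] at hn
            rw [mem_range]
            have h2 : 2 ≤ ℓ := by
              by_contra hcon
              have : ℓ - 2 = 0 := by omega
              rw [this] at hn
              omega
            have h3 : L * ℓ = 2 * L + L * (ℓ - 2) := by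
              obtain ⟨t, rfl⟩ := Nat.exists_eq_add_of_le h2
              rw [Nat.add_sub_cancel_left]
              ring
            omega
          · intro i _ _
            exact hw _
  have h1 := hone n₀ (by omega)
  have h2 := hone (n₀ + H) hr
  by_contra hcon
  push Not at hcon
  have h3 : ∑ i ∈ range h, (2 * (W / h)) < ∑ i ∈ range h,
      ∑ d ∈ range (ℓ - 2), (w (n₀ + i + L * d) + w (n₀ + i + H + L * d)) := by
    apply sum_lt_sum_of_nonempty
    · exact ⟨0, mem_range.2 hh⟩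
    · intro i hi
      exact hcon (n₀ + i) (by omega) (by have := mem_range.1 hi; omega)
  have h4 : ∑ i ∈ range h, ∑ d ∈ range (ℓ - 2), (w (n₀ + i + L * d) + w (n₀ + i + H + L * d)) =
      ∑ i ∈ range h, ∑ d ∈ range (ℓ - 2), w (n₀ + i + L * d) +
      ∑ i ∈ range h, ∑ d ∈ range (ℓ - 2), w (n₀ + H + i + L * d) := by
    rw [← sum_add_distrib]
    refine sum_congr rfl fun i _ => ?_
    rw [← sum_add_distrib]
    refine sum_congr rfl fun d _ => ?_
    rw [show n₀ + i + H + L * d = n₀ + H + i + L * d by ring]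
  have h5 : ∑ i ∈ range h, (2 * (W / h)) = 2 * W := by
    rw [sum_const, card_range, nsmul_eq_mul]
    have : (h : ℝ) ≠ 0 := by exact_mod_cast (by omega : h ≠ 0)
    field_simp
  rw [h5, h4] at h3
  linarith

/-- Counting violations. -/
theorem count_viol (w : ℕ → ℝ) (hw : ∀ n, 0 ≤ w n) (L ℓ n H : ℕ) (V c : ℝ)
    (hn : ∑ d ∈ range (ℓ - 2), (w (n + L * d) + w (n + H + L * d)) ≤ 2 * V)
    (X A : ℕ → Prop) (hA : ∑ d ∈ range ℓ, ind (A d) ≤ c)
    (hX : ∀ d, X d → A d ∨ 2 ≤ w (n + L * d) + w (n + H + L * d)) :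
    ∑ d ∈ range ℓ, ind (X d) ≤ V + c + 2 := by
  have h1 : ∑ d ∈ range ℓ, ind (X d) ≤ ∑ d ∈ range (ℓ - 2), ind (X d) + 2 := by
    have hsub : range (ℓ - 2) ⊆ range ℓ := range_subset_range.2 (Nat.sub_le _ _)
    rw [← sum_sdiff hsub, add_comm]
    refine add_le_add_right ?_ _
    calc ∑ d ∈ range ℓ \ range (ℓ - 2), ind (X d) ≤ ∑ d ∈ range ℓ \ range (ℓ - 2), (1 : ℝ) :=
          sum_le_sum fun d _ => ind_le_one _
      _ = ((range ℓ \ range (ℓ - 2)).card : ℝ) := by simp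
      _ ≤ 2 := by
          rw [card_sdiff_of_subset hsub, card_range, card_range]
          have : ℓ - (ℓ - 2) ≤ 2 := by omega
          exact_mod_cast this
  have h2 : ∑ d ∈ range (ℓ - 2), ind (X d) ≤ ∑ d ∈ range (ℓ - 2), ind (A d) +
      ∑ d ∈ range (ℓ - 2), (w (n + L * d) + w (n + H + L * d)) / 2 := by
    rw [← sum_add_distrib]
    refine sum_le_sum fun d _ => ?_
    have w1 := hw (n + L * d)
    have w2 := hw (n + H + L * d)
    by_cases hXd : X d
    · rw [ind_true hXd]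
      rcases hX d hXd with h | h
      · rw [ind_true h]; linarith
      · have := ind_nonneg (A d)
        linarith
    · rw [ind_false hXd]
      have := ind_nonneg (A d)
      linarith
  have h3 : ∑ d ∈ range (ℓ - 2), ind (A d) ≤ c := by
    refine le_trans ?_ hA
    apply sum_le_sum_of_subset_of_nonneg
    · exact range_subset_range.2 (Nat.sub_le _ _)
    · intro i _ _
      exact ind_nonneg _
  have h4 : ∑ d ∈ range (ℓ - 2), (w (n + L * d) + w (n + H + L * d)) / 2 ≤ V := by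
    rw [← sum_div]
    linarith
  linarith

theorem exists_cross (r L c I h : ℕ) (hr : 1 ≤ r) (hc : r * h + c < I * L) :
    ∃ N, h < N ∧ r * (N - 1) + c < I * L ∧ I * L ≤ r * N + c := by
  classical
  have hex : ∃ N, I * L ≤ r * N + c :=
    ⟨I * L, (Nat.le_mul_of_pos_left _ hr).trans (Nat.le_add_right _ _)⟩
  refine ⟨Nat.find hex, ?_, ?_, Nat.find_spec hex⟩
  · by_contra hcon
    push Not at hcon
    have h1 := Nat.find_spec hex
    have h2 : r * Nat.find hex ≤ r * h := Nat.mul_le_mul_left _ hcon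
    omega
  · have hpos : 0 < Nat.find hex := by
      by_contra hcon
      have h0 : Nat.find hex = 0 := by omega
      have h1 := Nat.find_spec hex
      rw [h0] at h1
      simp only [mul_zero, zero_add] at h1
      omega
    have := Nat.find_min hex (Nat.sub_lt hpos one_pos)
    omega

theorem class_rep (r L c h i : ℕ) (hr : 1 ≤ r) (hL : 1 ≤ L) :
    ∃ I, I ≡ i [MOD r] ∧ r * h + c < I * L ∧ I * L ≤ r * (L + h) + c := by
  set K := (r * h + c) / L with hK
  refine ⟨K + 1 + (i + (r - 1) * (K + 1)) % r, ?_, ?_, ?_⟩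
  · have h1 : K + 1 + (i + (r - 1) * (K + 1)) % r ≡ K + 1 + (i + (r - 1) * (K + 1)) [MOD r] :=
      Nat.ModEq.add_left _ (Nat.mod_modEq _ _)
    have h2 : K + 1 + (i + (r - 1) * (K + 1)) = i + r * (K + 1) := by
      obtain ⟨t, rfl⟩ := Nat.exists_eq_add_of_le hr
      rw [Nat.add_sub_cancel_left]
      ring
    rw [h2] at h1
    refine h1.trans ?_
    have : i + r * (K + 1) ≡ i + 0 [MOD r] :=
      Nat.ModEq.add_left i ((Nat.modEq_zero_iff_dvd).2 (Dvd.intro _ rfl))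
    exact this
  · have h1 : r * h + c < (K + 1) * L := by
      have := Nat.lt_div_mul_add (a := r * h + c) (b := L) (by omega)
      rw [← hK] at this
      nlinarith
    refine h1.trans_le (Nat.mul_le_mul_right _ (by omega))
  · have h1 : (i + (r - 1) * (K + 1)) % r < r := Nat.mod_lt _ (by omega)
    have h2 : K + 1 + (i + (r - 1) * (K + 1)) % r ≤ K + r := by omega
    have h3 : K * L ≤ r * h + c := Nat.div_mul_le_self _ _
    calc (K + 1 + (i + (r - 1) * (K + 1)) % r) * L ≤ (K + r) * L := Nat.mul_le_mul_right _ h2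
      _ = K * L + r * L := by ring
      _ ≤ r * h + c + r * L := by omega
      _ = r * (L + h) + c := by ring

/-- number of `d < ℓ` with `ℓ ∣ r d + i` -/
theorem count_dvd (ℓ r i : ℕ) (hℓ : 1 ≤ ℓ) (hr : 1 ≤ r) :
    ∑ d ∈ range ℓ, ind (ℓ ∣ r * d + i) ≤ r := by
  have h1 := sum_sample (fun n => ind (ℓ ∣ n)) ℓ (fun n => by
    have : ℓ ∣ n + ℓ ↔ ℓ ∣ n := by
      rw [Nat.dvd_add_left (dvd_refl ℓ)]
    simp only [this]) (fun n => ind_nonneg _) r i hr
  refine h1.trans ?_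
  have h2 : ∑ n ∈ range ℓ, ind (ℓ ∣ n) = 1 := by
    rw [sum_eq_single_of_mem 0 (mem_range.2 hℓ)]
    · exact ind_true (dvd_zero ℓ)
    · intro n hn hn0
      apply ind_false
      intro hdvd
      have := Nat.le_of_dvd (by omega) hdvd
      have := mem_range.1 hn
      omega
  rw [h2, mul_one]

/-- circular jump function -/
noncomputable def jf (ℓ : ℕ) (β : ℕ → ℝ) (n : ℕ) : ℝ := β n * β (n + (ℓ - 1))

theorem jf_succ {ℓ : ℕ} {β : ℕ → ℝ} (hℓ : 1 ≤ ℓ) (hper : ∀ n, β (n + ℓ) = β n) (m : ℕ) :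
    jf ℓ β (m + 1) = β (m + 1) * β m := by
  unfold jf
  rw [show m + 1 + (ℓ - 1) = m + ℓ by omega, hper]

theorem jf_per {ℓ : ℕ} {β : ℕ → ℝ} (hper : ∀ n, β (n + ℓ) = β n) (m : ℕ) :
    jf ℓ β (m + ℓ) = jf ℓ β m := by
  unfold jf
  rw [show m + ℓ + (ℓ - 1) = m + (ℓ - 1) + ℓ by ring, hper, hper]

theorem jf_pm {ℓ : ℕ} {β : ℕ → ℝ} (hβ : ∀ n, PM (β n)) (m : ℕ) : PM (jf ℓ β m) :=
  (hβ _).mul (hβ _)

/-- evaluation of `wf` along a progression -/
theorem wf_prog {p q L ℓ a b : ℕ} {ξ β : ℕ → ℝ} (hL : 0 < L) (hξ : ∀ n, ξ (n + L) = ξ n)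
    (σ : ℕ → ℕ → ℝ) (n d : ℕ) :
    wf p q L ℓ a b ξ β σ (n + L * d) =
      1 - σ ((p * d + (p * n + a) / L) / ℓ) ((q * d + (q * n + b) / L) / ℓ) *
        ((ξ (p * n + a) * β (p * d + (p * n + a) / L)) *
          (ξ (q * n + b) * β (q * d + (q * n + b) / L))) := by
  unfold wf
  have e1 : ∀ r c : ℕ, r * (n + L * d) + c = (r * n + c) + L * (r * d) := by
    intro r c; ring
  have e2 : ∀ r c : ℕ, (r * (n + L * d) + c) / L = r * d + (r * n + c) / L := by
    intro r c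
    rw [e1, Nat.add_mul_div_left _ _ hL, add_comm]
  have e3 : ∀ r c : ℕ, (r * (n + L * d) + c) / (L * ℓ) = (r * d + (r * n + c) / L) / ℓ := by
    intro r c
    rw [← Nat.div_div_eq_div_mul, e2]
  have e4 : ∀ r c : ℕ, ξ (r * (n + L * d) + c) = ξ (r * n + c) := by
    intro r c
    rw [e1, per_mul ξ L hξ]
  rw [e3, e3, e2, e2, e4, e4]

theorem pm_eq_or {u v : ℝ} (hu : PM u) (hv : PM v) (h : u ≠ v) : u = -v := by
  rcases hu with rfl | rfl <;> rcases hv with rfl | rfl <;> first | exact absurd rfl h | norm_num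

/-- A crossing of type `(1,0)`. -/
theorem viol_one {p q L ℓ a b : ℕ} {ξ β : ℕ → ℝ} (hL : 0 < L) (hℓ : 1 ≤ ℓ)
    (hξ : ∀ n, ξ (n + L) = ξ n) (hξ1 : ∀ n, PM (ξ n)) (hper : ∀ n, β (n + ℓ) = β n)
    (hβ : ∀ n, PM (β n)) (σ : ℕ → ℕ → ℝ) (n H I : ℕ)
    (h1 : (p * n + a) / L + 1 = I) (h2 : (p * (n + H) + a) / L = I)
    (h3 : (q * (n + H) + b) / L = (q * n + b) / L) (d : ℕ)
    (hne : jf ℓ β (p * d + I) ≠
      ξ (p * n + a) * ξ (q * n + b) * (ξ (p * (n + H) + a) * ξ (q * (n + H) + b))) :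
    ℓ ∣ p * d + I ∨ 2 ≤ wf p q L ℓ a b ξ β σ (n + L * d) + wf p q L ℓ a b ξ β σ (n + H + L * d) := by
  by_cases hdvd : ℓ ∣ p * d + I
  · exact Or.inl hdvd
  right
  rw [wf_prog hL hξ, wf_prog hL hξ, h2, h3]
  set K := (p * n + a) / L with hK
  set K' := (q * n + b) / L with hK'
  rw [← h1] at hne hdvd ⊢
  rw [show p * d + (K + 1) = (p * d + K) + 1 by ring] at hne hdvd ⊢
  rw [jf_succ hℓ hper] at hne
  have hdiv : (p * d + K + 1) / ℓ = (p * d + K) / ℓ := by
    rw [Nat.succ_div, if_neg hdvd, add_zero]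
  rw [hdiv]
  have hg := pm_eq_or ((hβ (p * d + K + 1)).mul (hβ (p * d + K)))
    (((hξ1 (p * n + a)).mul (hξ1 (q * n + b))).mul
      ((hξ1 (p * (n + H) + a)).mul (hξ1 (q * (n + H) + b)))) hne
  -- the two terms cancel
  generalize σ ((p * d + K) / ℓ) ((q * d + K') / ℓ) = s
  have b2 := (hβ (q * d + K')).sq
  have x1 := (hξ1 (p * n + a)).sq
  have x2 := (hξ1 (q * n + b)).sq
  have y0 := (hβ (p * d + K)).sq
  have key : (ξ (p * (n + H) + a) * β (p * d + K + 1)) * (ξ (q * (n + H) + b) * β (q * d + K')) =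
      - ((ξ (p * n + a) * β (p * d + K)) * (ξ (q * n + b) * β (q * d + K'))) := by
    have e1 : β (p * d + K + 1) = -(ξ (p * n + a) * ξ (q * n + b) *
        (ξ (p * (n + H) + a) * ξ (q * (n + H) + b))) * β (p * d + K) := by
      rw [← hg, mul_assoc, y0, mul_one]
    rw [e1]
    have x3 := (hξ1 (p * (n + H) + a)).sq
    have x4 := (hξ1 (q * (n + H) + b)).sq
    calc _ = -((ξ (p * n + a) * β (p * d + K)) * (ξ (q * n + b) * β (q * d + K'))) *
          ((ξ (p * (n + H) + a) * ξ (p * (n + H) + a)) *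
            (ξ (q * (n + H) + b) * ξ (q * (n + H) + b))) := by ring
      _ = _ := by rw [x3, x4]; ring
  rw [key]
  linarith

/-- A crossing of type `(1,1)`. -/
theorem viol_two {p q L ℓ a b : ℕ} {ξ β : ℕ → ℝ} (hL : 0 < L) (hℓ : 1 ≤ ℓ)
    (hξ : ∀ n, ξ (n + L) = ξ n) (hξ1 : ∀ n, PM (ξ n)) (hper : ∀ n, β (n + ℓ) = β n)
    (hβ : ∀ n, PM (β n)) (σ : ℕ → ℕ → ℝ) (n H I J : ℕ)
    (h1 : (p * n + a) / L + 1 = I) (h2 : (p * (n + H) + a) / L = I)
    (h3 : (q * n + b) / L + 1 = J) (h4 : (q * (n + H) + b) / L = J) (d : ℕ)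
    (hne : jf ℓ β (p * d + I) * jf ℓ β (q * d + J) ≠
      ξ (p * n + a) * ξ (q * n + b) * (ξ (p * (n + H) + a) * ξ (q * (n + H) + b))) :
    (ℓ ∣ p * d + I ∨ ℓ ∣ q * d + J) ∨
      2 ≤ wf p q L ℓ a b ξ β σ (n + L * d) + wf p q L ℓ a b ξ β σ (n + H + L * d) := by
  by_cases hdvd : ℓ ∣ p * d + I
  · exact Or.inl (Or.inl hdvd)
  by_cases hdvd' : ℓ ∣ q * d + J
  · exact Or.inl (Or.inr hdvd')
  right
  rw [wf_prog hL hξ, wf_prog hL hξ, h2, h4]
  set K := (p * n + a) / L with hK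
  set K' := (q * n + b) / L with hK'
  rw [← h1] at hne hdvd ⊢
  rw [← h3] at hne hdvd' ⊢
  rw [show p * d + (K + 1) = (p * d + K) + 1 by ring] at hne hdvd ⊢
  rw [show q * d + (K' + 1) = (q * d + K') + 1 by ring] at hne hdvd' ⊢
  rw [jf_succ hℓ hper, jf_succ hℓ hper] at hne
  have hdiv : (p * d + K + 1) / ℓ = (p * d + K) / ℓ := by
    rw [Nat.succ_div, if_neg hdvd, add_zero]
  have hdiv' : (q * d + K' + 1) / ℓ = (q * d + K') / ℓ := by
    rw [Nat.succ_div, if_neg hdvd', add_zero]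
  rw [hdiv, hdiv']
  have hg := pm_eq_or (((hβ (p * d + K + 1)).mul (hβ (p * d + K))).mul
    ((hβ (q * d + K' + 1)).mul (hβ (q * d + K'))))
    (((hξ1 (p * n + a)).mul (hξ1 (q * n + b))).mul
      ((hξ1 (p * (n + H) + a)).mul (hξ1 (q * (n + H) + b)))) hne
  generalize σ ((p * d + K) / ℓ) ((q * d + K') / ℓ) = s
  have y0 := (hβ (p * d + K)).sq
  have y1 := (hβ (q * d + K')).sq
  have key : (ξ (p * (n + H) + a) * β (p * d + K + 1)) *
      (ξ (q * (n + H) + b) * β (q * d + K' + 1)) =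
      - ((ξ (p * n + a) * β (p * d + K)) * (ξ (q * n + b) * β (q * d + K'))) := by
    have e1 : β (p * d + K + 1) * β (q * d + K' + 1) = -(ξ (p * n + a) * ξ (q * n + b) *
        (ξ (p * (n + H) + a) * ξ (q * (n + H) + b))) * (β (p * d + K) * β (q * d + K')) := by
      rw [← hg]
      calc _ = β (p * d + K + 1) * β (q * d + K' + 1) * ((β (p * d + K) * β (p * d + K)) *
            (β (q * d + K') * β (q * d + K'))) := by rw [y0, y1]; ring
        _ = _ := by ring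
    have x3 := (hξ1 (p * (n + H) + a)).sq
    have x4 := (hξ1 (q * (n + H) + b)).sq
    calc _ = ξ (p * (n + H) + a) * ξ (q * (n + H) + b) *
          (β (p * d + K + 1) * β (q * d + K' + 1)) := by ring
      _ = -((ξ (p * n + a) * β (p * d + K)) * (ξ (q * n + b) * β (q * d + K'))) *
          ((ξ (p * (n + H) + a) * ξ (p * (n + H) + a)) *
            (ξ (q * (n + H) + b) * ξ (q * (n + H) + b))) := by rw [e1]; ring
      _ = _ := by rw [x3, x4]; ring
  rw [key]
  linarith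

end Pool.Agent.Helper51.Mo
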