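import Mathlib
import Pool.Agent.Helper51.MoDrop
open Filter Topology Finset

/-! The drop lemma, part 2: crossings and assembly. -/

namespace Pool.Agent.Helper51.Mo

/-- crossing data: `r n + c` crosses the multiple `I L` between `N-1` and `N`. -/
def Cr (r L c I N : ℕ) : Prop := 1 ≤ N ∧ r * (N - 1) + c < I * L ∧ I * L ≤ r * N + c

theorem Cr.before {r L c I N n h : ℕ} (hc : Cr r L c I N) (hn : n < N)
    (hN : N ≤ n + h) (hh : r * h ≤ L) : (r * n + c) / L + 1 = I := by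
  obtain ⟨h1, h2, h3⟩ := hc
  have e1 : r * n ≤ r * (N - 1) := Nat.mul_le_mul_left _ (by omega)
  have e2 : r * N ≤ r * n + r * h := by
    rw [← Nat.mul_add]; exact Nat.mul_le_mul_left _ hN
  have hI : 1 ≤ I := by
    by_contra hcon
    have : I = 0 := by omega
    rw [this] at h2; omega
  obtain ⟨J, rfl⟩ := Nat.exists_eq_add_of_le hI
  have e3 : (1 + J) * L = L + J * L := by ring
  have h4 : (r * n + c) / L = J := by
    apply Nat.div_eq_of_lt_le
    · omega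
    · rw [show J.succ * L = (1 + J) * L by rw [Nat.succ_eq_add_one]; ring]; omega
  rw [h4]; ring

theorem Cr.after {r L c I N n h : ℕ} (hc : Cr r L c I N) (hN : N ≤ n)
    (hn : n < N + h) (hh : r * h ≤ L) : (r * n + c) / L = I := by
  obtain ⟨h1, h2, h3⟩ := hc
  have e1 : r * N ≤ r * n := Nat.mul_le_mul_left _ hN
  have e2 : r * n ≤ r * (N - 1) + r * h := by
    rw [← Nat.mul_add]; exact Nat.mul_le_mul_left _ (by omega)
  apply Nat.div_eq_of_lt_le
  · omega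
  · rw [Nat.succ_mul]; omega

/-- Two near pairs of crossings are congruent. -/
theorem near_unique {p q L a b h I J N M I' J' N' M' : ℕ}
    (hsz : 2 * p * q * (h + 1) ≤ L) (hp : 1 ≤ p) (hq : 1 ≤ q)
    (c1 : Cr p L a I N) (c2 : Cr q L b J M) (hNM : N ≤ M + h) (hMN : M ≤ N + h)
    (c1' : Cr p L a I' N') (c2' : Cr q L b J' M') (hNM' : N' ≤ M' + h) (hMN' : M' ≤ N' + h) :
    (q : ℤ) * ((I : ℤ) - I') = p * ((J : ℤ) - J') := by
  obtain ⟨a0, a1, a2⟩ := c1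
  obtain ⟨b0, b1, b2⟩ := c2
  obtain ⟨a0', a1', a2'⟩ := c1'
  obtain ⟨b0', b1', b2'⟩ := c2'
  have cN : ((N - 1 : ℕ) : ℤ) = (N : ℤ) - 1 := by push_cast [Nat.cast_sub a0]; ring
  have cM : ((M - 1 : ℕ) : ℤ) = (M : ℤ) - 1 := by push_cast [Nat.cast_sub b0]; ring
  have cN' : ((N' - 1 : ℕ) : ℤ) = (N' : ℤ) - 1 := by push_cast [Nat.cast_sub a0']; ring
  have cM' : ((M' - 1 : ℕ) : ℤ) = (M' : ℤ) - 1 := by push_cast [Nat.cast_sub b0']; ring
  have A1 : (p : ℤ) * (N - 1) + a < I * L := by rw [← cN]; exact_mod_cast a1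
  have A2 : (I : ℤ) * L ≤ p * N + a := by exact_mod_cast a2
  have B1 : (q : ℤ) * (M - 1) + b < J * L := by rw [← cM]; exact_mod_cast b1
  have B2 : (J : ℤ) * L ≤ q * M + b := by exact_mod_cast b2
  have A1' : (p : ℤ) * (N' - 1) + a < I' * L := by rw [← cN']; exact_mod_cast a1'
  have A2' : (I' : ℤ) * L ≤ p * N' + a := by exact_mod_cast a2'
  have B1' : (q : ℤ) * (M' - 1) + b < J' * L := by rw [← cM']; exact_mod_cast b1'
  have B2' : (J' : ℤ) * L ≤ q * M' + b := by exact_mod_cast b2'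
  have s1 : (N : ℤ) ≤ M + h := by exact_mod_cast hNM
  have s2 : (M : ℤ) ≤ N + h := by exact_mod_cast hMN
  have s1' : (N' : ℤ) ≤ M' + h := by exact_mod_cast hNM'
  have s2' : (M' : ℤ) ≤ N' + h := by exact_mod_cast hMN'
  have hP : (1 : ℤ) ≤ p := by exact_mod_cast hp
  have hQ : (1 : ℤ) ≤ q := by exact_mod_cast hq
  have hS : 2 * (p : ℤ) * q * (h + 1) ≤ L := by exact_mod_cast hsz
  set x : ℤ := (q : ℤ) * ((I : ℤ) - I') - p * ((J : ℤ) - J') with hx
  have hpq : (0 : ℤ) ≤ (p : ℤ) * q := by positivity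
  -- deviations
  obtain ⟨r, hr⟩ : ∃ r : ℤ, r = p * N + a - I * L := ⟨_, rfl⟩
  obtain ⟨t, ht⟩ : ∃ t : ℤ, t = q * M + b - J * L := ⟨_, rfl⟩
  obtain ⟨r', hr'⟩ : ∃ r' : ℤ, r' = p * N' + a - I' * L := ⟨_, rfl⟩
  obtain ⟨t', ht'⟩ : ∃ t' : ℤ, t' = q * M' + b - J' * L := ⟨_, rfl⟩
  have r0 : 0 ≤ r := by rw [hr]; linarith
  have r1 : r ≤ p - 1 := by rw [hr]; linarith
  have t0 : 0 ≤ t := by rw [ht]; linarith
  have t1 : t ≤ q - 1 := by rw [ht]; linarith
  have r0' : 0 ≤ r' := by rw [hr']; linarith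
  have r1' : r' ≤ p - 1 := by rw [hr']; linarith
  have t0' : 0 ≤ t' := by rw [ht']; linarith
  have t1' : t' ≤ q - 1 := by rw [ht']; linarith
  have hxL : x * L = p * q * ((N - M) - (N' - M')) - q * (r - r') + p * (t - t') := by
    rw [hx, hr, hr', ht, ht']; ring
  have q0 : (0 : ℤ) ≤ q := by linarith
  have p0 : (0 : ℤ) ≤ p := by linarith
  have u1 : (q : ℤ) * (r - r') ≤ q * (p - 1) := mul_le_mul_of_nonneg_left (by linarith) q0
  have u2 : -(q * (p - 1) : ℤ) ≤ (q : ℤ) * (r - r') := by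
    have := mul_le_mul_of_nonneg_left (show -(p - 1 : ℤ) ≤ r - r' by linarith) q0
    linarith
  have v1 : (p : ℤ) * (t - t') ≤ p * (q - 1) := mul_le_mul_of_nonneg_left (by linarith) p0
  have v2 : -(p * (q - 1) : ℤ) ≤ (p : ℤ) * (t - t') := by
    have := mul_le_mul_of_nonneg_left (show -(q - 1 : ℤ) ≤ t - t' by linarith) p0
    linarith
  have z1 : (p : ℤ) * q * ((N - M) - (N' - M')) ≤ p * q * (2 * h) :=
    mul_le_mul_of_nonneg_left (by linarith) hpq
  have z2 : -(p * q * (2 * h) : ℤ) ≤ (p : ℤ) * q * ((N - M) - (N' - M')) := by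
    have := mul_le_mul_of_nonneg_left
      (show -(2 * h : ℤ) ≤ ((N - M) - (N' - M') : ℤ) by linarith) hpq
    linarith
  have hS' : 2 * ((p : ℤ) * q) * h + 2 * (p * q) ≤ L := by
    calc 2 * ((p : ℤ) * q) * h + 2 * (p * q) = 2 * (p : ℤ) * q * (h + 1) := by ring
      _ ≤ L := hS
  have z1' : (p : ℤ) * q * ((N - M) - (N' - M')) ≤ 2 * (p * q) * h := by
    calc _ ≤ (p : ℤ) * q * (2 * h) := z1
      _ = _ := by ring
  have z2' : -(2 * (p * q) * h : ℤ) ≤ (p : ℤ) * q * ((N - M) - (N' - M')) := by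
    calc -(2 * (p * q) * h : ℤ) = -(p * q * (2 * h) : ℤ) := by ring
      _ ≤ _ := z2
  have u1' : (q : ℤ) * (r - r') ≤ p * q - q := by
    calc _ ≤ (q : ℤ) * (p - 1) := u1
      _ = _ := by ring
  have u2' : -(p * q - q : ℤ) ≤ (q : ℤ) * (r - r') := by
    calc -(p * q - q : ℤ) = -(q * (p - 1) : ℤ) := by ring
      _ ≤ _ := u2
  have v1' : (p : ℤ) * (t - t') ≤ p * q - p := by
    calc _ ≤ (p : ℤ) * (q - 1) := v1
      _ = _ := by ring
  have v2' : -(p * q - p : ℤ) ≤ (p : ℤ) * (t - t') := by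
    calc -(p * q - p : ℤ) = -(p * (q - 1) : ℤ) := by ring
      _ ≤ _ := v2
  have up : x * L < L := by rw [hxL]; linarith
  have lo : -(L : ℤ) < x * L := by rw [hxL]; linarith
  have hLpos : (0 : ℤ) < L := by
    have : (0 : ℤ) < 2 * p * q * (h + 1) := by positivity
    linarith
  have x1 : x < 1 := by
    by_contra hcon
    push Not at hcon
    have := mul_le_mul_of_nonneg_right hcon hLpos.le
    linarith
  have x2 : -1 < x := by
    by_contra hcon
    push Not at hcon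
    have := mul_le_mul_of_nonneg_right hcon hLpos.le
    linarith
  have : x = 0 := by omega
  rw [hx] at this
  linarith

theorem modEq_of_near {p q : ℕ} (hp : p.Prime) (hq : q.Prime) (hpq : p ≠ q) {I I' J J' : ℕ}
    (h : (q : ℤ) * ((I : ℤ) - I') = p * ((J : ℤ) - J')) : I ≡ I' [MOD p] ∧ J ≡ J' [MOD q] := by
  have hcop : IsCoprime (p : ℤ) (q : ℤ) :=
    Nat.isCoprime_iff_coprime.2 ((Nat.coprime_primes hp hq).2 hpq)
  constructor
  · rw [Nat.modEq_iff_dvd]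
    have h1 : (p : ℤ) ∣ q * ((I : ℤ) - I') := ⟨_, h⟩
    have h2 := hcop.dvd_of_dvd_mul_left h1
    rw [← neg_sub]
    exact (dvd_neg).2 h2
  · rw [Nat.modEq_iff_dvd]
    have h1 : (q : ℤ) ∣ p * ((J : ℤ) - J') := ⟨_, h.symm⟩
    have h2 := hcop.symm.dvd_of_dvd_mul_left h1
    rw [← neg_sub]
    exact (dvd_neg).2 h2

/-- A noncolliding crossing gives a good class. -/
theorem good_one {p q L ℓ a b h I N : ℕ} {ξ β : ℕ → ℝ} {σ : ℕ → ℕ → ℝ} {W : ℝ}
    (hp : 1 ≤ p) (hq : 1 ≤ q) (hh : 1 ≤ h)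
    (hsz : 2 * p * q * (h + 1) ≤ L) (h4 : 4 * h ≤ L) (hℓ : 1 ≤ ℓ)
    (hξ : ∀ n, ξ (n + L) = ξ n) (hξ1 : ∀ n, PM (ξ n)) (hper : ∀ n, β (n + ℓ) = β n)
    (hβ : ∀ n, PM (β n)) (hσ : ∀ k l, |σ k l| ≤ 1)
    (hW : W = ∑ m ∈ range (L * ℓ), wf p q L ℓ a b ξ β σ m)
    (hc : Cr p L a I N) (hN1 : 2 * h < N) (hN2 : N ≤ L + 2 * h)
    (hnc : (q * (N - h) + b) / L = (q * (N + h - 1) + b) / L) :
    Good ℓ (jf ℓ β) (W / h + p + 2) p I := by
  have hL : 0 < L := by omega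
  have hph : p * h ≤ L := by
    have : p * h ≤ 2 * p * q * (h + 1) := by
      calc p * h = 1 * p * 1 * h := by ring
        _ ≤ 2 * p * q * (h + 1) := by gcongr <;> omega
    omega
  obtain ⟨n, hn1, hn2, hn3⟩ := window (wf p q L ℓ a b ξ β σ) (wf_nonneg hσ hξ1 hβ) L ℓ (N - h) h h
    hh (by omega) (by omega)
  rw [← hW] at hn3
  have e1 : (p * n + a) / L + 1 = I := hc.before (by omega) (by omega) hph
  have e2 : (p * (n + h) + a) / L = I := hc.after (by omega) (by omega) hph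
  have e3 : (q * (n + h) + b) / L = (q * n + b) / L := by
    have l1 : (q * (N - h) + b) / L ≤ (q * n + b) / L := by
      apply Nat.div_le_div_right
      have : q * (N - h) ≤ q * n := Nat.mul_le_mul_left _ (by omega)
      omega
    have l2 : (q * n + b) / L ≤ (q * (n + h) + b) / L := by
      apply Nat.div_le_div_right
      have : q * n ≤ q * (n + h) := Nat.mul_le_mul_left _ (by omega)
      omega
    have l3 : (q * (n + h) + b) / L ≤ (q * (N + h - 1) + b) / L := by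
      apply Nat.div_le_div_right
      have : q * (n + h) ≤ q * (N + h - 1) := Nat.mul_le_mul_left _ (by omega)
      omega
    omega
  refine ⟨_, ((hξ1 (p * n + a)).mul (hξ1 (q * n + b))).mul
    ((hξ1 (p * (n + h) + a)).mul (hξ1 (q * (n + h) + b))), ?_⟩
  have := count_viol (wf p q L ℓ a b ξ β σ) (wf_nonneg hσ hξ1 hβ) L ℓ n h (W / h) p hn3
    (fun d => jf ℓ β (p * d + I) ≠
      ξ (p * n + a) * ξ (q * n + b) * (ξ (p * (n + h) + a) * ξ (q * (n + h) + b)))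
    (fun d => ℓ ∣ p * d + I) (count_dvd ℓ p I hℓ hp)
    (fun d hd => viol_one hL hℓ hξ hξ1 hper hβ σ n h I e1 e2 e3 d hd)
  exact this

/-- A colliding pair of crossings gives the product relation. -/
theorem good_two {p q L ℓ a b h I J N M : ℕ} {ξ β : ℕ → ℝ} {σ : ℕ → ℕ → ℝ} {W : ℝ}
    (hp : 1 ≤ p) (hq : 1 ≤ q) (hh : 1 ≤ h)
    (hsz : 2 * p * q * (h + 1) ≤ L) (h4 : 4 * h ≤ L) (hℓ : 1 ≤ ℓ)
    (hξ : ∀ n, ξ (n + L) = ξ n) (hξ1 : ∀ n, PM (ξ n)) (hper : ∀ n, β (n + ℓ) = β n)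
    (hβ : ∀ n, PM (β n)) (hσ : ∀ k l, |σ k l| ≤ 1)
    (hW : W = ∑ m ∈ range (L * ℓ), wf p q L ℓ a b ξ β σ m)
    (hc : Cr p L a I N) (hc' : Cr q L b J M) (hN1 : 2 * h < N) (hN2 : N ≤ L + 2 * h)
    (hNM : N < M + h) (hMN : M < N + h) :
    ∃ τ : ℝ, PM τ ∧ ∑ d ∈ range ℓ, ind (jf ℓ β (p * d + I) * jf ℓ β (q * d + J) ≠ τ) ≤
      W / h + (p + q) + 2 := by
  have hL : 0 < L := by omega
  have hph : p * (2 * h) ≤ L := by
    have : p * (2 * h) ≤ 2 * p * q * (h + 1) := by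
      calc p * (2 * h) = 2 * p * 1 * h := by ring
        _ ≤ 2 * p * q * (h + 1) := by gcongr; omega
    omega
  have hqh : q * (2 * h) ≤ L := by
    have : q * (2 * h) ≤ 2 * p * q * (h + 1) := by
      calc q * (2 * h) = 2 * 1 * q * h := by ring
        _ ≤ 2 * p * q * (h + 1) := by gcongr; omega
    omega
  obtain ⟨n, hn1, hn2, hn3⟩ := window (wf p q L ℓ a b ξ β σ) (wf_nonneg hσ hξ1 hβ) L ℓ
    (min N M - h) h (2 * h) hh (by omega) (by omega)
  rw [← hW] at hn3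
  have e1 : (p * n + a) / L + 1 = I := hc.before (by omega) (by omega) hph
  have e2 : (p * (n + 2 * h) + a) / L = I := hc.after (by omega) (by omega) hph
  have e3 : (q * n + b) / L + 1 = J := hc'.before (by omega) (by omega) hqh
  have e4 : (q * (n + 2 * h) + b) / L = J := hc'.after (by omega) (by omega) hqh
  refine ⟨_, ((hξ1 (p * n + a)).mul (hξ1 (q * n + b))).mul
    ((hξ1 (p * (n + 2 * h) + a)).mul (hξ1 (q * (n + 2 * h) + b))), ?_⟩
  have hA : ∑ d ∈ range ℓ, ind (ℓ ∣ p * d + I ∨ ℓ ∣ q * d + J) ≤ (p + q : ℝ) := by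
    calc _ ≤ ∑ d ∈ range ℓ, (ind (ℓ ∣ p * d + I) + ind (ℓ ∣ q * d + J)) := by
          refine sum_le_sum fun d _ => ?_
          have n1 := ind_nonneg (ℓ ∣ p * d + I)
          have n2 := ind_nonneg (ℓ ∣ q * d + J)
          by_cases hd : ℓ ∣ p * d + I ∨ ℓ ∣ q * d + J
          · rw [ind_true hd]
            rcases hd with hd | hd
            · rw [ind_true hd]; linarith
            · rw [ind_true hd]; linarith
          · rw [ind_false hd]; linarith
      _ = ∑ d ∈ range ℓ, ind (ℓ ∣ p * d + I) + ∑ d ∈ range ℓ, ind (ℓ ∣ q * d + J) :=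
          sum_add_distrib
      _ ≤ p + q := add_le_add (count_dvd ℓ p I hℓ hp) (count_dvd ℓ q J hℓ hq)
  have := count_viol (wf p q L ℓ a b ξ β σ) (wf_nonneg hσ hξ1 hβ) L ℓ n (2 * h) (W / h) (p + q) hn3
    (fun d => jf ℓ β (p * d + I) * jf ℓ β (q * d + J) ≠
      ξ (p * n + a) * ξ (q * n + b) * (ξ (p * (n + 2 * h) + a) * ξ (q * (n + 2 * h) + b)))
    (fun d => ℓ ∣ p * d + I ∨ ℓ ∣ q * d + J) hA
    (fun d hd => viol_two hL hℓ hξ hξ1 hper hβ σ n (2 * h) I J e1 e2 e3 e4 d hd)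
  exact this

/-- From a change of the other quotient to a colliding crossing. -/
theorem coll_cross {q L b N h : ℕ} (hq : 1 ≤ q) (hL : 0 < L) (hh : 1 ≤ h) (hN : h < N)
    (hne : (q * (N - h) + b) / L ≠ (q * (N + h - 1) + b) / L) :
    ∃ J M, Cr q L b J M ∧ N < M + h ∧ M < N + h := by
  have hle : (q * (N - h) + b) / L ≤ (q * (N + h - 1) + b) / L := by
    apply Nat.div_le_div_right
    have : q * (N - h) ≤ q * (N + h - 1) := Nat.mul_le_mul_left _ (by omega)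
    omega
  have hlt : (q * (N - h) + b) / L + 1 ≤ (q * (N + h - 1) + b) / L := by omega
  set J := (q * (N - h) + b) / L + 1 with hJ
  have h1 : q * (N - h) + b < J * L := by
    have := Nat.lt_div_mul_add (a := q * (N - h) + b) (b := L) hL
    rw [hJ]; nlinarith
  have h2 : J * L ≤ q * (N + h - 1) + b := by
    calc J * L ≤ (q * (N + h - 1) + b) / L * L := Nat.mul_le_mul_right _ hlt
      _ ≤ _ := Nat.div_mul_le_self _ _
  obtain ⟨M, hM1, hM2, hM3⟩ := exists_cross q L b J (N - h) hq h1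
  refine ⟨J, M, ⟨by omega, hM2, hM3⟩, by omega, ?_⟩
  by_contra hcon
  push Not at hcon
  have : q * (N + h - 1) ≤ q * (M - 1) := Nat.mul_le_mul_left _ (by omega)
  omega

theorem Good.mono {ℓ : ℕ} {J : ℕ → ℝ} {V V' : ℝ} {r i : ℕ} (h : Good ℓ J V r i) (hV : V ≤ V') :
    Good ℓ J V' r i := by
  obtain ⟨ε, hε, hs⟩ := h
  exact ⟨ε, hε, hs.trans hV⟩

/-- Core of the drop lemma. -/
theorem drop_core {p q L ℓ a b h : ℕ} {ξ β : ℕ → ℝ} {σ : ℕ → ℕ → ℝ} {W : ℝ}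
    (hp : p.Prime) (hq : q.Prime) (hpq : p ≠ q) (hp3 : 3 ≤ p) (hq3 : 3 ≤ q) (hh : 1 ≤ h)
    (hsz : 2 * p * q * (h + 1) ≤ L) (hℓ : 1 ≤ ℓ)
    (hξ : ∀ n, ξ (n + L) = ξ n) (hξ1 : ∀ n, PM (ξ n)) (hper : ∀ n, β (n + ℓ) = β n)
    (hβ : ∀ n, PM (β n)) (hσ : ∀ k l, |σ k l| ≤ 1)
    (hW : W = ∑ m ∈ range (L * ℓ), wf p q L ℓ a b ξ β σ m) :
    ∃ ε : ℝ, PM ε ∧ ∑ n ∈ range ℓ, ind (jf ℓ β n ≠ ε) ≤
      (p + q) ^ 2 * (W / h + (p + q) + 2) := by
  have hp1 : 1 ≤ p := by omega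
  have hq1 : 1 ≤ q := by omega
  have h4 : 4 * h ≤ L := by
    have : 4 * h ≤ 2 * p * q * (h + 1) := by
      calc 4 * h ≤ 2 * 3 * 3 * (h + 1) := by omega
        _ ≤ 2 * p * q * (h + 1) := by gcongr
    omega
  have hL : 0 < L := by omega
  have hW0 : 0 ≤ W := by rw [hW]; exact sum_nonneg fun n _ => wf_nonneg hσ hξ1 hβ n
  have hW' : W = ∑ m ∈ range (L * ℓ), wf q p L ℓ b a ξ β (fun k l => σ l k) m := by
    rw [hW]; exact sum_congr rfl fun m _ => wf_swap _ _ _ _ _ _ _ _ _ _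
  have hσ' : ∀ k l, |(fun k l => σ l k) k l| ≤ 1 := fun k l => hσ l k
  have hsz' : 2 * q * p * (h + 1) ≤ L := by
    rw [show 2 * q * p * (h + 1) = 2 * p * q * (h + 1) by ring]; exact hsz
  have hWh : 0 ≤ W / h := by positivity
  have hpR : (0 : ℝ) ≤ p := Nat.cast_nonneg _
  have hqR : (0 : ℝ) ≤ q := Nat.cast_nonneg _
  set V : ℝ := W / h + (p + q) + 2 with hV
  have hV0 : 0 ≤ V := by positivity
  have hV1 : W / h + p + 2 ≤ V := by rw [hV]; linarith
  have hV2 : W / h + q + 2 ≤ V := by rw [hV]; linarith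
  -- representatives
  have rep1 : ∀ i, ∃ I N, I ≡ i [MOD p] ∧ Cr p L a I N ∧ 2 * h < N ∧ N ≤ L + 2 * h := by
    intro i
    obtain ⟨I, hI1, hI2, hI3⟩ := class_rep p L a (2 * h) i hp1 hL
    obtain ⟨N, hN1, hN2, hN3⟩ := exists_cross p L a I (2 * h) hp1 hI2
    refine ⟨I, N, hI1, ⟨by omega, hN2, hN3⟩, hN1, ?_⟩
    by_contra hcon
    push Not at hcon
    have : p * (L + 2 * h) ≤ p * (N - 1) := Nat.mul_le_mul_left _ (by omega)
    omega
  have rep2 : ∀ j, ∃ J M, J ≡ j [MOD q] ∧ Cr q L b J M ∧ 2 * h < M ∧ M ≤ L + 2 * h := by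
    intro i
    obtain ⟨I, hI1, hI2, hI3⟩ := class_rep q L b (2 * h) i hq1 hL
    obtain ⟨N, hN1, hN2, hN3⟩ := exists_cross q L b I (2 * h) hq1 hI2
    refine ⟨I, N, hI1, ⟨by omega, hN2, hN3⟩, hN1, ?_⟩
    by_contra hcon
    push Not at hcon
    have : q * (L + 2 * h) ≤ q * (N - 1) := Nat.mul_le_mul_left _ (by omega)
    omega
  -- dichotomy for each class
  have dich1 : ∀ i, Good ℓ (jf ℓ β) V p i ∨ ∃ I N J M, I ≡ i [MOD p] ∧ Cr p L a I N ∧
      2 * h < N ∧ N ≤ L + 2 * h ∧ Cr q L b J M ∧ N < M + h ∧ M < N + h := by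
    intro i
    obtain ⟨I, N, hI, hc, hN1, hN2⟩ := rep1 i
    by_cases hnc : (q * (N - h) + b) / L = (q * (N + h - 1) + b) / L
    · left
      exact good_congr (fun n => jf_per hper n) hI
        ((good_one hp1 hq1 hh hsz h4 hℓ hξ hξ1 hper hβ hσ hW hc hN1 hN2 hnc).mono hV1)
    · right
      obtain ⟨J, M, hc', h5, h6⟩ := coll_cross hq1 hL hh (by omega) hnc
      exact ⟨I, N, J, M, hI, hc, hN1, hN2, hc', h5, h6⟩
  have dich2 : ∀ j, Good ℓ (jf ℓ β) V q j ∨ ∃ J M I N, J ≡ j [MOD q] ∧ Cr q L b J M ∧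
      Cr p L a I N ∧ M < N + h ∧ N < M + h := by
    intro i
    obtain ⟨I, N, hI, hc, hN1, hN2⟩ := rep2 i
    by_cases hnc : (p * (N - h) + a) / L = (p * (N + h - 1) + a) / L
    · left
      exact good_congr (fun n => jf_per hper n) hI
        ((good_one hq1 hp1 hh hsz' h4 hℓ hξ hξ1 hper hβ hσ' hW' hc hN1 hN2 hnc).mono hV2)
    · right
      obtain ⟨J, M, hc', h5, h6⟩ := coll_cross hp1 hL hh (by omega) hnc
      exact ⟨I, N, J, M, hI, hc, hc', h5, h6⟩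
  have hJper : ∀ n, jf ℓ β (n + ℓ) = jf ℓ β n := fun n => jf_per hper n
  have hJpm : ∀ n, PM (jf ℓ β n) := fun n => jf_pm hβ n
  by_cases hcoll : ∃ I N J M, Cr p L a I N ∧
      2 * h < N ∧ N ≤ L + 2 * h ∧ Cr q L b J M ∧ N < M + h ∧ M < N + h
  · obtain ⟨I₀, N₀, J₀, M₀, c1, hN1, hN2, c2, hNM, hMN⟩ := hcoll
    refine count_main hp hq hpq hp3 hq3 hJper hJpm hV0 I₀ J₀ ?_ ?_ (Or.inr ?_)
    · intro i hi
      rcases dich1 i with h5 | ⟨I, N, J, M, hI, d1, _, _, d2, h6, h7⟩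
      · exact h5
      · exfalso
        have := modEq_of_near hp hq hpq (near_unique hsz hp1 hq1 d1 d2 (by omega) (by omega)
          c1 c2 (by omega) (by omega))
        exact hi (hI.symm.trans this.1)
    · intro j hj
      rcases dich2 j with h5 | ⟨J, M, I, N, hJ, d2, d1, h6, h7⟩
      · exact h5
      · exfalso
        have := modEq_of_near hp hq hpq (near_unique hsz hp1 hq1 d1 d2 (by omega) (by omega)
          c1 c2 (by omega) (by omega))
        exact hj (hJ.symm.trans this.2)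
    · exact good_two hp1 hq1 hh hsz h4 hℓ hξ hξ1 hper hβ hσ hW c1 c2 hN1 hN2 hNM hMN
  · have all1 : ∀ i, Good ℓ (jf ℓ β) V p i := by
      intro i
      rcases dich1 i with h5 | ⟨I, N, J, M, hI, d1, d3, d4, d2, h6, h7⟩
      · exact h5
      · exact absurd ⟨I, N, J, M, d1, d3, d4, d2, h6, h7⟩ hcoll
    by_cases hcoll2 : ∃ J M I N, Cr q L b J M ∧ Cr p L a I N ∧ M < N + h ∧ N < M + h
    · obtain ⟨J₀, M₀, I₀, N₀, c2, c1, hMN, hNM⟩ := hcoll2
      refine count_main hp hq hpq hp3 hq3 hJper hJpm hV0 0 J₀ (fun i _ => all1 i) ?_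
        (Or.inl (all1 0))
      intro j hj
      rcases dich2 j with h5 | ⟨J, M, I, N, hJ, d2, d1, h6, h7⟩
      · exact h5
      · exfalso
        have := modEq_of_near hp hq hpq (near_unique hsz hp1 hq1 d1 d2 (by omega) (by omega)
          c1 c2 (by omega) (by omega))
        exact hj (hJ.symm.trans this.2)
    · refine count_main hp hq hpq hp3 hq3 hJper hJpm hV0 0 0 (fun i _ => all1 i) ?_
        (Or.inl (all1 0))
      intro j _
      rcases dich2 j with h5 | ⟨J, M, I, N, hJ, d2, d1, h6, h7⟩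
      · exact h5
      · exact absurd ⟨J, M, I, N, d2, d1, h6, h7⟩ hcoll2

/-- number of `κ ∈ [1, ℓ)` with jump sign `s` -/
noncomputable def jc (ℓ : ℕ) (β : ℕ → ℝ) (s : ℝ) : ℕ :=
  open Classical in ((Finset.Ico 1 ℓ).filter (fun n => β n * β (n - 1) = s)).card

theorem jc_le_sum {ℓ : ℕ} {β : ℕ → ℝ} (hℓ : 1 ≤ ℓ) (hper : ∀ n, β (n + ℓ) = β n)
    {s ε : ℝ} (hne : s ≠ ε) :
    (jc ℓ β s : ℝ) ≤ ∑ n ∈ range ℓ, ind (jf ℓ β n ≠ ε) := by
  classical
  unfold jc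
  rw [← Finset.sum_boole]
  have h1 : ∑ n ∈ Finset.Ico 1 ℓ, (if β n * β (n - 1) = s then (1 : ℝ) else 0) ≤
      ∑ n ∈ Finset.Ico 1 ℓ, ind (jf ℓ β n ≠ ε) := by
    refine sum_le_sum fun n hn => ?_
    have hn1 := (Finset.mem_Ico.1 hn).1
    obtain ⟨m, rfl⟩ := Nat.exists_eq_add_of_le hn1
    rw [show 1 + m = m + 1 by ring, jf_succ hℓ hper]
    split_ifs with hs
    · rw [Nat.add_sub_cancel] at hs
      rw [ind_true]
      rw [hs]; exact hne
    · exact ind_nonneg _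
  convert h1.trans ?_
  apply sum_le_sum_of_subset_of_nonneg
  · intro n hn
    rw [mem_range]; exact (Finset.mem_Ico.1 hn).2
  · intro n _ _; exact ind_nonneg _

/-- The drop lemma. -/
theorem drop {p q L ℓ : ℕ} {ξ β : ℕ → ℝ}
    (hp : p.Prime) (hq : q.Prime) (hpq : p ≠ q) (hp3 : 3 ≤ p) (hq3 : 3 ≤ q)
    (hL : 4 * p * q ≤ L) (hℓ : 1 ≤ ℓ)
    (hξ : ∀ n, ξ (n + L) = ξ n) (hξ1 : ∀ n, PM (ξ n)) (hper : ∀ n, β (n + ℓ) = β n)
    (hβ : ∀ n, PM (β n)) (D : ℕ) (hD0 : 2 * (p + q) ^ 2 * (p + q + 2) ≤ D)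
    (hD1 : D ≤ jc ℓ β 1) (hD2 : D ≤ jc ℓ β (-1)) :
    SB p q (fun n => ξ n * β (n / L)) (L * ℓ) (1 - D / (16 * p * q * (p + q) ^ 2 * ℓ)) := by
  -- one-sided bound
  have one : ∀ (a b : ℕ) (σ : ℕ → ℕ → ℝ), (∀ k l, |σ k l| ≤ 1) →
      ∑ m ∈ range (L * ℓ), σ ((p * m + a) / (L * ℓ)) ((q * m + b) / (L * ℓ)) *
        ((ξ (p * m + a) * β ((p * m + a) / L)) * (ξ (q * m + b) * β ((q * m + b) / L))) ≤
      (1 - D / (16 * p * q * (p + q) ^ 2 * ℓ)) * (L * ℓ : ℕ) := by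
    intro a b σ hσ
    set h := L / (4 * p * q) with hh
    have hpq0 : 0 < 4 * p * q := by positivity
    have hh1 : 1 ≤ h := (Nat.one_le_div_iff hpq0).2 hL
    have hmul : h * (4 * p * q) ≤ L := Nat.div_mul_le_self _ _
    have hsz : 2 * p * q * (h + 1) ≤ L := by nlinarith
    set W := ∑ m ∈ range (L * ℓ), wf p q L ℓ a b ξ β σ m with hW
    obtain ⟨ε, hε, hs⟩ := drop_core hp hq hpq hp3 hq3 hh1 hsz hℓ hξ hξ1 hper hβ hσ hW
    have hDle : (D : ℝ) ≤ (p + q) ^ 2 * (W / h + (p + q) + 2) := by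
      rcases hε with rfl | rfl
      · have h1 := jc_le_sum hℓ hper (s := -1) (ε := 1) (by norm_num)
        have h2 : (D : ℝ) ≤ jc ℓ β (-1) := by exact_mod_cast hD2
        linarith
      · have h1 := jc_le_sum hℓ hper (s := 1) (ε := -1) (by norm_num)
        have h2 : (D : ℝ) ≤ jc ℓ β 1 := by exact_mod_cast hD1
        linarith
    have hD0' : 2 * ((p : ℝ) + q) ^ 2 * (p + q + 2) ≤ D := by exact_mod_cast hD0
    have hpR : (3 : ℝ) ≤ p := by exact_mod_cast hp3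
    have hqR : (3 : ℝ) ≤ q := by exact_mod_cast hq3
    have hhR : (1 : ℝ) ≤ h := by exact_mod_cast hh1
    have hℓR : (1 : ℝ) ≤ ℓ := by exact_mod_cast hℓ
    -- W ≥ h D / (2 (p+q)^2)
    have hWlow : (D : ℝ) / 2 ≤ (p + q) ^ 2 * (W / h) := by nlinarith
    have hWlow2 : (D : ℝ) * h ≤ 2 * (p + q) ^ 2 * W := by
      have := mul_le_mul_of_nonneg_right hWlow (by linarith : (0 : ℝ) ≤ 2 * h)
      have e : (p + q : ℝ) ^ 2 * (W / h) * (2 * h) = 2 * (p + q) ^ 2 * W := by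
        field_simp
      rw [e] at this
      linarith
    -- h ≥ L / (8 p q)
    have hhL : (L : ℝ) ≤ 8 * p * q * h := by
      have h1 : L < (h + 1) * (4 * p * q) := by
        have := Nat.lt_div_mul_add (a := L) (b := 4 * p * q) hpq0
        rw [← hh] at this
        nlinarith
      have h2 : (L : ℝ) < (h + 1) * (4 * p * q) := by exact_mod_cast h1
      have h3 : (0 : ℝ) ≤ 4 * p * q := by positivity
      nlinarith
    have hsum : ∑ m ∈ range (L * ℓ), σ ((p * m + a) / (L * ℓ)) ((q * m + b) / (L * ℓ)) *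
        ((ξ (p * m + a) * β ((p * m + a) / L)) * (ξ (q * m + b) * β ((q * m + b) / L))) =
        (L * ℓ : ℕ) - W := by
      rw [hW]
      unfold wf
      rw [sum_sub_distrib]
      simp
    rw [hsum]
    have hD' : (D : ℝ) * L ≤ 16 * p * q * (p + q) ^ 2 * W := by
      have hDn : (0 : ℝ) ≤ D := Nat.cast_nonneg _
      calc (D : ℝ) * L ≤ D * (8 * p * q * h) := mul_le_mul_of_nonneg_left hhL hDn
        _ = 8 * p * q * (D * h) := by ring
        _ ≤ 8 * p * q * (2 * (p + q) ^ 2 * W) := by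
            apply mul_le_mul_of_nonneg_left hWlow2
            positivity
        _ = _ := by ring
    have hfin : (D : ℝ) / (16 * p * q * (p + q) ^ 2 * ℓ) * (L * ℓ : ℕ) ≤ W := by
      push_cast
      rw [div_mul_eq_mul_div, div_le_iff₀ (by positivity)]
      calc (D : ℝ) * (L * ℓ) = (D * L) * ℓ := by ring
        _ ≤ (16 * p * q * (p + q) ^ 2 * W) * ℓ := by
            apply mul_le_mul_of_nonneg_right hD'; linarith
        _ = _ := by ring
    linarith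
  intro a b σ hσ
  rw [abs_le]
  constructor
  · have := one a b (fun k l => -σ k l) (fun k l => by rw [abs_neg]; exact hσ k l)
    have e : ∑ m ∈ range (L * ℓ), (fun k l => -σ k l) ((p * m + a) / (L * ℓ))
        ((q * m + b) / (L * ℓ)) *
        ((ξ (p * m + a) * β ((p * m + a) / L)) * (ξ (q * m + b) * β ((q * m + b) / L))) =
        -∑ m ∈ range (L * ℓ), σ ((p * m + a) / (L * ℓ)) ((q * m + b) / (L * ℓ)) *
        ((ξ (p * m + a) * β ((p * m + a) / L)) * (ξ (q * m + b) * β ((q * m + b) / L))) := by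
      rw [← sum_neg_distrib]
      refine sum_congr rfl fun m _ => ?_
      ring
    rw [e] at this
    linarith
  · exact one a b σ hσ

end Pool.Agent.Helper51.Mo
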