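import Mathlib
import Pool.Agent.Helper51.MoCount
open Filter Topology Finset

/-! Slowly varying blocks: coherence and the recursion for state sums. -/

namespace Pool.Agent.Helper51.Mo

/-- the state sum -/
noncomputable def SS (p q : ℕ) (ζ : ℕ → ℝ) (M : ℕ) (σ : ℕ → ℕ → ℝ) (a b : ℕ) : ℝ :=
  ∑ m ∈ range M, σ ((p * m + a) / M) ((q * m + b) / M) * (ζ (p * m + a) * ζ (q * m + b))

theorem SS_swap (p q : ℕ) (ζ : ℕ → ℝ) (M : ℕ) (σ : ℕ → ℕ → ℝ) (a b : ℕ) :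
    SS p q ζ M σ a b = SS q p ζ M (fun k l => σ l k) b a := by
  unfold SS
  refine sum_congr rfl fun m _ => ?_
  ring

/-- bad (jump or boundary) positions relative to the sign `ε` -/
def bd (ζ : ℕ → ℝ) (M : ℕ) (ε : ℝ) (x : ℕ) : Prop := M ∣ x ∨ ζ x ≠ ε * ζ (x + (M - 1))

theorem bd_per {ζ : ℕ → ℝ} {M : ℕ} (hζ : ∀ n, ζ (n + M) = ζ n) (ε : ℝ) (x : ℕ) :
    ind (bd ζ M ε (x + M)) = ind (bd ζ M ε x) := by
  have : bd ζ M ε (x + M) ↔ bd ζ M ε x := by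
    unfold bd
    rw [Nat.dvd_add_left (dvd_refl M), hζ, show x + M + (M - 1) = x + (M - 1) + M by ring, hζ]
  simp only [this]

theorem SS_step {p q : ℕ} {ζ : ℕ → ℝ} {M : ℕ} (hM : 1 ≤ M) (hζ : ∀ n, ζ (n + M) = ζ n)
    (hζ1 : ∀ n, PM (ζ n)) {ε : ℝ} (hε : PM ε) (σ : ℕ → ℕ → ℝ) (hσ : ∀ k l, |σ k l| ≤ 1)
    (a b : ℕ) :
    |SS p q ζ M σ (a + 1) b - ε * SS p q ζ M σ a b| ≤
      2 * ∑ m ∈ range M, ind (bd ζ M ε (p * m + a + 1)) := by
  unfold SS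
  rw [mul_sum, ← sum_sub_distrib, mul_sum]
  refine (abs_sum_le_sum_abs _ _).trans (sum_le_sum fun m _ => ?_)
  rw [show p * m + (a + 1) = p * m + a + 1 by ring]
  set x := p * m + a with hx
  by_cases hb : bd ζ M ε (x + 1)
  · rw [ind_true hb]
    refine (abs_sub _ _).trans ?_
    simp only [abs_mul, (hζ1 _).abs, hε.abs, mul_one, one_mul]
    have h1 := hσ ((x + 1) / M) ((q * m + b) / M)
    have h2 := hσ (x / M) ((q * m + b) / M)
    linarith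
  · rw [ind_false hb]
    unfold bd at hb
    push Not at hb
    obtain ⟨hb1, hb2⟩ := hb
    rw [Nat.succ_div, if_neg hb1, add_zero, hb2, show x + 1 + (M - 1) = x + M by omega, hζ]
    have : σ (x / M) ((q * m + b) / M) * (ε * ζ x * ζ (q * m + b)) -
        ε * (σ (x / M) ((q * m + b) / M) * (ζ x * ζ (q * m + b))) = 0 := by ring
    rw [this]; simp

theorem SS_coh1 {p q : ℕ} {ζ : ℕ → ℝ} {M : ℕ} (hM : 1 ≤ M) (hζ : ∀ n, ζ (n + M) = ζ n)
    (hζ1 : ∀ n, PM (ζ n)) {ε : ℝ} (hε : PM ε) (σ : ℕ → ℕ → ℝ) (hσ : ∀ k l, |σ k l| ≤ 1)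
    (a b k : ℕ) (hk : k ≤ p) :
    |SS p q ζ M σ (a + k) b - ε ^ k * SS p q ζ M σ a b| ≤
      2 * (p * ∑ x ∈ range M, ind (bd ζ M ε x)) := by
  have h1 : ∀ k, |SS p q ζ M σ (a + k) b - ε ^ k * SS p q ζ M σ a b| ≤
      2 * ∑ t ∈ range k, ∑ m ∈ range M, ind (bd ζ M ε (p * m + t + (a + 1))) := by
    intro k
    induction k with
    | zero => simp
    | succ k ih =>
      rw [sum_range_succ, mul_add]
      have h2 := SS_step hM hζ hζ1 hε σ hσ (p := p) (q := q) (a + k) b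
      have h3 : SS p q ζ M σ (a + (k + 1)) b - ε ^ (k + 1) * SS p q ζ M σ a b =
          (SS p q ζ M σ (a + k + 1) b - ε * SS p q ζ M σ (a + k) b) +
          ε * (SS p q ζ M σ (a + k) b - ε ^ k * SS p q ζ M σ a b) := by
        rw [show a + (k + 1) = a + k + 1 by ring, pow_succ]; ring
      rw [h3]
      refine (abs_add_le _ _).trans ?_
      rw [abs_mul ε, hε.abs, one_mul, add_comm]
      refine add_le_add ih (h2.trans (le_of_eq ?_))
      congr 1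
      refine sum_congr rfl fun m _ => ?_
      rw [show p * m + (a + k) + 1 = p * m + k + (a + 1) by ring]
  refine (h1 k).trans ?_
  have h4 := sum_cover (fun x => ind (bd ζ M ε x)) M (fun n => bd_per hζ ε n) p (a + 1)
  rw [← h4]
  apply mul_le_mul_of_nonneg_left _ (by norm_num)
  apply sum_le_sum_of_subset_of_nonneg
  · exact range_subset_range.2 hk
  · intro i _ _
    exact sum_nonneg fun m _ => ind_nonneg _

theorem SS_coh {p q : ℕ} {ζ : ℕ → ℝ} {M : ℕ} (hM : 1 ≤ M) (hζ : ∀ n, ζ (n + M) = ζ n)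
    (hζ1 : ∀ n, PM (ζ n)) {ε : ℝ} (hε : PM ε) (σ : ℕ → ℕ → ℝ) (hσ : ∀ k l, |σ k l| ≤ 1)
    (a b k l : ℕ) (hk : k ≤ p) (hl : l ≤ q) :
    |SS p q ζ M σ (a + k) (b + l) - ε ^ (k + l) * SS p q ζ M σ a b| ≤
      2 * (p + q) * ∑ x ∈ range M, ind (bd ζ M ε x) := by
  have h1 := SS_coh1 (p := p) (q := q) hM hζ hζ1 hε σ hσ a (b + l) k hk
  have h2 := SS_coh1 (p := q) (q := p) hM hζ hζ1 hε (fun k l => σ l k) (fun k l => hσ l k)
    b a l hl
  rw [← SS_swap p q ζ M σ a (b + l), ← SS_swap p q ζ M σ a b] at h2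
  have h3 : SS p q ζ M σ (a + k) (b + l) - ε ^ (k + l) * SS p q ζ M σ a b =
      (SS p q ζ M σ (a + k) (b + l) - ε ^ k * SS p q ζ M σ a (b + l)) +
      ε ^ k * (SS p q ζ M σ a (b + l) - ε ^ l * SS p q ζ M σ a b) := by
    rw [pow_add]; ring
  rw [h3]
  refine (abs_add_le _ _).trans ?_
  rw [abs_mul (ε ^ k), (hε.pow k).abs, one_mul]
  refine (add_le_add h1 h2).trans (le_of_eq ?_)
  ring

/-- twisted extension of a block -/
noncomputable def tw (β : ℕ → ℝ) (ℓ : ℕ) (ε' : ℝ) (n : ℕ) : ℝ := β n * ε' ^ (n / ℓ)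

/-- Recursion step for a block `β` followed by the word `ζ` with sign `ε'`. -/
theorem SB_slow {p q : ℕ} {β ζ : ℕ → ℝ} {ℓ M : ℕ} {ρ c : ℝ} (hℓ : 1 ≤ ℓ) (hM : 1 ≤ M)
    (hper : ∀ n, β (n + ℓ) = β n) (hβ : ∀ n, PM (β n))
    (hζ : ∀ n, ζ (n + M) = ζ n) (hζ1 : ∀ n, PM (ζ n)) {ε' : ℝ} (hε : PM ε')
    (hc : ∀ a b, |∑ m ∈ range ℓ, tw β ℓ ε' (p * m + a) * tw β ℓ ε' (q * m + b)| ≤ c * ℓ)
    (hSB : SB p q ζ M ρ) :
    SB p q (fun n => β n * ζ (n / ℓ)) (ℓ * M)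
      (c * ρ + 2 * (p + q) * (∑ x ∈ range M, ind (bd ζ M ε' x)) / M) := by
  intro a b σ hσ
  set B := ∑ x ∈ range M, ind (bd ζ M ε' x) with hB
  -- reduction to the block sums
  have hred : ∑ n ∈ range (ℓ * M), σ ((p * n + a) / (ℓ * M)) ((q * n + b) / (ℓ * M)) *
      ((fun n => β n * ζ (n / ℓ)) (p * n + a) * (fun n => β n * ζ (n / ℓ)) (q * n + b)) =
      ∑ m ∈ range ℓ, (β (p * m + a) * β (q * m + b)) *
        SS p q ζ M σ ((p * m + a) / ℓ) ((q * m + b) / ℓ) := by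
    rw [sum_split]
    refine sum_congr rfl fun m _ => ?_
    unfold SS
    rw [mul_sum]
    refine sum_congr rfl fun f _ => ?_
    have e1 : ∀ r c : ℕ, r * (ℓ * f + m) + c = (r * m + c) + ℓ * (r * f) := by
      intro r c; ring
    have e2 : ∀ r c : ℕ, (r * (ℓ * f + m) + c) / ℓ = r * f + (r * m + c) / ℓ := by
      intro r c
      rw [e1, Nat.add_mul_div_left _ _ hℓ, add_comm]
    have e3 : ∀ r c : ℕ, (r * (ℓ * f + m) + c) / (ℓ * M) = (r * f + (r * m + c) / ℓ) / M := by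
      intro r c
      rw [← Nat.div_div_eq_div_mul, e2]
    have e4 : ∀ r c : ℕ, β (r * (ℓ * f + m) + c) = β (r * m + c) := by
      intro r c
      rw [e1, per_mul β ℓ hper]
    simp only
    rw [e3, e3, e2, e2, e4, e4]
    ring
  rw [hred]
  set a₁ := a / ℓ with ha₁
  set a₀ := a % ℓ with ha₀
  set b₁ := b / ℓ with hb₁
  set b₀ := b % ℓ with hb₀
  have haa : a = a₀ + ℓ * a₁ := (Nat.mod_add_div a ℓ).symm
  have hbb : b = b₀ + ℓ * b₁ := (Nat.mod_add_div b ℓ).symm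
  have ha0 : a₀ < ℓ := Nat.mod_lt _ hℓ
  have hb0 : b₀ < ℓ := Nat.mod_lt _ hℓ
  have hoff : ∀ (r m x : ℕ), m < ℓ → x < ℓ → (r * m + x) / ℓ ≤ r := by
    intro r m x hm hx
    have h1 : r * m + x < (r + 1) * ℓ := by
      have : r * m ≤ r * ℓ := Nat.mul_le_mul_left _ hm.le
      nlinarith
    have := (Nat.div_lt_iff_lt_mul (by omega)).2 h1
    omega
  have hterm : ∀ m ∈ range ℓ, |(β (p * m + a) * β (q * m + b)) *
        SS p q ζ M σ ((p * m + a) / ℓ) ((q * m + b) / ℓ) -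
      (tw β ℓ ε' (p * m + a₀) * tw β ℓ ε' (q * m + b₀)) * SS p q ζ M σ a₁ b₁| ≤
      2 * (p + q) * B := by
    intro m hm
    have hm' := mem_range.1 hm
    have e1 : (p * m + a) / ℓ = a₁ + (p * m + a₀) / ℓ := by
      rw [haa, show p * m + (a₀ + ℓ * a₁) = (p * m + a₀) + ℓ * a₁ by ring,
        Nat.add_mul_div_left _ _ hℓ, add_comm]
    have e2 : (q * m + b) / ℓ = b₁ + (q * m + b₀) / ℓ := by
      rw [hbb, show q * m + (b₀ + ℓ * b₁) = (q * m + b₀) + ℓ * b₁ by ring,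
        Nat.add_mul_div_left _ _ hℓ, add_comm]
    have e3 : β (p * m + a) = β (p * m + a₀) := by
      rw [haa, show p * m + (a₀ + ℓ * a₁) = (p * m + a₀) + ℓ * a₁ by ring, per_mul β ℓ hper]
    have e4 : β (q * m + b) = β (q * m + b₀) := by
      rw [hbb, show q * m + (b₀ + ℓ * b₁) = (q * m + b₀) + ℓ * b₁ by ring, per_mul β ℓ hper]
    rw [e1, e2, e3, e4]
    have h5 := SS_coh hM hζ hζ1 hε σ hσ a₁ b₁ ((p * m + a₀) / ℓ) ((q * m + b₀) / ℓ)
      (hoff p m a₀ hm' ha0) (hoff q m b₀ hm' hb0)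
    rw [← hB] at h5
    have h6 : β (p * m + a₀) * β (q * m + b₀) *
        SS p q ζ M σ (a₁ + (p * m + a₀) / ℓ) (b₁ + (q * m + b₀) / ℓ) -
      tw β ℓ ε' (p * m + a₀) * tw β ℓ ε' (q * m + b₀) * SS p q ζ M σ a₁ b₁ =
      (β (p * m + a₀) * β (q * m + b₀)) *
        (SS p q ζ M σ (a₁ + (p * m + a₀) / ℓ) (b₁ + (q * m + b₀) / ℓ) -
          ε' ^ ((p * m + a₀) / ℓ + (q * m + b₀) / ℓ) * SS p q ζ M σ a₁ b₁) := by
      unfold tw
      rw [pow_add]; ring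
    rw [h6, abs_mul, ((hβ _).mul (hβ _)).abs, one_mul]
    exact h5
  have hmain : |∑ m ∈ range ℓ, (β (p * m + a) * β (q * m + b)) *
        SS p q ζ M σ ((p * m + a) / ℓ) ((q * m + b) / ℓ)| ≤
      |(∑ m ∈ range ℓ, tw β ℓ ε' (p * m + a₀) * tw β ℓ ε' (q * m + b₀)) *
        SS p q ζ M σ a₁ b₁| + ℓ * (2 * (p + q) * B) := by
    have e : ∑ m ∈ range ℓ, (β (p * m + a) * β (q * m + b)) *
        SS p q ζ M σ ((p * m + a) / ℓ) ((q * m + b) / ℓ) =
        (∑ m ∈ range ℓ, tw β ℓ ε' (p * m + a₀) * tw β ℓ ε' (q * m + b₀)) *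
          SS p q ζ M σ a₁ b₁ + ∑ m ∈ range ℓ, ((β (p * m + a) * β (q * m + b)) *
        SS p q ζ M σ ((p * m + a) / ℓ) ((q * m + b) / ℓ) -
      (tw β ℓ ε' (p * m + a₀) * tw β ℓ ε' (q * m + b₀)) * SS p q ζ M σ a₁ b₁) := by
      rw [sum_sub_distrib, ← sum_mul]; ring
    rw [e]
    refine (abs_add_le _ _).trans (add_le_add_right ?_ _)
    refine (abs_sum_le_sum_abs _ _).trans ?_
    refine (sum_le_sum hterm).trans (le_of_eq ?_)
    rw [sum_const, card_range, nsmul_eq_mul]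
  refine hmain.trans ?_
  have h7 : |SS p q ζ M σ a₁ b₁| ≤ ρ * M := hSB a₁ b₁ σ hσ
  have h8 := hc a₀ b₀
  rw [abs_mul]
  have hMR : (0 : ℝ) < M := by exact_mod_cast hM
  have hℓR : (0 : ℝ) < ℓ := by exact_mod_cast hℓ
  calc _ ≤ (c * ℓ) * (ρ * M) + ℓ * (2 * (p + q) * B) := by
        refine add_le_add_left (mul_le_mul h8 h7 (abs_nonneg _) ?_) _
        exact (abs_nonneg _).trans h8
    _ = _ := by
        push_cast
        field_simp

/-- the jump count of the word starting with the block `β s` -/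
theorem bd_pw {β : ℕ → ℕ → ℝ} {ℓ : ℕ → ℕ} (hℓ : ∀ i, 1 ≤ ℓ i)
    (hper : ∀ i n, β i (n + ℓ i) = β i n) (s k : ℕ) {ε : ℝ} :
    ∑ x ∈ range (len ℓ s (k + 1)), ind (bd (pw β ℓ s (k + 1)) (len ℓ s (k + 1)) ε x) ≤
      len ℓ (s + 1) k * ∑ x ∈ range (ℓ s), ind (bd (β s) (ℓ s) ε x) := by
  rw [← sum_mul_period (fun x => ind (bd (β s) (ℓ s) ε x)) (ℓ s) (fun n => bd_per (hper s) ε n)
    (len ℓ (s + 1) k) 0]
  rw [len]
  refine sum_le_sum fun x hx => ?_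
  rw [add_zero]
  by_cases hb : bd (β s) (ℓ s) ε x
  · rw [ind_true hb]; exact ind_le_one _
  · rw [ind_false hb, ind_false]
    intro hb'
    apply hb
    unfold bd at hb hb' ⊢
    push Not at hb
    obtain ⟨hb1, hb2⟩ := hb
    have hx0 : x ≠ 0 := by rintro rfl; exact hb1 (dvd_zero _)
    obtain ⟨y, rfl⟩ := Nat.exists_eq_succ_of_ne_zero hx0
    rw [Nat.succ_eq_add_one] at *
    exfalso
    rcases hb' with hb' | hb'
    · exact hb1 ((Dvd.intro _ rfl).trans hb')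
    · apply hb'
      have hlen : 0 < ℓ s * len ℓ (s + 1) k := Nat.mul_pos (hℓ s) (len_pos ℓ hℓ _ _)
      have e1 : pw β ℓ s (k + 1) (y + 1 + (ℓ s * len ℓ (s + 1) k - 1)) = pw β ℓ s (k + 1) y := by
        rw [show y + 1 + (ℓ s * len ℓ (s + 1) k - 1) = y + ℓ s * len ℓ (s + 1) k by omega]
        exact pw_per β ℓ hℓ hper s (k + 1) y
      rw [e1, pw, pw, hb2, Nat.succ_div, if_neg hb1, add_zero,
        show y + 1 + (ℓ s - 1) = y + ℓ s by have := hℓ s; omega, hper]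
      ring

/-- number of jumps of a block relative to `ε` -/
noncomputable def jn (ℓ : ℕ) (β : ℕ → ℝ) (ε : ℝ) : ℕ :=
  open Classical in ((Finset.Ico 1 ℓ).filter (fun n => β n ≠ ε * β (n - 1))).card

theorem sum_bd_le {β : ℕ → ℝ} {ℓ : ℕ} (hℓ : 1 ≤ ℓ) (hper : ∀ n, β (n + ℓ) = β n) (ε : ℝ) :
    ∑ x ∈ range ℓ, ind (bd β ℓ ε x) ≤ (jn ℓ β ε : ℝ) + 1 := by
  classical
  have h1 : range ℓ = insert 0 (Finset.Ico 1 ℓ) := by
    ext x; simp only [mem_range, Finset.mem_insert, Finset.mem_Ico]; omega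
  rw [h1, sum_insert (by simp), add_comm]
  refine add_le_add ?_ (ind_le_one _)
  unfold jn
  rw [← Finset.sum_boole]
  have : ∀ x ∈ Finset.Ico 1 ℓ, ind (bd β ℓ ε x) ≤ (if β x ≠ ε * β (x - 1) then (1 : ℝ) else 0) := by
    intro x hx
    obtain ⟨hx1, hx2⟩ := Finset.mem_Ico.1 hx
    by_cases hb : bd β ℓ ε x
    · rw [ind_true hb]
      unfold bd at hb
      rcases hb with hb | hb
      · have := Nat.le_of_dvd (by omega) hb
        omega
      · rw [show x + (ℓ - 1) = x - 1 + ℓ by omega, hper] at hb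
        rw [if_pos hb]
    · rw [ind_false hb]
      split_ifs <;> norm_num
  convert sum_le_sum this

/-- Iterated recursion. -/
theorem SB_iter {β : ℕ → ℕ → ℝ} {ℓ : ℕ → ℕ} (hℓ : ∀ i, 1 ≤ ℓ i)
    (hper : ∀ i n, β i (n + ℓ i) = β i n) (hβ : ∀ i n, PM (β i n)) (ε : ℕ → ℝ)
    (hε : ∀ i, PM (ε i)) {p q : ℕ} (c E : ℕ → ℝ) (hc0 : ∀ i, 0 ≤ c i) (hc1 : ∀ i, c i ≤ 1)
    (hE0 : ∀ i, 0 ≤ E i)
    (hc : ∀ i a b, |∑ m ∈ range (ℓ i), tw (β i) (ℓ i) (ε (i + 1)) (p * m + a) *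
      tw (β i) (ℓ i) (ε (i + 1)) (q * m + b)| ≤ c i * ℓ i)
    (hE : ∀ i, 2 * (p + q) * ((jn (ℓ i) (β i) (ε i) : ℝ) + 1) / ℓ i ≤ E i) (k s : ℕ) :
    SB p q (pw β ℓ s (k + 1)) (len ℓ s (k + 1))
      (∏ i ∈ range k, c (s + i) + ∑ i ∈ range k, E (s + 1 + i)) := by
  induction k generalizing s with
  | zero =>
    simp only [range_zero, prod_empty, sum_empty, add_zero]
    exact SB.one p q _ _ fun n => (pw_pm β ℓ hβ _ _ _).abs_le
  | succ k ih =>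
    have h1 := ih (s + 1)
    set ρ := ∏ i ∈ range k, c (s + 1 + i) + ∑ i ∈ range k, E (s + 1 + 1 + i) with hρ
    have hρ0 : 0 ≤ ρ := add_nonneg (prod_nonneg fun i _ => hc0 _) (sum_nonneg fun i _ => hE0 _)
    have h2 := SB_slow (hℓ s) (len_pos ℓ hℓ (s + 1) (k + 1)) (hper s) (hβ s)
      (pw_per β ℓ hℓ hper (s + 1) (k + 1)) (pw_pm β ℓ hβ (s + 1) (k + 1)) (hε (s + 1)) (hc s) h1
    have h3 : SB p q (pw β ℓ s (k + 1 + 1)) (len ℓ s (k + 1 + 1)) (c s * ρ + 2 * (p + q) *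
        (∑ x ∈ range (len ℓ (s + 1) (k + 1)),
          ind (bd (pw β ℓ (s + 1) (k + 1)) (len ℓ (s + 1) (k + 1)) (ε (s + 1)) x)) /
        (len ℓ (s + 1) (k + 1))) := h2
    refine h3.mono ?_
    have h4 : 2 * (p + q) * (∑ x ∈ range (len ℓ (s + 1) (k + 1)),
          ind (bd (pw β ℓ (s + 1) (k + 1)) (len ℓ (s + 1) (k + 1)) (ε (s + 1)) x)) /
        (len ℓ (s + 1) (k + 1)) ≤ E (s + 1) := by
      have h5 := bd_pw hℓ hper (s + 1) k (ε := ε (s + 1))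
      have h6 := sum_bd_le (hℓ (s + 1)) (hper (s + 1)) (ε (s + 1))
      have h7 := hE (s + 1)
      have hℓ1 : (0 : ℝ) < ℓ (s + 1) := by exact_mod_cast hℓ (s + 1)
      have hl1 : (0 : ℝ) < len ℓ (s + 1 + 1) k := by exact_mod_cast len_pos ℓ hℓ _ _
      have hpq : (0 : ℝ) ≤ 2 * (p + q) := by positivity
      rw [show len ℓ (s + 1) (k + 1) = ℓ (s + 1) * len ℓ (s + 1 + 1) k by rw [len]] at h5 ⊢
      rw [div_le_iff₀ (by push_cast; positivity)]
      rw [div_le_iff₀ hℓ1] at h7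
      calc _ ≤ 2 * (p + q) * ((len ℓ (s + 1 + 1) k : ℝ) *
              ((jn (ℓ (s + 1)) (β (s + 1)) (ε (s + 1)) : ℝ) + 1)) := by
            apply mul_le_mul_of_nonneg_left _ hpq
            exact h5.trans (mul_le_mul_of_nonneg_left h6 hl1.le)
        _ = (2 * (p + q) * ((jn (ℓ (s + 1)) (β (s + 1)) (ε (s + 1)) : ℝ) + 1)) *
              len ℓ (s + 1 + 1) k := by ring
        _ ≤ (E (s + 1) * ℓ (s + 1)) * len ℓ (s + 1 + 1) k :=
            mul_le_mul_of_nonneg_right h7 hl1.le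
        _ = _ := by push_cast; ring
    have h8 : c s * ρ ≤ ∏ i ∈ range (k + 1), c (s + i) + ∑ i ∈ range k, E (s + 1 + 1 + i) := by
      rw [hρ, mul_add, prod_range_succ']
      have e1 : ∏ i ∈ range k, c (s + 1 + i) = ∏ i ∈ range k, c (s + (i + 1)) :=
        prod_congr rfl fun i _ => by rw [show s + 1 + i = s + (i + 1) by ring]
      rw [e1, add_zero, mul_comm (∏ i ∈ range k, c (s + (i + 1)))]
      refine add_le_add_right ?_ _
      have h9 : 0 ≤ ∑ i ∈ range k, E (s + 1 + 1 + i) := sum_nonneg fun i _ => hE0 _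
      calc _ ≤ 1 * ∑ i ∈ range k, E (s + 1 + 1 + i) := mul_le_mul_of_nonneg_right (hc1 s) h9
        _ = _ := one_mul _
    have h10 : ∑ i ∈ range (k + 1), E (s + 1 + i) =
        ∑ i ∈ range k, E (s + 1 + 1 + i) + E (s + 1) := by
      rw [sum_range_succ', add_zero]
      congr 1
      exact sum_congr rfl fun i _ => by rw [show s + 1 + (i + 1) = s + 1 + 1 + i by ring]
    rw [h10]
    linarith

/-- products of factors with divergent deficits tend to zero -/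
theorem prod_small (c : ℕ → ℝ) (hc0 : ∀ i, 0 ≤ c i) (hc1 : ∀ i, c i ≤ 1)
    (hdiv : ¬ Summable fun i => 1 - c i) (s : ℕ) {δ : ℝ} (hδ : 0 < δ) :
    ∃ k, ∏ i ∈ range k, c (s + i) < δ := by
  have h1 : ¬ Summable fun i => 1 - c (i + s) := by
    rw [summable_nat_add_iff (f := fun i => 1 - c i) s]; exact hdiv
  have h2 := (not_summable_iff_tendsto_nat_atTop_of_nonneg
    (fun i => by have := hc1 (i + s); linarith)).1 h1
  have h3 := (tendsto_atTop.1 h2 (-Real.log δ + 1)).exists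
  obtain ⟨k, hk⟩ := h3
  refine ⟨k, ?_⟩
  have h4 : ∏ i ∈ range k, c (s + i) ≤ Real.exp (-∑ i ∈ range k, (1 - c (i + s))) := by
    rw [← sum_neg_distrib, Real.exp_sum]
    refine prod_le_prod (fun i _ => hc0 _) fun i _ => ?_
    have := Real.add_one_le_exp (-(1 - c (i + s)))
    rw [add_comm s i]
    linarith
  refine h4.trans_lt ?_
  have h5 : -∑ i ∈ range k, (1 - c (i + s)) < Real.log δ := by linarith
  calc _ < Real.exp (Real.log δ) := Real.exp_lt_exp.2 h5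
    _ = δ := Real.exp_log hδ

end Pool.Agent.Helper51.Mo
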