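import Mathlib
import Pool.Agent.Helper51.MoDrop2
import Pool.Agent.Helper51.MoSlow
open Filter Topology Finset

/-! Mixing from divergence of the defect series. -/

namespace Pool.Agent.Helper51.Mo

theorem jc_eq_sum (ℓ : ℕ) (β : ℕ → ℝ) (s : ℝ) :
    (jc ℓ β s : ℝ) = ∑ n ∈ Finset.Ico 1 ℓ, ind (β n * β (n - 1) = s) := by
  classical
  unfold jc
  rw [← Finset.sum_boole]
  unfold ind
  refine sum_congr ?_ fun n _ => ?_
  · rfl
  · congr

theorem jc_mul {B ζ : ℕ → ℝ} {ℓ M : ℕ} (hℓ : 1 ≤ ℓ) (hB : ∀ n, B (n + ℓ) = B n)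
    (hζ : ∀ n, PM (ζ n)) (s : ℝ) :
    M * jc ℓ B s ≤ jc (ℓ * M) (fun n => B n * ζ (n / ℓ)) s := by
  have key : (M : ℝ) * jc ℓ B s ≤ jc (ℓ * M) (fun n => B n * ζ (n / ℓ)) s := by
    rw [jc_eq_sum, jc_eq_sum]
    rcases Nat.eq_zero_or_pos M with hM | hM
    · rw [hM]; simp
    have h1 : ∑ n ∈ Finset.Ico 1 (ℓ * M),
        ind ((fun n => B n * ζ (n / ℓ)) n * (fun n => B n * ζ (n / ℓ)) (n - 1) = s) ≥
        ∑ n ∈ range (ℓ * M), (if n % ℓ = 0 then 0 else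
          ind (B (n % ℓ) * B (n % ℓ - 1) = s)) := by
      have hsub : Finset.Ico 1 (ℓ * M) ⊆ range (ℓ * M) := by
        intro n hn; rw [mem_range]; exact (Finset.mem_Ico.1 hn).2
      rw [ge_iff_le, ← sum_sdiff hsub]
      have hz : ∑ x ∈ range (ℓ * M) \ Finset.Ico 1 (ℓ * M),
          (if x % ℓ = 0 then (0 : ℝ) else ind (B (x % ℓ) * B (x % ℓ - 1) = s)) = 0 := by
        refine sum_eq_zero fun x hx => ?_
        rw [Finset.mem_sdiff, mem_range, Finset.mem_Ico] at hx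
        have : x = 0 := by omega
        rw [this]; simp
      rw [hz, zero_add]
      refine sum_le_sum fun n hn => ?_
      obtain ⟨hn1, hn2⟩ := Finset.mem_Ico.1 hn
      split_ifs with h0
      · exact ind_nonneg _
      · apply le_of_eq
        have e1 : n / ℓ = (n - 1) / ℓ := by
          obtain ⟨m, rfl⟩ := Nat.exists_eq_add_of_le hn1
          rw [show 1 + m = m + 1 by ring, Nat.succ_div, Nat.add_sub_cancel]
          rw [if_neg, add_zero]
          intro hd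
          exact h0 (by rw [show 1 + m = m + 1 by ring]; exact Nat.mod_eq_zero_of_dvd hd)
        have e2 : B n = B (n % ℓ) := by
          conv_lhs => rw [← Nat.mod_add_div n ℓ]
          rw [per_mul B ℓ hB]
        have e3 : B (n - 1) = B (n % ℓ - 1) := by
          have : n - 1 = (n % ℓ - 1) + ℓ * (n / ℓ) := by
            have := Nat.mod_add_div n ℓ
            omega
          rw [this, per_mul B ℓ hB]
        simp only
        rw [← e1, e2, e3]
        have hz1 := (hζ (n / ℓ)).sq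
        have : B (n % ℓ) * ζ (n / ℓ) * (B (n % ℓ - 1) * ζ (n / ℓ)) =
            B (n % ℓ) * B (n % ℓ - 1) := by
          calc _ = B (n % ℓ) * B (n % ℓ - 1) * (ζ (n / ℓ) * ζ (n / ℓ)) := by ring
            _ = _ := by rw [hz1, mul_one]
        rw [this]
    refine le_trans (le_of_eq ?_) h1
    rw [sum_split]
    have h2 : ∀ m ∈ range ℓ, ∑ f ∈ range M, (if (ℓ * f + m) % ℓ = 0 then (0 : ℝ) else
          ind (B ((ℓ * f + m) % ℓ) * B ((ℓ * f + m) % ℓ - 1) = s)) =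
        M * (if m = 0 then 0 else ind (B m * B (m - 1) = s)) := by
      intro m hm
      have hm' : (∀ f : ℕ, (ℓ * f + m) % ℓ = m) := by
        intro f
        rw [Nat.mul_add_mod, Nat.mod_eq_of_lt (mem_range.1 hm)]
      simp only [hm']
      rw [sum_const, card_range, nsmul_eq_mul]
    rw [sum_congr rfl h2, ← mul_sum]
    congr 1
    have h3 : range ℓ = insert 0 (Finset.Ico 1 ℓ) := by
      ext x; simp only [mem_range, Finset.mem_insert, Finset.mem_Ico]; omega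
    rw [h3, sum_insert (by simp)]
    simp only [if_true, zero_add]
    refine sum_congr rfl fun x hx => ?_
    have := (Finset.mem_Ico.1 hx).1
    rw [if_neg (by omega)]
  exact_mod_cast key

theorem jc_lt {ℓ : ℕ} (hℓ : 1 ≤ ℓ) (β : ℕ → ℝ) (s : ℝ) : jc ℓ β s ≤ ℓ := by
  classical
  unfold jc
  refine (card_filter_le _ _).trans ?_
  simp

/-- defect of a word -/
noncomputable def dm (ℓ : ℕ) (β : ℕ → ℝ) : ℕ := min (jc ℓ β 1) (jc ℓ β (-1))

/-- normalized defect of the product of the blocks `s, s+1` -/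
noncomputable def dd (β : ℕ → ℕ → ℝ) (ℓ : ℕ → ℕ) (s : ℕ) : ℝ :=
  (dm (len ℓ s 2) (pw β ℓ s 2) : ℝ) / len ℓ s 2

theorem dd_nonneg (β : ℕ → ℕ → ℝ) (ℓ : ℕ → ℕ) (s : ℕ) : 0 ≤ dd β ℓ s := by
  unfold dd; positivity

theorem dd_le_one {β : ℕ → ℕ → ℝ} {ℓ : ℕ → ℕ} (hℓ : ∀ i, 1 ≤ ℓ i) (s : ℕ) : dd β ℓ s ≤ 1 := by
  unfold dd
  have h1 : (0 : ℝ) < len ℓ s 2 := by exact_mod_cast len_pos ℓ hℓ s 2
  rw [div_le_one h1]
  have : dm (len ℓ s 2) (pw β ℓ s 2) ≤ len ℓ s 2 :=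
    (min_le_left _ _).trans (jc_lt (len_pos ℓ hℓ s 2) _ _)
  exact_mod_cast this

/-- One window. -/
theorem SB_window {β : ℕ → ℕ → ℝ} {ℓ : ℕ → ℕ} (hℓ : ∀ i, 2 ≤ ℓ i)
    (hper : ∀ i n, β i (n + ℓ i) = β i n) (hβ : ∀ i n, PM (β i n)) {p q : ℕ}
    (hp : p.Prime) (hq : q.Prime) (hpq : p ≠ q) (hp3 : 3 ≤ p) (hq3 : 3 ≤ q) (r t : ℕ)
    (hr : 4 * p * q ≤ 2 ^ r) (ht : 2 * (p + q) ^ 2 * (p + q + 2) ≤ 2 ^ t) (j : ℕ) :
    SB p q (pw β ℓ j (r + (2 + t))) (len ℓ j (r + (2 + t)))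
      (1 - dd β ℓ (j + r) / (16 * p * q * (p + q) ^ 2)) := by
  have hℓ1 : ∀ i, 1 ≤ ℓ i := fun i => by have := hℓ i; omega
  rcases Nat.eq_zero_or_pos (dm (len ℓ (j + r) 2) (pw β ℓ (j + r) 2)) with h0 | h0
  · have : dd β ℓ (j + r) = 0 := by unfold dd; rw [h0]; simp
    rw [this, zero_div, sub_zero]
    exact SB.one p q _ _ fun n => (pw_pm β ℓ hβ _ _ _).abs_le
  · set D := len ℓ (j + r + 2) t * dm (len ℓ (j + r) 2) (pw β ℓ (j + r) 2) with hD
    have hlt : 2 ^ t ≤ len ℓ (j + r + 2) t := two_pow_le_len ℓ hℓ _ _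
    have hD0 : 2 * (p + q) ^ 2 * (p + q + 2) ≤ D := by
      refine ht.trans (hlt.trans ?_)
      rw [hD]
      exact Nat.le_mul_of_pos_right _ h0
    have hsp : ∀ s, D ≤ jc (len ℓ (j + r) (2 + t)) (pw β ℓ (j + r) (2 + t)) s ∨
        ¬ (s = 1 ∨ s = -1) := by
      intro s
      by_cases hs : s = 1 ∨ s = -1
      · left
        have h1 := jc_mul (M := len ℓ (j + r + 2) t) (ζ := pw β ℓ (j + r + 2) t)
          (len_pos ℓ hℓ1 (j + r) 2) (pw_per β ℓ hℓ1 hper (j + r) 2)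
          (pw_pm β ℓ hβ (j + r + 2) t) s
        have e1 : (fun n => pw β ℓ (j + r) 2 n * pw β ℓ (j + r + 2) t (n / len ℓ (j + r) 2)) =
            pw β ℓ (j + r) (2 + t) := by
          funext n; rw [pw_add]
        rw [e1, ← len_add] at h1
        refine le_trans ?_ h1
        rw [hD]
        apply Nat.mul_le_mul_left
        unfold dm
        rcases hs with rfl | rfl
        · exact min_le_left _ _
        · exact min_le_right _ _
      · exact Or.inr hs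
    have hD1 : D ≤ jc (len ℓ (j + r) (2 + t)) (pw β ℓ (j + r) (2 + t)) 1 := by
      rcases hsp 1 with h | h
      · exact h
      · exact absurd (Or.inl rfl) h
    have hD2 : D ≤ jc (len ℓ (j + r) (2 + t)) (pw β ℓ (j + r) (2 + t)) (-1) := by
      rcases hsp (-1) with h | h
      · exact h
      · exact absurd (Or.inr rfl) h
    have hL : 4 * p * q ≤ len ℓ j r := hr.trans (two_pow_le_len ℓ hℓ _ _)
    have := drop hp hq hpq hp3 hq3 hL (len_pos ℓ hℓ1 (j + r) (2 + t))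
      (pw_per β ℓ hℓ1 hper j r) (pw_pm β ℓ hβ j r) (pw_per β ℓ hℓ1 hper (j + r) (2 + t))
      (pw_pm β ℓ hβ (j + r) (2 + t)) D hD0 hD1 hD2
    rw [len_add ℓ j r]
    have e2 : pw β ℓ j (r + (2 + t)) =
        fun n => pw β ℓ j r n * pw β ℓ (j + r) (2 + t) (n / len ℓ j r) := by
      funext n; rw [pw_add]
    rw [e2]
    refine this.mono (le_of_eq ?_)
    congr 1
    rw [len_add ℓ (j + r) 2 t, hD]
    unfold dd
    have h1 : (0 : ℝ) < len ℓ (j + r) 2 := by exact_mod_cast len_pos ℓ hℓ1 _ _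
    have h2 : (0 : ℝ) < len ℓ (j + r + 2) t := by exact_mod_cast len_pos ℓ hℓ1 _ _
    have h3 : (0 : ℝ) < p := by exact_mod_cast hp.pos
    have h4 : (0 : ℝ) < q := by exact_mod_cast hq.pos
    push_cast
    field_simp

/-- Consecutive windows. -/
theorem SB_windows {β : ℕ → ℕ → ℝ} {ℓ : ℕ → ℕ} (hℓ : ∀ i, 1 ≤ ℓ i)
    (hper : ∀ i n, β i (n + ℓ i) = β i n) (hβ : ∀ i n, PM (β i n)) {p q : ℕ} (n : ℕ)
    (c : ℕ → ℝ) (hc : ∀ j, 0 ≤ c j)
    (h : ∀ j, SB p q (pw β ℓ j n) (len ℓ j n) (c j)) (j₀ K : ℕ) :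
    SB p q (pw β ℓ j₀ (n * K)) (len ℓ j₀ (n * K)) (∏ k ∈ range K, c (j₀ + n * k)) := by
  induction K with
  | zero =>
    simp only [mul_zero, range_zero, prod_empty]
    exact SB.one p q _ _ fun n => (pw_pm β ℓ hβ _ _ _).abs_le
  | succ K ih =>
    rw [Nat.mul_succ, prod_range_succ, len_add]
    have e2 : pw β ℓ j₀ (n * K + n) =
        fun m => pw β ℓ j₀ (n * K) m * pw β ℓ (j₀ + n * K) n (m / len ℓ j₀ (n * K)) := by
      funext m; rw [pw_add]
    rw [e2]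
    exact SB.mul (len_pos ℓ hℓ _ _) (pw_per β ℓ hℓ hper _ _) (hc _) ih (h _)

theorem summable_of_classes (f : ℕ → ℝ) (hf : ∀ n, 0 ≤ f n) (n : ℕ) (hn : 1 ≤ n)
    (h : ∀ ρ < n, Summable fun k => f (n * k + ρ)) : Summable f := by
  refine summable_of_sum_range_le (c := ∑ ρ ∈ range n, ∑' k, f (n * k + ρ)) hf fun N => ?_
  calc ∑ i ∈ range N, f i ≤ ∑ i ∈ range (n * N), f i := by
        apply sum_le_sum_of_subset_of_nonneg
        · exact range_subset_range.2 (Nat.le_mul_of_pos_left _ hn)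
        · intro i _ _; exact hf i
    _ = ∑ m ∈ range n, ∑ k ∈ range N, f (n * k + m) := sum_split n N f
    _ ≤ _ := by
        refine sum_le_sum fun ρ hρ => ?_
        exact (h ρ (mem_range.1 hρ)).sum_le_tsum _ fun k _ => hf _

/-- Adding blocks in front does not increase the state sums. -/
theorem SB_front {β : ℕ → ℕ → ℝ} {ℓ : ℕ → ℕ} (hℓ : ∀ i, 1 ≤ ℓ i)
    (hper : ∀ i n, β i (n + ℓ i) = β i n) (hβ : ∀ i n, PM (β i n)) {p q : ℕ} (j m k : ℕ)
    {ρ : ℝ} (hρ : 0 ≤ ρ) (h : SB p q (pw β ℓ (j + m) k) (len ℓ (j + m) k) ρ) :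
    SB p q (pw β ℓ j (m + k)) (len ℓ j (m + k)) ρ := by
  rw [len_add]
  have e2 : pw β ℓ j (m + k) =
      fun x => pw β ℓ j m x * pw β ℓ (j + m) k (x / len ℓ j m) := by
    funext x; rw [pw_add]
  rw [e2]
  have := SB.mul (len_pos ℓ hℓ j m) (pw_per β ℓ hℓ hper j m) hρ
    (SB.one p q (pw β ℓ j m) (len ℓ j m) fun n => (pw_pm β ℓ hβ _ _ _).abs_le) h
  rwa [one_mul] at this

theorem mixA {β : ℕ → ℕ → ℝ} {ℓ : ℕ → ℕ} (hℓ : ∀ i, 2 ≤ ℓ i)
    (hper : ∀ i n, β i (n + ℓ i) = β i n) (hβ : ∀ i n, PM (β i n))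
    (hdiv : ¬ Summable (dd β ℓ)) : Mix β ℓ := by
  have hℓ1 : ∀ i, 1 ≤ ℓ i := fun i => by have := hℓ i; omega
  refine ⟨2, fun p q hp hq hKp hKq hpq j δ hδ => ?_⟩
  have hp3 : 3 ≤ p := hKp
  have hq3 : 3 ≤ q := hKq
  obtain ⟨r, hr⟩ : ∃ r, 4 * p * q ≤ 2 ^ r := ⟨4 * p * q, Nat.lt_two_pow_self.le⟩
  obtain ⟨t, ht⟩ : ∃ t, 2 * (p + q) ^ 2 * (p + q + 2) ≤ 2 ^ t := ⟨_, Nat.lt_two_pow_self.le⟩
  set n := r + (2 + t) with hn
  have hn1 : 1 ≤ n := by omega
  set C : ℝ := 16 * p * q * (p + q) ^ 2 with hC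
  have hpR : (3 : ℝ) ≤ p := by exact_mod_cast hp3
  have hqR : (3 : ℝ) ≤ q := by exact_mod_cast hq3
  have hC1 : 1 ≤ C := by
    rw [hC]
    have h1 : (1 : ℝ) ≤ 16 * p * q := by nlinarith
    have h2 : (1 : ℝ) ≤ (p + q) ^ 2 := by nlinarith
    nlinarith
  set c : ℕ → ℝ := fun s => 1 - dd β ℓ (s + r) / C with hc
  have hc0 : ∀ s, 0 ≤ c s := by
    intro s
    have h1 := dd_le_one (β := β) hℓ1 (s + r)
    have h2 : dd β ℓ (s + r) / C ≤ 1 := (div_le_one (by linarith)).2 (h1.trans hC1)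
    rw [hc]; simp only; linarith
  have hc1 : ∀ s, c s ≤ 1 := by
    intro s
    have h1 := dd_nonneg β ℓ (s + r)
    have h2 : 0 ≤ dd β ℓ (s + r) / C := div_nonneg h1 (by linarith)
    rw [hc]; simp only; linarith
  have hwin : ∀ s, SB p q (pw β ℓ s n) (len ℓ s n) (c s) := fun s =>
    SB_window hℓ hper hβ hp hq hpq hp3 hq3 r t hr ht s
  -- a divergent residue class
  obtain ⟨ρ, hρ, hdivρ⟩ : ∃ ρ < n, ¬ Summable fun k => dd β ℓ (n * k + ρ) := by
    by_contra hcon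
    push Not at hcon
    exact hdiv (summable_of_classes _ (dd_nonneg β ℓ) n hn1 hcon)
  -- choose the starting point: j₀ + r = n * k₀ + ρ, j₀ ≥ j
  set k₀ := j + r with hk₀
  set j₀ := n * k₀ + ρ - r with hj₀
  have hge : j + r ≤ n * k₀ + ρ := by
    have : k₀ ≤ n * k₀ := Nat.le_mul_of_pos_left _ hn1
    omega
  have hj0r : j₀ + r = n * k₀ + ρ := by omega
  have hjj : j ≤ j₀ := by omega
  have hprod := prod_small (fun k => c (n * k + ρ - r + 0) ⊓ 1 ⊔ 0)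
    (fun i => le_max_right _ _) (fun i => max_le (min_le_right _ _) zero_le_one) ?_ k₀ hδ
  swap
  · -- divergence of the deficits
    intro hs
    have hs2 := (summable_nat_add_iff (f := fun k => 1 - (c (n * k + ρ - r + 0) ⊓ 1 ⊔ 0)) r).2 hs
    apply hdivρ
    rw [← summable_nat_add_iff r]
    refine (hs2.mul_left C).congr fun k => ?_
    have hk : r ≤ n * (k + r) + ρ := by
      have : k + r ≤ n * (k + r) := Nat.le_mul_of_pos_left _ hn1
      omega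
    have e1 : n * (k + r) + ρ - r + 0 + r = n * (k + r) + ρ := by omega
    rw [min_eq_left (hc1 _), max_eq_left (hc0 _), hc]
    simp only
    rw [e1]
    field_simp
    ring
  obtain ⟨K, hK⟩ := hprod
  have hall := SB_windows hℓ1 hper hβ n c hc0 hwin j₀ K
  have hprodeq : ∏ k ∈ range K, c (j₀ + n * k) =
      ∏ k ∈ range K, (c (n * (k₀ + k) + ρ - r + 0) ⊓ 1 ⊔ 0) := by
    refine prod_congr rfl fun k _ => ?_
    rw [min_eq_left (hc1 _), max_eq_left (hc0 _)]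
    congr 1
    rw [Nat.mul_add]
    omega
  rw [hprodeq] at hall
  have hfin := hall.mono hK.le
  have hsplit : j₀ = j + (j₀ - j) := by omega
  rw [hsplit] at hfin
  exact ⟨(j₀ - j) + n * K, SB_front hℓ1 hper hβ j (j₀ - j) (n * K) hδ.le hfin⟩

end Pool.Agent.Helper51.Mo
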