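import Mathlib
import Pool.Agent.Helper51.MoMixA
import Pool.Agent.Helper51.MoM4b
import Pool.Agent.Helper51.MoM5
open Filter Topology Finset

/-! The slowly varying regime, in terms of distances to geometric patterns. -/

namespace Pool.Agent.Helper51.Mo

/-- distance (number of positions) to the sign pattern `s ε^n` -/
noncomputable def ds (ℓ : ℕ) (β : ℕ → ℝ) (ε s : ℝ) : ℕ :=
  open Classical in ((range ℓ).filter (fun n => β n * ε ^ n ≠ s)).card

theorem ds_le (ℓ : ℕ) (β : ℕ → ℝ) (ε s : ℝ) : ds ℓ β ε s ≤ ℓ := by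
  classical
  unfold ds
  refine (card_filter_le _ _).trans ?_
  simp

/-- distance to a geometric pattern of sign `ε` -/
noncomputable def dg (ℓ : ℕ) (β : ℕ → ℝ) (ε : ℝ) : ℕ := min (ds ℓ β ε 1) (ds ℓ β ε (-1))

theorem dg_le_ds (ℓ : ℕ) (β : ℕ → ℝ) (ε : ℝ) {s : ℝ} (hs : PM s) : dg ℓ β ε ≤ ds ℓ β ε s := by
  unfold dg
  rcases hs with rfl | rfl
  · exact min_le_left _ _
  · exact min_le_right _ _

theorem dg_le (ℓ : ℕ) (β : ℕ → ℝ) (ε : ℝ) : dg ℓ β ε ≤ ℓ :=
  (dg_le_ds ℓ β ε pm_one).trans (ds_le _ _ _ _)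

theorem PM.pow_even {u : ℝ} (hu : PM u) {n : ℕ} (hn : Even n) : u ^ n = 1 := by
  rcases hu with rfl | rfl
  · exact one_pow n
  · exact hn.neg_one_pow

/-- sum of products of signs in terms of disagreements -/
theorem sum_signs (L : ℕ) (u v : ℕ → ℝ) (hu : ∀ n, PM (u n)) (hv : ∀ n, PM (v n)) {s : ℝ}
    (hs : PM s) : s * ∑ m ∈ range L, u m * v m =
      L - 2 * (open Classical in ((range L).filter (fun m => u m ≠ s * v m)).card : ℝ) := by
  classical
  rw [← Finset.sum_boole, mul_sum, mul_sum]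
  have : (L : ℝ) = ∑ m ∈ range L, (1 : ℝ) := by simp
  rw [this, ← sum_sub_distrib]
  refine sum_congr rfl fun m _ => ?_
  split_ifs with h
  · have := pm_eq_or (hu m) (hs.mul (hv m)) h
    rw [this]
    have h1 := hs.sq
    have h2 := (hv m).sq
    calc _ = -((s * s) * (v m * v m)) := by ring
      _ = _ := by rw [h1, h2]; norm_num
  · push Not at h
    rw [h]
    have h1 := hs.sq
    have h2 := (hv m).sq
    calc _ = ((s * s) * (v m * v m)) := by ring
      _ = _ := by rw [h1, h2]; norm_num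

/-- the logarithmic loss -/
def lg (D : ℕ) : ℕ := Nat.clog 2 (16 * (D + 1))

theorem lg_pos (D : ℕ) : 1 ≤ lg D := Nat.clog_pos (by norm_num) (by omega)

theorem lg_spec (D : ℕ) {q : ℕ} (hq : 2 ≤ q) : 16 * (D + 1) ≤ q ^ lg D :=
  (Nat.le_pow_clog (by norm_num) _).trans (Nat.pow_le_pow_left hq _)

theorem lg_mono {D D' : ℕ} (h : D ≤ D') : lg D ≤ lg D' :=
  Nat.clog_mono_right _ (by omega)

/-- The block bound from `slow_lower2`. -/
theorem block_bound2 {p q : ℕ} (hp : p.Prime) (hq : q.Prime) (hpq : p ≠ q) (hp2 : 2 < p)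
    (hq2 : 2 < q) (ℓ : ℕ) (β : ℕ → ℝ) (ε ε' : ℝ) (hℓ : 1 ≤ ℓ) (hper : ∀ n, β (n + ℓ) = β n)
    (hβ : ∀ n, PM (β n)) (hε : PM ε) (hε' : PM ε') (g : ℝ)
    (hg1 : ε' = ε ^ ℓ → g ≤ (dg ℓ β ε : ℝ) / ℓ) (hg2 : ε' ≠ ε ^ ℓ → g ≤ 1) (a b : ℕ) :
    |∑ m ∈ range ℓ, tw β ℓ ε' (p * m + a) * tw β ℓ ε' (q * m + b)| ≤
        (1 - g / (3 * lg (jn ℓ β ε)) + 2 * ((p + q) * (jn ℓ β ε + 1)) / ℓ) * ℓ := by
  classical
  set D := jn ℓ β ε with hD
  set n := lg D with hn
  have hn1 : (1 : ℝ) ≤ n := by exact_mod_cast lg_pos D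
  set θ : ℕ → ℝ := fun n => tw β ℓ ε' n * ε ^ n with hθ
  have hθpm : ∀ n, PM (θ n) := fun n => ((hβ n).mul (hε'.pow _)).mul (hε.pow n)
  set τ : ℝ := ε ^ ℓ * ε' with hτ
  have hτpm : PM τ := (hε.pow ℓ).mul hε'
  have hθper : ∀ n, θ (n + ℓ) = τ * θ n := by
    intro n
    rw [hθ, hτ]
    simp only [tw]
    rw [hper, Nat.add_div_right _ hℓ, pow_add ε n ℓ, pow_succ]
    ring
  have hεsq := hε.sq
  have hjump : ((Finset.Ico 1 ℓ).filter (fun n => θ n ≠ θ (n - 1))).card ≤ D := by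
    refine le_of_eq ?_
    rw [hD]
    unfold jn
    congr 1
    refine filter_congr fun n hn => ?_
    obtain ⟨hn1, hn2⟩ := Finset.mem_Ico.1 hn
    obtain ⟨m, rfl⟩ := Nat.exists_eq_add_of_le hn1
    rw [show 1 + m = m + 1 by ring] at *
    rw [Nat.add_sub_cancel, hθ]
    simp only [tw]
    rw [Nat.div_eq_of_lt hn2, Nat.div_eq_of_lt (by omega : m < ℓ), pow_zero, mul_one, mul_one]
    have e : β (m + 1) * ε ^ (m + 1) = β m * ε ^ m ↔ β (m + 1) = ε * β m := by
      have hpow := (hε.pow m).sq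
      constructor
      · intro h
        have h1 : β (m + 1) * ε ^ (m + 1) * (ε * ε ^ m) = β m * ε ^ m * (ε * ε ^ m) := by rw [h]
        have h2 : β (m + 1) * ε ^ (m + 1) * (ε * ε ^ m) = β (m + 1) := by
          rw [pow_succ]
          calc _ = β (m + 1) * ((ε ^ m * ε ^ m) * (ε * ε)) := by ring
            _ = _ := by rw [hpow, hεsq]; ring
        have h3 : β m * ε ^ m * (ε * ε ^ m) = ε * β m := by
          calc _ = ε * β m * (ε ^ m * ε ^ m) := by ring
            _ = _ := by rw [hpow]; ring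
        rw [h2, h3] at h1
        exact h1
      · intro h
        rw [h, pow_succ]
        calc _ = β m * ε ^ m * (ε * ε) := by ring
          _ = _ := by rw [hεsq, mul_one]
    exact not_congr e
  have hℓR : (0 : ℝ) < ℓ := by exact_mod_cast hℓ
  have hpodd : Odd p := hp.odd_of_ne_two (by omega)
  have hqodd : Odd q := hq.odd_of_ne_two (by omega)
  -- key lower bound for the number of disagreements
  have key : ∀ s : ℝ, PM s → g * ℓ ≤ 6 * n *
      ((((range ℓ).filter (fun m => θ (p * m + a) ≠ s * θ (q * m + b))).card : ℝ) +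
        (p + q) * (D + 1)) := by
    intro s hs
    obtain ⟨h1, h2⟩ := slow_lower2 p q hpodd hqodd ((Nat.coprime_primes hp hq).2 hpq) n ℓ D θ τ s
      hℓ hθpm hτpm hs hθper hjump (lg_spec D (by omega)) a b
    by_cases hcons : ε' = ε ^ ℓ
    · have hτ1 : τ = 1 := by rw [hτ, hcons, (hε.pow ℓ).sq]
      obtain ⟨s₀, hs₀, hs1⟩ := h1 hτ1
      have h3 : ((range ℓ).filter (fun n => θ n ≠ s₀)) =
          ((range ℓ).filter (fun n => β n * ε ^ n ≠ s₀)) := by
        refine filter_congr fun n hn => ?_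
        rw [hθ]
        simp only [tw]
        rw [Nat.div_eq_of_lt (mem_range.1 hn), pow_zero, mul_one]
      have h4 : (dg ℓ β ε : ℝ) ≤ (((range ℓ).filter (fun n => θ n ≠ s₀)).card : ℝ) := by
        have := dg_le_ds ℓ β ε hs₀
        unfold ds at this
        rw [h3]
        exact_mod_cast this
      have h5 := hg1 hcons
      rw [le_div_iff₀ hℓR] at h5
      linarith
    · have hτ1 : τ = -1 := by
        rcases hτpm with h | h
        · exfalso
          apply hcons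
          rw [hτ] at h
          have h6 := (hε.pow ℓ).sq
          calc ε' = (ε ^ ℓ * ε ^ ℓ) * ε' := by rw [h6, one_mul]
            _ = ε ^ ℓ * (ε ^ ℓ * ε') := by ring
            _ = ε ^ ℓ := by rw [h, mul_one]
        · exact h
      have h5 := h2 hτ1
      have h6 := hg2 hcons
      have h7 : g * ℓ ≤ 1 * ℓ := mul_le_mul_of_nonneg_right h6 hℓR.le
      linarith
  -- conversion of the twisted sum
  have hodd : Even (p + q) := hpodd.add_odd hqodd
  have hconv : ∑ m ∈ range ℓ, tw β ℓ ε' (p * m + a) * tw β ℓ ε' (q * m + b) =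
      ε ^ (a + b) * ∑ m ∈ range ℓ, θ (p * m + a) * θ (q * m + b) := by
    rw [mul_sum]
    refine sum_congr rfl fun m _ => ?_
    rw [hθ]
    simp only
    have e1 : ε ^ (p * m + a) * ε ^ (q * m + b) = ε ^ (a + b) := by
      rw [← pow_add, show p * m + a + (q * m + b) = (a + b) + (p + q) * m by ring, pow_add,
        pow_mul, hε.pow_even hodd, one_pow, mul_one]
    have e2 := (hε.pow (a + b)).sq
    calc _ = (ε ^ (a + b) * ε ^ (a + b)) * (tw β ℓ ε' (p * m + a) * tw β ℓ ε' (q * m + b)) := by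
          rw [e2, one_mul]
      _ = ε ^ (a + b) * (tw β ℓ ε' (p * m + a) * tw β ℓ ε' (q * m + b) *
            (ε ^ (p * m + a) * ε ^ (q * m + b))) := by rw [e1]; ring
      _ = _ := by ring
  rw [hconv, abs_mul, (hε.pow _).abs, one_mul]
  have hn0 : (0 : ℝ) < 6 * n := by linarith
  have hrhs : (1 - g / (3 * n) + 2 * ((p + q) * (D + 1)) / ℓ) * ℓ =
      ℓ - 2 * (g * ℓ / (6 * n) - (p + q) * (D + 1)) := by
    field_simp; ring
  rw [hrhs, abs_le]
  have k1 := key 1 pm_one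
  have k2 := key (-1) (Or.inr rfl)
  have s1 := sum_signs ℓ (fun m => θ (p * m + a)) (fun m => θ (q * m + b)) (fun m => hθpm _)
    (fun m => hθpm _) pm_one
  have s2 := sum_signs ℓ (fun m => θ (p * m + a)) (fun m => θ (q * m + b)) (fun m => hθpm _)
    (fun m => hθpm _) (s := -1) (Or.inr rfl)
  rw [mul_comm (6 * (n : ℝ)), ← div_le_iff₀ hn0] at k1 k2
  constructor
  · have : (-1 : ℝ) * ∑ m ∈ range ℓ, θ (p * m + a) * θ (q * m + b) ≤
        ℓ - 2 * (g * ℓ / (6 * n) - (p + q) * (D + 1)) := by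
      rw [s2]; linarith
    linarith
  · have : (1 : ℝ) * ∑ m ∈ range ℓ, θ (p * m + a) * θ (q * m + b) ≤
        ℓ - 2 * (g * ℓ / (6 * n) - (p + q) * (D + 1)) := by
      rw [s1]; linarith
    linarith

/-- normalized distance, `1` at inconsistent levels -/
noncomputable def gq (β : ℕ → ℕ → ℝ) (ℓ : ℕ → ℕ) (ε : ℕ → ℝ) (i : ℕ) : ℝ :=
  open Classical in if ε (i + 1) = ε i ^ ℓ i then (dg (ℓ i) (β i) (ε i) : ℝ) / ℓ i else 1

theorem gq_nonneg (β : ℕ → ℕ → ℝ) (ℓ : ℕ → ℕ) (ε : ℕ → ℝ) (i : ℕ) : 0 ≤ gq β ℓ ε i := by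
  unfold gq; split_ifs
  · positivity
  · norm_num

theorem gq_le_one (β : ℕ → ℕ → ℝ) {ℓ : ℕ → ℕ} (hℓ : ∀ i, 1 ≤ ℓ i) (ε : ℕ → ℝ) (i : ℕ) :
    gq β ℓ ε i ≤ 1 := by
  unfold gq; split_ifs
  · have h1 : (0 : ℝ) < ℓ i := by exact_mod_cast hℓ i
    rw [div_le_one h1]
    exact_mod_cast dg_le _ _ _
  · norm_num

/-- Mixing in the slow regime. -/
theorem mixB {β : ℕ → ℕ → ℝ} {ℓ : ℕ → ℕ} (hβ : ∀ i n, PM (β i n))
    (hℓ : ∀ i, 2 ≤ ℓ i) (hper : ∀ i n, β i (n + ℓ i) = β i n) (ε : ℕ → ℝ) (hε : ∀ i, PM (ε i))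
    (hsum : Summable fun i => ((jn (ℓ i) (β i) (ε i) : ℝ) + 1) / ℓ i)
    (hdivg : ¬ Summable fun i => gq β ℓ ε i / lg (jn (ℓ i) (β i) (ε i))) : Mix β ℓ := by
  classical
  have hℓ1 : ∀ i, 1 ≤ ℓ i := fun i => by have := hℓ i; omega
  refine ⟨2, fun p q hp hq hKp hKq hpq j δ hδ => ?_⟩
  set J : ℕ → ℕ := fun i => jn (ℓ i) (β i) (ε i) with hJ
  set g : ℕ → ℝ := gq β ℓ ε with hg
  set c : ℕ → ℝ := fun i => min 1 (1 - g i / (3 * lg (J i)) + 2 * ((p + q) * (J i + 1)) / ℓ i)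
    with hc
  have hlg : ∀ i, (1 : ℝ) ≤ lg (J i) := fun i => by exact_mod_cast lg_pos _
  have hc1 : ∀ i, c i ≤ 1 := fun i => min_le_left _ _
  have hc0 : ∀ i, 0 ≤ c i := by
    intro i
    rw [hc]
    simp only
    refine le_min zero_le_one ?_
    have h1 : g i / (3 * lg (J i)) ≤ 1 := by
      rw [div_le_one (by have := hlg i; linarith)]
      have := gq_le_one β hℓ1 ε i
      have := hlg i
      rw [hg]
      linarith
    have h2 : (0 : ℝ) ≤ 2 * ((p + q) * (J i + 1)) / ℓ i := by positivity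
    linarith
  have hcbound : ∀ i a b, |∑ m ∈ range (ℓ i), tw (β i) (ℓ i) (ε (i + 1)) (p * m + a) *
      tw (β i) (ℓ i) (ε (i + 1)) (q * m + b)| ≤ c i * ℓ i := by
    intro i a b
    have hℓR : (0 : ℝ) < ℓ i := by exact_mod_cast hℓ1 i
    rw [hc]
    simp only
    rw [min_mul_of_nonneg _ _ hℓR.le]
    refine le_min ?_ ?_
    · refine (abs_sum_le_sum_abs _ _).trans ?_
      calc _ ≤ ∑ m ∈ range (ℓ i), (1 : ℝ) := by
            refine sum_le_sum fun m _ => ?_
            have : PM (tw (β i) (ℓ i) (ε (i + 1)) (p * m + a) *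
              tw (β i) (ℓ i) (ε (i + 1)) (q * m + b)) :=
              ((hβ i _).mul ((hε _).pow _)).mul ((hβ i _).mul ((hε _).pow _))
            exact this.abs_le
        _ = 1 * ℓ i := by simp
    · refine block_bound2 hp hq hpq hKp hKq (ℓ i) (β i) (ε i) (ε (i + 1)) (hℓ1 i) (hper i) (hβ i)
        (hε i) (hε _) (g i) (fun h1 => ?_) (fun h1 => ?_) a b
      · rw [hg]; unfold gq; rw [if_pos h1]
      · rw [hg]; unfold gq; rw [if_neg h1]
  set E : ℕ → ℝ := fun i => 2 * (p + q) * (((J i : ℝ) + 1) / ℓ i) with hE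
  have hE0 : ∀ i, 0 ≤ E i := fun i => by rw [hE]; positivity
  have hEs : Summable E := hsum.mul_left _
  have hEb : ∀ i, 2 * (p + q) * ((jn (ℓ i) (β i) (ε i) : ℝ) + 1) / ℓ i ≤ E i := by
    intro i
    rw [hE]
    simp only
    rw [mul_div_assoc]
  have hdiv : ¬ Summable fun i => 1 - c i := by
    intro hs
    apply hdivg
    have h1 : Summable fun i => 3 * ((1 - c i) + 2 * (p + q) * (((J i : ℝ) + 1) / ℓ i)) :=
      (hs.add (hsum.mul_left _)).mul_left _
    refine Summable.of_nonneg_of_le (fun i => ?_) (fun i => ?_) h1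
    · exact div_nonneg (gq_nonneg β ℓ ε i) (Nat.cast_nonneg _)
    · have h2 : c i ≤ 1 - g i / (3 * lg (J i)) + 2 * ((p + q) * (J i + 1)) / ℓ i :=
        min_le_right _ _
      have h3 : g i / (3 * lg (J i)) = (g i / lg (J i)) / 3 := by
        rw [div_div]; congr 1; ring
      rw [h3] at h2
      have h4 : 2 * ((p + q : ℝ) * (J i + 1)) / ℓ i = 2 * (p + q) * (((J i : ℝ) + 1) / ℓ i) := by
        ring
      rw [h4] at h2
      change g i / lg (J i) ≤ _
      linarith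
  -- tail of E
  have htail := tendsto_sum_nat_add E
  have h1 : ∀ᶠ i in atTop, ∑' k, E (k + i) < δ / 2 :=
    htail.eventually (gt_mem_nhds (by positivity))
  obtain ⟨s₀, hs₀⟩ := h1.exists_forall_of_atTop
  set s := max j s₀ with hs
  have hjs : j ≤ s := le_max_left _ _
  have hsE : ∀ k, ∑ i ∈ range k, E (s + 1 + i) < δ / 2 := by
    intro k
    have h2 := hs₀ (s + 1) (by have := le_max_right j s₀; omega)
    refine lt_of_le_of_lt ?_ h2
    have h3 : Summable fun k => E (k + (s + 1)) := (summable_nat_add_iff (s + 1)).2 hEs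
    have h4 := h3.sum_le_tsum (range k) fun i _ => hE0 _
    refine le_trans (le_of_eq ?_) h4
    exact sum_congr rfl fun i _ => by rw [add_comm]
  obtain ⟨k, hk⟩ := prod_small c hc0 hc1 hdiv s (half_pos hδ)
  have hfin := SB_iter hℓ1 hper hβ ε hε c E hc0 hc1 hE0 hcbound hEb k s
  have hfin2 := hfin.mono (show ∏ i ∈ range k, c (s + i) + ∑ i ∈ range k, E (s + 1 + i) ≤ δ by
    have := hsE k; linarith)
  have hsplit : s = j + (s - j) := by omega
  rw [hsplit] at hfin2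
  exact ⟨(s - j) + (k + 1), SB_front hℓ1 hper hβ j (s - j) (k + 1) hδ.le hfin2⟩

/-- The almost periodic alternative. -/
theorem orth_of_summable {β : ℕ → ℕ → ℝ} {ℓ : ℕ → ℕ} {η : ℕ → ℝ} (hβ : ∀ i n, PM (β i n))
    (hℓ : ∀ i, 2 ≤ ℓ i) (hper : ∀ i n, β i (n + ℓ i) = β i n) (ε : ℕ → ℝ) (hε : ∀ i, PM (ε i))
    (D : ℕ) (hD : ∀ i, jn (ℓ i) (β i) (ε i) ≤ D) (hsg : Summable (gq β ℓ ε))
    (h : Lev β ℓ η) : Orth ℓ η := by
  classical
  have h1 : ∀ᶠ i in atTop, gq β ℓ ε i < 1 := hsg.tendsto_atTop_zero.eventually (gt_mem_nhds one_pos)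
  obtain ⟨J, hJ⟩ := h1.exists_forall_of_atTop
  have hcons : ∀ i, J ≤ i → ε (i + 1) = ε i ^ ℓ i := by
    intro i hi
    by_contra hcon
    have h2 := hJ i hi
    unfold gq at h2
    rw [if_neg hcon] at h2
    exact lt_irrefl _ h2
  refine orth_of_ap hβ hℓ hper ε hε J D hcons (fun i _ => ?_) (fun i => dg (ℓ i) (β i) (ε i))
    (fun i _ => ?_) ?_ h
  · have := hD i
    unfold jn at this
    exact this
  · rcases min_choice (ds (ℓ i) (β i) (ε i) 1) (ds (ℓ i) (β i) (ε i) (-1)) with h2 | h2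
    · refine ⟨1, pm_one, ?_⟩
      unfold dg
      rw [h2]
      exact le_of_eq rfl
    · refine ⟨-1, Or.inr rfl, ?_⟩
      unfold dg
      rw [h2]
      exact le_of_eq rfl
  · rw [← summable_nat_add_iff J]
    refine ((summable_nat_add_iff J).2 hsg).congr fun i => ?_
    unfold gq
    rw [if_pos (hcons (i + J) (Nat.le_add_left _ _))]

end Pool.Agent.Helper51.Mo
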