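import Mathlib
import Pool.Agent.Helper51.MoGen
open Filter Topology Finset

/-! Regrouping of blocks and the dichotomy for boundedly many defects. -/

namespace Pool.Agent.Helper51.Mo

/-- regrouped blocks -/
def rb (β : ℕ → ℕ → ℝ) (ℓ : ℕ → ℕ) (n : ℕ → ℕ) (j : ℕ) : ℕ → ℝ := pw β ℓ (n j) (n (j + 1) - n j)
/-- regrouped lengths -/
def rl (ℓ : ℕ → ℕ) (n : ℕ → ℕ) (j : ℕ) : ℕ := len ℓ (n j) (n (j + 1) - n j)

theorem rl_len (ℓ : ℕ → ℕ) (n : ℕ → ℕ) (hn : StrictMono n) (s k : ℕ) :
    len (rl ℓ n) s k = len ℓ (n s) (n (s + k) - n s) := by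
  induction k generalizing s with
  | zero => simp [len]
  | succ k ih =>
    have h1 := hn (Nat.lt_add_one s)
    have h2 : n (s + 1) ≤ n (s + 1 + k) := hn.monotone (Nat.le_add_right _ _)
    have h3 : n s + (n (s + 1) - n s) = n (s + 1) := by omega
    have h4 : n (s + (k + 1)) - n s = (n (s + 1) - n s) + (n (s + 1 + k) - n (s + 1)) := by
      rw [show s + (k + 1) = s + 1 + k by ring]; omega
    rw [len, ih, rl, h4, len_add, h3]

theorem rb_pw (β : ℕ → ℕ → ℝ) (ℓ : ℕ → ℕ) (n : ℕ → ℕ) (hn : StrictMono n) (s k x : ℕ) :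
    pw (rb β ℓ n) (rl ℓ n) s k x = pw β ℓ (n s) (n (s + k) - n s) x := by
  induction k generalizing s x with
  | zero => simp [pw]
  | succ k ih =>
    have h1 := hn (Nat.lt_add_one s)
    have h2 : n (s + 1) ≤ n (s + 1 + k) := hn.monotone (Nat.le_add_right _ _)
    have h3 : n s + (n (s + 1) - n s) = n (s + 1) := by omega
    rw [pw, ih, rb, rl]
    have h4 : n (s + (k + 1)) - n s = (n (s + 1) - n s) + (n (s + 1 + k) - n (s + 1)) := by
      rw [show s + (k + 1) = s + 1 + k by ring]; omega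
    rw [h4, pw_add, h3]

theorem rl_ge (ℓ : ℕ → ℕ) (hℓ : ∀ i, 2 ≤ ℓ i) (n : ℕ → ℕ) (hn : StrictMono n) (j : ℕ) :
    2 ≤ rl ℓ n j := by
  have h1 := hn (Nat.lt_add_one j)
  have h2 := two_pow_le_len ℓ hℓ (n j) (n (j + 1) - n j)
  have h3 : 2 ^ 1 ≤ 2 ^ (n (j + 1) - n j) := Nat.pow_le_pow_right (by norm_num) (by omega)
  unfold rl
  omega

theorem lev_regroup {β : ℕ → ℕ → ℝ} {ℓ : ℕ → ℕ} {η : ℕ → ℝ} (h : Lev β ℓ η) (n : ℕ → ℕ)
    (hn : StrictMono n) (h0 : n 0 = 0) : Lev (rb β ℓ n) (rl ℓ n) η := by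
  intro i
  obtain ⟨a, ha, ω, hω, hη⟩ := h (n i)
  have e : len (rl ℓ n) 0 i = len ℓ 0 (n i) := by
    rw [rl_len ℓ n hn, h0, zero_add, Nat.sub_zero]
  refine ⟨a, by rw [e]; exact ha, ω, hω, fun m => ?_⟩
  rw [hη, rb_pw β ℓ n hn, h0, zero_add, Nat.sub_zero, e]

theorem orth_regroup {ℓ : ℕ → ℕ} {η : ℕ → ℝ} (n : ℕ → ℕ)
    (hn : StrictMono n) (h0 : n 0 = 0) (h : Orth (rl ℓ n) η) : Orth ℓ η := by
  intro i g hg hg1
  have e : len (rl ℓ n) 0 i = len ℓ 0 i * len ℓ i (n i - i) := by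
    rw [rl_len ℓ n hn, h0, zero_add, Nat.sub_zero]
    have : i ≤ n i := hn.id_le i
    conv_lhs => rw [show n i = i + (n i - i) by omega]
    rw [len_add, zero_add]
  refine h i g (fun m => ?_) hg1
  rw [e, per_mul g _ hg]

/-- total number of jumps -/
theorem jc_add {ℓ : ℕ} {β : ℕ → ℝ} (hβ : ∀ n, PM (β n)) {s : ℝ} (hs : PM s) :
    jc ℓ β s + jc ℓ β (-s) = ℓ - 1 := by
  classical
  unfold jc
  rw [← card_union_of_disjoint]
  · rw [← filter_or]
    have : (Finset.Ico 1 ℓ).filter (fun n => β n * β (n - 1) = s ∨ β n * β (n - 1) = -s) =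
        Finset.Ico 1 ℓ := by
      apply filter_true_of_mem
      intro n _
      by_cases h : β n * β (n - 1) = s
      · exact Or.inl h
      · exact Or.inr (pm_eq_or ((hβ _).mul (hβ _)) hs h)
    rw [this]; simp
  · rw [Finset.disjoint_filter]
    intro n _ h1 h2
    rw [h1] at h2
    rcases hs with rfl | rfl <;> norm_num at h2

theorem jn_eq_jc {ℓ : ℕ} {β : ℕ → ℝ} (hβ : ∀ n, PM (β n)) {ε : ℝ} (hε : PM ε) :
    jn ℓ β ε = jc ℓ β (-ε) := by
  classical
  unfold jn jc
  congr 1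
  refine filter_congr fun n _ => ?_
  have h1 := (hβ (n - 1)).sq
  constructor
  · intro h
    have := pm_eq_or (hβ n) (hε.mul (hβ (n - 1))) h
    rw [this]
    calc _ = -ε * (β (n - 1) * β (n - 1)) := by ring
      _ = _ := by rw [h1, mul_one]
  · intro h h2
    rw [h2] at h
    have : ε * (β (n - 1) * β (n - 1)) = -ε := by
      calc _ = ε * β (n - 1) * β (n - 1) := by ring
        _ = _ := h
    rw [h1, mul_one] at this
    rcases hε with rfl | rfl <;> norm_num at this

/-- the majority sign of a block -/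
noncomputable def ms (ℓ : ℕ) (β : ℕ → ℝ) : ℝ :=
  open Classical in if jc ℓ β 1 ≤ jc ℓ β (-1) then -1 else 1

theorem ms_pm (ℓ : ℕ) (β : ℕ → ℝ) : PM (ms ℓ β) := by
  unfold ms; split_ifs
  · exact Or.inr rfl
  · exact Or.inl rfl

theorem jn_ms {ℓ : ℕ} {β : ℕ → ℝ} (hβ : ∀ n, PM (β n)) : jn ℓ β (ms ℓ β) = dm ℓ β := by
  rw [jn_eq_jc hβ (ms_pm ℓ β)]
  unfold ms dm
  split_ifs with h
  · rw [neg_neg, min_eq_left h]
  · rw [min_eq_right (by omega)]

theorem two_jn_ms_le {ℓ : ℕ} {β : ℕ → ℝ} (hβ : ∀ n, PM (β n)) :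
    2 * jn ℓ β (ms ℓ β) ≤ ℓ - 1 := by
  rw [jn_ms hβ]
  have h1 := jc_add (ℓ := ℓ) hβ pm_one
  unfold dm
  omega

/-- geometric blocks -/
theorem geom_of_jn {ℓ : ℕ} {β : ℕ → ℝ} {ε : ℝ} (h : jn ℓ β ε = 0) (n : ℕ) (hn : n < ℓ) :
    β n = ε ^ n * β 0 := by
  classical
  induction n with
  | zero => simp
  | succ n ih =>
    unfold jn at h
    rw [card_eq_zero, filter_eq_empty_iff] at h
    have h1 := h (Finset.mem_Ico.2 ⟨by omega, hn⟩)
    push Not at h1
    rw [h1, Nat.add_sub_cancel, ih (by omega), pow_succ]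
    ring

/-- jumps of a geometric block followed by a consistent word -/
theorem jn_geom_mul {B ζ : ℕ → ℝ} {ℓ M : ℕ} (hℓ : 1 ≤ ℓ) (hB : ∀ n, B (n + ℓ) = B n)
    (hB1 : ∀ n, PM (B n)) (hζ : ∀ n, PM (ζ n)) {ε ε' : ℝ} (hε : PM ε)
    (h0 : jn ℓ B ε = 0) (hcons : ε' = ε ^ ℓ) :
    jn (ℓ * M) (fun n => B n * ζ (n / ℓ)) ε = jn M ζ ε' := by
  classical
  unfold jn
  symm
  refine card_bij (fun k _ => ℓ * k) ?_ ?_ ?_
  · intro k hk
    obtain ⟨hk1, hk2⟩ := mem_filter.1 hk
    obtain ⟨hk3, hk4⟩ := Finset.mem_Ico.1 hk1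
    refine mem_filter.2 ⟨Finset.mem_Ico.2 ⟨?_, ?_⟩, ?_⟩
    · exact Nat.mul_pos hℓ hk3
    · exact (Nat.mul_lt_mul_left hℓ).2 hk4
    · obtain ⟨m, rfl⟩ := Nat.exists_eq_add_of_le hk3
      have e1 : ℓ * (1 + m) / ℓ = m + 1 := by
        rw [Nat.mul_div_cancel_left _ hℓ]; ring
      have e2 : ℓ * (1 + m) - 1 = (ℓ - 1) + ℓ * m := by
        have : ℓ * (1 + m) = ℓ + ℓ * m := by ring
        omega
      have e3 : (ℓ * (1 + m) - 1) / ℓ = m := by
        rw [e2, Nat.add_mul_div_left _ _ hℓ, Nat.div_eq_of_lt (by omega), zero_add]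
      have e4 : B (ℓ * (1 + m)) = B 0 := by
        rw [show ℓ * (1 + m) = 0 + ℓ * (1 + m) by ring, per_mul B ℓ hB]
      have e5 : B (ℓ * (1 + m) - 1) = ε ^ (ℓ - 1) * B 0 := by
        rw [e2, per_mul B ℓ hB, geom_of_jn h0 (ℓ - 1) (by omega)]
      simp only
      rw [e1, e3, e4, e5]
      intro hcon
      apply hk2
      rw [show 1 + m = m + 1 by ring, Nat.add_sub_cancel]
      have h5 := (hB1 0).sq
      have h6 : ε * ε ^ (ℓ - 1) = ε' := by
        rw [hcons, ← pow_succ']; congr 1; omega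
      calc ζ (m + 1) = B 0 * (B 0 * ζ (m + 1)) := by
            rw [← mul_assoc, h5, one_mul]
        _ = B 0 * (ε * (ε ^ (ℓ - 1) * B 0 * ζ m)) := by rw [hcon]
        _ = (ε * ε ^ (ℓ - 1)) * (B 0 * B 0) * ζ m := by ring
        _ = ε' * ζ m := by rw [h5, h6, mul_one]
  · intro a _ b _ hab
    exact Nat.eq_of_mul_eq_mul_left hℓ hab
  · intro n hn
    obtain ⟨hn1, hn2⟩ := mem_filter.1 hn
    obtain ⟨hn3, hn4⟩ := Finset.mem_Ico.1 hn1
    have hdvd : ℓ ∣ n := by
      by_contra hnd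
      apply hn2
      simp only
      obtain ⟨m, rfl⟩ := Nat.exists_eq_add_of_le hn3
      rw [show 1 + m = m + 1 by ring] at *
      rw [Nat.add_sub_cancel]
      have e1 : (m + 1) / ℓ = m / ℓ := by
        rw [Nat.succ_div, if_neg hnd, add_zero]
      have hmod : (m + 1) % ℓ = m % ℓ + 1 := by
        have h7 := Nat.mod_add_div (m + 1) ℓ
        have h8 := Nat.mod_add_div m ℓ
        rw [e1] at h7
        omega
      have e2 : B (m + 1) = ε * B m := by
        have e3 : B (m + 1) = B ((m + 1) % ℓ) := by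
          conv_lhs => rw [← Nat.mod_add_div (m + 1) ℓ]
          rw [per_mul B ℓ hB]
        have e4 : B m = B (m % ℓ) := by
          conv_lhs => rw [← Nat.mod_add_div m ℓ]
          rw [per_mul B ℓ hB]
        rw [e3, e4, geom_of_jn h0 _ (Nat.mod_lt _ hℓ), geom_of_jn h0 _ (Nat.mod_lt _ hℓ), hmod,
          pow_succ]
        ring
      rw [e1, e2]
      ring
    obtain ⟨k, rfl⟩ := hdvd
    have hk0 : k ≠ 0 := by rintro rfl; simp at hn3
    obtain ⟨m, rfl⟩ := Nat.exists_eq_succ_of_ne_zero hk0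
    refine ⟨m + 1, mem_filter.2 ⟨Finset.mem_Ico.2 ⟨by omega, ?_⟩, ?_⟩, rfl⟩
    · exact (Nat.mul_lt_mul_left hℓ).1 hn4
    · intro hcon
      apply hn2
      rw [Nat.succ_eq_add_one] at *
      have e1 : ℓ * (m + 1) / ℓ = m + 1 := Nat.mul_div_cancel_left _ hℓ
      have e2 : ℓ * (m + 1) - 1 = (ℓ - 1) + ℓ * m := by
        have : ℓ * (m + 1) = ℓ + ℓ * m := by ring
        omega
      have e3 : (ℓ * (m + 1) - 1) / ℓ = m := by
        rw [e2, Nat.add_mul_div_left _ _ hℓ, Nat.div_eq_of_lt (by omega), zero_add]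
      have e4 : B (ℓ * (m + 1)) = B 0 := by
        rw [show ℓ * (m + 1) = 0 + ℓ * (m + 1) by ring, per_mul B ℓ hB]
      have e5 : B (ℓ * (m + 1) - 1) = ε ^ (ℓ - 1) * B 0 := by
        rw [e2, per_mul B ℓ hB, geom_of_jn h0 (ℓ - 1) (by omega)]
      simp only
      rw [e1, e3, e4, e5, hcon, Nat.add_sub_cancel]
      have h6 : ε * ε ^ (ℓ - 1) = ε' := by
        rw [hcons, ← pow_succ']; congr 1; omega
      rw [← h6]; ring

/-- A run of nonbreaking blocks followed by one arbitrary block. -/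
theorem run_block {β : ℕ → ℕ → ℝ} {ℓ : ℕ → ℕ} (hβ : ∀ i n, PM (β i n)) (hℓ : ∀ i, 1 ≤ ℓ i)
    (hper : ∀ i n, β i (n + ℓ i) = β i n) (ε : ℕ → ℝ) (hε : ∀ i, PM (ε i)) (k s : ℕ)
    (hrun : ∀ i, s ≤ i → i < s + k → jn (ℓ i) (β i) (ε i) = 0 ∧ ε (i + 1) = ε i ^ ℓ i) :
    jn (len ℓ s (k + 1)) (pw β ℓ s (k + 1)) (ε s) = jn (ℓ (s + k)) (β (s + k)) (ε (s + k)) ∧
      ε s ^ len ℓ s (k + 1) = ε (s + k) ^ ℓ (s + k) := by
  induction k generalizing s with
  | zero =>
    have e : pw β ℓ s (0 + 1) = β s := by funext n; simp [pw]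
    rw [e, len_one]
    simp
  | succ k ih =>
    obtain ⟨h1, h2⟩ := ih (s + 1) (fun i hi hi' => hrun i (by omega) (by omega))
    obtain ⟨h3, h4⟩ := hrun s le_rfl (by omega)
    have e : pw β ℓ s (k + 1 + 1) = fun n => β s n * pw β ℓ (s + 1) (k + 1) (n / ℓ s) := by
      funext n; rw [pw]
    have e2 : len ℓ s (k + 1 + 1) = ℓ s * len ℓ (s + 1) (k + 1) := by rw [len]
    constructor
    · rw [e, e2, jn_geom_mul (hℓ s) (hper s) (hβ s) (pw_pm β ℓ hβ _ _) (hε s) h3 h4, h1,
        show s + 1 + k = s + (k + 1) by ring]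
    · rw [e2, pow_mul, ← h4, h2, show s + 1 + k = s + (k + 1) by ring]

/-- Lower bound of the defect of `b × c` when `b` is a break. -/
theorem dd_break {b c : ℕ → ℝ} {ℓb ℓc : ℕ} (hb : ∀ n, PM (b n)) (hc : ∀ n, PM (c n))
    (hℓb : 2 ≤ ℓb) (hℓc : 2 ≤ ℓc) (hbper : ∀ n, b (n + ℓb) = b n) {ε ε' : ℝ} (hε : PM ε)
    (hε' : PM ε') (h2b : 2 * jn ℓb b ε ≤ ℓb - 1) (h2c : 2 * jn ℓc c ε' ≤ ℓc - 1)
    (hbr : jn ℓb b ε ≠ 0 ∨ ε' ≠ ε ^ ℓb) :
    ℓc ≤ 4 * dm (ℓb * ℓc) (fun n => b n * c (n / ℓb)) := by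
  classical
  have hall : ∀ s : ℝ, s = 1 ∨ s = -1 → (s = ε ∨ s = -ε) := by
    intro s hs
    rcases hs with rfl | rfl <;> rcases hε with h | h <;> rw [h] <;> simp
  have hjb := jc_add (ℓ := ℓb) hb hε
  have hjc := jc_add (ℓ := ℓc) hc hε'
  rw [jn_eq_jc hb hε] at h2b hbr
  rw [jn_eq_jc hc hε'] at h2c
  have hmulε := jc_mul (M := ℓc) (by omega : 1 ≤ ℓb) hbper hc ε
  have hmulε' := jc_mul (M := ℓc) (by omega : 1 ≤ ℓb) hbper hc (-ε)
  have hbε : 1 ≤ jc ℓb b ε := by omega
  have hA : ℓc ≤ 4 * jc (ℓb * ℓc) (fun n => b n * c (n / ℓb)) ε := by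
    have : ℓc * 1 ≤ ℓc * jc ℓb b ε := Nat.mul_le_mul_left _ hbε
    omega
  have hB : ℓc ≤ 4 * jc (ℓb * ℓc) (fun n => b n * c (n / ℓb)) (-ε) := by
    by_cases h0 : jc ℓb b (-ε) = 0
    · -- geometric, inconsistent
      have hne : ε' ≠ ε ^ ℓb := by
        rcases hbr with h | h
        · exact absurd h0 h
        · exact h
      have hneg : ε' = -(ε ^ ℓb) := pm_eq_or hε' (hε.pow _) hne
      have hgeo : jn ℓb b ε = 0 := by rw [jn_eq_jc hb hε]; exact h0
      have hinj : jc ℓc c ε' ≤ jc (ℓb * ℓc) (fun n => b n * c (n / ℓb)) (-ε) := by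
        unfold jc
        refine card_le_card_of_injOn (fun k => ℓb * k) ?_ ?_
        · intro k hk
          have hk' := mem_filter.1 (Finset.mem_coe.1 hk)
          obtain ⟨hk1, hk2⟩ := hk'
          obtain ⟨hk3, hk4⟩ := Finset.mem_Ico.1 hk1
          apply Finset.mem_coe.2
          refine mem_filter.2 ⟨Finset.mem_Ico.2 ⟨?_, ?_⟩, ?_⟩
          · exact Nat.mul_pos (by omega) hk3
          · exact (Nat.mul_lt_mul_left (by omega)).2 hk4
          · obtain ⟨m, rfl⟩ := Nat.exists_eq_add_of_le hk3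
            have hℓb1 : 0 < ℓb := by omega
            have e1 : ℓb * (1 + m) / ℓb = m + 1 := by
              rw [Nat.mul_div_cancel_left _ hℓb1]; ring
            have e2 : ℓb * (1 + m) - 1 = (ℓb - 1) + ℓb * m := by
              have : ℓb * (1 + m) = ℓb + ℓb * m := by ring
              omega
            have e3 : (ℓb * (1 + m) - 1) / ℓb = m := by
              rw [e2, Nat.add_mul_div_left _ _ hℓb1, Nat.div_eq_of_lt (by omega), zero_add]
            have e4 : b (ℓb * (1 + m)) = b 0 := by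
              rw [show ℓb * (1 + m) = 0 + ℓb * (1 + m) by ring, per_mul b ℓb hbper]
            have e5 : b (ℓb * (1 + m) - 1) = ε ^ (ℓb - 1) * b 0 := by
              rw [e2, per_mul b ℓb hbper, geom_of_jn hgeo (ℓb - 1) (by omega)]
            simp only
            rw [e1, e3, e4, e5]
            rw [show 1 + m = m + 1 by ring, Nat.add_sub_cancel] at hk2
            have h5 := (hb 0).sq
            have h6 : ε ^ ℓb = ε * ε ^ (ℓb - 1) := by
              rw [← pow_succ']; congr 1; omega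
            have h7 := (hε.pow (ℓb - 1)).sq
            calc _ = (b 0 * b 0) * ε ^ (ℓb - 1) * (c (m + 1) * c m) := by ring
              _ = ε ^ (ℓb - 1) * -(ε * ε ^ (ℓb - 1)) := by rw [h5, hk2, hneg, h6]; ring
              _ = -ε * (ε ^ (ℓb - 1) * ε ^ (ℓb - 1)) := by ring
              _ = -ε := by rw [h7, mul_one]
        · intro x _ y _ hxy
          exact Nat.eq_of_mul_eq_mul_left (by omega) hxy
      omega
    · have : ℓc * 1 ≤ ℓc * jc ℓb b (-ε) := Nat.mul_le_mul_left _ (by omega)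
      omega
  have hmin : ∀ s : ℝ, s = 1 ∨ s = -1 → ℓc ≤ 4 * jc (ℓb * ℓc) (fun n => b n * c (n / ℓb)) s := by
    intro s hs
    rcases hall s hs with h | h <;> rw [h]
    · exact hA
    · exact hB
  unfold dm
  have h1 := hmin 1 (Or.inl rfl)
  have h2 := hmin (-1) (Or.inr rfl)
  omega

/-- distances to geometric patterns multiply under a geometric consistent prefix -/
theorem ds_geom_mul {B ζ : ℕ → ℝ} {ℓ M : ℕ} (hℓ : 1 ≤ ℓ) (hB : ∀ n, B (n + ℓ) = B n)
    (hB1 : ∀ n, PM (B n)) {ε ε' : ℝ} (hε : PM ε)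
    (h0 : jn ℓ B ε = 0) (hcons : ε' = ε ^ ℓ) (s : ℝ) :
    ds (ℓ * M) (fun n => B n * ζ (n / ℓ)) ε s = ℓ * ds M ζ ε' (s * B 0) := by
  classical
  have hval : ∀ m f : ℕ, m < ℓ → (fun n => B n * ζ (n / ℓ)) (ℓ * f + m) * ε ^ (ℓ * f + m) =
      B 0 * (ζ f * ε' ^ f) := by
    intro m f hm
    have e1 : B (ℓ * f + m) = ε ^ m * B 0 := by
      rw [add_comm, per_mul B ℓ hB, geom_of_jn h0 m hm]
    have e2 : (ℓ * f + m) / ℓ = f := by
      rw [add_comm, Nat.add_mul_div_left _ _ hℓ, Nat.div_eq_of_lt hm, zero_add]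
    simp only
    rw [e1, e2, pow_add, pow_mul, ← hcons]
    have h3 := (hε.pow m).sq
    calc _ = (ε ^ m * ε ^ m) * (B 0 * (ζ f * ε' ^ f)) := by ring
      _ = _ := by rw [h3, one_mul]
  have hiff : ∀ m f : ℕ, m < ℓ → ((fun n => B n * ζ (n / ℓ)) (ℓ * f + m) * ε ^ (ℓ * f + m) ≠ s ↔
      ζ f * ε' ^ f ≠ s * B 0) := by
    intro m f hm
    rw [hval m f hm]
    have h4 := (hB1 0).sq
    apply not_congr
    constructor
    · intro h
      calc ζ f * ε' ^ f = (B 0 * B 0) * (ζ f * ε' ^ f) := by rw [h4, one_mul]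
        _ = B 0 * (ζ f * ε' ^ f) * B 0 := by ring
        _ = s * B 0 := by rw [h]
    · intro h
      rw [h]
      calc B 0 * (s * B 0) = s * (B 0 * B 0) := by ring
        _ = s := by rw [h4, mul_one]
  have key : (ds (ℓ * M) (fun n => B n * ζ (n / ℓ)) ε s : ℝ) = ℓ * ds M ζ ε' (s * B 0) := by
    unfold ds
    rw [← Finset.sum_boole, ← Finset.sum_boole, sum_split]
    have h1 : ∀ m ∈ range ℓ, (∑ f ∈ range M,
        if (fun n => B n * ζ (n / ℓ)) (ℓ * f + m) * ε ^ (ℓ * f + m) ≠ s then (1 : ℝ) else 0) =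
        ∑ f ∈ range M, if ζ f * ε' ^ f ≠ s * B 0 then (1 : ℝ) else 0 := by
      intro m hm
      refine sum_congr rfl fun f _ => ?_
      simp only [hiff m f (mem_range.1 hm)]
    rw [sum_congr rfl h1, sum_const, card_range, nsmul_eq_mul]
  exact_mod_cast key

theorem dg_geom_mul {B ζ : ℕ → ℝ} {ℓ M : ℕ} (hℓ : 1 ≤ ℓ) (hB : ∀ n, B (n + ℓ) = B n)
    (hB1 : ∀ n, PM (B n)) {ε ε' : ℝ} (hε : PM ε)
    (h0 : jn ℓ B ε = 0) (hcons : ε' = ε ^ ℓ) :
    dg (ℓ * M) (fun n => B n * ζ (n / ℓ)) ε = ℓ * dg M ζ ε' := by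
  unfold dg
  rw [ds_geom_mul hℓ hB hB1 hε h0 hcons, ds_geom_mul hℓ hB hB1 hε h0 hcons]
  rcases hB1 0 with h | h
  · rw [h, mul_one, mul_one, Nat.mul_min_mul_left]
  · rw [h, show (1 : ℝ) * -1 = -1 by norm_num, show (-1 : ℝ) * -1 = 1 by norm_num, min_comm,
      Nat.mul_min_mul_left]

theorem run_dg {β : ℕ → ℕ → ℝ} {ℓ : ℕ → ℕ} (hβ : ∀ i n, PM (β i n)) (hℓ : ∀ i, 1 ≤ ℓ i)
    (hper : ∀ i n, β i (n + ℓ i) = β i n) (ε : ℕ → ℝ) (hε : ∀ i, PM (ε i)) (k s : ℕ)
    (hrun : ∀ i, s ≤ i → i < s + k → jn (ℓ i) (β i) (ε i) = 0 ∧ ε (i + 1) = ε i ^ ℓ i) :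
    dg (len ℓ s (k + 1)) (pw β ℓ s (k + 1)) (ε s) =
      len ℓ s k * dg (ℓ (s + k)) (β (s + k)) (ε (s + k)) := by
  induction k generalizing s with
  | zero =>
    have e : pw β ℓ s (0 + 1) = β s := by funext n; simp [pw]
    rw [e, len_one]
    simp [len]
  | succ k ih =>
    have h1 := ih (s + 1) (fun i hi hi' => hrun i (by omega) (by omega))
    obtain ⟨h3, h4⟩ := hrun s le_rfl (by omega)
    have e : pw β ℓ s (k + 1 + 1) = fun n => β s n * pw β ℓ (s + 1) (k + 1) (n / ℓ s) := by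
      funext n; rw [pw]
    have e2 : len ℓ s (k + 1 + 1) = ℓ s * len ℓ (s + 1) (k + 1) := by rw [len]
    have e3 : len ℓ s (k + 1) = ℓ s * len ℓ (s + 1) k := by rw [len]
    rw [e, e2, dg_geom_mul (hℓ s) (hper s) (hβ s) (hε s) h3 h4, h1, e3,
      show s + 1 + k = s + (k + 1) by ring]
    ring

/-- Hamming distance of a block to the geometric patterns (both signs) -/
noncomputable def hg (ℓ : ℕ) (β : ℕ → ℝ) : ℕ := min (dg ℓ β 1) (dg ℓ β (-1))

theorem hg_le {ℓ : ℕ} {β : ℕ → ℝ} {ε : ℝ} (hε : PM ε) : hg ℓ β ≤ dg ℓ β ε := by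
  unfold hg
  rcases hε with rfl | rfl
  · exact min_le_left _ _
  · exact min_le_right _ _

theorem hg_zero {ℓ : ℕ} {β : ℕ → ℝ} (hβ : ∀ n, PM (β n)) {ε : ℝ} (hε : PM ε)
    (h0 : jn ℓ β ε = 0) : hg ℓ β = 0 := by
  classical
  have h1 : ds ℓ β ε (β 0) = 0 := by
    unfold ds
    rw [card_eq_zero, filter_eq_empty_iff]
    intro n hn
    push Not
    rw [geom_of_jn h0 n (mem_range.1 hn)]
    have := (hε.pow n).sq
    calc _ = (ε ^ n * ε ^ n) * β 0 := by ring
      _ = _ := by rw [this, one_mul]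
  have h2 := (hg_le (ℓ := ℓ) (β := β) hε).trans (dg_le_ds ℓ β ε (hβ 0))
  omega

/-- The general theorem on sign blocks. -/
theorem orth_full {β : ℕ → ℕ → ℝ} {ℓ : ℕ → ℕ} {η : ℕ → ℝ} (hβ : ∀ i n, PM (β i n))
    (hℓ : ∀ i, 2 ≤ ℓ i) (hper : ∀ i n, β i (n + ℓ i) = β i n)
    (hcond : ¬ Summable (dd β ℓ) ∨ (∃ D, ∀ i, dm (ℓ i) (β i) ≤ D) ∨
      ¬ Summable fun i => ((hg (ℓ i) (β i) : ℝ) / ℓ i) / lg (dm (ℓ i) (β i)))
    (h : Lev β ℓ η) : Orth ℓ η := by
  classical
  have hℓ1 : ∀ i, 1 ≤ ℓ i := fun i => by have := hℓ i; omega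
  rcases hcond with hcond | hcond
  · exact orth_of_mix hβ hℓ1 hper (mixA hℓ hper hβ hcond) h
  set ε : ℕ → ℝ := fun i => ms (ℓ i) (β i) with hε
  have hεpm : ∀ i, PM (ε i) := fun i => ms_pm _ _
  set Br : ℕ → Prop := fun i => jn (ℓ i) (β i) (ε i) ≠ 0 ∨ ε (i + 1) ≠ ε i ^ ℓ i with hBr
  by_cases hfin : ∃ J, ∀ i, J ≤ i → ¬ Br i
  · -- eventually consistent geometric
    obtain ⟨J, hJ⟩ := hfin
    have hJ1 : ∀ i, J ≤ i → jn (ℓ i) (β i) (ε i) = 0 := by
      intro i hi
      by_contra hcon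
      exact hJ i hi (Or.inl hcon)
    have hJ2 : ∀ i, J ≤ i → ε (i + 1) = ε i ^ ℓ i := by
      intro i hi
      by_contra hcon
      exact hJ i hi (Or.inr hcon)
    refine orth_of_ap hβ hℓ hper ε hεpm J 0 hJ2 (fun i hi => ?_) (fun _ => 0) (fun i hi => ?_) ?_ h
    · have := hJ1 i hi
      unfold jn at this
      exact this.le
    · refine ⟨β i 0, hβ i 0, ?_⟩
      rw [Nat.le_zero, card_eq_zero, filter_eq_empty_iff]
      intro n hn
      push Not
      rw [geom_of_jn (hJ1 i hi) n (mem_range.1 hn)]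
      have := ((hεpm i).pow n).sq
      calc _ = (ε i ^ n * ε i ^ n) * β i 0 := by ring
        _ = _ := by rw [this, one_mul]
    · simp [summable_zero]
  · push Not at hfin
    -- next break
    have hex : ∀ i, ∃ m, i ≤ m ∧ Br m := hfin
    set nx : ℕ → ℕ := fun i => Nat.find (hex i) with hnx
    have hnx1 : ∀ i, i ≤ nx i := fun i => (Nat.find_spec (hex i)).1
    have hnx2 : ∀ i, Br (nx i) := fun i => (Nat.find_spec (hex i)).2
    have hnx3 : ∀ i m, i ≤ m → m < nx i → ¬ Br m := by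
      intro i m hm1 hm2 hcon
      exact Nat.find_min (hex i) hm2 ⟨hm1, hcon⟩
    -- group boundaries
    let n : ℕ → ℕ := fun j => Nat.rec 0 (fun _ x => nx x + 1) j
    have hn0 : n 0 = 0 := rfl
    have hnS : ∀ j, n (j + 1) = nx (n j) + 1 := fun j => rfl
    have hnmono : StrictMono n := strictMono_nat_of_lt_succ fun j => by
      rw [hnS]; have := hnx1 (n j); omega
    -- the new blocks
    set B := rb β ℓ n with hB
    set LB := rl ℓ n with hLB
    have hBpm : ∀ j m, PM (B j m) := fun j m => pw_pm β ℓ hβ _ _ _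
    have hBper : ∀ j m, B j (m + LB j) = B j m := fun j m => pw_per β ℓ hℓ1 hper _ _ _
    have hLB2 : ∀ j, 2 ≤ LB j := fun j => rl_ge ℓ hℓ n hnmono j
    have hLB1 : ∀ j, 1 ≤ LB j := fun j => by have := hLB2 j; omega
    have hlev := lev_regroup h n hnmono hn0
    set E : ℕ → ℝ := fun j => ε (n j) with hE
    have hEpm : ∀ j, PM (E j) := fun j => hεpm _
    have hk : ∀ j, n (j + 1) - n j = (nx (n j) - n j) + 1 := by
      intro j; rw [hnS]; have := hnx1 (n j); omega
    have hrunj : ∀ j i, n j ≤ i → i < n j + (nx (n j) - n j) →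
        jn (ℓ i) (β i) (ε i) = 0 ∧ ε (i + 1) = ε i ^ ℓ i := by
      intro j i hi hi'
      have h3 := hnx3 (n j) i hi (by omega)
      rw [hBr] at h3
      simp only at h3
      push Not at h3
      exact h3
    have hadd : ∀ j, n j + (nx (n j) - n j) = nx (n j) := by
      intro j; have := hnx1 (n j); omega
    -- structure of the new blocks
    have hblk : ∀ j, jn (LB j) (B j) (E j) = jn (ℓ (nx (n j))) (β (nx (n j))) (ε (nx (n j))) ∧
        E j ^ LB j = ε (nx (n j)) ^ ℓ (nx (n j)) := by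
      intro j
      have h2 := run_block hβ hℓ1 hper ε hεpm (nx (n j) - n j) (n j) (hrunj j)
      rw [hadd] at h2
      rw [hB, hLB, hE]
      unfold rb rl
      rw [hk]
      exact h2
    have hblkdg : ∀ j, dg (LB j) (B j) (E j) = len ℓ (n j) (nx (n j) - n j) *
        dg (ℓ (nx (n j))) (β (nx (n j))) (ε (nx (n j))) := by
      intro j
      have h2 := run_dg hβ hℓ1 hper ε hεpm (nx (n j) - n j) (n j) (hrunj j)
      rw [hadd] at h2
      rw [hB, hLB, hE]
      unfold rb rl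
      rw [hk]
      exact h2
    have hLBlen : ∀ j, LB j = len ℓ (n j) (nx (n j) - n j) * ℓ (nx (n j)) := by
      intro j
      rw [hLB]
      unfold rl
      rw [hk, len_succ', hadd]
    have hbreak : ∀ j, jn (LB j) (B j) (E j) ≠ 0 ∨ E (j + 1) ≠ E j ^ LB j := by
      intro j
      obtain ⟨h1, h2⟩ := hblk j
      rw [h1, h2, hE]
      simp only
      rw [hnS]
      exact hnx2 (n j)
    have hjdm : ∀ j, jn (LB j) (B j) (E j) = dm (ℓ (nx (n j))) (β (nx (n j))) := by
      intro j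
      rw [(hblk j).1, hε]
      simp only
      rw [jn_ms (hβ _)]
    have h2B : ∀ j, 2 * jn (LB j) (B j) (E j) ≤ LB j - 1 := by
      intro j
      rw [(hblk j).1]
      have h1 := two_jn_ms_le (ℓ := ℓ (nx (n j))) (hβ (nx (n j)))
      have h2 : ℓ (nx (n j)) ≤ LB j := by
        rw [hLBlen]
        exact Nat.le_mul_of_pos_left _ (len_pos ℓ hℓ1 _ _)
      rw [hε]
      simp only
      omega
    by_cases hsum : Summable fun j => ((jn (LB j) (B j) (E j) : ℝ) + 1) / LB j
    · -- slow regime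
      by_cases hsg : Summable fun j => gq B LB E j / lg (jn (LB j) (B j) (E j))
      · -- only possible if the defects are bounded
        rcases hcond with ⟨D, hD⟩ | hcond
        · have hDB : ∀ j, jn (LB j) (B j) (E j) ≤ D := fun j => by
            rw [hjdm]; exact hD _
          refine orth_regroup n hnmono hn0 (orth_of_summable hBpm hLB2 hBper E hEpm D hDB ?_ hlev)
          refine Summable.of_nonneg_of_le (gq_nonneg B LB E) (fun j => ?_) (hsg.mul_left (lg D : ℝ))
          have h1 : (0 : ℝ) < lg (jn (LB j) (B j) (E j)) := by exact_mod_cast lg_pos _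
          have h2 : ((lg (jn (LB j) (B j) (E j)) : ℕ) : ℝ) ≤ lg D := by
            exact_mod_cast lg_mono (hDB j)
          rw [← mul_div_assoc, le_div_iff₀ h1, mul_comm]
          exact mul_le_mul_of_nonneg_right h2 (gq_nonneg B LB E j)
        · exfalso
          apply hcond
          have hinj : Function.Injective fun j => nx (n j) := by
            intro a b hab
            simp only at hab
            have hab2 : n (a + 1) = n (b + 1) := by rw [hnS, hnS, hab]
            have hab3 : a + 1 = b + 1 := hnmono.injective hab2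
            omega
          rw [← hinj.summable_iff]
          · refine Summable.of_nonneg_of_le (fun j => ?_) (fun j => ?_) hsg
            · simp only [Function.comp]; positivity
            · simp only [Function.comp]
              rw [hjdm]
              have hlpos : (0 : ℝ) < lg (dm (ℓ (nx (n j))) (β (nx (n j)))) := by
                exact_mod_cast lg_pos _
              apply div_le_div_of_nonneg_right _ hlpos.le
              unfold gq
              have hℓR : (0 : ℝ) < ℓ (nx (n j)) := by exact_mod_cast hℓ1 _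
              split_ifs with hc
              · rw [hblkdg, hLBlen]
                have hlen : (0 : ℝ) < len ℓ (n j) (nx (n j) - n j) := by
                  exact_mod_cast len_pos ℓ hℓ1 _ _
                push_cast
                rw [mul_div_mul_left _ _ hlen.ne']
                apply div_le_div_of_nonneg_right _ hℓR.le
                exact_mod_cast hg_le (hεpm _)
              · rw [div_le_one hℓR]
                exact_mod_cast (hg_le pm_one).trans (dg_le _ _ _)
          · intro i hi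
            have hnb : jn (ℓ i) (β i) (ε i) = 0 := by
              by_contra hcon
              apply hi
              -- i is a break; find its group
              have hbr : Br i := Or.inl hcon
              -- the largest j with n j ≤ i
              have hex2 : ∃ j, i < n (j + 1) := ⟨i, by
                have := hnmono.id_le (i + 1)
                simp only [id] at this
                omega⟩
              refine ⟨Nat.find hex2, ?_⟩
              have h1 := Nat.find_spec hex2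
              have h2 : n (Nat.find hex2) ≤ i := by
                rcases Nat.eq_zero_or_pos (Nat.find hex2) with h0 | h0
                · rw [h0, hn0]; omega
                · have h4 := Nat.find_min hex2 (Nat.sub_lt h0 one_pos)
                  have h5 : Nat.find hex2 - 1 + 1 = Nat.find hex2 := by omega
                  rw [h5] at h4
                  omega
              rw [hnS] at h1
              simp only
              rcases Nat.lt_or_ge i (nx (n (Nat.find hex2))) with h3 | h3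
              · exact absurd hbr (hnx3 _ i h2 h3)
              · omega
            rw [hg_zero (hβ i) (hεpm i) hnb]
            simp
      · exact orth_regroup n hnmono hn0
          (orth_of_mix hBpm hLB1 hBper (mixB hBpm hLB2 hBper E hEpm hsum hsg) hlev)
    · have hdd : ¬ Summable (dd B LB) := by
        intro hs
        apply hsum
        refine Summable.of_nonneg_of_le (fun j => by positivity) (fun j => ?_) (hs.mul_left 5)
        have h1 := dd_break (hBpm j) (hBpm (j + 1)) (hLB2 j) (hLB2 (j + 1)) (hBper j) (hEpm j)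
          (hEpm (j + 1)) (h2B j) (h2B (j + 1)) (hbreak j)
        have h2 : LB (j + 1) * jn (LB j) (B j) (E j) ≤
            dm (LB j * LB (j + 1)) (fun m => B j m * B (j + 1) (m / LB j)) := by
          have hadd := jc_add (ℓ := LB j) (hBpm j) (hEpm j)
          have h2Bj := h2B j
          have hjnj := jn_eq_jc (ℓ := LB j) (hBpm j) (hEpm j)
          have hm1 := jc_mul (M := LB (j + 1)) (hLB1 j) (hBper j) (hBpm (j + 1)) (E j)
          have hm2 := jc_mul (M := LB (j + 1)) (hLB1 j) (hBper j) (hBpm (j + 1)) (-E j)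
          have hle : jn (LB j) (B j) (E j) ≤ jc (LB j) (B j) (E j) := by omega
          have hle2 : LB (j + 1) * jn (LB j) (B j) (E j) ≤ LB (j + 1) * jc (LB j) (B j) (E j) :=
            Nat.mul_le_mul_left _ hle
          rw [← hjnj] at hm2
          unfold dm
          rcases hEpm j with he | he
          · rw [he] at hm1 hm2 hle2 ⊢
            exact le_min (hle2.trans hm1) hm2
          · rw [he] at hm1 hm2 hle2 ⊢
            rw [neg_neg] at hm2
            exact le_min hm2 (hle2.trans hm1)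
        have e1 : pw B LB j 2 = fun m => B j m * B (j + 1) (m / LB j) := by
          funext m; simp [pw]
        have e2 : len LB j 2 = LB j * LB (j + 1) := by simp [len]
        have hb : (0 : ℝ) < LB j := by exact_mod_cast hLB1 j
        have hc : (0 : ℝ) < LB (j + 1) := by exact_mod_cast hLB1 (j + 1)
        unfold dd
        rw [e1, e2]
        have h1R : (LB (j + 1) : ℝ) * (jn (LB j) (B j) (E j) + 1) ≤
            5 * (dm (LB j * LB (j + 1)) (fun m => B j m * B (j + 1) (m / LB j)) : ℝ) := by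
          have : LB (j + 1) * (jn (LB j) (B j) (E j) + 1) ≤
            5 * dm (LB j * LB (j + 1)) (fun m => B j m * B (j + 1) (m / LB j)) := by
            rw [Nat.mul_add]; omega
          exact_mod_cast this
        rw [← mul_div_assoc, div_le_div_iff₀ hb (by push_cast; positivity)]
        push_cast
        calc ((jn (LB j) (B j) (E j) : ℝ) + 1) * ((LB j : ℝ) * LB (j + 1)) =
            (LB (j + 1) * (jn (LB j) (B j) (E j) + 1)) * LB j := by ring
          _ ≤ _ := mul_le_mul_of_nonneg_right h1R hb.le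
      exact orth_regroup n hnmono hn0
        (orth_of_mix hBpm hLB1 hBper (mixA hLB2 hBper hBpm hdd) hlev)

end Pool.Agent.Helper51.Mo
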