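import Mathlib
import Pool.Agent.Helper51.MoDefs
import Pool.Agent.Helper51.MoRegroup
open Filter Topology Finset
open scoped ArithmeticFunction.Moebius

/-! From words to sign functions; the level structure of the points of `X_x`. -/

namespace Pool.Agent.Helper51.Morse
open Pool.Agent.Helper51.Mo

/-- sign of a letter -/
def sg (a : Bool) : ℝ := if a then -1 else 1

theorem sg_pm (a : Bool) : PM (sg a) := by
  cases a
  · left; simp [sg]
  · right; simp [sg]

theorem sg_xor (a b : Bool) : sg (xor a b) = sg a * sg b := by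
  cases a <;> cases b <;> simp [sg]

theorem sg_inj {a b : Bool} (h : sg a = sg b) : a = b := by
  cases a <;> cases b <;> simp [sg] at h ⊢ <;> norm_num at h

theorem addLetter_length (B : Word) (c : Bool) : (addLetter B c).length = B.length := by
  simp [addLetter]

theorem prod_length (B C : Word) : (prod B C).length = B.length * C.length := by
  induction C with
  | nil => simp [prod]
  | cons c C ih =>
    have : prod B (c :: C) = addLetter B c ++ prod B C := by simp [prod]
    rw [this, List.length_append, addLetter_length, ih, List.length_cons]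
    ring

theorem prod_getElem? (B C : Word) (k : ℕ) (hk : k < B.length * C.length) :
    (prod B C)[k]? = some (xor (B.getD (k % B.length) false) (C.getD (k / B.length) false)) := by
  induction C generalizing k with
  | nil => simp at hk
  | cons c C ih =>
    have hB : 0 < B.length := by
      by_contra hcon
      have : B.length = 0 := by omega
      rw [this] at hk; omega
    have h1 : prod B (c :: C) = addLetter B c ++ prod B C := by simp [prod]
    rw [h1]
    rcases lt_or_ge k B.length with hlt | hge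
    · rw [List.getElem?_append_left (by rw [addLetter_length]; exact hlt), Nat.mod_eq_of_lt hlt,
        Nat.div_eq_of_lt hlt]
      simp [addLetter, List.getD, hlt]
    · rw [List.getElem?_append_right (by rw [addLetter_length]; exact hge), addLetter_length]
      obtain ⟨m, rfl⟩ := Nat.exists_eq_add_of_le hge
      rw [Nat.add_sub_cancel_left]
      have hm : m < B.length * C.length := by
        rw [List.length_cons] at hk
        have : B.length * (C.length + 1) = B.length + B.length * C.length := by ring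
        omega
      rw [ih m hm, Nat.add_mod_left, Nat.add_div_left _ hB]
      simp [List.getD]

/-- sign function of a word -/
noncomputable def sf (w : Word) (n : ℕ) : ℝ := sg (w.getD (n % w.length) false)

theorem sf_pm (w : Word) (n : ℕ) : PM (sf w n) := sg_pm _

theorem sf_per (w : Word) (n : ℕ) : sf w (n + w.length) = sf w n := by
  unfold sf; rw [Nat.add_mod_right]

theorem sf_prod (B C : Word) (n : ℕ) (hB : 0 < B.length) (hC : 0 < C.length) :
    sf (prod B C) n = sf B n * sf C (n / B.length) := by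
  unfold sf
  rw [prod_length]
  have hlt : n % (B.length * C.length) < B.length * C.length := Nat.mod_lt _ (Nat.mul_pos hB hC)
  have h1 := prod_getElem? B C _ hlt
  rw [List.getD, h1, Option.getD_some, sg_xor]
  congr 2
  · rw [Nat.mod_mul_right_mod]
  · congr 1
    rw [Nat.mod_mul_right_div_self]

variable {b : ℕ → Word} {x : ℕ → Bool}

/-- sign blocks -/
noncomputable def sb (b : ℕ → Word) (i n : ℕ) : ℝ := sf (b i) n
/-- lengths -/
def sl (b : ℕ → Word) (i : ℕ) : ℕ := (b i).length

theorem fprod_length (b : ℕ → Word) (n : ℕ) : (fprod b n).length = len (sl b) 0 (n + 1) := by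
  induction n with
  | zero => simp [fprod, len, sl]
  | succ n ih =>
    rw [fprod, prod_length, ih, len_succ' (sl b) 0 (n + 1), zero_add]
    rfl

theorem sf_fprod (b : ℕ → Word) (hb : ∀ i, 2 ≤ (b i).length) (n k : ℕ) :
    sf (fprod b n) k = pw (sb b) (sl b) 0 (n + 1) k := by
  have hℓ : ∀ i, 1 ≤ sl b i := fun i => by have := hb i; unfold sl; omega
  induction n generalizing k with
  | zero => simp [fprod, pw, sb]
  | succ n ih =>
    have h1 : 0 < (fprod b n).length := by
      rw [fprod_length]; exact len_pos _ hℓ _ _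
    rw [fprod, sf_prod _ _ _ h1 (by have := hb (n + 1); omega), ih, fprod_length]
    rw [pw_add (sb b) (sl b) 0 (n + 1) 1, pw_one, zero_add]
    rfl

theorem sf_fprod_x (hx : IsMorse b x) (n k : ℕ) (hk : k < (fprod b n).length) :
    sf (fprod b n) k = sg (x k) := by
  unfold sf
  rw [Nat.mod_eq_of_lt hk, List.getD, hx.pref n k hk]
  rfl

/-- The sign sequence of `x` at all levels. -/
theorem sg_x_eq (hx : IsMorse b x) (n : ℕ) {N : ℕ} (hN : n < len (sl b) 0 (N + 1)) :
    sg (x n) = pw (sb b) (sl b) 0 (N + 1) n := by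
  rw [← sf_fprod b hx.two_le, sf_fprod_x hx N n (by rw [fprod_length]; exact hN)]

theorem sg_x_level (hx : IsMorse b x) (i n : ℕ) :
    sg (x n) = pw (sb b) (sl b) 0 i n *
      (sg (x (len (sl b) 0 i * (n / len (sl b) 0 i))) * pw (sb b) (sl b) 0 i 0) := by
  have hℓ2 : ∀ i, 2 ≤ sl b i := hx.two_le
  have hℓ : ∀ i, 1 ≤ sl b i := fun i => by have := hℓ2 i; omega
  have hper : ∀ i n, sb b i (n + sl b i) = sb b i n := fun i n => sf_per _ _
  set L := len (sl b) 0 i with hL
  have hLpos : 0 < L := len_pos _ hℓ _ _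
  have hbig : n < len (sl b) 0 (i + n + 1) := by
    calc n < 2 ^ n := Nat.lt_two_pow_self
      _ ≤ 2 ^ (i + n + 1) := Nat.pow_le_pow_right (by norm_num) (by omega)
      _ ≤ _ := two_pow_le_len _ hℓ2 _ _
  have h1 := sg_x_eq hx n hbig
  have h2 := sg_x_eq hx (L * (n / L)) ((Nat.mul_div_le n L).trans_lt hbig)
  rw [show i + n + 1 = i + (n + 1) by ring, pw_add, zero_add, ← hL] at h1 h2
  have e1 : pw (sb b) (sl b) 0 i (L * (n / L)) = pw (sb b) (sl b) 0 i 0 := by
    have := per_mul (pw (sb b) (sl b) 0 i) L (pw_per _ _ hℓ hper 0 i) (n / L) 0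
    rw [zero_add] at this
    exact this
  rw [Nat.mul_div_cancel_left _ hLpos, e1] at h2
  rw [h1, h2]
  have h3 := (pw_pm (sb b) (sl b) (fun i n => sf_pm _ _) 0 i 0).sq
  calc _ = pw (sb b) (sl b) 0 i n * (pw (sb b) (sl b) i (n + 1) (n / L) *
        (pw (sb b) (sl b) 0 i 0 * pw (sb b) (sl b) 0 i 0)) := by rw [h3, mul_one]
    _ = _ := by ring

theorem iterate_shift (y : ℕ → Bool) (m n : ℕ) : (shift^[m] y) n = y (n + m) := by
  induction m generalizing n with
  | zero => rfl
  | succ m ih =>
    rw [Function.iterate_succ_apply', shift, ih]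
    congr 1; ring

/-- closed condition expressing the level structure -/
def levSet (b : ℕ → Word) (i a : ℕ) : Set (ℕ → Bool) :=
  {y | ∀ n m : ℕ, (n + a) / len (sl b) 0 i = (m + a) / len (sl b) 0 i →
    sg (y n) * pw (sb b) (sl b) 0 i (n + a) = sg (y m) * pw (sb b) (sl b) 0 i (m + a)}

theorem levSet_closed (b : ℕ → Word) (i a : ℕ) : IsClosed (levSet b i a) := by
  have : levSet b i a = ⋂ n : ℕ, ⋂ m : ℕ,
      ⋂ (_ : (n + a) / len (sl b) 0 i = (m + a) / len (sl b) 0 i),
      {y | sg (y n) * pw (sb b) (sl b) 0 i (n + a) = sg (y m) * pw (sb b) (sl b) 0 i (m + a)} := by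
    ext y; simp [levSet]
  rw [this]
  refine isClosed_iInter fun n => isClosed_iInter fun m => isClosed_iInter fun _ => ?_
  have hc : ∀ n : ℕ, Continuous fun y : ℕ → Bool => sg (y n) := fun n =>
    (continuous_of_discreteTopology (f := sg)).comp (continuous_apply n)
  exact isClosed_eq ((hc n).mul continuous_const) ((hc m).mul continuous_const)

theorem orbit_levSet (hx : IsMorse b x) (i m : ℕ) :
    shift^[m] x ∈ levSet b i (m % len (sl b) 0 i) := by
  have hℓ2 : ∀ i, 2 ≤ sl b i := hx.two_le
  have hℓ : ∀ i, 1 ≤ sl b i := fun i => by have := hℓ2 i; omega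
  have hper : ∀ i n, sb b i (n + sl b i) = sb b i n := fun i n => sf_per _ _
  set L := len (sl b) 0 i with hL
  have hLpos : 0 < L := len_pos _ hℓ _ _
  intro n k hnk
  rw [← hL] at hnk
  have key : ∀ n : ℕ, sg ((shift^[m] x) n) * pw (sb b) (sl b) 0 i (n + m % L) =
      sg (x (L * ((n + m % L) / L + m / L))) * pw (sb b) (sl b) 0 i 0 := by
    intro n
    rw [iterate_shift, sg_x_level hx i (n + m), ← hL]
    have e1 : n + m = (n + m % L) + L * (m / L) := by
      have := Nat.mod_add_div m L; omega
    have e2 : (n + m) / L = (n + m % L) / L + m / L := by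
      rw [e1, Nat.add_mul_div_left _ _ hLpos]
    have e3 : pw (sb b) (sl b) 0 i (n + m) = pw (sb b) (sl b) 0 i (n + m % L) := by
      conv_lhs => rw [e1]
      rw [per_mul (pw (sb b) (sl b) 0 i) L (pw_per _ _ hℓ hper 0 i)]
    rw [e2, e3]
    have h3 := (pw_pm (sb b) (sl b) (fun i n => sf_pm _ _) 0 i (n + m % L)).sq
    calc _ = (pw (sb b) (sl b) 0 i (n + m % L) * pw (sb b) (sl b) 0 i (n + m % L)) *
          (sg (x (L * ((n + m % L) / L + m / L))) * pw (sb b) (sl b) 0 i 0) := by ring
      _ = _ := by rw [h3, one_mul]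
  rw [key, key, hnk]

/-- Every point of `X_x` has the level structure. -/
theorem lev_of_mem (hx : IsMorse b x) {y : ℕ → Bool} (hy : y ∈ orbitClosure x) :
    Lev (sb b) (sl b) (fun n => sg (y n)) := by
  intro i
  have hℓ2 : ∀ i, 2 ≤ sl b i := hx.two_le
  have hℓ : ∀ i, 1 ≤ sl b i := fun i => by have := hℓ2 i; omega
  set L := len (sl b) 0 i with hL
  have hLpos : 0 < L := len_pos _ hℓ _ _
  have hcl : IsClosed (⋃ a ∈ Finset.range L, levSet b i a) :=
    Set.Finite.isClosed_biUnion (Finset.finite_toSet _) fun a _ => levSet_closed b i a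
  have hsub : orbitClosure x ⊆ ⋃ a ∈ Finset.range L, levSet b i a := by
    unfold orbitClosure
    refine closure_minimal ?_ hcl
    rintro _ ⟨m, rfl⟩
    refine Set.mem_biUnion (x := m % L) ?_ (orbit_levSet hx i m)
    exact Finset.mem_coe.2 (Finset.mem_range.2 (Nat.mod_lt _ hLpos))
  obtain ⟨a, ha, hya⟩ := Set.mem_iUnion₂.1 (hsub hy)
  have haL : a < L := Finset.mem_range.1 ha
  refine ⟨a, haL, fun k => sg (y (L * k - a)) * pw (sb b) (sl b) 0 i (L * k - a + a),
    fun k => (sg_pm _).mul (pw_pm _ _ (fun i n => sf_pm _ _) _ _ _), fun n => ?_⟩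
  have hrep : (L * ((n + a) / L) - a + a) / L = (n + a) / L := by
    rcases Nat.eq_zero_or_pos ((n + a) / L) with h0 | h0
    · rw [h0, mul_zero, Nat.zero_sub, zero_add]
      exact Nat.div_eq_of_lt haL
    · have : a ≤ L * ((n + a) / L) := by
        have : L * 1 ≤ L * ((n + a) / L) := Nat.mul_le_mul_left _ h0
        omega
      rw [Nat.sub_add_cancel this, Nat.mul_div_cancel_left _ hLpos]
  have h1 := hya n (L * ((n + a) / L) - a) (by rw [← hL]; exact hrep.symm)
  simp only
  rw [← h1]
  have h3 := (pw_pm (sb b) (sl b) (fun i n => sf_pm _ _) 0 i (n + a)).sq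
  calc sg (y n) = sg (y n) * (pw (sb b) (sl b) 0 i (n + a) * pw (sb b) (sl b) 0 i (n + a)) := by
        rw [h3, mul_one]
    _ = _ := by ring

/-- defect of a word versus the defect of its sign function -/
theorem defect_eq (w : Word) : dm w.length (sf w) = defect w := by
  classical
  have key : ∀ (s : ℝ) (P : Bool → Bool → Prop) [DecidableRel P],
      (∀ a b, sg b * sg a = s ↔ P a b) →
      jc w.length (sf w) s =
        ((Finset.range (w.length - 1)).filter (fun k => P (w.getD k false) (w.getD (k + 1) false))).card := by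
    intro s P _ hP
    unfold jc
    symm
    refine card_bij (fun k _ => k + 1) ?_ ?_ ?_
    · intro k hk
      obtain ⟨hk1, hk2⟩ := mem_filter.1 hk
      have hk3 := mem_range.1 hk1
      refine mem_filter.2 ⟨Finset.mem_Ico.2 ⟨by omega, by omega⟩, ?_⟩
      rw [Nat.add_sub_cancel]
      unfold sf
      rw [Nat.mod_eq_of_lt (by omega), Nat.mod_eq_of_lt (by omega), hP]
      exact hk2
    · intro a _ b _ hab; omega
    · intro n hn
      obtain ⟨hn1, hn2⟩ := mem_filter.1 hn
      obtain ⟨hn3, hn4⟩ := Finset.mem_Ico.1 hn1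
      obtain ⟨m, rfl⟩ := Nat.exists_eq_add_of_le hn3
      refine ⟨m, mem_filter.2 ⟨mem_range.2 (by omega), ?_⟩, by ring⟩
      rw [show 1 + m = m + 1 by ring] at hn2 hn4
      rw [Nat.add_sub_cancel] at hn2
      unfold sf at hn2
      rw [Nat.mod_eq_of_lt (by omega), Nat.mod_eq_of_lt (by omega), hP] at hn2
      exact hn2
  unfold dm defect same diff
  rw [key 1 (fun a b => a = b) (fun a b => by cases a <;> cases b <;> simp [sg] <;> norm_num),
    key (-1) (fun a b => a ≠ b) (fun a b => by cases a <;> cases b <;> simp [sg] <;> norm_num)]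

theorem sg_odd (k : ℕ) : sg (decide (k % 2 = 1)) = (-1) ^ k := by
  rcases Nat.even_or_odd k with h | h
  · rw [h.neg_one_pow]
    have : ¬ (k % 2 = 1) := by rw [Nat.even_iff] at h; omega
    simp [sg, this]
  · rw [h.neg_one_pow]
    have : k % 2 = 1 := Nat.odd_iff.1 h
    simp [sg, this]

theorem sg_even (k : ℕ) : sg (decide (k % 2 = 0)) = -(-1) ^ k := by
  rcases Nat.even_or_odd k with h | h
  · rw [h.neg_one_pow]
    have : k % 2 = 0 := Nat.even_iff.1 h
    simp [sg, this]
  · rw [h.neg_one_pow]
    have : ¬ (k % 2 = 0) := by rw [Nat.odd_iff] at h; omega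
    simp [sg, this]

theorem ds_eq_hamming (w : Word) (ε s : ℝ) (g : ℕ → Bool)
    (hg : ∀ (k : ℕ) (a : Bool), sg a * ε ^ k = s ↔ a = g k) :
    ds w.length (sf w) ε s = hamming w g := by
  classical
  unfold ds hamming
  congr 1
  refine filter_congr fun n hn => ?_
  unfold sf
  rw [Nat.mod_eq_of_lt (mem_range.1 hn)]
  exact not_congr (hg n _)

theorem hg_eq (w : Word) : hg w.length (sf w) = geomDist w := by
  have hsg : ∀ a c : Bool, sg a = sg c ↔ a = c := fun a c => ⟨sg_inj, fun h => by rw [h]⟩
  unfold hg dg geomDist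
  rw [ds_eq_hamming w 1 1 (fun _ => false) (fun k a => by
      rw [one_pow, mul_one, ← hsg]; simp [sg]),
    ds_eq_hamming w 1 (-1) (fun _ => true) (fun k a => by
      rw [one_pow, mul_one, ← hsg]; simp [sg]),
    ds_eq_hamming w (-1) 1 (fun k => decide (k % 2 = 1)) (fun k a => by
      rw [← hsg, sg_odd]
      have h1 : ((-1 : ℝ) ^ k) * (-1) ^ k = 1 := by rw [← mul_pow]; norm_num
      constructor
      · intro h
        calc sg a = sg a * ((-1) ^ k * (-1) ^ k) := by rw [h1, mul_one]
          _ = (sg a * (-1) ^ k) * (-1) ^ k := by ring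
          _ = _ := by rw [h, one_mul]
      · intro h; rw [h, h1]),
    ds_eq_hamming w (-1) (-1) (fun k => decide (k % 2 = 0)) (fun k a => by
      rw [← hsg, sg_even]
      have h1 : ((-1 : ℝ) ^ k) * (-1) ^ k = 1 := by rw [← mul_pow]; norm_num
      constructor
      · intro h
        calc sg a = sg a * ((-1) ^ k * (-1) ^ k) := by rw [h1, mul_one]
          _ = (sg a * (-1) ^ k) * (-1) ^ k := by ring
          _ = _ := by rw [h]; ring
      · intro h
        rw [h]
        calc -(-1 : ℝ) ^ k * (-1) ^ k = -((-1) ^ k * (-1) ^ k) := by ring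
          _ = _ := by rw [h1])]

theorem lg_le (D : ℕ) : (lg D : ℝ) ≤ 6 * (1 + Real.log (1 + D)) := by
  unfold lg
  have hD0 : (0 : ℝ) ≤ D := Nat.cast_nonneg _
  have h1 : (Nat.clog 2 (16 * (D + 1)) : ℝ) ≤ Real.logb 2 (16 * (D + 1)) + 1 := by
    have h2 := Nat.ceil_lt_add_one (a := Real.logb 2 ((16 * (D + 1) : ℕ) : ℝ)) (by
      apply Real.logb_nonneg (by norm_num)
      push_cast; linarith)
    have h5 := Real.natCeil_logb_natCast 2 (16 * (D + 1))
    rw [show ((2 : ℕ) : ℝ) = 2 by norm_num] at h5
    rw [h5] at h2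
    push_cast at h2
    exact h2.le
  have h3 : Real.logb 2 (16 * (D + 1)) = 4 + Real.logb 2 (1 + D) := by
    rw [Real.logb_mul (by norm_num) (by positivity)]
    congr 1
    · rw [show (16 : ℝ) = 2 ^ (4 : ℕ) by norm_num, Real.logb_pow, Real.logb_self_eq_one (by norm_num)]
      norm_num
    · rw [add_comm]
  have h4 : Real.logb 2 (1 + D) ≤ 2 * Real.log (1 + D) := by
    unfold Real.logb
    have hl2 : (1 / 2 : ℝ) ≤ Real.log 2 := by
      have := Real.log_two_gt_d9; linarith
    have hlD : 0 ≤ Real.log (1 + (D : ℝ)) := Real.log_nonneg (by linarith)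
    rw [div_le_iff₀ (by linarith)]
    nlinarith
  have hlD : 0 ≤ Real.log (1 + (D : ℝ)) := Real.log_nonneg (by linarith)
  rw [h3] at h1
  linarith

end Pool.Agent.Helper51.Morse
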