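import Mathlib
import Pool.Agent.Helper51.MoChar
import Pool.Agent.Helper51.MoWord
open Filter Topology Finset
open scoped ArithmeticFunction.Moebius

/-! From characters to all continuous functions, and the final theorem. -/

namespace Pool.Agent.Helper51.Morse
open Pool.Agent.Helper51.Mo

instance compact_orbitClosure (x : ℕ → Bool) : CompactSpace (orbitClosure x) :=
  isCompact_iff_compactSpace.1 isClosed_closure.isCompact

/-- the coordinate characters on `X_x` -/
noncomputable def chi (x : ℕ → Bool) (c : ℕ) : C(orbitClosure x, ℂ) where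
  toFun y := ((sg (y.1 c) : ℝ) : ℂ)
  continuous_toFun := by
    have h1 : Continuous fun y : orbitClosure x => y.1 c :=
      (continuous_apply c).comp continuous_subtype_val
    exact Complex.continuous_ofReal.comp ((continuous_of_discreteTopology (f := sg)).comp h1)

/-- The subalgebra generated by the characters. -/
noncomputable def chiAlg (x : ℕ → Bool) : StarSubalgebra ℂ C(orbitClosure x, ℂ) where
  toSubalgebra := Algebra.adjoin ℂ (Set.range (chi x))
  star_mem' := by
    intro f hf
    have hstar : star (Set.range (chi x)) = Set.range (chi x) := by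
      have hs : ∀ c, star (chi x c) = chi x c := by
        intro c
        ext y
        simp [chi]
      ext g
      constructor
      · intro hg
        obtain ⟨c, hc⟩ := Set.mem_star.1 hg
        refine ⟨c, ?_⟩
        rw [← star_star g, ← hc, hs]
      · rintro ⟨c, rfl⟩
        rw [Set.mem_star, hs]
        exact ⟨c, rfl⟩
    have h1 : star f ∈ star (Algebra.adjoin ℂ (Set.range (chi x))) := by
      rw [Subalgebra.mem_star_iff, star_star]; exact hf
    rw [Subalgebra.star_adjoin_comm, hstar] at h1
    exact h1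

theorem chiAlg_dense (x : ℕ → Bool) : (chiAlg x).topologicalClosure = ⊤ := by
  apply ContinuousMap.starSubalgebra_topologicalClosure_eq_top_of_separatesPoints
  intro y z hyz
  have h1 : ∃ c, y.1 c ≠ z.1 c := by
    by_contra hcon
    push Not at hcon
    exact hyz (Subtype.ext (funext hcon))
  obtain ⟨c, hc⟩ := h1
  refine ⟨chi x c, ⟨chi x c, ?_, rfl⟩, ?_⟩
  · exact Algebra.subset_adjoin ⟨c, rfl⟩
  · intro h2
    apply hc
    apply sg_inj
    have h3 : ((sg (y.1 c) : ℝ) : ℂ) = ((sg (z.1 c) : ℝ) : ℂ) := h2
    exact_mod_cast h3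

theorem iterate_morseMap (x : ℕ → Bool) (y : orbitClosure x) (n : ℕ) :
    ((morseMap x)^[n] y).1 = shift^[n] y.1 := by
  induction n with
  | zero => rfl
  | succ n ih =>
    rw [Function.iterate_succ_apply', Function.iterate_succ_apply', ← ih]
    rfl

/-- Averages against the Moebius function. -/
noncomputable def avg (x : ℕ → Bool) (f : C(orbitClosure x, ℂ)) (y : orbitClosure x) (N : ℕ) : ℂ :=
  (∑ n ∈ Finset.Icc 1 N, f ((morseMap x)^[n] y) * (μ n : ℂ)) / (N : ℂ)

theorem avg_bound (x : ℕ → Bool) (f : C(orbitClosure x, ℂ)) (y : orbitClosure x) (N : ℕ)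
    {ε : ℝ} (hε : 0 ≤ ε) (hf : ∀ z, ‖f z‖ ≤ ε) : ‖avg x f y N‖ ≤ ε := by
  unfold avg
  rw [norm_div, Complex.norm_natCast]
  rcases Nat.eq_zero_or_pos N with h0 | h0
  · rw [h0]; simpa using hε
  · have hN : (0 : ℝ) < N := by exact_mod_cast h0
    rw [div_le_iff₀ hN]
    refine (norm_sum_le _ _).trans ?_
    calc _ ≤ ∑ n ∈ Finset.Icc 1 N, ε := by
          refine sum_le_sum fun n _ => ?_
          rw [norm_mul]
          have h1 : ‖(μ n : ℂ)‖ ≤ 1 := by
            rw [Complex.norm_intCast]
            exact_mod_cast ArithmeticFunction.abs_moebius_le_one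
          calc _ ≤ ε * 1 := mul_le_mul (hf _) h1 (norm_nonneg _) hε
            _ = ε := mul_one _
      _ = ε * N := by simp [mul_comm]

theorem avg_add (x : ℕ → Bool) (f g : C(orbitClosure x, ℂ)) (y : orbitClosure x) (N : ℕ) :
    avg x (f + g) y N = avg x f y N + avg x g y N := by
  unfold avg
  rw [← add_div, ← sum_add_distrib]
  congr 1
  refine sum_congr rfl fun n _ => ?_
  rw [ContinuousMap.add_apply]; ring

theorem avg_smul (x : ℕ → Bool) (c : ℂ) (f : C(orbitClosure x, ℂ)) (y : orbitClosure x) (N : ℕ) :
    avg x (c • f) y N = c * avg x f y N := by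
  unfold avg
  rw [← mul_div_assoc, mul_sum]
  congr 1
  refine sum_congr rfl fun n _ => ?_
  rw [ContinuousMap.smul_apply, smul_eq_mul]; ring

/-- Moebius disjointness from orthogonality of the characters. -/
theorem disjoint_of_chars (x : ℕ → Bool)
    (hchar : ∀ y ∈ orbitClosure x, ∀ s : List ℕ,
      Tendsto (fun N : ℕ => (∑ n ∈ Finset.Icc 1 N, (μ n : ℝ) *
        (s.map fun c => sg (y (n + c))).prod) / (N : ℝ)) atTop (𝓝 0)) :
    MoebiusDisjoint (morseMap x) := by
  intro f y
  change Tendsto (fun N => avg x f y N) atTop (𝓝 0)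
  -- the algebra
  have hA : ∀ g ∈ chiAlg x, Tendsto (fun N => avg x g y N) atTop (𝓝 0) := by
    intro g hg
    have hg1 : g ∈ Submodule.span ℂ (Submonoid.closure (Set.range (chi x)) : Set _) := by
      rw [← Algebra.adjoin_eq_span]
      exact hg
    refine Submodule.span_induction (p := fun g _ => Tendsto (fun N => avg x g y N) atTop (𝓝 0))
      ?_ ?_ ?_ ?_ hg1
    · intro g hg
      obtain ⟨l, hl, rfl⟩ := Submonoid.exists_list_of_mem_closure hg
      -- l is a list of characters
      obtain ⟨s, hs⟩ : ∃ s : List ℕ, l = s.map (chi x) := by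
        clear hg
        induction l with
        | nil => exact ⟨[], rfl⟩
        | cons g l ih =>
          obtain ⟨c, hc⟩ := hl g List.mem_cons_self
          obtain ⟨s, hs⟩ := ih fun y hy => hl y (List.mem_cons_of_mem _ hy)
          exact ⟨c :: s, by rw [List.map_cons, hs, hc]⟩
      have h1 := tendsto_complex_of_real _ (hchar y.1 y.2 s)
      refine h1.congr fun N => ?_
      unfold avg
      push_cast
      congr 1
      refine sum_congr rfl fun n _ => ?_
      rw [mul_comm]
      congr 1
      rw [hs]
      clear hs hl hg h1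
      induction s with
      | nil => simp
      | cons c s ih =>
        rw [List.map_cons, List.prod_cons, List.map_cons, List.prod_cons, ContinuousMap.mul_apply,
          ← ih]
        push_cast
        congr 1
        change ((sg (y.1 (n + c)) : ℝ) : ℂ) = ((sg (((morseMap x)^[n] y).1 c) : ℝ) : ℂ)
        rw [iterate_morseMap, iterate_shift, add_comm n c]
    · refine tendsto_const_nhds.congr fun N => ?_
      unfold avg; simp
    · intro g g' _ _ hg hg'
      simp only [avg_add]
      simpa using hg.add hg'
    · intro c g _ hg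
      simp only [avg_smul]
      simpa using hg.const_mul c
  rw [Metric.tendsto_atTop]
  intro ε hε
  have hf : f ∈ (chiAlg x).topologicalClosure := by
    rw [chiAlg_dense]; trivial
  have hf2 : f ∈ closure ((chiAlg x : StarSubalgebra ℂ C(orbitClosure x, ℂ)) :
      Set C(orbitClosure x, ℂ)) := hf
  obtain ⟨g, hg, hfg⟩ := Metric.mem_closure_iff.1 hf2 (ε / 2) (half_pos hε)
  obtain ⟨N₀, hN₀⟩ := (Metric.tendsto_atTop.1 (hA g hg)) (ε / 2) (half_pos hε)
  refine ⟨N₀, fun N hN => ?_⟩
  have h1 := hN₀ N hN
  rw [dist_zero_right] at h1 ⊢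
  have h2 : avg x f y N = avg x (f - g) y N + avg x g y N := by
    rw [← avg_add, sub_add_cancel]
  have h3 : ‖avg x (f - g) y N‖ ≤ dist f g := by
    apply avg_bound x (f - g) y N dist_nonneg
    intro z
    rw [ContinuousMap.sub_apply, ← dist_eq_norm]
    exact ContinuousMap.dist_apply_le_dist z
  rw [h2]
  refine (norm_add_le _ _).trans_lt ?_
  linarith

/-- The final theorem. -/
theorem main (b : ℕ → Word) (x : ℕ → Bool) (hx : IsMorse b x)
    (h : (¬ Summable fun i => (defect (prod (b i) (b (i + 1))) : ℝ) /
        (prod (b i) (b (i + 1))).length) ∨ (∃ D, ∀ i, defect (b i) ≤ D) ∨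
      (¬ Summable fun i => (geomDist (b i) : ℝ) / (b i).length /
        (1 + Real.log (1 + defect (b i))))) :
    MoebiusDisjoint (morseMap x) := by
  have hℓ : ∀ i, 2 ≤ sl b i := hx.two_le
  have hℓ1 : ∀ i, 1 ≤ sl b i := fun i => by have := hℓ i; omega
  have hper : ∀ i n, sb b i (n + sl b i) = sb b i n := fun i n => sf_per _ _
  have hβ : ∀ i n, PM (sb b i n) := fun i n => sf_pm _ _
  apply disjoint_of_chars
  intro y hy s
  have hlev := lev_of_mem hx hy
  refine char_orth hβ hℓ hper hlev (orth_full hβ hℓ hper ?_ hlev) s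
  have hdm : ∀ i, dm (sl b i) (sb b i) = defect (b i) := fun i => defect_eq (b i)
  have hhg : ∀ i, hg (sl b i) (sb b i) = geomDist (b i) := fun i => hg_eq (b i)
  rcases h with h | ⟨D, hD⟩ | h
  · left
    intro hs
    apply h
    refine hs.congr fun i => ?_
    have e1 : len (sl b) i 2 = (prod (b i) (b (i + 1))).length := by
      rw [prod_length]; simp [len, sl]
    have e2 : pw (sb b) (sl b) i 2 = sf (prod (b i) (b (i + 1))) := by
      funext n
      rw [sf_prod _ _ _ (hℓ1 i) (hℓ1 (i + 1))]
      simp [pw, sb, sl]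
    unfold dd
    rw [e1, e2, defect_eq]
  · right; left
    exact ⟨D, fun i => by rw [hdm]; exact hD i⟩
  · right; right
    intro hs
    apply h
    refine Summable.of_nonneg_of_le (fun i => ?_) (fun i => ?_) (hs.mul_left 6)
    · have : 0 ≤ Real.log (1 + (defect (b i) : ℝ)) :=
        Real.log_nonneg (by have : (0 : ℝ) ≤ defect (b i) := Nat.cast_nonneg _; linarith)
      positivity
    · rw [hdm, hhg]
      change (geomDist (b i) : ℝ) / (b i).length / (1 + Real.log (1 + defect (b i))) ≤
        6 * ((geomDist (b i) : ℝ) / (b i).length / lg (defect (b i)))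
      have h1 : 0 ≤ Real.log (1 + (defect (b i) : ℝ)) :=
        Real.log_nonneg (by have : (0 : ℝ) ≤ defect (b i) := Nat.cast_nonneg _; linarith)
      have h2 := lg_le (defect (b i))
      have h3 : (0 : ℝ) < lg (defect (b i)) := by exact_mod_cast lg_pos _
      have h4 : (0 : ℝ) ≤ (geomDist (b i) : ℝ) / (b i).length := by positivity
      rw [← mul_div_assoc, div_le_div_iff₀ (by linarith) h3]
      nlinarith

end Pool.Agent.Helper51.Morse
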