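import Mathlib

open Finset

namespace Pool.Agent.Helper51.Bern

/-- `B_m^{(a)}(x)`: `m!` times the coefficient of `t^m` in `(t/(e^t-1))^a e^{xt}`
(`bernoulliPowerSeries` is the series `t/(e^t-1)`). -/
noncomputable def genBernoulli (a m : ℕ) (x : ℝ) : ℝ :=
  (m.factorial : ℝ) * PowerSeries.coeff m
    ((bernoulliPowerSeries ℝ) ^ a * PowerSeries.rescale x (PowerSeries.exp ℝ))

/-- `α_{n,k}(x)`, for `2k ≤ n`. -/
noncomputable def alpha (n k : ℕ) (x : ℝ) : ℝ :=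
  (-1) ^ k * ∑ j ∈ range (2 * k + 1), (-1) ^ j * (n.choose j : ℝ) * (n.choose (2 * k - j) : ℝ) *
    genBernoulli n (n - j) x * genBernoulli n (n - 2 * k + j) x

/-- `β_{n,k}(x)`. -/
noncomputable def beta (n k : ℕ) (x : ℝ) : ℝ :=
  (-1) ^ k * ∑ j ∈ range (2 * k + 1), (-1) ^ j * (n.choose j : ℝ) * (n.choose (2 * k - j) : ℝ) *
    genBernoulli n j x * genBernoulli n (2 * k - j) x

end Pool.Agent.Helper51.Bern
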