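import Pool.Agent.Helper51.BernDefs

open Finset

namespace Pool.Agent.Helper51.Bern

open PowerSeries in
theorem G_deriv : (X : PowerSeries ℝ) * derivative ℝ (bernoulliPowerSeries ℝ) =
    bernoulliPowerSeries ℝ - X * bernoulliPowerSeries ℝ - bernoulliPowerSeries ℝ ^ 2 := by
  have h := bernoulliPowerSeries_mul_exp_sub_one ℝ
  have h2 := congrArg (derivative ℝ) h
  rw [Derivation.leibniz, map_sub, derivative_exp, derivative_one, derivative_X, sub_zero,
    smul_eq_mul, smul_eq_mul] at h2
  have h3 : bernoulliPowerSeries ℝ * (bernoulliPowerSeries ℝ * exp ℝ +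
      (exp ℝ - 1) * derivative ℝ (bernoulliPowerSeries ℝ)) = bernoulliPowerSeries ℝ * 1 := by
    rw [h2]
  have h4 : bernoulliPowerSeries ℝ * exp ℝ = X + bernoulliPowerSeries ℝ := by
    rw [← h]; ring
  have h5 : bernoulliPowerSeries ℝ * (bernoulliPowerSeries ℝ * exp ℝ) +
      (bernoulliPowerSeries ℝ * (exp ℝ - 1)) * derivative ℝ (bernoulliPowerSeries ℝ)
      = bernoulliPowerSeries ℝ := by
    linear_combination h3
  rw [h4, h] at h5
  linear_combination h5

open PowerSeries in
theorem E_deriv (x : ℝ) : derivative ℝ (rescale x (exp ℝ)) = C x * rescale x (exp ℝ) := by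
  ext n
  rw [coeff_derivative, coeff_C_mul, coeff_rescale, coeff_rescale, coeff_exp, coeff_exp]
  have : ((n.factorial : ℝ)) ≠ 0 := by positivity
  have h2 : ((n : ℝ) + 1) ≠ 0 := by positivity
  simp only [map_div₀, map_one, map_natCast, Nat.factorial_succ, Nat.cast_mul, Nat.cast_add,
    Nat.cast_one, map_mul, map_add]
  field_simp
  ring

open PowerSeries in
/-- The series `(t/(e^t-1))^a e^{xt}`. -/
noncomputable def F (a : ℕ) (x : ℝ) : PowerSeries ℝ :=
  (bernoulliPowerSeries ℝ) ^ a * rescale x (exp ℝ)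

open PowerSeries in
theorem F_rec (a : ℕ) (x : ℝ) : (X : PowerSeries ℝ) * derivative ℝ (F a x) =
    (a : PowerSeries ℝ) * F a x - (a : PowerSeries ℝ) * F (a + 1) x
      + C (x - (a : ℝ)) * (X * F a x) := by
  have hC : (C (x - (a : ℝ)) : PowerSeries ℝ) = C x - (a : PowerSeries ℝ) := by
    rw [map_sub, map_natCast]
  rw [hC]
  unfold F
  rw [Derivation.leibniz, Derivation.leibniz_pow, E_deriv]
  simp only [smul_eq_mul, nsmul_eq_mul]
  have h := G_deriv
  rcases a with _ | a
  · simp
    ring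
  · simp only [Nat.add_sub_cancel]
    have : (X : PowerSeries ℝ) * (bernoulliPowerSeries ℝ ^ (a + 1) * (C x * rescale x (exp ℝ)) +
        rescale x (exp ℝ) * (((a + 1 : ℕ) : PowerSeries ℝ) * (bernoulliPowerSeries ℝ ^ a *
          derivative ℝ (bernoulliPowerSeries ℝ)))) =
        C x * (X * (bernoulliPowerSeries ℝ ^ (a + 1) * rescale x (exp ℝ))) +
        rescale x (exp ℝ) * ((a + 1 : ℕ) : PowerSeries ℝ) * bernoulliPowerSeries ℝ ^ a *
          (X * derivative ℝ (bernoulliPowerSeries ℝ)) := by ring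
    rw [this, h]
    ring

theorem coeff_F (a m : ℕ) (x : ℝ) :
    PowerSeries.coeff m (F a x) = genBernoulli a m x / (m.factorial : ℝ) := by
  unfold F genBernoulli
  have : ((m.factorial : ℝ)) ≠ 0 := by positivity
  field_simp

/-- `a B_m^{(a+1)} = (a-m) B_m^{(a)} + (x-a) m B_{m-1}^{(a)}`. -/
theorem gen_rec (a m : ℕ) (x : ℝ) :
    (a : ℝ) * genBernoulli (a + 1) (m + 1) x =
      ((a : ℝ) - (m + 1)) * genBernoulli a (m + 1) x + (x - a) * (m + 1) * genBernoulli a m x := by
  have h := congrArg (PowerSeries.coeff (m + 1)) (F_rec a x)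
  rw [map_add, map_sub, ← map_natCast (PowerSeries.C (R := ℝ)) a,
    PowerSeries.coeff_succ_X_mul, PowerSeries.coeff_C_mul, PowerSeries.coeff_C_mul,
    PowerSeries.coeff_C_mul, PowerSeries.coeff_succ_X_mul, PowerSeries.coeff_derivative,
    coeff_F, coeff_F, coeff_F] at h
  have h1 : ((m.factorial : ℝ)) ≠ 0 := by positivity
  have h2 : ((m : ℝ) + 1) ≠ 0 := by positivity
  rw [Nat.factorial_succ] at h
  push_cast at h
  field_simp at h
  linarith

theorem gen_zero (a : ℕ) (x : ℝ) : genBernoulli a 0 x = 1 := by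
  unfold genBernoulli
  have : PowerSeries.constantCoeff (PowerSeries.rescale x (PowerSeries.exp ℝ)) = 1 := by
    rw [← PowerSeries.coeff_zero_eq_constantCoeff_apply, PowerSeries.coeff_rescale]
    simp
  simp [bernoulliPowerSeries, this]

/-- `B_n^{(n+1)}(x) = (x-1)(x-2)...(x-n)`. -/
theorem gen_prod (n : ℕ) (x : ℝ) :
    genBernoulli (n + 1) n x = ∏ j ∈ range n, (x - (j + 1)) := by
  induction n with
  | zero => simp [gen_zero]
  | succ n ih =>
    have h := gen_rec (n + 1) n x
    rw [Finset.prod_range_succ, ← ih]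
    have h2 : ((n : ℝ) + 1) ≠ 0 := by positivity
    push_cast at h
    have : ((n : ℝ) + 1) * genBernoulli (n + 1 + 1) (n + 1) x =
      ((n : ℝ) + 1) * (genBernoulli (n + 1) n x * (x - (n + 1))) := by
      rw [h]; ring
    exact mul_left_cancel₀ h2 this

/-- translation formula -/
theorem gen_add (a m : ℕ) (x z : ℝ) :
    genBernoulli a m (x + z) = ∑ r ∈ range (m + 1), (m.choose r : ℝ) * genBernoulli a (m - r) x * z ^ r := by
  have h : F a (x + z) = F a x * PowerSeries.rescale z (PowerSeries.exp ℝ) := by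
    unfold F
    rw [← PowerSeries.exp_mul_exp_eq_exp_add, mul_assoc]
  have h2 := congrArg (PowerSeries.coeff m) h
  rw [coeff_F, PowerSeries.coeff_mul,
    Finset.Nat.sum_antidiagonal_eq_sum_range_succ_mk] at h2
  have h1 : ((m.factorial : ℝ)) ≠ 0 := by positivity
  rw [div_eq_iff h1, ← Finset.sum_range_reflect] at h2
  rw [h2, Finset.sum_mul]
  apply Finset.sum_congr rfl
  intro r hr
  have hr' : r ≤ m := Nat.lt_succ_iff.mp (Finset.mem_range.mp hr)
  have e1 : m + 1 - 1 - r = m - r := by omega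
  have e2 : m - (m - r) = r := by omega
  simp only [e1, e2, coeff_F, PowerSeries.coeff_rescale, PowerSeries.coeff_exp]
  rw [Nat.cast_choose ℝ hr']
  have h3 : ((r.factorial : ℝ)) ≠ 0 := by positivity
  have h4 : (((m - r).factorial : ℝ)) ≠ 0 := by positivity
  simp only [map_div₀, map_one, map_natCast]
  field_simp

/-- difference relation -/
theorem gen_diff (a m : ℕ) (x : ℝ) :
    genBernoulli (a + 1) (m + 1) (x + 1) - genBernoulli (a + 1) (m + 1) x =
      (m + 1) * genBernoulli a m x := by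
  have h : F (a + 1) (x + 1) - F (a + 1) x = PowerSeries.X * F a x := by
    unfold F
    rw [← PowerSeries.exp_mul_exp_eq_exp_add, ← bernoulliPowerSeries_mul_exp_sub_one ℝ]
    have : PowerSeries.rescale (1 : ℝ) (PowerSeries.exp ℝ) = PowerSeries.exp ℝ := by simp
    rw [this]
    ring
  have h2 := congrArg (PowerSeries.coeff (m + 1)) h
  rw [map_sub, coeff_F, coeff_F, PowerSeries.coeff_succ_X_mul, coeff_F] at h2
  have h1 : ((m.factorial : ℝ)) ≠ 0 := by positivity
  have h3 : ((m : ℝ) + 1) ≠ 0 := by positivity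
  rw [Nat.factorial_succ] at h2
  push_cast at h2
  field_simp at h2
  linarith



theorem gen_hasDeriv (a m : ℕ) (x : ℝ) :
    HasDerivAt (genBernoulli a (m + 1)) ((m + 1) * genBernoulli a m x) x := by
  have h : genBernoulli a (m + 1) = fun y => ∑ r ∈ range (m + 1 + 1),
      (((m + 1).choose r : ℝ) * genBernoulli a (m + 1 - r) x) * (y - x) ^ r := by
    funext y
    have := gen_add a (m + 1) x (y - x)
    rw [add_sub_cancel] at this
    exact this
  rw [h]
  have h1 : HasDerivAt (fun y => ∑ r ∈ range (m + 1 + 1),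
      (((m + 1).choose r : ℝ) * genBernoulli a (m + 1 - r) x) * (y - x) ^ r)
      (∑ r ∈ range (m + 1 + 1), (((m + 1).choose r : ℝ) * genBernoulli a (m + 1 - r) x) *
        ((r : ℝ) * (x - x) ^ (r - 1) * 1)) x := by
    apply HasDerivAt.fun_sum
    intro r _
    exact (((hasDerivAt_id x).sub_const x).pow r).const_mul _
  convert h1 using 1
  rw [Finset.sum_eq_single 1]
  · simp
  · intro b _ hb
    rcases b with _ | b
    · simp
    · have : b ≠ 0 := by omega
      simp [this]
  · intro h
    exfalso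
    apply h
    simp

theorem gen_continuous (a m : ℕ) : Continuous (genBernoulli a m) := by
  rcases m with _ | m
  · have : genBernoulli a 0 = fun _ => 1 := by
      funext x
      exact gen_zero a x
    rw [this]
    exact continuous_const
  · exact continuous_iff_continuousAt.mpr fun x => (gen_hasDeriv a m x).continuousAt

theorem prod_sign (n k : ℕ) (hk : k ≤ n) (t : ℝ) (h1 : (k : ℝ) < t) (h2 : t < k + 1) :
    0 < (-1 : ℝ) ^ (n - k) * ∏ j ∈ range n, (t - (j + 1)) := by
  rw [← Finset.prod_range_mul_prod_Ico _ hk]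
  have e1 : ∏ j ∈ Finset.Ico k n, (t - ((j : ℝ) + 1)) =
      (-1 : ℝ) ^ (n - k) * ∏ j ∈ Finset.Ico k n, (((j : ℝ) + 1) - t) := by
    rw [← Nat.card_Ico k n, ← Finset.prod_const, ← Finset.prod_mul_distrib]
    apply Finset.prod_congr rfl
    intro j _
    ring
  rw [e1]
  have e2 : (-1 : ℝ) ^ (n - k) * ((∏ j ∈ range k, (t - ((j : ℝ) + 1))) *
      ((-1 : ℝ) ^ (n - k) * ∏ j ∈ Finset.Ico k n, (((j : ℝ) + 1) - t))) =
      ((-1 : ℝ) ^ (n - k) * (-1 : ℝ) ^ (n - k)) * ((∏ j ∈ range k, (t - ((j : ℝ) + 1))) *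
        ∏ j ∈ Finset.Ico k n, (((j : ℝ) + 1) - t)) := by ring
  rw [e2, ← mul_pow]
  have e3 : (-1 : ℝ) * -1 = 1 := by norm_num
  rw [e3, one_pow, one_mul]
  apply mul_pos
  · apply Finset.prod_pos
    intro j hj
    have : (j : ℝ) + 1 ≤ k := by exact_mod_cast Finset.mem_range.mp hj
    linarith
  · apply Finset.prod_pos
    intro j hj
    have : (k : ℝ) ≤ j := by exact_mod_cast (Finset.mem_Ico.mp hj).1
    linarith

/-- sign of `B_n^{(n)}(k)` -/
theorem gen_sign (n k : ℕ) (hk : k ≤ n) : 0 < (-1 : ℝ) ^ (n - k) * genBernoulli n n k := by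
  have hmono : StrictMonoOn (fun t => (-1 : ℝ) ^ (n - k) * genBernoulli (n + 1) (n + 1) t)
      (Set.Icc (k : ℝ) (k + 1)) := by
    apply strictMonoOn_of_deriv_pos (convex_Icc _ _)
    · exact ((gen_continuous _ _).const_mul _ |>.continuousOn)
    · intro t ht
      rw [interior_Icc] at ht
      rw [((gen_hasDeriv (n + 1) n t).const_mul _).deriv, gen_prod]
      have := prod_sign n k hk t ht.1 ht.2
      have h2 : (0 : ℝ) < n + 1 := by positivity
      have : 0 < ((n : ℝ) + 1) * ((-1 : ℝ) ^ (n - k) * ∏ j ∈ range n, (t - (j + 1))) :=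
        mul_pos h2 this
      linarith
  have h := hmono (Set.left_mem_Icc.mpr (by linarith)) (Set.right_mem_Icc.mpr (by linarith))
    (by linarith : (k : ℝ) < k + 1)
  have h2 := gen_diff n n (k : ℝ)
  simp only at h
  have h3 : (0 : ℝ) < n + 1 := by positivity
  have h4 : 0 < ((n : ℝ) + 1) * ((-1 : ℝ) ^ (n - k) * genBernoulli n n k) := by
    have : ((n : ℝ) + 1) * ((-1 : ℝ) ^ (n - k) * genBernoulli n n k) =
      (-1 : ℝ) ^ (n - k) * (genBernoulli (n + 1) (n + 1) (k + 1) -
        genBernoulli (n + 1) (n + 1) k) := by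
      rw [h2]; ring
    rw [this, mul_sub]
    linarith
  exact (mul_pos_iff_of_pos_left h3).mp h4

/-- a root in each `(k,k+1)`. -/
theorem exists_root (n k : ℕ) (hk : k < n) :
    ∃ r : ℝ, (k : ℝ) < r ∧ r < k + 1 ∧ genBernoulli n n r = 0 := by
  have h1 := gen_sign n k hk.le
  have h2 := gen_sign n (k + 1) hk
  have h3 : (-1 : ℝ) ^ (n - k) * genBernoulli n n ((k : ℝ) + 1) < 0 := by
    have e : n - k = (n - (k + 1)) + 1 := by omega
    rw [e, pow_succ]
    push_cast at h2
    linarith
  have hc : ContinuousOn (fun t => (-1 : ℝ) ^ (n - k) * genBernoulli n n t)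
      (Set.Icc (k : ℝ) (k + 1)) := ((gen_continuous _ _).const_mul _).continuousOn
  obtain ⟨r, hr, hr2⟩ := intermediate_value_Ioo' (by linarith : (k : ℝ) ≤ k + 1) hc
    (⟨h3, h1⟩ : (0 : ℝ) ∈ Set.Ioo _ _)
  refine ⟨r, hr.1, hr.2, ?_⟩
  have h4 : (-1 : ℝ) ^ (n - k) ≠ 0 := by
    apply pow_ne_zero; norm_num
  exact (mul_eq_zero.mp hr2).resolve_left h4

open Polynomial in
/-- the polynomial `z ↦ B_n^{(n)}(x+z)`. -/
noncomputable def P (n : ℕ) (x : ℝ) : Polynomial ℝ :=
  ∑ r ∈ range (n + 1), C ((n.choose r : ℝ) * genBernoulli n (n - r) x) * X ^ r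

open Polynomial in
theorem P_coeff (n : ℕ) (x : ℝ) (i : ℕ) :
    (P n x).coeff i = (n.choose i : ℝ) * genBernoulli n (n - i) x := by
  unfold P
  simp only [finsetSum_coeff, coeff_C_mul, coeff_X_pow, mul_ite, mul_one, mul_zero]
  rw [Finset.sum_ite_eq]
  split_ifs with h
  · rfl
  · rw [Nat.choose_eq_zero_of_lt (by simpa using h)]
    simp

open Polynomial in
theorem P_eval (n : ℕ) (x z : ℝ) : (P n x).eval z = genBernoulli n n (x + z) := by
  unfold P
  rw [gen_add, eval_finsetSum]
  apply Finset.sum_congr rfl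
  intro r _
  simp



open Polynomial in
theorem P_factor (n : ℕ) (x : ℝ) : ∃ s : ℕ → ℝ, Set.InjOn s (range n : Finset ℕ) ∧
    P n x = ∏ k ∈ range n, (X - C (s k)) := by
  have hr : ∀ k : ℕ, ∃ r : ℝ, k < n → ((k : ℝ) < r ∧ r < k + 1 ∧ genBernoulli n n r = 0) := by
    intro k
    by_cases hk : k < n
    · obtain ⟨r, hr⟩ := exists_root n k hk
      exact ⟨r, fun _ => hr⟩
    · exact ⟨0, fun h => absurd h hk⟩
  choose r hr using hr
  have hinj : Set.InjOn (fun k => r k - x) (range n : Finset ℕ) := by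
    intro a ha b hb hab
    have ha' := hr a (by simpa using ha)
    have hb' := hr b (by simpa using hb)
    have hab' : r a = r b := by
      simp only at hab
      linarith
    by_contra hne
    rcases Nat.lt_or_gt_of_ne hne with h | h
    · have : (a : ℝ) + 1 ≤ b := by exact_mod_cast h
      linarith [ha'.2.1, hb'.1]
    · have : (b : ℝ) + 1 ≤ a := by exact_mod_cast h
      linarith [hb'.2.1, ha'.1]
  refine ⟨fun k => r k - x, hinj, ?_⟩
  apply eq_of_degree_sub_lt_of_eval_index_eq (range n) hinj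
  · rw [Finset.card_range, degree_lt_iff_coeff_zero]
    intro m hm
    rw [coeff_sub, P_coeff]
    have hmon : (∏ k ∈ range n, (X - C (r k - x))).Monic :=
      monic_prod_of_monic _ _ fun k _ => monic_X_sub_C _
    have hdeg : (∏ k ∈ range n, (X - C (r k - x))).natDegree = n := by
      rw [natDegree_prod_of_monic _ _ fun k _ => monic_X_sub_C _]
      simp only [natDegree_X_sub_C, Finset.sum_const, Finset.card_range, smul_eq_mul, mul_one]
    rcases Nat.eq_or_lt_of_le hm with h | h
    · subst h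
      rw [Nat.choose_self, Nat.sub_self, gen_zero]
      have := hmon.coeff_natDegree
      rw [hdeg] at this
      rw [this]
      simp
    · rw [Nat.choose_eq_zero_of_lt h, coeff_eq_zero_of_natDegree_lt (by rw [hdeg]; exact h)]
      simp
  · intro k hk
    rw [P_eval, eval_prod, Finset.prod_eq_zero hk (by simp)]
    have := (hr k (by simpa using hk)).2.2
    rw [add_sub_cancel]
    exact this

open Polynomial in
/-- coefficients of `P(z)P(-z)` -/
theorem key (n : ℕ) (x : ℝ) (m : ℕ) (hm : 1 ≤ m) (hmn : m ≤ n) :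
    0 < (-1 : ℝ) ^ m * (P n x * (P n x).comp (C (-1) * X)).coeff (2 * m) := by
  obtain ⟨s, hinj, hs⟩ := P_factor n x
  have h1 : P n x * (P n x).comp (C (-1) * X) =
      expand ℝ 2 ((∏ k ∈ range n, (X + C ((s k) ^ 2))).comp (C (-1) * X)) := by
    rw [hs, Polynomial.prod_comp, Polynomial.prod_comp, map_prod, ← Finset.prod_mul_distrib]
    apply Finset.prod_congr rfl
    intro k _
    simp only [sub_comp, add_comp, X_comp, C_comp, map_add, map_mul, expand_C, expand_X]
    simp only [map_pow, map_neg, map_one]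
    ring
  rw [h1, coeff_expand_mul' (by norm_num), comp_C_mul_X_coeff,
    Finset.prod_X_add_C_coeff _ _ (by simpa using hmn), Finset.card_range]
  have h2 : (-1 : ℝ) ^ m * ((∑ t ∈ powersetCard (n - m) (range n), ∏ i ∈ t, s i ^ 2) *
      (-1) ^ m) = ∑ t ∈ powersetCard (n - m) (range n), ∏ i ∈ t, s i ^ 2 := by
    have : (-1 : ℝ) ^ m * (-1) ^ m = 1 := by
      rw [← mul_pow]; norm_num
    linear_combination (∑ t ∈ powersetCard (n - m) (range n), ∏ i ∈ t, s i ^ 2) * this
  rw [h2]
  -- a subset avoiding the possible zero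
  have hcard : n - m ≤ ((range n).filter fun i => s i ≠ 0).card := by
    have hz : ((range n).filter fun i => ¬ (s i ≠ 0)).card ≤ 1 := by
      rw [Finset.card_le_one]
      intro a ha b hb
      rw [Finset.mem_filter] at ha hb
      apply hinj (by exact_mod_cast ha.1) (by exact_mod_cast hb.1)
      have h3 := not_not.mp ha.2
      have h4 := not_not.mp hb.2
      rw [h3, h4]
    have := Finset.card_filter_add_card_filter_not (s := range n) (fun i => s i ≠ 0)
    rw [Finset.card_range] at this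
    omega
  obtain ⟨t, ht, htc⟩ := Finset.exists_subset_card_eq hcard
  apply Finset.sum_pos'
  · intro u _
    exact Finset.prod_nonneg fun i _ => sq_nonneg _
  · refine ⟨t, ?_, ?_⟩
    · rw [Finset.mem_powersetCard]
      exact ⟨ht.trans (Finset.filter_subset _ _), htc⟩
    · apply Finset.prod_pos
      intro i hi
      have := (Finset.mem_filter.mp (ht hi)).2
      positivity

open Polynomial in
theorem coeff_sum (n : ℕ) (x : ℝ) (M : ℕ) :
    (P n x * (P n x).comp (C (-1) * X)).coeff M =
      ∑ j ∈ range (M + 1), ((n.choose j : ℝ) * genBernoulli n (n - j) x) *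
        (((n.choose (M - j) : ℝ) * genBernoulli n (n - (M - j)) x) * (-1) ^ (M - j)) := by
  rw [coeff_mul, Finset.Nat.sum_antidiagonal_eq_sum_range_succ_mk]
  apply Finset.sum_congr rfl
  intro j _
  rw [comp_C_mul_X_coeff, P_coeff, P_coeff]

theorem alpha_eq (n k : ℕ) (x : ℝ) (hk : 2 * k ≤ n) : alpha n k x =
    (-1 : ℝ) ^ k * (P n x * (P n x).comp
      (Polynomial.C (-1) * Polynomial.X)).coeff (2 * k) := by
  rw [coeff_sum]
  unfold alpha
  congr 1
  apply Finset.sum_congr rfl
  intro j hj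
  have hj' : j ≤ 2 * k := Nat.lt_succ_iff.mp (Finset.mem_range.mp hj)
  have e : n - 2 * k + j = n - (2 * k - j) := by omega
  have e2 : (-1 : ℝ) ^ (2 * k - j) = (-1) ^ j := by
    have h3 : (-1 : ℝ) ^ (2 * k - j) * (-1) ^ j = 1 := by
      rw [← pow_add, Nat.sub_add_cancel hj', pow_mul]
      norm_num
    have h4 : (-1 : ℝ) ^ j * (-1) ^ j = 1 := by
      rw [← mul_pow]; norm_num
    have h5 : (-1 : ℝ) ^ j ≠ 0 := pow_ne_zero _ (by norm_num)
    exact mul_right_cancel₀ h5 (h3.trans h4.symm)
  rw [e, e2]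
  ring

theorem beta_eq (n k : ℕ) (x : ℝ) (hn : 1 ≤ n) (hk : 2 * k ≤ n - 1) : beta n k x =
    (-1 : ℝ) ^ (n - k) * (P n x * (P n x).comp
      (Polynomial.C (-1) * Polynomial.X)).coeff (2 * (n - k)) := by
  rw [coeff_sum]
  have h1 : ∑ j ∈ range (2 * k + 1), (-1 : ℝ) ^ n * ((-1) ^ j * (n.choose j : ℝ) *
      (n.choose (2 * k - j) : ℝ) * genBernoulli n j x * genBernoulli n (2 * k - j) x) =
      ∑ j ∈ range (2 * (n - k) + 1), ((n.choose j : ℝ) * genBernoulli n (n - j) x) *
        (((n.choose (2 * (n - k) - j) : ℝ) * genBernoulli n (n - (2 * (n - k) - j)) x) *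
          (-1) ^ (2 * (n - k) - j)) := by
    apply Finset.sum_of_injOn (fun j => n - j)
    · intro a ha b hb hab
      have ha' : a < 2 * k + 1 := by simpa using ha
      have hb' : b < 2 * k + 1 := by simpa using hb
      simp only at hab
      omega
    · intro a ha
      have ha' : a < 2 * k + 1 := by simpa using ha
      simp only [Finset.coe_range, Set.mem_Iio]
      omega
    · intro i hi hni
      have hi' : i < 2 * (n - k) + 1 := by simpa using hi
      by_cases h : i ≤ n
      · have h2 : n < 2 * (n - k) - i := by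
          by_contra hcon
          apply hni
          refine ⟨n - i, ?_, ?_⟩
          · simp only [Finset.coe_range, Set.mem_Iio]
            omega
          · simp only
            omega
        rw [Nat.choose_eq_zero_of_lt h2]
        simp
      · rw [Nat.choose_eq_zero_of_lt (by omega)]
        simp
    · intro j hj
      have hj' : j < 2 * k + 1 := by simpa using hj
      have e1 : 2 * (n - k) - (n - j) = n - (2 * k - j) := by omega
      have e2 : n - (n - j) = j := by omega
      have e3 : n - (n - (2 * k - j)) = 2 * k - j := by omega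
      rw [e1, e2, e3, Nat.choose_symm (by omega : j ≤ n),
        Nat.choose_symm (by omega : 2 * k - j ≤ n)]
      have e4 : (-1 : ℝ) ^ (n - (2 * k - j)) = (-1) ^ n * (-1) ^ j := by
        have h3 : n + j = n - (2 * k - j) + 2 * k := by omega
        rw [← pow_add, h3, pow_add, pow_mul]
        norm_num
      rw [e4]
      ring
  rw [← h1, ← Finset.mul_sum]
  unfold beta
  have h2 : (-1 : ℝ) ^ k = (-1) ^ (n - k) * (-1) ^ n := by
    have h3 : (-1 : ℝ) ^ (n - k) * (-1) ^ (n - k) = 1 := by
      rw [← mul_pow]; norm_num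
    have h4 : (-1 : ℝ) ^ n = (-1) ^ (n - k) * (-1) ^ k := by
      rw [← pow_add, Nat.sub_add_cancel (by omega)]
    rw [h4, ← mul_assoc, h3, one_mul]
  rw [h2]
  ring

theorem main : ∀ n : ℕ, 1 ≤ n → ∀ x : ℝ,
    (∀ k : ℕ, 1 ≤ 2 * k → 2 * k ≤ n → 0 < alpha n k x) ∧
    (∀ k : ℕ, 2 * k ≤ n - 1 → 0 < beta n k x) := by
  intro n hn x
  constructor
  · intro k hk1 hk2
    rw [alpha_eq n k x hk2]
    exact key n x k (by omega) (by omega)
  · intro k hk
    rw [beta_eq n k x hn hk]
    exact key n x (n - k) (by omega) (by omega)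

end Pool.Agent.Helper51.Bern
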