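import Pool.Agent.Helper51.CZMain

open MeasureTheory Metric Set

namespace Pool.Agent.Helper51

variable {n : ℕ}

namespace Par

variable (P : Par n)

/-- the largest ratio of values on small cubes -/
noncomputable def rho : ℝ := R n ^ (P.K + 1) * (P.g ^ (P.p - 1))⁻¹

/-- smallness of `ε` in terms of `K` -/
structure Small : Prop where
  c1 : P.rho ≤ P.ε⁻¹
  c2 : P.rho ^ (P.q + 1) ≤ P.ε ^ (-P.p)
  c3 : C2 n P.p P.K * P.ε⁻¹ ≤ P.ε ^ (-P.p)

theorem gp_pos : 0 < P.g ^ (P.p - 1) := Real.rpow_pos_of_pos P.g_pos _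

theorem gp_le : P.g ^ (P.p - 1) ≤ 1 := by
  have := P.hp
  exact Real.rpow_le_one P.g_pos.le P.g_le_one (by linarith)

theorem R_le_rho : R n ≤ P.rho := by
  unfold rho
  have h1 : 1 ≤ (P.g ^ (P.p - 1))⁻¹ := (one_le_inv₀ P.gp_pos).mpr P.gp_le
  have h2 : R n ≤ R n ^ (P.K + 1) := by
    have := pow_le_pow_right₀ (R_ge_one (n := n)) (show 1 ≤ P.K + 1 by omega)
    rwa [pow_one] at this
  have hR := R_pos (n := n)
  calc R n ≤ R n ^ (P.K + 1) * 1 := by linarith
    _ ≤ _ := mul_le_mul_of_nonneg_left h1 (by positivity)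

theorem rho_pos : 0 < P.rho := R_pos.trans_le P.R_le_rho

theorem one_le_rho : 1 ≤ P.rho := R_ge_one.trans P.R_le_rho

theorem ratio_le_rho : P.ε * R n ^ P.K ≤ P.rho * P.wG := by
  have h := P.gp_pos
  have hR := R_pos (n := n)
  have hε := P.hε
  unfold rho wG
  have e : R n ^ (P.K + 1) * (P.g ^ (P.p - 1))⁻¹ * (P.ε * P.g ^ (P.p - 1)) =
      P.ε * R n ^ (P.K + 1) := by field_simp
  rw [e]
  exact mul_le_mul_of_nonneg_left (pow_le_pow_right₀ R_ge_one (by omega)) hε.le

theorem one_le_C1 [NeZero n] : 1 ≤ C1 n P.p := by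
  have hp := P.hp
  have hR := R_ge_one (n := n)
  unfold C1
  have h1 : 1 ≤ (3 * R n ^ 3) ^ (1 / (P.p - 1) + 1) := by
    apply Real.one_le_rpow
    · have : 1 ≤ R n ^ 3 := one_le_R_pow 3
      linarith
    · have : 0 < 1 / (P.p - 1) := P.q_pos
      linarith
  have h2 : 1 ≤ 5 * R n ^ 2 := by
    have : 1 ≤ R n ^ 2 := one_le_R_pow 2
    linarith
  have h3 : 1 ≤ Real.exp ((2 * P.p - 1) * R n ^ 2) := by
    apply Real.one_le_exp
    apply mul_nonneg (by linarith)
    have : 1 ≤ R n ^ 2 := one_le_R_pow 2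
    linarith
  exact one_le_mul_of_one_le_of_one_le (one_le_mul_of_one_le_of_one_le h1 h2) h3

/-- the conclusion for a cube -/
def Concl (w : E n → ℝ) (I : Set (E n)) : Prop :=
  Phi P.q w I ≤ C1 n P.p * P.ε ^ (-(P.q + 1)) ∧ Psi P.p P.q w I ≤ P.ε ^ (-P.p)

variable {P}

theorem concl_ratio [NeZero n] (hS : P.Small) (J : ℕ) {x0 : E n} {r m M ρ : ℝ} (hr : 0 < r)
    (hm : 0 < m) (h1 : ∀ x ∈ closedBall x0 r, m ≤ P.w J x)
    (h2 : ∀ x ∈ closedBall x0 r, P.w J x ≤ M)
    (hρ : M ≤ ρ * m) (hρ0 : 0 ≤ ρ) (hρ1 : ρ ≤ P.rho) : P.Concl (P.w J) (closedBall x0 r) := by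
  have hq := P.q_pos
  have hε := P.hε
  have h3 := Phi_ratio hq (P.nice_w J) P.wG_pos (P.wG_le_w J) hr hm h1 h2 hρ hρ0
  have h4 := Psi_ratio P.p_pos hq P.pq (P.nice_w J) P.wG_pos (P.wG_le_w J) hr hm h1 h2 hρ hρ0
  have h5 : ρ ^ (P.q + 1) ≤ P.rho ^ (P.q + 1) := Real.rpow_le_rpow hρ0 hρ1 (by linarith)
  constructor
  · refine (h3.trans h5).trans ?_
    have h6 : P.rho ^ (P.q + 1) ≤ (P.ε⁻¹) ^ (P.q + 1) :=
      Real.rpow_le_rpow P.rho_pos.le hS.c1 (by linarith)
    rw [Real.inv_rpow hε.le, ← Real.rpow_neg hε.le] at h6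
    refine h6.trans ?_
    exact le_mul_of_one_le_left (Real.rpow_pos_of_pos hε _).le P.one_le_C1
  · exact (h4.trans h5).trans hS.c2

theorem dist_in_ball {x0 a b : E n} {r : ℝ} (ha : a ∈ closedBall x0 r) (hb : b ∈ closedBall x0 r) :
    ‖b‖ - ‖a‖ ≤ 2 * r := by
  rw [mem_closedBall, dist_eq_norm] at ha hb
  have h1 : ‖b - a‖ ≤ ‖b - x0‖ + ‖a - x0‖ := by
    have := norm_sub_le (b - x0) (a - x0)
    rwa [sub_sub_sub_cancel_right] at this
  have h2 := norm_sub_norm_le b a
  linarith

/-- the situation when the inner cube is not met -/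
theorem concl_inner [NeZero n] (hS : P.Small) (J : ℕ) {k : ℕ} (hk : k ≤ P.K) {x0 : E n} {r : ℝ}
    (hr : 0 < r) (hnF : ¬ closedBall x0 r ⊆ Fk n k)
    (hF : ∀ x ∈ closedBall x0 r, x ∈ Fk n k → P.w (J + 1) x = P.W * R n ^ k * P.w J (Sk k x))
    (hN : ∀ x ∈ closedBall x0 r, x ∉ Fk n k → P.w (J + 1) x = P.ε * R n ^ k) :
    P.Concl (P.w (J + 1)) (closedBall x0 r) := by
  have hε := P.hε
  have hR := R_pos (n := n)
  have hW := P.W_pos
  have hrk := rk_pos k
  by_cases hcore : ∃ a ∈ closedBall x0 r, ‖Sk k a‖ ≤ 3 / 4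
  · obtain ⟨a, ha, hac⟩ := hcore
    obtain ⟨b, hb, hbF⟩ := Set.not_subset.mp hnF
    have hb1 : 1 < ‖Sk k b‖ := by
      rw [mem_Fk_iff, mem_closedBall, dist_zero_right, not_le] at hbF
      exact hbF
    have h1 : ‖Sk k b - Sk k a‖ = (rk k)⁻¹ * ‖b - a‖ := by
      unfold Sk
      rw [← smul_sub, norm_smul, Real.norm_of_nonneg (by positivity)]
      congr 2
      abel
    have h2 : ‖b - a‖ ≤ 2 * r := by
      rw [mem_closedBall, dist_eq_norm] at ha hb
      have := norm_sub_le (b - x0) (a - x0)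
      rw [sub_sub_sub_cancel_right] at this
      linarith
    have h3 := norm_sub_norm_le (Sk k b) (Sk k a)
    have h4 : rk k * (1 / 4) ≤ ‖b - a‖ := by
      have : 1 / 4 ≤ (rk k)⁻¹ * ‖b - a‖ := by linarith
      rwa [inv_mul_eq_div, le_div_iff₀ hrk, mul_comm] at this
    have h5 : rk k ≤ 64 * r := by linarith
    obtain ⟨h6, h7⟩ := P.medium J hk hr h5 hF hN
    exact ⟨h6, h7.trans hS.c3⟩
  · push Not at hcore
    have hεk : 0 < P.ε * R n ^ k := by positivity
    apply concl_ratio hS (J + 1) hr (m := P.ε * R n ^ k) (M := P.W * (P.ε * R n ^ k))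
      (ρ := P.W) hεk _ _ le_rfl hW.le (P.W_le.trans P.R_le_rho)
    · intro x hx
      by_cases hxF : x ∈ Fk n k
      · rw [hF x hx hxF, P.w_out J (hcore x hx)]
        calc P.ε * R n ^ k ≤ P.W * (P.ε * R n ^ k) := le_mul_of_one_le_left hεk.le P.one_le_W
          _ = _ := by ring
      · rw [hN x hx hxF]
    · intro x hx
      by_cases hxF : x ∈ Fk n k
      · rw [hF x hx hxF, P.w_out J (hcore x hx)]
        exact le_of_eq (by ring)
      · rw [hN x hx hxF]
        exact le_mul_of_one_le_left hεk.le P.one_le_W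

theorem not_mem_F_of [NeZero n] {x : E n} {k i : ℕ} (hxD : ‖x‖ ≤ (1 / 8 : ℝ) ^ k)
    (hxi : 5 / 8 * (1 / 8 : ℝ) ^ (k + 1) < ‖x‖) (hik : i ≠ k) : x ∉ Fk n i := by
  intro hx
  rcases Nat.lt_or_gt_of_ne hik with h | h
  · have := Fk_not_mem_D h hx
    linarith
  · have := Fk_mem_D (show k + 1 ≤ i from h) hx
    linarith

theorem w_succ_F [NeZero n] (J : ℕ) {k : ℕ} (hk : k ≤ P.K) {x : E n} (hx : x ∈ Fk n k) :
    P.w (J + 1) x = P.W * R n ^ k * P.w J (Sk k x) := by
  rw [w_succ, glue_of_mem hk _ _ hx]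

theorem w_succ_N (J : ℕ) {x : E n} (hx : ∀ i, i ≤ P.K → x ∉ Fk n i) :
    P.w (J + 1) x = P.b x := by
  rw [w_succ, glue_of_not _ _ hx]

theorem concl_D [NeZero n] (hS : P.Small) (J : ℕ) {x0 : E n} {r : ℝ} (hr : 0 < r)
    (hnF : ∀ k, k ≤ P.K → ¬ closedBall x0 r ⊆ Fk n k)
    {k : ℕ} (hk : k ≤ P.K) (hD : closedBall x0 r ⊆ closedBall (0 : E n) ((1 / 8 : ℝ) ^ k))
    (hmax : k = P.K ∨ ¬ closedBall x0 r ⊆ closedBall (0 : E n) ((1 / 8 : ℝ) ^ (k + 1))) :
    P.Concl (P.w (J + 1)) (closedBall x0 r) := by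
  have hε := P.hε
  have hR := R_pos (n := n)
  have h8k := e8_pos k
  have hDx : ∀ x ∈ closedBall x0 r, ‖x‖ ≤ (1 / 8 : ℝ) ^ k := fun x hx => by
    have := hD hx
    rwa [mem_closedBall, dist_zero_right] at this
  have hlarge : (1 / 8 : ℝ) ^ k ≤ 64 * r → P.Concl (P.w (J + 1)) (closedBall x0 r) := fun h => by
    obtain ⟨h6, h7⟩ := P.large J hk hr (Or.inr hD) h
    exact ⟨h6, h7.trans hS.c3⟩
  by_cases hkK : k = P.K
  · -- innermost level
    have h2K : (1 / 8 : ℝ) ^ (2 * P.K + 1) ≤ (1 / 8) ^ k / 8 := by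
      rw [hkK]
      exact e8_succ_le (by omega)
    have hni : ∀ x ∈ closedBall x0 r, ∀ i, i ≤ P.K → i ≠ k → x ∉ Fk n i := by
      intro x hx i hi hik hxi
      have := Fk_not_mem_D (show i < k by omega) hxi
      have := hDx x hx
      linarith
    by_cases hG : ∃ a ∈ closedBall x0 r, ‖a‖ ≤ (1 / 8 : ℝ) ^ (2 * P.K + 1)
    · obtain ⟨a, ha, haG⟩ := hG
      by_cases hF : ∃ b ∈ closedBall x0 r, b ∈ Fk n k
      · obtain ⟨b, hb, hbF⟩ := hF
        apply hlarge
        have h1 := (norm_mem_Fk hbF).1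
        have h2 := dist_in_ball ha hb
        linarith
      · push Not at hF
        have hw : ∀ x ∈ closedBall x0 r, P.w (J + 1) x = P.b x := by
          intro x hx
          apply w_succ_N
          intro i hi
          by_cases hik : i = k
          · rw [hik]; exact hF x hx
          · exact hni x hx i hi hik
        apply concl_ratio hS (J + 1) hr (m := P.wG) (M := P.ε * R n ^ P.K) (ρ := P.rho) P.wG_pos
          _ _ P.ratio_le_rho P.rho_pos.le le_rfl
        · intro x hx
          rw [hw x hx]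
          exact P.wG_le_b x
        · intro x hx
          rw [hw x hx]
          exact P.b_le x
    · push Not at hG
      apply concl_inner hS J hk hr (hnF k hk) (fun x _ hxF => w_succ_F J hk hxF)
      intro x hx hxF
      rw [w_succ_N J, P.b_not_G (hG x hx)]
      · have h1 := P.κ_le x
        have h2 := P.le_κ hk (hDx x hx)
        have : P.κ x = k := by omega
        rw [this]
      · intro i hi
        by_cases hik : i = k
        · rw [hik]; exact hxF
        · exact hni x hx i hi hik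
  · have hmax' := hmax.resolve_left hkK
    have hkK' : k + 1 ≤ P.K := by omega
    obtain ⟨c, hc, hcD⟩ := Set.not_subset.mp hmax'
    rw [mem_closedBall, dist_zero_right, not_le] at hcD
    have hsucc : (1 / 8 : ℝ) ^ (k + 1) = (1 / 8) ^ k / 8 := by rw [pow_succ]; ring
    by_cases hcore : ∃ a ∈ closedBall x0 r, ‖a‖ ≤ 3 / 4 * (1 / 8 : ℝ) ^ (k + 1)
    · obtain ⟨a, ha, hac⟩ := hcore
      apply hlarge
      have h2 := dist_in_ball ha hc
      linarith
    · push Not at hcore
      by_cases hin : ∃ a ∈ closedBall x0 r, ‖a‖ ≤ (1 / 8 : ℝ) ^ (k + 1)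
      · obtain ⟨a, ha, hain⟩ := hin
        by_cases hF : ∃ b ∈ closedBall x0 r, b ∈ Fk n k
        · obtain ⟨b, hb, hbF⟩ := hF
          apply hlarge
          have h1 := (norm_mem_Fk hbF).1
          have h2 := dist_in_ball ha hb
          linarith
        · push Not at hF
          have hw : ∀ x ∈ closedBall x0 r, P.w (J + 1) x = P.ε * R n ^ P.κ x := by
            intro x hx
            rw [w_succ_N J, P.b_not_G]
            · have h1 := hcore x hx
              have h2 : (1 / 8 : ℝ) ^ (2 * P.K + 1) ≤ (1 / 8) ^ (k + 1) / 8 :=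
                e8_succ_le (by omega)
              have := e8_pos (k + 1)
              linarith
            · intro i hi
              by_cases hik : i = k
              · rw [hik]; exact hF x hx
              · apply not_mem_F_of (hDx x hx) _ hik
                have := hcore x hx
                have := e8_pos (k + 1)
                linarith
          have hκ1 : ∀ x ∈ closedBall x0 r, k ≤ P.κ x := fun x hx => P.le_κ hk (hDx x hx)
          have hκ2 : ∀ x ∈ closedBall x0 r, P.κ x ≤ k + 1 := by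
            intro x hx
            apply P.κ_lt
            have h1 := hcore x hx
            have h2 : (1 / 8 : ℝ) ^ (k + 1 + 1) = (1 / 8) ^ (k + 1) / 8 := by rw [pow_succ]; ring
            have := e8_pos (k + 1)
            linarith
          apply concl_ratio hS (J + 1) hr (m := P.ε * R n ^ k) (M := P.ε * R n ^ (k + 1))
            (ρ := R n) (by positivity) _ _ (by rw [pow_succ]; exact le_of_eq (by ring)) hR.le
            P.R_le_rho
          · intro x hx
            rw [hw x hx]
            exact mul_le_mul_of_nonneg_left (pow_le_pow_right₀ R_ge_one (hκ1 x hx)) hε.le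
          · intro x hx
            rw [hw x hx]
            exact mul_le_mul_of_nonneg_left (pow_le_pow_right₀ R_ge_one (hκ2 x hx)) hε.le
      · push Not at hin
        apply concl_inner hS J hk hr (hnF k hk) (fun x _ hxF => w_succ_F J hk hxF)
        intro x hx hxF
        rw [w_succ_N J, P.b_not_G]
        · have h1 := P.κ_lt (hin x hx)
          have h2 := P.le_κ hk (hDx x hx)
          have : P.κ x = k := by omega
          rw [this]
        · have h2 : (1 / 8 : ℝ) ^ (2 * P.K + 1) ≤ (1 / 8) ^ (k + 1) := e8_le (by omega)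
          have := hin x hx
          linarith
        · intro i hi
          by_cases hik : i = k
          · rw [hik]; exact hxF
          · apply not_mem_F_of (hDx x hx) _ hik
            have := hin x hx
            have := e8_pos (k + 1)
            linarith

/-- **Main weight estimate**: both one-supremum functionals are controlled on every cube. -/
theorem concl_all [NeZero n] (hS : P.Small) (J : ℕ) (x0 : E n) {r : ℝ} (hr : 0 < r) :
    P.Concl (P.w J) (closedBall x0 r) := by
  have hε := P.hε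
  have hR := R_pos (n := n)
  induction J generalizing x0 r with
  | zero =>
    apply concl_ratio hS 0 hr (m := P.ε) (M := P.ε) (ρ := 1) hε (fun x _ => le_rfl)
      (fun x _ => le_rfl) (by rw [one_mul]) zero_le_one P.one_le_rho
  | succ J ih =>
    by_cases hA : ∃ k, k ≤ P.K ∧ closedBall x0 r ⊆ Fk n k
    · obtain ⟨k, hk, hsub⟩ := hA
      have hl : 0 < P.W * R n ^ k := lt_of_lt_of_le one_pos (P.one_le_Wk k)
      have hcongr : ∀ x ∈ closedBall x0 r, P.w (J + 1) x = P.W * R n ^ k * P.w J (Sk k x) :=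
        fun x hx => w_succ_F J hk (hsub hx)
      have h := ih (Sk k x0) (r := r / rk k) (div_pos hr (rk_pos k))
      unfold Concl at h ⊢
      rw [Phi_congr measurableSet_closedBall hcongr, Psi_congr measurableSet_closedBall hcongr,
        Phi_scale (P.nice_w J) P.wG_pos (P.wG_le_w J) hl k x0 hr,
        Psi_scale P.pq (P.nice_w J) P.wG_pos (P.wG_le_w J) hl k x0 hr]
      exact h
    · push Not at hA
      by_cases hB : closedBall x0 r ⊆ closedBall (0 : E n) 1
      · -- find the maximal level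
        have hex : ∃ k, k ≤ P.K ∧ closedBall x0 r ⊆ closedBall (0 : E n) ((1 / 8 : ℝ) ^ k) ∧
            (k = P.K ∨ ¬ closedBall x0 r ⊆ closedBall (0 : E n) ((1 / 8 : ℝ) ^ (k + 1))) := by
          classical
          set k := Nat.findGreatest
            (fun k => closedBall x0 r ⊆ closedBall (0 : E n) ((1 / 8 : ℝ) ^ k)) P.K with hkdef
          refine ⟨k, Nat.findGreatest_le _, ?_, ?_⟩
          · exact Nat.findGreatest_spec
              (P := fun k => closedBall x0 r ⊆ closedBall (0 : E n) ((1 / 8 : ℝ) ^ k))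
              (Nat.zero_le _) (by simpa using hB)
          · by_cases hkK : k = P.K
            · exact Or.inl hkK
            · right
              have hlt : k < P.K := lt_of_le_of_ne (Nat.findGreatest_le _) hkK
              exact Nat.findGreatest_is_greatest (Nat.lt_succ_self k) hlt
        obtain ⟨k, hk, hD, hmax⟩ := hex
        exact concl_D hS J hr hA hk hD hmax
      · obtain ⟨c, hc, hcB⟩ := Set.not_subset.mp hB
        rw [mem_closedBall, dist_zero_right, not_le] at hcB
        by_cases hcore : ∃ a ∈ closedBall x0 r, ‖a‖ ≤ 3 / 4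
        · obtain ⟨a, ha, hac⟩ := hcore
          have h2 := dist_in_ball ha hc
          obtain ⟨h6, h7⟩ := P.large J (Nat.zero_le P.K) hr (Or.inl rfl)
            (by rw [pow_zero]; linarith)
          exact ⟨h6, h7.trans hS.c3⟩
        · push Not at hcore
          apply concl_ratio hS (J + 1) hr (m := P.ε) (M := P.ε) (ρ := 1) hε
            (fun x hx => (P.w_out (J + 1) (hcore x hx)).ge)
            (fun x hx => (P.w_out (J + 1) (hcore x hx)).le) (by rw [one_mul]) zero_le_one
            P.one_le_rho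

end Par

end Pool.Agent.Helper51
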