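import Pool.Agent.Helper51.CZCube

open MeasureTheory Metric Set

namespace Pool.Agent.Helper51

variable {n : ℕ}

theorem vol_cmp {a r : ℝ} (ha : 0 ≤ a) (h : a ≤ 64 * r) : 2 ^ n * a ^ n ≤ R n ^ 2 * (2 * r) ^ n := by
  have h1 : R n ^ 2 = (64 : ℝ) ^ n := by
    unfold R
    rw [← pow_mul, mul_comm, pow_mul]
    norm_num
  rw [h1, ← mul_pow, ← mul_pow]
  exact pow_le_pow_left₀ (by positivity) (by linarith) n

namespace Par

variable (P : Par n)

theorem two_mul_le_exp (y : ℝ) (hy : 0 ≤ y) : 2 * y ≤ Real.exp y := by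
  have h1 := Real.add_one_le_exp (y / 2)
  have h2 : Real.exp y = Real.exp (y / 2) * Real.exp (y / 2) := by
    rw [← Real.exp_add]; congr 1; ring
  rw [h2]
  nlinarith [sq_nonneg (1 - y / 2)]

theorem logR_nonneg : 0 ≤ Real.log (R n) := Real.log_nonneg R_ge_one

theorem y_le : 2 * (((P.K : ℝ) + 1) * Real.log (R n)) * (R n ^ (P.K + 1))⁻¹ ≤ 1 := by
  have hR := R_pos (n := n)
  set y := ((P.K : ℝ) + 1) * Real.log (R n) with hy
  have hy0 : 0 ≤ y := mul_nonneg (by positivity) logR_nonneg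
  have h1 : R n ^ (P.K + 1) = Real.exp y := by
    rw [hy]
    have : Real.exp (((P.K : ℝ) + 1) * Real.log (R n)) = (R n) ^ ((P.K : ℝ) + 1) := by
      rw [Real.rpow_def_of_pos hR, mul_comm]
    rw [this]
    have e : ((P.K : ℝ) + 1) = ((P.K + 1 : ℕ) : ℝ) := by push_cast; ring
    rw [e, Real.rpow_natCast]
  rw [h1, ← div_eq_mul_inv, div_le_one (Real.exp_pos _)]
  exact two_mul_le_exp y hy0

theorem g_eq : P.g = (R n ^ P.K)⁻¹ * (R n ^ (P.K + 1))⁻¹ := by
  unfold g
  rw [← mul_inv, ← pow_add]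
  congr 2
  omega

theorem ell_le : P.ell ≤ (P.p - 1) * (R n ^ P.K)⁻¹ := by
  have hR := R_pos (n := n)
  have hp := P.hp
  have h1 := P.y_le
  have hlg : Real.log P.g = -((2 * (P.K : ℝ) + 1) * Real.log (R n)) := by
    unfold g
    rw [Real.log_inv, Real.log_pow]
    push_cast
    ring
  have h2 : Real.log P.ε - Real.log P.wG = (P.p - 1) * ((2 * (P.K : ℝ) + 1) * Real.log (R n)) := by
    unfold wG
    rw [Real.log_mul P.hε.ne' (Real.rpow_pos_of_pos P.g_pos _).ne', Real.log_rpow P.g_pos, hlg]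
    ring
  unfold ell
  rw [h2, P.g_eq]
  have hlogR := logR_nonneg (n := n)
  have h3 : (2 * (P.K : ℝ) + 1) * Real.log (R n) ≤ 2 * (((P.K : ℝ) + 1) * Real.log (R n)) := by
    nlinarith
  have hA : 0 < (R n ^ P.K)⁻¹ := by positivity
  have hB : 0 < (R n ^ (P.K + 1))⁻¹ := by positivity
  calc (R n ^ P.K)⁻¹ * (R n ^ (P.K + 1))⁻¹ * ((P.p - 1) * ((2 * (P.K : ℝ) + 1) * Real.log (R n)))
      = (P.p - 1) * (R n ^ P.K)⁻¹ *
        (((2 * (P.K : ℝ) + 1) * Real.log (R n)) * (R n ^ (P.K + 1))⁻¹) := by ring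
    _ ≤ (P.p - 1) * (R n ^ P.K)⁻¹ * 1 := by
        apply mul_le_mul_of_nonneg_left _ (mul_nonneg (by linarith) hA.le)
        exact (mul_le_mul_of_nonneg_right h3 hB.le).trans h1
    _ = _ := mul_one _

theorem g_log_le {k : ℕ} (hk : k ≤ P.K) : P.g * (k * Real.log (R n)) ≤ (R n ^ P.K)⁻¹ := by
  have hR := R_pos (n := n)
  have h1 := P.y_le
  have hlogR := logR_nonneg (n := n)
  rw [P.g_eq]
  have hA : 0 < (R n ^ P.K)⁻¹ := by positivity
  have hB : 0 < (R n ^ (P.K + 1))⁻¹ := by positivity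
  have hk' : (k : ℝ) ≤ P.K := by exact_mod_cast hk
  have h3 : (k : ℝ) * Real.log (R n) ≤ 2 * (((P.K : ℝ) + 1) * Real.log (R n)) := by
    nlinarith [(Nat.cast_nonneg P.K : (0 : ℝ) ≤ P.K)]
  calc (R n ^ P.K)⁻¹ * (R n ^ (P.K + 1))⁻¹ * (k * Real.log (R n))
      = (R n ^ P.K)⁻¹ * ((k * Real.log (R n)) * (R n ^ (P.K + 1))⁻¹) := by ring
    _ ≤ (R n ^ P.K)⁻¹ * 1 := by
        apply mul_le_mul_of_nonneg_left _ hA.le
        exact (mul_le_mul_of_nonneg_right h3 hB.le).trans h1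
    _ = _ := mul_one _

theorem int_lneg_D' [NeZero n] (J : ℕ) {k : ℕ} (hk : k ≤ P.K) :
    ∫ x in closedBall (0 : E n) ((1 / 8 : ℝ) ^ k), P.lneg (P.ε * R n ^ k) (J + 1) x ≤
      (2 * P.p - 1) * (2 ^ n * (R n ^ k)⁻¹) := by
  have hR := R_pos (n := n)
  have hp := P.hp
  have h := P.int_lneg_D J hk
  have h1 := P.ell_le
  have h2 := P.g_log_le hk
  have h3 : (R n ^ P.K)⁻¹ ≤ (R n ^ k)⁻¹ :=
    inv_anti₀ (by positivity) (pow_le_pow_right₀ R_ge_one hk)
  have h4 : (R n ^ k)⁻¹ ≤ 1 := inv_le_one_of_one_le₀ (one_le_R_pow _)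
  have h5 : 0 < (R n ^ P.K)⁻¹ := by positivity
  have h6 : (R n ^ k)⁻¹ * P.ell ≤ P.ell := by
    have := P.ell_nonneg
    nlinarith
  have h7 : P.g * (k * Real.log (R n)) + P.ell + (R n ^ k)⁻¹ * P.ell ≤
      (2 * P.p - 1) * (R n ^ k)⁻¹ := by nlinarith
  have h2n : (0 : ℝ) < 2 ^ n := by positivity
  calc _ ≤ _ := h
    _ ≤ (2 * P.p - 1) * (R n ^ k)⁻¹ * 2 ^ n := mul_le_mul_of_nonneg_right h7 h2n.le
    _ = _ := by ring

theorem split_int {h : E n → ℝ} (hn : Nice h) (h0 : ∀ x, 0 ≤ h x) {x0 : E n} {r c : ℝ} (hr : 0 < r)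
    (hc : 0 ≤ c) {k : ℕ} (hI : k = 0 ∨ closedBall x0 r ⊆ closedBall (0 : E n) ((1 / 8 : ℝ) ^ k))
    (hout : k = 0 → ∀ x, 1 < ‖x‖ → h x ≤ c) :
    ∫ x in closedBall x0 r, h x ≤
      (∫ x in closedBall (0 : E n) ((1 / 8 : ℝ) ^ k), h x) + c * (2 * r) ^ n := by
  set D := closedBall (0 : E n) ((1 / 8 : ℝ) ^ k) with hD
  have hDm : MeasurableSet D := measurableSet_closedBall
  have hnD : Nice (D.indicator h) := hn.indicator hDm
  calc ∫ x in closedBall x0 r, h x ≤ ∫ x in closedBall x0 r, (D.indicator h x + c) := by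
        apply setIntegral_mono_on (hn.integrableOn (vol_ball_ne_top _ _))
          ((hnD.add (Nice.const c)).integrableOn (vol_ball_ne_top _ _)) measurableSet_closedBall
        intro x hx
        by_cases hxD : x ∈ D
        · rw [Set.indicator_of_mem hxD]
          linarith
        · rw [Set.indicator_of_notMem hxD, zero_add]
          rcases hI with hk | hI
          · apply hout hk
            subst hk
            rw [hD, mem_closedBall, dist_zero_right, pow_zero, not_le] at hxD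
            exact hxD
          · exact absurd (hI hx) hxD
    _ = (∫ x in closedBall x0 r, D.indicator h x) + c * (2 * r) ^ n := by
        rw [integral_add (hnD.integrableOn (vol_ball_ne_top _ _))
          ((Nice.const c).integrableOn (vol_ball_ne_top _ _)), setInt_const, vol_ball _ hr.le]
        ring
    _ ≤ _ := by
        gcongr
        rw [setIntegral_indicator hDm]
        apply setIntegral_mono_set (hn.integrableOn (vol_ball_ne_top _ _))
          (Filter.Eventually.of_forall h0)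
        exact (Set.inter_subset_right).eventuallyLE

theorem rpow_split (n : ℕ) [NeZero n] (k : ℕ) : (0 : ℝ) < R n ^ k := by
  have := R_pos (n := n)
  positivity

/-- `Λ = (K+1) log R` -/
noncomputable def Lam : ℝ := ((P.K : ℝ) + 1) * Real.log (R n)

theorem Lam_nonneg : 0 ≤ P.Lam := mul_nonneg (by positivity) logR_nonneg

/-- final constant for `Phi` (independent of `K` and `ε`) -/
noncomputable def C1 (n : ℕ) (p : ℝ) : ℝ :=
  (3 * R n ^ 3) ^ (1 / (p - 1) + 1) * (5 * R n ^ 2) * Real.exp ((2 * p - 1) * R n ^ 2)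

/-- constant for `Psi` (depends on `K`, not on `ε`) -/
noncomputable def C2 (n : ℕ) (p : ℝ) (K : ℕ) : ℝ :=
  (5 * R n ^ (K + 2)) ^ p * (3 * R n ^ (K + 3)) *
    Real.exp (1 / (p - 1) * (3 * (((K : ℝ) + 1) * Real.log (R n)) * R n ^ (K + 2)))

theorem log_v (k : ℕ) : Real.log (P.ε * R n ^ k) = Real.log P.ε + k * Real.log (R n) := by
  have hR := R_pos (n := n)
  rw [Real.log_mul P.hε.ne' (by positivity), Real.log_pow]

theorem pq : P.q * P.p = P.q + 1 := by
  have := P.q_mul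
  linarith

theorem p_pos : 0 < P.p := by have := P.hp; linarith

theorem eps_rpow : P.ε ^ (-(P.q + 1)) = P.ε ^ (-P.q) * P.ε⁻¹ := by
  rw [neg_add, Real.rpow_add P.hε, Real.rpow_neg_one]

theorem large [NeZero n] (J : ℕ) {k : ℕ} (hk : k ≤ P.K) {x0 : E n} {r : ℝ} (hr : 0 < r)
    (hI : k = 0 ∨ closedBall x0 r ⊆ closedBall (0 : E n) ((1 / 8 : ℝ) ^ k))
    (hrk : (1 / 8 : ℝ) ^ k ≤ 64 * r) :
    Phi P.q (P.w (J + 1)) (closedBall x0 r) ≤ C1 n P.p * P.ε ^ (-(P.q + 1)) ∧
    Psi P.p P.q (P.w (J + 1)) (closedBall x0 r) ≤ C2 n P.p P.K * P.ε⁻¹ := by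
  have hR := R_pos (n := n)
  have hR1 := R_ge_one (n := n)
  have hR8 := R_ge (n := n)
  have hε := P.hε
  have hε4 := P.ε_le
  have hp := P.hp
  have hq := P.q_pos
  have hV : (0 : ℝ) < (2 * r) ^ n := by positivity
  have h2n : (0 : ℝ) < 2 ^ n := by positivity
  have hRk : 0 < R n ^ k := by positivity
  have hRk1 : 1 ≤ R n ^ k := one_le_R_pow k
  have hεq : 0 < P.ε ^ (-P.q) := Real.rpow_pos_of_pos hε _
  have hvol : 2 ^ n * (R n ^ k)⁻¹ ≤ R n ^ 2 * (2 * r) ^ n := by
    have := vol_cmp (n := n) (e8_pos k).le hrk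
    rwa [e8_pow] at this
  have hvol2 : (2 : ℝ) ^ n ≤ R n ^ (k + 2) * (2 * r) ^ n := by
    have h := mul_le_mul_of_nonneg_left hvol hRk.le
    have e1 : R n ^ k * (2 ^ n * (R n ^ k)⁻¹) = 2 ^ n := by field_simp
    rw [e1] at h
    calc (2 : ℝ) ^ n ≤ _ := h
      _ = _ := by rw [pow_add]; ring
  have hwp := P.w_pos (J + 1)
  have hwout : ∀ x : E n, 1 < ‖x‖ → P.w (J + 1) x = P.ε := fun x hx =>
    P.w_out (J + 1) (by linarith)
  have hR2 : 1 ≤ R n ^ 2 := one_le_R_pow 2
  -- X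
  have hX : ∫ x in closedBall x0 r, P.w (J + 1) x ≤ (3 * R n ^ 2) * (2 * r) ^ n := by
    refine (split_int (P.nice_w _) (fun x => (hwp x).le) hr hε.le hI
      (fun _ x hx => (hwout x hx).le)).trans ?_
    have := P.int_w_D J hk
    nlinarith
  -- Y
  have hY : ∫ x in closedBall x0 r, P.w (J + 1) x ^ (-P.q) ≤
      (5 * R n ^ (k + 2) * P.ε ^ (-P.q)) * (2 * r) ^ n := by
    refine (split_int (P.nice_rpow _) (fun x => Real.rpow_nonneg (hwp x).le _) hr hεq.le hI
      (fun _ x hx => by rw [hwout x hx])).trans ?_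
    have h1 : ∫ x in closedBall (0 : E n) ((1 / 8 : ℝ) ^ k), P.w (J + 1) x ^ (-P.q) ≤
        ∫ x in closedBall (0 : E n) 1, P.w (J + 1) x ^ (-P.q) := by
      apply setIntegral_mono_set ((P.nice_rpow _).integrableOn (vol_ball_ne_top _ _))
        (Filter.Eventually.of_forall fun x => Real.rpow_nonneg (hwp x).le _)
      exact (closedBall_subset_closedBall (e8_le_one k)).eventuallyLE
    have h2 := P.int_sigma (J + 1)
    have h3 : 4 * P.ε ^ (-P.q) * 2 ^ n ≤ 4 * P.ε ^ (-P.q) * (R n ^ (k + 2) * (2 * r) ^ n) :=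
      mul_le_mul_of_nonneg_left hvol2 (by positivity)
    have h4 : 1 ≤ R n ^ (k + 2) := one_le_R_pow _
    have h5 : P.ε ^ (-P.q) * (2 * r) ^ n ≤ R n ^ (k + 2) * (P.ε ^ (-P.q) * (2 * r) ^ n) :=
      le_mul_of_one_le_left (by positivity) h4
    linarith
  -- Z
  have hZ : -(-Real.log (P.ε * R n ^ k) + (2 * P.p - 1) * R n ^ 2) * (2 * r) ^ n ≤
      ∫ x in closedBall x0 r, Real.log (P.w (J + 1) x) := by
    have h1 : ∫ x in closedBall x0 r, P.lneg (P.ε * R n ^ k) (J + 1) x ≤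
        (2 * P.p - 1) * R n ^ 2 * (2 * r) ^ n := by
      refine (split_int (P.nice_lneg _ _) (fun x => le_max_right _ _) hr (le_refl 0) hI
        (fun hk0 x hx => ?_)).trans ?_
      · subst hk0
        unfold lneg
        rw [hwout x hx]
        simp
      · have h2 := P.int_lneg_D' J hk
        have h3 : (2 * P.p - 1) * (2 ^ n * (R n ^ k)⁻¹) ≤ (2 * P.p - 1) *
          (R n ^ 2 * (2 * r) ^ n) := mul_le_mul_of_nonneg_left hvol (by linarith)
        linarith
    have h2 : ∫ x in closedBall x0 r, (Real.log (P.ε * R n ^ k) +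
        -1 * P.lneg (P.ε * R n ^ k) (J + 1) x) ≤
        ∫ x in closedBall x0 r, Real.log (P.w (J + 1) x) := by
      apply setIntegral_mono_on
        (((Nice.const _).add ((Nice.const (-1)).mul (P.nice_lneg _ _))).integrableOn
          (vol_ball_ne_top _ _))
        ((P.nice_logw _).integrableOn (vol_ball_ne_top _ _)) measurableSet_closedBall
      intro x _
      have := le_max_left (Real.log (P.ε * R n ^ k) - Real.log (P.w (J + 1) x)) 0
      unfold lneg
      linarith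
    rw [integral_add ((Nice.const _).integrableOn (vol_ball_ne_top _ _))
      (((Nice.const (-1)).mul (P.nice_lneg _ _)).integrableOn (vol_ball_ne_top _ _)),
      setInt_const, integral_const_mul, vol_ball _ hr.le] at h2
    linarith
  -- U
  have hU : ∫ x in closedBall x0 r, Real.log (P.w (J + 1) x) ≤
      (Real.log P.ε + 3 * P.Lam * R n ^ (P.K + 2)) * (2 * r) ^ n := by
    have hL := P.Lam_nonneg
    have h1 : ∫ x in closedBall x0 r, P.lpos (J + 1) x ≤
        2 * P.Lam * (R n ^ (P.K + 2) * (2 * r) ^ n) := by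
      refine (split_int (P.nice_lpos _) (fun x => le_max_right _ _) hr (le_refl 0) hI
        (fun _ x hx => ?_)).trans ?_
      · unfold lpos
        rw [hwout x hx]
        simp
      · have h1 : ∫ x in closedBall (0 : E n) ((1 / 8 : ℝ) ^ k), P.lpos (J + 1) x ≤
            ∫ x in closedBall (0 : E n) 1, P.lpos (J + 1) x := by
          apply setIntegral_mono_set ((P.nice_lpos _).integrableOn (vol_ball_ne_top _ _))
            (Filter.Eventually.of_forall fun x => le_max_right _ _)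
          exact (closedBall_subset_closedBall (e8_le_one k)).eventuallyLE
        have h2 := P.int_lpos (J + 1)
        have h3 : R n ^ (k + 2) * (2 * r) ^ n ≤ R n ^ (P.K + 2) * (2 * r) ^ n :=
          mul_le_mul_of_nonneg_right (pow_le_pow_right₀ hR1 (by omega)) hV.le
        have h4 : 2 * P.Lam * 2 ^ n ≤ 2 * P.Lam * (R n ^ (P.K + 2) * (2 * r) ^ n) :=
          mul_le_mul_of_nonneg_left (hvol2.trans h3) (by positivity)
        unfold Lam at h4 ⊢
        linarith
    have h2 : ∫ x in closedBall x0 r, Real.log (P.w (J + 1) x) ≤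
        ∫ x in closedBall x0 r, (Real.log P.ε + P.lpos (J + 1) x) := by
      apply setIntegral_mono_on ((P.nice_logw _).integrableOn (vol_ball_ne_top _ _))
        (((Nice.const _).add (P.nice_lpos _)).integrableOn
          (vol_ball_ne_top _ _)) measurableSet_closedBall
      intro x _
      have := le_max_left (Real.log (P.w (J + 1) x) - Real.log P.ε) 0
      unfold lpos
      linarith
    rw [integral_add ((Nice.const _).integrableOn (vol_ball_ne_top _ _))
      ((P.nice_lpos _).integrableOn (vol_ball_ne_top _ _)),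
      setInt_const, vol_ball _ hr.le] at h2
    have h3 : 0 ≤ P.Lam * (R n ^ (P.K + 2) * (2 * r) ^ n) := by positivity
    linarith
  constructor
  · refine (Phi_le hq hwp hr hX hY hZ).trans ?_
    rw [Real.exp_add, Real.exp_neg, Real.exp_log (by positivity), P.eps_rpow]
    have e1 : (3 * R n ^ 2) ^ (P.q + 1) ≤ (3 * R n ^ 3) ^ (P.q + 1) := by
      apply Real.rpow_le_rpow (by positivity) _ (by linarith)
      have : R n ^ 2 ≤ R n ^ 3 := pow_le_pow_right₀ hR1 (by norm_num)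
      linarith
    have e0 : C1 n P.p = (3 * R n ^ 3) ^ (P.q + 1) * (5 * R n ^ 2) *
      Real.exp ((2 * P.p - 1) * R n ^ 2) := rfl
    rw [e0]
    calc (3 * R n ^ 2) ^ (P.q + 1) * (5 * R n ^ (k + 2) * P.ε ^ (-P.q)) *
          ((P.ε * R n ^ k)⁻¹ * Real.exp ((2 * P.p - 1) * R n ^ 2))
        = (3 * R n ^ 2) ^ (P.q + 1) * ((5 * R n ^ 2) *
          Real.exp ((2 * P.p - 1) * R n ^ 2) * (P.ε ^ (-P.q) * P.ε⁻¹)) := by
          rw [pow_add]
          field_simp
      _ ≤ (3 * R n ^ 3) ^ (P.q + 1) * ((5 * R n ^ 2) *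
          Real.exp ((2 * P.p - 1) * R n ^ 2) * (P.ε ^ (-P.q) * P.ε⁻¹)) :=
          mul_le_mul_of_nonneg_right e1 (by positivity)
      _ = _ := by ring
  · refine (Psi_le P.p_pos hq hwp hr hX hY hU).trans ?_
    have e0 : C2 n P.p P.K = (5 * R n ^ (P.K + 2)) ^ P.p * (3 * R n ^ (P.K + 3)) *
      Real.exp (P.q * (3 * P.Lam * R n ^ (P.K + 2))) := rfl
    have e1 : Real.exp (P.q * (Real.log P.ε + 3 * P.Lam * R n ^ (P.K + 2))) =
        P.ε ^ P.q * Real.exp (P.q * (3 * P.Lam * R n ^ (P.K + 2))) := by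
      rw [mul_add, Real.exp_add]
      congr 1
      rw [Real.rpow_def_of_pos hε, mul_comm]
    have e2 : (5 * R n ^ (k + 2) * P.ε ^ (-P.q)) ^ P.p =
        (5 * R n ^ (k + 2)) ^ P.p * ((P.ε ^ P.q)⁻¹ * P.ε⁻¹) := by
      rw [Real.mul_rpow (by positivity) hεq.le, ← Real.rpow_mul hε.le]
      congr 1
      have : -P.q * P.p = -P.q + -1 := by have := P.pq; linarith
      rw [this, Real.rpow_add hε, Real.rpow_neg hε.le, Real.rpow_neg_one]
    have hεq' : 0 < P.ε ^ P.q := Real.rpow_pos_of_pos hε _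
    rw [e0, e1, e2]
    have e3 : (5 * R n ^ (k + 2)) ^ P.p ≤ (5 * R n ^ (P.K + 2)) ^ P.p := by
      apply Real.rpow_le_rpow (by positivity) _ P.p_pos.le
      have : R n ^ (k + 2) ≤ R n ^ (P.K + 2) := pow_le_pow_right₀ hR1 (by omega)
      linarith
    have e4 : 3 * R n ^ 2 ≤ 3 * R n ^ (P.K + 3) := by
      have : R n ^ 2 ≤ R n ^ (P.K + 3) := pow_le_pow_right₀ hR1 (by omega)
      linarith
    calc (5 * R n ^ (k + 2)) ^ P.p * ((P.ε ^ P.q)⁻¹ * P.ε⁻¹) * (3 * R n ^ 2) *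
          (P.ε ^ P.q * Real.exp (P.q * (3 * P.Lam * R n ^ (P.K + 2))))
        = ((5 * R n ^ (k + 2)) ^ P.p * (3 * R n ^ 2)) *
          (Real.exp (P.q * (3 * P.Lam * R n ^ (P.K + 2))) * P.ε⁻¹) := by field_simp
      _ ≤ ((5 * R n ^ (P.K + 2)) ^ P.p * (3 * R n ^ (P.K + 3))) *
          (Real.exp (P.q * (3 * P.Lam * R n ^ (P.K + 2))) * P.ε⁻¹) := by
          apply mul_le_mul_of_nonneg_right _ (by positivity)
          exact mul_le_mul e3 e4 (by positivity) (by positivity)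
      _ = _ := by ring

end Par

end Pool.Agent.Helper51
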