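import Pool.Agent.Helper51.TreeOp

/-! Failure of the endpoint estimates for all operators with kernel positive on a cone. -/

open MeasureTheory Metric Set
open scoped ENNReal NNReal Topology

namespace Pool.Agent.Helper51

open Mixed

variable {n : ℕ}

theorem adm_cone [NeZero n] (P : Par n) {K : E n → E n → ℝ} {c0 : ℝ} (hc0 : 0 < c0)
    (hK : ConePositive K c0) : Adm P K c0 (fun _ _ => True) := by
  refine ⟨fun _ _ _ _ _ _ => trivial, ?_⟩
  intro c ρ hρ _ k hk x hx y hy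
  have h8 := e8_pos k
  have hR := R_pos (n := n)
  have hrk := rk_le k
  have hg : (1 / 8 : ℝ) ^ (2 * P.K + 1) ≤ (1 / 8) ^ k / 8 := e8_succ_le (by omega)
  have hx1 : ∀ i, |x i - (c i + ρ * ((1 / 8) ^ k / 2))| ≤ ρ * ((1 / 8) ^ k / 8) := by
    intro i
    rw [mem_closedBall, dist_eq_norm] at hx
    have h1 := norm_le_pi_norm (x - (c + ρ • ck n k)) i
    rw [Real.norm_eq_abs] at h1
    have h2 : (x - (c + ρ • ck n k)) i = x i - (c i + ρ * ((1 / 8) ^ k / 2)) := rfl
    rw [h2] at h1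
    have h3 : ρ * rk k ≤ ρ * ((1 / 8) ^ k / 8) := mul_le_mul_of_nonneg_left hrk hρ.le
    linarith
  have hy1 : ∀ i, |y i - c i| ≤ ρ * ((1 / 8) ^ k / 8) := by
    intro i
    rw [mem_closedBall, dist_eq_norm] at hy
    have h1 := norm_le_pi_norm (y - c) i
    rw [Real.norm_eq_abs] at h1
    have h2 : (y - c) i = y i - c i := rfl
    rw [h2] at h1
    have h3 : ρ * (1 / 8 : ℝ) ^ (2 * P.K + 1) ≤ ρ * ((1 / 8) ^ k / 8) :=
      mul_le_mul_of_nonneg_left hg hρ.le
    linarith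
  have hρ8 : 0 < ρ * (1 / 8 : ℝ) ^ k := by positivity
  have hlo : ∀ i, ρ * (1 / 8) ^ k * (1 / 4) ≤ x i - y i := by
    intro i
    have h1 := (abs_le.mp (hx1 i)).1
    have h2 := (abs_le.mp (hy1 i)).2
    nlinarith
  have hhi : ∀ i, x i - y i ≤ ρ * (1 / 8) ^ k * (3 / 4) := by
    intro i
    have h1 := (abs_le.mp (hx1 i)).2
    have h2 := (abs_le.mp (hy1 i)).1
    nlinarith
  have hcone := hK x y fun i j => ⟨by
    have := hlo i
    linarith, by
    have := hlo j
    have := hhi i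
    linarith⟩
  refine le_trans ?_ hcone
  have hnorm : ‖x - y‖ ≤ ρ * (1 / 8) ^ k := by
    rw [pi_norm_le_iff_of_nonneg hρ8.le]
    intro i
    rw [Real.norm_eq_abs, abs_le]
    have h2 : (x - y) i = x i - y i := rfl
    rw [h2]
    have := hlo i
    have := hhi i
    constructor <;> linarith
  have hpos : 0 < ‖x - y‖ := by
    have h1 := norm_le_pi_norm (x - y) 0
    rw [Real.norm_eq_abs] at h1
    have h2 : (x - y) 0 = x 0 - y 0 := rfl
    rw [h2] at h1
    have h3 := hlo 0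
    have h4 := le_abs_self (x 0 - y 0)
    linarith
  have h5 : ‖x - y‖ ^ n ≤ ρ ^ n * (R n ^ k)⁻¹ := by
    have := pow_le_pow_left₀ (norm_nonneg _) hnorm n
    rwa [mul_pow, e8_pow] at this
  have h6 : c0 * (R n ^ k / ρ ^ n) = c0 / (ρ ^ n * (R n ^ k)⁻¹) := by
    field_simp
  rw [h6]
  exact div_le_div_of_nonneg_left hc0.le (by positivity) h5

/-- both estimates fail for `α = 0` when the kernel is positive on a cone -/
theorem fails_cone [NeZero n] {T : Fn n → Fn n} {K : E n → E n → ℝ} {C δ c0 p : ℝ}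
    (hT : IsBdd T) (hker : IsKernel K C δ) (hK : HasKernel T K) (hc0 : 0 < c0)
    (hcone : ConePositive K c0) (hp : 1 < p) :
    ¬ WeakBound T p 0 ∧ ¬ StrongBound T p 0 := by
  have hC : 0 ≤ C := by
    have h1 := hker.size (fun _ => 1) 0 (by
      intro h
      have := congrFun h 0
      simp at this)
    have h2 : ‖((fun _ => 1 : E n) - 0)‖ = 1 := by
      rw [sub_zero]
      have : Nonempty (Fin n) := ⟨0⟩
      rw [pi_norm_const, norm_one]
    have h3 : gap (fun _ => 1 : E n) 0 = 1 := h2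
    rw [h3, one_pow, div_one] at h1
    exact (abs_nonneg _).trans h1
  exact fails_of_adm hT hK hker.measurable hC hker.size hc0
    (fun P => ⟨fun _ _ => True, adm_cone P hc0 hcone, trivial⟩) hp

/-- the endpoint `α = 0` -/
theorem endpoint (n : ℕ) (hn : 1 ≤ n) :
    (∃ T : Fn n → Fn n, IsCZO T ∧ ∀ p, 1 < p → ¬ WeakBound T p 0 ∧ ¬ StrongBound T p 0) ∧
    (∀ (T : Fn n → Fn n) (K : Pt n → Pt n → ℝ) (C δ c₀ : ℝ),
      IsBdd T → IsKernel K C δ → HasKernel T K → 0 < c₀ → ConePositive K c₀ →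
      ∀ p, 1 < p → ¬ WeakBound T p 0 ∧ ¬ StrongBound T p 0) := by
  have : NeZero n := ⟨by omega⟩
  exact ⟨⟨Tree.T, Tree.isCZO_T, fun p hp => Tree.fails_T hp⟩,
    fun T K C δ c₀ hT hker hK hc0 hcone p hp => fails_cone hT hker hK hc0 hcone hp⟩

end Pool.Agent.Helper51
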