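import Pool.Agent.Helper51.CZInt

open MeasureTheory Metric Set

namespace Pool.Agent.Helper51

variable {n : ℕ}

/-- the one-supremum functional of the weight, to the power `p'` (`q = p'-1`) -/
noncomputable def Phi (q : ℝ) (w : E n → ℝ) (I : Set (E n)) : ℝ :=
  (⨍ x in I, w x) ^ (q + 1) * (⨍ x in I, w x ^ (-q)) * Real.exp (-(⨍ x in I, Real.log (w x)))

/-- the one-supremum functional of the dual weight, to the power `p` -/
noncomputable def Psi (p q : ℝ) (w : E n → ℝ) (I : Set (E n)) : ℝ :=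
  (⨍ x in I, w x ^ (-q)) ^ p * (⨍ x in I, w x) * Real.exp (q * (⨍ x in I, Real.log (w x)))

theorem avg_le {f : E n → ℝ} {x0 : E n} {r c : ℝ} (hr : 0 < r)
    (h : ∫ x in closedBall x0 r, f x ≤ c * (2 * r) ^ n) : ⨍ x in closedBall x0 r, f x ≤ c := by
  rw [setAverage_eq, vol_ball _ hr.le, smul_eq_mul, inv_mul_le_iff₀ (by positivity), mul_comm]
  exact h

theorem le_avg {f : E n → ℝ} {x0 : E n} {r c : ℝ} (hr : 0 < r)
    (h : c * (2 * r) ^ n ≤ ∫ x in closedBall x0 r, f x) : c ≤ ⨍ x in closedBall x0 r, f x := by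
  rw [setAverage_eq, vol_ball _ hr.le, smul_eq_mul, le_inv_mul_iff₀ (by positivity), mul_comm]
  exact h

theorem avg_nonneg {f : E n → ℝ} (hf : ∀ x, 0 ≤ f x) (I : Set (E n)) : 0 ≤ ⨍ x in I, f x := by
  rw [setAverage_eq, smul_eq_mul]
  exact mul_nonneg (by positivity) (integral_nonneg hf)

theorem Phi_le {q : ℝ} (hq : 0 < q) {w : E n → ℝ} (hw : ∀ x, 0 < w x) {x0 : E n} {r X Y Z : ℝ}
    (hr : 0 < r)
    (hX : ∫ x in closedBall x0 r, w x ≤ X * (2 * r) ^ n)
    (hY : ∫ x in closedBall x0 r, w x ^ (-q) ≤ Y * (2 * r) ^ n)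
    (hZ : -Z * (2 * r) ^ n ≤ ∫ x in closedBall x0 r, Real.log (w x)) :
    Phi q w (closedBall x0 r) ≤ X ^ (q + 1) * Y * Real.exp Z := by
  have h1 := avg_le hr hX
  have h2 := avg_le hr hY
  have h3 := le_avg hr hZ
  have h4 := avg_nonneg (fun x => (hw x).le) (closedBall x0 r)
  have h5 := avg_nonneg (fun x => Real.rpow_nonneg (hw x).le (-q)) (closedBall x0 r)
  unfold Phi
  apply mul_le_mul _ (Real.exp_le_exp.mpr (by linarith)) (Real.exp_pos _).le
  · exact mul_nonneg (Real.rpow_nonneg (h4.trans h1) _) (h5.trans h2)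
  · exact mul_le_mul (Real.rpow_le_rpow h4 h1 (by linarith)) h2 h5
      (Real.rpow_nonneg (h4.trans h1) _)

theorem Psi_le {p q : ℝ} (hp : 0 < p) (hq : 0 < q) {w : E n → ℝ} (hw : ∀ x, 0 < w x) {x0 : E n}
    {r X Y U : ℝ} (hr : 0 < r)
    (hX : ∫ x in closedBall x0 r, w x ≤ X * (2 * r) ^ n)
    (hY : ∫ x in closedBall x0 r, w x ^ (-q) ≤ Y * (2 * r) ^ n)
    (hU : ∫ x in closedBall x0 r, Real.log (w x) ≤ U * (2 * r) ^ n) :
    Psi p q w (closedBall x0 r) ≤ Y ^ p * X * Real.exp (q * U) := by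
  have h1 := avg_le hr hX
  have h2 := avg_le hr hY
  have h3 := avg_le hr hU
  have h4 := avg_nonneg (fun x => (hw x).le) (closedBall x0 r)
  have h5 := avg_nonneg (fun x => Real.rpow_nonneg (hw x).le (-q)) (closedBall x0 r)
  unfold Psi
  apply mul_le_mul _ (Real.exp_le_exp.mpr (mul_le_mul_of_nonneg_left h3 hq.le)) (Real.exp_pos _).le
  · exact mul_nonneg (Real.rpow_nonneg (h5.trans h2) _) (h4.trans h1)
  · exact mul_le_mul (Real.rpow_le_rpow h5 h2 hp.le) h1 h4
      (Real.rpow_nonneg (h5.trans h2) _)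

theorem Phi_congr {q : ℝ} {w v : E n → ℝ} {I : Set (E n)} (hI : MeasurableSet I)
    (h : ∀ x ∈ I, w x = v x) : Phi q w I = Phi q v I := by
  unfold Phi
  have e1 : ⨍ x in I, w x = ⨍ x in I, v x :=
    setAverage_congr_fun hI (Filter.Eventually.of_forall h)
  have e2 : ⨍ x in I, w x ^ (-q) = ⨍ x in I, v x ^ (-q) :=
    setAverage_congr_fun hI (Filter.Eventually.of_forall fun x hx => by
      show w x ^ (-q) = v x ^ (-q)
      rw [h x hx])
  have e3 : ⨍ x in I, Real.log (w x) = ⨍ x in I, Real.log (v x) :=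
    setAverage_congr_fun hI (Filter.Eventually.of_forall fun x hx => by
      show Real.log (w x) = Real.log (v x)
      rw [h x hx])
  rw [e1, e2, e3]

theorem Psi_congr {p q : ℝ} {w v : E n → ℝ} {I : Set (E n)} (hI : MeasurableSet I)
    (h : ∀ x ∈ I, w x = v x) : Psi p q w I = Psi p q v I := by
  unfold Psi
  have e1 : ⨍ x in I, w x = ⨍ x in I, v x :=
    setAverage_congr_fun hI (Filter.Eventually.of_forall h)
  have e2 : ⨍ x in I, w x ^ (-q) = ⨍ x in I, v x ^ (-q) :=
    setAverage_congr_fun hI (Filter.Eventually.of_forall fun x hx => by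
      show w x ^ (-q) = v x ^ (-q)
      rw [h x hx])
  have e3 : ⨍ x in I, Real.log (w x) = ⨍ x in I, Real.log (v x) :=
    setAverage_congr_fun hI (Filter.Eventually.of_forall fun x hx => by
      show Real.log (w x) = Real.log (v x)
      rw [h x hx])
  rw [e1, e2, e3]

theorem avg_Sk (f : E n → ℝ) (k : ℕ) (x0 : E n) {r : ℝ} (hr : 0 < r) :
    ⨍ x in closedBall x0 r, f (Sk k x) = ⨍ z in closedBall (Sk k x0) (r / rk k), f z := by
  have hk := rk_pos k
  have h := scale_integral f (ck n k) (Sk k x0) hk (r / rk k)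
  have e1 : ck n k + rk k • Sk k x0 = x0 := by
    unfold Sk
    rw [smul_smul, mul_inv_cancel₀ hk.ne', one_smul]
    abel
  have e2 : rk k * (r / rk k) = r := by field_simp
  rw [e1, e2] at h
  rw [setAverage_eq, setAverage_eq, vol_ball _ hr.le, vol_ball _ (by positivity), smul_eq_mul,
    smul_eq_mul]
  have h' : ∫ x in closedBall x0 r, f (Sk k x) =
      rk k ^ n * ∫ z in closedBall (Sk k x0) (r / rk k), f z := h
  rw [h']
  have : (2 * (r / rk k)) ^ n = (2 * r) ^ n / rk k ^ n := by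
    rw [← div_pow]; congr 1; ring
  rw [this]
  have h1 : rk k ^ n ≠ 0 := by positivity
  have h2 : (2 * r) ^ n ≠ 0 := by positivity
  field_simp

theorem Phi_scale {q : ℝ} {w : E n → ℝ} (hw : Nice w) {m : ℝ} (hm : 0 < m)
    (hmw : ∀ x, m ≤ w x) {l : ℝ} (hl : 0 < l) (k : ℕ) (x0 : E n) {r : ℝ} (hr : 0 < r) :
    Phi q (fun x => l * w (Sk k x)) (closedBall x0 r) =
      Phi q w (closedBall (Sk k x0) (r / rk k)) := by
  have hwp : ∀ x, 0 < w x := fun x => hm.trans_le (hmw x)
  have hV : (0 : ℝ) < (2 * r) ^ n := by positivity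
  unfold Phi
  rw [← avg_Sk w k x0 hr, ← avg_Sk (fun z => w z ^ (-q)) k x0 hr,
    ← avg_Sk (fun z => Real.log (w z)) k x0 hr]
  have h1 : ⨍ x in closedBall x0 r, l * w (Sk k x) = l * ⨍ x in closedBall x0 r, w (Sk k x) := by
    rw [setAverage_eq, setAverage_eq, integral_const_mul, smul_eq_mul, smul_eq_mul]
    ring
  have h2 : ⨍ x in closedBall x0 r, (l * w (Sk k x)) ^ (-q) =
      l ^ (-q) * ⨍ x in closedBall x0 r, w (Sk k x) ^ (-q) := by
    rw [setAverage_eq, setAverage_eq]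
    have : (fun x => (l * w (Sk k x)) ^ (-q)) = fun x => l ^ (-q) * w (Sk k x) ^ (-q) := by
      funext x
      rw [Real.mul_rpow hl.le (hwp _).le]
    rw [this, integral_const_mul, smul_eq_mul, smul_eq_mul]
    ring
  have h3 : ⨍ x in closedBall x0 r, Real.log (l * w (Sk k x)) =
      Real.log l + ⨍ x in closedBall x0 r, Real.log (w (Sk k x)) := by
    have : (fun x => Real.log (l * w (Sk k x))) = fun x => Real.log l + Real.log (w (Sk k x)) := by
      funext x
      rw [Real.log_mul hl.ne' (hwp _).ne']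
    rw [this, setAverage_eq, setAverage_eq, integral_add
      ((Nice.const _).integrableOn (vol_ball_ne_top _ _))
      (((hw.log hm hmw).comp_Sk k).integrableOn (vol_ball_ne_top _ _)), setInt_const,
      vol_ball _ hr.le, smul_eq_mul, smul_eq_mul]
    field_simp
  rw [h1, h2, h3, Real.mul_rpow hl.le (avg_nonneg (fun x => (hwp _).le) _), neg_add, Real.exp_add,
    Real.exp_neg, Real.exp_log hl, Real.rpow_add hl, Real.rpow_neg hl.le, Real.rpow_one]
  have : l ^ q ≠ 0 := (Real.rpow_pos_of_pos hl q).ne'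
  field_simp

theorem Psi_scale {p q : ℝ} (hpq : q * p = q + 1) {w : E n → ℝ} (hw : Nice w) {m : ℝ} (hm : 0 < m)
    (hmw : ∀ x, m ≤ w x) {l : ℝ} (hl : 0 < l) (k : ℕ) (x0 : E n) {r : ℝ} (hr : 0 < r) :
    Psi p q (fun x => l * w (Sk k x)) (closedBall x0 r) =
      Psi p q w (closedBall (Sk k x0) (r / rk k)) := by
  have hwp : ∀ x, 0 < w x := fun x => hm.trans_le (hmw x)
  have hV : (0 : ℝ) < (2 * r) ^ n := by positivity
  unfold Psi
  rw [← avg_Sk w k x0 hr, ← avg_Sk (fun z => w z ^ (-q)) k x0 hr,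
    ← avg_Sk (fun z => Real.log (w z)) k x0 hr]
  have h1 : ⨍ x in closedBall x0 r, l * w (Sk k x) = l * ⨍ x in closedBall x0 r, w (Sk k x) := by
    rw [setAverage_eq, setAverage_eq, integral_const_mul, smul_eq_mul, smul_eq_mul]
    ring
  have h2 : ⨍ x in closedBall x0 r, (l * w (Sk k x)) ^ (-q) =
      l ^ (-q) * ⨍ x in closedBall x0 r, w (Sk k x) ^ (-q) := by
    rw [setAverage_eq, setAverage_eq]
    have : (fun x => (l * w (Sk k x)) ^ (-q)) = fun x => l ^ (-q) * w (Sk k x) ^ (-q) := by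
      funext x
      rw [Real.mul_rpow hl.le (hwp _).le]
    rw [this, integral_const_mul, smul_eq_mul, smul_eq_mul]
    ring
  have h3 : ⨍ x in closedBall x0 r, Real.log (l * w (Sk k x)) =
      Real.log l + ⨍ x in closedBall x0 r, Real.log (w (Sk k x)) := by
    have : (fun x => Real.log (l * w (Sk k x))) = fun x => Real.log l + Real.log (w (Sk k x)) := by
      funext x
      rw [Real.log_mul hl.ne' (hwp _).ne']
    rw [this, setAverage_eq, setAverage_eq, integral_add
      ((Nice.const _).integrableOn (vol_ball_ne_top _ _))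
      (((hw.log hm hmw).comp_Sk k).integrableOn (vol_ball_ne_top _ _)), setInt_const,
      vol_ball _ hr.le, smul_eq_mul, smul_eq_mul]
    field_simp
  rw [h1, h2, h3, Real.mul_rpow (Real.rpow_nonneg hl.le _)
    (avg_nonneg (fun x => Real.rpow_nonneg (hwp _).le _) _), mul_add, Real.exp_add,
    ← Real.rpow_mul hl.le]
  have e1 : Real.exp (q * Real.log l) = l ^ q := by
    rw [Real.rpow_def_of_pos hl, mul_comm]
  have e2 : l ^ (-q * p) = (l ^ q)⁻¹ * l⁻¹ := by
    have : -q * p = -q + -1 := by linarith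
    rw [this, Real.rpow_add hl, Real.rpow_neg hl.le, Real.rpow_neg hl.le, Real.rpow_one]
  rw [e1, e2]
  have : l ^ q ≠ 0 := (Real.rpow_pos_of_pos hl q).ne'
  field_simp

/-- bounded ratio case -/
theorem Phi_ratio {q : ℝ} (hq : 0 < q) {w : E n → ℝ} (hw : Nice w) {m0 : ℝ} (hm0 : 0 < m0)
    (hmw : ∀ x, m0 ≤ w x) {x0 : E n} {r m M ρ : ℝ} (hr : 0 < r) (hm : 0 < m)
    (h1 : ∀ x ∈ closedBall x0 r, m ≤ w x) (h2 : ∀ x ∈ closedBall x0 r, w x ≤ M)
    (hρ : M ≤ ρ * m) (hρ0 : 0 ≤ ρ) : Phi q w (closedBall x0 r) ≤ ρ ^ (q + 1) := by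
  have hwp : ∀ x, 0 < w x := fun x => hm0.trans_le (hmw x)
  have hvol : volume.real (closedBall x0 r) = (2 * r) ^ n := vol_ball _ hr.le
  have hX : ∫ x in closedBall x0 r, w x ≤ M * (2 * r) ^ n := by
    calc ∫ x in closedBall x0 r, w x ≤ ∫ _x in closedBall x0 r, M :=
          setIntegral_mono_on (hw.integrableOn (vol_ball_ne_top _ _))
            ((Nice.const M).integrableOn (vol_ball_ne_top _ _)) measurableSet_closedBall h2
      _ = _ := by rw [setInt_const, hvol, mul_comm]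
  have hY : ∫ x in closedBall x0 r, w x ^ (-q) ≤ m ^ (-q) * (2 * r) ^ n := by
    calc ∫ x in closedBall x0 r, w x ^ (-q) ≤ ∫ _x in closedBall x0 r, m ^ (-q) :=
          setIntegral_mono_on ((hw.rpow_neg hm0 hq.le hmw).integrableOn (vol_ball_ne_top _ _))
            ((Nice.const _).integrableOn (vol_ball_ne_top _ _)) measurableSet_closedBall
            fun x hx => Real.rpow_le_rpow_of_nonpos hm (h1 x hx) (by linarith)
      _ = _ := by rw [setInt_const, hvol, mul_comm]
  have hZ : -(-Real.log m) * (2 * r) ^ n ≤ ∫ x in closedBall x0 r, Real.log (w x) := by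
    calc -(-Real.log m) * (2 * r) ^ n = ∫ _x in closedBall x0 r, Real.log m := by
          rw [setInt_const, hvol]; ring
      _ ≤ _ := setIntegral_mono_on ((Nice.const _).integrableOn (vol_ball_ne_top _ _))
            ((hw.log hm0 hmw).integrableOn (vol_ball_ne_top _ _)) measurableSet_closedBall
            fun x hx => Real.log_le_log hm (h1 x hx)
  have hM : 0 ≤ M := (hwp x0).le.trans (h2 x0 (mem_closedBall_self hr.le))
  refine (Phi_le hq hwp hr hX hY hZ).trans ?_
  rw [Real.exp_neg, Real.exp_log hm]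
  calc M ^ (q + 1) * m ^ (-q) * m⁻¹ ≤ (ρ * m) ^ (q + 1) * m ^ (-q) * m⁻¹ := by
        gcongr
    _ = ρ ^ (q + 1) := by
        rw [Real.mul_rpow hρ0 hm.le, Real.rpow_add hm, Real.rpow_neg hm.le, Real.rpow_one]
        have : m ^ q ≠ 0 := (Real.rpow_pos_of_pos hm q).ne'
        field_simp

theorem Psi_ratio {p q : ℝ} (hp : 0 < p) (hq : 0 < q) (hpq : q * p = q + 1) {w : E n → ℝ}
    (hw : Nice w) {m0 : ℝ} (hm0 : 0 < m0)
    (hmw : ∀ x, m0 ≤ w x) {x0 : E n} {r m M ρ : ℝ} (hr : 0 < r) (hm : 0 < m)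
    (h1 : ∀ x ∈ closedBall x0 r, m ≤ w x) (h2 : ∀ x ∈ closedBall x0 r, w x ≤ M)
    (hρ : M ≤ ρ * m) (hρ0 : 0 ≤ ρ) : Psi p q w (closedBall x0 r) ≤ ρ ^ (q + 1) := by
  have hwp : ∀ x, 0 < w x := fun x => hm0.trans_le (hmw x)
  have hvol : volume.real (closedBall x0 r) = (2 * r) ^ n := vol_ball _ hr.le
  have hM0 : 0 < M := (hwp x0).trans_le (h2 x0 (mem_closedBall_self hr.le))
  have hX : ∫ x in closedBall x0 r, w x ≤ M * (2 * r) ^ n := by
    calc ∫ x in closedBall x0 r, w x ≤ ∫ _x in closedBall x0 r, M :=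
          setIntegral_mono_on (hw.integrableOn (vol_ball_ne_top _ _))
            ((Nice.const M).integrableOn (vol_ball_ne_top _ _)) measurableSet_closedBall h2
      _ = _ := by rw [setInt_const, hvol, mul_comm]
  have hY : ∫ x in closedBall x0 r, w x ^ (-q) ≤ m ^ (-q) * (2 * r) ^ n := by
    calc ∫ x in closedBall x0 r, w x ^ (-q) ≤ ∫ _x in closedBall x0 r, m ^ (-q) :=
          setIntegral_mono_on ((hw.rpow_neg hm0 hq.le hmw).integrableOn (vol_ball_ne_top _ _))
            ((Nice.const _).integrableOn (vol_ball_ne_top _ _)) measurableSet_closedBall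
            fun x hx => Real.rpow_le_rpow_of_nonpos hm (h1 x hx) (by linarith)
      _ = _ := by rw [setInt_const, hvol, mul_comm]
  have hU : ∫ x in closedBall x0 r, Real.log (w x) ≤ Real.log M * (2 * r) ^ n := by
    calc ∫ x in closedBall x0 r, Real.log (w x) ≤ ∫ _x in closedBall x0 r, Real.log M :=
          setIntegral_mono_on ((hw.log hm0 hmw).integrableOn (vol_ball_ne_top _ _))
            ((Nice.const _).integrableOn (vol_ball_ne_top _ _)) measurableSet_closedBall
            fun x hx => Real.log_le_log (hwp x) (h2 x hx)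
      _ = _ := by rw [setInt_const, hvol]; ring
  refine (Psi_le hp hq hwp hr hX hY hU).trans ?_
  have e1 : Real.exp (q * Real.log M) = M ^ q := by
    rw [Real.rpow_def_of_pos hM0, mul_comm]
  rw [e1, ← Real.rpow_mul hm.le, neg_mul, hpq, mul_assoc]
  have e2 : M * M ^ q = M ^ (q + 1) := by
    rw [Real.rpow_add hM0, Real.rpow_one, mul_comm]
  rw [e2]
  calc m ^ (-(q + 1)) * M ^ (q + 1) ≤ m ^ (-(q + 1)) * (ρ * m) ^ (q + 1) := by
        gcongr
    _ = ρ ^ (q + 1) := by
        rw [Real.mul_rpow hρ0 hm.le, Real.rpow_neg hm.le]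
        have : m ^ (q + 1) ≠ 0 := (Real.rpow_pos_of_pos hm _).ne'
        field_simp

end Pool.Agent.Helper51
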