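import Pool.Agent.Helper51.CZRec

open MeasureTheory Metric Set

namespace Pool.Agent.Helper51

variable {n : ℕ}

namespace Par

variable (P : Par n)

theorem Z_succ (c0 B : ℝ) (J : ℕ) : P.Z c0 B (J + 1) = (1 - P.δ) * P.Z c0 B J +
      2 ^ n * P.g * (c0 / 2 * (P.K + 1) * P.a J - B) := rfl

/-- the lower bound gets as large as `2^n g c₀ 2^n / (32 ε)` -/
theorem Z_large [NeZero n] {c0 B : ℝ} (hc0 : 0 < c0)
    (hB : B ≤ c0 * 2 ^ n / 16 * (P.K + 1)) :
    ∃ J, 2 ^ n * P.g * (c0 * 2 ^ n / 32) / P.ε ≤ P.Z c0 B J := by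
  have h2n : (0 : ℝ) < 2 ^ n := by positivity
  have hδ := P.δ_pos
  have hδ1 := P.δ_le
  have hg := P.g_pos
  have hε := P.hε
  have hK : (0 : ℝ) < (P.K : ℝ) + 1 := by positivity
  set L : ℝ := 2 ^ n * P.g * (c0 * 2 ^ n / 16) / P.ε with hL
  have hLpos : 0 < L := by positivity
  have hδL : P.δ * L = 2 ^ n * P.g * (c0 * 2 ^ n / 16 * (P.K + 1)) := by
    rw [hL]
    unfold δ
    field_simp
  have hlim : Filter.Tendsto (fun m : ℕ => (1 - P.δ) ^ m) Filter.atTop (nhds 0) :=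
    tendsto_pow_atTop_nhds_zero_of_lt_one (by linarith) (by linarith)
  obtain ⟨J0, hJ0⟩ := (hlim.eventually (gt_mem_nhds (show (0 : ℝ) < 1 / 2 by norm_num))).exists
  have ha : ∀ J, J0 ≤ J → 2 ^ n / 4 ≤ P.a J := by
    intro J hJ
    have h1 := P.a_lower J
    have h2 : (1 - P.δ) ^ J ≤ (1 - P.δ) ^ J0 :=
      pow_le_pow_of_le_one (by linarith) (by linarith) hJ
    nlinarith
  have hstep : ∀ m : ℕ, (1 - P.δ) ^ m * P.Z c0 B J0 + L * (1 - (1 - P.δ) ^ m) ≤
      P.Z c0 B (J0 + m) := by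
    intro m
    induction m with
    | zero => simp
    | succ m ih =>
      rw [← add_assoc, Z_succ]
      have h1 : (1 - P.δ) * ((1 - P.δ) ^ m * P.Z c0 B J0 + L * (1 - (1 - P.δ) ^ m)) ≤
          (1 - P.δ) * P.Z c0 B (J0 + m) := mul_le_mul_of_nonneg_left ih (by linarith)
      have h2 : P.δ * L ≤ 2 ^ n * P.g * (c0 / 2 * (P.K + 1) * P.a (J0 + m) - B) := by
        rw [hδL]
        apply mul_le_mul_of_nonneg_left _ (by positivity)
        have h3 := ha (J0 + m) (by omega)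
        have h4 : c0 / 2 * (P.K + 1) * (2 ^ n / 4) ≤ c0 / 2 * (P.K + 1) * P.a (J0 + m) :=
          mul_le_mul_of_nonneg_left h3 (by positivity)
        nlinarith
      rw [pow_succ]
      nlinarith
  have hlim2 : Filter.Tendsto (fun m : ℕ => (1 - P.δ) ^ m * P.Z c0 B J0 +
      L * (1 - (1 - P.δ) ^ m)) Filter.atTop (nhds (0 * P.Z c0 B J0 + L * (1 - 0))) :=
    (hlim.mul_const _).add ((tendsto_const_nhds.sub hlim).const_mul L)
  rw [zero_mul, zero_add, sub_zero, mul_one] at hlim2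
  have hlt : 2 ^ n * P.g * (c0 * 2 ^ n / 32) / P.ε < L := by
    have : 2 ^ n * P.g * (c0 * 2 ^ n / 32) / P.ε = L / 2 := by rw [hL]; ring
    rw [this]
    linarith
  obtain ⟨m, hm⟩ := (hlim2.eventually (lt_mem_nhds hlt)).exists
  exact ⟨J0 + m, hm.le.trans (hstep m)⟩

end Par

end Pool.Agent.Helper51
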