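import Mathlib

/-! Definitions for `MP_4229e6_an`: weights, the one-supremum mixed constants,
Calderon-Zygmund operators and their weighted norms. -/

open MeasureTheory
open scoped ENNReal NNReal

namespace Pool.Agent.Helper51.Mixed

/-- `ℝⁿ` -/
abbrev Pt (n : ℕ) := Fin n → ℝ

/-- real valued functions on `ℝⁿ` -/
abbrev Fn (n : ℕ) := Pt n → ℝ

variable {n : ℕ}

/-- Lebesgue measure -/
noncomputable abbrev vol (n : ℕ) : Measure (Pt n) := volume

/-- the sup norm of `x - y` (equivalent to the Euclidean distance) -/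
noncomputable abbrev gap (x y : Pt n) : ℝ := ‖x - y‖

/-- the cube `∏ [aᵢ, aᵢ + h]` -/
def cube (a : Pt n) (h : ℝ) : Set (Pt n) := Set.Icc a (fun i => a i + h)

/-- the average `⟨f⟩_Q = |Q|⁻¹ ∫_Q f` -/
noncomputable def avg (Q : Set (Pt n)) (f : Fn n) : ℝ :=
  (vol n Q).toReal⁻¹ * ∫ x in Q, f x ∂(vol n)

/-- a weight: positive and locally integrable -/
def IsWeight (w : Fn n) : Prop := (∀ x, 0 < w x) ∧ LocallyIntegrable w (vol n)

/-- the conjugate exponent `p' = p/(p-1)` -/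
noncomputable def conj (p : ℝ) : ℝ := p / (p - 1)

/-- the dual weight `σ = w^(1-p')` -/
noncomputable def dual (p : ℝ) (w : Fn n) : Fn n := fun x => w x ^ (1 - conj p)

/-- `A_p(w,Q) = ⟨w⟩_Q ⟨σ⟩_Q^(p-1)` -/
noncomputable def Aq (p : ℝ) (w : Fn n) (Q : Set (Pt n)) : ℝ :=
  avg Q w * avg Q (dual p w) ^ (p - 1)

/-- `A_∞^exp(w,Q) = ⟨w⟩_Q exp(⟨log w⁻¹⟩_Q)` -/
noncomputable def Aexp (w : Fn n) (Q : Set (Pt n)) : ℝ :=
  avg Q w * Real.exp (avg Q (fun x => Real.log (w x)⁻¹))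

/-- `[w]_{(A_p)^a (A_∞^exp)^b} = sup_Q A_p(w,Q)^a A_∞^exp(w,Q)^b` -/
noncomputable def mixed (p a b : ℝ) (w : Fn n) : ℝ≥0∞ :=
  ⨆ (c : Pt n) (h : ℝ) (_ : 0 < h),
    ENNReal.ofReal (Aq p w (cube c h) ^ a * Aexp w (cube c h) ^ b)

/-- the class `A_p` -/
def IsAp (p : ℝ) (w : Fn n) : Prop :=
  IsWeight w ∧ IsWeight (dual p w) ∧ ∃ C : ℝ, ∀ c h, 0 < h → Aq p w (cube c h) ≤ C

/-- `K` is a standard kernel with constant `C` and smoothness exponent `δ` -/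
structure IsKernel (K : Pt n → Pt n → ℝ) (C δ : ℝ) : Prop where
  measurable : Measurable (fun z : Pt n × Pt n => K z.1 z.2)
  size : ∀ x y, x ≠ y → |K x y| ≤ C / gap x y ^ n
  smooth : ∀ x x' y, x ≠ y → 2 * gap x x' ≤ gap x y →
    |K x y - K x' y| + |K y x - K y x'| ≤ C * (gap x x' / gap x y) ^ δ / gap x y ^ n

/-- `f ∈ L²(ℝⁿ)` -/
abbrev IsL2 (f : Fn n) : Prop := MemLp f 2 (vol n)

/-- the norm of `L²(ℝⁿ)` -/
noncomputable abbrev norm2 (f : Fn n) : ℝ≥0∞ := eLpNorm f 2 (vol n)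

/-- equality almost everywhere -/
abbrev EqAE (f g : Fn n) : Prop := f =ᵐ[vol n] g

/-- `T` is linear and bounded on `L²(ℝⁿ)` (operators act on functions, equalities are a.e.) -/
structure IsBdd (T : Fn n → Fn n) : Prop where
  add : ∀ f g, IsL2 f → IsL2 g → EqAE (T (fun x => f x + g x)) (fun x => T f x + T g x)
  smul : ∀ (c : ℝ) f, IsL2 f → EqAE (T (fun x => c * f x)) (fun x => c * T f x)
  bound : ∃ C : ℝ≥0, ∀ f, IsL2 f → IsL2 (T f) ∧ norm2 (T f) ≤ C * norm2 f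

/-- `T` is given by the kernel `K` off the support -/
def HasKernel (T : Fn n → Fn n) (K : Pt n → Pt n → ℝ) : Prop :=
  ∀ S : Set (Pt n), IsCompact S → ∀ f, IsL2 f → (∀ y, y ∉ S → f y = 0) →
    ∀ᵐ x ∂(vol n), x ∉ S → T f x = ∫ y, K x y * f y ∂(vol n)

/-- Calderon-Zygmund operators -/
def IsCZO (T : Fn n → Fn n) : Prop :=
  IsBdd T ∧ ∃ K C δ, 0 < δ ∧ δ ≤ 1 ∧ IsKernel K C δ ∧ HasKernel T K

/-- the kernel is at least `c₀ / |x-y|ⁿ` whenever `x - y` lies in the cone of vectors with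
positive coordinates of comparable size -/
def ConePositive (K : Pt n → Pt n → ℝ) (c₀ : ℝ) : Prop :=
  ∀ x y, (∀ i j, 0 < x i - y i ∧ x i - y i ≤ 3 * (x j - y j)) → c₀ / gap x y ^ n ≤ K x y

/-- the measure `w dx` -/
noncomputable def wm (w : Fn n) : Measure (Pt n) :=
  (vol n).withDensity fun x => ENNReal.ofReal (w x)

/-- the norm of `f` in `L^p(w)` -/
noncomputable def normLp (p : ℝ) (w f : Fn n) : ℝ≥0∞ := eLpNorm f (ENNReal.ofReal p) (wm w)

/-- the norm of `T` on `L^p(w)` (over `f ∈ L²`, where `T` is defined; `L² ∩ L^p(w)` is dense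
in `L^p(w)`) -/
noncomputable def strongNorm (T : Fn n → Fn n) (p : ℝ) (w : Fn n) : ℝ≥0∞ :=
  sInf {N : ℝ≥0∞ | ∀ f, IsL2 f → normLp p w (T f) ≤ N * normLp p w f}

/-- the norm of `T` from `L^p(w)` to weak `L^p(w)` (over `f ∈ L²`) -/
noncomputable def weakNorm (T : Fn n → Fn n) (p : ℝ) (w : Fn n) : ℝ≥0∞ :=
  sInf {N : ℝ≥0∞ | ∀ f, IsL2 f → ∀ t : ℝ≥0,
    t * wm w {x | (t : ℝ) < |T f x|} ^ (1 / p) ≤ N * normLp p w f}

/-- the estimate of Q1 for the operator `T`, with the exponent `α` -/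
def WeakBound (T : Fn n → Fn n) (p α : ℝ) : Prop :=
  ∃ c : ℝ≥0, ∀ w, IsAp p w →
    weakNorm T p w ≤ c * mixed p (1 / (p - α)) (1 - 1 / (p - α)) w

/-- the estimate of Q2 for the operator `T`, with the exponent `α` -/
def StrongBound (T : Fn n → Fn n) (p α : ℝ) : Prop :=
  ∃ c : ℝ≥0, ∀ w, IsAp p w →
    strongNorm T p w ≤ c * (mixed p (1 / (p - α)) (1 - 1 / (p - α)) w +
      mixed (conj p) (1 / (conj p - α)) (1 - 1 / (conj p - α)) (dual p w))

end Pool.Agent.Helper51.Mixed
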