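import Pool.Agent.Helper51.CZGeom
import Pool.Agent.Helper51.MixedDefs

open MeasureTheory Metric Set
open scoped ENNReal NNReal

namespace Pool.Agent.Helper51

variable {n : ℕ}

open Mixed

theorem cube_eq (c : E n) {h : ℝ} (hh : 0 < h) :
    cube c h = closedBall (fun i => c i + h / 2) (h / 2) := by
  ext x
  unfold cube
  rw [Set.mem_Icc, mem_closedBall, dist_pi_le_iff (by positivity), Pi.le_def, Pi.le_def]
  simp only [Real.dist_eq, abs_le]
  constructor
  · rintro ⟨h1, h2⟩ i
    have := h1 i
    have := h2 i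
    constructor <;> linarith
  · intro h1
    constructor <;> intro i
    · have := (h1 i).1
      linarith
    · have := (h1 i).2
      linarith

theorem avg_eq (Q : Set (E n)) (f : E n → ℝ) : avg Q f = ⨍ x in Q, f x := by
  unfold avg
  rw [setAverage_eq, smul_eq_mul]
  rfl

theorem conj_sub_one {p : ℝ} (hp : 1 < p) : conj p - 1 = 1 / (p - 1) := by
  unfold conj
  have : p - 1 ≠ 0 := by linarith
  field_simp
  ring

theorem dual_eq {p : ℝ} (hp : 1 < p) (w : E n → ℝ) (x : E n) :
    dual p w x = w x ^ (-(1 / (p - 1))) := by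
  unfold dual
  rw [← conj_sub_one hp]
  congr 1
  ring

theorem conj_gt_one {p : ℝ} (hp : 1 < p) : 1 < conj p := by
  have h := conj_sub_one hp
  have h2 : 0 < 1 / (p - 1) := one_div_pos.mpr (by linarith)
  linarith

theorem dual_dual {p : ℝ} (hp : 1 < p) {w : E n → ℝ} (hw : ∀ x, 0 < w x) :
    dual (conj p) (dual p w) = w := by
  funext x
  rw [dual_eq (conj_gt_one hp), dual_eq hp, conj_sub_one hp, ← Real.rpow_mul (hw x).le]
  have : -(1 / (p - 1)) * -(1 / (1 / (p - 1))) = 1 := by
    have : p - 1 ≠ 0 := by linarith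
    field_simp
  rw [this, Real.rpow_one]

end Pool.Agent.Helper51
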