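import Pool.Agent.Helper51.CZAll
import Pool.Agent.Helper51.MixedDefs
import Pool.Agent.Helper51.CubeEq

open MeasureTheory Metric Set
open scoped ENNReal NNReal

namespace Pool.Agent.Helper51

variable {n : ℕ}

open Mixed

theorem avg_pos {f : E n → ℝ} {m : ℝ} (hm : 0 < m) (hf : Nice f) (h : ∀ x, m ≤ f x) (x0 : E n)
    {r : ℝ} (hr : 0 < r) : 0 < ⨍ x in closedBall x0 r, f x := by
  apply lt_of_lt_of_le hm
  apply le_avg hr
  calc m * (2 * r) ^ n = ∫ _x in closedBall x0 r, m := by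
        rw [setIntegral_const, vol_ball _ hr.le, smul_eq_mul, mul_comm]
    _ ≤ _ := setIntegral_mono_on ((Nice.const m).integrableOn (vol_ball_ne_top _ _))
        (hf.integrableOn (vol_ball_ne_top _ _)) measurableSet_closedBall fun x _ => h x

theorem avg_pos' {f : E n → ℝ} (hf0 : ∀ x, 0 < f x) (hf : Nice f) (x0 : E n)
    {r : ℝ} (hr : 0 < r) : 0 < ⨍ x in closedBall x0 r, f x := by
  rw [setAverage_eq, smul_eq_mul]
  have hv : 0 < volume.real (closedBall x0 r) := by
    rw [vol_ball _ hr.le]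
    positivity
  apply mul_pos (inv_pos.mpr hv)
  rw [setIntegral_pos_iff_support_of_nonneg_ae]
  · have : Function.support f = Set.univ := by
      ext x
      simp [(hf0 x).ne']
    rw [this, Set.univ_inter]
    by_contra hcon
    have h0 : volume (closedBall x0 r) = 0 := by simpa using hcon
    unfold Measure.real at hv
    rw [h0] at hv
    simp at hv
  · exact Filter.Eventually.of_forall fun x => (hf0 x).le
  · exact hf.integrableOn (vol_ball_ne_top _ _)

theorem locInt_of_nice {f : E n → ℝ} (hf : Nice f) : LocallyIntegrable f volume := by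
  rw [locallyIntegrable_iff]
  intro k hk
  exact hf.integrableOn hk.measure_lt_top.ne

theorem nice_rpow_neg {w : E n → ℝ} (hw : Nice w) {m q : ℝ} (hm : 0 < m) (h : ∀ x, m ≤ w x)
    (hq : 0 < q) : Nice (fun x => w x ^ (-q)) := by
  refine ⟨hw.meas.pow_const _, m ^ (-q), fun x => ?_⟩
  have hx := hm.trans_le (h x)
  rw [abs_of_nonneg (Real.rpow_nonneg hx.le _)]
  exact Real.rpow_le_rpow_of_nonpos hm (h x) (by linarith)

theorem rpow_comb1 {p X Y L : ℝ} (hp : 1 < p) (hX : 0 < X) (hY : 0 < Y) :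
    (X * Y ^ (p - 1)) ^ (1 / p) * (X * Real.exp L) ^ (1 - 1 / p) =
      (X ^ (1 / (p - 1) + 1) * Y * Real.exp L) ^ ((p - 1) / p) := by
  have hp0 : p ≠ 0 := by linarith
  have hp1 : p - 1 ≠ 0 := by linarith
  have hE := Real.exp_pos L
  have hEl : Real.log (Real.exp L) = L := Real.log_exp L
  have hY1 : 0 < Y ^ (p - 1) := Real.rpow_pos_of_pos hY _
  have hX1 : 0 < X ^ (1 / (p - 1) + 1) := Real.rpow_pos_of_pos hX _
  apply Real.log_injOn_pos
  · exact mul_pos (Real.rpow_pos_of_pos (by positivity) _) (Real.rpow_pos_of_pos (by positivity) _)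
  · exact Real.rpow_pos_of_pos (by positivity) _
  rw [Real.log_mul (Real.rpow_pos_of_pos (by positivity) _).ne'
    (Real.rpow_pos_of_pos (by positivity) _).ne', Real.log_rpow (by positivity),
    Real.log_rpow (by positivity), Real.log_rpow (by positivity), Real.log_mul hX.ne' hY1.ne',
    Real.log_mul hX.ne' hE.ne', Real.log_mul (by positivity) hE.ne',
    Real.log_mul hX1.ne' hY.ne', Real.log_rpow hY, Real.log_rpow hX, hEl]
  field_simp
  ring

theorem rpow_comb2 {p X Y M : ℝ} (hp : 1 < p) (hX : 0 < X) (hY : 0 < Y) :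
    (Y * X ^ (conj p - 1)) ^ (1 / conj p) * (Y * Real.exp (1 / (p - 1) * M)) ^ (1 - 1 / conj p) =
      (Y ^ p * X * Real.exp (1 / (p - 1) * M)) ^ (1 / p) := by
  rw [conj_sub_one hp]
  have hc : 1 / conj p = 1 - 1 / p := by
    unfold conj
    have : p ≠ 0 := by linarith
    have : p - 1 ≠ 0 := by linarith
    field_simp
  rw [hc]
  have hp0 : p ≠ 0 := by linarith
  have hp1 : p - 1 ≠ 0 := by linarith
  have hE := Real.exp_pos (1 / (p - 1) * M)
  have hEl : Real.log (Real.exp (1 / (p - 1) * M)) = 1 / (p - 1) * M := Real.log_exp _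
  have hY1 : 0 < Y ^ p := Real.rpow_pos_of_pos hY _
  have hX1 : 0 < X ^ (1 / (p - 1)) := Real.rpow_pos_of_pos hX _
  apply Real.log_injOn_pos
  · exact mul_pos (Real.rpow_pos_of_pos (by positivity) _) (Real.rpow_pos_of_pos (by positivity) _)
  · exact Real.rpow_pos_of_pos (by positivity) _
  rw [Real.log_mul (Real.rpow_pos_of_pos (by positivity) _).ne'
    (Real.rpow_pos_of_pos (by positivity) _).ne', Real.log_rpow (by positivity),
    Real.log_rpow (by positivity), Real.log_rpow (by positivity), Real.log_mul hY.ne' hX1.ne',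
    Real.log_mul hY.ne' hE.ne', Real.log_mul (by positivity) hE.ne',
    Real.log_mul hY1.ne' hX.ne', Real.log_rpow hY, Real.log_rpow hX, hEl]
  field_simp
  ring

section weight

variable (P : Par n)

theorem nice_dual [NeZero n] (J : ℕ) : Nice (dual P.p (P.w J)) := by
  have h := nice_rpow_neg (P.nice_w J) P.wG_pos (P.wG_le_w J) P.q_pos
  have e : dual P.p (P.w J) = fun x => P.w J x ^ (-P.q) := by
    funext x
    rw [dual_eq P.hp]
    rfl
  rwa [e]

theorem dual_pos {p : ℝ} {w : E n → ℝ} (hw : ∀ x, 0 < w x) (x : E n) : 0 < dual p w x :=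
  Real.rpow_pos_of_pos (hw x) _

theorem avg_log_inv {w : E n → ℝ} (I : Set (E n)) :
    ⨍ x in I, Real.log (w x)⁻¹ = -⨍ x in I, Real.log (w x) := by
  simp only [Real.log_inv]
  rw [setAverage_eq, setAverage_eq, integral_neg, smul_neg]

theorem avg_log_dual {p : ℝ} (hp : 1 < p) {w : E n → ℝ} (hw : ∀ x, 0 < w x) (I : Set (E n)) :
    ⨍ x in I, Real.log (dual p w x)⁻¹ = 1 / (p - 1) * ⨍ x in I, Real.log (w x) := by
  have e : ∀ x, Real.log (dual p w x)⁻¹ = 1 / (p - 1) * Real.log (w x) := by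
    intro x
    rw [Real.log_inv, dual_eq hp, Real.log_rpow (hw x)]
    ring
  simp only [e]
  rw [setAverage_eq, setAverage_eq, integral_const_mul, smul_eq_mul, smul_eq_mul]
  ring

theorem expr1 [NeZero n] (J : ℕ) (x0 : E n) {r : ℝ} (hr : 0 < r) :
    Aq P.p (P.w J) (closedBall x0 r) ^ (1 / P.p) *
      Aexp (P.w J) (closedBall x0 r) ^ (1 - 1 / P.p) =
    Phi P.q (P.w J) (closedBall x0 r) ^ ((P.p - 1) / P.p) := by
  unfold Aq Aexp Phi
  rw [avg_eq, avg_eq, avg_eq, avg_log_inv]
  have hX := avg_pos P.wG_pos (P.nice_w J) (P.wG_le_w J) x0 hr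
  have hY := avg_pos' (dual_pos (P.w_pos J)) (nice_dual P J) x0 hr
  have e : ⨍ x in closedBall x0 r, P.w J x ^ (-P.q) =
      ⨍ x in closedBall x0 r, dual P.p (P.w J) x := by
    simp only [dual_eq P.hp]
    rfl
  rw [e]
  exact rpow_comb1 P.hp hX hY

theorem expr2 [NeZero n] (J : ℕ) (x0 : E n) {r : ℝ} (hr : 0 < r) :
    Aq (conj P.p) (dual P.p (P.w J)) (closedBall x0 r) ^ (1 / conj P.p) *
      Aexp (dual P.p (P.w J)) (closedBall x0 r) ^ (1 - 1 / conj P.p) =
    Psi P.p P.q (P.w J) (closedBall x0 r) ^ (1 / P.p) := by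
  unfold Aq Aexp Psi
  rw [avg_eq, avg_eq, avg_eq, avg_log_dual P.hp (P.w_pos J), dual_dual P.hp (P.w_pos J)]
  have hX := avg_pos P.wG_pos (P.nice_w J) (P.wG_le_w J) x0 hr
  have hY := avg_pos' (dual_pos (P.w_pos J)) (nice_dual P J) x0 hr
  have e : ⨍ x in closedBall x0 r, P.w J x ^ (-P.q) =
      ⨍ x in closedBall x0 r, dual P.p (P.w J) x := by
    simp only [dual_eq P.hp]
    rfl
  rw [e]
  exact rpow_comb2 P.hp hX hY

theorem Phi_nonneg [NeZero n] (J : ℕ) (x0 : E n) {r : ℝ} (_hr : 0 < r) :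
    0 ≤ Phi P.q (P.w J) (closedBall x0 r) := by
  unfold Phi
  have h1 := avg_nonneg (fun x => (P.w_pos J x).le) (closedBall x0 r)
  have h2 := avg_nonneg (fun x => Real.rpow_nonneg (P.w_pos J x).le (-P.q)) (closedBall x0 r)
  have := Real.rpow_nonneg h1 (P.q + 1)
  positivity

theorem Psi_nonneg [NeZero n] (J : ℕ) (x0 : E n) {r : ℝ} (_hr : 0 < r) :
    0 ≤ Psi P.p P.q (P.w J) (closedBall x0 r) := by
  unfold Psi
  have h1 := avg_nonneg (fun x => (P.w_pos J x).le) (closedBall x0 r)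
  have h2 := avg_nonneg (fun x => Real.rpow_nonneg (P.w_pos J x).le (-P.q)) (closedBall x0 r)
  have := Real.rpow_nonneg h2 P.p
  positivity

theorem mixed1_le [NeZero n] (hS : P.Small) (J : ℕ) :
    mixed P.p (1 / (P.p - 0)) (1 - 1 / (P.p - 0)) (P.w J) ≤
      ENNReal.ofReal (Par.C1 n P.p ^ ((P.p - 1) / P.p) * P.ε⁻¹) := by
  unfold mixed
  rw [sub_zero]
  apply iSup_le; intro c
  apply iSup_le; intro h
  apply iSup_le; intro hh
  apply ENNReal.ofReal_le_ofReal
  have hh2 : 0 < h / 2 := by positivity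
  rw [cube_eq c hh, expr1 P J _ hh2]
  have hC := (Par.concl_all hS J (fun i => c i + h / 2) hh2).1
  have hp := P.hp
  have hε := P.hε
  have hexp : 0 ≤ (P.p - 1) / P.p := div_nonneg (by linarith) (by linarith)
  have hC1 : 0 ≤ Par.C1 n P.p := zero_le_one.trans P.one_le_C1
  calc Phi P.q (P.w J) (closedBall (fun i => c i + h / 2) (h / 2)) ^ ((P.p - 1) / P.p)
      ≤ (Par.C1 n P.p * P.ε ^ (-(P.q + 1))) ^ ((P.p - 1) / P.p) :=
        Real.rpow_le_rpow (Phi_nonneg P J _ hh2) hC hexp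
    _ = _ := by
        rw [Real.mul_rpow hC1 (Real.rpow_nonneg hε.le _), ← Real.rpow_mul hε.le]
        congr 1
        have : -(P.q + 1) * ((P.p - 1) / P.p) = -1 := by
          unfold Par.q
          have : P.p - 1 ≠ 0 := by linarith
          have : P.p ≠ 0 := by linarith
          field_simp
          ring
        rw [this, Real.rpow_neg_one]

theorem mixed2_le [NeZero n] (hS : P.Small) (J : ℕ) :
    mixed (conj P.p) (1 / (conj P.p - 0)) (1 - 1 / (conj P.p - 0)) (dual P.p (P.w J)) ≤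
      ENNReal.ofReal (P.ε⁻¹) := by
  unfold mixed
  rw [sub_zero]
  apply iSup_le; intro c
  apply iSup_le; intro h
  apply iSup_le; intro hh
  apply ENNReal.ofReal_le_ofReal
  have hh2 : 0 < h / 2 := by positivity
  rw [cube_eq c hh, expr2 P J _ hh2]
  have hC := (Par.concl_all hS J (fun i => c i + h / 2) hh2).2
  have hp := P.hp
  have hε := P.hε
  calc Psi P.p P.q (P.w J) (closedBall (fun i => c i + h / 2) (h / 2)) ^ (1 / P.p)
      ≤ (P.ε ^ (-P.p)) ^ (1 / P.p) :=
        Real.rpow_le_rpow (Psi_nonneg P J _ hh2) hC (by positivity)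
    _ = _ := by
        rw [← Real.rpow_mul hε.le]
        have : -P.p * (1 / P.p) = -1 := by
          have : P.p ≠ 0 := by linarith
          field_simp
        rw [this, Real.rpow_neg_one]

theorem isAp_w [NeZero n] (J : ℕ) : IsAp P.p (P.w J) := by
  have hp := P.hp
  refine ⟨⟨P.w_pos J, locInt_of_nice (P.nice_w J)⟩,
    ⟨dual_pos (P.w_pos J), locInt_of_nice (nice_dual P J)⟩, ?_⟩
  obtain ⟨C, hC⟩ := (P.nice_w J).bdd
  obtain ⟨D, hD⟩ := (nice_dual P J).bdd
  refine ⟨C * D ^ (P.p - 1), ?_⟩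
  intro c h hh
  have hh2 : 0 < h / 2 := by positivity
  rw [cube_eq c hh]
  unfold Aq
  rw [avg_eq, avg_eq]
  have hbd : ∀ {f : E n → ℝ} {M : ℝ}, Nice f → (∀ x, |f x| ≤ M) →
      ⨍ x in closedBall (fun i => c i + h / 2) (h / 2), f x ≤ M := by
    intro f M hf hM
    apply avg_le hh2
    calc ∫ x in closedBall (fun i => c i + h / 2) (h / 2), f x
        ≤ ∫ _x in closedBall (fun i => c i + h / 2) (h / 2), M :=
          setIntegral_mono_on (hf.integrableOn (vol_ball_ne_top _ _))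
            ((Nice.const M).integrableOn (vol_ball_ne_top _ _)) measurableSet_closedBall
            fun x _ => (le_abs_self _).trans (hM x)
      _ = _ := by rw [setIntegral_const, vol_ball _ hh2.le, smul_eq_mul, mul_comm]
  have h1 := hbd (P.nice_w J) hC
  have h2 := hbd (nice_dual P J) hD
  have h3 := (avg_pos P.wG_pos (P.nice_w J) (P.wG_le_w J) (fun i => c i + h / 2) hh2).le
  have h4 := (avg_pos' (dual_pos (P.w_pos J)) (nice_dual P J) (fun i => c i + h / 2) hh2).le
  exact mul_le_mul h1 (Real.rpow_le_rpow h4 h2 (by linarith)) (Real.rpow_nonneg h4 _)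
    (h3.trans h1)

end weight

end Pool.Agent.Helper51
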