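import Pool.Agent.Helper51.CZKolm
import Pool.Agent.Helper51.CZLow
import Pool.Agent.Helper51.CZMixed

open MeasureTheory Metric Set
open scoped ENNReal NNReal Topology

namespace Pool.Agent.Helper51

variable {n : ℕ}

open Mixed

/-- existence of parameters -/
theorem exists_par [NeZero n] (K : ℕ) {p : ℝ} (hp : 1 < p) :
    ∃ P : Par n, P.K = K ∧ P.p = p ∧ P.Small ∧ 2 * (P.ε * R n ^ P.K) ^ 2 ≤ P.g := by
  set ρ : ℝ := R n ^ (K + 1) * (((R n ^ (2 * K + 1))⁻¹ : ℝ) ^ (p - 1))⁻¹ with hρ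
  set q : ℝ := 1 / (p - 1) with hq
  have hR := R_pos (n := n)
  have hid : Filter.Tendsto (fun ε : ℝ => ε) (𝓝[>] 0) (𝓝 0) := tendsto_nhdsWithin_of_tendsto_nhds
    Filter.tendsto_id
  have hinv : Filter.Tendsto (fun ε : ℝ => ε⁻¹) (𝓝[>] 0) Filter.atTop := tendsto_inv_nhdsGT_zero
  have hmul : Filter.Tendsto (fun ε : ℝ => ((K : ℝ) + 1) * ε) (𝓝[>] 0) (𝓝 0) := by
    have := hid.const_mul ((K : ℝ) + 1)
    rwa [mul_zero] at this
  have hsq : Filter.Tendsto (fun ε : ℝ => 2 * (ε * R n ^ K) ^ 2) (𝓝[>] 0) (𝓝 0) := by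
    have := ((hid.mul_const (R n ^ K)).pow 2).const_mul 2
    simpa using this
  have hrp : Filter.Tendsto (fun ε : ℝ => (ε⁻¹) ^ (p - 1)) (𝓝[>] 0) Filter.atTop :=
    (tendsto_rpow_atTop (by linarith)).comp hinv
  have e1 := hmul.eventually (ge_mem_nhds (show (0 : ℝ) < 1 / 4 by norm_num))
  have e2 := hmul.eventually (ge_mem_nhds (show (0 : ℝ) < (R n ^ K)⁻¹ by positivity))
  have e3 := hinv.eventually (Filter.eventually_ge_atTop ρ)
  have e4 := hinv.eventually (Filter.eventually_ge_atTop (ρ ^ (q + 1)))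
  have e5 := hrp.eventually (Filter.eventually_ge_atTop (Par.C2 n p K))
  have e6 := hsq.eventually (ge_mem_nhds (show (0 : ℝ) < (R n ^ (2 * K + 1))⁻¹ by positivity))
  have e7 : ∀ᶠ ε in 𝓝[>] (0 : ℝ), 0 < ε := self_mem_nhdsWithin
  have e8 := hid.eventually (ge_mem_nhds (show (0 : ℝ) < 1 by norm_num))
  obtain ⟨ε, h1, h2, h3, h4, h5, h6, h7, h8⟩ :=
    (e1.and (e2.and (e3.and (e4.and (e5.and (e6.and (e7.and e8))))))).exists
  refine ⟨⟨K, p, ε, hp, h7, h1, h2⟩, rfl, rfl, ⟨?_, ?_, ?_⟩, h6⟩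
  · exact h3
  · have h9 : ε⁻¹ ≤ ε ^ (-p) := by
      rw [← Real.rpow_neg_one]
      exact Real.rpow_le_rpow_of_exponent_ge h7 h8 (by linarith)
    exact h4.trans h9
  · show Par.C2 n p K * ε⁻¹ ≤ ε ^ (-p)
    have h9 : ε ^ (-p) = (ε⁻¹) ^ (p - 1) * ε⁻¹ := by
      rw [Real.inv_rpow h7.le, ← Real.rpow_neg h7.le, ← Real.rpow_neg_one ε, ← Real.rpow_add h7]
      congr 1
      ring
    rw [h9]
    exact mul_le_mul_of_nonneg_right h5 (inv_pos.mpr h7).le

theorem loc_one (h : E n → ℝ) (x : E n) :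
    loc 0 1 h x = (closedBall (0 : E n) 1).indicator h x := by
  unfold loc
  simp only [inv_one, sub_zero, one_smul]

theorem isTest_loc {h : E n → ℝ} (hh : Nice h) (c : E n) (ρ : ℝ) : IsTest (loc c ρ h) := by
  have h1 := nice_loc hh c ρ
  refine ⟨h1.meas, h1.bdd, ‖c‖ + ρ, ?_⟩
  intro x hx
  apply loc_zero_off
  intro hcon
  rw [mem_closedBall, dist_eq_norm] at hcon
  have := norm_add_le (x - c) c
  rw [sub_add_cancel] at this
  linarith

section one

variable (P : Par n)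

theorem meas_w [NeZero n] (J : ℕ) : Measurable fun x => ENNReal.ofReal (P.w J x) :=
  (P.nice_w J).meas.ennreal_ofReal

/-- the norm of the test function -/
theorem norm_gam [NeZero n] (J : ℕ) :
    eLpNorm (loc 0 1 (P.gam J)) (ENNReal.ofReal P.p) (wm (P.w J)) ≤
      ENNReal.ofReal ((P.g * P.wG * 2 ^ n / P.δ) ^ (1 / P.p)) := by
  have hp := P.hp
  have hp0 : ENNReal.ofReal P.p ≠ 0 := by
    rw [Ne, ENNReal.ofReal_eq_zero, not_le]; linarith
  rw [eLpNorm_eq_lintegral_rpow_enorm_toReal hp0 ENNReal.ofReal_ne_top,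
    ENNReal.toReal_ofReal (by linarith)]
  have hx0 : 0 ≤ P.g * P.wG * 2 ^ n / P.δ := by
    have := P.g_pos
    have := P.wG_pos
    have := P.δ_pos
    positivity
  rw [← ENNReal.ofReal_rpow_of_nonneg hx0 (by positivity)]
  have h1p : (0 : ℝ) ≤ 1 / P.p := by positivity
  gcongr
  have e1 : ∀ x, ‖loc 0 1 (P.gam J) x‖ₑ ^ P.p = ENNReal.ofReal (loc 0 1 (P.gam J) x) := by
    intro x
    rw [loc_one]
    by_cases hx : x ∈ closedBall (0 : E n) 1
    · rw [Set.indicator_of_mem hx]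
      rcases P.gam_01 J x with h | h
      · rw [h, enorm_zero, ENNReal.zero_rpow_of_pos (by linarith), ENNReal.ofReal_zero]
      · rw [h, enorm_one, ENNReal.one_rpow, ENNReal.ofReal_one]
    · rw [Set.indicator_of_notMem hx, enorm_zero, ENNReal.zero_rpow_of_pos (by linarith),
        ENNReal.ofReal_zero]
  simp only [e1]
  have hnl := nice_loc (P.nice_gam J) (0 : E n) 1
  unfold wm
  rw [lintegral_withDensity_eq_lintegral_mul _ (meas_w P J) hnl.meas.ennreal_ofReal]
  have e2 : ∀ x, ((fun x => ENNReal.ofReal (P.w J x)) *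
      fun x => ENNReal.ofReal (loc 0 1 (P.gam J) x)) x =
      ENNReal.ofReal ((closedBall (0 : E n) 1).indicator (fun x => P.gam J x * P.w J x) x) := by
    intro x
    rw [Pi.mul_apply, ← ENNReal.ofReal_mul (P.w_pos J x).le, loc_one]
    congr 1
    by_cases hx : x ∈ closedBall (0 : E n) 1
    · rw [Set.indicator_of_mem hx, Set.indicator_of_mem hx, mul_comm]
    · rw [Set.indicator_of_notMem hx, Set.indicator_of_notMem hx, mul_zero]
  simp only [e2]
  have hn : Nice (fun x => P.gam J x * P.w J x) := (P.nice_gam J).mul (P.nice_w J)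
  rw [← ofReal_integral_eq_lintegral_ofReal]
  · rw [integral_indicator measurableSet_closedBall]
    exact ENNReal.ofReal_le_ofReal (P.int_gam_w J)
  · rw [integrable_indicator_iff measurableSet_closedBall]
    exact hn.integrableOn (vol_ball_ne_top _ _)
  · apply Filter.Eventually.of_forall
    intro x
    exact Set.indicator_nonneg (fun y _ => mul_nonneg (P.gam_nonneg J y) (P.w_pos J y).le) x

/-- upper bound for the bilinear form by the weak type inequality -/
theorem bil_upper [NeZero n] {T : Fn n → Fn n} {T' : L2 n →L[ℝ] L2 n}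
    (hT' : ∀ f, MemLp f 2 volume → (T' (toL f) : E n → ℝ) =ᵐ[volume] T f)
    {N A : ℝ} (hN : 0 ≤ N) (hA : 0 < A) (J : ℕ)
    (h : WP T P.p (P.w J) (ENNReal.ofReal N)) :
    bil T' (loc 0 1 (P.gam J)) (loc 0 1 (P.w J)) ≤
      A * 2 ^ n + N ^ P.p * (P.g * P.wG * 2 ^ n / P.δ) * (A ^ (1 - P.p) / (P.p - 1)) := by
  have hp := P.hp
  set x0 : ℝ := P.g * P.wG * 2 ^ n / P.δ with hx0
  have hx0' : 0 ≤ x0 := by
    have := P.g_pos
    have := P.wG_pos
    have := P.δ_pos
    positivity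
  set f := loc 0 1 (P.gam J) with hf
  set u := loc 0 1 (P.w J) with hu
  have hfL : MemLp f 2 volume := memLp_loc (P.nice_gam J) 0 1
  have huL : MemLp u 2 volume := memLp_loc (P.nice_w J) 0 1
  have hTf := hT' f hfL
  have hu0 : ∀ x, 0 ≤ u x := fun x => loc_nonneg (fun z => (P.w_pos J z).le) _ _ x
  rw [bil_eq huL]
  have hint := integrable_Tmul (T := T') (f := f) huL
  have h1 : ∫ x, T' (toL f) x * u x ≤ ∫ x, |T' (toL f) x * u x| :=
    (le_abs_self _).trans abs_integral_le_integral_abs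
  refine h1.trans ?_
  have hrhs : 0 ≤ A * 2 ^ n + N ^ P.p * x0 * (A ^ (1 - P.p) / (P.p - 1)) := by
    have h2 : 0 ≤ N ^ P.p := Real.rpow_nonneg hN _
    have h3 : 0 ≤ A ^ (1 - P.p) := Real.rpow_nonneg hA.le _
    have h4 : 0 < P.p - 1 := by linarith
    positivity
  rw [← ENNReal.ofReal_le_ofReal_iff hrhs, ofReal_integral_eq_lintegral_ofReal hint.abs
    (Filter.Eventually.of_forall fun x => abs_nonneg _)]
  have hFm : AEStronglyMeasurable (T' (toL f)) (volume : Measure (E n)) := (Lp.memLp _).1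
  set F : E n → ℝ := T f with hF
  have hFm' : AEMeasurable F volume := hFm.aemeasurable.congr hTf
  have e1 : ∫⁻ x, ENNReal.ofReal |T' (toL f) x * u x| =
      ∫⁻ x in closedBall (0 : E n) 1, ENNReal.ofReal |F x| ∂(wm (P.w J)) := by
    unfold wm
    rw [setLIntegral_withDensity_eq_setLIntegral_mul_non_measurable _ (meas_w P J) _
      measurableSet_closedBall (Filter.Eventually.of_forall fun x => ENNReal.ofReal_lt_top),
      ← lintegral_indicator measurableSet_closedBall]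
    apply lintegral_congr_ae
    filter_upwards [hTf] with x hx
    rw [hx, abs_mul, abs_of_nonneg (hu0 x), hu, loc_one]
    by_cases hxB : x ∈ closedBall (0 : E n) 1
    · rw [Set.indicator_of_mem hxB, Set.indicator_of_mem hxB, Pi.mul_apply, mul_comm,
        ENNReal.ofReal_mul (P.w_pos J x).le]
    · rw [Set.indicator_of_notMem hxB, Set.indicator_of_notMem hxB, mul_zero, ENNReal.ofReal_zero]
  rw [e1]
  apply kolmo (hFm'.mono_ac ((Measure.absolutelyContinuous_of_le Measure.restrict_le_self).trans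
    (ac_wm _))) hp hA (by positivity) (mul_nonneg (Real.rpow_nonneg hN _) hx0')
  · rw [Measure.restrict_apply_univ]
    unfold wm
    rw [withDensity_apply _ measurableSet_closedBall, ← ofReal_integral_eq_lintegral_ofReal]
    · exact ENNReal.ofReal_le_ofReal (P.a_le J)
    · exact (P.nice_w J).integrableOn (vol_ball_ne_top _ _)
    · exact Filter.Eventually.of_forall fun x => (P.w_pos J x).le
  · intro t ht
    refine (Measure.restrict_apply_le _ _).trans ?_
    exact WP_dist hp hN h (isTest_loc (P.nice_gam J) 0 1) hx0' (norm_gam P J) ht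

end one

/-- **the core contradiction** -/
theorem fails_core [NeZero n] {T : Fn n → Fn n} {K : E n → E n → ℝ} {C c0 p B : ℝ}
    (hT : IsBdd T) (hK : HasKernel T K)
    (hm : Measurable (fun z : E n × E n => K z.1 z.2)) (hC : 0 ≤ C)
    (hs : ∀ x y, x ≠ y → |K x y| ≤ C / ‖x - y‖ ^ n) (hc0 : 0 < c0)
    (hadm : ∀ P : Par n, ∃ adm, Adm P K c0 adm ∧ adm 0 1) (hp : 1 < p) (hB : 0 ≤ B)
    (hW : ∀ P : Par n, P.p = p → P.Small → ∀ J,
      WP T p (P.w J) (ENNReal.ofReal (B * P.ε⁻¹))) : False := by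
  obtain ⟨T', hT'⟩ := exists_clm hT
  have hKD := kerData_of hK hm hC hs hT'
  have h2n : (0 : ℝ) < 2 ^ n := by positivity
  have hp1 : 0 < p - 1 := by linarith
  set c2 : ℝ := c0 * 2 ^ n / 64 with hc2
  have hc2p : 0 < c2 := by positivity
  have hc2pp : 0 < c2 ^ p := Real.rpow_pos_of_pos hc2p _
  obtain ⟨K1, hK1⟩ := exists_nat_gt ((‖T'‖ + 4 * C) / (c0 * 2 ^ n / 16))
  obtain ⟨K2, hK2⟩ := exists_nat_gt (B ^ p / ((p - 1) * c2 ^ p))
  obtain ⟨P, hPK, hPp, hS, hs5⟩ := exists_par (n := n) (max K1 K2) hp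
  have hε := P.hε
  have hg := P.g_pos
  have hKpos : (0 : ℝ) < (P.K : ℝ) + 1 := by positivity
  have hk1 : ‖T'‖ + 4 * C ≤ c0 * 2 ^ n / 16 * (P.K + 1) := by
    rw [div_lt_iff₀ (by positivity)] at hK1
    have h1 : (K1 : ℝ) ≤ P.K := by
      rw [hPK]; exact_mod_cast le_max_left _ _
    have h2 : (K1 : ℝ) * (c0 * 2 ^ n / 16) ≤ (P.K + 1) * (c0 * 2 ^ n / 16) :=
      mul_le_mul_of_nonneg_right (by linarith) (by positivity)
    linarith
  have hk2 : B ^ p < (p - 1) * c2 ^ p * (P.K + 1) := by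
    rw [div_lt_iff₀ (by positivity)] at hK2
    have h1 : (K2 : ℝ) ≤ P.K := by
      rw [hPK]; exact_mod_cast le_max_right _ _
    have h2 : (K2 : ℝ) * ((p - 1) * c2 ^ p) ≤ (P.K + 1) * ((p - 1) * c2 ^ p) :=
      mul_le_mul_of_nonneg_right (by linarith) (by positivity)
    linarith
  obtain ⟨J, hJ⟩ := P.Z_large hc0 hk1
  obtain ⟨adm, hadm1, hadm2⟩ := hadm P
  have hlow := bil_rec P hKD hc0 hadm1 hs5 J 0 one_pos hadm2
  rw [one_pow, one_mul] at hlow
  set A : ℝ := P.g * c2 / P.ε with hA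
  have hApos : 0 < A := by positivity
  have hWP := hW P hPp hS J
  rw [← hPp] at hWP
  have hup := bil_upper P hT' (N := B * P.ε⁻¹) (A := A) (by positivity) hApos J hWP
  have h3 : 2 ^ n * P.g * (c0 * 2 ^ n / 32) / P.ε = 2 * (2 ^ n * A) := by
    rw [hA, hc2]; ring
  rw [h3] at hJ
  have h4 : 2 ^ n * A ≤ (B * P.ε⁻¹) ^ P.p * (P.g * P.wG * 2 ^ n / P.δ) *
      (A ^ (1 - P.p) / (P.p - 1)) := by linarith
  rw [hPp] at h4
  have hAp : 0 < A ^ p := Real.rpow_pos_of_pos hApos _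
  have e1 : A ^ (1 - p) = A / A ^ p := by
    rw [Real.rpow_sub hApos, Real.rpow_one]
  rw [e1] at h4
  have e2 : P.g * P.wG * 2 ^ n / P.δ = P.g ^ p * 2 ^ n / (P.K + 1) := by
    have e3 : P.g ^ p = P.g * P.g ^ (P.p - 1) := by
      rw [hPp, Real.rpow_sub hg, Real.rpow_one]
      field_simp
    rw [e3]
    unfold Par.wG Par.δ
    field_simp
  rw [e2, Real.mul_rpow hB (inv_pos.mpr hε).le] at h4
  have e4 : A ^ p = P.g ^ p * c2 ^ p * (P.ε⁻¹) ^ p := by
    rw [hA, div_eq_mul_inv, Real.mul_rpow (by positivity) (by positivity),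
      Real.mul_rpow hg.le hc2p.le]
  have hgp : 0 < P.g ^ p := Real.rpow_pos_of_pos hg _
  have hεp : 0 < (P.ε⁻¹) ^ p := Real.rpow_pos_of_pos (inv_pos.mpr hε) _
  have h5 : 2 ^ n * A * (A ^ p * (p - 1) * (P.K + 1)) ≤
      (B ^ p * (P.ε⁻¹) ^ p * (P.g ^ p * 2 ^ n / (P.K + 1)) * (A / A ^ p / (p - 1))) *
      (A ^ p * (p - 1) * (P.K + 1)) := mul_le_mul_of_nonneg_right h4 (by positivity)
  have e5 : (B ^ p * (P.ε⁻¹) ^ p * (P.g ^ p * 2 ^ n / (P.K + 1)) * (A / A ^ p / (p - 1))) *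
      (A ^ p * (p - 1) * (P.K + 1)) = 2 ^ n * A * (P.g ^ p * (P.ε⁻¹) ^ p) * B ^ p := by
    field_simp
  rw [e5, e4] at h5
  have h6 : 2 ^ n * A * (P.g ^ p * (P.ε⁻¹) ^ p) * ((p - 1) * c2 ^ p * (P.K + 1)) ≤
      2 ^ n * A * (P.g ^ p * (P.ε⁻¹) ^ p) * B ^ p := by
    calc _ = 2 ^ n * A * (P.g ^ p * c2 ^ p * (P.ε⁻¹) ^ p * (p - 1) * (P.K + 1)) := by ring
      _ ≤ _ := h5
  have h7 := le_of_mul_le_mul_left h6 (by positivity)
  linarith

/-- both estimates fail for `α = 0` -/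
theorem fails_of_adm [NeZero n] {T : Fn n → Fn n} {K : E n → E n → ℝ} {C c0 p : ℝ}
    (hT : IsBdd T) (hK : HasKernel T K)
    (hm : Measurable (fun z : E n × E n => K z.1 z.2)) (hC : 0 ≤ C)
    (hs : ∀ x y, x ≠ y → |K x y| ≤ C / ‖x - y‖ ^ n) (hc0 : 0 < c0)
    (hadm : ∀ P : Par n, ∃ adm, Adm P K c0 adm ∧ adm 0 1) (hp : 1 < p) :
    ¬ WeakBound T p 0 ∧ ¬ StrongBound T p 0 := by
  have hlt : ∀ {x y : ℝ}, 0 < x → 0 ≤ y → ENNReal.ofReal (y * x) < ENNReal.ofReal ((y + 1) * x) := by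
    intro x y hx hy
    rw [ENNReal.ofReal_lt_ofReal_iff (by positivity)]
    nlinarith
  constructor
  · rintro ⟨c, hc⟩
    apply fails_core (B := c * Par.C1 n p ^ ((p - 1) / p) + 1) hT hK hm hC hs hc0 hadm hp
    · have : 0 ≤ Par.C1 n p ^ ((p - 1) / p) := by
        apply Real.rpow_nonneg
        unfold Par.C1
        have := R_pos (n := n)
        positivity
      positivity
    · intro P hPp hS J
      have hε := P.hε
      have hC1 : 0 ≤ Par.C1 n p ^ ((p - 1) / p) := by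
        rw [← hPp]
        exact Real.rpow_nonneg (zero_le_one.trans P.one_le_C1) _
      apply WP_of_weak
      have h1 := hc (P.w J) (by rw [← hPp]; exact isAp_w P J)
      have h2 := mixed1_le P hS J
      rw [hPp] at h2
      have h3 : weakNorm T p (P.w J) ≤
          ENNReal.ofReal (c * Par.C1 n p ^ ((p - 1) / p) * P.ε⁻¹) := by
        refine h1.trans ?_
        rw [mul_assoc, ENNReal.ofReal_mul (NNReal.coe_nonneg c)]
        rw [ENNReal.ofReal_coe_nnreal]
        exact mul_le_mul_right h2 _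
      exact h3.trans_lt (hlt (by positivity) (by positivity))
  · rintro ⟨c, hc⟩
    apply fails_core (B := c * (Par.C1 n p ^ ((p - 1) / p) + 1) + 1) hT hK hm hC hs hc0 hadm hp
    · have : 0 ≤ Par.C1 n p ^ ((p - 1) / p) := by
        apply Real.rpow_nonneg
        unfold Par.C1
        have := R_pos (n := n)
        positivity
      positivity
    · intro P hPp hS J
      have hε := P.hε
      have hC1 : 0 ≤ Par.C1 n p ^ ((p - 1) / p) := by
        rw [← hPp]
        exact Real.rpow_nonneg (zero_le_one.trans P.one_le_C1) _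
      apply WP_of_strong hT hp
      have h1 := hc (P.w J) (by rw [← hPp]; exact isAp_w P J)
      have h2 := mixed1_le P hS J
      have h2' := mixed2_le P hS J
      rw [hPp] at h2 h2'
      have h3 : strongNorm T p (P.w J) ≤
          ENNReal.ofReal (c * (Par.C1 n p ^ ((p - 1) / p) + 1) * P.ε⁻¹) := by
        refine h1.trans ?_
        rw [mul_assoc, ENNReal.ofReal_mul (NNReal.coe_nonneg c)]
        rw [ENNReal.ofReal_coe_nnreal, add_mul, one_mul, ENNReal.ofReal_add (by positivity)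
          (by positivity)]
        exact mul_le_mul_right (add_le_add h2 h2') _
      exact h3.trans_lt (hlt (by positivity) (by positivity))

end Pool.Agent.Helper51
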