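import Mathlib

open MeasureTheory Metric Set

namespace Pool.Agent.Helper51

/-- `ℝⁿ` with the sup norm; closed balls are closed axis-parallel cubes. -/
abbrev E (n : ℕ) := Fin n → ℝ

variable {n : ℕ}

theorem vol_ball (c : E n) {r : ℝ} (hr : 0 ≤ r) :
    volume.real (closedBall c r) = (2 * r) ^ n := by
  unfold Measure.real
  rw [Real.volume_pi_closedBall c hr, ENNReal.toReal_ofReal (by positivity), Fintype.card_fin]

theorem vol_ball_ne_top (c : E n) (r : ℝ) : volume (closedBall c r) ≠ ⊤ :=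
  (isCompact_closedBall c r).measure_lt_top.ne

/-- bounded measurable functions -/
structure Nice (f : E n → ℝ) : Prop where
  meas : Measurable f
  bdd : ∃ C : ℝ, ∀ x, |f x| ≤ C

theorem Nice.integrableOn {f : E n → ℝ} (hf : Nice f) {s : Set (E n)} (hs : volume s ≠ ⊤) :
    IntegrableOn f s := by
  obtain ⟨C, hC⟩ := hf.bdd
  exact Measure.integrableOn_of_bounded hs hf.meas.aestronglyMeasurable
    (Filter.Eventually.of_forall fun x => hC x)

theorem Nice.add {f g : E n → ℝ} (hf : Nice f) (hg : Nice g) : Nice (fun x => f x + g x) := by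
  obtain ⟨C, hC⟩ := hf.bdd
  obtain ⟨D, hD⟩ := hg.bdd
  exact ⟨hf.meas.add hg.meas, C + D, fun x => (abs_add_le _ _).trans (add_le_add (hC x) (hD x))⟩

theorem Nice.const (c : ℝ) : Nice (fun _ : E n => c) := ⟨measurable_const, |c|, fun _ => le_rfl⟩

theorem Nice.mul {f g : E n → ℝ} (hf : Nice f) (hg : Nice g) : Nice (fun x => f x * g x) := by
  obtain ⟨C, hC⟩ := hf.bdd
  obtain ⟨D, hD⟩ := hg.bdd
  refine ⟨hf.meas.mul hg.meas, C * D, fun x => ?_⟩
  rw [abs_mul]
  exact mul_le_mul (hC x) (hD x) (abs_nonneg _) ((abs_nonneg _).trans (hC x))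

theorem Nice.indicator {f : E n → ℝ} (hf : Nice f) {s : Set (E n)} (hs : MeasurableSet s) :
    Nice (s.indicator f) := by
  obtain ⟨C, hC⟩ := hf.bdd
  refine ⟨hf.meas.indicator hs, C, fun x => ?_⟩
  by_cases hx : x ∈ s
  · rw [Set.indicator_of_mem hx]
    exact hC x
  · rw [Set.indicator_of_notMem hx, abs_zero]
    exact (abs_nonneg _).trans (hC x)

theorem Nice.sum {ι : Type*} (s : Finset ι) {f : ι → E n → ℝ} (hf : ∀ i ∈ s, Nice (f i)) :
    Nice (fun x => ∑ i ∈ s, f i x) := by
  classical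
  induction s using Finset.induction_on with
  | empty => simpa using Nice.const (n := n) 0
  | insert a s ha ih =>
    simp only [Finset.sum_insert ha]
    exact (hf a (Finset.mem_insert_self a s)).add
      (ih fun i hi => hf i (Finset.mem_insert_of_mem hi))

theorem Nice.comp_affine {f : E n → ℝ} (hf : Nice f) (a : ℝ) (c : E n) :
    Nice (fun x => f (a • (x - c))) := by
  obtain ⟨C, hC⟩ := hf.bdd
  refine ⟨hf.meas.comp ?_, C, fun x => hC _⟩
  exact (measurable_id.sub_const c).const_smul a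

theorem mem_ball_scale (c x0 x : E n) {ρ : ℝ} (hρ : 0 < ρ) (r : ℝ) :
    x ∈ closedBall (c + ρ • x0) (ρ * r) ↔ ρ⁻¹ • (x - c) ∈ closedBall x0 r := by
  rw [mem_closedBall, mem_closedBall, dist_eq_norm, dist_eq_norm]
  have : x - (c + ρ • x0) = ρ • (ρ⁻¹ • (x - c) - x0) := by
    rw [smul_sub, smul_smul, mul_inv_cancel₀ hρ.ne', one_smul]
    abel
  rw [this, norm_smul, Real.norm_of_nonneg hρ.le]
  exact mul_le_mul_iff_right₀ hρ

theorem scale_integral (f : E n → ℝ) (c x0 : E n) {ρ : ℝ} (hρ : 0 < ρ) (r : ℝ) :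
    ∫ x in closedBall (c + ρ • x0) (ρ * r), f (ρ⁻¹ • (x - c)) =
      ρ ^ n * ∫ z in closedBall x0 r, f z := by
  rw [← integral_indicator measurableSet_closedBall, ← integral_indicator measurableSet_closedBall]
  have h1 : (closedBall (c + ρ • x0) (ρ * r)).indicator (fun x => f (ρ⁻¹ • (x - c))) =
      fun x => (fun y => (closedBall x0 r).indicator f (ρ⁻¹ • y)) (x - c) := by
    funext x
    by_cases hx : x ∈ closedBall (c + ρ • x0) (ρ * r)
    · rw [Set.indicator_of_mem hx]
      simp only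
      rw [Set.indicator_of_mem ((mem_ball_scale c x0 x hρ r).mp hx)]
    · rw [Set.indicator_of_notMem hx]
      simp only
      rw [Set.indicator_of_notMem (fun h => hx ((mem_ball_scale c x0 x hρ r).mpr h))]
  rw [h1, integral_sub_right_eq_self (fun y => (closedBall x0 r).indicator f (ρ⁻¹ • y)) c,
    Measure.integral_comp_inv_smul_of_nonneg _ _ hρ.le]
  simp

end Pool.Agent.Helper51
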