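import Pool.Agent.Helper51.CZGeom

open MeasureTheory Metric Set

namespace Pool.Agent.Helper51

variable {n : ℕ}

/-- centre of the small cube `F'_k` -/
noncomputable def ck (n k : ℕ) : E n := fun _ => (1 / 8 : ℝ) ^ k / 2

/-- radius of the small cube `F'_k` -/
noncomputable def rk (k : ℕ) : ℝ := (1 / 8 : ℝ) ^ (2 * k + 1)

theorem rk_pos (k : ℕ) : 0 < rk k := by unfold rk; positivity

/-- the small cube `F'_k` -/
def Fk (n k : ℕ) : Set (E n) := closedBall (ck n k) (rk k)

/-- the affine map sending `F'_k` to the unit cube -/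
noncomputable def Sk (k : ℕ) (x : E n) : E n := (rk k)⁻¹ • (x - ck n k)

theorem measurableSet_Fk (k : ℕ) : MeasurableSet (Fk n k) := measurableSet_closedBall

theorem e8_pos (k : ℕ) : (0 : ℝ) < (1 / 8) ^ k := by positivity

theorem e8_succ_le {i k : ℕ} (h : i < k) : (1 / 8 : ℝ) ^ k ≤ (1 / 8) ^ i / 8 := by
  have : (1 / 8 : ℝ) ^ k ≤ (1 / 8) ^ (i + 1) :=
    pow_le_pow_of_le_one (by norm_num) (by norm_num) h
  rw [pow_succ] at this
  linarith

theorem e8_le {i k : ℕ} (h : i ≤ k) : (1 / 8 : ℝ) ^ k ≤ (1 / 8) ^ i :=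
  pow_le_pow_of_le_one (by norm_num) (by norm_num) h

theorem e8_le_one (k : ℕ) : (1 / 8 : ℝ) ^ k ≤ 1 := pow_le_one₀ (by norm_num) (by norm_num)

theorem rk_le (k : ℕ) : rk k ≤ (1 / 8) ^ k / 8 := by
  unfold rk
  exact e8_succ_le (by omega)

theorem norm_ck [NeZero n] (k : ℕ) : ‖ck n k‖ = (1 / 8 : ℝ) ^ k / 2 := by
  unfold ck
  have : Nonempty (Fin n) := ⟨0⟩
  rw [pi_norm_const, Real.norm_of_nonneg (by positivity)]

theorem norm_mem_Fk [NeZero n] {k : ℕ} {x : E n} (hx : x ∈ Fk n k) :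
    3 / 8 * (1 / 8 : ℝ) ^ k ≤ ‖x‖ ∧ ‖x‖ ≤ 5 / 8 * (1 / 8 : ℝ) ^ k := by
  unfold Fk at hx
  rw [mem_closedBall, dist_eq_norm] at hx
  have h1 := norm_ck (n := n) k
  have h2 := rk_le k
  have h3 : ‖x‖ ≤ ‖x - ck n k‖ + ‖ck n k‖ := by
    have := norm_add_le (x - ck n k) (ck n k)
    simpa using this
  have h4 : ‖ck n k‖ ≤ ‖x - ck n k‖ + ‖x‖ := by
    have := norm_sub_le x (x - ck n k)
    rw [sub_sub_cancel] at this
    linarith
  constructor <;> linarith

theorem Fk_not_mem_D [NeZero n] {i k : ℕ} (h : i < k) {x : E n} (hx : x ∈ Fk n i) :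
    (1 / 8 : ℝ) ^ k < ‖x‖ := by
  have h1 := (norm_mem_Fk hx).1
  have h2 := e8_succ_le h
  have := e8_pos i
  linarith

theorem Fk_mem_D [NeZero n] {i k : ℕ} (h : k ≤ i) {x : E n} (hx : x ∈ Fk n i) :
    ‖x‖ ≤ 5 / 8 * (1 / 8 : ℝ) ^ k := by
  have h1 := (norm_mem_Fk hx).2
  have h2 := e8_le h
  linarith

theorem Fk_disj [NeZero n] {i j : ℕ} (h : i ≠ j) {x : E n} (hx : x ∈ Fk n i) : x ∉ Fk n j := by
  intro hy
  rcases Nat.lt_or_gt_of_ne h with h | h
  · have h1 := Fk_not_mem_D h hx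
    have h2 := Fk_mem_D le_rfl hy
    have := e8_pos j
    linarith
  · have h1 := Fk_not_mem_D h hy
    have h2 := Fk_mem_D le_rfl hx
    have := e8_pos i
    linarith

theorem mem_Fk_iff (k : ℕ) (x : E n) : x ∈ Fk n k ↔ Sk k x ∈ closedBall (0 : E n) 1 := by
  have := mem_ball_scale (ck n k) 0 x (rk_pos k) 1
  rw [smul_zero, add_zero, mul_one] at this
  exact this

/-- union of the `F'_k`, `k ≤ K` -/
def UK (n K : ℕ) : Set (E n) := ⋃ k ∈ Finset.range (K + 1), Fk n k

theorem mem_UK {K : ℕ} {x : E n} : x ∈ UK n K ↔ ∃ k, k ≤ K ∧ x ∈ Fk n k := by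
  unfold UK
  simp only [Finset.mem_range, mem_iUnion, exists_prop, Nat.lt_succ_iff]

theorem measurableSet_UK (K : ℕ) : MeasurableSet (UK n K) :=
  Finset.measurableSet_biUnion _ fun k _ => measurableSet_Fk k

/-- glue a background function and rescaled functions on the `F'_k` -/
noncomputable def glue (K : ℕ) (β : E n → ℝ) (f : ℕ → E n → ℝ) (x : E n) : ℝ :=
  (UK n K)ᶜ.indicator β x + ∑ k ∈ Finset.range (K + 1), (Fk n k).indicator (fun x => f k (Sk k x)) x

theorem glue_of_mem [NeZero n] {K k : ℕ} (hk : k ≤ K) (β : E n → ℝ) (f : ℕ → E n → ℝ) {x : E n}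
    (hx : x ∈ Fk n k) : glue K β f x = f k (Sk k x) := by
  unfold glue
  rw [Set.indicator_of_notMem, Finset.sum_eq_single k, Set.indicator_of_mem hx, zero_add]
  · intro j _ hj
    exact Set.indicator_of_notMem (Fk_disj hj.symm hx) _
  · intro h
    exact absurd (Finset.mem_range.mpr (Nat.lt_succ_of_le hk)) h
  · intro h
    exact h (mem_UK.mpr ⟨k, hk, hx⟩)

theorem glue_of_not {K : ℕ} (β : E n → ℝ) (f : ℕ → E n → ℝ) {x : E n}
    (hx : ∀ k, k ≤ K → x ∉ Fk n k) : glue K β f x = β x := by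
  unfold glue
  rw [Set.indicator_of_mem, Finset.sum_eq_zero, add_zero]
  · intro k hk
    exact Set.indicator_of_notMem (hx k (Nat.lt_succ_iff.mp (Finset.mem_range.mp hk))) _
  · intro h
    obtain ⟨k, hk, hxk⟩ := mem_UK.mp h
    exact hx k hk hxk

theorem Nice.comp_Sk {f : E n → ℝ} (hf : Nice f) (k : ℕ) : Nice (fun x => f (Sk k x)) :=
  hf.comp_affine _ _

theorem Nice.glue {K : ℕ} {β : E n → ℝ} {f : ℕ → E n → ℝ} (hβ : Nice β)
    (hf : ∀ k, k ≤ K → Nice (f k)) : Nice (glue K β f) := by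
  unfold Helper51.glue
  apply (hβ.indicator (measurableSet_UK K).compl).add
  apply Nice.sum
  intro k hk
  exact ((hf k (Nat.lt_succ_iff.mp (Finset.mem_range.mp hk))).comp_Sk k).indicator
    (measurableSet_Fk k)

theorem integral_Fk (f : E n → ℝ) (k : ℕ) :
    ∫ x in Fk n k, f (Sk k x) = rk k ^ n * ∫ z in closedBall (0 : E n) 1, f z := by
  have := scale_integral f (ck n k) 0 (rk_pos k) 1
  rw [smul_zero, add_zero, mul_one] at this
  exact this

/-- majorization lemma -/
theorem major {A : Set (E n)} (hA : MeasurableSet A) (hA' : volume A ≠ ⊤) {s : Finset ℕ}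
    {g β : E n → ℝ} {f : ℕ → E n → ℝ}
    (hg : Nice g) (hβ : Nice β) (hf : ∀ k ∈ s, Nice (f k))
    (hf0 : ∀ k ∈ s, ∀ z ∈ closedBall (0 : E n) 1, 0 ≤ f k z)
    (h : ∀ x ∈ A, g x ≤ β x + ∑ k ∈ s, (Fk n k).indicator (fun x => f k (Sk k x)) x) :
    ∫ x in A, g x ≤ (∫ x in A, β x) + ∑ k ∈ s, rk k ^ n * ∫ z in closedBall (0 : E n) 1, f k z := by
  have hn : ∀ k ∈ s, Nice ((Fk n k).indicator (fun x => f k (Sk k x))) := fun k hk =>
    ((hf k hk).comp_Sk k).indicator (measurableSet_Fk k)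
  calc ∫ x in A, g x ≤ ∫ x in A, (β x + ∑ k ∈ s, (Fk n k).indicator (fun x => f k (Sk k x)) x) := by
        apply setIntegral_mono_on (hg.integrableOn hA')
          ((hβ.add (Nice.sum s hn)).integrableOn hA') hA h
    _ = (∫ x in A, β x) + ∑ k ∈ s, ∫ x in A, (Fk n k).indicator (fun x => f k (Sk k x)) x := by
        rw [integral_add (hβ.integrableOn hA') ((Nice.sum s hn).integrableOn hA'),
          integral_finsetSum s fun k hk => (hn k hk).integrableOn hA']
    _ ≤ _ := by
        gcongr with k hk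
        rw [← integral_Fk]
        rw [← integral_indicator hA]
        rw [← integral_indicator (measurableSet_Fk k)]
        have hi : Integrable ((Fk n k).indicator (fun x => f k (Sk k x))) := by
          rw [integrable_indicator_iff (measurableSet_Fk k)]
          exact ((hf k hk).comp_Sk k).integrableOn (vol_ball_ne_top _ _)
        apply integral_mono (hi.indicator hA) hi
        intro x
        simp only
        have h0 : 0 ≤ (Fk n k).indicator (fun x => f k (Sk k x)) x := by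
          apply Set.indicator_nonneg
          intro y hy
          exact hf0 k hk _ ((mem_Fk_iff k y).mp hy)
        by_cases hx : x ∈ A
        · rw [Set.indicator_of_mem hx]
        · rw [Set.indicator_of_notMem hx]
          exact h0

/-- exact integral of a glued function over the unit cube -/
theorem integral_glue [NeZero n] {K : ℕ} {β : E n → ℝ} {f : ℕ → E n → ℝ} (hβ : Nice β)
    (hf : ∀ k, k ≤ K → Nice (f k)) :
    ∫ x in closedBall (0 : E n) 1, glue K β f x =
      (∫ x in closedBall (0 : E n) 1 \ UK n K, β x) +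
        ∑ k ∈ Finset.range (K + 1), rk k ^ n * ∫ z in closedBall (0 : E n) 1, f k z := by
  have hA' := vol_ball_ne_top (0 : E n) 1
  have hf' : ∀ k ∈ Finset.range (K + 1), Nice (f k) := fun k hk =>
    hf k (Nat.lt_succ_iff.mp (Finset.mem_range.mp hk))
  have hn : ∀ k ∈ Finset.range (K + 1), Nice ((Fk n k).indicator (fun x => f k (Sk k x))) :=
    fun k hk => ((hf' k hk).comp_Sk k).indicator (measurableSet_Fk k)
  unfold glue
  rw [integral_add ((hβ.indicator (measurableSet_UK K).compl).integrableOn hA')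
    ((Nice.sum _ hn).integrableOn hA'),
    integral_finsetSum _ fun k hk => (hn k hk).integrableOn hA']
  congr 1
  · rw [setIntegral_indicator (measurableSet_UK K).compl]
    rfl
  · apply Finset.sum_congr rfl
    intro k _
    rw [setIntegral_indicator (measurableSet_Fk k), ← integral_Fk]
    congr 2
    apply Set.inter_eq_self_of_subset_right
    intro x hx
    rw [mem_closedBall, dist_zero_right]
    have := Fk_mem_D (Nat.zero_le k) hx
    rw [pow_zero] at this
    linarith

end Pool.Agent.Helper51
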