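import Pool.Agent.Helper51.CZWeight

open MeasureTheory Metric Set

namespace Pool.Agent.Helper51

variable {n : ℕ}

theorem Nice.max0 {f : E n → ℝ} (hf : Nice f) : Nice (fun x => max (f x) 0) := by
  obtain ⟨C, hC⟩ := hf.bdd
  refine ⟨hf.meas.max measurable_const, C, fun x => ?_⟩
  rw [abs_of_nonneg (le_max_right _ _)]
  apply max_le ((le_abs_self _).trans (hC x)) ((abs_nonneg _).trans (hC x))

theorem Nice.log {f : E n → ℝ} (hf : Nice f) {m : ℝ} (hm : 0 < m) (h : ∀ x, m ≤ f x) :
    Nice (fun x => Real.log (f x)) := by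
  obtain ⟨C, hC⟩ := hf.bdd
  refine ⟨Real.measurable_log.comp hf.meas, max |Real.log m| |Real.log C|, fun x => ?_⟩
  have h1 : Real.log m ≤ Real.log (f x) := Real.log_le_log hm (h x)
  have h2 : Real.log (f x) ≤ Real.log C :=
    Real.log_le_log (hm.trans_le (h x)) ((le_abs_self _).trans (hC x))
  rw [abs_le]
  constructor
  · have := neg_abs_le (Real.log m)
    have := le_max_left |Real.log m| |Real.log C|
    linarith
  · have := le_abs_self (Real.log C)
    have := le_max_right |Real.log m| |Real.log C|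
    linarith

theorem Nice.rpow_neg {f : E n → ℝ} (hf : Nice f) {m q : ℝ} (hm : 0 < m) (hq : 0 ≤ q)
    (h : ∀ x, m ≤ f x) : Nice (fun x => f x ^ (-q)) := by
  refine ⟨hf.meas.pow_const _, m ^ (-q), fun x => ?_⟩
  rw [abs_of_nonneg (Real.rpow_nonneg (hm.le.trans (h x)) _)]
  exact Real.rpow_le_rpow_of_nonpos hm (h x) (by linarith)

theorem setInt_const (s : Set (E n)) (c : ℝ) : ∫ _x in s, c = volume.real s * c := by
  rw [setIntegral_const, smul_eq_mul]

namespace Par

variable (P : Par n)

theorem S_le' [NeZero n] : P.S ≤ 1 / 7 := by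
  have h1 := P.S_le
  have h2 := R_ge (n := n)
  have h3 : (R n)⁻¹ ≤ 1 / 8 := by
    rw [one_div]
    exact inv_anti₀ (by norm_num) h2
  linarith

theorem sum_Ico_le (k : ℕ) :
    ∑ i ∈ Finset.Ico k (P.K + 1), (R n ^ (i + 1))⁻¹ ≤ (R n ^ k)⁻¹ * P.S := by
  have hR := R_pos (n := n)
  rw [Finset.sum_Ico_eq_sum_range]
  unfold S
  rw [Finset.mul_sum]
  calc ∑ i ∈ Finset.range (P.K + 1 - k), (R n ^ (k + i + 1))⁻¹
      = ∑ i ∈ Finset.range (P.K + 1 - k), (R n ^ k)⁻¹ * (R n ^ (i + 1))⁻¹ := by
        apply Finset.sum_congr rfl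
        intro i _
        rw [← mul_inv, ← pow_add, add_assoc]
    _ ≤ ∑ i ∈ Finset.range (P.K + 1), (R n ^ k)⁻¹ * (R n ^ (i + 1))⁻¹ := by
        apply Finset.sum_le_sum_of_subset_of_nonneg
        · intro i hi
          rw [Finset.mem_range] at hi ⊢
          omega
        · intro i _ _
          positivity

theorem sum_Ico_le2 (k : ℕ) :
    ∑ i ∈ Finset.Ico k (P.K + 1), (R n ^ (2 * i + 1))⁻¹ ≤ (R n ^ k)⁻¹ * P.S := by
  refine le_trans (Finset.sum_le_sum ?_) (P.sum_Ico_le k)
  intro i _
  apply inv_anti₀ (by have := R_pos (n := n); positivity)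
  exact pow_le_pow_right₀ R_ge_one (by omega)

theorem sum_range_le2 [NeZero n] :
    ∑ i ∈ Finset.range (P.K + 1), (R n ^ (2 * i + 1))⁻¹ ≤ 1 / 7 := by
  have := P.sum_Ico_le2 0
  rw [pow_zero, inv_one, one_mul] at this
  rw [Finset.range_eq_Ico]
  exact this.trans P.S_le'

/-- step for the integral of the weight over `D_k` -/
theorem int_w_D_step [NeZero n] (J : ℕ)
    (ih : ∫ x in closedBall (0 : E n) 1, P.w J x ≤ 2 ^ n) {k : ℕ} (hk : k ≤ P.K) :
    ∫ x in closedBall (0 : E n) ((1 / 8 : ℝ) ^ k), P.w (J + 1) x ≤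
      2 ^ n * (P.δ + (R n ^ k)⁻¹ * (1 - P.δ)) := by
  have hR := R_pos (n := n)
  have hε := P.hε
  set β : E n → ℝ := fun x => ∑ i ∈ Finset.Ico k (P.K + 1),
    (closedBall (0 : E n) ((1 / 8 : ℝ) ^ i)).indicator (fun _ => P.ε * R n ^ i) x with hβ
  have hnβ : ∀ i, Nice ((closedBall (0 : E n) ((1 / 8 : ℝ) ^ i)).indicator
      (fun _ => P.ε * R n ^ i)) := fun i => (Nice.const _).indicator measurableSet_closedBall
  have hβ0 : ∀ i x, 0 ≤ (closedBall (0 : E n) ((1 / 8 : ℝ) ^ i)).indicator
      (fun _ => P.ε * R n ^ i) x := fun i x => Set.indicator_nonneg (fun _ _ => by positivity) x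
  have hf0 : ∀ (i : ℕ) (z : E n), 0 ≤ P.W * R n ^ i * P.w J z := fun i z => by
    have := P.W_pos
    have := P.w_pos J z
    positivity
  have hterm0 : ∀ (i : ℕ) (x : E n),
      0 ≤ (Fk n i).indicator (fun x => P.W * R n ^ i * P.w J (Sk i x)) x :=
    fun i x => Set.indicator_nonneg (fun _ _ => hf0 i _) x
  have hmaj := major (A := closedBall (0 : E n) ((1 / 8 : ℝ) ^ k)) measurableSet_closedBall
    (vol_ball_ne_top _ _) (s := Finset.Ico k (P.K + 1)) (g := P.w (J + 1)) (β := β)
    (f := fun i z => P.W * R n ^ i * P.w J z) (P.nice_w _)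
    (Nice.sum _ fun i _ => hnβ i) (fun i _ => (Nice.const _).mul (P.nice_w J))
    (fun i _ z _ => hf0 i z) ?_
  · refine hmaj.trans ?_
    have h1 : ∫ x in closedBall (0 : E n) ((1 / 8 : ℝ) ^ k), β x ≤ 2 ^ n * P.δ := by
      rw [hβ, integral_finsetSum _ fun i _ => (hnβ i).integrableOn (vol_ball_ne_top _ _)]
      have h2 : ∀ i ∈ Finset.Ico k (P.K + 1), ∫ x in closedBall (0 : E n) ((1 / 8 : ℝ) ^ k),
          (closedBall (0 : E n) ((1 / 8 : ℝ) ^ i)).indicator (fun _ => P.ε * R n ^ i) x =
          2 ^ n * P.ε := by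
        intro i hi
        rw [setIntegral_indicator measurableSet_closedBall,
          Set.inter_eq_self_of_subset_right
            (closedBall_subset_closedBall (e8_le (Finset.mem_Ico.mp hi).1)),
          setInt_const, vol_D]
        have : R n ^ i ≠ 0 := by positivity
        field_simp
      rw [Finset.sum_congr rfl h2, Finset.sum_const, Nat.card_Ico, nsmul_eq_mul]
      unfold δ
      have : ((P.K + 1 - k : ℕ) : ℝ) ≤ (P.K : ℝ) + 1 := by
        have : P.K + 1 - k ≤ P.K + 1 := Nat.sub_le _ _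
        exact_mod_cast this
      calc ((P.K + 1 - k : ℕ) : ℝ) * (2 ^ n * P.ε) ≤ ((P.K : ℝ) + 1) * (2 ^ n * P.ε) :=
            mul_le_mul_of_nonneg_right this (by positivity)
        _ = _ := by ring
    have h3 : ∑ i ∈ Finset.Ico k (P.K + 1), rk i ^ n *
        ∫ z in closedBall (0 : E n) 1, P.W * R n ^ i * P.w J z ≤
        2 ^ n * ((R n ^ k)⁻¹ * (1 - P.δ)) := by
      calc ∑ i ∈ Finset.Ico k (P.K + 1), rk i ^ n *
            ∫ z in closedBall (0 : E n) 1, P.W * R n ^ i * P.w J z
          ≤ ∑ i ∈ Finset.Ico k (P.K + 1), (2 ^ n * P.W) * (R n ^ (i + 1))⁻¹ := by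
            apply Finset.sum_le_sum
            intro i _
            rw [integral_const_mul, rk_pow]
            have h4 : (R n ^ (2 * i + 1))⁻¹ * (P.W * R n ^ i *
                ∫ z in closedBall (0 : E n) 1, P.w J z) =
                P.W * (R n ^ (i + 1))⁻¹ * ∫ z in closedBall (0 : E n) 1, P.w J z := by
              have : R n ^ (2 * i + 1) = R n ^ i * R n ^ (i + 1) := by
                rw [← pow_add]; congr 1; omega
              rw [this]
              have : R n ^ i ≠ 0 := by positivity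
              field_simp
            rw [h4]
            have hW := P.W_pos
            calc P.W * (R n ^ (i + 1))⁻¹ * ∫ z in closedBall (0 : E n) 1, P.w J z
                ≤ P.W * (R n ^ (i + 1))⁻¹ * 2 ^ n := mul_le_mul_of_nonneg_left ih (by positivity)
              _ = _ := by ring
        _ = (2 ^ n * P.W) * ∑ i ∈ Finset.Ico k (P.K + 1), (R n ^ (i + 1))⁻¹ := by
            rw [Finset.mul_sum]
        _ ≤ (2 ^ n * P.W) * ((R n ^ k)⁻¹ * P.S) := by
            have hW := P.W_pos
            exact mul_le_mul_of_nonneg_left (P.sum_Ico_le k) (by positivity)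
        _ = 2 ^ n * ((R n ^ k)⁻¹ * (P.W * P.S)) := by ring
        _ = _ := by rw [P.W_mul_S]
    linarith
  · intro x hx
    rw [mem_closedBall, dist_zero_right] at hx
    rw [w_succ]
    by_cases h : ∃ i, i ≤ P.K ∧ x ∈ Fk n i
    · obtain ⟨i, hi, hxi⟩ := h
      rw [glue_of_mem hi _ _ hxi]
      have hki : k ≤ i := by
        by_contra hcon
        have := Fk_not_mem_D (not_le.mp hcon) hxi
        linarith
      have h1 : 0 ≤ β x := Finset.sum_nonneg fun i _ => hβ0 i x
      have h2 : (Fk n i).indicator (fun x => P.W * R n ^ i * P.w J (Sk i x)) x ≤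
          ∑ j ∈ Finset.Ico k (P.K + 1),
            (Fk n j).indicator (fun x => P.W * R n ^ j * P.w J (Sk j x)) x :=
        Finset.single_le_sum (f := fun j =>
          (Fk n j).indicator (fun x => P.W * R n ^ j * P.w J (Sk j x)) x)
          (fun j _ => hterm0 j x) (Finset.mem_Ico.mpr ⟨hki, by omega⟩)
      rw [Set.indicator_of_mem hxi] at h2
      linarith
    · push Not at h
      rw [glue_of_not _ _ h]
      have h2 : 0 ≤ ∑ j ∈ Finset.Ico k (P.K + 1),
            (Fk n j).indicator (fun x => P.W * R n ^ j * P.w J (Sk j x)) x :=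
        Finset.sum_nonneg fun j _ => hterm0 j x
      have hx1 : ‖x‖ ≤ 1 := hx.trans (e8_le_one k)
      have h3 : P.b x ≤ β x := by
        by_cases hG : ‖x‖ ≤ (1 / 8 : ℝ) ^ (2 * P.K + 1)
        · rw [P.b_G hG]
          have h4 : (closedBall (0 : E n) ((1 / 8 : ℝ) ^ k)).indicator (fun _ => P.ε * R n ^ k) x ≤
              β x := Finset.single_le_sum (f := fun i =>
                (closedBall (0 : E n) ((1 / 8 : ℝ) ^ i)).indicator (fun _ => P.ε * R n ^ i) x)
                (fun i _ => hβ0 i x) (Finset.mem_Ico.mpr ⟨le_rfl, by omega⟩)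
          rw [Set.indicator_of_mem (by rw [mem_closedBall, dist_zero_right]; exact hx)] at h4
          have h5 : P.ε ≤ P.ε * R n ^ k := le_mul_of_one_le_right hε.le (one_le_R_pow _)
          linarith [P.wG_le]
        · rw [P.b_not_G (not_le.mp hG)]
          have h4 : (closedBall (0 : E n) ((1 / 8 : ℝ) ^ P.κ x)).indicator
              (fun _ => P.ε * R n ^ P.κ x) x ≤
              β x := Finset.single_le_sum (f := fun i =>
                (closedBall (0 : E n) ((1 / 8 : ℝ) ^ i)).indicator (fun _ => P.ε * R n ^ i) x)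
                (fun i _ => hβ0 i x)
                (Finset.mem_Ico.mpr ⟨P.le_κ hk hx, Nat.lt_succ_of_le (P.κ_le x)⟩)
          rwa [Set.indicator_of_mem
            (by rw [mem_closedBall, dist_zero_right]; exact P.κ_spec hx1)] at h4
      linarith

theorem int_w_B [NeZero n] (J : ℕ) : ∫ x in closedBall (0 : E n) 1, P.w J x ≤ 2 ^ n := by
  induction J with
  | zero =>
    show ∫ _x in closedBall (0 : E n) 1, P.ε ≤ 2 ^ n
    rw [setInt_const, vol_B]
    have := P.ε_le
    have h2 : (0 : ℝ) < 2 ^ n := by positivity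
    nlinarith
  | succ J ih =>
    have := P.int_w_D_step J ih (Nat.zero_le P.K)
    rw [pow_zero, pow_zero, inv_one] at this
    linarith

theorem int_w_D [NeZero n] (J : ℕ) {k : ℕ} (hk : k ≤ P.K) :
    ∫ x in closedBall (0 : E n) ((1 / 8 : ℝ) ^ k), P.w (J + 1) x ≤ 2 * (2 ^ n * (R n ^ k)⁻¹) := by
  have h := P.int_w_D_step J (P.int_w_B J) hk
  have h1 : P.δ ≤ (R n ^ k)⁻¹ := by
    refine P.hε2.trans ?_
    apply inv_anti₀ (by have := R_pos (n := n); positivity)
    exact pow_le_pow_right₀ R_ge_one hk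
  have h2 := P.δ_nonneg
  have h3 : 0 < (R n ^ k)⁻¹ := by have := R_pos (n := n); positivity
  have h4 : (0 : ℝ) < 2 ^ n := by positivity
  have h5 : P.δ + (R n ^ k)⁻¹ * (1 - P.δ) ≤ 2 * (R n ^ k)⁻¹ := by nlinarith
  calc _ ≤ _ := h
    _ ≤ 2 ^ n * (2 * (R n ^ k)⁻¹) := mul_le_mul_of_nonneg_left h5 h4.le
    _ = _ := by ring


/-- pointwise case analysis for `w (J+1)` -/
theorem w_cases [NeZero n] (J : ℕ) (x : E n) :
    (∃ i, i ≤ P.K ∧ x ∈ Fk n i ∧ P.w (J + 1) x = P.W * R n ^ i * P.w J (Sk i x)) ∨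
    ((∀ i, i ≤ P.K → x ∉ Fk n i) ∧ P.w (J + 1) x = P.b x) := by
  by_cases h : ∃ i, i ≤ P.K ∧ x ∈ Fk n i
  · obtain ⟨i, hi, hxi⟩ := h
    left
    refine ⟨i, hi, hxi, ?_⟩
    rw [w_succ, glue_of_mem hi _ _ hxi]
  · right
    push Not at h
    refine ⟨h, ?_⟩
    rw [w_succ, glue_of_not _ _ h]

/-- the general recursive estimate on a set `A ⊆ D_k` (or on the unit cube) -/
theorem rec_est [NeZero n] (J : ℕ) {A : Set (E n)} (hA : MeasurableSet A) (hA' : volume A ≠ ⊤)
    {k : ℕ} (hAk : k = 0 ∨ A ⊆ closedBall (0 : E n) ((1 / 8 : ℝ) ^ k))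
    {g β f : E n → ℝ} (hg : Nice g) (hβ : Nice β) (hf : Nice f)
    (_hβ0 : ∀ x, 0 ≤ β x) (hf0 : ∀ z, 0 ≤ f z)
    (hF : ∀ i, k ≤ i → i ≤ P.K → ∀ x ∈ A, x ∈ Fk n i →
      P.w (J + 1) x = P.W * R n ^ i * P.w J (Sk i x) → g x ≤ β x + f (Sk i x))
    (hb : ∀ x ∈ A, (∀ i, i ≤ P.K → x ∉ Fk n i) → P.w (J + 1) x = P.b x → g x ≤ β x) :
    ∫ x in A, g x ≤ (∫ x in A, β x) + (R n ^ k)⁻¹ * P.S * ∫ z in closedBall (0 : E n) 1, f z := by
  have hterm0 : ∀ (i : ℕ) (x : E n), 0 ≤ (Fk n i).indicator (fun x => f (Sk i x)) x :=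
    fun i x => Set.indicator_nonneg (fun _ _ => hf0 _) x
  have hmaj := major (A := A) hA hA' (s := Finset.Ico k (P.K + 1)) (g := g) (β := β)
    (f := fun _ z => f z) hg hβ (fun _ _ => hf) (fun _ _ z _ => hf0 z) ?_
  · refine hmaj.trans ?_
    rw [← Finset.sum_mul]
    gcongr
    · exact setIntegral_nonneg measurableSet_closedBall fun z _ => hf0 z
    · simp only [rk_pow]
      exact P.sum_Ico_le2 k
  · intro x hx
    rcases P.w_cases J x with ⟨i, hi, hxi, hw⟩ | ⟨hni, hw⟩
    · have hki : k ≤ i := by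
        rcases hAk with h0 | hAk
        · omega
        · by_contra hcon
          have h1 := Fk_not_mem_D (not_le.mp hcon) hxi
          have h2 := hAk hx
          rw [mem_closedBall, dist_zero_right] at h2
          linarith
      have h1 := hF i hki hi x hx hxi hw
      have h2 : (Fk n i).indicator (fun x => f (Sk i x)) x ≤
          ∑ j ∈ Finset.Ico k (P.K + 1), (Fk n j).indicator (fun x => f (Sk j x)) x :=
        Finset.single_le_sum (f := fun j => (Fk n j).indicator (fun x => f (Sk j x)) x)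
          (fun j _ => hterm0 j x) (Finset.mem_Ico.mpr ⟨hki, by omega⟩)
      rw [Set.indicator_of_mem hxi] at h2
      linarith
    · have h1 := hb x hx hni hw
      have h2 : 0 ≤ ∑ j ∈ Finset.Ico k (P.K + 1), (Fk n j).indicator (fun x => f (Sk j x)) x :=
        Finset.sum_nonneg fun j _ => hterm0 j x
      linarith

theorem nice_rpow [NeZero n] (J : ℕ) : Nice (fun x => P.w J x ^ (-P.q)) :=
  (P.nice_w J).rpow_neg P.wG_pos P.q_pos.le (P.wG_le_w J)

theorem wG_rpow : P.wG ^ (-P.q) * P.g = P.ε ^ (-P.q) := by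
  unfold wG
  rw [Real.mul_rpow P.hε.le (Real.rpow_nonneg P.g_pos.le _), ← Real.rpow_mul P.g_pos.le,
    mul_assoc]
  have : (P.p - 1) * -P.q = -1 := by
    have := P.q_mul
    linarith
  rw [this, Real.rpow_neg_one, inv_mul_cancel₀ P.g_pos.ne', mul_one]

/-- integral of the dual weight -/
theorem int_sigma [NeZero n] (J : ℕ) :
    ∫ x in closedBall (0 : E n) 1, P.w J x ^ (-P.q) ≤ 4 * P.ε ^ (-P.q) * 2 ^ n := by
  have hε := P.hε
  have hq := P.q_pos
  have hεq : 0 < P.ε ^ (-P.q) := Real.rpow_pos_of_pos hε _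
  have h2n : (0 : ℝ) < 2 ^ n := by positivity
  induction J with
  | zero =>
    show ∫ _x in closedBall (0 : E n) 1, P.ε ^ (-P.q) ≤ _
    rw [setInt_const, vol_B]
    nlinarith [mul_pos hεq h2n]
  | succ J ih =>
    set G : Set (E n) := closedBall (0 : E n) ((1 / 8 : ℝ) ^ (2 * P.K + 1)) with hG
    have hGn : Nice (G.indicator (fun _ => P.wG ^ (-P.q))) :=
      (Nice.const _).indicator measurableSet_closedBall
    have hwGq : 0 < P.wG ^ (-P.q) := Real.rpow_pos_of_pos P.wG_pos _
    have hG0 : ∀ x, 0 ≤ G.indicator (fun _ => P.wG ^ (-P.q)) x := fun x =>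
      Set.indicator_nonneg (fun _ _ => hwGq.le) x
    have h := P.rec_est J (A := closedBall (0 : E n) 1) measurableSet_closedBall
      (vol_ball_ne_top _ _) (k := 0) (Or.inl rfl)
      (g := fun x => P.w (J + 1) x ^ (-P.q))
      (β := fun x => P.ε ^ (-P.q) + G.indicator (fun _ => P.wG ^ (-P.q)) x)
      (f := fun z => P.w J z ^ (-P.q)) (P.nice_rpow _)
      ((Nice.const _).add hGn) (P.nice_rpow J)
      (fun x => by have := hG0 x; positivity)
      (fun z => Real.rpow_nonneg (P.w_pos J z).le _) ?_ ?_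
    · refine h.trans ?_
      have h1 : ∫ x in closedBall (0 : E n) 1,
          (P.ε ^ (-P.q) + G.indicator (fun _ => P.wG ^ (-P.q)) x) = 2 * P.ε ^ (-P.q) * 2 ^ n := by
        rw [integral_add ((Nice.const _).integrableOn (vol_ball_ne_top _ _))
          (hGn.integrableOn (vol_ball_ne_top _ _)), setInt_const, vol_B,
          setIntegral_indicator measurableSet_closedBall,
          Set.inter_eq_self_of_subset_right (closedBall_subset_closedBall (e8_le_one _)),
          setInt_const, vol_D]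
        have := P.wG_rpow
        unfold g at this
        linear_combination 2 ^ n * this
      rw [h1, pow_zero, inv_one, one_mul]
      have h3 : P.S * ∫ z in closedBall (0 : E n) 1, P.w J z ^ (-P.q) ≤
          1 / 7 * (4 * P.ε ^ (-P.q) * 2 ^ n) := by
        apply mul_le_mul P.S_le' ih _ (by norm_num)
        exact setIntegral_nonneg measurableSet_closedBall
          fun z _ => Real.rpow_nonneg (P.w_pos J z).le _
      nlinarith [mul_pos hεq h2n]
    · intro i _ _ x _ _ hw
      rw [hw]
      have h1 : (P.W * R n ^ i * P.w J (Sk i x)) ^ (-P.q) ≤ P.w J (Sk i x) ^ (-P.q) := by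
        apply Real.rpow_le_rpow_of_nonpos (P.w_pos J _) _ (by linarith)
        exact le_mul_of_one_le_left (P.w_pos J _).le (P.one_le_Wk i)
      have := hG0 x
      linarith
    · intro x _ _ hw
      rw [hw]
      by_cases hx : ‖x‖ ≤ (1 / 8 : ℝ) ^ (2 * P.K + 1)
      · have hxG : x ∈ G := by rw [hG, mem_closedBall, dist_zero_right]; exact hx
        rw [P.b_G hx, Set.indicator_of_mem hxG]
        linarith
      · have hxG : x ∉ G := by rw [hG, mem_closedBall, dist_zero_right]; exact hx
        rw [P.b_not_G (not_le.mp hx), Set.indicator_of_notMem hxG, add_zero]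
        exact Real.rpow_le_rpow_of_nonpos hε (P.ε_le_κ x) (by linarith)

/-- `log⁺ (a / w)` -/
noncomputable def lneg (a : ℝ) (J : ℕ) (x : E n) : ℝ := max (Real.log a - Real.log (P.w J x)) 0

/-- `log⁺ (w / ε)` -/
noncomputable def lpos (J : ℕ) (x : E n) : ℝ := max (Real.log (P.w J x) - Real.log P.ε) 0

theorem nice_logw [NeZero n] (J : ℕ) : Nice (fun x => Real.log (P.w J x)) :=
  (P.nice_w J).log P.wG_pos (P.wG_le_w J)

theorem nice_lneg [NeZero n] (a : ℝ) (J : ℕ) : Nice (P.lneg a J) := by
  have h := ((Nice.const (Real.log a)).add ((Nice.const (-1)).mul (P.nice_logw J))).max0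
  have e : P.lneg a J = fun x => max (Real.log a + -1 * Real.log (P.w J x)) 0 := by
    funext x
    unfold lneg
    congr 1
    ring
  rw [e]
  exact h

theorem nice_lpos [NeZero n] (J : ℕ) : Nice (P.lpos J) := by
  have h := ((P.nice_logw J).add (Nice.const (-Real.log P.ε))).max0
  exact h

theorem log_Wk_nonneg [NeZero n] (i : ℕ) : 0 ≤ Real.log (P.W * R n ^ i) :=
  Real.log_nonneg (P.one_le_Wk i)

theorem log_wstep [NeZero n] (J i : ℕ) (z : E n) :
    Real.log (P.W * R n ^ i * P.w J z) = Real.log (P.W * R n ^ i) + Real.log (P.w J z) := by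
  have h1 : 0 < P.W * R n ^ i := lt_of_lt_of_le one_pos (P.one_le_Wk i)
  rw [Real.log_mul h1.ne' (P.w_pos J z).ne']

/-- the density of log-loss produced by the sets `G` -/
noncomputable def ell : ℝ := P.g * (Real.log P.ε - Real.log P.wG)

theorem log_wG_le : 0 ≤ Real.log P.ε - Real.log P.wG := by
  have := Real.log_le_log P.wG_pos P.wG_le
  linarith

theorem ell_nonneg : 0 ≤ P.ell := mul_nonneg P.g_pos.le P.log_wG_le

/-- `∫_B log⁺(ε/w) ≤ 2 ell |B|` -/
theorem int_lneg [NeZero n] (J : ℕ) :
    ∫ x in closedBall (0 : E n) 1, P.lneg P.ε J x ≤ 2 * P.ell * 2 ^ n := by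
  have hell := P.ell_nonneg
  have h2n : (0 : ℝ) < 2 ^ n := by positivity
  induction J with
  | zero =>
    have : ∀ x : E n, P.lneg P.ε 0 x = 0 := by
      intro x
      unfold lneg w
      simp
    simp only [this, integral_zero]
    positivity
  | succ J ih =>
    set G : Set (E n) := closedBall (0 : E n) ((1 / 8 : ℝ) ^ (2 * P.K + 1)) with hG
    set L := Real.log P.ε - Real.log P.wG with hL
    have hL0 : 0 ≤ L := P.log_wG_le
    have hGn : Nice (G.indicator (fun _ => L)) :=
      (Nice.const _).indicator measurableSet_closedBall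
    have hG0 : ∀ x, 0 ≤ G.indicator (fun _ => L) x := fun x =>
      Set.indicator_nonneg (fun _ _ => hL0) x
    have h := P.rec_est J (A := closedBall (0 : E n) 1) measurableSet_closedBall
      (vol_ball_ne_top _ _) (k := 0) (Or.inl rfl)
      (g := P.lneg P.ε (J + 1))
      (β := G.indicator (fun _ => L))
      (f := P.lneg P.ε J) (P.nice_lneg _ _) hGn (P.nice_lneg _ _) hG0
      (fun z => le_max_right _ _) ?_ ?_
    · refine h.trans ?_
      rw [setIntegral_indicator measurableSet_closedBall,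
          Set.inter_eq_self_of_subset_right (closedBall_subset_closedBall (e8_le_one _)),
          setInt_const, vol_D, pow_zero, inv_one, one_mul]
      have h3 : P.S * ∫ z in closedBall (0 : E n) 1, P.lneg P.ε J z ≤
          1 / 7 * (2 * P.ell * 2 ^ n) := by
        apply mul_le_mul P.S_le' ih _ (by norm_num)
        exact setIntegral_nonneg measurableSet_closedBall fun z _ => le_max_right _ _
      have h4 : 2 ^ n * (R n ^ (2 * P.K + 1))⁻¹ * L = P.ell * 2 ^ n := by
        unfold ell g
        rw [hL]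
        ring
      rw [h4]
      nlinarith [mul_nonneg hell h2n.le]
    · intro i _ _ x _ _ hw
      unfold lneg
      rw [hw, P.log_wstep]
      have h1 := P.log_Wk_nonneg i
      have h2 := hG0 x
      have h3 : max (Real.log P.ε - (Real.log (P.W * R n ^ i) + Real.log (P.w J (Sk i x)))) 0 ≤
          max (Real.log P.ε - Real.log (P.w J (Sk i x))) 0 := max_le_max (by linarith) le_rfl
      linarith
    · intro x _ _ hw
      unfold lneg
      rw [hw]
      by_cases hx : ‖x‖ ≤ (1 / 8 : ℝ) ^ (2 * P.K + 1)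
      · have hxG : x ∈ G := by rw [hG, mem_closedBall, dist_zero_right]; exact hx
        rw [P.b_G hx, Set.indicator_of_mem hxG]
        exact max_le le_rfl hL0
      · have hxG : x ∉ G := by rw [hG, mem_closedBall, dist_zero_right]; exact hx
        rw [P.b_not_G (not_le.mp hx), Set.indicator_of_notMem hxG]
        apply max_le _ le_rfl
        have := Real.log_le_log P.hε (P.ε_le_κ x)
        linarith

/-- `∫_{D_k} log⁺(ε R^k/w)` -/
theorem int_lneg_D [NeZero n] (J : ℕ) {k : ℕ} (hk : k ≤ P.K) :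
    ∫ x in closedBall (0 : E n) ((1 / 8 : ℝ) ^ k), P.lneg (P.ε * R n ^ k) (J + 1) x ≤
      (P.g * (k * Real.log (R n)) + P.ell + (R n ^ k)⁻¹ * P.ell) * 2 ^ n := by
  have hell := P.ell_nonneg
  have h2n : (0 : ℝ) < 2 ^ n := by positivity
  have hR := R_pos (n := n)
  have hlogR : 0 ≤ Real.log (R n) := Real.log_nonneg R_ge_one
  have hlogv : Real.log (P.ε * R n ^ k) = Real.log P.ε + k * Real.log (R n) := by
    rw [Real.log_mul P.hε.ne' (by positivity), Real.log_pow]
  set G : Set (E n) := closedBall (0 : E n) ((1 / 8 : ℝ) ^ (2 * P.K + 1)) with hG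
  set L := Real.log (P.ε * R n ^ k) - Real.log P.wG with hL
  have hL0 : 0 ≤ L := by
    rw [hL, hlogv]
    have := P.log_wG_le
    have : 0 ≤ k * Real.log (R n) := by positivity
    linarith
  have hGn : Nice (G.indicator (fun _ => L)) :=
    (Nice.const _).indicator measurableSet_closedBall
  have hG0 : ∀ x, 0 ≤ G.indicator (fun _ => L) x := fun x =>
    Set.indicator_nonneg (fun _ _ => hL0) x
  have h := P.rec_est J (A := closedBall (0 : E n) ((1 / 8 : ℝ) ^ k)) measurableSet_closedBall
    (vol_ball_ne_top _ _) (k := k) (Or.inr subset_rfl)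
    (g := P.lneg (P.ε * R n ^ k) (J + 1))
    (β := G.indicator (fun _ => L))
    (f := P.lneg P.ε J) (P.nice_lneg _ _) hGn (P.nice_lneg _ _) hG0
    (fun z => le_max_right _ _) ?_ ?_
  · refine h.trans ?_
    rw [setIntegral_indicator measurableSet_closedBall,
        Set.inter_eq_self_of_subset_right (closedBall_subset_closedBall (e8_le (by omega))),
        setInt_const, vol_D]
    have hRk : 0 < (R n ^ k)⁻¹ := by positivity
    have h3 : (R n ^ k)⁻¹ * P.S * ∫ z in closedBall (0 : E n) 1, P.lneg P.ε J z ≤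
        (R n ^ k)⁻¹ * (1 / 2) * (2 * P.ell * 2 ^ n) := by
      apply mul_le_mul _ (P.int_lneg J) _ (by positivity)
      · apply mul_le_mul_of_nonneg_left _ hRk.le
        have := P.S_le'
        linarith
      · exact setIntegral_nonneg measurableSet_closedBall fun z _ => le_max_right _ _
    have h4 : 2 ^ n * (R n ^ (2 * P.K + 1))⁻¹ * L =
        (P.g * (k * Real.log (R n)) + P.ell) * 2 ^ n := by
      unfold ell g
      rw [hL, hlogv]
      ring
    rw [h4]
    calc _ ≤ (P.g * (k * Real.log (R n)) + P.ell) * 2 ^ n +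
          (R n ^ k)⁻¹ * (1 / 2) * (2 * P.ell * 2 ^ n) := by linarith
      _ = _ := by ring
  · intro i hki _ x _ _ hw
    unfold lneg
    rw [hw, P.log_wstep, hlogv]
    have h1 : k * Real.log (R n) ≤ Real.log (P.W * R n ^ i) := by
      rw [Real.log_mul P.W_pos.ne' (by positivity), Real.log_pow]
      have h5 : 0 ≤ Real.log P.W := Real.log_nonneg P.one_le_W
      have h6 : (k : ℝ) ≤ i := by exact_mod_cast hki
      nlinarith
    have h2 := hG0 x
    have h3 : max (Real.log P.ε + k * Real.log (R n) -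
        (Real.log (P.W * R n ^ i) + Real.log (P.w J (Sk i x)))) 0 ≤
        max (Real.log P.ε - Real.log (P.w J (Sk i x))) 0 := max_le_max (by linarith) le_rfl
    linarith
  · intro x hx _ hw
    unfold lneg
    rw [hw]
    rw [mem_closedBall, dist_zero_right] at hx
    by_cases hxx : ‖x‖ ≤ (1 / 8 : ℝ) ^ (2 * P.K + 1)
    · have hxG : x ∈ G := by rw [hG, mem_closedBall, dist_zero_right]; exact hxx
      rw [P.b_G hxx, Set.indicator_of_mem hxG]
      exact max_le le_rfl hL0
    · have hxG : x ∉ G := by rw [hG, mem_closedBall, dist_zero_right]; exact hxx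
      rw [P.b_not_G (not_le.mp hxx), Set.indicator_of_notMem hxG]
      apply max_le _ le_rfl
      have h1 : P.ε * R n ^ k ≤ P.ε * R n ^ P.κ x :=
        mul_le_mul_of_nonneg_left (pow_le_pow_right₀ R_ge_one (P.le_κ hk hx)) P.hε.le
      have := Real.log_le_log (by have := P.hε; positivity) h1
      linarith

/-- `∫_B log⁺(w/ε) ≤ 2 (K+1) log R |B|` -/
theorem int_lpos [NeZero n] (J : ℕ) :
    ∫ x in closedBall (0 : E n) 1, P.lpos J x ≤
      2 * (((P.K : ℝ) + 1) * Real.log (R n)) * 2 ^ n := by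
  have h2n : (0 : ℝ) < 2 ^ n := by positivity
  have hR := R_pos (n := n)
  have hlogR : 0 ≤ Real.log (R n) := Real.log_nonneg R_ge_one
  set Λ := ((P.K : ℝ) + 1) * Real.log (R n) with hΛ
  have hΛ0 : 0 ≤ Λ := by positivity
  induction J with
  | zero =>
    have : ∀ x : E n, P.lpos 0 x = 0 := by
      intro x
      unfold lpos w
      simp
    simp only [this, integral_zero]
    positivity
  | succ J ih =>
    have h := P.rec_est J (A := closedBall (0 : E n) 1) measurableSet_closedBall
      (vol_ball_ne_top _ _) (k := 0) (Or.inl rfl)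
      (g := P.lpos (J + 1))
      (β := fun _ => Λ)
      (f := P.lpos J) (P.nice_lpos _) (Nice.const _) (P.nice_lpos _) (fun _ => hΛ0)
      (fun z => le_max_right _ _) ?_ ?_
    · refine h.trans ?_
      rw [setInt_const, vol_B, pow_zero, inv_one, one_mul]
      have h3 : P.S * ∫ z in closedBall (0 : E n) 1, P.lpos J z ≤
          1 / 7 * (2 * Λ * 2 ^ n) := by
        apply mul_le_mul P.S_le' ih _ (by norm_num)
        exact setIntegral_nonneg measurableSet_closedBall fun z _ => le_max_right _ _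
      nlinarith [mul_nonneg hΛ0 h2n.le]
    · intro i _ hi x _ _ hw
      unfold lpos
      rw [hw, P.log_wstep]
      have h1 : Real.log (P.W * R n ^ i) ≤ Λ := by
        have h4 : P.W * R n ^ i ≤ R n ^ (P.K + 1) := by
          calc P.W * R n ^ i ≤ R n * R n ^ P.K :=
                mul_le_mul P.W_le (pow_le_pow_right₀ R_ge_one hi) (by positivity) hR.le
            _ = _ := by rw [pow_succ]; ring
        have := Real.log_le_log (lt_of_lt_of_le one_pos (P.one_le_Wk i)) h4
        rw [Real.log_pow] at this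
        rw [hΛ]
        push_cast at this
        exact this
      apply max_le
      · have := le_max_left (Real.log (P.w J (Sk i x)) - Real.log P.ε) 0
        linarith
      · have := le_max_right (Real.log (P.w J (Sk i x)) - Real.log P.ε) 0
        linarith
    · intro x _ _ hw
      unfold lpos
      rw [hw]
      apply max_le _ hΛ0
      have h1 := Real.log_le_log (P.wG_pos.trans_le (P.wG_le_b x)) (P.b_le x)
      rw [Real.log_mul P.hε.ne' (by positivity), Real.log_pow] at h1
      rw [hΛ]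
      nlinarith

end Par

end Pool.Agent.Helper51
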