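import Pool.Agent.Helper51.CZOp
import Pool.Agent.Helper51.MixedDefs

open MeasureTheory Metric Set
open scoped ENNReal NNReal

namespace Pool.Agent.Helper51

variable {n : ℕ}

open Mixed

/-! ### Kolmogorov's inequality -/

theorem kolmo {μ : Measure (E n)} {F : E n → ℝ} (hF : AEMeasurable F μ) {M Y p A : ℝ}
    (hp : 1 < p) (hA : 0 < A) (hM : 0 ≤ M) (hY : 0 ≤ Y) (h1 : μ univ ≤ ENNReal.ofReal M)
    (h2 : ∀ t : ℝ, 0 < t → μ {x | t < |F x|} ≤ ENNReal.ofReal (Y * t ^ (-p))) :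
    ∫⁻ x, ENNReal.ofReal |F x| ∂μ ≤ ENNReal.ofReal (A * M + Y * (A ^ (1 - p) / (p - 1))) := by
  have hFa : AEMeasurable (fun x => |F x|) μ := hF.abs
  rw [lintegral_eq_lintegral_meas_lt μ (Filter.Eventually.of_forall fun x => abs_nonneg _) hFa]
  have hsplit : Ioi (0 : ℝ) = Ioc 0 A ∪ Ioi A := (Ioc_union_Ioi_eq_Ioi hA.le).symm
  rw [hsplit, lintegral_union measurableSet_Ioi (Ioc_disjoint_Ioi le_rfl)]
  have hp1 : 0 < p - 1 := by linarith
  have e1 : ENNReal.ofReal (A * M + Y * (A ^ (1 - p) / (p - 1))) =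
      ENNReal.ofReal (A * M) + ENNReal.ofReal (Y * (A ^ (1 - p) / (p - 1))) :=
    ENNReal.ofReal_add (by positivity) (mul_nonneg hY (div_nonneg (Real.rpow_nonneg hA.le _) hp1.le))
  rw [e1]
  apply add_le_add
  · calc ∫⁻ t in Ioc 0 A, μ {a | t < |F a|} ≤ ∫⁻ _t in Ioc (0 : ℝ) A, ENNReal.ofReal M := by
          apply lintegral_mono
          intro t
          exact (measure_mono (subset_univ _)).trans h1
      _ = _ := by
          rw [setLIntegral_const, Real.volume_Ioc, sub_zero, ← ENNReal.ofReal_mul hM, mul_comm]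
  · calc ∫⁻ t in Ioi A, μ {a | t < |F a|} ≤
          ∫⁻ t in Ioi A, ENNReal.ofReal (Y * t ^ (-p)) := by
          apply setLIntegral_mono' measurableSet_Ioi
          intro t ht
          exact h2 t (hA.trans ht)
      _ = ENNReal.ofReal (∫ t in Ioi A, Y * t ^ (-p)) := by
          rw [ofReal_integral_eq_lintegral_ofReal]
          · exact (integrableOn_Ioi_rpow_of_lt (by linarith) hA).const_mul Y
          · filter_upwards [ae_restrict_mem measurableSet_Ioi] with t ht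
            exact mul_nonneg hY (Real.rpow_nonneg (hA.trans ht).le _)
      _ = _ := by
          rw [integral_const_mul, integral_Ioi_rpow_of_lt (by linarith) hA]
          congr 2
          rw [show -p + 1 = 1 - p by ring, show (1 : ℝ) - p = -(p - 1) by ring, neg_div_neg_eq]

/-! ### From operators on functions to operators on `L²` -/

section bridge

variable {T : Fn n → Fn n}

theorem bdd_congr (hT : IsBdd T) {f g : E n → ℝ} (hf : MemLp f 2 volume) (hg : MemLp g 2 volume)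
    (h : f =ᵐ[volume] g) : T f =ᵐ[volume] T g := by
  have hh : MemLp (fun x => f x - g x) 2 volume := hf.sub hg
  have e : f = fun x => g x + (f x - g x) := by funext x; ring
  have h1 := hT.add g (fun x => f x - g x) hg hh
  rw [← e] at h1
  obtain ⟨C, hC⟩ := hT.bound
  have h2 : MemLp (T fun x => f x - g x) 2 volume ∧
      eLpNorm (T fun x => f x - g x) 2 volume ≤ C * eLpNorm (fun x => f x - g x) 2 volume :=
    hC _ hh
  have h0 : (fun x => f x - g x) =ᵐ[volume] 0 := by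
    filter_upwards [h] with x hx
    simp [hx]
  rw [eLpNorm_congr_ae h0, eLpNorm_zero, mul_zero] at h2
  have h3 : eLpNorm (T fun x => f x - g x) 2 volume = 0 := le_antisymm h2.2 zero_le
  rw [eLpNorm_eq_zero_iff h2.1.1 (by norm_num)] at h3
  filter_upwards [h1, h3] with x hx1 hx3
  rw [hx1, hx3]
  simp

theorem toL_coe (φ : L2 n) : toL (φ : E n → ℝ) = φ := by
  rw [toL_eq (Lp.memLp φ), Lp.toLp_coeFn]

theorem toL_congr {f g : E n → ℝ} (h : f =ᵐ[volume] g) : toL f = toL g := by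
  by_cases hf : MemLp f 2 volume
  · have hg : MemLp g 2 volume := (memLp_congr_ae h).mp hf
    rw [toL_eq hf, toL_eq hg]
    exact MemLp.toLp_congr hf hg h
  · have hg : ¬ MemLp g 2 volume := fun hg => hf ((memLp_congr_ae h).mpr hg)
    unfold toL
    rw [dif_neg hf, dif_neg hg]

theorem norm_toL {f : E n → ℝ} (hf : MemLp f 2 volume) :
    ‖toL f‖ = (eLpNorm f 2 volume).toReal := by
  rw [toL_eq hf, Lp.norm_toLp]

/-- the operator on `L²` given by an operator on functions -/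
theorem exists_clm (hT : IsBdd T) :
    ∃ T' : L2 n →L[ℝ] L2 n, ∀ f, MemLp f 2 volume → (T' (toL f) : E n → ℝ) =ᵐ[volume] T f := by
  obtain ⟨C, hC⟩ := hT.bound
  let L : L2 n →ₗ[ℝ] L2 n :=
    { toFun := fun φ => toL (T φ)
      map_add' := by
        intro φ ψ
        have hφ := Lp.memLp φ
        have hψ := Lp.memLp ψ
        have h1 : T (φ + ψ : L2 n) =ᵐ[volume] T (fun x => φ x + ψ x) :=
          bdd_congr hT (Lp.memLp _) (hφ.add hψ) (Lp.coeFn_add φ ψ)
        rw [toL_congr (h1.trans (hT.add _ _ hφ hψ)), toL_add (hC _ hφ).1 (hC _ hψ).1]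
      map_smul' := by
        intro c φ
        have hφ := Lp.memLp φ
        have h1 : T (c • φ : L2 n) =ᵐ[volume] T (fun x => c * φ x) :=
          bdd_congr hT (Lp.memLp _) (hφ.const_mul c) (Lp.coeFn_smul c φ)
        rw [toL_congr (h1.trans (hT.smul c _ hφ)), toL_smul (hC _ hφ).1]
        rfl }
  refine ⟨L.mkContinuous C ?_, ?_⟩
  · intro φ
    have hφ := Lp.memLp φ
    show ‖toL (T φ)‖ ≤ C * ‖φ‖
    rw [norm_toL (hC _ hφ).1]
    have h2 : ‖φ‖ = (eLpNorm φ 2 volume).toReal := rfl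
    rw [h2]
    calc (eLpNorm (T φ) 2 volume).toReal ≤ (C * eLpNorm φ 2 volume).toReal :=
          ENNReal.toReal_mono (ENNReal.mul_ne_top ENNReal.coe_ne_top hφ.2.ne) (hC _ hφ).2
      _ = _ := by rw [ENNReal.toReal_mul, ENNReal.coe_toReal]
  · intro f hf
    show (toL (T (toL f)) : E n → ℝ) =ᵐ[volume] T f
    have h1 : T (toL f) =ᵐ[volume] T f := bdd_congr hT (Lp.memLp _) hf (coe_toL hf)
    rw [toL_congr h1]
    exact coe_toL (hC f hf).1

/-- kernel data for the operator on `L²` -/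
theorem kerData_of {K : E n → E n → ℝ} {C : ℝ} (hK : HasKernel T K)
    (hm : Measurable (fun z : E n × E n => K z.1 z.2)) (hC : 0 ≤ C)
    (hs : ∀ x y, x ≠ y → |K x y| ≤ C / ‖x - y‖ ^ n) {T' : L2 n →L[ℝ] L2 n}
    (hT' : ∀ f, MemLp f 2 volume → (T' (toL f) : E n → ℝ) =ᵐ[volume] T f) :
    KerData T' K C := by
  refine ⟨hC, hm, hs, ?_⟩
  intro S hS φ hφ
  have hSm : MeasurableSet S := hS.measurableSet
  set f : E n → ℝ := S.indicator φ with hf
  have hfL : MemLp f 2 volume := (Lp.memLp φ).indicator hSm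
  have hfe : f =ᵐ[volume] φ := by
    filter_upwards [hφ] with y hy
    by_cases hyS : y ∈ S
    · rw [hf, Set.indicator_of_mem hyS]
    · rw [hf, Set.indicator_of_notMem hyS, hy hyS]
  have h1 := hK S hS f hfL fun y hy => by rw [hf, Set.indicator_of_notMem hy]
  have h2 := hT' f hfL
  rw [toL_congr hfe, toL_coe] at h2
  filter_upwards [h1, h2] with x hx1 hx2 hxS
  rw [hx2, hx1 hxS]
  apply integral_congr_ae
  filter_upwards [hfe] with y hy
  rw [hy]

end bridge

/-! ### The weak type property -/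

/-- bounded measurable functions with bounded support -/
def Mixed.IsTest (f : Fn n) : Prop :=
  Measurable f ∧ (∃ C, ∀ x, |f x| ≤ C) ∧ ∃ r, ∀ x, r < ‖x‖ → f x = 0

theorem test_memLp {f : E n → ℝ} (hf : IsTest f) : MemLp f 2 volume := by
  obtain ⟨hm, ⟨C, hC⟩, r, hr⟩ := hf
  apply memLp_of_nice ⟨hm, C, hC⟩ (c := 0) (ρ := r)
  intro x hx
  apply hr
  rwa [mem_closedBall, dist_zero_right, not_le] at hx

/-- weak type inequality with constant `N` -/
def WP (T : Fn n → Fn n) (p : ℝ) (w : Fn n) (N : ℝ≥0∞) : Prop :=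
  ∀ f, IsTest f → ∀ t : ℝ≥0,
    t * wm w {x | (t : ℝ) < |T f x|} ^ (1 / p) ≤ N * normLp p w f

theorem WP_of_weak {T : Fn n → Fn n} {p : ℝ} {w : Fn n} {N : ℝ≥0∞} (h : weakNorm T p w < N) :
    WP T p w N := by
  obtain ⟨N', hN', hlt⟩ := sInf_lt_iff.mp h
  intro f hf t
  exact (hN' f (test_memLp hf) t).trans (mul_le_mul_left hlt.le _)

theorem ac_wm (w : Fn n) : wm w ≪ (volume : Measure (E n)) := withDensity_absolutelyContinuous _ _

theorem WP_of_strong {T : Fn n → Fn n} (hT : IsBdd T) {p : ℝ} (hp : 1 < p) {w : Fn n} {N : ℝ≥0∞}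
    (h : strongNorm T p w < N) : WP T p w N := by
  obtain ⟨N', hN', hlt⟩ := sInf_lt_iff.mp h
  intro f hf t
  refine le_trans ?_ ((hN' f (test_memLp hf)).trans (mul_le_mul_left hlt.le _))
  unfold normLp
  obtain ⟨C, hC⟩ := hT.bound
  have hm : AEStronglyMeasurable (T f) (wm w) := ((hC f (test_memLp hf)).1.1).mono_ac (ac_wm w)
  have hp0 : ENNReal.ofReal p ≠ 0 := by
    rw [Ne, ENNReal.ofReal_eq_zero, not_le]; linarith
  have h1 := mul_meas_ge_le_pow_eLpNorm' (wm w) hp0 ENNReal.ofReal_ne_top hm (t : ℝ≥0∞)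
  have hpr : (ENNReal.ofReal p).toReal = p := ENNReal.toReal_ofReal (by linarith)
  rw [hpr] at h1
  have h2 : wm w {x | (t : ℝ) < |T f x|} ≤ wm w {x | (t : ℝ≥0∞) ≤ ‖T f x‖ₑ} := by
    apply measure_mono
    intro x hx
    rw [Set.mem_ofPred_eq] at hx ⊢
    rw [enorm_eq_nnnorm, ENNReal.coe_le_coe]
    apply NNReal.coe_le_coe.mp
    rw [coe_nnnorm, Real.norm_eq_abs]
    exact hx.le
  have hp1 : (0 : ℝ) ≤ 1 / p := by positivity
  calc (t : ℝ≥0∞) * wm w {x | (t : ℝ) < |T f x|} ^ (1 / p)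
      ≤ (t : ℝ≥0∞) * wm w {x | (t : ℝ≥0∞) ≤ ‖T f x‖ₑ} ^ (1 / p) := by
        gcongr
    _ = ((t : ℝ≥0∞) ^ p * wm w {x | (t : ℝ≥0∞) ≤ ‖T f x‖ₑ}) ^ (1 / p) := by
        rw [ENNReal.mul_rpow_of_nonneg _ _ hp1, ← ENNReal.rpow_mul, mul_one_div_cancel (by linarith),
          ENNReal.rpow_one]
    _ ≤ (eLpNorm (T f) (ENNReal.ofReal p) (wm w) ^ p) ^ (1 / p) := by gcongr
    _ = _ := by
        rw [← ENNReal.rpow_mul, mul_one_div_cancel (by linarith), ENNReal.rpow_one]

/-- distributional form with real numbers -/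
theorem WP_dist {T : Fn n → Fn n} {p : ℝ} (hp : 1 < p) {w : Fn n} {N : ℝ} (hN : 0 ≤ N)
    (h : WP T p w (ENNReal.ofReal N)) {f : E n → ℝ} (hf : IsTest f) {x : ℝ}
    (hx : 0 ≤ x) (hfx : eLpNorm f (ENNReal.ofReal p) (wm w) ≤ ENNReal.ofReal (x ^ (1 / p)))
    {t : ℝ} (ht : 0 < t) :
    wm w {y | t < |T f y|} ≤ ENNReal.ofReal (N ^ p * x * t ^ (-p)) := by
  have h1 := h f hf t.toNNReal
  rw [Real.coe_toNNReal t ht.le] at h1
  change ENNReal.ofReal t * wm w {y | t < |T f y|} ^ (1 / p) ≤ _ at h1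
  set m := wm w {y | t < |T f y|} with hm
  have h2 : ENNReal.ofReal t * m ^ (1 / p) ≤ ENNReal.ofReal (N * x ^ (1 / p)) := by
    rw [ENNReal.ofReal_mul hN]
    exact h1.trans (mul_le_mul_right hfx _)
  have hp0 : 0 < p := by linarith
  have h3 : (ENNReal.ofReal t * m ^ (1 / p)) ^ p ≤ (ENNReal.ofReal (N * x ^ (1 / p))) ^ p := by
    gcongr
  rw [ENNReal.mul_rpow_of_nonneg _ _ hp0.le, ← ENNReal.rpow_mul, one_div_mul_cancel hp0.ne',
    ENNReal.rpow_one, ENNReal.ofReal_rpow_of_pos ht,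
    ENNReal.ofReal_rpow_of_nonneg (mul_nonneg hN (Real.rpow_nonneg hx _)) hp0.le,
    Real.mul_rpow hN (Real.rpow_nonneg hx _), ← Real.rpow_mul hx, one_div_mul_cancel hp0.ne',
    Real.rpow_one] at h3
  have htp : 0 < t ^ p := Real.rpow_pos_of_pos ht _
  have h4 : m ≤ ENNReal.ofReal (N ^ p * x) / ENNReal.ofReal (t ^ p) := by
    rw [ENNReal.le_div_iff_mul_le (Or.inl (ENNReal.ofReal_pos.mpr htp).ne')
      (Or.inl ENNReal.ofReal_ne_top), mul_comm]
    exact h3
  rw [← ENNReal.ofReal_div_of_pos htp] at h4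
  rw [Real.rpow_neg ht.le, ← div_eq_mul_inv]
  exact h4

end Pool.Agent.Helper51
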