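import Pool.Agent.Helper51.CZCase

open MeasureTheory Metric Set

namespace Pool.Agent.Helper51

variable {n : ℕ}

namespace Par

variable (P : Par n)

theorem int_split_F {x0 : E n} {r c : ℝ} (hr : 0 < r) {k : ℕ} {g f : E n → ℝ}
    (hg : Nice g) (hf : Nice f) (hf0 : ∀ z, 0 ≤ f z) (_hc : 0 ≤ c)
    (h1 : ∀ x ∈ closedBall x0 r, x ∈ Fk n k → g x ≤ c + f (Sk k x))
    (h2 : ∀ x ∈ closedBall x0 r, x ∉ Fk n k → g x ≤ c) :
    ∫ x in closedBall x0 r, g x ≤
      c * (2 * r) ^ n + (R n ^ (2 * k + 1))⁻¹ * ∫ z in closedBall (0 : E n) 1, f z := by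
  have h := major (A := closedBall x0 r) measurableSet_closedBall (vol_ball_ne_top _ _)
    (s := {k}) (g := g) (β := fun _ => c) (f := fun _ z => f z) hg (Nice.const c)
    (fun _ _ => hf) (fun _ _ z _ => hf0 z) ?_
  · rw [Finset.sum_singleton, setInt_const, vol_ball _ hr.le, rk_pow] at h
    linarith
  · intro x hx
    rw [Finset.sum_singleton]
    by_cases hxF : x ∈ Fk n k
    · rw [Set.indicator_of_mem hxF]
      exact h1 x hx hxF
    · rw [Set.indicator_of_notMem hxF, add_zero]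
      exact h2 x hx hxF

theorem medium [NeZero n] (J : ℕ) {k : ℕ} (hk : k ≤ P.K) {x0 : E n} {r : ℝ} (hr : 0 < r)
    (hrk : rk k ≤ 64 * r)
    (hF : ∀ x ∈ closedBall x0 r, x ∈ Fk n k → P.w (J + 1) x = P.W * R n ^ k * P.w J (Sk k x))
    (hN : ∀ x ∈ closedBall x0 r, x ∉ Fk n k → P.w (J + 1) x = P.ε * R n ^ k) :
    Phi P.q (P.w (J + 1)) (closedBall x0 r) ≤ C1 n P.p * P.ε ^ (-(P.q + 1)) ∧
    Psi P.p P.q (P.w (J + 1)) (closedBall x0 r) ≤ C2 n P.p P.K * P.ε⁻¹ := by
  have hR := R_pos (n := n)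
  have hR1 := R_ge_one (n := n)
  have hε := P.hε
  have hε4 := P.ε_le
  have hp := P.hp
  have hq := P.q_pos
  have hV : (0 : ℝ) < (2 * r) ^ n := by positivity
  have h2n : (0 : ℝ) < 2 ^ n := by positivity
  have hRk : 0 < R n ^ k := by positivity
  have hRk1 : 1 ≤ R n ^ k := one_le_R_pow k
  have hW := P.W_pos
  have hW1 := P.one_le_W
  have hWR := P.W_le
  have hεq : 0 < P.ε ^ (-P.q) := Real.rpow_pos_of_pos hε _
  have hkq : 0 < (R n ^ k) ^ (-P.q) := Real.rpow_pos_of_pos hRk _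
  have hvol : (R n ^ (2 * k + 1))⁻¹ * 2 ^ n ≤ R n ^ 2 * (2 * r) ^ n := by
    have := vol_cmp (n := n) (rk_pos k).le hrk
    rw [rk_pow] at this
    linarith
  have hinv : 0 < (R n ^ (2 * k + 1))⁻¹ := by positivity
  have hwp := P.w_pos (J + 1)
  have hwJ := P.w_pos J
  have hR2 : 1 ≤ R n ^ 2 := one_le_R_pow 2
  have hWk : 0 < P.W * R n ^ k := by positivity
  -- X
  have hX : ∫ x in closedBall x0 r, P.w (J + 1) x ≤ (2 * R n ^ (k + 3)) * (2 * r) ^ n := by
    have h := int_split_F (n := n) (x0 := x0) (c := P.ε * R n ^ k) hr (k := k)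
      (g := P.w (J + 1)) (f := fun z => P.W * R n ^ k * P.w J z) (P.nice_w _)
      ((Nice.const _).mul (P.nice_w J)) (fun z => (mul_pos hWk (hwJ z)).le) (by positivity)
      (fun x hx hxF => by rw [hF x hx hxF]; linarith [mul_pos hε hRk])
      (fun x hx hxF => by rw [hN x hx hxF])
    refine h.trans ?_
    rw [integral_const_mul]
    have h1 := P.int_w_B J
    have h2 : (R n ^ (2 * k + 1))⁻¹ * (P.W * R n ^ k *
        ∫ z in closedBall (0 : E n) 1, P.w J z) ≤ R n ^ (k + 3) * (2 * r) ^ n := by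
      calc (R n ^ (2 * k + 1))⁻¹ * (P.W * R n ^ k * ∫ z in closedBall (0 : E n) 1, P.w J z)
          ≤ (R n ^ (2 * k + 1))⁻¹ * (P.W * R n ^ k * 2 ^ n) := by gcongr
        _ = (P.W * R n ^ k) * ((R n ^ (2 * k + 1))⁻¹ * 2 ^ n) := by ring
        _ ≤ (R n * R n ^ k) * (R n ^ 2 * (2 * r) ^ n) := by gcongr
        _ = _ := by rw [pow_add]; ring
    have h3 : P.ε * R n ^ k * (2 * r) ^ n ≤ R n ^ (k + 3) * (2 * r) ^ n := by
      apply mul_le_mul_of_nonneg_right _ hV.le
      calc P.ε * R n ^ k ≤ 1 * R n ^ (k + 3) := by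
            apply mul_le_mul (by linarith) (pow_le_pow_right₀ hR1 (by omega)) hRk.le (by norm_num)
        _ = _ := one_mul _
    linarith
  -- Y
  have hY : ∫ x in closedBall x0 r, P.w (J + 1) x ^ (-P.q) ≤
      (5 * R n ^ 2 * ((R n ^ k) ^ (-P.q) * P.ε ^ (-P.q))) * (2 * r) ^ n := by
    have h := int_split_F (n := n) (x0 := x0) (c := (R n ^ k) ^ (-P.q) * P.ε ^ (-P.q)) hr (k := k)
      (g := fun x => P.w (J + 1) x ^ (-P.q))
      (f := fun z => (R n ^ k) ^ (-P.q) * P.w J z ^ (-P.q)) (P.nice_rpow _)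
      ((Nice.const _).mul (P.nice_rpow J))
      (fun z => mul_nonneg hkq.le (Real.rpow_nonneg (hwJ z).le _)) (by positivity)
      (fun x hx hxF => by
        rw [hF x hx hxF]
        have e : (P.W * R n ^ k * P.w J (Sk k x)) ^ (-P.q) ≤
            (R n ^ k) ^ (-P.q) * P.w J (Sk k x) ^ (-P.q) := by
          rw [← Real.mul_rpow hRk.le (hwJ _).le]
          apply Real.rpow_le_rpow_of_nonpos (mul_pos hRk (hwJ _)) _ (by linarith)
          have : R n ^ k ≤ P.W * R n ^ k := le_mul_of_one_le_left hRk.le hW1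
          exact mul_le_mul_of_nonneg_right this (hwJ _).le
        have : 0 < (R n ^ k) ^ (-P.q) * P.ε ^ (-P.q) := mul_pos hkq hεq
        linarith)
      (fun x hx hxF => by
        rw [hN x hx hxF, Real.mul_rpow hε.le hRk.le, mul_comm])
    refine h.trans ?_
    rw [integral_const_mul]
    have h1 := P.int_sigma J
    have h2 : (R n ^ (2 * k + 1))⁻¹ * ((R n ^ k) ^ (-P.q) *
        ∫ z in closedBall (0 : E n) 1, P.w J z ^ (-P.q)) ≤
        4 * R n ^ 2 * ((R n ^ k) ^ (-P.q) * P.ε ^ (-P.q)) * (2 * r) ^ n := by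
      calc (R n ^ (2 * k + 1))⁻¹ * ((R n ^ k) ^ (-P.q) *
            ∫ z in closedBall (0 : E n) 1, P.w J z ^ (-P.q))
          ≤ (R n ^ (2 * k + 1))⁻¹ * ((R n ^ k) ^ (-P.q) * (4 * P.ε ^ (-P.q) * 2 ^ n)) := by
            gcongr
        _ = 4 * ((R n ^ k) ^ (-P.q) * P.ε ^ (-P.q)) * ((R n ^ (2 * k + 1))⁻¹ * 2 ^ n) := by ring
        _ ≤ 4 * ((R n ^ k) ^ (-P.q) * P.ε ^ (-P.q)) * (R n ^ 2 * (2 * r) ^ n) := by gcongr
        _ = _ := by ring
    have h3 : (R n ^ k) ^ (-P.q) * P.ε ^ (-P.q) * (2 * r) ^ n ≤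
        R n ^ 2 * ((R n ^ k) ^ (-P.q) * P.ε ^ (-P.q)) * (2 * r) ^ n := by
      apply mul_le_mul_of_nonneg_right _ hV.le
      exact le_mul_of_one_le_left (by positivity) hR2
    linarith
  -- Z
  have hZ : -(-Real.log (P.ε * R n ^ k) + (2 * P.p - 1) * R n ^ 2) * (2 * r) ^ n ≤
      ∫ x in closedBall x0 r, Real.log (P.w (J + 1) x) := by
    have h := int_split_F (n := n) (x0 := x0) (c := 0) hr (k := k)
      (g := P.lneg (P.ε * R n ^ k) (J + 1))
      (f := P.lneg P.ε J) (P.nice_lneg _ _) (P.nice_lneg _ _)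
      (fun z => le_max_right _ _) le_rfl
      (fun x hx hxF => by
        unfold lneg
        rw [hF x hx hxF, P.log_wstep, P.log_v, zero_add]
        apply max_le_max _ le_rfl
        have e : k * Real.log (R n) ≤ Real.log (P.W * R n ^ k) := by
          rw [Real.log_mul hW.ne' hRk.ne', Real.log_pow]
          have := Real.log_nonneg hW1
          linarith
        linarith)
      (fun x hx hxF => by
        unfold lneg
        rw [hN x hx hxF, sub_self, max_self])
    have h1 := P.int_lneg J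
    have h2 : (R n ^ (2 * k + 1))⁻¹ * ∫ z in closedBall (0 : E n) 1, P.lneg P.ε J z ≤
        (2 * P.p - 1) * R n ^ 2 * (2 * r) ^ n := by
      have hell : 2 * P.ell ≤ 2 * P.p - 1 := by
        have e1 := P.ell_le
        have e2 : (R n ^ P.K)⁻¹ ≤ 1 := inv_le_one_of_one_le₀ (one_le_R_pow _)
        have e3 : 0 < (R n ^ P.K)⁻¹ := by positivity
        nlinarith
      calc (R n ^ (2 * k + 1))⁻¹ * ∫ z in closedBall (0 : E n) 1, P.lneg P.ε J z
          ≤ (R n ^ (2 * k + 1))⁻¹ * (2 * P.ell * 2 ^ n) := by gcongr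
        _ = 2 * P.ell * ((R n ^ (2 * k + 1))⁻¹ * 2 ^ n) := by ring
        _ ≤ (2 * P.p - 1) * (R n ^ 2 * (2 * r) ^ n) := by
            apply mul_le_mul hell hvol (by positivity) (by linarith)
        _ = _ := by ring
    have h3 : ∫ x in closedBall x0 r, (Real.log (P.ε * R n ^ k) +
        -1 * P.lneg (P.ε * R n ^ k) (J + 1) x) ≤
        ∫ x in closedBall x0 r, Real.log (P.w (J + 1) x) := by
      apply setIntegral_mono_on
        (((Nice.const _).add ((Nice.const (-1)).mul (P.nice_lneg _ _))).integrableOn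
          (vol_ball_ne_top _ _))
        ((P.nice_logw _).integrableOn (vol_ball_ne_top _ _)) measurableSet_closedBall
      intro x _
      have := le_max_left (Real.log (P.ε * R n ^ k) - Real.log (P.w (J + 1) x)) 0
      unfold lneg
      linarith
    rw [integral_add ((Nice.const _).integrableOn (vol_ball_ne_top _ _))
      (((Nice.const (-1)).mul (P.nice_lneg _ _)).integrableOn (vol_ball_ne_top _ _)),
      setInt_const, integral_const_mul, vol_ball _ hr.le] at h3
    linarith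
  -- U
  have hLam := P.Lam_nonneg
  have hlogWk : Real.log (P.W * R n ^ k) ≤ P.Lam := by
    have h4 : P.W * R n ^ k ≤ R n ^ (P.K + 1) := by
      calc P.W * R n ^ k ≤ R n * R n ^ P.K :=
            mul_le_mul P.W_le (pow_le_pow_right₀ R_ge_one hk) (by positivity) hR.le
        _ = _ := by rw [pow_succ]; ring
    have := Real.log_le_log hWk h4
    rw [Real.log_pow] at this
    push_cast at this
    exact this
  have hU : ∫ x in closedBall x0 r, Real.log (P.w (J + 1) x) ≤
      (Real.log P.ε + 3 * P.Lam * R n ^ (P.K + 2)) * (2 * r) ^ n := by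
    have h := int_split_F (n := n) (x0 := x0) (c := P.Lam) hr (k := k)
      (g := P.lpos (J + 1)) (f := P.lpos J) (P.nice_lpos _) (P.nice_lpos _)
      (fun z => le_max_right _ _) hLam
      (fun x hx hxF => by
        unfold lpos
        rw [hF x hx hxF, P.log_wstep]
        apply max_le
        · have := le_max_left (Real.log (P.w J (Sk k x)) - Real.log P.ε) 0
          linarith
        · have := le_max_right (Real.log (P.w J (Sk k x)) - Real.log P.ε) 0
          linarith)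
      (fun x hx hxF => by
        unfold lpos
        rw [hN x hx hxF, P.log_v]
        apply max_le _ hLam
        have e : (k : ℝ) ≤ P.K + 1 := by
          have : (k : ℝ) ≤ P.K := by exact_mod_cast hk
          linarith
        have : (k : ℝ) * Real.log (R n) ≤ P.Lam :=
          mul_le_mul_of_nonneg_right e logR_nonneg
        linarith)
    have h1 := P.int_lpos J
    have h2 : (R n ^ (2 * k + 1))⁻¹ * ∫ z in closedBall (0 : E n) 1, P.lpos J z ≤
        2 * P.Lam * R n ^ 2 * (2 * r) ^ n := by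
      calc (R n ^ (2 * k + 1))⁻¹ * ∫ z in closedBall (0 : E n) 1, P.lpos J z
          ≤ (R n ^ (2 * k + 1))⁻¹ * (2 * P.Lam * 2 ^ n) := by
            unfold Lam
            gcongr
        _ = 2 * P.Lam * ((R n ^ (2 * k + 1))⁻¹ * 2 ^ n) := by ring
        _ ≤ 2 * P.Lam * (R n ^ 2 * (2 * r) ^ n) := by gcongr
        _ = _ := by ring
    have h3 : ∫ x in closedBall x0 r, Real.log (P.w (J + 1) x) ≤
        ∫ x in closedBall x0 r, (Real.log P.ε + P.lpos (J + 1) x) := by
      apply setIntegral_mono_on ((P.nice_logw _).integrableOn (vol_ball_ne_top _ _))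
        (((Nice.const _).add (P.nice_lpos _)).integrableOn
          (vol_ball_ne_top _ _)) measurableSet_closedBall
      intro x _
      have := le_max_left (Real.log (P.w (J + 1) x) - Real.log P.ε) 0
      unfold lpos
      linarith
    rw [integral_add ((Nice.const _).integrableOn (vol_ball_ne_top _ _))
      ((P.nice_lpos _).integrableOn (vol_ball_ne_top _ _)),
      setInt_const, vol_ball _ hr.le] at h3
    have h4 : P.Lam * (2 * r) ^ n ≤ P.Lam * R n ^ (P.K + 2) * (2 * r) ^ n := by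
      apply mul_le_mul_of_nonneg_right _ hV.le
      exact le_mul_of_one_le_right hLam (one_le_R_pow _)
    have h5 : 2 * P.Lam * R n ^ 2 * (2 * r) ^ n ≤ 2 * P.Lam * R n ^ (P.K + 2) * (2 * r) ^ n := by
      apply mul_le_mul_of_nonneg_right _ hV.le
      apply mul_le_mul_of_nonneg_left _ (by positivity)
      exact pow_le_pow_right₀ hR1 (by omega)
    linarith
  constructor
  · refine (Phi_le hq hwp hr hX hY hZ).trans ?_
    rw [Real.exp_add, Real.exp_neg, Real.exp_log (by positivity), P.eps_rpow]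
    have e0 : C1 n P.p = (3 * R n ^ 3) ^ (P.q + 1) * (5 * R n ^ 2) *
      Real.exp ((2 * P.p - 1) * R n ^ 2) := rfl
    have e1 : (2 * R n ^ (k + 3)) ^ (P.q + 1) =
        (2 * R n ^ 3) ^ (P.q + 1) * (R n ^ k * ((R n ^ k) ^ (-P.q))⁻¹) := by
      have : 2 * R n ^ (k + 3) = (2 * R n ^ 3) * R n ^ k := by rw [pow_add]; ring
      rw [this, Real.mul_rpow (by positivity) hRk.le, Real.rpow_add hRk, Real.rpow_one,
        Real.rpow_neg hRk.le, inv_inv]
      ring
    have e2 : (2 * R n ^ 3) ^ (P.q + 1) ≤ (3 * R n ^ 3) ^ (P.q + 1) := by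
      apply Real.rpow_le_rpow (by positivity) _ (by linarith)
      have : 0 < R n ^ 3 := by positivity
      linarith
    rw [e0, e1]
    calc (2 * R n ^ 3) ^ (P.q + 1) * (R n ^ k * ((R n ^ k) ^ (-P.q))⁻¹) *
          (5 * R n ^ 2 * ((R n ^ k) ^ (-P.q) * P.ε ^ (-P.q))) *
          ((P.ε * R n ^ k)⁻¹ * Real.exp ((2 * P.p - 1) * R n ^ 2))
        = (2 * R n ^ 3) ^ (P.q + 1) * ((5 * R n ^ 2) *
          Real.exp ((2 * P.p - 1) * R n ^ 2) * (P.ε ^ (-P.q) * P.ε⁻¹)) := by
          field_simp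
      _ ≤ (3 * R n ^ 3) ^ (P.q + 1) * ((5 * R n ^ 2) *
          Real.exp ((2 * P.p - 1) * R n ^ 2) * (P.ε ^ (-P.q) * P.ε⁻¹)) :=
          mul_le_mul_of_nonneg_right e2 (by positivity)
      _ = _ := by ring
  · refine (Psi_le P.p_pos hq hwp hr hX hY hU).trans ?_
    have e0 : C2 n P.p P.K = (5 * R n ^ (P.K + 2)) ^ P.p * (3 * R n ^ (P.K + 3)) *
      Real.exp (P.q * (3 * P.Lam * R n ^ (P.K + 2))) := rfl
    have e1 : Real.exp (P.q * (Real.log P.ε + 3 * P.Lam * R n ^ (P.K + 2))) =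
        P.ε ^ P.q * Real.exp (P.q * (3 * P.Lam * R n ^ (P.K + 2))) := by
      rw [mul_add, Real.exp_add]
      congr 1
      rw [Real.rpow_def_of_pos hε, mul_comm]
    have e2 : (5 * R n ^ 2 * ((R n ^ k) ^ (-P.q) * P.ε ^ (-P.q))) ^ P.p ≤
        (5 * R n ^ (P.K + 2)) ^ P.p * ((P.ε ^ P.q)⁻¹ * P.ε⁻¹) := by
      have e3 : (P.ε ^ (-P.q)) ^ P.p = (P.ε ^ P.q)⁻¹ * P.ε⁻¹ := by
        rw [← Real.rpow_mul hε.le]
        have : -P.q * P.p = -P.q + -1 := by have := P.pq; linarith
        rw [this, Real.rpow_add hε, Real.rpow_neg hε.le, Real.rpow_neg_one]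
      rw [← e3, ← Real.mul_rpow (by positivity) hεq.le]
      apply Real.rpow_le_rpow (by positivity) _ P.p_pos.le
      have e4 : (R n ^ k) ^ (-P.q) ≤ 1 :=
        Real.rpow_le_one_of_one_le_of_nonpos hRk1 (by linarith)
      have e5 : R n ^ 2 ≤ R n ^ (P.K + 2) := pow_le_pow_right₀ hR1 (by omega)
      calc 5 * R n ^ 2 * ((R n ^ k) ^ (-P.q) * P.ε ^ (-P.q))
          ≤ 5 * R n ^ (P.K + 2) * (1 * P.ε ^ (-P.q)) := by gcongr
        _ = _ := by ring
    have hεq' : 0 < P.ε ^ P.q := Real.rpow_pos_of_pos hε _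
    have e6 : 2 * R n ^ (k + 3) ≤ 3 * R n ^ (P.K + 3) := by
      have e7 : R n ^ (k + 3) ≤ R n ^ (P.K + 3) := pow_le_pow_right₀ hR1 (by omega)
      have e8 : 0 < R n ^ (P.K + 3) := by positivity
      linarith
    rw [e0, e1]
    calc (5 * R n ^ 2 * ((R n ^ k) ^ (-P.q) * P.ε ^ (-P.q))) ^ P.p * (2 * R n ^ (k + 3)) *
          (P.ε ^ P.q * Real.exp (P.q * (3 * P.Lam * R n ^ (P.K + 2))))
        ≤ ((5 * R n ^ (P.K + 2)) ^ P.p * ((P.ε ^ P.q)⁻¹ * P.ε⁻¹)) * (3 * R n ^ (P.K + 3)) *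
          (P.ε ^ P.q * Real.exp (P.q * (3 * P.Lam * R n ^ (P.K + 2)))) := by
          apply mul_le_mul_of_nonneg_right _ (by positivity)
          exact mul_le_mul e2 e6 (by positivity) (by positivity)
      _ = _ := by field_simp

end Par

end Pool.Agent.Helper51
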