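import Pool.Agent.Helper51.CZInt

open MeasureTheory Metric Set

namespace Pool.Agent.Helper51

variable {n : ℕ}

theorem G_not_mem_F [NeZero n] {K k : ℕ} (hk : k ≤ K) {x : E n}
    (hx : ‖x‖ ≤ (1 / 8 : ℝ) ^ (2 * K + 1)) : x ∉ Fk n k := by
  intro hxF
  have h1 := (norm_mem_Fk hxF).1
  have h2 : (1 / 8 : ℝ) ^ (2 * K + 1) ≤ (1 / 8) ^ k / 8 := e8_succ_le (by omega)
  have := e8_pos k
  linarith

namespace Par

variable (P : Par n)

/-- the innermost cube `G` -/
def G (P : Par n) : Set (E n) := closedBall (0 : E n) ((1 / 8 : ℝ) ^ (2 * P.K + 1))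

theorem mem_G {x : E n} : x ∈ P.G ↔ ‖x‖ ≤ (1 / 8 : ℝ) ^ (2 * P.K + 1) := by
  unfold G
  rw [mem_closedBall, dist_zero_right]

theorem measurableSet_G : MeasurableSet P.G := measurableSet_closedBall

/-- indicator of the union of the `G`'s over `J` generations -/
noncomputable def gam : ℕ → E n → ℝ
  | 0 => fun _ => 0
  | (J + 1) => glue P.K (P.G.indicator (fun _ => 1)) (fun _ z => gam J z)

theorem gam_succ (J : ℕ) :
    P.gam (J + 1) = glue P.K (P.G.indicator (fun _ => 1)) (fun _ z => P.gam J z) := rfl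

theorem nice_gam (J : ℕ) : Nice (P.gam J) := by
  induction J with
  | zero => exact Nice.const _
  | succ J ih =>
    rw [gam_succ]
    exact Nice.glue ((Nice.const _).indicator P.measurableSet_G) fun _ _ => ih

theorem gam_cases [NeZero n] (J : ℕ) (x : E n) :
    (∃ i, i ≤ P.K ∧ x ∈ Fk n i ∧ P.gam (J + 1) x = P.gam J (Sk i x)) ∨
    ((∀ i, i ≤ P.K → x ∉ Fk n i) ∧ P.gam (J + 1) x = P.G.indicator (fun _ => 1) x) := by
  by_cases h : ∃ i, i ≤ P.K ∧ x ∈ Fk n i
  · obtain ⟨i, hi, hxi⟩ := h
    left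
    refine ⟨i, hi, hxi, ?_⟩
    rw [gam_succ, glue_of_mem hi _ _ hxi]
  · right
    push Not at h
    refine ⟨h, ?_⟩
    rw [gam_succ, glue_of_not _ _ h]

theorem gam_01 [NeZero n] (J : ℕ) (x : E n) : P.gam J x = 0 ∨ P.gam J x = 1 := by
  induction J generalizing x with
  | zero => exact Or.inl rfl
  | succ J ih =>
    rcases P.gam_cases J x with ⟨i, _, _, h⟩ | ⟨_, h⟩
    · rw [h]; exact ih _
    · rw [h]
      by_cases hx : x ∈ P.G
      · right; rw [Set.indicator_of_mem hx]
      · left; rw [Set.indicator_of_notMem hx]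

theorem gam_nonneg [NeZero n] (J : ℕ) (x : E n) : 0 ≤ P.gam J x := by
  rcases P.gam_01 J x with h | h <;> rw [h]
  norm_num

theorem gam_le_one [NeZero n] (J : ℕ) (x : E n) : P.gam J x ≤ 1 := by
  rcases P.gam_01 J x with h | h <;> rw [h]
  norm_num

theorem vol_G : volume.real P.G = 2 ^ n * P.g := by
  unfold G g
  rw [vol_D]

theorem int_gam [NeZero n] (J : ℕ) :
    ∫ x in closedBall (0 : E n) 1, P.gam J x ≤ 2 * P.g * 2 ^ n := by
  have hg := P.g_pos
  have h2n : (0 : ℝ) < 2 ^ n := by positivity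
  induction J with
  | zero =>
    show ∫ _x in closedBall (0 : E n) 1, (0 : ℝ) ≤ _
    rw [integral_zero]
    positivity
  | succ J ih =>
    have hni : Nice (P.G.indicator (fun _ => (1 : ℝ))) :=
      (Nice.const _).indicator P.measurableSet_G
    have h := P.rec_est J (A := closedBall (0 : E n) 1) measurableSet_closedBall
      (vol_ball_ne_top _ _) (k := 0) (Or.inl rfl)
      (g := P.gam (J + 1)) (β := P.G.indicator (fun _ => 1)) (f := P.gam J) (P.nice_gam _) hni
      (P.nice_gam _) (fun x => Set.indicator_nonneg (fun _ _ => zero_le_one) x)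
      (P.gam_nonneg J) ?_ ?_
    · refine h.trans ?_
      have hsub : P.G ⊆ closedBall (0 : E n) 1 := closedBall_subset_closedBall (e8_le_one _)
      rw [setIntegral_indicator P.measurableSet_G, Set.inter_eq_self_of_subset_right hsub,
        setInt_const, P.vol_G, pow_zero, inv_one, one_mul]
      have h3 : P.S * ∫ z in closedBall (0 : E n) 1, P.gam J z ≤
          1 / 7 * (2 * P.g * 2 ^ n) := by
        apply mul_le_mul P.S_le' ih _ (by norm_num)
        exact setIntegral_nonneg measurableSet_closedBall fun z _ => P.gam_nonneg J z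
      nlinarith [mul_pos hg h2n]
    · intro i _ hi x _ hxF _
      rw [gam_succ, glue_of_mem hi _ _ hxF]
      have : 0 ≤ P.G.indicator (fun _ => (1 : ℝ)) x :=
        Set.indicator_nonneg (fun _ _ => zero_le_one) x
      linarith
    · intro x _ hni' _
      rw [gam_succ, glue_of_not _ _ hni']

/-- the mass of the weight -/
noncomputable def a (J : ℕ) : ℝ := ∫ x in closedBall (0 : E n) 1, P.w J x

theorem a_le [NeZero n] (J : ℕ) : P.a J ≤ 2 ^ n := P.int_w_B J

theorem a_nonneg [NeZero n] (J : ℕ) : 0 ≤ P.a J :=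
  setIntegral_nonneg measurableSet_closedBall fun z _ => (P.w_pos J z).le

theorem sum_mass (c : ℝ) :
    ∑ k ∈ Finset.range (P.K + 1), rk k ^ n * (P.W * R n ^ k * c) = (1 - P.δ) * c := by
  have hR := R_pos (n := n)
  rw [← P.W_mul_S]
  unfold S
  rw [Finset.mul_sum, Finset.sum_mul]
  apply Finset.sum_congr rfl
  intro k _
  rw [rk_pow]
  have : R n ^ (2 * k + 1) = R n ^ k * R n ^ (k + 1) := by
    rw [← pow_add]; congr 1; omega
  rw [this]
  have : R n ^ k ≠ 0 := by positivity
  field_simp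

theorem a_succ [NeZero n] (J : ℕ) :
    P.a (J + 1) = (∫ x in closedBall (0 : E n) 1 \ UK n P.K, P.b x) + (1 - P.δ) * P.a J := by
  unfold a
  rw [w_succ, integral_glue P.nice_b (fun k _ => (Nice.const _).mul (P.nice_w J)),
    ← P.sum_mass]
  congr 1
  apply Finset.sum_congr rfl
  intro k _
  rw [integral_const_mul]

/-- pointwise lower bound for the background -/
theorem b_lower [NeZero n] {x : E n} (hx : x ∈ closedBall (0 : E n) 1) :
    ∑ k ∈ Finset.range (P.K + 1), P.ε * R n ^ k *
      ((closedBall (0 : E n) ((1 / 8 : ℝ) ^ k)).indicator (fun _ => (1 : ℝ)) x -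
       (closedBall (0 : E n) ((1 / 8 : ℝ) ^ (k + 1))).indicator (fun _ => (1 : ℝ)) x -
       (Fk n k).indicator (fun _ => (1 : ℝ)) x) ≤ (UK n P.K)ᶜ.indicator P.b x := by
  have hε := P.hε
  have hR := R_pos (n := n)
  rw [mem_closedBall, dist_zero_right] at hx
  -- only the term `k = κ x` can be nonzero
  have hκ := P.κ_spec hx
  have hκK := P.κ_le x
  have hD : ∀ k, x ∈ closedBall (0 : E n) ((1 / 8 : ℝ) ^ k) ↔ ‖x‖ ≤ (1 / 8 : ℝ) ^ k := fun k => by
    rw [mem_closedBall, dist_zero_right]
  have hterm : ∀ k ∈ Finset.range (P.K + 1), k ≠ P.κ x →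
      P.ε * R n ^ k * ((closedBall (0 : E n) ((1 / 8 : ℝ) ^ k)).indicator (fun _ => (1 : ℝ)) x -
       (closedBall (0 : E n) ((1 / 8 : ℝ) ^ (k + 1))).indicator (fun _ => (1 : ℝ)) x -
       (Fk n k).indicator (fun _ => (1 : ℝ)) x) ≤ 0 := by
    intro k hk hne
    have hkK : k ≤ P.K := Nat.lt_succ_iff.mp (Finset.mem_range.mp hk)
    have hF0 : 0 ≤ (Fk n k).indicator (fun _ => (1 : ℝ)) x :=
      Set.indicator_nonneg (fun _ _ => zero_le_one) x
    have hεk : 0 < P.ε * R n ^ k := by positivity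
    have h2 : (closedBall (0 : E n) ((1 / 8 : ℝ) ^ k)).indicator (fun _ => (1 : ℝ)) x ≤
       (closedBall (0 : E n) ((1 / 8 : ℝ) ^ (k + 1))).indicator (fun _ => (1 : ℝ)) x := by
      rcases Nat.lt_or_gt_of_ne hne with h | h
      · rw [Set.indicator_of_mem ((hD (k + 1)).mpr (hκ.trans (e8_le h)))]
        by_cases hxk : x ∈ closedBall (0 : E n) ((1 / 8 : ℝ) ^ k)
        · rw [Set.indicator_of_mem hxk]
        · rw [Set.indicator_of_notMem hxk]; norm_num
      · rw [Set.indicator_of_notMem (s := closedBall (0 : E n) ((1 / 8 : ℝ) ^ k))]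
        · exact Set.indicator_nonneg (fun _ _ => zero_le_one) x
        · intro hcon
          have := P.le_κ hkK ((hD k).mp hcon)
          omega
    apply mul_nonpos_of_nonneg_of_nonpos hεk.le
    linarith
  have hle : ∑ k ∈ Finset.range (P.K + 1), P.ε * R n ^ k *
      ((closedBall (0 : E n) ((1 / 8 : ℝ) ^ k)).indicator (fun _ => (1 : ℝ)) x -
       (closedBall (0 : E n) ((1 / 8 : ℝ) ^ (k + 1))).indicator (fun _ => (1 : ℝ)) x -
       (Fk n k).indicator (fun _ => (1 : ℝ)) x) ≤
      P.ε * R n ^ P.κ x *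
      ((closedBall (0 : E n) ((1 / 8 : ℝ) ^ P.κ x)).indicator (fun _ => (1 : ℝ)) x -
       (closedBall (0 : E n) ((1 / 8 : ℝ) ^ (P.κ x + 1))).indicator (fun _ => (1 : ℝ)) x -
       (Fk n (P.κ x)).indicator (fun _ => (1 : ℝ)) x) := by
    have hmem : P.κ x ∈ Finset.range (P.K + 1) := Finset.mem_range.mpr (by omega)
    rw [← Finset.add_sum_erase _ _ hmem]
    have : ∑ k ∈ (Finset.range (P.K + 1)).erase (P.κ x), P.ε * R n ^ k *
      ((closedBall (0 : E n) ((1 / 8 : ℝ) ^ k)).indicator (fun _ => (1 : ℝ)) x -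
       (closedBall (0 : E n) ((1 / 8 : ℝ) ^ (k + 1))).indicator (fun _ => (1 : ℝ)) x -
       (Fk n k).indicator (fun _ => (1 : ℝ)) x) ≤ 0 := by
      apply Finset.sum_nonpos
      intro k hk
      exact hterm k (Finset.mem_of_mem_erase hk) (Finset.ne_of_mem_erase hk)
    linarith
  refine hle.trans ?_
  rw [Set.indicator_of_mem ((hD _).mpr hκ)]
  have hεκ : 0 < P.ε * R n ^ P.κ x := by positivity
  by_cases hU : x ∈ UK n P.K
  · obtain ⟨i, hi, hxi⟩ := mem_UK.mp hU
    rw [Set.indicator_of_notMem (s := (UK n P.K)ᶜ) (fun h => h hU)]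
    have hiκ : i = P.κ x := by
      have h1 : i ≤ P.κ x := P.le_κ hi (by
        have := (norm_mem_Fk hxi).2
        have := e8_pos i
        linarith)
      have h2 : P.κ x ≤ i := P.κ_lt (Fk_not_mem_D (Nat.lt_succ_self i) hxi)
      omega
    rw [← hiκ, Set.indicator_of_mem hxi]
    have h3 : 0 ≤ (closedBall (0 : E n) ((1 / 8 : ℝ) ^ (i + 1))).indicator (fun _ => (1 : ℝ)) x :=
      Set.indicator_nonneg (fun _ _ => zero_le_one) x
    have hεi : 0 < P.ε * R n ^ i := by positivity
    nlinarith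
  · rw [Set.indicator_of_mem (s := (UK n P.K)ᶜ) hU]
    have hF0 : 0 ≤ (Fk n (P.κ x)).indicator (fun _ => (1 : ℝ)) x :=
      Set.indicator_nonneg (fun _ _ => zero_le_one) x
    by_cases hG : ‖x‖ ≤ (1 / 8 : ℝ) ^ (2 * P.K + 1)
    · have h3 : x ∈ closedBall (0 : E n) ((1 / 8 : ℝ) ^ (P.κ x + 1)) := by
        rw [hD]
        exact hG.trans (e8_le (by omega))
      rw [Set.indicator_of_mem h3, P.b_G hG]
      have := P.wG_pos
      nlinarith
    · rw [P.b_not_G (not_le.mp hG)]
      have h3 : 0 ≤ (closedBall (0 : E n) ((1 / 8 : ℝ) ^ (P.κ x + 1))).indicator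
        (fun _ => (1 : ℝ)) x := Set.indicator_nonneg (fun _ _ => zero_le_one) x
      nlinarith

theorem int_b_lower [NeZero n] :
    P.δ / 2 * 2 ^ n ≤ ∫ x in closedBall (0 : E n) 1 \ UK n P.K, P.b x := by
  have hε := P.hε
  have hR := R_pos (n := n)
  have hR8 := R_ge (n := n)
  have h2n : (0 : ℝ) < 2 ^ n := by positivity
  have e1 : ∫ x in closedBall (0 : E n) 1 \ UK n P.K, P.b x =
      ∫ x in closedBall (0 : E n) 1, (UK n P.K)ᶜ.indicator P.b x := by
    rw [setIntegral_indicator (measurableSet_UK P.K).compl]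
    rfl
  rw [e1]
  have hi1 : ∀ m : ℕ, Nice ((closedBall (0 : E n) ((1 / 8 : ℝ) ^ m)).indicator
      (fun _ => (1 : ℝ))) := fun m => (Nice.const _).indicator measurableSet_closedBall
  have hi2 : ∀ k : ℕ, Nice ((Fk n k).indicator (fun _ => (1 : ℝ))) := fun k =>
    (Nice.const _).indicator (measurableSet_Fk k)
  have hI1 : ∀ m : ℕ, ∫ x in closedBall (0 : E n) 1,
      (closedBall (0 : E n) ((1 / 8 : ℝ) ^ m)).indicator (fun _ => (1 : ℝ)) x =
      2 ^ n * (R n ^ m)⁻¹ := fun m => by
    rw [setIntegral_indicator measurableSet_closedBall,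
      Set.inter_eq_self_of_subset_right (closedBall_subset_closedBall (e8_le_one m)),
      setInt_const, vol_D, mul_one]
  have hI2 : ∀ k : ℕ, ∫ x in closedBall (0 : E n) 1,
      (Fk n k).indicator (fun _ => (1 : ℝ)) x = 2 ^ n * (R n ^ (2 * k + 1))⁻¹ := fun k => by
    have hsub : Fk n k ⊆ closedBall (0 : E n) 1 := by
      intro x hx
      rw [mem_closedBall, dist_zero_right]
      have h1 := (norm_mem_Fk hx).2
      have h2 := e8_le_one k
      linarith
    rw [setIntegral_indicator (measurableSet_Fk k), Set.inter_eq_self_of_subset_right hsub,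
      setInt_const, mul_one]
    unfold Fk
    rw [vol_ball _ (rk_pos k).le, mul_pow, rk_pow]
  have hint : ∀ k : ℕ, Nice (fun x => P.ε * R n ^ k *
      ((closedBall (0 : E n) ((1 / 8 : ℝ) ^ k)).indicator (fun _ => (1 : ℝ)) x -
       (closedBall (0 : E n) ((1 / 8 : ℝ) ^ (k + 1))).indicator (fun _ => (1 : ℝ)) x -
       (Fk n k).indicator (fun _ => (1 : ℝ)) x)) := fun k => by
    have := (Nice.const (n := n) (P.ε * R n ^ k)).mul (((hi1 k).add
      ((Nice.const (-1)).mul (hi1 (k + 1)))).add ((Nice.const (-1)).mul (hi2 k)))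
    refine ⟨?_, ?_⟩
    · convert this.meas using 2
      ring
    · obtain ⟨C, hC⟩ := this.bdd
      refine ⟨C, fun x => ?_⟩
      have h := hC x
      convert h using 2
      ring
  have hval : ∀ k ∈ Finset.range (P.K + 1), ∫ x in closedBall (0 : E n) 1, P.ε * R n ^ k *
      ((closedBall (0 : E n) ((1 / 8 : ℝ) ^ k)).indicator (fun _ => (1 : ℝ)) x -
       (closedBall (0 : E n) ((1 / 8 : ℝ) ^ (k + 1))).indicator (fun _ => (1 : ℝ)) x -
       (Fk n k).indicator (fun _ => (1 : ℝ)) x) ≥ 1 / 2 * P.ε * 2 ^ n := by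
    intro k _
    rw [integral_const_mul, integral_sub, integral_sub, hI1, hI1, hI2]
    · have e2 : P.ε * R n ^ k * (2 ^ n * (R n ^ k)⁻¹ - 2 ^ n * (R n ^ (k + 1))⁻¹ -
          2 ^ n * (R n ^ (2 * k + 1))⁻¹) =
          P.ε * 2 ^ n * (1 - (R n)⁻¹ - (R n ^ (k + 1))⁻¹) := by
        have e3 : R n ^ (2 * k + 1) = R n ^ k * R n ^ (k + 1) := by
          rw [← pow_add]; congr 1; omega
        have e4 : R n ^ (k + 1) = R n ^ k * R n := pow_succ _ _
        have : R n ^ k ≠ 0 := by positivity
        rw [e3, e4]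
        field_simp
      rw [e2]
      have h3 : (R n)⁻¹ ≤ 1 / 8 := by
        rw [one_div]
        exact inv_anti₀ (by norm_num) hR8
      have h4 : (R n ^ (k + 1))⁻¹ ≤ (R n)⁻¹ := by
        apply inv_anti₀ hR
        calc R n = R n ^ 1 := (pow_one _).symm
          _ ≤ _ := pow_le_pow_right₀ R_ge_one (by omega)
      have : 0 < P.ε * 2 ^ n := by positivity
      nlinarith
    · exact (hi1 k).integrableOn (vol_ball_ne_top _ _)
    · exact (hi1 (k + 1)).integrableOn (vol_ball_ne_top _ _)
    · exact ((hi1 k).integrableOn (vol_ball_ne_top _ _)).sub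
        ((hi1 (k + 1)).integrableOn (vol_ball_ne_top _ _))
    · exact (hi2 k).integrableOn (vol_ball_ne_top _ _)
  calc P.δ / 2 * 2 ^ n = ∑ k ∈ Finset.range (P.K + 1), 1 / 2 * P.ε * 2 ^ n := by
        rw [Finset.sum_const, Finset.card_range, nsmul_eq_mul]
        unfold δ
        push_cast
        ring
    _ ≤ ∑ k ∈ Finset.range (P.K + 1), ∫ x in closedBall (0 : E n) 1, P.ε * R n ^ k *
      ((closedBall (0 : E n) ((1 / 8 : ℝ) ^ k)).indicator (fun _ => (1 : ℝ)) x -
       (closedBall (0 : E n) ((1 / 8 : ℝ) ^ (k + 1))).indicator (fun _ => (1 : ℝ)) x -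
       (Fk n k).indicator (fun _ => (1 : ℝ)) x) := Finset.sum_le_sum hval
    _ = ∫ x in closedBall (0 : E n) 1, ∑ k ∈ Finset.range (P.K + 1), P.ε * R n ^ k *
      ((closedBall (0 : E n) ((1 / 8 : ℝ) ^ k)).indicator (fun _ => (1 : ℝ)) x -
       (closedBall (0 : E n) ((1 / 8 : ℝ) ^ (k + 1))).indicator (fun _ => (1 : ℝ)) x -
       (Fk n k).indicator (fun _ => (1 : ℝ)) x) := by
        rw [integral_finsetSum]
        intro k _
        exact (hint k).integrableOn (vol_ball_ne_top _ _)
    _ ≤ _ := by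
        apply setIntegral_mono_on
        · exact (Nice.sum _ fun k _ => hint k).integrableOn (vol_ball_ne_top _ _)
        · exact (P.nice_b.indicator (measurableSet_UK P.K).compl).integrableOn
            (vol_ball_ne_top _ _)
        · exact measurableSet_closedBall
        · intro x hx
          exact P.b_lower hx

/-- lower bound for the mass -/
theorem a_lower [NeZero n] (J : ℕ) : 1 / 2 * (1 - (1 - P.δ) ^ J) * 2 ^ n ≤ P.a J := by
  have h2n : (0 : ℝ) < 2 ^ n := by positivity
  induction J with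
  | zero =>
    rw [pow_zero, sub_self, mul_zero, zero_mul]
    exact P.a_nonneg 0
  | succ J ih =>
    rw [P.a_succ]
    have h1 := P.int_b_lower
    have h2 := P.δ_le
    have h3 : (1 - P.δ) * (1 / 2 * (1 - (1 - P.δ) ^ J) * 2 ^ n) ≤ (1 - P.δ) * P.a J :=
      mul_le_mul_of_nonneg_left ih (by linarith)
    rw [pow_succ]
    nlinarith

/-- `∫ 1_𝒢 w ≤ g w_G 2^n / δ` -/
theorem int_gam_w [NeZero n] (J : ℕ) :
    ∫ x in closedBall (0 : E n) 1, P.gam J x * P.w J x ≤ P.g * P.wG * 2 ^ n / P.δ := by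
  have h2n : (0 : ℝ) < 2 ^ n := by positivity
  have hδ := P.δ_pos
  have hδ1 := P.δ_le
  have hg := P.g_pos
  have hwG := P.wG_pos
  induction J with
  | zero =>
    show ∫ x in closedBall (0 : E n) 1, 0 * P.w 0 x ≤ _
    simp only [zero_mul, integral_zero]
    positivity
  | succ J ih =>
    have e1 : ∀ x, P.gam (J + 1) x * P.w (J + 1) x =
        glue P.K (fun x => P.G.indicator (fun _ => 1) x * P.b x)
          (fun k z => P.W * R n ^ k * (P.gam J z * P.w J z)) x := by
      intro x
      by_cases h : ∃ i, i ≤ P.K ∧ x ∈ Fk n i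
      · obtain ⟨i, hi, hxi⟩ := h
        rw [gam_succ, w_succ, glue_of_mem hi _ _ hxi, glue_of_mem hi _ _ hxi,
          glue_of_mem hi _ _ hxi]
        ring
      · push Not at h
        rw [gam_succ, w_succ, glue_of_not _ _ h, glue_of_not _ _ h, glue_of_not _ _ h]
    simp only [e1]
    have hni : Nice (P.G.indicator (fun _ => (1 : ℝ))) :=
      (Nice.const _).indicator P.measurableSet_G
    rw [integral_glue (hni.mul P.nice_b)
      (fun k _ => (Nice.const _).mul ((P.nice_gam J).mul (P.nice_w J)))]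
    have e2 : ∑ k ∈ Finset.range (P.K + 1), rk k ^ n *
        ∫ z in closedBall (0 : E n) 1, P.W * R n ^ k * (P.gam J z * P.w J z) =
        (1 - P.δ) * ∫ z in closedBall (0 : E n) 1, P.gam J z * P.w J z := by
      rw [← P.sum_mass]
      apply Finset.sum_congr rfl
      intro k _
      rw [integral_const_mul]
    rw [e2]
    have h3 : ∫ x in closedBall (0 : E n) 1 \ UK n P.K,
        P.G.indicator (fun _ => 1) x * P.b x ≤ P.g * P.wG * 2 ^ n := by
      calc ∫ x in closedBall (0 : E n) 1 \ UK n P.K, P.G.indicator (fun _ => 1) x * P.b x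
          ≤ ∫ x in closedBall (0 : E n) 1, P.G.indicator (fun _ => 1) x * P.b x := by
            apply setIntegral_mono_set ((hni.mul P.nice_b).integrableOn (vol_ball_ne_top _ _))
            · apply Filter.Eventually.of_forall
              intro x
              exact mul_nonneg (Set.indicator_nonneg (fun _ _ => zero_le_one) x)
                (P.wG_pos.le.trans (P.wG_le_b x))
            · exact Set.sdiff_subset.eventuallyLE
        _ = ∫ x in closedBall (0 : E n) 1, P.G.indicator (fun _ => P.wG) x := by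
            apply setIntegral_congr_fun measurableSet_closedBall
            intro x _
            by_cases hx : x ∈ P.G
            · simp only [Set.indicator_of_mem hx, one_mul]
              exact P.b_G (P.mem_G.mp hx)
            · simp only [Set.indicator_of_notMem hx, zero_mul]
        _ = _ := by
            have hsub : P.G ⊆ closedBall (0 : E n) 1 :=
              closedBall_subset_closedBall (e8_le_one _)
            rw [setIntegral_indicator P.measurableSet_G, Set.inter_eq_self_of_subset_right hsub,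
              setInt_const, P.vol_G]
            ring
    have h4 : (1 - P.δ) * ∫ z in closedBall (0 : E n) 1, P.gam J z * P.w J z ≤
        (1 - P.δ) * (P.g * P.wG * 2 ^ n / P.δ) := mul_le_mul_of_nonneg_left ih (by linarith)
    have h5 : P.g * P.wG * 2 ^ n + (1 - P.δ) * (P.g * P.wG * 2 ^ n / P.δ) =
        P.g * P.wG * 2 ^ n / P.δ := by
      field_simp
      ring
    linarith

end Par

end Pool.Agent.Helper51
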