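import Pool.Agent.Helper51.CZGlue

open MeasureTheory Metric Set

namespace Pool.Agent.Helper51

variable {n : ℕ}

/-- `L²(ℝⁿ)` -/
noncomputable abbrev L2 (n : ℕ) := Lp ℝ 2 (volume : Measure (E n))

open Classical in
/-- the element of `L²` given by a function (zero if the function is not in `L²`) -/
noncomputable def toL (f : E n → ℝ) : L2 n := if h : MemLp f 2 volume then h.toLp f else 0

theorem toL_eq {f : E n → ℝ} (h : MemLp f 2 volume) : toL f = h.toLp f := by
  unfold toL
  rw [dif_pos h]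

theorem coe_toL {f : E n → ℝ} (h : MemLp f 2 volume) : toL f =ᵐ[volume] f := by
  rw [toL_eq h]
  exact h.coeFn_toLp

theorem toL_add {f g : E n → ℝ} (hf : MemLp f 2 volume) (hg : MemLp g 2 volume) :
    toL (fun x => f x + g x) = toL f + toL g := by
  rw [toL_eq hf, toL_eq hg, ← MemLp.toLp_add]
  exact toL_eq (hf.add hg)

theorem toL_smul {f : E n → ℝ} (hf : MemLp f 2 volume) (c : ℝ) :
    toL (fun x => c * f x) = c • toL f := by
  rw [toL_eq hf, ← MemLp.toLp_const_smul]
  exact toL_eq (hf.const_smul c)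

theorem toL_zero : toL (fun _ : E n => (0 : ℝ)) = 0 := by
  have h : MemLp (fun _ : E n => (0 : ℝ)) 2 volume := MemLp.zero
  rw [toL_eq h]
  exact MemLp.toLp_zero h

theorem memLp_sum {ι : Type*} (s : Finset ι) {f : ι → E n → ℝ}
    (hf : ∀ i ∈ s, MemLp (f i) 2 volume) : MemLp (fun x => ∑ i ∈ s, f i x) 2 volume :=
  memLp_finsetSum s hf

theorem toL_sum {ι : Type*} (s : Finset ι) {f : ι → E n → ℝ}
    (hf : ∀ i ∈ s, MemLp (f i) 2 volume) :
    toL (fun x => ∑ i ∈ s, f i x) = ∑ i ∈ s, toL (f i) := by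
  classical
  induction s using Finset.induction_on with
  | empty => simpa using toL_zero
  | insert a s ha ih =>
    have h1 := hf a (Finset.mem_insert_self a s)
    have h2 := memLp_sum s fun i hi => hf i (Finset.mem_insert_of_mem hi)
    simp only [Finset.sum_insert ha]
    rw [toL_add h1 h2, ih fun i hi => hf i (Finset.mem_insert_of_mem hi)]

/-- the bilinear form of an operator on `L²` -/
noncomputable def bil (T : L2 n →L[ℝ] L2 n) (f u : E n → ℝ) : ℝ := inner ℝ (T (toL f)) (toL u)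

theorem bil_eq {T : L2 n →L[ℝ] L2 n} {f u : E n → ℝ} (hu : MemLp u 2 volume) :
    bil T f u = ∫ x, T (toL f) x * u x := by
  unfold bil
  rw [L2.inner_def]
  apply integral_congr_ae
  filter_upwards [coe_toL hu] with x hx
  rw [hx]
  simp [mul_comm]

theorem integrable_Tmul {T : L2 n →L[ℝ] L2 n} {f u : E n → ℝ} (hu : MemLp u 2 volume) :
    Integrable (fun x => T (toL f) x * u x) :=
  (Lp.memLp (T (toL f))).integrable_mul hu

theorem bil_add_left {T : L2 n →L[ℝ] L2 n} {f g u : E n → ℝ} (hf : MemLp f 2 volume)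
    (hg : MemLp g 2 volume) : bil T (fun x => f x + g x) u = bil T f u + bil T g u := by
  unfold bil
  rw [toL_add hf hg, map_add, inner_add_left]

theorem bil_sum_left {T : L2 n →L[ℝ] L2 n} {ι : Type*} (s : Finset ι) {f : ι → E n → ℝ}
    {u : E n → ℝ} (hf : ∀ i ∈ s, MemLp (f i) 2 volume) :
    bil T (fun x => ∑ i ∈ s, f i x) u = ∑ i ∈ s, bil T (f i) u := by
  unfold bil
  rw [toL_sum s hf, map_sum, sum_inner]

theorem bil_add_right {T : L2 n →L[ℝ] L2 n} {f u v : E n → ℝ} (hu : MemLp u 2 volume)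
    (hv : MemLp v 2 volume) : bil T f (fun x => u x + v x) = bil T f u + bil T f v := by
  unfold bil
  rw [toL_add hu hv, inner_add_right]

theorem bil_sum_right {T : L2 n →L[ℝ] L2 n} {ι : Type*} (s : Finset ι) {u : ι → E n → ℝ}
    {f : E n → ℝ} (hu : ∀ i ∈ s, MemLp (u i) 2 volume) :
    bil T f (fun x => ∑ i ∈ s, u i x) = ∑ i ∈ s, bil T f (u i) := by
  unfold bil
  rw [toL_sum s hu, inner_sum]

theorem bil_smul_right {T : L2 n →L[ℝ] L2 n} {f u : E n → ℝ} (hu : MemLp u 2 volume) (c : ℝ) :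
    bil T f (fun x => c * u x) = c * bil T f u := by
  unfold bil
  rw [toL_smul hu, inner_smul_right]

theorem bil_zero_left {T : L2 n →L[ℝ] L2 n} {u : E n → ℝ} : bil T (fun _ => 0) u = 0 := by
  unfold bil
  rw [toL_zero, map_zero, inner_zero_left]

theorem norm_toL_sq {f : E n → ℝ} (hf : MemLp f 2 volume) : ‖toL f‖ ^ 2 = ∫ x, f x ^ 2 := by
  rw [← real_inner_self_eq_norm_sq, L2.inner_def]
  apply integral_congr_ae
  filter_upwards [coe_toL hf] with x hx
  rw [hx]
  simp [sq]

theorem bil_cs (T : L2 n →L[ℝ] L2 n) {f u : E n → ℝ} (hf : MemLp f 2 volume)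
    (hu : MemLp u 2 volume) {M : ℝ} (hM : 0 ≤ M)
    (h : (∫ x, f x ^ 2) * (∫ x, u x ^ 2) ≤ M ^ 2) : -(‖T‖ * M) ≤ bil T f u := by
  have h1 : |bil T f u| ≤ ‖T‖ * (‖toL f‖ * ‖toL u‖) := by
    unfold bil
    calc |inner ℝ (T (toL f)) (toL u)| ≤ ‖T (toL f)‖ * ‖toL u‖ := abs_real_inner_le_norm _ _
      _ ≤ (‖T‖ * ‖toL f‖) * ‖toL u‖ :=
          mul_le_mul_of_nonneg_right (T.le_opNorm _) (norm_nonneg _)
      _ = _ := by ring
  have h2 : ‖toL f‖ * ‖toL u‖ ≤ M := by
    have h3 : (‖toL f‖ * ‖toL u‖) ^ 2 ≤ M ^ 2 := by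
      rw [mul_pow, norm_toL_sq hf, norm_toL_sq hu]
      exact h
    exact (pow_le_pow_iff_left₀ (by positivity) hM (by norm_num)).mp h3
  have h4 : ‖T‖ * (‖toL f‖ * ‖toL u‖) ≤ ‖T‖ * M := mul_le_mul_of_nonneg_left h2 (norm_nonneg _)
  have := neg_abs_le (bil T f u)
  linarith

/-- the part of a Calderon-Zygmund operator that is used: size of the kernel and representation
off the support -/
structure KerData (T : L2 n →L[ℝ] L2 n) (Kr : E n → E n → ℝ) (CK : ℝ) : Prop where
  nonneg : 0 ≤ CK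
  meas : Measurable (Function.uncurry Kr)
  size : ∀ x y, x ≠ y → |Kr x y| ≤ CK / ‖x - y‖ ^ n
  rep : ∀ S : Set (E n), IsCompact S → ∀ f : L2 n, (∀ᵐ y, y ∉ S → f y = 0) →
    ∀ᵐ x, x ∉ S → T f x = ∫ y, Kr x y * f y

/-- localization of a function to a cube -/
noncomputable def loc (c : E n) (ρ : ℝ) (h : E n → ℝ) : E n → ℝ :=
  (closedBall c ρ).indicator (fun x => h (ρ⁻¹ • (x - c)))

theorem nice_loc {h : E n → ℝ} (hh : Nice h) (c : E n) (ρ : ℝ) : Nice (loc c ρ h) :=
  (hh.comp_affine _ _).indicator measurableSet_closedBall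

theorem memLp_of_nice {f : E n → ℝ} (hf : Nice f) {c : E n} {ρ : ℝ}
    (h0 : ∀ x, x ∉ closedBall c ρ → f x = 0) : MemLp f 2 volume := by
  obtain ⟨C, hC⟩ := hf.bdd
  have e : f = (closedBall c ρ).indicator f := by
    funext x
    by_cases hx : x ∈ closedBall c ρ
    · rw [Set.indicator_of_mem hx]
    · rw [Set.indicator_of_notMem hx, h0 x hx]
  rw [e, memLp_indicator_iff_restrict measurableSet_closedBall]
  have : IsFiniteMeasure (volume.restrict (closedBall c ρ)) := by
    constructor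
    rw [Measure.restrict_apply_univ]
    exact (isCompact_closedBall c ρ).measure_lt_top
  exact MemLp.of_bound hf.meas.aestronglyMeasurable C (Filter.Eventually.of_forall hC)

theorem loc_zero_off {h : E n → ℝ} {c : E n} {ρ : ℝ} {x : E n} (hx : x ∉ closedBall c ρ) :
    loc c ρ h x = 0 := Set.indicator_of_notMem hx _

theorem memLp_loc {h : E n → ℝ} (hh : Nice h) (c : E n) (ρ : ℝ) : MemLp (loc c ρ h) 2 volume :=
  memLp_of_nice (nice_loc hh c ρ) fun _ hx => loc_zero_off hx

theorem integrable_of_nice {f : E n → ℝ} (hf : Nice f) {c : E n} {ρ : ℝ}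
    (h0 : ∀ x, x ∉ closedBall c ρ → f x = 0) : Integrable f := by
  have e : f = (closedBall c ρ).indicator f := by
    funext x
    by_cases hx : x ∈ closedBall c ρ
    · rw [Set.indicator_of_mem hx]
    · rw [Set.indicator_of_notMem hx, h0 x hx]
  rw [e, integrable_indicator_iff measurableSet_closedBall]
  exact hf.integrableOn (vol_ball_ne_top _ _)

theorem integral_loc (h : E n → ℝ) (c : E n) {ρ : ℝ} (hρ : 0 < ρ) :
    ∫ x, loc c ρ h x = ρ ^ n * ∫ z in closedBall (0 : E n) 1, h z := by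
  unfold loc
  rw [integral_indicator measurableSet_closedBall]
  have := scale_integral h c 0 hρ 1
  rw [smul_zero, add_zero, mul_one] at this
  exact this

/-- lower bound for the bilinear form on separated cubes -/
theorem bil_lower {T : L2 n →L[ℝ] L2 n} {Kr : E n → E n → ℝ} {CK : ℝ} (hT : KerData T Kr CK)
    {f u : E n → ℝ} (hf : Nice f) (hu : Nice u) {c1 c2 : E n} {ρ1 ρ2 d κ : ℝ}
    (hf1 : ∀ x, x ∉ closedBall c1 ρ1 → f x = 0) (hu1 : ∀ x, x ∉ closedBall c2 ρ2 → u x = 0)
    (hf0 : ∀ x, 0 ≤ f x) (hu0 : ∀ x, 0 ≤ u x) (hd : 0 < d)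
    (hsep : ∀ x ∈ closedBall c2 ρ2, ∀ y ∈ closedBall c1 ρ1, d ≤ ‖x - y‖)
    (hK : ∀ x ∈ closedBall c2 ρ2, ∀ y ∈ closedBall c1 ρ1, κ ≤ Kr x y) :
    κ * (∫ x, f x) * (∫ x, u x) ≤ bil T f u := by
  have hfL := memLp_of_nice hf hf1
  have huL := memLp_of_nice hu hu1
  rw [bil_eq huL, ← integral_const_mul]
  have hrep := hT.rep (closedBall c1 ρ1) (isCompact_closedBall c1 ρ1) (toL f) (by
    filter_upwards [coe_toL hfL] with y hy hyS
    rw [hy, hf1 y hyS])
  apply integral_mono_ae ((integrable_of_nice hu hu1).const_mul _) (integrable_Tmul huL)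
  filter_upwards [hrep] with x hx
  by_cases hx2 : x ∈ closedBall c2 ρ2
  · have hx1 : x ∉ closedBall c1 ρ1 := by
      intro hcon
      have := hsep x hx2 x hcon
      rw [sub_self, norm_zero] at this
      linarith
    rw [hx hx1]
    apply mul_le_mul_of_nonneg_right _ (hu0 x)
    have e : ∫ y, Kr x y * (toL f) y = ∫ y, Kr x y * f y := by
      apply integral_congr_ae
      filter_upwards [coe_toL hfL] with y hy
      rw [hy]
    rw [e, ← integral_const_mul]
    have hmeas : Measurable (fun y => Kr x y) := hT.meas.of_uncurry_left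
    have hbd : ∀ y, |Kr x y * f y| ≤ |CK / d ^ n * f y| := by
      intro y
      by_cases hy : y ∈ closedBall c1 ρ1
      · have hdxy := hsep x hx2 y hy
        have hne : x ≠ y := by
          intro h
          rw [h, sub_self, norm_zero] at hdxy
          linarith
        have h1 := hT.size x y hne
        have h2 : CK / ‖x - y‖ ^ n ≤ CK / d ^ n := by
          apply div_le_div_of_nonneg_left hT.nonneg (by positivity)
          exact pow_le_pow_left₀ hd.le hdxy n
        rw [abs_mul, abs_mul]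
        apply mul_le_mul_of_nonneg_right _ (abs_nonneg _)
        rw [abs_of_nonneg (by have := hT.nonneg; positivity : 0 ≤ CK / d ^ n)]
        linarith
      · rw [hf1 y hy, mul_zero, mul_zero]
    have hint : Integrable (fun y => Kr x y * f y) := by
      apply ((integrable_of_nice hf hf1).const_mul (CK / d ^ n)).mono
        (hmeas.mul hf.meas).aestronglyMeasurable
      exact Filter.Eventually.of_forall hbd
    apply integral_mono ((integrable_of_nice hf hf1).const_mul _) hint
    intro y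
    by_cases hy : y ∈ closedBall c1 ρ1
    · exact mul_le_mul_of_nonneg_right (hK x hx2 y hy) (hf0 y)
    · simp only [hf1 y hy, mul_zero]
      exact le_rfl
  · rw [hu1 x hx2, mul_zero, mul_zero]

/-- decomposition of a localized glued function -/
theorem loc_glue [NeZero n] {K : ℕ} (β : E n → ℝ) (f : ℕ → E n → ℝ) (c : E n) {ρ : ℝ}
    (hρ : 0 < ρ) (x : E n) :
    loc c ρ (glue K β f) x = loc c ρ ((UK n K)ᶜ.indicator β) x +
      ∑ k ∈ Finset.range (K + 1), loc (c + ρ • ck n k) (ρ * rk k) (f k) x := by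
  set z := ρ⁻¹ • (x - c) with hz
  have hmemB : x ∈ closedBall c ρ ↔ z ∈ closedBall (0 : E n) 1 := by
    have := mem_ball_scale c 0 x hρ 1
    rwa [smul_zero, add_zero, mul_one] at this
  have hterm : ∀ k, loc (c + ρ • ck n k) (ρ * rk k) (f k) x =
      (Fk n k).indicator (fun x => f k (Sk k x)) z := by
    intro k
    unfold loc
    have hm := mem_ball_scale c (ck n k) x hρ (rk k)
    by_cases hx : x ∈ closedBall (c + ρ • ck n k) (ρ * rk k)
    · have hzF : z ∈ Fk n k := hm.mp hx
      rw [Set.indicator_of_mem hx, Set.indicator_of_mem (s := Fk n k) hzF]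
      have e : (ρ * rk k)⁻¹ • (x - (c + ρ • ck n k)) = Sk k z := by
        unfold Sk
        rw [hz, mul_inv, mul_comm, mul_smul]
        congr 1
        rw [← sub_sub, smul_sub, smul_smul, inv_mul_cancel₀ hρ.ne', one_smul]
      rw [e]
    · have hzF : z ∉ Fk n k := fun h => hx (hm.mpr h)
      rw [Set.indicator_of_notMem hx, Set.indicator_of_notMem (s := Fk n k) hzF]
  simp only [hterm]
  unfold loc
  by_cases hx : x ∈ closedBall c ρ
  · rw [Set.indicator_of_mem hx, Set.indicator_of_mem hx]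
    rfl
  · rw [Set.indicator_of_notMem hx, Set.indicator_of_notMem hx, zero_add]
    symm
    apply Finset.sum_eq_zero
    intro k _
    apply Set.indicator_of_notMem
    intro hzF
    apply hx
    rw [hmemB, mem_closedBall, dist_zero_right]
    have h1 := (norm_mem_Fk hzF).2
    have h2 := e8_le_one k
    linarith

end Pool.Agent.Helper51
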