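import Pool.Agent.Helper51.CZMass
import Pool.Agent.Helper51.CZOp

open MeasureTheory Metric Set

namespace Pool.Agent.Helper51

variable {n : ℕ}

/-- linearity in both slots: expansion of the bilinear form -/
theorem bil_expand {T : L2 n →L[ℝ] L2 n} {s : Finset ℕ} {f0 u0 : E n → ℝ} {f u : ℕ → E n → ℝ}
    {v : ℕ → ℝ} (hf0 : MemLp f0 2 volume) (hu0 : MemLp u0 2 volume)
    (hf : ∀ i ∈ s, MemLp (f i) 2 volume) (hu : ∀ i ∈ s, MemLp (u i) 2 volume) :
    bil T (fun x => f0 x + ∑ i ∈ s, f i x) (fun x => u0 x + ∑ i ∈ s, v i * u i x) =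
      bil T (fun x => f0 x + ∑ i ∈ s, f i x) u0 +
      ∑ k ∈ s, (v k * bil T f0 (u k) + ∑ i ∈ s, v k * bil T (f i) (u k)) := by
  rw [bil_add_right hu0 (memLp_sum s fun i hi => (hu i hi).const_mul (v i)),
    bil_sum_right s fun i hi => (hu i hi).const_mul (v i)]
  congr 1
  apply Finset.sum_congr rfl
  intro k hk
  rw [bil_smul_right (hu k hk), bil_add_left hf0 (memLp_sum s hf), bil_sum_left s hf, mul_add,
    Finset.mul_sum]

theorem loc_smul (c : E n) (ρ a : ℝ) (h : E n → ℝ) (x : E n) :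
    loc c ρ (fun z => a * h z) x = a * loc c ρ h x := by
  unfold loc
  by_cases hx : x ∈ closedBall c ρ
  · rw [Set.indicator_of_mem hx, Set.indicator_of_mem hx]
  · rw [Set.indicator_of_notMem hx, Set.indicator_of_notMem hx, mul_zero]

theorem loc_nonneg {h : E n → ℝ} (hh : ∀ x, 0 ≤ h x) (c : E n) (ρ : ℝ) (x : E n) :
    0 ≤ loc c ρ h x := Set.indicator_nonneg (fun _ _ => hh _) x

/-- the balls `c + ρ F'_i` and `c + ρ F'_k` are separated -/
theorem sep_Fk [NeZero n] {i k : ℕ} (hik : i ≠ k) (c : E n) {ρ : ℝ} (hρ : 0 < ρ) {x y : E n}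
    (hx : x ∈ closedBall (c + ρ • ck n k) (ρ * rk k))
    (hy : y ∈ closedBall (c + ρ • ck n i) (ρ * rk i)) :
    ρ * (1 / 4 * (1 / 8) ^ (min i k)) ≤ ‖x - y‖ := by
  have hx1 : ρ⁻¹ • (x - c) ∈ Fk n k := (mem_ball_scale c (ck n k) x hρ (rk k)).mp hx
  have hy1 : ρ⁻¹ • (y - c) ∈ Fk n i := (mem_ball_scale c (ck n i) y hρ (rk i)).mp hy
  have e : ‖x - y‖ = ρ * ‖ρ⁻¹ • (x - c) - ρ⁻¹ • (y - c)‖ := by
    rw [← smul_sub, norm_smul, Real.norm_of_nonneg (by positivity), sub_sub_sub_cancel_right,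
      ← mul_assoc, mul_inv_cancel₀ hρ.ne', one_mul]
  rw [e]
  apply mul_le_mul_of_nonneg_left _ hρ.le
  set X := ρ⁻¹ • (x - c)
  set Y := ρ⁻¹ • (y - c)
  obtain ⟨x1, x2⟩ := norm_mem_Fk hx1
  obtain ⟨y1, y2⟩ := norm_mem_Fk hy1
  have h1 := norm_sub_norm_le X Y
  have h2 := norm_sub_norm_le Y X
  rw [norm_sub_rev] at h2
  rcases Nat.lt_or_gt_of_ne hik with h | h
  · rw [min_eq_left h.le]
    have h3 := e8_succ_le h
    have := e8_pos i
    linarith
  · rw [min_eq_right h.le]
    have h3 := e8_succ_le h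
    have := e8_pos k
    linarith

theorem loc_G (P : Par n) [NeZero n] (c : E n) {ρ : ℝ} (hρ : 0 < ρ) (x : E n) :
    loc c ρ ((UK n P.K)ᶜ.indicator (P.G.indicator (fun _ => 1))) x =
      (closedBall c (ρ * (1 / 8 : ℝ) ^ (2 * P.K + 1))).indicator (fun _ => 1) x := by
  set z := ρ⁻¹ • (x - c) with hz
  have hG : x ∈ closedBall c (ρ * (1 / 8 : ℝ) ^ (2 * P.K + 1)) ↔ z ∈ P.G := by
    have := mem_ball_scale c 0 x hρ ((1 / 8 : ℝ) ^ (2 * P.K + 1))
    rwa [smul_zero, add_zero] at this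
  unfold loc
  by_cases hxG : x ∈ closedBall c (ρ * (1 / 8 : ℝ) ^ (2 * P.K + 1))
  · have hzG : z ∈ P.G := hG.mp hxG
    have hzU : z ∈ (UK n P.K)ᶜ := by
      intro hcon
      obtain ⟨k, hk, hzk⟩ := mem_UK.mp hcon
      exact G_not_mem_F hk (P.mem_G.mp hzG) hzk
    have hxB : x ∈ closedBall c ρ := by
      apply closedBall_subset_closedBall _ hxG
      have := e8_le_one (2 * P.K + 1)
      nlinarith
    rw [Set.indicator_of_mem hxG, Set.indicator_of_mem hxB]
    show (UK n P.K)ᶜ.indicator (P.G.indicator (fun _ => 1)) z = 1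
    rw [Set.indicator_of_mem hzU, Set.indicator_of_mem hzG]
  · have hzG : z ∉ P.G := fun h => hxG (hG.mpr h)
    rw [Set.indicator_of_notMem hxG]
    by_cases hxB : x ∈ closedBall c ρ
    · rw [Set.indicator_of_mem hxB]
      show (UK n P.K)ᶜ.indicator (P.G.indicator (fun _ => 1)) z = 0
      by_cases hzU : z ∈ (UK n P.K)ᶜ
      · rw [Set.indicator_of_mem hzU, Set.indicator_of_notMem hzG]
      · rw [Set.indicator_of_notMem hzU]
    · rw [Set.indicator_of_notMem hxB]

/-- the recursion for the lower bound -/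
noncomputable def Par.Z (P : Par n) (c0 B : ℝ) : ℕ → ℝ
  | 0 => 0
  | (J + 1) => (1 - P.δ) * Par.Z P c0 B J +
      2 ^ n * P.g * (c0 / 2 * (P.K + 1) * P.a J - B)

/-- a class of admissible cubes for an operator -/
structure Adm (P : Par n) (Kr : E n → E n → ℝ) (c0 : ℝ) (adm : E n → ℝ → Prop) : Prop where
  closed : ∀ c ρ, 0 < ρ → adm c ρ → ∀ k, k ≤ P.K → adm (c + ρ • ck n k) (ρ * rk k)
  lower : ∀ c ρ, 0 < ρ → adm c ρ → ∀ k, k ≤ P.K →
    ∀ x ∈ closedBall (c + ρ • ck n k) (ρ * rk k),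
    ∀ y ∈ closedBall c (ρ * (1 / 8 : ℝ) ^ (2 * P.K + 1)),
      c0 * (R n ^ k / ρ ^ n) ≤ Kr x y

theorem geom_le [NeZero n] (m : ℕ) : ∑ k ∈ Finset.range m, (R n ^ k)⁻¹ ≤ 8 / 7 := by
  have h := geom_R (n := n) m
  have hR := R_ge (n := n)
  have hR0 := R_pos (n := n)
  have e : ∑ k ∈ Finset.range m, (R n ^ k)⁻¹ = R n * ∑ k ∈ Finset.range m, (R n ^ (k + 1))⁻¹ := by
    rw [Finset.mul_sum]
    apply Finset.sum_congr rfl
    intro k _
    rw [pow_succ]
    field_simp
  rw [e]
  have h1 : 0 < (R n ^ m)⁻¹ := by positivity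
  have h2 : 0 ≤ ∑ k ∈ Finset.range m, (R n ^ (k + 1))⁻¹ :=
    Finset.sum_nonneg fun k _ => by positivity
  nlinarith

theorem bil_rec [NeZero n] (P : Par n) {T : L2 n →L[ℝ] L2 n} {Kr : E n → E n → ℝ} {CK c0 : ℝ}
    (hT : KerData T Kr CK) (hc0 : 0 < c0) {adm : E n → ℝ → Prop} (hadm : Adm P Kr c0 adm)
    (hs5 : 2 * (P.ε * R n ^ P.K) ^ 2 ≤ P.g) (J : ℕ) (c : E n) {ρ : ℝ} (hρ : 0 < ρ)
    (ha : adm c ρ) :
    ρ ^ n * P.Z c0 (‖T‖ + 4 * CK) J ≤ bil T (loc c ρ (P.gam J)) (loc c ρ (P.w J)) := by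
  have hR := R_pos (n := n)
  have hg := P.g_pos
  have hε := P.hε
  have h2n : (0 : ℝ) < 2 ^ n := by positivity
  induction J generalizing c ρ with
  | zero =>
    have e1 : loc c ρ (P.gam 0) = fun _ => 0 := by
      funext x
      unfold loc
      by_cases hx : x ∈ closedBall c ρ
      · rw [Set.indicator_of_mem hx]; rfl
      · rw [Set.indicator_of_notMem hx]
    rw [e1, bil_zero_left]
    simp [Par.Z]
  | succ J ih =>
    have hρn : 0 < ρ ^ n := by positivity
    set s := Finset.range (P.K + 1) with hs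
    set f0 : E n → ℝ := loc c ρ ((UK n P.K)ᶜ.indicator (P.G.indicator (fun _ => 1))) with hf0
    set u0 : E n → ℝ := loc c ρ ((UK n P.K)ᶜ.indicator P.b) with hu0
    set f : ℕ → E n → ℝ := fun k => loc (c + ρ • ck n k) (ρ * rk k) (P.gam J) with hf
    set u : ℕ → E n → ℝ := fun k => loc (c + ρ • ck n k) (ρ * rk k) (P.w J) with hu
    set v : ℕ → ℝ := fun k => P.W * R n ^ k with hv
    have hle : ∀ k ∈ s, k ≤ P.K := fun k hk => Nat.lt_succ_iff.mp (Finset.mem_range.mp hk)
    have hvpos : ∀ k, 0 < v k := fun k => lt_of_lt_of_le one_pos (P.one_le_Wk k)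
    have hρk : ∀ k, 0 < ρ * rk k := fun k => mul_pos hρ (rk_pos k)
    have ef : loc c ρ (P.gam (J + 1)) = fun x => f0 x + ∑ k ∈ s, f k x := by
      funext x
      rw [P.gam_succ, loc_glue _ _ c hρ x]
    have eu : loc c ρ (P.w (J + 1)) = fun x => u0 x + ∑ k ∈ s, v k * u k x := by
      funext x
      rw [P.w_succ, loc_glue _ _ c hρ x]
      congr 1
      apply Finset.sum_congr rfl
      intro k _
      exact loc_smul _ _ _ _ _
    have hng : Nice (P.G.indicator (fun _ => (1 : ℝ))) :=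
      (Nice.const _).indicator P.measurableSet_G
    have hnf0' : Nice ((UK n P.K)ᶜ.indicator (P.G.indicator (fun _ => (1 : ℝ)))) :=
      hng.indicator (measurableSet_UK P.K).compl
    have hnu0' : Nice ((UK n P.K)ᶜ.indicator P.b) :=
      P.nice_b.indicator (measurableSet_UK P.K).compl
    have hf0L : MemLp f0 2 volume := memLp_loc hnf0' c ρ
    have hu0L : MemLp u0 2 volume := memLp_loc hnu0' c ρ
    have hfL : ∀ k ∈ s, MemLp (f k) 2 volume := fun k _ => memLp_loc (P.nice_gam J) _ _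
    have huL : ∀ k ∈ s, MemLp (u k) 2 volume := fun k _ => memLp_loc (P.nice_w J) _ _
    -- integrals
    have If0 : ∫ x, f0 x = ρ ^ n * (2 ^ n * P.g) := by
      rw [hf0, integral_loc _ c hρ]
      congr 1
      have e1 : ∀ x ∈ closedBall (0 : E n) 1,
          (UK n P.K)ᶜ.indicator (P.G.indicator (fun _ => (1 : ℝ))) x =
          P.G.indicator (fun _ => (1 : ℝ)) x := by
        intro x _
        by_cases hxG : x ∈ P.G
        · rw [Set.indicator_of_mem (s := (UK n P.K)ᶜ)]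
          intro hcon
          obtain ⟨k, hk, hzk⟩ := mem_UK.mp hcon
          exact G_not_mem_F hk (P.mem_G.mp hxG) hzk
        · by_cases hxU : x ∈ (UK n P.K)ᶜ
          · rw [Set.indicator_of_mem hxU]
          · rw [Set.indicator_of_notMem hxU, Set.indicator_of_notMem hxG]
      rw [setIntegral_congr_fun measurableSet_closedBall e1]
      have hsub : P.G ⊆ closedBall (0 : E n) 1 := closedBall_subset_closedBall (e8_le_one _)
      rw [setIntegral_indicator P.measurableSet_G, Set.inter_eq_self_of_subset_right hsub,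
        setInt_const, P.vol_G, mul_one]
    have Iu : ∀ k, ∫ x, u k x = ρ ^ n * (R n ^ (2 * k + 1))⁻¹ * P.a J := by
      intro k
      rw [hu]
      simp only
      rw [integral_loc _ _ (hρk k), mul_pow, rk_pow]
      rfl
    have If : ∀ k, ∫ x, f k x ≤ ρ ^ n * (R n ^ (2 * k + 1))⁻¹ * (2 * P.g * 2 ^ n) := by
      intro k
      rw [hf]
      simp only
      rw [integral_loc _ _ (hρk k), mul_pow, rk_pow]
      exact mul_le_mul_of_nonneg_left (P.int_gam J) (by positivity)
    have If' : ∀ k, 0 ≤ ∫ x, f k x := fun k =>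
      integral_nonneg fun x => loc_nonneg (P.gam_nonneg J) _ _ x
    -- background part
    have hback : -(‖T‖ * (ρ ^ n * (2 ^ n * P.g))) ≤
        bil T (fun x => f0 x + ∑ k ∈ s, f k x) u0 := by
      rw [← ef]
      apply bil_cs T (memLp_loc (P.nice_gam (J + 1)) c ρ) hu0L (by positivity)
      have e1 : ∫ x, loc c ρ (P.gam (J + 1)) x ^ 2 ≤ ρ ^ n * (2 * P.g * 2 ^ n) := by
        have e2 : ∀ x, loc c ρ (P.gam (J + 1)) x ^ 2 = loc c ρ (P.gam (J + 1)) x := by
          intro x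
          unfold loc
          by_cases hx : x ∈ closedBall c ρ
          · rw [Set.indicator_of_mem hx]
            rcases P.gam_01 (J + 1) (ρ⁻¹ • (x - c)) with h | h <;> rw [h] <;> norm_num
          · rw [Set.indicator_of_notMem hx]; norm_num
        simp only [e2]
        rw [integral_loc _ c hρ]
        exact mul_le_mul_of_nonneg_left (P.int_gam (J + 1)) hρn.le
      have e3 : ∫ x, u0 x ^ 2 ≤ ρ ^ n * (2 ^ n * (P.ε * R n ^ P.K) ^ 2) := by
        have e4 : ∀ x, u0 x ^ 2 =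
            loc c ρ (fun z => (UK n P.K)ᶜ.indicator P.b z ^ 2) x := by
          intro x
          rw [hu0]
          unfold loc
          by_cases hx : x ∈ closedBall c ρ
          · rw [Set.indicator_of_mem hx, Set.indicator_of_mem hx]
          · rw [Set.indicator_of_notMem hx, Set.indicator_of_notMem hx]; norm_num
        simp only [e4]
        rw [integral_loc _ c hρ]
        apply mul_le_mul_of_nonneg_left _ hρn.le
        have e5 : ∫ z in closedBall (0 : E n) 1, (UK n P.K)ᶜ.indicator P.b z ^ 2 ≤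
            ∫ _z in closedBall (0 : E n) 1, (P.ε * R n ^ P.K) ^ 2 := by
          apply setIntegral_mono_on
          · have := (hnu0'.mul hnu0').integrableOn (vol_ball_ne_top (0 : E n) 1)
            simpa [sq] using this
          · exact (Nice.const _).integrableOn (vol_ball_ne_top _ _)
          · exact measurableSet_closedBall
          · intro x _
            have h0 : 0 ≤ P.b x := P.wG_pos.le.trans (P.wG_le_b x)
            by_cases hxU : x ∈ (UK n P.K)ᶜ
            · rw [Set.indicator_of_mem hxU]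
              exact pow_le_pow_left₀ h0 (P.b_le x) 2
            · rw [Set.indicator_of_notMem hxU]
              have : 0 ≤ (P.ε * R n ^ P.K) ^ 2 := by positivity
              simpa using this
        rw [setInt_const, vol_B] at e5
        exact e5
      have h0 : 0 ≤ ∫ x, loc c ρ (P.gam (J + 1)) x ^ 2 := integral_nonneg fun x => sq_nonneg _
      calc (∫ x, loc c ρ (P.gam (J + 1)) x ^ 2) * (∫ x, u0 x ^ 2)
          ≤ (ρ ^ n * (2 * P.g * 2 ^ n)) * (ρ ^ n * (2 ^ n * (P.ε * R n ^ P.K) ^ 2)) :=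
            mul_le_mul e1 e3 (integral_nonneg fun x => sq_nonneg _) (by positivity)
        _ = (ρ ^ n * 2 ^ n) ^ 2 * P.g * (2 * (P.ε * R n ^ P.K) ^ 2) := by ring
        _ ≤ (ρ ^ n * 2 ^ n) ^ 2 * P.g * P.g := mul_le_mul_of_nonneg_left hs5 (by positivity)
        _ = _ := by ring
    -- main terms
    have hmain : ∀ k ∈ s, ρ ^ n * (2 ^ n * P.g) * (c0 / 2 * P.a J) ≤ v k * bil T f0 (u k) := by
      intro k hk
      have hkK := hle k hk
      have hb := bil_lower hT (f := f0) (u := u k) (nice_loc hnf0' c ρ) (nice_loc (P.nice_w J) _ _)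
        (c1 := c) (ρ1 := ρ * (1 / 8 : ℝ) ^ (2 * P.K + 1)) (c2 := c + ρ • ck n k)
        (ρ2 := ρ * rk k) (d := ρ * (1 / 8 * (1 / 8) ^ k)) (κ := c0 * (R n ^ k / ρ ^ n))
        (fun x hx => by rw [hf0, loc_G P c hρ, Set.indicator_of_notMem hx])
        (fun x hx => loc_zero_off hx)
        (fun x => by
          rw [hf0, loc_G P c hρ]
          exact Set.indicator_nonneg (fun _ _ => zero_le_one) x)
        (fun x => loc_nonneg (fun z => (P.w_pos J z).le) _ _ x)
        (by positivity)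
        (by
          intro x hx y hy
          have hx1 : ρ⁻¹ • (x - c) ∈ Fk n k := (mem_ball_scale c (ck n k) x hρ (rk k)).mp hx
          have hy1 : ρ⁻¹ • (y - c) ∈ closedBall (0 : E n) ((1 / 8 : ℝ) ^ (2 * P.K + 1)) := by
            have := mem_ball_scale c 0 y hρ ((1 / 8 : ℝ) ^ (2 * P.K + 1))
            rw [smul_zero, add_zero] at this
            exact this.mp hy
          have e : ‖x - y‖ = ρ * ‖ρ⁻¹ • (x - c) - ρ⁻¹ • (y - c)‖ := by
            rw [← smul_sub, norm_smul, Real.norm_of_nonneg (by positivity),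
              sub_sub_sub_cancel_right, ← mul_assoc, mul_inv_cancel₀ hρ.ne', one_mul]
          rw [e]
          apply mul_le_mul_of_nonneg_left _ hρ.le
          rw [mem_closedBall, dist_zero_right] at hy1
          have h1 := (norm_mem_Fk hx1).1
          have h2 : (1 / 8 : ℝ) ^ (2 * P.K + 1) ≤ (1 / 8) ^ k / 8 := e8_succ_le (by omega)
          have h3 := norm_sub_norm_le (ρ⁻¹ • (x - c)) (ρ⁻¹ • (y - c))
          have := e8_pos k
          linarith)
        (fun x hx y hy => hadm.lower c ρ hρ ha k hkK x hx y hy)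
      rw [If0, Iu] at hb
      have h1 : v k * (c0 * (R n ^ k / ρ ^ n) * (ρ ^ n * (2 ^ n * P.g)) *
          (ρ ^ n * (R n ^ (2 * k + 1))⁻¹ * P.a J)) ≤ v k * bil T f0 (u k) :=
        mul_le_mul_of_nonneg_left hb (hvpos k).le
      refine le_trans ?_ h1
      have e1 : v k * (c0 * (R n ^ k / ρ ^ n) * (ρ ^ n * (2 ^ n * P.g)) *
          (ρ ^ n * (R n ^ (2 * k + 1))⁻¹ * P.a J)) =
          (P.W / R n) * (c0 * (ρ ^ n * (2 ^ n * P.g)) * P.a J) := by
        have e2 : R n ^ (2 * k + 1) = R n ^ k * R n ^ k * R n := by ring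
        rw [hv]
        simp only
        rw [e2]
        field_simp
      rw [e1]
      have hW : 1 / 2 ≤ P.W / R n := by
        rw [le_div_iff₀ hR]
        have := P.W_ge
        linarith
      have h3 : 0 ≤ c0 * (ρ ^ n * (2 ^ n * P.g)) * P.a J := by
        have := P.a_nonneg J
        positivity
      calc ρ ^ n * (2 ^ n * P.g) * (c0 / 2 * P.a J) =
            1 / 2 * (c0 * (ρ ^ n * (2 ^ n * P.g)) * P.a J) := by ring
        _ ≤ _ := mul_le_mul_of_nonneg_right hW h3
    -- diagonal terms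
    have hdiag : ∀ k ∈ s, v k * ((ρ * rk k) ^ n * P.Z c0 (‖T‖ + 4 * CK) J) ≤
        v k * bil T (f k) (u k) := by
      intro k hk
      apply mul_le_mul_of_nonneg_left _ (hvpos k).le
      exact ih (c + ρ • ck n k) (hρk k) (hadm.closed c ρ hρ ha k (hle k hk))
    -- cross terms
    have hcross : ∀ k ∈ s, ∀ i ∈ s, i ≠ k →
        -(ρ ^ n * (2 ^ n * P.g) * (2 * CK) * ((R n ^ i)⁻¹ * (R n ^ k)⁻¹)) ≤
          v k * bil T (f i) (u k) := by
      intro k hk i hi hik
      have hCK := hT.nonneg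
      set m := min i k with hm
      have hd : 0 < ρ * (1 / 4 * (1 / 8 : ℝ) ^ m) := by positivity
      have hb := bil_lower hT (f := f i) (u := u k) (nice_loc (P.nice_gam J) _ _)
        (nice_loc (P.nice_w J) _ _)
        (c1 := c + ρ • ck n i) (ρ1 := ρ * rk i) (c2 := c + ρ • ck n k)
        (ρ2 := ρ * rk k) (d := ρ * (1 / 4 * (1 / 8) ^ m))
        (κ := -(CK / (ρ * (1 / 4 * (1 / 8 : ℝ) ^ m)) ^ n))
        (fun x hx => loc_zero_off hx)
        (fun x hx => loc_zero_off hx)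
        (fun x => loc_nonneg (P.gam_nonneg J) _ _ x)
        (fun x => loc_nonneg (fun z => (P.w_pos J z).le) _ _ x)
        hd
        (fun x hx y hy => sep_Fk hik c hρ hx hy)
        (by
          intro x hx y hy
          have h1 := sep_Fk hik c hρ hx hy
          have hne : x ≠ y := by
            intro h
            rw [h, sub_self, norm_zero] at h1
            linarith
          have h2 := hT.size x y hne
          have h3 : CK / ‖x - y‖ ^ n ≤ CK / (ρ * (1 / 4 * (1 / 8 : ℝ) ^ m)) ^ n := by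
            apply div_le_div_of_nonneg_left hT.nonneg (by positivity)
            exact pow_le_pow_left₀ hd.le h1 n
          have := neg_abs_le (Kr x y)
          linarith)
      have h1 := mul_le_mul_of_nonneg_left hb (hvpos k).le
      refine le_trans ?_ h1
      have h2 : (∫ x, f i x) * (∫ x, u k x) ≤
          (ρ ^ n * (R n ^ (2 * i + 1))⁻¹ * (2 * P.g * 2 ^ n)) *
          (ρ ^ n * (R n ^ (2 * k + 1))⁻¹ * 2 ^ n) := by
        rw [Iu]
        apply mul_le_mul (If i) _ _ (by positivity)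
        · exact mul_le_mul_of_nonneg_left (P.a_le J) (by positivity)
        · have := P.a_nonneg J
          positivity
      have h3 : v k * (CK / (ρ * (1 / 4 * (1 / 8 : ℝ) ^ m)) ^ n) *
          ((∫ x, f i x) * (∫ x, u k x)) ≤
          ρ ^ n * (2 ^ n * P.g) * (2 * CK) * ((R n ^ i)⁻¹ * (R n ^ k)⁻¹) := by
        have hvk : 0 ≤ v k * (CK / (ρ * (1 / 4 * (1 / 8 : ℝ) ^ m)) ^ n) := by
          have := hvpos k
          positivity
        refine (mul_le_mul_of_nonneg_left h2 hvk).trans ?_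
        have e1 : (ρ * (1 / 4 * (1 / 8 : ℝ) ^ m)) ^ n = ρ ^ n * ((4 ^ n)⁻¹ * (R n ^ m)⁻¹) := by
          rw [mul_pow, mul_pow, e8_pow, one_div, inv_pow]
        have e2 : (8 : ℝ) ^ n = 4 ^ n * 2 ^ n := by rw [← mul_pow]; norm_num
        have hW := P.W_le
        have hRm : R n ^ m ≤ R n ^ i := pow_le_pow_right₀ R_ge_one (min_le_left _ _)
        have hWm : P.W * R n ^ m ≤ R n * R n ^ i :=
          mul_le_mul hW hRm (by positivity) hR.le
        rw [e1]
        have e3 : v k * (CK / (ρ ^ n * ((4 ^ n)⁻¹ * (R n ^ m)⁻¹))) *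
            (ρ ^ n * (R n ^ (2 * i + 1))⁻¹ * (2 * P.g * 2 ^ n) *
            (ρ ^ n * (R n ^ (2 * k + 1))⁻¹ * 2 ^ n)) =
            (P.W * R n ^ m) * (ρ ^ n * (2 ^ n * P.g) * (2 * CK) * (4 ^ n * 2 ^ n) *
              ((R n ^ (2 * i + 1))⁻¹ * (R n ^ (k + 1))⁻¹)) := by
          have e4 : R n ^ (2 * k + 1) = R n ^ k * R n ^ (k + 1) := by
            rw [← pow_add]; congr 1; omega
          rw [hv]
          simp only
          rw [e4]
          field_simp
        rw [e3]
        calc (P.W * R n ^ m) * (ρ ^ n * (2 ^ n * P.g) * (2 * CK) * (4 ^ n * 2 ^ n) *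
              ((R n ^ (2 * i + 1))⁻¹ * (R n ^ (k + 1))⁻¹))
            ≤ (R n * R n ^ i) * (ρ ^ n * (2 ^ n * P.g) * (2 * CK) * (4 ^ n * 2 ^ n) *
              ((R n ^ (2 * i + 1))⁻¹ * (R n ^ (k + 1))⁻¹)) :=
              mul_le_mul_of_nonneg_right hWm (by positivity)
          _ = ρ ^ n * (2 ^ n * P.g) * (2 * CK) * ((R n ^ i)⁻¹ * (R n ^ k)⁻¹) := by
              rw [← e2]
              have e5 : R n ^ (2 * i + 1) = R n ^ i * R n ^ i * R n := by ring
              have e6 : R n ^ (k + 1) = R n ^ k * R n := by ring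
              have e7 : (8 : ℝ) ^ n = R n := rfl
              rw [e5, e6, e7]
              field_simp
      have e8 : v k * (-(CK / (ρ * (1 / 4 * (1 / 8 : ℝ) ^ m)) ^ n) * (∫ x, f i x) *
          (∫ x, u k x)) = -(v k * (CK / (ρ * (1 / 4 * (1 / 8 : ℝ) ^ m)) ^ n) *
          ((∫ x, f i x) * (∫ x, u k x))) := by ring
      rw [e8]
      linarith
    -- collect
    rw [ef, eu, bil_expand hf0L hu0L hfL huL]
    have hsum : ∑ k ∈ s, (ρ ^ n * (2 ^ n * P.g) * (c0 / 2 * P.a J) +
        (v k * ((ρ * rk k) ^ n * P.Z c0 (‖T‖ + 4 * CK) J) -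
          ρ ^ n * (2 ^ n * P.g) * (2 * CK) * ((R n ^ k)⁻¹ * (8 / 7)))) ≤
        ∑ k ∈ s, (v k * bil T f0 (u k) + ∑ i ∈ s, v k * bil T (f i) (u k)) := by
      apply Finset.sum_le_sum
      intro k hk
      apply add_le_add (hmain k hk)
      rw [← Finset.add_sum_erase _ _ hk, sub_eq_add_neg]
      apply add_le_add (hdiag k hk)
      have hCK := hT.nonneg
      calc -(ρ ^ n * (2 ^ n * P.g) * (2 * CK) * ((R n ^ k)⁻¹ * (8 / 7)))
          ≤ -(ρ ^ n * (2 ^ n * P.g) * (2 * CK) * ((R n ^ k)⁻¹ * ∑ i ∈ s, (R n ^ i)⁻¹)) := by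
            apply neg_le_neg
            apply mul_le_mul_of_nonneg_left _ (by positivity)
            exact mul_le_mul_of_nonneg_left (geom_le _) (by positivity)
        _ ≤ -(ρ ^ n * (2 ^ n * P.g) * (2 * CK) * ((R n ^ k)⁻¹ * ∑ i ∈ s.erase k, (R n ^ i)⁻¹)) := by
            apply neg_le_neg
            apply mul_le_mul_of_nonneg_left _ (by positivity)
            apply mul_le_mul_of_nonneg_left _ (by positivity)
            apply Finset.sum_le_sum_of_subset_of_nonneg (Finset.erase_subset _ _)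
            intro i _ _
            positivity
        _ = ∑ i ∈ s.erase k,
            -(ρ ^ n * (2 ^ n * P.g) * (2 * CK) * ((R n ^ i)⁻¹ * (R n ^ k)⁻¹)) := by
            rw [Finset.mul_sum, Finset.mul_sum, ← Finset.sum_neg_distrib]
            apply Finset.sum_congr rfl
            intro i _
            ring
        _ ≤ _ := by
            apply Finset.sum_le_sum
            intro i hi
            exact hcross k hk i (Finset.mem_of_mem_erase hi) (Finset.ne_of_mem_erase hi)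
    have hval : ∑ k ∈ s, (ρ ^ n * (2 ^ n * P.g) * (c0 / 2 * P.a J) +
        (v k * ((ρ * rk k) ^ n * P.Z c0 (‖T‖ + 4 * CK) J) -
          ρ ^ n * (2 ^ n * P.g) * (2 * CK) * ((R n ^ k)⁻¹ * (8 / 7)))) =
        (P.K + 1) * (ρ ^ n * (2 ^ n * P.g) * (c0 / 2 * P.a J)) +
        (ρ ^ n * ((1 - P.δ) * P.Z c0 (‖T‖ + 4 * CK) J) -
          ρ ^ n * (2 ^ n * P.g) * (2 * CK) * (8 / 7) * ∑ k ∈ s, (R n ^ k)⁻¹) := by
      rw [Finset.sum_add_distrib, Finset.sum_sub_distrib, Finset.sum_const, hs, Finset.card_range,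
        nsmul_eq_mul]
      push_cast
      congr 1
      congr 1
      · rw [← P.sum_mass, Finset.mul_sum]
        apply Finset.sum_congr rfl
        intro k _
        rw [mul_pow, hv]
        ring
      · rw [Finset.mul_sum]
        apply Finset.sum_congr rfl
        intro k _
        ring
    have hgeo : ρ ^ n * (2 ^ n * P.g) * (2 * CK) * (8 / 7) * ∑ k ∈ s, (R n ^ k)⁻¹ ≤
        ρ ^ n * (2 ^ n * P.g) * (4 * CK) := by
      have hCK := hT.nonneg
      have h1 : ρ ^ n * (2 ^ n * P.g) * (2 * CK) * (8 / 7) * ∑ k ∈ s, (R n ^ k)⁻¹ ≤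
          ρ ^ n * (2 ^ n * P.g) * (2 * CK) * (8 / 7) * (8 / 7) :=
        mul_le_mul_of_nonneg_left (geom_le _) (by positivity)
      have h2 : 0 ≤ ρ ^ n * (2 ^ n * P.g) * CK := by positivity
      linarith
    rw [hval] at hsum
    show ρ ^ n * ((1 - P.δ) * P.Z c0 (‖T‖ + 4 * CK) J +
      2 ^ n * P.g * (c0 / 2 * (P.K + 1) * P.a J - (‖T‖ + 4 * CK))) ≤ _
    have e9 : ρ ^ n * ((1 - P.δ) * P.Z c0 (‖T‖ + 4 * CK) J +
      2 ^ n * P.g * (c0 / 2 * (P.K + 1) * P.a J - (‖T‖ + 4 * CK))) =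
      -(‖T‖ * (ρ ^ n * (2 ^ n * P.g))) + ((P.K + 1) * (ρ ^ n * (2 ^ n * P.g) * (c0 / 2 * P.a J)) +
        (ρ ^ n * ((1 - P.δ) * P.Z c0 (‖T‖ + 4 * CK) J) -
          ρ ^ n * (2 ^ n * P.g) * (4 * CK))) := by ring
    rw [e9]
    linarith

end Pool.Agent.Helper51
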