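import Pool.Agent.Helper51.CZGlue

open MeasureTheory Metric Set

namespace Pool.Agent.Helper51

variable {n : ℕ}

/-- `R = 8^n` -/
noncomputable def R (n : ℕ) : ℝ := (8 : ℝ) ^ n

theorem R_ge [NeZero n] : 8 ≤ R n := by
  unfold R
  calc (8 : ℝ) = 8 ^ 1 := by norm_num
    _ ≤ 8 ^ n := pow_le_pow_right₀ (by norm_num) (NeZero.one_le)

theorem R_pos : 0 < R n := by unfold R; positivity

theorem R_ge_one : 1 ≤ R n := by
  unfold R
  exact one_le_pow₀ (by norm_num)

theorem one_le_R_pow (k : ℕ) : 1 ≤ R n ^ k := one_le_pow₀ R_ge_one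

theorem e8_pow (m : ℕ) : ((1 / 8 : ℝ) ^ m) ^ n = (R n ^ m)⁻¹ := by
  unfold R
  rw [← pow_mul, ← pow_mul, mul_comm m n, one_div, inv_pow]

theorem rk_pow (k : ℕ) : rk k ^ n = (R n ^ (2 * k + 1))⁻¹ := by
  unfold rk
  exact e8_pow _

theorem vol_D (c : E n) (m : ℕ) :
    volume.real (closedBall c ((1 / 8 : ℝ) ^ m)) = 2 ^ n * (R n ^ m)⁻¹ := by
  rw [vol_ball _ (by positivity), mul_pow, e8_pow]

theorem vol_B (c : E n) : volume.real (closedBall c (1 : ℝ)) = 2 ^ n := by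
  rw [vol_ball _ (by positivity), mul_one]

/-- parameters of the construction -/
structure Par (n : ℕ) where
  K : ℕ
  p : ℝ
  ε : ℝ
  hp : 1 < p
  hε : 0 < ε
  hε1 : ((K : ℝ) + 1) * ε ≤ 1 / 4
  hε2 : ((K : ℝ) + 1) * ε ≤ (R n ^ K)⁻¹

variable (P : Par n)

namespace Par

/-- `q = 1/(p-1) = p'-1` -/
noncomputable def q : ℝ := 1 / (P.p - 1)

theorem q_pos : 0 < P.q := by
  have := P.hp
  unfold q
  apply one_div_pos.mpr
  linarith

theorem q_mul : P.q * (P.p - 1) = 1 := by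
  have := P.hp
  unfold q
  field_simp
  rw [div_self (by linarith)]

/-- the total geometric mass -/
noncomputable def S : ℝ := ∑ k ∈ Finset.range (P.K + 1), (R n ^ (k + 1))⁻¹

/-- loss per generation -/
noncomputable def δ : ℝ := ((P.K : ℝ) + 1) * P.ε

/-- amplitude growth -/
noncomputable def W : ℝ := (1 - P.δ) / P.S

/-- relative volume of `G` -/
noncomputable def g : ℝ := (R n ^ (2 * P.K + 1))⁻¹

/-- value of the weight on `G` -/
noncomputable def wG : ℝ := P.ε * P.g ^ (P.p - 1)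

end Par

theorem geom_R [NeZero n] (m : ℕ) :
    (R n - 1) * ∑ k ∈ Finset.range m, (R n ^ (k + 1))⁻¹ = 1 - (R n ^ m)⁻¹ := by
  have hR := R_pos (n := n)
  induction m with
  | zero => simp
  | succ m ih =>
    rw [Finset.sum_range_succ, mul_add, ih, pow_succ]
    field_simp
    ring

namespace Par

theorem S_ge : (R n)⁻¹ ≤ P.S := by
  unfold S
  have h : (R n ^ (0 + 1))⁻¹ ≤ ∑ k ∈ Finset.range (P.K + 1), (R n ^ (k + 1))⁻¹ :=
    Finset.single_le_sum (f := fun k => (R n ^ (k + 1))⁻¹)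
      (fun k _ => by have := R_pos (n := n); positivity) (Finset.mem_range.mpr (Nat.succ_pos _))
  simpa using h

theorem S_pos : 0 < P.S := lt_of_lt_of_le (inv_pos.mpr R_pos) P.S_ge

theorem S_le [NeZero n] : P.S ≤ 8 / 7 * (R n)⁻¹ := by
  have h := geom_R (n := n) (P.K + 1)
  have hR := R_ge (n := n)
  have h1 : 0 < (R n ^ (P.K + 1))⁻¹ := by have := R_pos (n := n); positivity
  have h2 : (R n - 1) * P.S ≤ 1 := by
    unfold S
    rw [h]
    linarith
  have h3 : 7 / 8 * R n * P.S ≤ 1 := by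
    have : 7 / 8 * R n * P.S ≤ (R n - 1) * P.S :=
      mul_le_mul_of_nonneg_right (by linarith) P.S_pos.le
    linarith
  have hR0 := R_pos (n := n)
  rw [← div_eq_mul_inv, le_div_iff₀ hR0]
  linarith

theorem δ_nonneg : 0 ≤ P.δ := by
  unfold δ
  have := P.hε
  positivity

theorem δ_pos : 0 < P.δ := by
  unfold δ
  have := P.hε
  positivity

theorem δ_le : P.δ ≤ 1 / 4 := P.hε1

theorem ε_le_δ : P.ε ≤ P.δ := by
  unfold δ
  have := P.hε
  nlinarith [(Nat.cast_nonneg P.K : (0 : ℝ) ≤ P.K)]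

theorem ε_le : P.ε ≤ 1 / 4 := P.ε_le_δ.trans P.δ_le

theorem W_mul_S : P.W * P.S = 1 - P.δ := by
  unfold W
  exact div_mul_cancel₀ _ P.S_pos.ne'

theorem W_le : P.W ≤ R n := by
  have h1 := P.S_ge
  have h2 := P.δ_nonneg
  have hR := R_pos (n := n)
  unfold W
  rw [div_le_iff₀ P.S_pos]
  have : R n * (R n)⁻¹ ≤ R n * P.S := mul_le_mul_of_nonneg_left h1 hR.le
  rw [mul_inv_cancel₀ hR.ne'] at this
  linarith

theorem W_ge [NeZero n] : R n / 2 ≤ P.W := by
  have h1 := P.S_le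
  have h2 := P.δ_le
  have hR := R_pos (n := n)
  unfold W
  rw [le_div_iff₀ P.S_pos]
  have : R n * P.S ≤ R n * (8 / 7 * (R n)⁻¹) := mul_le_mul_of_nonneg_left h1 hR.le
  have h3 : R n * (8 / 7 * (R n)⁻¹) = 8 / 7 := by field_simp
  rw [h3] at this
  linarith

theorem one_le_W [NeZero n] : 1 ≤ P.W := by
  have := P.W_ge
  have := R_ge (n := n)
  linarith

theorem W_pos [NeZero n] : 0 < P.W := lt_of_lt_of_le one_pos P.one_le_W

theorem g_pos : 0 < P.g := by
  unfold g
  have := R_pos (n := n)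
  positivity

theorem g_le_one : P.g ≤ 1 := by
  unfold g
  exact inv_le_one_of_one_le₀ (one_le_R_pow _)

theorem wG_pos : 0 < P.wG := mul_pos P.hε (Real.rpow_pos_of_pos P.g_pos _)

theorem wG_le : P.wG ≤ P.ε := by
  unfold wG
  have := P.hp
  have h : P.g ^ (P.p - 1) ≤ 1 := Real.rpow_le_one P.g_pos.le P.g_le_one (by linarith)
  have := P.hε
  nlinarith

/-- the number of the annulus containing `x` -/
noncomputable def κ (x : E n) : ℕ := by
  classical exact Nat.findGreatest (fun k => ‖x‖ ≤ (1 / 8 : ℝ) ^ k) P.K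

theorem le_κ {k : ℕ} (hk : k ≤ P.K) {x : E n} (hx : ‖x‖ ≤ (1 / 8 : ℝ) ^ k) : k ≤ P.κ x := by
  classical
  unfold κ
  have := Nat.le_findGreatest (P := fun k => ‖x‖ ≤ (1 / 8 : ℝ) ^ k) hk hx
  convert this

theorem κ_le (x : E n) : P.κ x ≤ P.K := by
  classical
  unfold κ
  convert Nat.findGreatest_le P.K

theorem κ_spec {x : E n} (hx : ‖x‖ ≤ 1) : ‖x‖ ≤ (1 / 8 : ℝ) ^ P.κ x := by
  classical
  unfold κ
  have := Nat.findGreatest_spec (P := fun k => ‖x‖ ≤ (1 / 8 : ℝ) ^ k) (Nat.zero_le P.K)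
    (by simpa using hx)
  convert this

theorem κ_lt {k : ℕ} {x : E n} (hx : (1 / 8 : ℝ) ^ (k + 1) < ‖x‖) : P.κ x ≤ k := by
  by_cases h1 : ‖x‖ ≤ 1
  · have h := P.κ_spec h1
    by_contra hcon
    push Not at hcon
    have := e8_le (show k + 1 ≤ P.κ x from hcon)
    linarith
  · classical
    have : P.κ x = 0 := by
      unfold κ
      rw [Nat.findGreatest_eq_zero_iff]
      intro m _ _ h
      have := e8_le_one m
      linarith
    omega

theorem κ_measurable : Measurable P.κ := by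
  classical
  have : P.κ = fun x : E n => Nat.findGreatest (fun k => ‖x‖ ≤ (1 / 8 : ℝ) ^ k) P.K := by
    funext x
    unfold κ
    convert rfl
  rw [this]
  apply measurable_findGreatest
  intro k _
  exact measurableSet_le measurable_norm measurable_const

open Classical in
/-- background weight -/
noncomputable def b (x : E n) : ℝ :=
  if ‖x‖ ≤ (1 / 8 : ℝ) ^ (2 * P.K + 1) then P.wG else P.ε * R n ^ P.κ x

theorem b_G {x : E n} (hx : ‖x‖ ≤ (1 / 8 : ℝ) ^ (2 * P.K + 1)) : P.b x = P.wG := by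
  unfold b
  rw [if_pos hx]

theorem b_not_G {x : E n} (hx : (1 / 8 : ℝ) ^ (2 * P.K + 1) < ‖x‖) :
    P.b x = P.ε * R n ^ P.κ x := by
  unfold b
  rw [if_neg (not_le.mpr hx)]

theorem ε_le_κ (x : E n) : P.ε ≤ P.ε * R n ^ P.κ x :=
  le_mul_of_one_le_right P.hε.le (one_le_R_pow _)

theorem wG_le_b (x : E n) : P.wG ≤ P.b x := by
  by_cases hx : ‖x‖ ≤ (1 / 8 : ℝ) ^ (2 * P.K + 1)
  · rw [P.b_G hx]
  · rw [P.b_not_G (not_le.mp hx)]
    exact P.wG_le.trans (P.ε_le_κ x)

theorem b_le (x : E n) : P.b x ≤ P.ε * R n ^ P.K := by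
  have hK : P.ε ≤ P.ε * R n ^ P.K := le_mul_of_one_le_right P.hε.le (one_le_R_pow _)
  by_cases hx : ‖x‖ ≤ (1 / 8 : ℝ) ^ (2 * P.K + 1)
  · rw [P.b_G hx]
    exact P.wG_le.trans hK
  · rw [P.b_not_G (not_le.mp hx)]
    exact mul_le_mul_of_nonneg_left (pow_le_pow_right₀ R_ge_one (P.κ_le x)) P.hε.le

theorem nice_b : Nice P.b := by
  classical
  refine ⟨?_, P.ε * R n ^ P.K, fun x => ?_⟩
  · unfold b
    apply Measurable.ite (measurableSet_le measurable_norm measurable_const) measurable_const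
    apply Measurable.const_mul
    exact (measurable_of_countable (fun k : ℕ => R n ^ k)).comp P.κ_measurable
  · rw [abs_of_nonneg (P.wG_pos.le.trans (P.wG_le_b x))]
    exact P.b_le x

/-- the weights -/
noncomputable def w : ℕ → E n → ℝ
  | 0 => fun _ => P.ε
  | (J + 1) => glue P.K P.b (fun k z => P.W * R n ^ k * w J z)

theorem w_succ (J : ℕ) : P.w (J + 1) = glue P.K P.b (fun k z => P.W * R n ^ k * P.w J z) := rfl

theorem one_le_Wk [NeZero n] (k : ℕ) : 1 ≤ P.W * R n ^ k :=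
  one_le_mul_of_one_le_of_one_le P.one_le_W (one_le_R_pow k)

theorem wG_le_w [NeZero n] (J : ℕ) (x : E n) : P.wG ≤ P.w J x := by
  induction J generalizing x with
  | zero => exact P.wG_le
  | succ J ih =>
    rw [w_succ]
    by_cases h : ∃ k, k ≤ P.K ∧ x ∈ Fk n k
    · obtain ⟨k, hk, hx⟩ := h
      rw [glue_of_mem hk _ _ hx]
      calc P.wG ≤ P.w J (Sk k x) := ih _
        _ ≤ P.W * R n ^ k * P.w J (Sk k x) :=
          le_mul_of_one_le_left (P.wG_pos.le.trans (ih _)) (P.one_le_Wk k)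
    · push Not at h
      rw [glue_of_not _ _ h]
      exact P.wG_le_b x

theorem w_pos [NeZero n] (J : ℕ) (x : E n) : 0 < P.w J x := P.wG_pos.trans_le (P.wG_le_w J x)

theorem nice_w [NeZero n] (J : ℕ) : Nice (P.w J) := by
  induction J with
  | zero => exact Nice.const _
  | succ J ih =>
    rw [w_succ]
    exact Nice.glue P.nice_b fun k _ => (Nice.const (P.W * R n ^ k)).mul ih

theorem w_out [NeZero n] (J : ℕ) {x : E n} (hx : 3 / 4 < ‖x‖) : P.w J x = P.ε := by
  cases J with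
  | zero => rfl
  | succ J =>
    have h : ∀ k, k ≤ P.K → x ∉ Fk n k := by
      intro k _ hk
      have h1 := Fk_mem_D (Nat.zero_le k) hk
      rw [pow_zero] at h1
      linarith
    rw [w_succ, glue_of_not _ _ h, P.b_not_G, Nat.le_zero.mp (P.κ_lt (k := 0) _)]
    · simp
    · rw [zero_add, pow_one]
      linarith
    · have := e8_le (show 1 ≤ 2 * P.K + 1 by omega)
      rw [pow_one] at this
      linarith

end Par

end Pool.Agent.Helper51
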