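import Mathlib
import Pool.Agent.Helper51.MoCore
open Filter Topology Finset

/-! Lower bound for the decorrelation of a slowly varying sign pattern (module M4). -/

namespace Pool.Agent.Helper51.Mo

/-! ### sums of periodic functions over one period -/

theorem slow_shift {ℓ : ℕ} {u : ℕ → ℕ} (hu : ∀ n, u (n + ℓ) = u n) (c : ℕ) :
    ∑ n ∈ range ℓ, u (n + c) = ∑ n ∈ range ℓ, u n := by
  induction c with
  | zero => rfl
  | succ c ih =>
    rw [← ih]
    have h1 := sum_range_succ' (fun n => u (n + c)) ℓ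
    have h2 := sum_range_succ (fun n => u (n + c)) ℓ
    rw [h1] at h2
    have h3 : u (ℓ + c) = u (0 + c) := by
      rw [Nat.add_comm ℓ c, hu, Nat.zero_add]
    have h4 : ∑ n ∈ range ℓ, u (n + (c + 1)) = ∑ n ∈ range ℓ, u (n + 1 + c) := by
      apply sum_congr rfl
      intro n _
      congr 1
      ring
    rw [h4]
    omega

theorem slow_blocks (f : ℕ → ℕ) (q M : ℕ) :
    ∑ m ∈ range M, ∑ t ∈ range q, f (q * m + t) = ∑ n ∈ range (q * M), f n := by
  induction M with
  | zero => simp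
  | succ M ih => rw [sum_range_succ, ih, Nat.mul_succ, sum_range_add]

theorem slow_prog {ℓ : ℕ} {u : ℕ → ℕ} (hu : ∀ n, u (n + ℓ) = u n) (q c : ℕ) :
    ∑ m ∈ range ℓ, ∑ t ∈ range q, u (q * m + t + c) = q * ∑ n ∈ range ℓ, u n := by
  rw [slow_blocks (fun n => u (n + c)) q ℓ, Nat.mul_comm, ← slow_blocks (fun n => u (n + c)) ℓ q]
  have hper : ∀ m n, u (ℓ * m + n) = u n := by
    intro m
    induction m with
    | zero => intro n; rw [Nat.mul_zero, Nat.zero_add]
    | succ m ih =>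
      intro n
      rw [show ℓ * (m + 1) + n = (ℓ * m + n) + ℓ by ring, hu, ih]
  have h1 : ∀ m ∈ range q, ∑ t ∈ range ℓ, u (ℓ * m + t + c) = ∑ n ∈ range ℓ, u n := by
    intro m _
    rw [← slow_shift hu c]
    apply sum_congr rfl
    intro t _
    rw [Nat.add_assoc, hper]
  rw [sum_congr rfl h1, sum_const, card_range, smul_eq_mul]

/-- failure of `θ (x + c) = σ θ x` -/
noncomputable def ebad (θ : ℕ → ℝ) (c : ℕ) (σ : ℝ) (x : ℕ) : ℕ :=
  if θ (x + c) ≠ σ * θ x then 1 else 0

section slow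
variable {θ : ℕ → ℝ} {τ : ℝ} {ℓ : ℕ}

theorem ebad_zero {c : ℕ} {σ : ℝ} {x : ℕ} (h : θ (x + c) = σ * θ x) : ebad θ c σ x = 0 := by
  unfold ebad; rw [if_neg (not_not.2 h)]

theorem ebad_pos {c : ℕ} {σ : ℝ} {x : ℕ} (h : θ (x + c) ≠ σ * θ x) : ebad θ c σ x = 1 := by
  unfold ebad; rw [if_pos h]

theorem ebad_le_one (c : ℕ) (σ : ℝ) (x : ℕ) : ebad θ c σ x ≤ 1 := by
  unfold ebad; split_ifs <;> omega

theorem ebad_periodic (hτ : PM τ) (hper : ∀ n, θ (n + ℓ) = τ * θ n) (c : ℕ) (σ : ℝ) (x : ℕ) :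
    ebad θ c σ (x + ℓ) = ebad θ c σ x := by
  have h1 : θ (x + ℓ + c) = τ * θ (x + c) := by
    rw [show x + ℓ + c = x + c + ℓ by ring, hper]
  have h2 : θ (x + ℓ) = τ * θ x := hper x
  by_cases h : θ (x + c) = σ * θ x
  · rw [ebad_zero h, ebad_zero]
    rw [h1, h2, h]; ring
  · rw [ebad_pos h, ebad_pos]
    intro h3
    apply h
    rw [h1, h2] at h3
    have h4 := hτ.sq
    calc θ (x + c) = (τ * τ) * θ (x + c) := by rw [h4, one_mul]
      _ = τ * (τ * θ (x + c)) := by ring
      _ = τ * (σ * (τ * θ x)) := by rw [h3]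
      _ = (τ * τ) * (σ * θ x) := by ring
      _ = σ * θ x := by rw [h4, one_mul]

theorem ebad_comp (c c' : ℕ) (σ σ' : ℝ) (x : ℕ) :
    ebad θ (c + c') (σ' * σ) x ≤ ebad θ c σ x + ebad θ c' σ' (x + c) := by
  by_cases h : θ (x + c) = σ * θ x
  · by_cases h' : θ (x + c + c') = σ' * θ (x + c)
    · rw [ebad_zero (c := c + c')]
      · omega
      · rw [← Nat.add_assoc, h', h]; ring
    · rw [ebad_pos h']
      have := ebad_le_one (θ := θ) (c + c') (σ' * σ) x
      omega
  · rw [ebad_pos h]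
    have := ebad_le_one (θ := θ) (c + c') (σ' * σ) x
    omega

theorem ebad_cancel {σ' : ℝ} (hσ' : PM σ') (c c' : ℕ) (σ : ℝ) (x : ℕ) :
    ebad θ c σ x ≤ ebad θ (c + c') (σ' * σ) x + ebad θ c' σ' (x + c) := by
  by_cases h : θ (x + (c + c')) = σ' * σ * θ x
  · by_cases h' : θ (x + c + c') = σ' * θ (x + c)
    · rw [ebad_zero (c := c)]
      · omega
      · rw [← Nat.add_assoc, h'] at h
        have h4 := hσ'.sq
        calc θ (x + c) = (σ' * σ') * θ (x + c) := by rw [h4, one_mul]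
          _ = σ' * (σ' * θ (x + c)) := by ring
          _ = σ' * (σ' * σ * θ x) := by rw [h]
          _ = (σ' * σ') * (σ * θ x) := by ring
          _ = σ * θ x := by rw [h4, one_mul]
    · rw [ebad_pos h']
      have := ebad_le_one (θ := θ) c σ x
      omega
  · rw [ebad_pos h]
    have := ebad_le_one (θ := θ) c σ x
    omega

/-- number of failures in one period -/
noncomputable def nbad (θ : ℕ → ℝ) (ℓ c : ℕ) (σ : ℝ) : ℕ := ∑ x ∈ range ℓ, ebad θ c σ x

theorem nbad_shift (hτ : PM τ) (hper : ∀ n, θ (n + ℓ) = τ * θ n) (c : ℕ) (σ : ℝ) (a : ℕ) :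
    ∑ x ∈ range ℓ, ebad θ c σ (x + a) = nbad θ ℓ c σ :=
  slow_shift (ebad_periodic hτ hper c σ) a

theorem nbad_comp (hτ : PM τ) (hper : ∀ n, θ (n + ℓ) = τ * θ n) (c c' : ℕ) (σ σ' : ℝ) :
    nbad θ ℓ (c + c') (σ' * σ) ≤ nbad θ ℓ c σ + nbad θ ℓ c' σ' := by
  rw [← nbad_shift hτ hper c' σ' c]
  unfold nbad
  rw [← sum_add_distrib]
  exact sum_le_sum fun x _ => ebad_comp c c' σ σ' x

theorem nbad_cancel (hτ : PM τ) (hper : ∀ n, θ (n + ℓ) = τ * θ n) {σ' : ℝ} (hσ' : PM σ')
    (c c' : ℕ) (σ : ℝ) : nbad θ ℓ c σ ≤ nbad θ ℓ (c + c') (σ' * σ) + nbad θ ℓ c' σ' := by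
  rw [← nbad_shift hτ hper c' σ' c]
  unfold nbad
  rw [← sum_add_distrib]
  exact sum_le_sum fun x _ => ebad_cancel hσ' c c' σ x

theorem nbad_zero (σ : ℝ) (hσ : σ = 1) : nbad θ ℓ 0 σ = 0 := by
  unfold nbad
  apply sum_eq_zero
  intro x _
  apply ebad_zero
  rw [hσ, one_mul]; rfl

theorem nbad_iter (hτ : PM τ) (hper : ∀ n, θ (n + ℓ) = τ * θ n) (c : ℕ) (σ : ℝ) (j : ℕ) :
    nbad θ ℓ (j * c) (σ ^ j) ≤ j * nbad θ ℓ c σ := by
  induction j with
  | zero => rw [Nat.zero_mul, nbad_zero _ (pow_zero σ)]; omega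
  | succ j ih =>
    have h := nbad_comp hτ hper (j * c) c (σ ^ j) σ
    rw [pow_succ', Nat.succ_mul, Nat.succ_mul]
    omega

theorem ebad_window (x t : ℕ) : ebad θ t 1 x ≤ ∑ t' ∈ range t, ebad θ 1 1 (x + t') := by
  induction t with
  | zero =>
    rw [ebad_zero]
    · simp
    · rw [one_mul]; rfl
  | succ t ih =>
    rw [sum_range_succ]
    have := ebad_comp (θ := θ) t 1 1 1 x
    rw [one_mul] at this
    omega

theorem nbad_one_le {D : ℕ} (hℓ : 1 ≤ ℓ)
    (hD : ((Finset.Ico 1 ℓ).filter (fun n => θ n ≠ θ (n - 1))).card ≤ D) :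
    nbad θ ℓ 1 1 ≤ D + 1 := by
  unfold nbad
  obtain ⟨k, rfl⟩ := Nat.exists_eq_add_of_le' hℓ
  rw [sum_range_succ]
  have h1 := ebad_le_one (θ := θ) 1 1 k
  have h2 : ∑ x ∈ range k, ebad θ 1 1 x =
      ((Finset.Ico 1 (k + 1)).filter (fun n => θ n ≠ θ (n - 1))).card := by
    rw [card_filter, sum_Ico_eq_sum_range]
    apply sum_congr (by rw [Nat.add_sub_cancel])
    intro x _
    unfold ebad
    rw [one_mul, Nat.add_comm x 1, Nat.add_sub_cancel_left]
  omega

theorem PM.odd_pow {u : ℝ} (hu : PM u) {n : ℕ} (hn : Odd n) : u ^ n = u := by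
  rcases hu with rfl | rfl
  · rw [one_pow]
  · exact hn.neg_one_pow

/-- shifting by a multiple of the period -/
theorem slow_mul_period (hper : ∀ n, θ (n + ℓ) = τ * θ n) (k n : ℕ) :
    θ (n + k * ℓ) = τ ^ k * θ n := by
  induction k with
  | zero => rw [Nat.zero_mul, pow_zero, one_mul]; rfl
  | succ k ih => rw [Nat.succ_mul, ← Nat.add_assoc, hper, ih, pow_succ]; ring

/-- the mismatch indicator -/
noncomputable def mis (θ : ℕ → ℝ) (p q a b : ℕ) (s : ℝ) (m : ℕ) : ℕ :=
  if θ (p * m + a) ≠ s * θ (q * m + b) then 1 else 0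

theorem mis_zero {p q a b : ℕ} {s : ℝ} {m : ℕ} (h : θ (p * m + a) = s * θ (q * m + b)) :
    mis θ p q a b s m = 0 := by
  unfold mis; rw [if_neg (not_not.2 h)]

theorem mis_pos {p q a b : ℕ} {s : ℝ} {m : ℕ} (h : θ (p * m + a) ≠ s * θ (q * m + b)) :
    mis θ p q a b s m = 1 := by
  unfold mis; rw [if_pos h]

theorem mis_periodic {p q a b : ℕ} {s : ℝ} (hp : Odd p) (hq : Odd q) (hτ : PM τ)
    (hper : ∀ n, θ (n + ℓ) = τ * θ n) (m : ℕ) :
    mis θ p q a b s (m + ℓ) = mis θ p q a b s m := by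
  have h1 : θ (p * (m + ℓ) + a) = τ * θ (p * m + a) := by
    rw [show p * (m + ℓ) + a = (p * m + a) + p * ℓ by ring, slow_mul_period hper, hτ.odd_pow hp]
  have h2 : θ (q * (m + ℓ) + b) = τ * θ (q * m + b) := by
    rw [show q * (m + ℓ) + b = (q * m + b) + q * ℓ by ring, slow_mul_period hper, hτ.odd_pow hq]
  by_cases h : θ (p * m + a) = s * θ (q * m + b)
  · rw [mis_zero h, mis_zero]
    rw [h1, h2, h]; ring
  · rw [mis_pos h, mis_pos]
    intro h3
    apply h
    rw [h1, h2] at h3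
    have h4 := hτ.sq
    calc θ (p * m + a) = (τ * τ) * θ (p * m + a) := by rw [h4, one_mul]
      _ = τ * (τ * θ (p * m + a)) := by ring
      _ = τ * (s * (τ * θ (q * m + b))) := by rw [h3]
      _ = (τ * τ) * (s * θ (q * m + b)) := by ring
      _ = s * θ (q * m + b) := by rw [h4, one_mul]

/-- steps (1) and (2) -/
theorem slow_step2 {p q a b v r0 : ℕ} {s : ℝ} (hp : Odd p) (hq : Odd q) (hτ : PM τ)
    (hper : ∀ n, θ (n + ℓ) = τ * θ n) (hℓ : ℓ = q * v + r0) (hr : r0 ≤ q) :
    ∑ m ∈ range ℓ, ebad θ (p * v) τ (p * m + a) ≤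
      2 * ∑ m ∈ range ℓ, mis θ p q a b s m + q * nbad θ ℓ 1 1 := by
  have key : ∀ m, ebad θ (p * v) τ (p * m + a) ≤
      mis θ p q a b s m + mis θ p q a b s (m + v) +
        ∑ t ∈ range q, ebad θ 1 1 (q * m + t + (b + q * v)) := by
    intro m
    by_cases h1 : θ (p * m + a) = s * θ (q * m + b)
    · by_cases h2 : θ (p * (m + v) + a) = s * θ (q * (m + v) + b)
      · by_cases h3 : θ (q * (m + v) + b) = τ * θ (q * m + b)
        · rw [ebad_zero]
          · omega
          · rw [show p * m + a + p * v = p * (m + v) + a by ring, h2, h3, h1]; ring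
        · have h4 : ebad θ r0 1 (q * (m + v) + b) = 1 := by
            apply ebad_pos
            intro h5
            apply h3
            rw [show q * (m + v) + b + r0 = q * m + b + (q * v + r0) by ring, ← hℓ, hper,
              one_mul] at h5
            exact h5.symm
          have h5 := ebad_window (θ := θ) (q * (m + v) + b) r0
          have h6 : ∑ t' ∈ range r0, ebad θ 1 1 (q * (m + v) + b + t') ≤
              ∑ t ∈ range q, ebad θ 1 1 (q * m + t + (b + q * v)) := by
            refine le_trans (sum_le_sum_of_subset (range_mono hr)) (le_of_eq ?_)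
            apply sum_congr rfl
            intro t _
            congr 1
            ring
          have := ebad_le_one (θ := θ) (p * v) τ (p * m + a)
          omega
      · rw [mis_pos h2]
        have := ebad_le_one (θ := θ) (p * v) τ (p * m + a)
        omega
    · rw [mis_pos h1]
      have := ebad_le_one (θ := θ) (p * v) τ (p * m + a)
      omega
  refine (sum_le_sum fun m _ => key m).trans ?_
  rw [sum_add_distrib, sum_add_distrib, slow_prog (ebad_periodic hτ hper 1 1) q (b + q * v),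
    slow_shift (mis_periodic hp hq hτ hper) v]
  unfold nbad
  omega

/-- step (3) -/
theorem slow_step3 {p a w : ℕ} (hp : 1 ≤ p) (hτ : PM τ)
    (hper : ∀ n, θ (n + ℓ) = τ * θ n) :
    nbad θ ℓ w τ ≤ ∑ m ∈ range ℓ, ebad θ w τ (p * m + a) + 2 * p * nbad θ ℓ 1 1 := by
  have key : ∀ m, ∀ t ∈ range p, ebad θ w τ (p * m + t + a) ≤ ebad θ w τ (p * m + a) +
      ∑ t' ∈ range p, ebad θ 1 1 (p * m + t' + a) +
      ∑ t' ∈ range p, ebad θ 1 1 (p * m + t' + (a + w)) := by
    intro m t ht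
    have ht' := mem_range.1 ht
    have w1 : ebad θ t 1 (p * m + a) ≤ ∑ t' ∈ range p, ebad θ 1 1 (p * m + t' + a) := by
      refine (ebad_window _ t).trans ?_
      refine le_trans (sum_le_sum_of_subset (range_mono ht'.le)) (le_of_eq ?_)
      apply sum_congr rfl
      intro t' _
      congr 1
      ring
    have w2 : ebad θ t 1 (p * m + a + w) ≤ ∑ t' ∈ range p, ebad θ 1 1 (p * m + t' + (a + w)) := by
      refine (ebad_window _ t).trans ?_
      refine le_trans (sum_le_sum_of_subset (range_mono ht'.le)) (le_of_eq ?_)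
      apply sum_congr rfl
      intro t' _
      congr 1
      ring
    have h3 : ebad θ w τ (p * m + t + a) ≤ ebad θ w τ (p * m + a) + ebad θ t 1 (p * m + a) +
        ebad θ t 1 (p * m + a + w) := by
      by_cases h1 : θ (p * m + a + w) = τ * θ (p * m + a)
      · by_cases h2 : θ (p * m + a + t) = 1 * θ (p * m + a)
        · by_cases h4 : θ (p * m + a + w + t) = 1 * θ (p * m + a + w)
          · rw [ebad_zero]
            · omega
            · rw [show p * m + t + a + w = p * m + a + w + t by ring,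
                show p * m + t + a = p * m + a + t by ring, h4, h2, h1]
              ring
          · rw [ebad_pos h4]
            have := ebad_le_one (θ := θ) w τ (p * m + t + a)
            omega
        · rw [ebad_pos h2]
          have := ebad_le_one (θ := θ) w τ (p * m + t + a)
          omega
      · rw [ebad_pos h1]
        have := ebad_le_one (θ := θ) w τ (p * m + t + a)
        omega
    omega
  have h1 := slow_prog (ebad_periodic (ℓ := ℓ) hτ hper w τ) p a
  have h2 := slow_prog (ebad_periodic (ℓ := ℓ) hτ hper 1 1) p a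
  have h3 := slow_prog (ebad_periodic (ℓ := ℓ) hτ hper 1 1) p (a + w)
  have h4 : p * nbad θ ℓ w τ ≤ p * (∑ m ∈ range ℓ, ebad θ w τ (p * m + a) +
      2 * p * nbad θ ℓ 1 1) := by
    unfold nbad
    rw [← h1]
    calc ∑ m ∈ range ℓ, ∑ t ∈ range p, ebad θ w τ (p * m + t + a)
        ≤ ∑ m ∈ range ℓ, ∑ _t ∈ range p, (ebad θ w τ (p * m + a) +
            ∑ t' ∈ range p, ebad θ 1 1 (p * m + t' + a) +
            ∑ t' ∈ range p, ebad θ 1 1 (p * m + t' + (a + w))) :=
          sum_le_sum fun m _ => sum_le_sum (key m)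
      _ = ∑ m ∈ range ℓ, p * (ebad θ w τ (p * m + a) +
            ∑ t' ∈ range p, ebad θ 1 1 (p * m + t' + a) +
            ∑ t' ∈ range p, ebad θ 1 1 (p * m + t' + (a + w))) := by
          apply sum_congr rfl
          intro m _
          rw [sum_const, card_range, smul_eq_mul]
      _ = p * (∑ m ∈ range ℓ, ebad θ w τ (p * m + a) +
            p * (∑ n ∈ range ℓ, ebad θ 1 1 n) + p * (∑ n ∈ range ℓ, ebad θ 1 1 n)) := by
          rw [← mul_sum, sum_add_distrib, sum_add_distrib, h2, h3]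
      _ ≤ _ := by
          apply Nat.mul_le_mul_left
          rw [show 2 * p * ∑ n ∈ range ℓ, ebad θ 1 1 n =
            p * (∑ n ∈ range ℓ, ebad θ 1 1 n) + p * (∑ n ∈ range ℓ, ebad θ 1 1 n) by ring]
          omega
  exact Nat.le_of_mul_le_mul_left h4 (by omega)

/-- step (4) -/
theorem slow_step4 {p q j k v r0 : ℕ} (hp : Odd p) (hq : Odd q) (hτ : PM τ)
    (hper : ∀ n, θ (n + ℓ) = τ * θ n) (hℓ : ℓ = q * v + r0) (hjk : j * p = 1 + k * q) :
    nbad θ ℓ v τ ≤ j * nbad θ ℓ (p * v) τ + k * r0 * nbad θ ℓ 1 1 := by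
  have h1 := nbad_iter hτ hper (p * v) τ j
  have h2 := nbad_iter hτ hper 1 1 (k * r0)
  rw [one_pow, Nat.mul_one] at h2
  have h3 := nbad_comp hτ hper (j * (p * v)) (k * r0) (τ ^ j) 1
  rw [one_mul] at h3
  have h4 : j * (p * v) + k * r0 = v + k * ℓ := by
    rw [hℓ]
    calc j * (p * v) + k * r0 = (j * p) * v + k * r0 := by ring
      _ = (1 + k * q) * v + k * r0 := by rw [hjk]
      _ = _ := by ring
  rw [h4] at h3
  have h5 := nbad_cancel hτ hper (hτ.pow k) v (k * ℓ) τ
  have h6 : nbad θ ℓ (k * ℓ) (τ ^ k) = 0 := by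
    unfold nbad
    apply sum_eq_zero
    intro x _
    exact ebad_zero (slow_mul_period hper k x)
  have h7 : τ ^ k * τ = τ ^ j := by
    rw [← pow_succ]
    have hpar : Even (k + 1) ↔ Even j := by
      have e1 : Even (j * p) ↔ Even (1 + k * q) := by rw [hjk]
      rw [Nat.even_mul, Nat.even_add, Nat.even_mul] at e1
      have ep : ¬ Even p := Nat.not_even_iff_odd.2 hp
      have eq' : ¬ Even q := Nat.not_even_iff_odd.2 hq
      have e0 : ¬ Even 1 := by decide
      rw [Nat.even_add]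
      tauto
    rcases hτ with rfl | rfl
    · rw [one_pow, one_pow]
    · by_cases hj : Even j
      · rw [hj.neg_one_pow, (hpar.2 hj).neg_one_pow]
      · have hk : ¬ Even (k + 1) := fun h => hj (hpar.1 h)
        rw [(Nat.not_even_iff_odd.1 hj).neg_one_pow, (Nat.not_even_iff_odd.1 hk).neg_one_pow]
  rw [h7] at h5
  omega

/-- a block without jumps -/
theorem slow_block {D N w : ℕ} (hw : 1 ≤ w) (hN : D < N) (hNw : N * w ≤ ℓ)
    (hD : ((Finset.Ico 1 ℓ).filter (fun n => θ n ≠ θ (n - 1))).card ≤ D) :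
    ∃ i < N, ∀ y < w, θ (i * w + y) = θ (i * w) := by
  have hex : ∃ i < N, ∀ n ∈ (Finset.Ico 1 ℓ).filter (fun n => θ n ≠ θ (n - 1)), n / w ≠ i := by
    by_contra hc
    push Not at hc
    have h1 : range N ⊆ ((Finset.Ico 1 ℓ).filter (fun n => θ n ≠ θ (n - 1))).image (· / w) := by
      intro i hi
      obtain ⟨n, hn, hni⟩ := hc i (mem_range.1 hi)
      exact mem_image.2 ⟨n, hn, hni⟩
    have h2 := (card_le_card h1).trans card_image_le
    rw [card_range] at h2
    omega
  obtain ⟨i, hi, h⟩ := hex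
  refine ⟨i, hi, ?_⟩
  intro y
  induction y with
  | zero => intro _; rfl
  | succ y ih =>
    intro hy
    rw [← ih (by omega)]
    by_contra hne
    have hlt : i * w + (y + 1) < ℓ := by
      have : (i + 1) * w ≤ N * w := Nat.mul_le_mul_right w hi
      rw [Nat.add_mul, Nat.one_mul] at this
      omega
    refine h (i * w + (y + 1)) ?_ ?_
    · rw [mem_filter, mem_Ico]
      exact ⟨⟨by omega, hlt⟩, by rw [show i * w + (y + 1) - 1 = i * w + y by omega]; exact hne⟩
    · rw [show i * w + (y + 1) = (y + 1) + i * w by ring, Nat.add_mul_div_right _ _ (by omega),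
        Nat.div_eq_of_lt hy, Nat.zero_add]

/-- case `τ = 1` of step (5) -/
theorem slow_five_pos {D q v r0 : ℕ} (hv : 1 ≤ v) (hℓ : ℓ = q * v + r0) (hr : r0 ≤ q)
    (hθ : ∀ n, PM (θ n)) (hD1 : D < q)
    (hD : ((Finset.Ico 1 ℓ).filter (fun n => θ n ≠ θ (n - 1))).card ≤ D) :
    ∃ s₀ : ℝ, PM s₀ ∧ ((range ℓ).filter (fun n => θ n ≠ s₀)).card ≤ q * nbad θ ℓ v 1 + q := by
  obtain ⟨i0, hi0, hc⟩ := slow_block (θ := θ) hv hD1 (by omega) hD
  refine ⟨θ (i0 * v), hθ _, ?_⟩
  set s₀ := θ (i0 * v) with hs₀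
  -- every arc
  have harc : ∀ i < q, ∑ y ∈ range v, (if θ (i * v + y) ≠ s₀ then 1 else 0) ≤ nbad θ ℓ v 1 := by
    intro i hi
    -- failures along the chain
    have hchain : ∀ y < v, (if θ (i * v + y) ≠ s₀ then 1 else 0) ≤
        ∑ i' ∈ range (q - 1), ebad θ v 1 (i' * v + y) := by
      intro y hy
      by_cases hall : ∀ i' ∈ range (q - 1), θ (i' * v + y + v) = θ (i' * v + y)
      · have hconst : ∀ i' < q, θ (i' * v + y) = θ y := by
          intro i'
          induction i' with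
          | zero => intro _; rw [Nat.zero_mul, Nat.zero_add]
          | succ i' ih =>
            intro hlt
            rw [show (i' + 1) * v + y = i' * v + y + v by ring,
              hall i' (mem_range.2 (by omega)), ih (by omega)]
        rw [if_neg]
        · omega
        · rw [not_not, hconst i hi, ← hconst i0 hi0]
          exact hc y hy
      · push Not at hall
        obtain ⟨i', hi', hne⟩ := hall
        have h1 : ebad θ v 1 (i' * v + y) = 1 := ebad_pos (by rw [one_mul]; exact hne)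
        have h2 := single_le_sum (f := fun i' => ebad θ v 1 (i' * v + y))
          (fun _ _ => Nat.zero_le _) hi'
        split_ifs <;> omega
    refine (sum_le_sum fun y hy => hchain y (mem_range.1 hy)).trans ?_
    rw [sum_comm]
    have h1 : ∑ i' ∈ range (q - 1), ∑ y ∈ range v, ebad θ v 1 (i' * v + y) =
        ∑ n ∈ range (v * (q - 1)), ebad θ v 1 n := by
      rw [← slow_blocks (fun n => ebad θ v 1 n) v (q - 1)]
      apply sum_congr rfl
      intro i' _
      apply sum_congr rfl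
      intro y _
      rw [Nat.mul_comm]
    rw [h1]
    unfold nbad
    apply sum_le_sum_of_subset
    apply range_mono
    have : v * (q - 1) ≤ q * v := by
      rw [Nat.mul_comm q v]
      exact Nat.mul_le_mul_left v (Nat.sub_le _ _)
    omega
  rw [card_filter, hℓ, sum_range_add]
  have h1 : ∑ x ∈ range r0, (if θ (q * v + x) ≠ s₀ then 1 else 0) ≤ q := by
    calc ∑ x ∈ range r0, (if θ (q * v + x) ≠ s₀ then 1 else 0) ≤ ∑ x ∈ range r0, 1 := by
          apply sum_le_sum
          intro x _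
          split_ifs <;> omega
      _ = r0 := by simp
      _ ≤ q := hr
  have h2 : ∑ x ∈ range (q * v), (if θ x ≠ s₀ then 1 else 0) ≤ q * nbad θ ℓ v 1 := by
    rw [Nat.mul_comm q v, ← slow_blocks (fun n => if θ n ≠ s₀ then 1 else 0) v q]
    calc ∑ m ∈ range q, ∑ t ∈ range v, (if θ (v * m + t) ≠ s₀ then 1 else 0)
        ≤ ∑ m ∈ range q, nbad θ ℓ v 1 := by
          apply sum_le_sum
          intro m hm
          rw [Nat.mul_comm v m]
          exact harc m (mem_range.1 hm)
      _ = q * nbad θ ℓ v 1 := by rw [sum_const, card_range, smul_eq_mul]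
  rw [← hℓ]
  omega

/-- case `τ = -1` of step (5) -/
theorem slow_five_neg {D q v r0 : ℕ} (hv : 1 ≤ v) (hℓ : ℓ = q * v + r0)
    (hθ : ∀ n, PM (θ n)) (hq : Odd q) (hD1 : 2 * D + 3 ≤ q)
    (hD : ((Finset.Ico 1 ℓ).filter (fun n => θ n ≠ θ (n - 1))).card ≤ D) :
    v ≤ nbad θ ℓ v (-1) := by
  obtain ⟨h, hh⟩ := hq
  obtain ⟨i, hi, hc⟩ := slow_block (θ := θ) (D := D) (N := h) (w := 2 * v) (by omega) (by omega)
    (by rw [hℓ, hh]; nlinarith) hD
  have hbad : ∀ y < v, ebad θ v (-1) (i * (2 * v) + y) = 1 := by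
    intro y hy
    apply ebad_pos
    have h1 := hc y (by omega)
    have h2 := hc (y + v) (by omega)
    rw [Nat.add_assoc, h1, h2]
    rcases hθ (i * (2 * v)) with h3 | h3 <;> rw [h3] <;> norm_num
  calc v = ∑ y ∈ range v, ebad θ v (-1) (i * (2 * v) + y) := by
        rw [sum_congr rfl fun y hy => hbad y (mem_range.1 hy)]
        simp
    _ ≤ ∑ x ∈ range (i * (2 * v)), ebad θ v (-1) x +
          ∑ y ∈ range v, ebad θ v (-1) (i * (2 * v) + y) := Nat.le_add_left _ _
    _ = ∑ x ∈ range (i * (2 * v) + v), ebad θ v (-1) x := (sum_range_add _ _ _).symm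
    _ ≤ nbad θ ℓ v (-1) := by
        unfold nbad
        apply sum_le_sum_of_subset
        apply range_mono
        rw [hℓ, hh]
        have : i * (2 * v) + 2 * v ≤ h * (2 * v) := by
          have := Nat.mul_le_mul_right (2 * v) hi
          rw [Nat.succ_mul] at this
          exact this
        nlinarith

end slow

/-- `θ` is a `τ`-periodic sign pattern with at most `D` sign changes inside `[1, ℓ)`; `q` is large
compared to `D`.  If `θ (p m + a) = s θ (q m + b)` for most `m < ℓ`, then `θ` is nearly constant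
(`τ = 1`), resp. `ℓ` is bounded (`τ = -1`).  `C` depends only on `p, q, D`. -/
theorem slow_lower (p q : ℕ) (hp : p.Prime) (hq : q.Prime) (hpq : p ≠ q) (hp2 : 2 < p)
    (D : ℕ) (hD : 2 * D + 3 ≤ q) :
    ∃ C : ℝ, 0 < C ∧ ∀ (ℓ : ℕ) (θ : ℕ → ℝ) (τ s : ℝ), 1 ≤ ℓ → (∀ n, PM (θ n)) → PM τ → PM s →
      (∀ n, θ (n + ℓ) = τ * θ n) →
      ((Finset.Ico 1 ℓ).filter (fun n => θ n ≠ θ (n - 1))).card ≤ D →
      ∀ a b : ℕ,
      (τ = 1 → ∃ s₀ : ℝ, PM s₀ ∧ (((range ℓ).filter (fun n => θ n ≠ s₀)).card : ℝ) ≤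
        C * (((range ℓ).filter (fun m => θ (p * m + a) ≠ s * θ (q * m + b))).card + 1)) ∧
      (τ = -1 → (ℓ : ℝ) ≤
        C * (((range ℓ).filter (fun m => θ (p * m + a) ≠ s * θ (q * m + b))).card + 1)) := by
  have hpo : Odd p := hp.odd_of_ne_two (by omega)
  have hqo : Odd q := hq.odd_of_ne_two (by omega)
  have hcop : Nat.Coprime p q := (Nat.coprime_primes hp hq).2 hpq
  obtain ⟨j, hj⟩ := Nat.exists_mul_mod_eq_one_of_coprime hcop hq.one_lt
  set k := p * j / q with hk
  have hjk : j * p = 1 + k * q := by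
    have := Nat.div_add_mod (p * j) q
    rw [hj.2] at this
    rw [hk]
    linarith
  set C3 : ℕ := j * (2 + q * (D + 1) + 2 * p * (D + 1)) + k * q * (D + 1) with hC3
  refine ⟨((q * (C3 + 1) : ℕ) : ℝ), by
    have := hq.pos
    positivity, ?_⟩
  intro ℓ θ τ s hℓ1 hθ hτ _ hper hjump a b
  set R := ((range ℓ).filter (fun m => θ (p * m + a) ≠ s * θ (q * m + b))).card with hR
  have hRsum : R = ∑ m ∈ range ℓ, mis θ p q a b s m := by
    rw [hR, card_filter]; rfl
  set v := ℓ / q with hv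
  set r0 := ℓ % q with hr0
  have hℓ : ℓ = q * v + r0 := (Nat.div_add_mod ℓ q).symm
  have hr : r0 < q := Nat.mod_lt _ hq.pos
  have hN1 := nbad_one_le hℓ1 hjump
  have s2 := slow_step2 (s := s) (a := a) (b := b) hpo hqo hτ hper hℓ hr.le
  have s3 := slow_step3 (p := p) (a := a) (w := p * v) hp.one_lt.le hτ hper
  have s4 := slow_step4 hpo hqo hτ hper hℓ hjk
  have hmain : nbad θ ℓ v τ ≤ C3 * (R + 1) := by
    rw [← hRsum] at s2
    have t1 : nbad θ ℓ (p * v) τ ≤ 2 * R + q * (D + 1) + 2 * p * (D + 1) := by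
      have u1 : q * nbad θ ℓ 1 1 ≤ q * (D + 1) := Nat.mul_le_mul_left _ hN1
      have u2 : 2 * p * nbad θ ℓ 1 1 ≤ 2 * p * (D + 1) := Nat.mul_le_mul_left _ hN1
      omega
    have t2 : k * r0 * nbad θ ℓ 1 1 ≤ k * q * (D + 1) :=
      Nat.mul_le_mul (Nat.mul_le_mul_left _ hr.le) hN1
    calc nbad θ ℓ v τ ≤ j * nbad θ ℓ (p * v) τ + k * r0 * nbad θ ℓ 1 1 := s4
      _ ≤ j * (2 * R + q * (D + 1) + 2 * p * (D + 1)) + k * q * (D + 1) :=
          Nat.add_le_add (Nat.mul_le_mul_left _ t1) t2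
      _ ≤ j * ((2 + q * (D + 1) + 2 * p * (D + 1)) * (R + 1)) + k * q * (D + 1) * (R + 1) := by
          apply Nat.add_le_add
          · apply Nat.mul_le_mul_left
            nlinarith [Nat.zero_le (q * (D + 1) * R), Nat.zero_le (2 * p * (D + 1) * R)]
          · exact Nat.le_mul_of_pos_right _ (by omega)
      _ = C3 * (R + 1) := by rw [hC3]; ring
  have hqR : q * (C3 * (R + 1)) + q ≤ q * (C3 + 1) * (R + 1) := by
    have : q * (C3 + 1) * (R + 1) = q * (C3 * (R + 1)) + q * (R + 1) := by ring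
    rw [this]
    have := Nat.le_mul_of_pos_right q (show 0 < R + 1 by omega)
    omega
  constructor
  · intro hτ1
    rcases Nat.eq_zero_or_pos v with hv0 | hvpos
    · refine ⟨1, pm_one, ?_⟩
      have h1 : ((range ℓ).filter (fun n => θ n ≠ 1)).card ≤ q * (C3 + 1) * (R + 1) := by
        have h2 : ((range ℓ).filter (fun n => θ n ≠ 1)).card ≤ ℓ := by
          refine (card_filter_le _ _).trans ?_
          rw [card_range]
        have h3 : ℓ < q := by rw [hℓ, hv0]; omega
        omega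
      exact_mod_cast h1
    · obtain ⟨s₀, hs₀, h1⟩ := slow_five_pos hvpos hℓ hr.le hθ (show D < q by omega) hjump
      refine ⟨s₀, hs₀, ?_⟩
      have h2 : ((range ℓ).filter (fun n => θ n ≠ s₀)).card ≤ q * (C3 + 1) * (R + 1) := by
        have h3 : q * nbad θ ℓ v 1 ≤ q * (C3 * (R + 1)) := by
          apply Nat.mul_le_mul_left
          rw [← hτ1]
          exact hmain
        omega
      exact_mod_cast h2
  · intro hτ1
    have h2 : ℓ ≤ q * (C3 + 1) * (R + 1) := by
      rcases Nat.eq_zero_or_pos v with hv0 | hvpos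
      · have h3 : ℓ < q := by rw [hℓ, hv0]; omega
        omega
      · have h1 := slow_five_neg hvpos hℓ hθ hqo hD hjump
        rw [← hτ1] at h1
        have h3 : q * v ≤ q * (C3 * (R + 1)) := Nat.mul_le_mul_left _ (h1.trans hmain)
        omega
    exact_mod_cast h2

end Pool.Agent.Helper51.Mo
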