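import Pool.Agent.Helper51.CubeEq

/-! Dyadic cubes relative to a base cube, their triples and the laminar classes of triples. -/

open MeasureTheory Set
open scoped ENNReal

namespace Pool.Agent.Helper51.Sp

variable {n : ℕ}

/-- half-open cube -/
def box (a : Fin n → ℝ) (h : ℝ) : Set (Fin n → ℝ) := {x | ∀ i, a i ≤ x i ∧ x i < a i + h}

theorem mem_box {a : Fin n → ℝ} {h : ℝ} {x : Fin n → ℝ} :
    x ∈ box a h ↔ ∀ i, a i ≤ x i ∧ x i < a i + h := Iff.rfl

theorem box_eq (a : Fin n → ℝ) (h : ℝ) :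
    box a h = Set.pi univ (fun i => Ico (a i) (a i + h)) := by
  ext x
  simp [box]

theorem measurableSet_box (a : Fin n → ℝ) (h : ℝ) : MeasurableSet (box a h) := by
  rw [box_eq]
  exact MeasurableSet.univ_pi fun i => measurableSet_Ico

theorem vol_box (a : Fin n → ℝ) {h : ℝ} (hh : 0 ≤ h) :
    volume (box a h) = ENNReal.ofReal (h ^ n) := by
  rw [box_eq, volume_pi_pi]
  simp only [Real.volume_Ico, add_sub_cancel_left, Finset.prod_const, Finset.card_univ,
    Fintype.card_fin]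
  rw [ENNReal.ofReal_pow hh]

theorem real_box (a : Fin n → ℝ) {h : ℝ} (hh : 0 ≤ h) : volume.real (box a h) = h ^ n := by
  rw [Measure.real, vol_box a hh, ENNReal.toReal_ofReal (by positivity)]

theorem vol_box_ne_top (a : Fin n → ℝ) {h : ℝ} (hh : 0 ≤ h) : volume (box a h) ≠ ∞ := by
  rw [vol_box a hh]; exact ENNReal.ofReal_ne_top

/-- the half-open cube is a closed ball up to a null set -/
theorem box_ae_cube (a : Fin n → ℝ) (h : ℝ) :
    (box a h : Set (Fin n → ℝ)) =ᵐ[volume] Set.Icc a (fun i => a i + h) := by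
  rw [box_eq]
  exact Measure.univ_pi_Ico_ae_eq_Icc

theorem box_ae_ball (a : Fin n → ℝ) {h : ℝ} (hh : 0 < h) :
    (box a h : Set (Fin n → ℝ)) =ᵐ[volume] Metric.closedBall (fun i => a i + h / 2) (h / 2) := by
  rw [← cube_eq a hh]
  exact box_ae_cube a h

/-- indices of dyadic cubes -/
abbrev Ix (n : ℕ) := ℕ × (Fin n → ℤ)

/-- the side -/
noncomputable def sd (h : ℝ) (k : Ix n) : ℝ := h / 2 ^ k.1

/-- the corner -/
noncomputable def cor (a : Fin n → ℝ) (h : ℝ) (k : Ix n) : Fin n → ℝ :=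
  fun i => a i + k.2 i * sd h k

/-- the cube -/
noncomputable def cb (a : Fin n → ℝ) (h : ℝ) (k : Ix n) : Set (Fin n → ℝ) := box (cor a h k) (sd h k)

/-- the tripled cube -/
noncomputable def tb (a : Fin n → ℝ) (h : ℝ) (k : Ix n) : Set (Fin n → ℝ) :=
  box (fun i => cor a h k i - sd h k) (3 * sd h k)

variable {a : Fin n → ℝ} {h : ℝ}

theorem sd_pos (hh : 0 < h) (k : Ix n) : 0 < sd h k := by unfold sd; positivity

theorem cb_subset_tb (hh : 0 < h) (k : Ix n) : cb a h k ⊆ tb a h k := by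
  intro x hx i
  have := hx i
  have := sd_pos hh k
  constructor <;> linarith

theorem mem_cb' (hh : 0 < h) {k : Ix n} {x : Fin n → ℝ} :
    x ∈ cb a h k ↔ ∀ i, (k.2 i : ℝ) ≤ (x i - a i) / sd h k ∧ (x i - a i) / sd h k < k.2 i + 1 := by
  have hs := sd_pos hh k
  unfold cb cor
  rw [mem_box]
  apply forall_congr'
  intro i
  rw [le_div_iff₀ hs, div_lt_iff₀ hs]
  constructor
  · rintro ⟨h1, h2⟩
    constructor <;> linarith
  · rintro ⟨h1, h2⟩
    constructor <;> linarith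

theorem mem_tb' (hh : 0 < h) {k : Ix n} {x : Fin n → ℝ} :
    x ∈ tb a h k ↔ ∀ i, (k.2 i : ℝ) - 1 ≤ (x i - a i) / sd h k ∧
      (x i - a i) / sd h k < k.2 i + 2 := by
  have hs := sd_pos hh k
  unfold tb cor
  rw [mem_box]
  apply forall_congr'
  intro i
  rw [le_div_iff₀ hs, div_lt_iff₀ hs]
  constructor
  · rintro ⟨h1, h2⟩
    constructor <;> linarith
  · rintro ⟨h1, h2⟩
    constructor <;> linarith

/-- the index of the cube of level `j` containing `x` -/
noncomputable def ix (a : Fin n → ℝ) (h : ℝ) (j : ℕ) (x : Fin n → ℝ) : Ix n :=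
  (j, fun i => ⌊(x i - a i) / (h / 2 ^ j)⌋)

theorem mem_cb (hh : 0 < h) {k : Ix n} {x : Fin n → ℝ} : x ∈ cb a h k ↔ ix a h k.1 x = k := by
  rw [mem_cb' hh]
  unfold ix sd
  constructor
  · intro hx
    apply Prod.ext
    · rfl
    · funext i
      rw [Int.floor_eq_iff]
      exact hx i
  · intro hx i
    have h1 := congrArg (fun k => k.2 i) hx
    simp only at h1
    exact Int.floor_eq_iff.mp h1

theorem mem_cb_ix (hh : 0 < h) (j : ℕ) (x : Fin n → ℝ) : x ∈ cb a h (ix a h j x) :=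
  (mem_cb hh).mpr rfl

/-- the ancestor of level `j` -/
def up (k : Ix n) (j : ℕ) : Ix n := (j, fun i => k.2 i / 2 ^ (k.1 - j))

theorem ix_up {j j' : ℕ} (hj : j ≤ j') (x : Fin n → ℝ) :
    up (ix a h j' x) j = ix a h j x := by
  unfold up ix
  apply Prod.ext
  · rfl
  · funext i
    simp only
    have h1 := Int.floor_div_natCast ((x i - a i) / (h / 2 ^ j')) (2 ^ (j' - j))
    push_cast at h1
    rw [← h1]
    congr 1
    obtain ⟨m, rfl⟩ := Nat.exists_eq_add_of_le hj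
    rw [Nat.add_sub_cancel_left]
    rcases eq_or_ne h 0 with h0 | h0
    · rw [h0]; simp
    · field_simp
      rw [pow_add]
      ring

theorem cb_subset_up (hh : 0 < h) {k : Ix n} {j : ℕ} (hj : j ≤ k.1) :
    cb a h k ⊆ cb a h (up k j) := by
  intro x hx
  rw [mem_cb hh] at hx ⊢
  have := ix_up (a := a) (h := h) hj x
  rw [hx] at this
  exact this.symm

/-- cubes are nested or disjoint -/
theorem cb_lam' (hh : 0 < h) {k l : Ix n} (hkl : l.1 ≤ k.1) :
    (cb a h k ⊆ cb a h l ∧ up k l.1 = l) ∨ Disjoint (cb a h k) (cb a h l) := by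
  by_cases he : up k l.1 = l
  · left
    refine ⟨?_, he⟩
    have := cb_subset_up (a := a) hh hkl
    rwa [he] at this
  · right
    rw [Set.disjoint_left]
    intro x hx hx'
    apply he
    rw [mem_cb hh] at hx'
    have h1 := cb_subset_up (a := a) hh hkl hx
    rw [mem_cb hh] at h1
    rw [← h1]
    exact hx'

theorem cb_lam (hh : 0 < h) (k l : Ix n) :
    cb a h k ⊆ cb a h l ∨ cb a h l ⊆ cb a h k ∨ Disjoint (cb a h k) (cb a h l) := by
  rcases le_total l.1 k.1 with hkl | hkl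
  · rcases cb_lam' (a := a) hh hkl with h1 | h1
    · exact Or.inl h1.1
    · exact Or.inr (Or.inr h1)
  · rcases cb_lam' (a := a) hh hkl with h1 | h1
    · exact Or.inr (Or.inl h1.1)
    · exact Or.inr (Or.inr h1.symm)

theorem cor_mem_cb (hh : 0 < h) (k : Ix n) : cor a h k ∈ cb a h k := by
  intro i
  have := sd_pos hh k
  constructor <;> linarith

theorem real_cb (hh : 0 < h) (k : Ix n) : volume.real (cb a h k) = sd h k ^ n :=
  real_box _ (sd_pos hh k).le

theorem vol_cb (hh : 0 < h) (k : Ix n) : volume (cb a h k) = ENNReal.ofReal (sd h k ^ n) :=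
  vol_box _ (sd_pos hh k).le

theorem real_tb (hh : 0 < h) (k : Ix n) : volume.real (tb a h k) = 3 ^ n * sd h k ^ n := by
  unfold tb
  rw [real_box _ (by have := sd_pos hh k; positivity), mul_pow]

theorem vol_tb (hh : 0 < h) (k : Ix n) :
    volume (tb a h k) = ENNReal.ofReal (3 ^ n * sd h k ^ n) := by
  unfold tb
  rw [vol_box _ (by have := sd_pos hh k; positivity), mul_pow]

theorem tb_subset_up (hh : 0 < h) {k : Ix n} {j : ℕ} (hj : j ≤ k.1) :
    tb a h k ⊆ tb a h (up k j) := by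
  intro x hx
  rw [mem_tb' hh] at hx ⊢
  intro i
  obtain ⟨h1, h2⟩ := hx i
  set u := (x i - a i) / sd h k with hu
  have hm : (x i - a i) / sd h (up k j) = u / 2 ^ (k.1 - j) := by
    rw [hu]
    unfold sd up
    simp only
    obtain ⟨m, hm⟩ := Nat.exists_eq_add_of_le hj
    rw [hm, Nat.add_sub_cancel_left, pow_add]
    field_simp
  rw [hm]
  have hp : (0 : ℝ) < 2 ^ (k.1 - j) := by positivity
  have hpi : (0 : ℤ) < 2 ^ (k.1 - j) := by positivity
  rw [le_div_iff₀ hp, div_lt_iff₀ hp]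
  unfold up
  simp only
  set q : ℤ := k.2 i / 2 ^ (k.1 - j) with hq
  have h3 : q * 2 ^ (k.1 - j) ≤ k.2 i := Int.ediv_mul_le _ hpi.ne'
  have h4 : k.2 i < (q + 1) * 2 ^ (k.1 - j) := Int.lt_ediv_add_one_mul_self _ hpi
  have h3' : (q : ℝ) * 2 ^ (k.1 - j) ≤ k.2 i := by exact_mod_cast h3
  have h4' : (k.2 i : ℝ) + 1 ≤ (q + 1) * 2 ^ (k.1 - j) := by
    have : k.2 i + 1 ≤ (q + 1) * 2 ^ (k.1 - j) := h4
    exact_mod_cast this
  have h5 : (1 : ℝ) ≤ 2 ^ (k.1 - j) := one_le_pow₀ (by norm_num)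
  constructor
  · nlinarith
  · nlinarith

/-- the class of an index -/
def cls (k : Ix n) : Fin n → ZMod 3 := fun i => (-1) ^ k.1 * ((k.2 i : ZMod 3) - 1)

theorem key_int {e z : ℤ} (h : (3 : ℤ) ∣ e - (z - 1)) : e ≤ z - 1 ∨ z + 2 ≤ e := by
  omega

theorem cls_dvd {k l : Ix n} (hkl : l.1 ≤ k.1) (hc : cls k = cls l) (i : Fin n) :
    (3 : ℤ) ∣ (l.2 i - 1) * 2 ^ (k.1 - l.1) - (k.2 i - 1) := by
  have h1 := congrFun hc i
  unfold cls at h1
  obtain ⟨m, hm⟩ := Nat.exists_eq_add_of_le hkl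
  rw [hm] at h1
  rw [hm, Nat.add_sub_cancel_left]
  change ((3 : ℕ) : ℤ) ∣ _
  rw [← ZMod.intCast_zmod_eq_zero_iff_dvd]
  push_cast
  have h2 : (2 : ZMod 3) = -1 := by decide
  rw [h2]
  have h3 : ((-1 : ZMod 3) ^ l.1) * (-1) ^ l.1 = 1 := by
    rw [← mul_pow]; simp
  have h4 : ((-1 : ZMod 3) ^ m) * (-1) ^ m = 1 := by
    rw [← mul_pow]; simp
  rw [pow_add] at h1
  have h5 : (-1 : ZMod 3) ^ m * ((k.2 i : ZMod 3) - 1) = (l.2 i : ZMod 3) - 1 := by
    calc (-1 : ZMod 3) ^ m * ((k.2 i : ZMod 3) - 1)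
        = ((-1 : ZMod 3) ^ l.1 * (-1) ^ l.1) * ((-1 : ZMod 3) ^ m * ((k.2 i : ZMod 3) - 1)) := by
          rw [h3, one_mul]
      _ = (-1 : ZMod 3) ^ l.1 * ((-1) ^ l.1 * (-1) ^ m * ((k.2 i : ZMod 3) - 1)) := by ring
      _ = (-1 : ZMod 3) ^ l.1 * ((-1) ^ l.1 * ((l.2 i : ZMod 3) - 1)) := by rw [h1]
      _ = ((-1 : ZMod 3) ^ l.1 * (-1) ^ l.1) * ((l.2 i : ZMod 3) - 1) := by ring
      _ = _ := by rw [h3, one_mul]
  rw [← h5]
  calc (-1 : ZMod 3) ^ m * ((k.2 i : ZMod 3) - 1) * (-1) ^ m - ((k.2 i : ZMod 3) - 1)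
      = ((-1 : ZMod 3) ^ m * (-1) ^ m) * ((k.2 i : ZMod 3) - 1) - ((k.2 i : ZMod 3) - 1) := by ring
    _ = 0 := by rw [h4, one_mul, sub_self]

/-- triples in the same class are nested or disjoint -/
theorem tb_lam' (hh : 0 < h) {k l : Ix n} (hkl : l.1 ≤ k.1) (hc : cls k = cls l) :
    tb a h k ⊆ tb a h l ∨ Disjoint (tb a h k) (tb a h l) := by
  have hu : ∀ x : Fin n → ℝ, ∀ i, (x i - a i) / sd h l * 2 ^ (k.1 - l.1) =
      (x i - a i) / sd h k := by
    intro x i
    unfold sd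
    obtain ⟨m, hm⟩ := Nat.exists_eq_add_of_le hkl
    rw [hm, Nat.add_sub_cancel_left, pow_add]
    field_simp
  have hp : (0 : ℝ) < 2 ^ (k.1 - l.1) := by positivity
  by_cases hcon : ∀ i, (l.2 i - 1) * 2 ^ (k.1 - l.1) ≤ k.2 i - 1 ∧
      k.2 i + 2 ≤ (l.2 i + 2) * 2 ^ (k.1 - l.1)
  · left
    intro x hx
    rw [mem_tb' hh] at hx ⊢
    intro i
    obtain ⟨h1, h2⟩ := hx i
    obtain ⟨h3, h4⟩ := hcon i
    have h3' : ((l.2 i : ℝ) - 1) * 2 ^ (k.1 - l.1) ≤ k.2 i - 1 := by exact_mod_cast h3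
    have h4' : (k.2 i : ℝ) + 2 ≤ (l.2 i + 2) * 2 ^ (k.1 - l.1) := by exact_mod_cast h4
    rw [← hu x i] at h1 h2
    constructor
    · exact le_of_mul_le_mul_right (h3'.trans h1) hp
    · exact lt_of_mul_lt_mul_right (h2.trans_le h4') hp.le
  · right
    push Not at hcon
    obtain ⟨i, hi⟩ := hcon
    rw [Set.disjoint_left]
    intro x hx hx'
    rw [mem_tb' hh] at hx hx'
    obtain ⟨h1, h2⟩ := hx i
    obtain ⟨h5, h6⟩ := hx' i
    have h5' := mul_le_mul_of_nonneg_right h5 hp.le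
    have h6' := mul_lt_mul_of_pos_right h6 hp
    rw [hu] at h5' h6'
    have d1 := cls_dvd hkl hc i
    have d2 : (3 : ℤ) ∣ (l.2 i + 2) * 2 ^ (k.1 - l.1) - (k.2 i - 1) := by
      have : (l.2 i + 2) * 2 ^ (k.1 - l.1) - (k.2 i - 1) =
        ((l.2 i - 1) * 2 ^ (k.1 - l.1) - (k.2 i - 1)) + 3 * 2 ^ (k.1 - l.1) := by ring
      rw [this]
      exact dvd_add d1 (dvd_mul_right 3 _)
    have e1 := key_int d1
    have e2 := key_int d2
    -- from the reals: `l.2 - 1` scaled is `< k.2 + 2`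
    have g1 : (l.2 i - 1) * 2 ^ (k.1 - l.1) < k.2 i + 2 := by
      have : ((l.2 i : ℝ) - 1) * 2 ^ (k.1 - l.1) < k.2 i + 2 := h5'.trans_lt h2
      exact_mod_cast this
    have g2 : k.2 i - 1 < (l.2 i + 2) * 2 ^ (k.1 - l.1) := by
      have : (k.2 i : ℝ) - 1 < (l.2 i + 2) * 2 ^ (k.1 - l.1) := h1.trans_lt h6'
      exact_mod_cast this
    have e1' : (l.2 i - 1) * 2 ^ (k.1 - l.1) ≤ k.2 i - 1 := by
      rcases e1 with e1 | e1
      · exact e1
      · exact absurd g1 (not_lt.mpr e1)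
    have e2' : k.2 i + 2 ≤ (l.2 i + 2) * 2 ^ (k.1 - l.1) := by
      rcases e2 with e2 | e2
      · exact absurd g2 (not_lt.mpr e2)
      · exact e2
    exact absurd (hi e1') (not_lt.mpr e2')

theorem tb_lam (hh : 0 < h) {k l : Ix n} (hc : cls k = cls l) :
    tb a h k ⊆ tb a h l ∨ tb a h l ⊆ tb a h k ∨ Disjoint (tb a h k) (tb a h l) := by
  rcases le_total l.1 k.1 with hkl | hkl
  · rcases tb_lam' (a := a) hh hkl hc with h1 | h1
    · exact Or.inl h1
    · exact Or.inr (Or.inr h1)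
  · rcases tb_lam' (a := a) hh hkl hc.symm with h1 | h1
    · exact Or.inr (Or.inl h1)
    · exact Or.inr (Or.inr h1.symm)

/-- triples determine the index -/
theorem tb_inj [NeZero n] (hh : 0 < h) {k l : Ix n} (he : tb a h k = tb a h l) : k = l := by
  have hs : sd h k = sd h l := by
    have h1 := real_tb (a := a) hh k
    have h2 := real_tb (a := a) hh l
    rw [he, h2] at h1
    have h3 : sd h l ^ n = sd h k ^ n := mul_left_cancel₀ (by positivity) h1
    exact ((pow_left_inj₀ (sd_pos hh l).le (sd_pos hh k).le (NeZero.ne n)).mp h3).symm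
  have h1 : k.1 = l.1 := by
    unfold sd at hs
    have h4 : (2 : ℝ) ^ k.1 = 2 ^ l.1 := by
      have : h ≠ 0 := hh.ne'
      field_simp at hs
      exact hs.symm
    exact (pow_right_injective₀ (by norm_num) (by norm_num)) h4
  have hsp := sd_pos hh l
  have hle : ∀ k l : Ix n, sd h k = sd h l → tb a h k = tb a h l → ∀ i, k.2 i ≤ l.2 i := by
    intro k l hs he i
    have hsp := sd_pos hh l
    have hmem : (fun i => cor a h l i - sd h l) ∈ tb a h l := by
      intro i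
      constructor <;> linarith
    rw [← he] at hmem
    have h5 := (hmem i).1
    unfold cor at h5
    rw [hs] at h5
    have h6 : (k.2 i : ℝ) * sd h l ≤ l.2 i * sd h l := by linarith
    have h7 := le_of_mul_le_mul_right h6 hsp
    exact_mod_cast h7
  apply Prod.ext h1
  funext i
  exact le_antisymm (hle k l hs he i) (hle l k hs.symm he.symm i)

theorem cb_inj [NeZero n] (hh : 0 < h) {k l : Ix n} (he : cb a h k = cb a h l) : k = l := by
  have hs : sd h k = sd h l := by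
    have h1 := real_cb (a := a) hh k
    rw [he, real_cb (a := a) hh l] at h1
    exact ((pow_left_inj₀ (sd_pos hh l).le (sd_pos hh k).le (NeZero.ne n)).mp h1).symm
  have h1 : k.1 = l.1 := by
    unfold sd at hs
    have h4 : (2 : ℝ) ^ k.1 = 2 ^ l.1 := by
      have : h ≠ 0 := hh.ne'
      field_simp at hs
      exact hs.symm
    exact (pow_right_injective₀ (by norm_num) (by norm_num)) h4
  have h2 := cor_mem_cb (a := a) hh k
  have h3 : ix a h k.1 (cor a h k) = k := (mem_cb hh).mp h2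
  rw [he, mem_cb hh, ← h1, h3] at h2
  exact h2

/-- the indices of the cubes inside the base -/
def Ok (k : Ix n) : Prop := ∀ i, 0 ≤ k.2 i ∧ k.2 i < 2 ^ k.1

theorem Ok.up {k : Ix n} (hk : Ok k) {j : ℕ} (hj : j ≤ k.1) : Ok (up k j) := by
  intro i
  obtain ⟨h1, h2⟩ := hk i
  obtain ⟨m, hm⟩ := Nat.exists_eq_add_of_le hj
  unfold Sp.up
  simp only
  rw [hm, Nat.add_sub_cancel_left]
  rw [hm, pow_add] at h2
  exact ⟨Int.ediv_nonneg h1 (by positivity), Int.ediv_lt_of_lt_mul (by positivity) h2⟩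

theorem Ok.zero : Ok ((0, fun _ => 0) : Ix n) := fun i => by simp

theorem Ok.up_zero {k : Ix n} (hk : Ok k) : Sp.up k 0 = (0, fun _ => 0) := by
  have h1 := hk.up (Nat.zero_le _)
  apply Prod.ext
  · rfl
  · funext i
    have := h1 i
    have h2 : (Sp.up k 0).1 = 0 := rfl
    rw [h2] at this
    simp only [pow_zero] at this
    simp only
    omega

theorem cb_zero : cb a h (0, fun _ => 0) = box a h := by
  unfold cb cor sd
  simp

theorem tb_zero : tb a h (0, fun _ => 0) = box (fun i => a i - h) (3 * h) := by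
  unfold tb cor sd
  simp

theorem Ok.subset (hh : 0 < h) {k : Ix n} (hk : Ok k) : cb a h k ⊆ box a h := by
  rw [← cb_zero, ← hk.up_zero]
  exact cb_subset_up hh (Nat.zero_le _)

theorem Ok.tsubset (hh : 0 < h) {k : Ix n} (hk : Ok k) :
    tb a h k ⊆ tb a h (0, fun _ => 0) := by
  rw [← hk.up_zero]
  exact tb_subset_up hh (Nat.zero_le _)

theorem ok_ix (hh : 0 < h) {x : Fin n → ℝ} (hx : x ∈ box a h) (j : ℕ) : Ok (ix a h j x) := by
  intro i
  obtain ⟨h1, h2⟩ := hx i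
  unfold ix
  simp only
  have hs : 0 < h / 2 ^ j := by positivity
  constructor
  · apply Int.floor_nonneg.mpr
    apply div_nonneg _ hs.le
    linarith
  · rw [Int.floor_lt]
    push_cast
    rw [div_lt_iff₀ hs]
    have : (2 : ℝ) ^ j * (h / 2 ^ j) = h := by field_simp
    linarith

open Classical in
/-- all indices up to level `N` -/
noncomputable def ixs (n N : ℕ) : Finset (Ix n) :=
  ((Finset.range (N + 1)) ×ˢ (Fintype.piFinset fun _ : Fin n => Finset.Ico (0 : ℤ) (2 ^ N))).filter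
    Ok

theorem mem_ixs {N : ℕ} {k : Ix n} : k ∈ ixs n N ↔ k.1 ≤ N ∧ Ok k := by
  classical
  unfold ixs
  rw [Finset.mem_filter, Finset.mem_product, Finset.mem_range, Fintype.mem_piFinset]
  constructor
  · rintro ⟨⟨h1, _⟩, h3⟩
    exact ⟨by omega, h3⟩
  · rintro ⟨h1, h2⟩
    refine ⟨⟨by omega, fun i => ?_⟩, h2⟩
    rw [Finset.mem_Ico]
    exact ⟨(h2 i).1, (h2 i).2.trans_le (pow_le_pow_right₀ (by norm_num) h1)⟩

theorem ixs_mono {N N' : ℕ} (h : N ≤ N') : ixs n N ⊆ ixs n N' := by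
  intro k hk
  rw [mem_ixs] at hk ⊢
  exact ⟨hk.1.trans h, hk.2⟩

/-! ### maximal elements -/

open Classical in
/-- the maximal elements -/
noncomputable def mx {ι α : Type*} (s : Finset ι) (C : ι → Set α) : Finset ι :=
  s.filter fun k => ∀ l ∈ s, C k ⊆ C l → l = k

theorem mem_mx {ι α : Type*} {s : Finset ι} {C : ι → Set α} {k : ι} :
    k ∈ mx s C ↔ k ∈ s ∧ ∀ l ∈ s, C k ⊆ C l → l = k := by
  classical
  unfold mx
  rw [Finset.mem_filter]

theorem mx_disj {ι α : Type*} {s : Finset ι} {C : ι → Set α}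
    (hl : ∀ k ∈ s, ∀ l ∈ s, C k ⊆ C l ∨ C l ⊆ C k ∨ Disjoint (C k) (C l)) {k l : ι}
    (hk : k ∈ mx s C) (hl' : l ∈ mx s C) (hne : k ≠ l) : Disjoint (C k) (C l) := by
  rw [mem_mx] at hk hl'
  rcases hl k hk.1 l hl'.1 with h1 | h1 | h1
  · exact absurd (hk.2 l hl'.1 h1).symm hne
  · exact absurd (hl'.2 k hk.1 h1) hne
  · exact h1

theorem mx_cover {ι α : Type*} {s : Finset ι} {C : ι → Set α}
    (hinj : ∀ k ∈ s, ∀ l ∈ s, C k = C l → k = l) {k : ι} (hk : k ∈ s) :
    ∃ l ∈ mx s C, C k ⊆ C l := by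
  classical
  have hne : (s.filter fun l => C k ⊆ C l).Nonempty := ⟨k, Finset.mem_filter.mpr ⟨hk, le_rfl⟩⟩
  obtain ⟨l, hl, hmax⟩ := (s.filter fun l => C k ⊆ C l).exists_max_image
    (fun m => (s.filter fun l => C l ⊆ C m).card) hne
  rw [Finset.mem_filter] at hl
  refine ⟨l, ?_, hl.2⟩
  rw [mem_mx]
  refine ⟨hl.1, ?_⟩
  intro m hm hlm
  by_contra hne2
  have h1 := hmax m (Finset.mem_filter.mpr ⟨hm, hl.2.trans hlm⟩)
  have h2 : (s.filter fun p => C p ⊆ C l) ⊂ s.filter fun p => C p ⊆ C m := by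
    rw [Finset.ssubset_iff_subset_ne]
    refine ⟨?_, ?_⟩
    · intro p hp
      rw [Finset.mem_filter] at hp ⊢
      exact ⟨hp.1, hp.2.trans hlm⟩
    · intro heq
      have h3 : m ∈ s.filter fun p => C p ⊆ C m := Finset.mem_filter.mpr ⟨hm, le_rfl⟩
      rw [← heq, Finset.mem_filter] at h3
      exact hne2 (hinj m hm l hl.1 (Subset.antisymm h3.2 hlm))
  exact absurd h1 (not_le.mpr (Finset.card_lt_card h2))

end Pool.Agent.Helper51.Sp
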