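import Mathlib

/-! Elementary inequalities for sums over finite families with geometric structure, and finite
laminar families of sets. -/

open MeasureTheory Set

namespace Pool.Agent.Helper51.Sp

theorem geo_sum (B : Finset ℕ) {x : ℝ} (h0 : 0 ≤ x) (h1 : x < 1) :
    ∑ j ∈ B, x ^ j ≤ (1 - x)⁻¹ := by
  rw [← tsum_geometric_of_lt_one h0 h1]
  exact (summable_geometric_of_lt_one h0 h1).sum_le_tsum B fun j _ => pow_nonneg h0 j

theorem two_rpow_pos (x : ℝ) : (0 : ℝ) < 2 ^ x := Real.rpow_pos_of_pos (by norm_num) x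

theorem two_rpow_neg_lt_one {q : ℝ} (hq : 0 < q) : (2 : ℝ) ^ (-q) < 1 :=
  Real.rpow_lt_one_of_one_lt_of_neg (by norm_num) (by linarith)

/-- sums of distinct powers of two are controlled by the largest one -/
theorem geo {ι : Type*} (A : Finset ι) (l : ι → ℤ) (hinj : Set.InjOn l A) {q : ℝ} (hq : 0 < q)
    {M : ℤ} (hM : ∀ i ∈ A, l i ≤ M) :
    ∑ i ∈ A, (2 : ℝ) ^ (q * l i) ≤ (1 - (2 : ℝ) ^ (-q))⁻¹ * (2 : ℝ) ^ (q * M) := by
  classical
  have h1 : ∀ i ∈ A, (2 : ℝ) ^ (q * l i) = ((2 : ℝ) ^ (-q)) ^ (M - l i).toNat * 2 ^ (q * M) := by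
    intro i hi
    have h2 : ((M - l i).toNat : ℤ) = M - l i := Int.toNat_of_nonneg (by linarith [hM i hi])
    have h3 : ((M - l i).toNat : ℝ) = (M : ℝ) - l i := by
      have : (((M - l i).toNat : ℤ) : ℝ) = ((M - l i : ℤ) : ℝ) := by rw [h2]
      push_cast at this
      exact this
    rw [← Real.rpow_natCast, ← Real.rpow_mul (by norm_num), ← Real.rpow_add (by norm_num), h3]
    congr 1
    ring
  rw [Finset.sum_congr rfl h1, ← Finset.sum_mul]
  apply mul_le_mul_of_nonneg_right _ (two_rpow_pos _).le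
  have h4 : ∑ i ∈ A, ((2 : ℝ) ^ (-q)) ^ (M - l i).toNat =
      ∑ j ∈ A.image fun i => (M - l i).toNat, ((2 : ℝ) ^ (-q)) ^ j := by
    rw [Finset.sum_image]
    intro i hi j hj hij
    apply hinj hi hj
    simp only at hij
    have h5 := hM i hi
    have h6 := hM j hj
    omega
  rw [h4]
  exact geo_sum _ (two_rpow_pos _).le (two_rpow_neg_lt_one hq)

theorem geo_const_pos {q : ℝ} (hq : 0 < q) : 0 < (1 - (2 : ℝ) ^ (-q))⁻¹ := by
  apply inv_pos.mpr
  have := two_rpow_neg_lt_one hq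
  linarith

/-- power of a sum of distinct powers of two -/
theorem geo2 {ι : Type*} (A : Finset ι) (l : ι → ℤ) (hinj : Set.InjOn l A) {q r : ℝ}
    (hq : 0 < q) (hr : 0 < r) :
    (∑ i ∈ A, (2 : ℝ) ^ (q * l i)) ^ r ≤
      ((1 - (2 : ℝ) ^ (-q))⁻¹) ^ r * ∑ i ∈ A, (2 : ℝ) ^ (q * r * l i) := by
  rcases A.eq_empty_or_nonempty with h | h
  · subst h
    simp only [Finset.sum_empty, mul_zero]
    rw [Real.zero_rpow hr.ne']
  · obtain ⟨i0, hi0, hmax⟩ := A.exists_max_image l h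
    have h1 := geo A l hinj hq hmax
    have hc := geo_const_pos hq
    have h2 : 0 ≤ ∑ i ∈ A, (2 : ℝ) ^ (q * l i) :=
      Finset.sum_nonneg fun i _ => (two_rpow_pos _).le
    calc (∑ i ∈ A, (2 : ℝ) ^ (q * l i)) ^ r
        ≤ ((1 - (2 : ℝ) ^ (-q))⁻¹ * (2 : ℝ) ^ (q * l i0)) ^ r := Real.rpow_le_rpow h2 h1 hr.le
      _ = ((1 - (2 : ℝ) ^ (-q))⁻¹) ^ r * (2 : ℝ) ^ (q * r * l i0) := by
          rw [Real.mul_rpow hc.le (two_rpow_pos _).le, ← Real.rpow_mul (by norm_num)]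
          congr 2
          ring
      _ ≤ _ := by
          apply mul_le_mul_of_nonneg_left _ (Real.rpow_nonneg hc.le _)
          exact Finset.single_le_sum (f := fun i => (2 : ℝ) ^ (q * r * l i))
            (fun i _ => (two_rpow_pos _).le) hi0

/-- Hölder with exponential weights -/
theorem holder_exp (B : Finset ℕ) (b : ℕ → ℝ) (hb : ∀ k ∈ B, 0 ≤ b k) {r s : ℝ} (hr : 1 < r)
    (hs : 1 < s) :
    (∑ k ∈ B, b k) ^ r ≤
      ((1 - s ^ (-(1 / (r - 1))))⁻¹) ^ (r - 1) * ∑ k ∈ B, s ^ k * b k ^ r := by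
  have hr0 : 0 < r := by linarith
  have hr1 : 0 < r - 1 := by linarith
  have hs0 : 0 < s := by linarith
  set r' : ℝ := r / (r - 1) with hr'
  have hpq : r.HolderConjugate r' := Real.HolderConjugate.conjExponent hr
  have h1 := Real.inner_le_Lp_mul_Lq_of_nonneg B (f := fun k => s ^ ((k : ℝ) / r) * b k)
    (g := fun k => s ^ (-((k : ℝ) / r))) hpq
    (fun k hk => mul_nonneg (Real.rpow_nonneg hs0.le _) (hb k hk))
    (fun k _ => Real.rpow_nonneg hs0.le _)
  have e1 : ∀ k : ℕ, s ^ ((k : ℝ) / r) * b k * s ^ (-((k : ℝ) / r)) = b k := by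
    intro k
    rw [mul_right_comm, ← Real.rpow_add hs0, add_neg_cancel, Real.rpow_zero, one_mul]
  have e2 : ∀ k ∈ B, (s ^ ((k : ℝ) / r) * b k) ^ r = s ^ k * b k ^ r := by
    intro k hk
    rw [Real.mul_rpow (Real.rpow_nonneg hs0.le _) (hb k hk), ← Real.rpow_mul hs0.le,
      div_mul_cancel₀ _ hr0.ne', Real.rpow_natCast]
  have e3 : ∀ k : ℕ, (s ^ (-((k : ℝ) / r))) ^ r' = (s ^ (-(1 / (r - 1)))) ^ k := by
    intro k
    rw [← Real.rpow_mul hs0.le, ← Real.rpow_natCast, ← Real.rpow_mul hs0.le]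
    congr 1
    rw [hr']
    field_simp
  simp only [e1, e3] at h1
  rw [Finset.sum_congr rfl e2] at h1
  have hx : s ^ (-(1 / (r - 1))) < 1 :=
    Real.rpow_lt_one_of_one_lt_of_neg hs (by
      have : 0 < 1 / (r - 1) := by positivity
      linarith)
  have hx0 : 0 < s ^ (-(1 / (r - 1))) := Real.rpow_pos_of_pos hs0 _
  have h2 : ∑ k ∈ B, (s ^ (-(1 / (r - 1)))) ^ k ≤ (1 - s ^ (-(1 / (r - 1))))⁻¹ :=
    geo_sum B hx0.le hx
  have h3 : 0 ≤ ∑ k ∈ B, b k := Finset.sum_nonneg hb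
  have h4 : 0 ≤ ∑ k ∈ B, s ^ k * b k ^ r :=
    Finset.sum_nonneg fun k hk => mul_nonneg (by positivity) (Real.rpow_nonneg (hb k hk) _)
  have h5 : 0 ≤ ∑ k ∈ B, (s ^ (-(1 / (r - 1)))) ^ k :=
    Finset.sum_nonneg fun k _ => by positivity
  calc (∑ k ∈ B, b k) ^ r
      ≤ ((∑ k ∈ B, s ^ k * b k ^ r) ^ (1 / r) *
        (∑ k ∈ B, (s ^ (-(1 / (r - 1)))) ^ k) ^ (1 / r')) ^ r := Real.rpow_le_rpow h3 h1 hr0.le
    _ = (∑ k ∈ B, s ^ k * b k ^ r) * (∑ k ∈ B, (s ^ (-(1 / (r - 1)))) ^ k) ^ (r - 1) := by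
        rw [Real.mul_rpow (Real.rpow_nonneg h4 _) (Real.rpow_nonneg h5 _), ← Real.rpow_mul h4,
          ← Real.rpow_mul h5, one_div_mul_cancel hr0.ne', Real.rpow_one]
        congr 2
        rw [hr']
        field_simp
    _ ≤ (∑ k ∈ B, s ^ k * b k ^ r) * ((1 - s ^ (-(1 / (r - 1))))⁻¹) ^ (r - 1) := by
        apply mul_le_mul_of_nonneg_left _ h4
        exact Real.rpow_le_rpow h5 h2 hr1.le
    _ = _ := mul_comm _ _

/-! ### Laminar families -/

variable {α : Type*}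

/-- a finite laminar family of nonempty sets -/
structure Lam (S : Finset (Set α)) : Prop where
  lam : ∀ Q ∈ S, ∀ R ∈ S, Q ⊆ R ∨ R ⊆ Q ∨ Disjoint Q R
  ne : ∀ Q ∈ S, Q.Nonempty

theorem Lam.mono {S S' : Finset (Set α)} (h : Lam S) (hs : S' ⊆ S) : Lam S' :=
  ⟨fun Q hQ R hR => h.lam Q (hs hQ) R (hs hR), fun Q hQ => h.ne Q (hs hQ)⟩

theorem Lam.chain {S : Finset (Set α)} (h : Lam S) {Q R : Set α} (hQ : Q ∈ S) (hR : R ∈ S)
    {x : α} (hxQ : x ∈ Q) (hxR : x ∈ R) : Q ⊆ R ∨ R ⊆ Q := by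
  rcases h.lam Q hQ R hR with h1 | h1 | h1
  · exact Or.inl h1
  · exact Or.inr h1
  · exact absurd hxR (Set.disjoint_left.mp h1 hxQ)

theorem Lam.anc_chain {S : Finset (Set α)} (h : Lam S) {P Q R : Set α} (hP : P ∈ S)
    (hQ : Q ∈ S) (hR : R ∈ S) (hPQ : P ⊆ Q) (hPR : P ⊆ R) : Q ⊆ R ∨ R ⊆ Q := by
  obtain ⟨x, hx⟩ := h.ne P hP
  exact h.chain hQ hR (hPQ hx) (hPR hx)

open Classical in
/-- the ancestors of a set (itself included if it is in the family) -/
noncomputable def anc (S : Finset (Set α)) (Q : Set α) : Finset (Set α) := S.filter (Q ⊆ ·)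

theorem mem_anc {S : Finset (Set α)} {Q R : Set α} : R ∈ anc S Q ↔ R ∈ S ∧ Q ⊆ R := by
  classical
  unfold anc
  rw [Finset.mem_filter]

/-- the generation of a member -/
noncomputable def gen (S : Finset (Set α)) (Q : Set α) : ℕ := (anc S Q).card

theorem gen_le {S : Finset (Set α)} {Q R : Set α} (h : Q ⊆ R) : gen S R ≤ gen S Q := by
  apply Finset.card_le_card
  intro P hP
  rw [mem_anc] at hP ⊢
  exact ⟨hP.1, h.trans hP.2⟩

theorem gen_lt {S : Finset (Set α)} {Q R : Set α} (hQ : Q ∈ S) (h : Q ⊂ R) :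
    gen S R < gen S Q := by
  apply Finset.card_lt_card
  rw [Finset.ssubset_iff_subset_ne]
  refine ⟨?_, ?_⟩
  · intro P hP
    rw [mem_anc] at hP ⊢
    exact ⟨hP.1, h.subset.trans hP.2⟩
  · intro heq
    have h1 : Q ∈ anc S Q := mem_anc.mpr ⟨hQ, le_rfl⟩
    rw [← heq, mem_anc] at h1
    exact h.not_subset h1.2

theorem gen_pos {S : Finset (Set α)} {Q : Set α} (hQ : Q ∈ S) : 1 ≤ gen S Q :=
  Finset.card_pos.mpr ⟨Q, mem_anc.mpr ⟨hQ, le_rfl⟩⟩

theorem gen_inj {S : Finset (Set α)} (_h : Lam S) {Q R : Set α} (hQ : Q ∈ S) (hR : R ∈ S)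
    (hc : Q ⊆ R ∨ R ⊆ Q) (hg : gen S Q = gen S R) : Q = R := by
  by_contra hne
  rcases hc with h1 | h1
  · have := gen_lt hQ (Set.ssubset_iff_subset_ne.mpr ⟨h1, hne⟩)
    omega
  · have := gen_lt hR (Set.ssubset_iff_subset_ne.mpr ⟨h1, fun h => hne h.symm⟩)
    omega

/-- ancestors of every generation exist -/
theorem exists_anc {S : Finset (Set α)} (h : Lam S) {Q : Set α} (hQ : Q ∈ S) {j : ℕ}
    (hj1 : 1 ≤ j) (hj : j ≤ gen S Q) : ∃ R ∈ S, Q ⊆ R ∧ gen S R = j := by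
  classical
  have h1 : (anc S Q).image (gen S) = Finset.Icc 1 (gen S Q) := by
    apply Finset.eq_of_subset_of_card_le
    · intro m hm
      rw [Finset.mem_image] at hm
      obtain ⟨R, hR, rfl⟩ := hm
      rw [mem_anc] at hR
      rw [Finset.mem_Icc]
      exact ⟨gen_pos hR.1, gen_le hR.2⟩
    · rw [Nat.card_Icc, Finset.card_image_of_injOn]
      · simp [gen]
      · intro R hR R' hR' heq
        have hR2 := mem_anc.mp hR
        have hR2' := mem_anc.mp hR'
        exact gen_inj h hR2.1 hR2'.1 (h.anc_chain hQ hR2.1 hR2'.1 hR2.2 hR2'.2) heq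
  have h2 : j ∈ (anc S Q).image (gen S) := by
    rw [h1, Finset.mem_Icc]
    exact ⟨hj1, hj⟩
  rw [Finset.mem_image] at h2
  obtain ⟨R, hR, hRj⟩ := h2
  rw [mem_anc] at hR
  exact ⟨R, hR.1, hR.2, hRj⟩

open Classical in
/-- the members inside a given set -/
noncomputable def sub (S : Finset (Set α)) (R : Set α) : Finset (Set α) := S.filter (· ⊆ R)

theorem mem_sub {S : Finset (Set α)} {Q R : Set α} : Q ∈ sub S R ↔ Q ∈ S ∧ Q ⊆ R := by
  classical
  unfold sub
  rw [Finset.mem_filter]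

theorem sub_subset {S : Finset (Set α)} {R : Set α} : sub S R ⊆ S := fun _ hQ => (mem_sub.mp hQ).1

/-- the Carleson condition -/
def Carl (S : Finset (Set α)) (ν : Set α → ℝ) (Λ : ℝ) : Prop :=
  ∀ R ∈ S, ∑ Q ∈ sub S R, ν Q ≤ Λ * ν R

open Classical in
/-- exponential decay of the generations -/
theorem carl_exp {S : Finset (Set α)} (h : Lam S) {ν : Set α → ℝ} (hν : ∀ Q ∈ S, 0 ≤ ν Q)
    {Λ : ℝ} (hΛ : 1 ≤ Λ) (hC : Carl S ν Λ) :
    ∑ Q ∈ S, (1 + 1 / (2 * Λ)) ^ gen S Q * ν Q ≤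
      4 * Λ ^ 2 * ∑ Q ∈ S.filter (fun Q => gen S Q = 1), ν Q := by
  have hΛ0 : 0 < Λ := by linarith
  set s : ℝ := 1 + 1 / (2 * Λ) with hs
  have hs0 : 0 < s := by positivity
  set a : ℕ → ℝ := fun k => ∑ Q ∈ S.filter (fun Q => gen S Q = k), ν Q with ha
  set T : ℕ → ℝ := fun k => ∑ Q ∈ S.filter (fun Q => k ≤ gen S Q), ν Q with hT
  have ha0 : ∀ k, 0 ≤ a k := fun k =>
    Finset.sum_nonneg fun Q hQ => hν Q (Finset.mem_filter.mp hQ).1
  have hT0 : ∀ k, 0 ≤ T k := fun k =>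
    Finset.sum_nonneg fun Q hQ => hν Q (Finset.mem_filter.mp hQ).1
  have hTsucc : ∀ k, T k = a k + T (k + 1) := by
    intro k
    rw [ha, hT]
    simp only
    rw [← Finset.sum_union]
    · apply Finset.sum_congr _ fun _ _ => rfl
      ext Q
      simp only [Finset.mem_filter, Finset.mem_union]
      constructor
      · rintro ⟨h1, h2⟩
        rcases Nat.eq_or_lt_of_le h2 with h3 | h3
        · exact Or.inl ⟨h1, h3.symm⟩
        · exact Or.inr ⟨h1, h3⟩
      · rintro (⟨h1, h2⟩ | ⟨h1, h2⟩)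
        · exact ⟨h1, h2.ge⟩
        · exact ⟨h1, by omega⟩
    · rw [Finset.disjoint_left]
      intro Q h1 h2
      rw [Finset.mem_filter] at h1 h2
      omega
  have hTa : ∀ k, 1 ≤ k → T k ≤ Λ * a k := by
    intro k hk
    have h1 : T k ≤ ∑ R ∈ S.filter (fun Q => gen S Q = k), ∑ Q ∈ sub S R, ν Q := by
      rw [hT]
      simp only
      rw [← Finset.sum_biUnion]
      · apply Finset.sum_le_sum_of_subset_of_nonneg
        · intro Q hQ
          rw [Finset.mem_filter] at hQ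
          obtain ⟨R, hR, hQR, hg⟩ := exists_anc h hQ.1 hk hQ.2
          rw [Finset.mem_biUnion]
          exact ⟨R, Finset.mem_filter.mpr ⟨hR, hg⟩, mem_sub.mpr ⟨hQ.1, hQR⟩⟩
        · intro Q hQ _
          rw [Finset.mem_biUnion] at hQ
          obtain ⟨R, _, hQR⟩ := hQ
          exact hν Q (mem_sub.mp hQR).1
      · intro R hR R' hR' hne
        rw [Function.onFun, Finset.disjoint_left]
        intro Q hQ hQ'
        rw [mem_sub] at hQ hQ'
        have hR2 := Finset.mem_filter.mp hR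
        have hR2' := Finset.mem_filter.mp hR'
        exact hne (gen_inj h hR2.1 hR2'.1 (h.anc_chain hQ.1 hR2.1 hR2'.1 hQ.2 hQ'.2)
          (hR2.2.trans hR2'.2.symm))
    refine h1.trans ?_
    rw [ha, Finset.mul_sum]
    apply Finset.sum_le_sum
    intro R hR
    exact hC R (Finset.mem_filter.mp hR).1
  -- decay of the tails
  have hθ : ∀ k, 1 ≤ k → T (k + 1) ≤ (1 - 1 / Λ) * T k := by
    intro k hk
    have h1 := hTsucc k
    have h2 := hTa k hk
    have h3 : T k / Λ ≤ a k := by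
      rw [div_le_iff₀ hΛ0]
      linarith
    have h4 : (1 - 1 / Λ) * T k = T k - T k / Λ := by ring
    rw [h4]
    linarith
  have hθ0 : 0 ≤ 1 - 1 / Λ := by
    have : 1 / Λ ≤ 1 := by
      rw [div_le_one hΛ0]
      exact hΛ
    linarith
  have hdec : ∀ k, T (k + 1) ≤ (1 - 1 / Λ) ^ k * T 1 := by
    intro k
    induction k with
    | zero => simp
    | succ k ih =>
      calc T (k + 1 + 1) ≤ (1 - 1 / Λ) * T (k + 1) := hθ (k + 1) (by omega)
        _ ≤ (1 - 1 / Λ) * ((1 - 1 / Λ) ^ k * T 1) := mul_le_mul_of_nonneg_left ih hθ0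
        _ = _ := by rw [pow_succ]; ring
  -- sum over generations
  have hsum : ∑ Q ∈ S, s ^ gen S Q * ν Q = ∑ k ∈ Finset.range S.card, s ^ (k + 1) * a (k + 1) := by
    have h1 : ∀ Q ∈ S, gen S Q - 1 ∈ Finset.range S.card := by
      intro Q hQ
      rw [Finset.mem_range]
      have h2 : gen S Q ≤ S.card := Finset.card_le_card (Finset.filter_subset _ _)
      have h3 := gen_pos hQ
      omega
    rw [← Finset.sum_fiberwise_of_maps_to h1]
    apply Finset.sum_congr rfl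
    intro k _
    rw [ha]
    simp only
    rw [Finset.mul_sum]
    apply Finset.sum_congr
    · ext Q
      simp only [Finset.mem_filter]
      constructor
      · rintro ⟨h1, h2⟩
        have := gen_pos h1
        exact ⟨h1, by omega⟩
      · rintro ⟨h1, h2⟩
        exact ⟨h1, by omega⟩
    · intro Q hQ
      rw [(Finset.mem_filter.mp hQ).2]
  rw [hsum]
  set x : ℝ := s * (1 - 1 / Λ) with hx
  have hx0 : 0 ≤ x := mul_nonneg hs0.le hθ0
  have hx1 : x ≤ 1 - 1 / (2 * Λ) := by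
    rw [hx, hs]
    have : (1 + 1 / (2 * Λ)) * (1 - 1 / Λ) = 1 - 1 / (2 * Λ) - 1 / (2 * Λ ^ 2) := by
      field_simp
      ring
    rw [this]
    have : 0 < 1 / (2 * Λ ^ 2) := by positivity
    linarith
  have hx2 : x < 1 := by
    have : 0 < 1 / (2 * Λ) := by positivity
    linarith
  calc ∑ k ∈ Finset.range S.card, s ^ (k + 1) * a (k + 1)
      ≤ ∑ k ∈ Finset.range S.card, s * T 1 * x ^ k := by
        apply Finset.sum_le_sum
        intro k _
        have h1 : a (k + 1) ≤ T (k + 1) := by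
          have := hTsucc (k + 1)
          have := hT0 (k + 1 + 1)
          linarith
        calc s ^ (k + 1) * a (k + 1) ≤ s ^ (k + 1) * ((1 - 1 / Λ) ^ k * T 1) :=
              mul_le_mul_of_nonneg_left (h1.trans (hdec k)) (by positivity)
          _ = s * T 1 * x ^ k := by rw [hx, mul_pow, pow_succ]; ring
    _ = s * T 1 * ∑ k ∈ Finset.range S.card, x ^ k := by rw [← Finset.mul_sum]
    _ ≤ s * T 1 * (1 - x)⁻¹ :=
        mul_le_mul_of_nonneg_left (geo_sum _ hx0 hx2) (mul_nonneg hs0.le (hT0 1))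
    _ ≤ 2 * (Λ * a 1) * (2 * Λ) := by
        have h1 : s ≤ 2 := by
          rw [hs]
          have : 1 / (2 * Λ) ≤ 1 := by
            rw [div_le_one (by positivity)]
            linarith
          linarith
        have h2 : (1 - x)⁻¹ ≤ 2 * Λ := by
          rw [inv_le_comm₀ (by linarith) (by positivity)]
          have : (2 * Λ)⁻¹ = 1 / (2 * Λ) := by rw [one_div]
          rw [this]
          linarith
        have h3 := hTa 1 le_rfl
        have h4 : s * T 1 ≤ 2 * (Λ * a 1) := mul_le_mul h1 h3 (hT0 1) (by norm_num)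
        exact mul_le_mul h4 h2 (inv_nonneg.mpr (by linarith))
          (by have := ha0 1; positivity)
    _ = _ := by rw [ha]; ring

end Pool.Agent.Helper51.Sp
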