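import Pool.Agent.Helper51.CZKolm
import Pool.Agent.Helper51.SPGeo
import Pool.Agent.Helper51.SPLam

/-! Basic facts on the operator: linearity on test functions, Chebyshev's inequality, and the
integral of the image of a mean zero function off the triple. -/

open MeasureTheory Set Filter Topology
open scoped ENNReal NNReal

namespace Pool.Agent.Helper51.Sp

open Mixed

variable {n : ℕ}

/-! ### test functions -/

theorem tst_add {f g : Fn n} (hf : IsTest f) (hg : IsTest g) : IsTest (fun x => f x + g x) := by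
  obtain ⟨m1, ⟨C1, b1⟩, r1, s1⟩ := hf
  obtain ⟨m2, ⟨C2, b2⟩, r2, s2⟩ := hg
  refine ⟨m1.add m2, ⟨C1 + C2, fun x => (abs_add_le _ _).trans (add_le_add (b1 x) (b2 x))⟩,
    max r1 r2, fun x hx => ?_⟩
  show f x + g x = 0
  rw [s1 x ((le_max_left _ _).trans_lt hx), s2 x ((le_max_right _ _).trans_lt hx), add_zero]

theorem tst_mul {f : Fn n} (hf : IsTest f) (c : ℝ) : IsTest (fun x => c * f x) := by
  obtain ⟨m1, ⟨C1, b1⟩, r1, s1⟩ := hf
  refine ⟨m1.const_mul c, ⟨|c| * C1, fun x => ?_⟩, r1, fun x hx => ?_⟩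
  · rw [abs_mul]
    exact mul_le_mul_of_nonneg_left (b1 x) (abs_nonneg c)
  · show c * f x = 0
    rw [s1 x hx, mul_zero]

theorem tst_zero : IsTest (fun _ : Pt n => (0 : ℝ)) :=
  ⟨measurable_const, ⟨0, fun _ => by simp⟩, 0, fun _ _ => rfl⟩

theorem tst_sum {ι : Type*} (s : Finset ι) {b : ι → Fn n} (hb : ∀ k ∈ s, IsTest (b k)) :
    IsTest (fun x => ∑ k ∈ s, b k x) := by
  classical
  induction s using Finset.induction_on with
  | empty => simpa using tst_zero
  | insert k s hk ih =>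
    have h1 := tst_add (hb k (Finset.mem_insert_self k s))
      (ih fun k hk => hb k (Finset.mem_insert_of_mem hk))
    refine cast ?_ h1
    congr 1
    funext x
    rw [Finset.sum_insert hk]

theorem tst_ind {f : Fn n} (hf : IsTest f) {s : Set (Pt n)} (hs : MeasurableSet s) :
    IsTest (s.indicator f) := by
  obtain ⟨m1, ⟨C1, b1⟩, r1, s1⟩ := hf
  refine ⟨m1.indicator hs, ⟨C1, fun x => ?_⟩, r1, fun x hx => ?_⟩
  · by_cases h : x ∈ s
    · rw [indicator_of_mem h]; exact b1 x
    · rw [indicator_of_notMem h, abs_zero]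
      exact (abs_nonneg _).trans (b1 x)
  · by_cases h : x ∈ s
    · rw [indicator_of_mem h]; exact s1 x hx
    · rw [indicator_of_notMem h]

/-- the indicator of a bounded set -/
theorem tst_one {s : Set (Pt n)} (hs : MeasurableSet s) (hb : Bornology.IsBounded s) :
    IsTest (s.indicator fun _ => (1 : ℝ)) := by
  refine ⟨measurable_const.indicator hs, ⟨1, fun x => ?_⟩, ?_⟩
  · by_cases h : x ∈ s
    · rw [indicator_of_mem h]; simp
    · rw [indicator_of_notMem h]; simp
  · obtain ⟨r, hr⟩ := hb.exists_norm_le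
    refine ⟨r, fun x hx => ?_⟩
    rw [indicator_of_notMem]
    intro h
    exact absurd (hr x h) (not_le.mpr hx)

theorem bounded_box (a : Fin n → ℝ) (h : ℝ) : Bornology.IsBounded (box a h) := by
  apply (Metric.isBounded_Icc a (fun i => a i + h)).subset
  intro x hx
  exact ⟨fun i => (hx i).1, fun i => (hx i).2.le⟩

theorem tst_integrable {f : Fn n} (hf : IsTest f) : Integrable f volume := by
  obtain ⟨m1, ⟨C1, b1⟩, r1, s1⟩ := hf
  have h1 : IntegrableOn f (Metric.closedBall 0 r1) volume := by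
    apply Integrable.mono' (g := fun _ => C1)
    · exact integrableOn_const (measure_closedBall_lt_top.ne)
    · exact m1.aestronglyMeasurable
    · exact Eventually.of_forall b1
  rw [integrableOn_iff_integrable_of_support_subset] at h1
  · exact h1
  · intro x hx
    rw [mem_closedBall_zero_iff]
    by_contra hcon
    exact hx (s1 x (not_le.mp hcon))

theorem tst_abs {f : Fn n} (hf : IsTest f) : IsTest (fun x => |f x|) := by
  obtain ⟨m1, ⟨C1, b1⟩, r1, s1⟩ := hf
  refine ⟨m1.abs, ⟨C1, fun x => ?_⟩, r1, fun x hx => ?_⟩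
  · rw [abs_abs]; exact b1 x
  · show |f x| = 0
    rw [s1 x hx, abs_zero]

theorem tst_sq {f : Fn n} (hf : IsTest f) : IsTest (fun x => f x ^ 2) := by
  obtain ⟨m1, ⟨C1, b1⟩, r1, s1⟩ := hf
  refine ⟨m1.pow_const 2, ⟨C1 ^ 2, fun x => ?_⟩, r1, fun x hx => ?_⟩
  · rw [abs_pow]
    exact pow_le_pow_left₀ (abs_nonneg _) (b1 x) 2
  · show f x ^ 2 = 0
    rw [s1 x hx]; norm_num

/-! ### the operator -/

/-- the data of a Calderon-Zygmund operator -/
structure Opr (T : Fn n → Fn n) (K : Pt n → Pt n → ℝ) (C2 Ck δ : ℝ) : Prop where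
  bdd : IsBdd T
  l2 : ∀ f, IsTest f → norm2 (T f) ≤ ENNReal.ofReal C2 * norm2 f
  c2 : 0 ≤ C2
  ck : 0 ≤ Ck
  δ0 : 0 < δ
  ker : IsKernel K Ck δ
  rep : HasKernel T K

variable {T : Fn n → Fn n} {K : Pt n → Pt n → ℝ} {C2 Ck δ : ℝ}

theorem exists_opr [NeZero n] (hT : IsCZO T) : ∃ K C2 Ck δ, Opr T K C2 Ck δ := by
  obtain ⟨hb, K, C, δ, h0, _, hK, hr⟩ := hT
  obtain ⟨C2, hC2⟩ := hb.bound
  refine ⟨K, C2, C, δ, hb, ?_, C2.2, ?_, h0, hK, hr⟩
  · intro f hf
    have := (hC2 f (test_memLp hf)).2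
    rwa [ENNReal.ofReal_coe_nnreal]
  · have h1 := hK.size (fun _ => 1) (fun _ => 0) (by
      intro h2
      have := congrFun h2 0
      simp at this)
    have h2 : gap (n := n) (fun _ => 1) (fun _ => 0) = 1 := by
      unfold gap
      have : ((fun _ => 1 : Fin n → ℝ) - fun _ => 0) = fun _ => (1 : ℝ) := by
        funext i; simp
      rw [this, pi_norm_const]
      simp
    rw [h2, one_pow, div_one] at h1
    exact (abs_nonneg _).trans h1

theorem Opr.memLp (h : Opr T K C2 Ck δ) {f : Fn n} (hf : IsTest f) : MemLp (T f) 2 volume := by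
  obtain ⟨C, hC⟩ := h.bdd.bound
  exact (hC f (test_memLp hf)).1

theorem Opr.add (h : Opr T K C2 Ck δ) {f g : Fn n} (hf : IsTest f) (hg : IsTest g) :
    T (fun x => f x + g x) =ᵐ[volume] fun x => T f x + T g x :=
  h.bdd.add f g (test_memLp hf) (test_memLp hg)

theorem Opr.zero (h : Opr T K C2 Ck δ) {f : Fn n} (hf : IsTest f) (h0 : f =ᵐ[volume] 0) :
    T f =ᵐ[volume] 0 := by
  have h1 := h.l2 f hf
  rw [norm2, norm2, eLpNorm_congr_ae h0, eLpNorm_zero, mul_zero] at h1
  have h3 : eLpNorm (T f) 2 volume = 0 := le_antisymm h1 zero_le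
  rwa [eLpNorm_eq_zero_iff (h.memLp hf).1 (by norm_num)] at h3

theorem Opr.sum (h : Opr T K C2 Ck δ) {ι : Type*} (s : Finset ι) {b : ι → Fn n}
    (hb : ∀ k ∈ s, IsTest (b k)) :
    T (fun x => ∑ k ∈ s, b k x) =ᵐ[volume] fun x => ∑ k ∈ s, T (b k) x := by
  classical
  induction s using Finset.induction_on with
  | empty =>
    simp only [Finset.sum_empty]
    exact h.zero tst_zero (EventuallyEq.refl _ _)
  | insert k s hk ih =>
    have h1 := h.add (hb k (Finset.mem_insert_self k s))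
      (tst_sum s fun k hk => hb k (Finset.mem_insert_of_mem hk))
    have h2 := ih fun k hk => hb k (Finset.mem_insert_of_mem hk)
    have e : (fun x => ∑ j ∈ insert k s, b j x) = fun x => b k x + ∑ j ∈ s, b j x := by
      funext x
      rw [Finset.sum_insert hk]
    rw [e]
    filter_upwards [h1, h2] with x h3 h4
    rw [h3, h4, Finset.sum_insert hk]

/-- the square of the `L²` norm -/
theorem norm2_sq {f : Fn n} (hf : IsTest f) :
    norm2 f ^ (2 : ℝ) = ENNReal.ofReal (∫ x, f x ^ 2) := by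
  have h1 := (test_memLp hf).eLpNorm_eq_integral_rpow_norm (by norm_num) (by norm_num)
  have h2 : ∫ x, ‖f x‖ ^ (2 : ℝ≥0∞).toReal = ∫ x, f x ^ 2 := by
    congr 1
    funext x
    simp
  rw [h2] at h1
  have h3 : 0 ≤ ∫ x, f x ^ 2 := integral_nonneg fun x => sq_nonneg _
  rw [norm2, h1, ENNReal.ofReal_rpow_of_nonneg (Real.rpow_nonneg h3 _) (by norm_num)]
  congr 1
  rw [← Real.rpow_mul h3]
  norm_num

theorem Opr.cheb (h : Opr T K C2 Ck δ) {f : Fn n} (hf : IsTest f) {t : ℝ} (ht : 0 < t) :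
    volume {x | t < |T f x|} ≤ ENNReal.ofReal (C2 ^ 2 / t ^ 2 * ∫ x, f x ^ 2) := by
  have h1 := mul_meas_ge_le_pow_eLpNorm' (volume : Measure (Pt n)) (p := 2) (by norm_num)
    (by norm_num) (h.memLp hf).1 (ENNReal.ofReal t)
  have h2 : volume {x | t < |T f x|} ≤ volume {x | ENNReal.ofReal t ≤ ‖T f x‖ₑ} := by
    apply measure_mono
    intro x hx
    rw [mem_ofPred_eq] at hx ⊢
    rw [← ofReal_norm, Real.norm_eq_abs]
    exact ENNReal.ofReal_le_ofReal hx.le
  have h3 : (ENNReal.ofReal t) ^ (2 : ℝ) * volume {x | t < |T f x|} ≤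
      ENNReal.ofReal (C2 ^ 2 * ∫ x, f x ^ 2) := by
    calc (ENNReal.ofReal t) ^ (2 : ℝ) * volume {x | t < |T f x|}
        ≤ (ENNReal.ofReal t) ^ (2 : ℝ) * volume {x | ENNReal.ofReal t ≤ ‖T f x‖ₑ} := by gcongr
      _ ≤ norm2 (T f) ^ (2 : ℝ) := by simpa using h1
      _ ≤ (ENNReal.ofReal C2 * norm2 f) ^ (2 : ℝ) := by
          gcongr
          exact h.l2 f hf
      _ = _ := by
          rw [ENNReal.mul_rpow_of_nonneg _ _ (by norm_num), norm2_sq hf,
            ENNReal.ofReal_rpow_of_nonneg h.c2 (by norm_num), ← ENNReal.ofReal_mul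
            (Real.rpow_nonneg h.c2 _)]
          norm_num
  have ht2 : 0 < t ^ 2 := by positivity
  have e1 : (ENNReal.ofReal t) ^ (2 : ℝ) = ENNReal.ofReal (t ^ 2) := by
    rw [ENNReal.ofReal_rpow_of_pos ht]
    norm_num
  rw [e1] at h3
  have h4 : volume {x | t < |T f x|} ≤
      ENNReal.ofReal (C2 ^ 2 * ∫ x, f x ^ 2) / ENNReal.ofReal (t ^ 2) := by
    rw [ENNReal.le_div_iff_mul_le (Or.inl (ENNReal.ofReal_pos.mpr ht2).ne')
      (Or.inl ENNReal.ofReal_ne_top), mul_comm]
    exact h3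
  rw [← ENNReal.ofReal_div_of_pos ht2] at h4
  refine h4.trans (le_of_eq ?_)
  congr 1
  ring

/-! ### the tail -/

/-- the tail integral constant -/
noncomputable def tlC (n : ℕ) (δ : ℝ) : ℝ := 4 ^ n * (1 - (2 : ℝ) ^ (-δ))⁻¹

theorem tlC_pos (n : ℕ) {δ : ℝ} (hδ : 0 < δ) : 0 < tlC n δ := by
  unfold tlC
  have := geo_const_pos hδ
  positivity

theorem tail_int (m : Pt n) {r δ : ℝ} (hr : 0 < r) (hδ : 0 < δ) :
    ∫⁻ x in {x : Pt n | r ≤ ‖x - m‖}, ENNReal.ofReal ((r / ‖x - m‖) ^ δ / ‖x - m‖ ^ n) ≤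
      ENNReal.ofReal (tlC n δ) := by
  set A : ℕ → Set (Pt n) := fun i => {x | 2 ^ i * r ≤ ‖x - m‖ ∧ ‖x - m‖ < 2 ^ (i + 1) * r} with hA
  have hcov : {x : Pt n | r ≤ ‖x - m‖} ⊆ ⋃ i, A i := by
    intro x hx
    rw [mem_ofPred_eq] at hx
    rw [mem_iUnion]
    have h1 : ∃ i : ℕ, ‖x - m‖ < 2 ^ (i + 1) * r := by
      obtain ⟨i, hi⟩ := pow_unbounded_of_one_lt (‖x - m‖ / r) (by norm_num : (1 : ℝ) < 2)
      refine ⟨i, ?_⟩
      rw [div_lt_iff₀ hr] at hi
      refine hi.trans_le (mul_le_mul_of_nonneg_right ?_ hr.le)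
      exact pow_le_pow_right₀ (by norm_num) (Nat.le_succ i)
    classical
    refine ⟨Nat.find h1, ?_, Nat.find_spec h1⟩
    rcases Nat.eq_zero_or_pos (Nat.find h1) with h0 | h0
    · rw [h0, pow_zero, one_mul]; exact hx
    · have h2 := Nat.find_min h1 (Nat.sub_lt h0 one_pos)
      have h3 : Nat.find h1 - 1 + 1 = Nat.find h1 := by omega
      rw [not_lt, h3] at h2
      exact h2
  have hterm : ∀ i : ℕ, ∫⁻ x in A i, ENNReal.ofReal ((r / ‖x - m‖) ^ δ / ‖x - m‖ ^ n) ≤
      ENNReal.ofReal (4 ^ n * ((2 : ℝ) ^ (-δ)) ^ i) := by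
    intro i
    have hri : 0 < 2 ^ i * r := by positivity
    have hAm : MeasurableSet (A i) := by
      apply MeasurableSet.inter
      · exact measurableSet_le measurable_const (measurable_id.sub_const m).norm
      · exact measurableSet_lt (measurable_id.sub_const m).norm measurable_const
    have hvol : volume (A i) ≤ ENNReal.ofReal (4 ^ n * (2 ^ i * r) ^ n) := by
      have h1 : A i ⊆ Metric.closedBall m (2 ^ (i + 1) * r) := by
        intro x hx
        rw [mem_closedBall_iff_norm]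
        exact hx.2.le
      refine (measure_mono h1).trans (le_of_eq ?_)
      rw [Real.volume_pi_closedBall _ (by positivity)]
      congr 1
      rw [Fintype.card_fin, ← mul_pow]
      congr 1
      rw [pow_succ]
      ring
    calc ∫⁻ x in A i, ENNReal.ofReal ((r / ‖x - m‖) ^ δ / ‖x - m‖ ^ n)
        ≤ ∫⁻ _x in A i, ENNReal.ofReal (((2 : ℝ) ^ (-δ)) ^ i / (2 ^ i * r) ^ n) := by
          apply setLIntegral_mono' hAm
          intro x hx
          apply ENNReal.ofReal_le_ofReal
          have hx0 : 0 < ‖x - m‖ := hri.trans_le hx.1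
          apply div_le_div₀ (by positivity)
          · have h2 : r / ‖x - m‖ ≤ 2 ^ (-(i : ℝ)) := by
              rw [Real.rpow_neg (by norm_num), Real.rpow_natCast, div_le_iff₀ hx0,
                inv_mul_eq_div, le_div_iff₀ (by positivity)]
              linarith [hx.1]
            calc (r / ‖x - m‖) ^ δ ≤ (2 ^ (-(i : ℝ))) ^ δ :=
                Real.rpow_le_rpow (by positivity) h2 hδ.le
              _ = ((2 : ℝ) ^ (-δ)) ^ i := by
                rw [← Real.rpow_natCast, ← Real.rpow_mul (by norm_num), ← Real.rpow_mul (by norm_num)]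
                congr 1
                ring
          · positivity
          · exact pow_le_pow_left₀ hri.le hx.1 n
      _ = ENNReal.ofReal (((2 : ℝ) ^ (-δ)) ^ i / (2 ^ i * r) ^ n) * volume (A i) := by
          rw [setLIntegral_const]
      _ ≤ ENNReal.ofReal (((2 : ℝ) ^ (-δ)) ^ i / (2 ^ i * r) ^ n) *
          ENNReal.ofReal (4 ^ n * (2 ^ i * r) ^ n) := by gcongr
      _ = _ := by
          rw [← ENNReal.ofReal_mul (by positivity)]
          congr 1
          field_simp
  calc ∫⁻ x in {x : Pt n | r ≤ ‖x - m‖}, ENNReal.ofReal ((r / ‖x - m‖) ^ δ / ‖x - m‖ ^ n)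
      ≤ ∫⁻ x in ⋃ i, A i, ENNReal.ofReal ((r / ‖x - m‖) ^ δ / ‖x - m‖ ^ n) :=
        lintegral_mono_set hcov
    _ ≤ ∑' i, ∫⁻ x in A i, ENNReal.ofReal ((r / ‖x - m‖) ^ δ / ‖x - m‖ ^ n) :=
        lintegral_iUnion_le _ _
    _ ≤ ∑' i : ℕ, ENNReal.ofReal (4 ^ n * ((2 : ℝ) ^ (-δ)) ^ i) := ENNReal.tsum_le_tsum hterm
    _ = ENNReal.ofReal (∑' i : ℕ, 4 ^ n * ((2 : ℝ) ^ (-δ)) ^ i) := by
        rw [ENNReal.ofReal_tsum_of_nonneg (fun i => by positivity)]
        exact (summable_geometric_of_lt_one (two_rpow_pos _).le (two_rpow_neg_lt_one hδ)).mul_left _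
    _ = _ := by
        rw [tsum_mul_left, tsum_geometric_of_lt_one (two_rpow_pos _).le (two_rpow_neg_lt_one hδ)]
        rfl

/-- geometry: the distance from the center to points off the triple -/
theorem far_center {c : Fin n → ℝ} {l : ℝ} (_hl : 0 < l) {x : Fin n → ℝ}
    (hx : x ∉ box (fun i => c i - l) (3 * l)) : 3 * l / 2 ≤ ‖x - fun i => c i + l / 2‖ := by
  rw [mem_box] at hx
  push Not at hx
  obtain ⟨i, hi⟩ := hx
  refine le_trans ?_ (norm_le_pi_norm _ i)
  rw [Pi.sub_apply, Real.norm_eq_abs]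
  by_cases h1 : c i - l ≤ x i
  · have h2 := hi h1
    rw [le_abs]
    left
    linarith
  · rw [not_le] at h1
    rw [le_abs]
    right
    linarith

theorem near_center {c : Fin n → ℝ} {l : ℝ} (hl : 0 < l) {x : Fin n → ℝ}
    (hx : x ∈ box c l) : ‖(fun i => c i + l / 2) - x‖ ≤ l / 2 := by
  rw [pi_norm_le_iff_of_nonneg (by positivity)]
  intro i
  have := hx i
  rw [Pi.sub_apply, Real.norm_eq_abs, abs_le]
  constructor <;> linarith

/-- pointwise bound off the triple for functions with mean zero -/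
theorem Opr.tail_pt (hO : Opr T K C2 Ck δ) {c : Fin n → ℝ} {l : ℝ} (hl : 0 < l)
    {b : Fn n} (hb : IsTest b) (hs : ∀ x, x ∉ box c l → b x = 0) (h0 : ∫ x, b x = 0) :
    ∀ᵐ x ∂(volume : Measure (Pt n)), x ∉ box (fun i => c i - l) (3 * l) →
      |T b x| ≤ Ck * (∫ y, |b y|) *
        ((l / ‖x - fun i => c i + l / 2‖) ^ δ / ‖x - fun i => c i + l / 2‖ ^ n) := by
  set m : Pt n := fun i => c i + l / 2 with hm
  have hcpt : IsCompact (Icc c fun i => c i + l) := isCompact_Icc
  have hsub : box c l ⊆ Icc c fun i => c i + l := fun x hx =>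
    ⟨fun i => (hx i).1, fun i => (hx i).2.le⟩
  have h1 := hO.rep _ hcpt b (test_memLp hb) (fun y hy => hs y fun h => hy (hsub h))
  filter_upwards [h1] with x hx hxt
  have hfar := far_center hl hxt
  rw [← hm] at hfar
  have hxm : 0 < ‖x - m‖ := by linarith
  have hxc : x ∉ Icc c fun i => c i + l := by
    intro hxc
    apply hxt
    intro i
    have h2 := hxc.1 i
    have h3 := hxc.2 i
    simp only at h3
    constructor <;> linarith
  rw [hx hxc]
  have hKm : Measurable fun y => K x y := hO.ker.measurable.comp measurable_prodMk_left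
  -- bound for the kernel difference
  have hdiff : ∀ y, y ∈ box c l → |K x y - K x m| ≤ Ck * ((l / ‖x - m‖) ^ δ / ‖x - m‖ ^ n) := by
    intro y hy
    have h4 := near_center hl hy
    rw [← hm] at h4
    have h5 := hO.ker.smooth m y x (by
      intro h
      rw [h, sub_self, norm_zero] at hxm
      exact lt_irrefl _ hxm) (by
      have : gap m x = ‖x - m‖ := norm_sub_rev _ _
      rw [this]
      have : gap m y = ‖m - y‖ := rfl
      rw [this]
      linarith)
    have e1 : gap m x = ‖x - m‖ := norm_sub_rev _ _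
    rw [e1] at h5
    have h6 : |K x y - K x m| ≤ Ck * (gap m y / ‖x - m‖) ^ δ / ‖x - m‖ ^ n := by
      rw [abs_sub_comm]
      have := abs_nonneg (K m x - K y x)
      linarith
    refine h6.trans ?_
    rw [mul_div_assoc]
    apply mul_le_mul_of_nonneg_left _ hO.ck
    apply div_le_div_of_nonneg_right _ (by positivity)
    apply Real.rpow_le_rpow (by positivity) _ hO.δ0.le
    apply div_le_div_of_nonneg_right _ hxm.le
    exact h4.trans (by linarith)
  set κ : ℝ := Ck * ((l / ‖x - m‖) ^ δ / ‖x - m‖ ^ n) with hκ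
  have hκ0 : 0 ≤ κ := mul_nonneg hO.ck (by positivity)
  have hbi := tst_integrable hb
  -- the difference times `b` is integrable
  have hdi : Integrable (fun y => (K x y - K x m) * b y) volume := by
    apply Integrable.mono' (g := fun y => κ * |b y|) (hbi.abs.const_mul κ)
    · exact ((hKm.sub_const _).mul hb.1).aestronglyMeasurable
    · apply Eventually.of_forall
      intro y
      rw [Real.norm_eq_abs, abs_mul]
      by_cases hy : y ∈ box c l
      · exact mul_le_mul_of_nonneg_right (hdiff y hy) (abs_nonneg _)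
      · rw [hs y hy, abs_zero, mul_zero, mul_zero]
  have h7 : ∫ y, K x y * b y = ∫ y, (K x y - K x m) * b y := by
    have h8 : (fun y => K x y * b y) = fun y => (K x y - K x m) * b y + K x m * b y := by
      funext y; ring
    rw [h8, integral_add hdi (hbi.const_mul _), integral_const_mul, h0, mul_zero, add_zero]
  rw [h7]
  calc |∫ y, (K x y - K x m) * b y| ≤ ∫ y, |(K x y - K x m) * b y| := abs_integral_le_integral_abs
    _ ≤ ∫ y, κ * |b y| := by
        apply integral_mono hdi.abs (hbi.abs.const_mul κ)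
        intro y
        simp only
        rw [abs_mul]
        by_cases hy : y ∈ box c l
        · exact mul_le_mul_of_nonneg_right (hdiff y hy) (abs_nonneg _)
        · rw [hs y hy, abs_zero, mul_zero, mul_zero]
    _ = κ * ∫ y, |b y| := integral_const_mul _ _
    _ = _ := by rw [hκ]; ring

/-- the tail constant -/
noncomputable def tC1 (n : ℕ) (Ck δ : ℝ) : ℝ := Ck * tlC n δ

theorem Opr.tail (hO : Opr T K C2 Ck δ) {c : Fin n → ℝ} {l : ℝ} (hl : 0 < l)
    {b : Fn n} (hb : IsTest b) (hs : ∀ x, x ∉ box c l → b x = 0) (h0 : ∫ x, b x = 0) :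
    ∫⁻ x in (box (fun i => c i - l) (3 * l))ᶜ, ENNReal.ofReal |T b x| ≤
      ENNReal.ofReal (tC1 n Ck δ * ∫ y, |b y|) := by
  set m : Pt n := fun i => c i + l / 2 with hm
  have hI : 0 ≤ ∫ y, |b y| := integral_nonneg fun y => abs_nonneg _
  have h1 := hO.tail_pt hl hb hs h0
  calc ∫⁻ x in (box (fun i => c i - l) (3 * l))ᶜ, ENNReal.ofReal |T b x|
      ≤ ∫⁻ x in (box (fun i => c i - l) (3 * l))ᶜ,
        ENNReal.ofReal (Ck * (∫ y, |b y|)) * ENNReal.ofReal ((l / ‖x - m‖) ^ δ / ‖x - m‖ ^ n) := by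
        apply setLIntegral_mono_ae' (measurableSet_box _ _).compl
        filter_upwards [h1] with x hx hxt
        rw [← ENNReal.ofReal_mul (mul_nonneg hO.ck hI)]
        exact ENNReal.ofReal_le_ofReal (hx hxt)
    _ = ENNReal.ofReal (Ck * (∫ y, |b y|)) * ∫⁻ x in (box (fun i => c i - l) (3 * l))ᶜ,
        ENNReal.ofReal ((l / ‖x - m‖) ^ δ / ‖x - m‖ ^ n) := by
        rw [lintegral_const_mul']
        exact ENNReal.ofReal_ne_top
    _ ≤ ENNReal.ofReal (Ck * (∫ y, |b y|)) * ∫⁻ x in {x : Pt n | l ≤ ‖x - m‖},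
        ENNReal.ofReal ((l / ‖x - m‖) ^ δ / ‖x - m‖ ^ n) := by
        gcongr
        intro x hx
        rw [mem_ofPred_eq]
        have := far_center hl hx
        rw [← hm] at this
        linarith
    _ ≤ ENNReal.ofReal (Ck * (∫ y, |b y|)) * ENNReal.ofReal (tlC n δ) := by
        gcongr
        exact tail_int m hl hO.δ0
    _ = _ := by
        rw [← ENNReal.ofReal_mul (mul_nonneg hO.ck hI)]
        congr 1
        unfold tC1
        ring

end Pool.Agent.Helper51.Sp
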