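import Pool.Agent.Helper51.SPDiff
import Pool.Agent.Helper51.SPOp

/-! The Calderon-Zygmund decomposition with finitely many cubes. -/

open MeasureTheory Set Filter Topology
open scoped ENNReal NNReal

namespace Pool.Agent.Helper51.Sp

open Mixed

variable {n : ℕ}

/-- the only admissible index of level `0` -/
theorem Ok.eq_zero {k : Ix n} (hk : Ok k) (h0 : k.1 = 0) : k = (0, fun _ => 0) := by
  apply Prod.ext h0
  funext i
  have := hk i
  rw [h0, pow_zero] at this
  simp only
  omega

theorem sd_parent {h : ℝ} {k : Ix n} (hk : k.1 ≠ 0) : sd h (up k (k.1 - 1)) = 2 * sd h k := by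
  obtain ⟨m, hm⟩ := Nat.exists_eq_succ_of_ne_zero hk
  unfold sd up
  simp only [hm, Nat.succ_eq_add_one, Nat.add_sub_cancel]
  rw [pow_succ]
  field_simp

open Classical in
/-- sums over a disjoint family -/
theorem sum_one {ι : Type*} {M : Finset ι} {P : ι → Set (Pt n)}
    (hd : ∀ k ∈ M, ∀ l ∈ M, k ≠ l → Disjoint (P k) (P l)) (c : ι → ℝ) {x : Pt n} {k : ι}
    (hk : k ∈ M) (hx : x ∈ P k) : ∑ l ∈ M, c l * (P l).indicator (fun _ => (1 : ℝ)) x = c k := by
  rw [Finset.sum_eq_single k]
  · rw [indicator_of_mem hx, mul_one]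
  · intro l hl hlk
    rw [indicator_of_notMem, mul_zero]
    exact fun h => (Set.disjoint_left.mp (hd l hl k hk hlk) h) hx
  · exact fun h => absurd hk h

theorem sum_none {ι : Type*} {M : Finset ι} {P : ι → Set (Pt n)} (c : ι → ℝ) {x : Pt n}
    (hx : ∀ k ∈ M, x ∉ P k) : ∑ l ∈ M, c l * (P l).indicator (fun _ => (1 : ℝ)) x = 0 :=
  Finset.sum_eq_zero fun l hl => by rw [indicator_of_notMem (hx l hl), mul_zero]

theorem int_one (s : Set (Pt n)) (hs : MeasurableSet s) (c : ℝ) :
    ∫ x, c * s.indicator (fun _ => (1 : ℝ)) x = c * volume.real s := by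
  rw [integral_const_mul, integral_indicator hs, setIntegral_const, smul_eq_mul, mul_one]

/-- **the Calderon-Zygmund decomposition** -/
theorem cz_dec {a : Fin n → ℝ} {h : ℝ} (hh : 0 < h) {g : Fn n} (hg : IsTest g)
    (hs : ∀ x, x ∉ box a h → g x = 0) {lam : ℝ} (hl : 0 < lam)
    (hav : ∫ x, |g x| ≤ lam * h ^ n) {ε : ℝ} (hε : 0 < ε) [NeZero n] :
    ∃ (M : Finset (Ix n)) (G E : Fn n) (b : Ix n → Fn n), IsTest G ∧ IsTest E ∧
      (∀ k ∈ M, IsTest (b k)) ∧ (∀ x, g x = G x + (E x + ∑ k ∈ M, b k x)) ∧
      ∫ x, G x ^ 2 ≤ 2 ^ n * lam * ∫ x, |g x| ∧ ∫ x, E x ^ 2 ≤ ε ∧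
      (∀ k ∈ M, ∀ x, x ∉ cb a h k → b k x = 0) ∧ (∀ k ∈ M, ∫ x, b k x = 0) ∧
      ∑ k ∈ M, ∫ x, |b k x| ≤ 2 * ∫ x, |g x| ∧
      ∑ k ∈ M, lam * sd h k ^ n ≤ ∫ x, |g x| := by
  classical
  obtain ⟨B, hB⟩ := hg.2.1
  have hB0 : 0 ≤ B := (abs_nonneg _).trans (hB 0)
  have hgi : Integrable (fun x => |g x|) volume := (tst_integrable hg).abs
  set pred : Ix n → Prop := fun k => lam * sd h k ^ n < ∫ y in cb a h k, |g y| with hpred
  obtain ⟨N, hN⟩ := stop_levels a hh (g := fun x => |g x|) hg.1.abs (C := B)
    (fun x => by rw [abs_abs]; exact hB x) (lam := lam) pred (fun k hk => hk)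
    (ε := ENNReal.ofReal (ε / (B ^ 2 + 1))) (ENNReal.ofReal_pos.mpr (by positivity))
  set 𝒢 := (ixs n N).filter pred with h𝒢
  have hN' := hN 𝒢 (fun k hk1 hk2 => Finset.mem_filter.mpr ⟨hk1, hk2⟩)
  set M := mx 𝒢 (cb a h) with hM
  set Ω : Set (Pt n) := ⋃ k ∈ M, cb a h k with hΩ
  have hPm : ∀ k, MeasurableSet (cb a h k) := fun k => measurableSet_box _ _
  have hΩm : MeasurableSet Ω := Finset.measurableSet_biUnion _ fun k _ => hPm k
  have hdisj : ∀ k ∈ M, ∀ l ∈ M, k ≠ l → Disjoint (cb a h k) (cb a h l) :=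
    fun k hk l hl' hne => mx_disj (fun k _ l _ => cb_lam hh k l) hk hl' hne
  have hMG : ∀ k ∈ M, k ∈ ixs n N ∧ pred k := fun k hk => Finset.mem_filter.mp (mem_mx.mp hk).1
  have hcov : (⋃ k ∈ 𝒢, cb a h k) ⊆ Ω := by
    intro x hx
    simp only [mem_iUnion] at hx ⊢
    obtain ⟨k, hk, hxk⟩ := hx
    obtain ⟨l, hl1, hl2⟩ := mx_cover (C := cb a h) (fun k _ l _ h => cb_inj hh h) hk
    exact mem_iUnion₂.mpr ⟨l, hl1, hl2 hxk⟩
  -- the cubes are not the base
  have hk0 : ∀ k ∈ M, k.1 ≠ 0 := by
    intro k hk h0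
    obtain ⟨h1, h2⟩ := hMG k hk
    have h3 := (mem_ixs.mp h1).2.eq_zero h0
    rw [h3] at h2
    have h4 : lam * h ^ n < ∫ y in cb a h (0, fun _ => 0), |g y| := by
      have h6 : sd h ((0, fun _ => 0) : Ix n) = h := by unfold sd; simp
      rw [hpred] at h2
      simp only [h6] at h2
      exact h2
    have h5 : ∫ y in cb a h (0, fun _ => 0), |g y| ≤ ∫ y, |g y| :=
      setIntegral_le_integral hgi (Eventually.of_forall fun x => abs_nonneg _)
    linarith
  -- the averages
  have hav2 : ∀ k ∈ M, ∫ y in cb a h k, |g y| ≤ 2 ^ n * lam * sd h k ^ n := by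
    intro k hk
    obtain ⟨h1, h2⟩ := hMG k hk
    have hk1 := hk0 k hk
    set l := up k (k.1 - 1) with hldef
    have hsub : cb a h k ⊆ cb a h l := cb_subset_up hh (Nat.sub_le _ _)
    have hnp : ¬ pred l := by
      intro hp
      have hl1 : l ∈ 𝒢 := by
        rw [h𝒢, Finset.mem_filter, mem_ixs]
        have h3 := mem_ixs.mp h1
        refine ⟨⟨?_, h3.2.up (Nat.sub_le _ _)⟩, hp⟩
        show k.1 - 1 ≤ N
        omega
      have h4 := (mem_mx.mp hk).2 l hl1 hsub
      have h5 : l.1 = k.1 - 1 := rfl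
      rw [h4] at h5
      omega
    rw [hpred] at hnp
    simp only [not_lt] at hnp
    have hsd : sd h l = 2 * sd h k := sd_parent hk1
    rw [hsd, mul_pow] at hnp
    calc ∫ y in cb a h k, |g y| ≤ ∫ y in cb a h l, |g y| :=
          setIntegral_mono_set hgi.integrableOn (Eventually.of_forall fun x => abs_nonneg _)
            hsub.eventuallyLE
      _ ≤ _ := by linarith
  set gk : Ix n → ℝ := fun k => (sd h k ^ n)⁻¹ * ∫ y in cb a h k, g y with hgk
  have hsdn : ∀ k : Ix n, 0 < sd h k ^ n := fun k => pow_pos (sd_pos hh k) n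
  have hgk1 : ∀ k, |gk k| * sd h k ^ n ≤ ∫ y in cb a h k, |g y| := by
    intro k
    have h1 := hsdn k
    rw [hgk]
    simp only
    rw [abs_mul, abs_of_pos (inv_pos.mpr h1), mul_comm, ← mul_assoc, mul_inv_cancel₀ h1.ne',
      one_mul]
    exact abs_integral_le_integral_abs
  have hgk2 : ∀ k ∈ M, |gk k| ≤ 2 ^ n * lam := by
    intro k hk
    have h1 := (hgk1 k).trans (hav2 k hk)
    exact le_of_mul_le_mul_right h1 (hsdn k)
  -- total mass
  have hsum : (∑ k ∈ M, ∫ y in cb a h k, |g y|) + ∫ y in Ωᶜ, |g y| = ∫ y, |g y| := by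
    rw [← integral_biUnion_finset M (fun k _ => hPm k)
      (fun k hk l hl' hne => hdisj k hk l hl' hne) (fun k _ => hgi.integrableOn)]
    exact integral_add_compl hΩm hgi
  have hcomp0 : 0 ≤ ∫ y in Ωᶜ, |g y| := integral_nonneg fun x => abs_nonneg _
  have hsum' : ∑ k ∈ M, ∫ y in cb a h k, |g y| ≤ ∫ y, |g y| := by linarith
  set D1 : Set (Pt n) := Ωᶜ ∩ {x | |g x| ≤ lam} with hD1
  set D2 : Set (Pt n) := Ωᶜ ∩ {x | lam < |g x|} with hD2
  have hD1m : MeasurableSet D1 := hΩm.compl.inter (measurableSet_le hg.1.abs measurable_const)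
  have hD2m : MeasurableSet D2 := hΩm.compl.inter (measurableSet_lt measurable_const hg.1.abs)
  have hone : ∀ k, IsTest ((cb a h k).indicator fun _ => (1 : ℝ)) := fun k =>
    tst_one (hPm k) (bounded_box _ _)
  set G : Fn n := fun x => ∑ k ∈ M, gk k * (cb a h k).indicator (fun _ => (1 : ℝ)) x +
    D1.indicator g x with hG
  set E : Fn n := D2.indicator g with hE
  set b : Ix n → Fn n := fun k x => (cb a h k).indicator g x +
    (-gk k) * (cb a h k).indicator (fun _ => (1 : ℝ)) x with hb
  have hGt : IsTest G := tst_add (tst_sum M fun k _ => tst_mul (hone k) _) (tst_ind hg hD1m)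
  have hEt : IsTest E := tst_ind hg hD2m
  have hbt : ∀ k, IsTest (b k) := fun k => tst_add (tst_ind hg (hPm k)) (tst_mul (hone k) _)
  refine ⟨M, G, E, b, hGt, hEt, fun k _ => hbt k, ?_, ?_, ?_, ?_, ?_, ?_, ?_⟩
  · -- the decomposition
    intro x
    by_cases hx : ∃ k ∈ M, x ∈ cb a h k
    · obtain ⟨k, hk, hxk⟩ := hx
      have hxΩ : x ∈ Ω := mem_iUnion₂.mpr ⟨k, hk, hxk⟩
      have h1 : D1.indicator g x = 0 := indicator_of_notMem (fun h => h.1 hxΩ) _
      have h2 : E x = 0 := indicator_of_notMem (fun h => h.1 hxΩ) _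
      have h3 : ∑ l ∈ M, b l x = g x - gk k := by
        rw [hb]
        simp only
        rw [Finset.sum_add_distrib, sum_one hdisj (fun l => -gk l) hk hxk]
        rw [Finset.sum_eq_single k]
        · rw [indicator_of_mem hxk]; ring
        · intro l hl' hlk
          exact indicator_of_notMem (fun h => (Set.disjoint_left.mp (hdisj l hl' k hk hlk) h) hxk) _
        · exact fun h => absurd hk h
      rw [h2, h3, hG]
      simp only
      rw [sum_one hdisj gk hk hxk, h1]
      ring
    · push Not at hx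
      have hxΩ : x ∉ Ω := by
        intro h
        obtain ⟨k, hk, hxk⟩ := mem_iUnion₂.mp h
        exact hx k hk hxk
      have h3 : ∑ l ∈ M, b l x = 0 := by
        apply Finset.sum_eq_zero
        intro l hl'
        rw [hb]
        simp only
        rw [indicator_of_notMem (hx l hl'), indicator_of_notMem (hx l hl')]
        ring
      rw [h3, hG]
      simp only
      rw [sum_none gk hx]
      rcases le_or_gt (|g x|) lam with h4 | h4
      · have h5 : x ∈ D1 := ⟨hxΩ, h4⟩
        have h6 : x ∉ D2 := fun h => absurd h.2 (not_lt.mpr h4)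
        rw [hE, indicator_of_mem h5, indicator_of_notMem h6]
        ring
      · have h5 : x ∉ D1 := fun h => absurd h.2 (not_le.mpr h4)
        have h6 : x ∈ D2 := ⟨hxΩ, h4⟩
        rw [hE, indicator_of_notMem h5, indicator_of_mem h6]
        ring
  · -- the good part
    set H : Fn n := fun x => ∑ k ∈ M, |gk k| * (cb a h k).indicator (fun _ => (1 : ℝ)) x +
      D1.indicator (fun x => |g x|) x with hH
    have hHt : IsTest H := tst_add (tst_sum M fun k _ => tst_mul (hone k) _)
      (tst_ind (tst_abs hg) hD1m)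
    have h2n : (1 : ℝ) ≤ 2 ^ n := one_le_pow₀ (by norm_num)
    have hpt : ∀ x, G x ^ 2 ≤ 2 ^ n * lam * H x := by
      intro x
      by_cases hx : ∃ k ∈ M, x ∈ cb a h k
      · obtain ⟨k, hk, hxk⟩ := hx
        have hxΩ : x ∈ Ω := mem_iUnion₂.mpr ⟨k, hk, hxk⟩
        have h1 : D1.indicator g x = 0 := indicator_of_notMem (fun h => h.1 hxΩ) _
        have h1' : D1.indicator (fun x => |g x|) x = 0 := indicator_of_notMem (fun h => h.1 hxΩ) _
        rw [hG, hH]
        simp only
        rw [sum_one hdisj gk hk hxk, sum_one hdisj (fun k => |gk k|) hk hxk, h1, h1', add_zero,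
          add_zero, ← sq_abs, sq]
        exact mul_le_mul_of_nonneg_right (hgk2 k hk) (abs_nonneg _)
      · push Not at hx
        rw [hG, hH]
        simp only
        rw [sum_none gk hx, sum_none _ hx, zero_add, zero_add]
        by_cases h5 : x ∈ D1
        · rw [indicator_of_mem h5, indicator_of_mem h5, ← sq_abs, sq]
          apply mul_le_mul_of_nonneg_right _ (abs_nonneg _)
          have h6 : |g x| ≤ lam := h5.2
          nlinarith
        · rw [indicator_of_notMem h5, indicator_of_notMem h5]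
          simp
    calc ∫ x, G x ^ 2 ≤ ∫ x, 2 ^ n * lam * H x :=
          integral_mono (tst_integrable (tst_sq hGt)) ((tst_integrable hHt).const_mul _) hpt
      _ = 2 ^ n * lam * ∫ x, H x := integral_const_mul _ _
      _ ≤ _ := by
          apply mul_le_mul_of_nonneg_left _ (by positivity)
          rw [hH, integral_add (tst_integrable (tst_sum M fun k _ => tst_mul (hone k) _))
            (tst_integrable (tst_ind (tst_abs hg) hD1m)),
            integral_finsetSum _ (fun k _ => tst_integrable (tst_mul (hone k) _))]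
          rw [← hsum]
          apply add_le_add
          · apply Finset.sum_le_sum
            intro k _
            rw [int_one _ (hPm k), real_cb hh]
            exact hgk1 k
          · rw [integral_indicator hD1m]
            exact setIntegral_mono_set hgi.integrableOn
              (Eventually.of_forall fun x => abs_nonneg _) inter_subset_left.eventuallyLE
  · -- the error
    have hsub : D2 ∩ box a h ⊆ {x | x ∈ box a h ∧ lam < |g x|} \ ⋃ k ∈ 𝒢, cb a h k := by
      rintro x ⟨⟨h1, h2⟩, h3⟩
      exact ⟨⟨h3, h2⟩, fun h => h1 (hcov h)⟩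
    have hvol : volume.real (D2 ∩ box a h) ≤ ε / (B ^ 2 + 1) := by
      apply ENNReal.toReal_le_of_le_ofReal (by positivity)
      exact (measure_mono hsub).trans hN'
    have hpt : ∀ x, E x ^ 2 ≤ B ^ 2 * (D2 ∩ box a h).indicator (fun _ => (1 : ℝ)) x := by
      intro x
      by_cases h1 : x ∈ D2 ∩ box a h
      · rw [hE, indicator_of_mem h1.1, indicator_of_mem h1, mul_one, ← sq_abs]
        exact pow_le_pow_left₀ (abs_nonneg _) (hB x) 2
      · rw [indicator_of_notMem h1, mul_zero]
        have h2 : E x = 0 := by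
          by_cases h3 : x ∈ D2
          · have h4 : x ∉ box a h := fun h => h1 ⟨h3, h⟩
            rw [hE, indicator_of_mem h3, hs x h4]
          · exact indicator_of_notMem h3 _
        rw [h2]
        norm_num
    have hm2 : MeasurableSet (D2 ∩ box a h) := hD2m.inter (measurableSet_box _ _)
    calc ∫ x, E x ^ 2 ≤ ∫ x, B ^ 2 * (D2 ∩ box a h).indicator (fun _ => (1 : ℝ)) x := by
          apply integral_mono (tst_integrable (tst_sq hEt)) _ hpt
          exact tst_integrable (tst_mul (tst_one hm2
            ((bounded_box a h).subset inter_subset_right)) _)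
      _ = B ^ 2 * volume.real (D2 ∩ box a h) := int_one _ hm2 _
      _ ≤ B ^ 2 * (ε / (B ^ 2 + 1)) := mul_le_mul_of_nonneg_left hvol (by positivity)
      _ ≤ ε := by
          rw [mul_div_assoc', div_le_iff₀ (by positivity)]
          nlinarith [sq_nonneg B]
  · intro k _ x hx
    rw [hb]
    simp only
    rw [indicator_of_notMem hx, indicator_of_notMem hx]
    ring
  · intro k _
    rw [hb]
    simp only
    rw [integral_add (tst_integrable (tst_ind hg (hPm k))) (tst_integrable (tst_mul (hone k) _)),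
      integral_indicator (hPm k), int_one _ (hPm k), real_cb hh, hgk]
    simp only
    have := (hsdn k).ne'
    field_simp
    ring
  · calc ∑ k ∈ M, ∫ x, |b k x| ≤ ∑ k ∈ M, 2 * ∫ y in cb a h k, |g y| := by
          apply Finset.sum_le_sum
          intro k _
          have h1 : ∀ x, |b k x| ≤ (cb a h k).indicator (fun x => |g x|) x +
              |gk k| * (cb a h k).indicator (fun _ => (1 : ℝ)) x := by
            intro x
            rw [hb]
            simp only
            by_cases hx : x ∈ cb a h k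
            · rw [indicator_of_mem hx, indicator_of_mem hx, indicator_of_mem hx, mul_one, mul_one,
                ← abs_neg (gk k)]
              exact abs_add_le _ _
            · rw [indicator_of_notMem hx, indicator_of_notMem hx, indicator_of_notMem hx]
              simp
          calc ∫ x, |b k x| ≤ ∫ x, ((cb a h k).indicator (fun x => |g x|) x +
              |gk k| * (cb a h k).indicator (fun _ => (1 : ℝ)) x) := by
                apply integral_mono (tst_integrable (hbt k)).abs _ h1
                exact (tst_integrable (tst_ind (tst_abs hg) (hPm k))).add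
                  (tst_integrable (tst_mul (hone k) _))
            _ = (∫ y in cb a h k, |g y|) + |gk k| * sd h k ^ n := by
                rw [integral_add (tst_integrable (tst_ind (tst_abs hg) (hPm k)))
                  (tst_integrable (tst_mul (hone k) _)), integral_indicator (hPm k),
                  int_one _ (hPm k), real_cb hh]
            _ ≤ _ := by
                have := hgk1 k
                linarith
      _ = 2 * ∑ k ∈ M, ∫ y in cb a h k, |g y| := by rw [Finset.mul_sum]
      _ ≤ _ := by linarith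
  · refine le_trans (Finset.sum_le_sum fun k hk => ?_) hsum'
    exact (hMG k hk).2.le

end Pool.Agent.Helper51.Sp
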