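import Pool.Agent.Helper51.SPGeo

/-! Lebesgue differentiation along the dyadic cubes and finite stopping families. -/

open MeasureTheory Set Filter Topology
open scoped ENNReal

namespace Pool.Agent.Helper51.Sp

variable {n : ℕ} {a : Fin n → ℝ} {h : ℝ}

/-- integrals over the half-open cube and over the closed ball agree -/
theorem avg_box (a : Fin n → ℝ) {h : ℝ} (hh : 0 < h) (f : (Fin n → ℝ) → ℝ) :
    ⨍ y in Metric.closedBall (fun i => a i + h / 2) (h / 2), f y =
      (h ^ n)⁻¹ * ∫ y in box a h, f y := by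
  have h1 := box_ae_ball a hh
  rw [setAverage_eq, smul_eq_mul, Measure.real, ← measure_congr h1, vol_box a hh.le,
    ENNReal.toReal_ofReal (by positivity), Measure.restrict_congr_set h1]

theorem ae_diff (a : Fin n → ℝ) (hh : 0 < h) {f : (Fin n → ℝ) → ℝ}
    (hf : LocallyIntegrable f volume) :
    ∀ᵐ x ∂(volume : Measure (Fin n → ℝ)), Tendsto (fun j => (sd h (ix a h j x) ^ n)⁻¹ *
      ∫ y in cb a h (ix a h j x), f y) atTop (𝓝 (f x)) := by
  filter_upwards [IsUnifLocDoublingMeasure.ae_tendsto_average (volume : Measure (Fin n → ℝ)) hf 1]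
    with x hx
  have h1 := hx (ι := ℕ) (l := atTop)
    (fun j => fun i => cor a h (ix a h j x) i + sd h (ix a h j x) / 2)
    (fun j => sd h (ix a h j x) / 2)
    (by
      rw [tendsto_nhdsWithin_iff]
      constructor
      · have h2 : Tendsto (fun j : ℕ => (h / 2) * (1 / 2 : ℝ) ^ j) atTop (𝓝 ((h / 2) * 0)) :=
          (tendsto_pow_atTop_nhds_zero_of_lt_one (by norm_num) (by norm_num)).const_mul _
        rw [mul_zero] at h2
        refine h2.congr fun j => ?_
        unfold sd ix
        simp only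
        rw [div_pow, one_pow]
        field_simp
      · apply Eventually.of_forall
        intro j
        have := sd_pos hh (ix a h j x)
        show 0 < sd h (ix a h j x) / 2
        positivity)
    (by
      apply Eventually.of_forall
      intro j
      have h2 := mem_cb_ix (a := a) hh j x
      have h3 := sd_pos hh (ix a h j x)
      rw [one_mul, mem_closedBall_iff_norm, pi_norm_le_iff_of_nonneg (by positivity)]
      intro i
      obtain ⟨h4, h5⟩ := h2 i
      rw [Pi.sub_apply, Real.norm_eq_abs, abs_le]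
      constructor <;> linarith)
  refine h1.congr fun j => ?_
  rw [avg_box _ (sd_pos hh _)]
  rfl

/-- **stopping with finitely many levels** -/
theorem stop_levels (a : Fin n → ℝ) (hh : 0 < h) {g : (Fin n → ℝ) → ℝ} (hgm : Measurable g)
    {C : ℝ} (hC : ∀ x, |g x| ≤ C) {lam : ℝ} (pred : Ix n → Prop)
    (hpred : ∀ k, lam * sd h k ^ n < ∫ y in cb a h k, g y → pred k) {ε : ℝ≥0∞} (hε : 0 < ε) :
    ∃ N, ∀ s : Finset (Ix n), (∀ k, k ∈ ixs n N → pred k → k ∈ s) →
      volume ({x | x ∈ box a h ∧ lam < g x} \ ⋃ k ∈ s, cb a h k) ≤ ε := by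
  classical
  set E : Set (Fin n → ℝ) := {x | x ∈ box a h ∧ lam < g x} with hE
  have hEm : MeasurableSet E :=
    (measurableSet_box a h).inter (measurableSet_lt measurable_const hgm)
  have hgl : LocallyIntegrable g volume := by
    have : LocallyIntegrable (fun _ : Fin n → ℝ => C) volume := locallyIntegrable_const C
    apply this.mono hgm.aestronglyMeasurable
    apply Eventually.of_forall
    intro x
    rw [Real.norm_eq_abs, Real.norm_eq_abs]
    exact (hC x).trans (le_abs_self C)
  have hdiff := ae_diff a hh hgl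
  have hae : ∀ᵐ x ∂(volume : Measure (Fin n → ℝ)), x ∈ E → ∃ j, pred (ix a h j x) := by
    filter_upwards [hdiff] with x hx hxE
    have h1 := hx.eventually (lt_mem_nhds hxE.2)
    obtain ⟨j, hj⟩ := h1.exists
    refine ⟨j, hpred _ ?_⟩
    have h2 : 0 < sd h (ix a h j x) ^ n := pow_pos (sd_pos hh _) n
    rw [inv_mul_eq_div, lt_div_iff₀ h2] at hj
    exact hj
  set s : ℕ → Set (Fin n → ℝ) := fun N => E \ ⋃ k ∈ (ixs n N).filter pred, cb a h k with hs
  have hsm : ∀ N, MeasurableSet (s N) := fun N =>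
    hEm.diff (Finset.measurableSet_biUnion _ fun k _ => measurableSet_box _ _)
  have hanti : Antitone s := by
    intro N N' hN
    apply sdiff_subset_sdiff_right
    intro x hx
    simp only [mem_iUnion] at hx ⊢
    obtain ⟨k, hk, hxk⟩ := hx
    rw [Finset.mem_filter] at hk
    exact ⟨k, Finset.mem_filter.mpr ⟨ixs_mono hN hk.1, hk.2⟩, hxk⟩
  have hnull : volume (⋂ N, s N) = 0 := by
    rw [measure_eq_zero_iff_ae_notMem]
    filter_upwards [hae] with x hx hxs
    rw [mem_iInter] at hxs
    obtain ⟨j, hj⟩ := hx (hxs 0).1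
    have h3 := (hxs j).2
    apply h3
    simp only [mem_iUnion]
    refine ⟨ix a h j x, ?_, mem_cb_ix hh j x⟩
    rw [Finset.mem_filter, mem_ixs]
    exact ⟨⟨le_rfl, ok_ix hh (hxs 0).1.1 j⟩, hj⟩
  have hlim := tendsto_measure_iInter_atTop (μ := (volume : Measure (Fin n → ℝ))) (s := s)
    (fun N => (hsm N).nullMeasurableSet) hanti
    ⟨0, ((measure_mono (sdiff_subset.trans fun x hx => hx.1)).trans_lt
      (vol_box_ne_top a hh.le).lt_top).ne⟩
  rw [hnull] at hlim
  obtain ⟨N, hN⟩ := (hlim.eventually (gt_mem_nhds hε)).exists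
  refine ⟨N, fun s' hs' => ?_⟩
  refine le_trans (measure_mono ?_) hN.le
  apply sdiff_subset_sdiff_right
  intro x hx
  simp only [mem_iUnion] at hx ⊢
  obtain ⟨k, hk, hxk⟩ := hx
  rw [Finset.mem_filter] at hk
  exact ⟨k, hs' k hk.1 hk.2, hxk⟩

end Pool.Agent.Helper51.Sp
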