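import Pool.Agent.Helper51.SPTest

/-! Splitting a sparse family into frozen levels and summing over the levels. -/

open MeasureTheory Set
open scoped ENNReal

namespace Pool.Agent.Helper51.Sp

variable {α : Type*}

/-! ### scalar facts -/

/-- decay rate of the levels -/
noncomputable def eta (q θ : ℝ) : ℝ := if θ < 1 then min 1 ((θ - 1 / q) / (1 - θ)) else 1

theorem eta_pos {q θ : ℝ} (hθ : 1 / q < θ) : 0 < eta q θ := by
  unfold eta
  split_ifs with h
  · apply lt_min one_pos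
    apply div_pos <;> linarith
  · exact one_pos

theorem scal_log {q θ a k x : ℝ} (hq : 1 < q) (hk : k ≤ a)
    (hx : θ * a + (1 - θ) * k ≤ x) :
    1 / q * a + (1 - 1 / q) * k ≤ x - eta q θ * |a - x| := by
  have hq0 : 0 < q := by linarith
  have hq1 : 0 < 1 - 1 / q := by
    have : 1 / q < 1 := by
      rw [div_lt_one hq0]; exact hq
    linarith
  have h1q : 0 < 1 / q := by positivity
  have h0 : 1 / q * a + (1 - 1 / q) * k ≤ a := by
    nlinarith [mul_le_mul_of_nonneg_left hk hq1.le]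
  unfold eta
  split_ifs with h
  · rcases le_or_gt a x with hax | hax
    · rw [abs_of_nonpos (by linarith)]
      have h2 : min 1 ((θ - 1 / q) / (1 - θ)) ≤ 1 := min_le_left _ _
      nlinarith [mul_le_mul_of_nonneg_right h2 (by linarith : 0 ≤ x - a)]
    · rw [abs_of_pos (by linarith)]
      have h2 : min 1 ((θ - 1 / q) / (1 - θ)) ≤ (θ - 1 / q) / (1 - θ) := min_le_right _ _
      have h3 : 0 < 1 - θ := by linarith
      have h4 : k ≤ (x - θ * a) / (1 - θ) := by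
        rw [le_div_iff₀ h3]
        linarith
      have h5 : 1 / q * a + (1 - 1 / q) * k ≤ 1 / q * a + (1 - 1 / q) * ((x - θ * a) / (1 - θ)) := by
        have := mul_le_mul_of_nonneg_left h4 hq1.le
        linarith
      have h6 : 1 / q * a + (1 - 1 / q) * ((x - θ * a) / (1 - θ)) =
          x - (θ - 1 / q) / (1 - θ) * (a - x) := by
        field_simp
        ring
      have h7 := mul_le_mul_of_nonneg_right h2 (by linarith : 0 ≤ a - x)
      linarith
  · have h8 : a ≤ x := by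
      nlinarith [mul_le_mul_of_nonneg_left hk (by linarith : 0 ≤ θ - 1)]
    rw [abs_of_nonpos (by linarith)]
    linarith

theorem scal {q θ A K X : ℝ} (hq : 1 < q) (hA : 0 < A) (hK : 0 < K)
    (hX : 0 < X) (hKA : K ≤ A) (h : A ^ θ * K ^ (1 - θ) ≤ X) :
    A ^ (1 / q) * K ^ (1 - 1 / q) ≤ X * 2 ^ (-(eta q θ * |Real.logb 2 A - Real.logb 2 X|)) := by
  set a := Real.logb 2 A with ha
  set k := Real.logb 2 K with hk
  set x := Real.logb 2 X with hx
  have eA : A = 2 ^ a := (Real.rpow_logb (by norm_num) (by norm_num) hA).symm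
  have eK : K = 2 ^ k := (Real.rpow_logb (by norm_num) (by norm_num) hK).symm
  have eX : X = 2 ^ x := (Real.rpow_logb (by norm_num) (by norm_num) hX).symm
  have h2 : (0 : ℝ) ≤ 2 := by norm_num
  have hka : k ≤ a := Real.logb_le_logb_of_le (by norm_num) hK hKA
  have h1 : θ * a + (1 - θ) * k ≤ x := by
    rw [← Real.rpow_le_rpow_left_iff (show (1 : ℝ) < 2 by norm_num),
      Real.rpow_add (by norm_num), mul_comm θ a, mul_comm (1 - θ) k, Real.rpow_mul h2,
      Real.rpow_mul h2, ← eA, ← eK, ← eX]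
    exact h
  have h3 := scal_log hq hka h1
  have e3 : (2 : ℝ) ^ (x - eta q θ * |a - x|) = X * 2 ^ (-(eta q θ * |a - x|)) := by
    rw [sub_eq_add_neg, Real.rpow_add (by norm_num), ← eX]
  rw [← Real.rpow_le_rpow_left_iff (show (1 : ℝ) < 2 by norm_num),
    Real.rpow_add (by norm_num), mul_comm (1 / q) a, mul_comm (1 - 1 / q) k, Real.rpow_mul h2,
      Real.rpow_mul h2, ← eA, ← eK, e3] at h3
  exact h3

theorem abs_sum (F : Finset ℤ) {q : ℝ} (hq : 0 < q) (x : ℝ) :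
    ∑ a ∈ F, (2 : ℝ) ^ (-(q * |(a : ℝ) - x|)) ≤ 2 * (1 - (2 : ℝ) ^ (-q))⁻¹ := by
  classical
  have hc := geo_const_pos hq
  have h1 := geo (F.filter fun a : ℤ => (a : ℝ) ≤ x) (fun a => a) (fun a _ b _ h => h) hq
    (M := ⌊x⌋) (by
      intro a ha
      exact Int.le_floor.mpr (Finset.mem_filter.mp ha).2)
  have h2 := geo (F.filter fun a : ℤ => ¬ (a : ℝ) ≤ x) (fun a => -a) (fun a _ b _ h => neg_inj.mp h) hq
    (M := -⌈x⌉) (by
      intro a ha
      have := (Finset.mem_filter.mp ha).2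
      rw [not_le] at this
      have := Int.ceil_le.mpr this.le
      simpa using this)
  rw [← Finset.sum_filter_add_sum_filter_not F (fun a : ℤ => (a : ℝ) ≤ x)]
  have h3 : ∑ a ∈ F.filter (fun a : ℤ => (a : ℝ) ≤ x), (2 : ℝ) ^ (-(q * |(a : ℝ) - x|)) ≤
      (1 - (2 : ℝ) ^ (-q))⁻¹ := by
    calc ∑ a ∈ F.filter (fun a : ℤ => (a : ℝ) ≤ x), (2 : ℝ) ^ (-(q * |(a : ℝ) - x|))
        = (2 : ℝ) ^ (-(q * x)) * ∑ a ∈ F.filter (fun a : ℤ => (a : ℝ) ≤ x), (2 : ℝ) ^ (q * (a : ℝ)) := by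
          rw [Finset.mul_sum]
          apply Finset.sum_congr rfl
          intro a ha
          have := (Finset.mem_filter.mp ha).2
          rw [← Real.rpow_add (by norm_num), abs_of_nonpos (by linarith)]
          congr 1
          ring
      _ ≤ (2 : ℝ) ^ (-(q * x)) * ((1 - (2 : ℝ) ^ (-q))⁻¹ * (2 : ℝ) ^ (q * (⌊x⌋ : ℝ))) :=
          mul_le_mul_of_nonneg_left h1 (two_rpow_pos _).le
      _ ≤ (2 : ℝ) ^ (-(q * x)) * ((1 - (2 : ℝ) ^ (-q))⁻¹ * (2 : ℝ) ^ (q * x)) := by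
          apply mul_le_mul_of_nonneg_left _ (two_rpow_pos _).le
          apply mul_le_mul_of_nonneg_left _ hc.le
          apply Real.rpow_le_rpow_of_exponent_le (by norm_num)
          exact mul_le_mul_of_nonneg_left (Int.floor_le x) hq.le
      _ = (1 - (2 : ℝ) ^ (-q))⁻¹ * ((2 : ℝ) ^ (-(q * x)) * (2 : ℝ) ^ (q * x)) := by ring
      _ = _ := by rw [← Real.rpow_add (by norm_num)]; simp
  have h4 : ∑ a ∈ F.filter (fun a : ℤ => ¬ (a : ℝ) ≤ x), (2 : ℝ) ^ (-(q * |(a : ℝ) - x|)) ≤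
      (1 - (2 : ℝ) ^ (-q))⁻¹ := by
    calc ∑ a ∈ F.filter (fun a : ℤ => ¬ (a : ℝ) ≤ x), (2 : ℝ) ^ (-(q * |(a : ℝ) - x|))
        = (2 : ℝ) ^ (q * x) *
          ∑ a ∈ F.filter (fun a : ℤ => ¬ (a : ℝ) ≤ x), (2 : ℝ) ^ (q * ((-a : ℤ) : ℝ)) := by
          rw [Finset.mul_sum]
          apply Finset.sum_congr rfl
          intro a ha
          have := (Finset.mem_filter.mp ha).2
          rw [not_le] at this
          rw [← Real.rpow_add (by norm_num), abs_of_pos (by linarith)]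
          congr 1
          push_cast
          ring
      _ ≤ (2 : ℝ) ^ (q * x) * ((1 - (2 : ℝ) ^ (-q))⁻¹ * (2 : ℝ) ^ (q * ((-⌈x⌉ : ℤ) : ℝ))) :=
          mul_le_mul_of_nonneg_left h2 (two_rpow_pos _).le
      _ ≤ (2 : ℝ) ^ (q * x) * ((1 - (2 : ℝ) ^ (-q))⁻¹ * (2 : ℝ) ^ (-(q * x))) := by
          apply mul_le_mul_of_nonneg_left _ (two_rpow_pos _).le
          apply mul_le_mul_of_nonneg_left _ hc.le
          apply Real.rpow_le_rpow_of_exponent_le (by norm_num)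
          push_cast
          have := mul_le_mul_of_nonneg_left (Int.le_ceil x) hq.le
          linarith
      _ = (1 - (2 : ℝ) ^ (-q))⁻¹ * ((2 : ℝ) ^ (q * x) * (2 : ℝ) ^ (-(q * x))) := by ring
      _ = _ := by rw [← Real.rpow_add (by norm_num)]; simp
  linarith

/-! ### the frozen families -/

variable [MeasurableSpace α]

/-- the structure behind the Fujii-Wilson type estimate with the exponential constant -/
def AInf (μ U : Measure α) (S : Finset (Set α)) (K : Set α → ℝ) : Prop :=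
  ∃ h : α → ℝ, MemLp h 2 μ ∧ (∀ x, 0 ≤ h x) ∧ (∀ Q ∈ S, 0 < ∫ x in Q, h x ∂μ) ∧
    (∀ R, MeasurableSet R → ∫ x in R, h x ^ 2 ∂μ = U.real R) ∧
    ∀ Q ∈ S, U.real Q ≤ K Q * (av μ h Q ^ 2 * μ.real Q)

theorem AInf.mono {μ U : Measure α} {S S' : Finset (Set α)} {K : Set α → ℝ}
    (h : AInf μ U S K) (hs : S' ⊆ S) : AInf μ U S' K := by
  obtain ⟨g, h1, h2, h3, h4, h5⟩ := h
  exact ⟨g, h1, h2, fun Q hQ => h3 Q (hs hQ), h4, fun Q hQ => h5 Q (hs hQ)⟩

/-- a Carleson family -/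
structure Fam (μ W N : Measure α) (S : Finset (Set α)) (Λ : ℝ) : Prop where
  lam : Lam S
  ms : ∀ Q ∈ S, MeasurableSet Q
  pμ : ∀ Q ∈ S, 0 < μ.real Q
  pW : ∀ Q ∈ S, 0 < W.real Q
  pN : ∀ Q ∈ S, 0 < N.real Q
  carl : Carl S μ.real Λ

theorem Fam.mono {μ W N : Measure α} {S S' : Finset (Set α)} {Λ : ℝ} (h : Fam μ W N S Λ)
    (hs : S' ⊆ S) : Fam μ W N S' Λ :=
  ⟨h.lam.mono hs, fun Q hQ => h.ms Q (hs hQ), fun Q hQ => h.pμ Q (hs hQ),
    fun Q hQ => h.pW Q (hs hQ), fun Q hQ => h.pN Q (hs hQ),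
    h.carl.mono_sub (fun _ _ => measureReal_nonneg) hs⟩

theorem Fam.swap {μ W N : Measure α} {S : Finset (Set α)} {Λ : ℝ} (h : Fam μ W N S Λ) :
    Fam μ N W S Λ := ⟨h.lam, h.ms, h.pμ, h.pN, h.pW, h.carl⟩

/-- the `A_q` quantity -/
noncomputable def Apq (q : ℝ) (U V μ : Measure α) (Q : Set α) : ℝ :=
  den U μ Q * den V μ Q ^ (q - 1)

theorem den_pos {U μ : Measure α} {Q : Set α} (h1 : 0 < U.real Q) (h2 : 0 < μ.real Q) :
    0 < den U μ Q := div_pos h1 h2

theorem Apq_pos {q : ℝ} {U V μ : Measure α} {Q : Set α} (h1 : 0 < U.real Q) (h2 : 0 < V.real Q)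
    (h3 : 0 < μ.real Q) : 0 < Apq q U V μ Q :=
  mul_pos (den_pos h1 h3) (Real.rpow_pos_of_pos (den_pos h2 h3) _)

/-- the conjugate form of the `A_q` quantity -/
theorem Apq_conj {q : ℝ} (hq : 1 < q) {U V μ : Measure α} {Q : Set α} (h1 : 0 < U.real Q)
    (h2 : 0 < V.real Q) (h3 : 0 < μ.real Q) :
    Apq (q / (q - 1)) V U μ Q = Apq q U V μ Q ^ (1 / (q - 1)) := by
  have hq1 : 0 < q - 1 := by linarith
  have hu := den_pos h1 h3
  have hv := den_pos h2 h3
  unfold Apq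
  rw [Real.mul_rpow hu.le (Real.rpow_nonneg hv.le _), ← Real.rpow_mul hv.le,
    mul_one_div_cancel hq1.ne', Real.rpow_one, mul_comm,
    show q / (q - 1) - 1 = 1 / (q - 1) by field_simp; ring]

/-- the constant in the testing condition of a frozen level -/
noncomputable def tC (q θ B Λ : ℝ) : ℝ :=
  (testC (q / (q - 1)) (B ^ (1 / (q - 1))) Λ * (4 * Λ * ce 2)) ^ (1 / (q / (q - 1))) *
    B ^ eta q θ

theorem testC_nonneg {r B Λ : ℝ} (hr : 1 < r) (hB : 1 ≤ B) (hΛ : 1 ≤ Λ) : 0 ≤ testC r B Λ := by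
  unfold testC
  have h1 : (0 : ℝ) < B * 2 ^ (r - 1) * Λ := by
    have := two_rpow_pos (r - 1)
    positivity
  have h2 : (1 : ℝ) < 1 + 1 / (2 * (B * 2 ^ (r - 1) * Λ)) := by
    have : 0 < 1 / (2 * (B * 2 ^ (r - 1) * Λ)) := by positivity
    linarith
  have h3 : (1 + 1 / (2 * (B * 2 ^ (r - 1) * Λ))) ^ (-(1 / (r - 1))) < 1 := by
    apply Real.rpow_lt_one_of_one_lt_of_neg h2
    have : 0 < r - 1 := by linarith
    have : 0 < 1 / (r - 1) := by positivity
    linarith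
  have h4 : 0 ≤ (1 - (1 + 1 / (2 * (B * 2 ^ (r - 1) * Λ))) ^ (-(1 / (r - 1))))⁻¹ :=
    inv_nonneg.mpr (by linarith)
  have h5 := Real.rpow_nonneg h4 (r - 1)
  have h6 := (two_rpow_pos r).le
  have hB0 : 0 ≤ B := by linarith
  positivity

theorem tC_nonneg {q θ B Λ : ℝ} (hq : 1 < q) (hB : 1 ≤ B) (hΛ : 1 ≤ Λ) : 0 ≤ tC q θ B Λ := by
  have hq1 : 0 < q - 1 := by linarith
  have hr : 1 < q / (q - 1) := by
    rw [lt_div_iff₀ hq1]; linarith
  have h1 := testC_nonneg hr (Real.one_le_rpow hB (by positivity : 0 ≤ 1 / (q - 1))) hΛ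
  have h2 := ce_nonneg (p := 2) (by norm_num)
  unfold tC
  apply mul_nonneg
  · apply Real.rpow_nonneg
    positivity
  · exact Real.rpow_nonneg (by linarith) _

/-- testing for a frozen level -/
theorem test_level {μ U V : Measure α} [IsFiniteMeasure μ] [IsFiniteMeasure V]
    [IsFiniteMeasure U] {S : Finset (Set α)} {Λ : ℝ} (hS : Fam μ U V S Λ) (hΛ : 1 ≤ Λ)
    {K : Set α → ℝ} (hK : AInf μ U S K) (hK0 : ∀ Q ∈ S, 0 < K Q) {q θ L B X : ℝ} (hq : 1 < q)
    (hθ : 1 / q < θ) (hL : 0 < L) (hB : 1 ≤ B) (hX0 : 0 < X)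
    (hlo : ∀ Q ∈ S, L ≤ Apq q U V μ Q) (hhi : ∀ Q ∈ S, Apq q U V μ Q ≤ B * L)
    (hKA : ∀ Q ∈ S, K Q ≤ Apq q U V μ Q)
    (hX : ∀ Q ∈ S, Apq q U V μ Q ^ θ * K Q ^ (1 - θ) ≤ X) (R : Set α) (hR : R ∈ S) :
    ∫ x, stepF (sub S R) (den U μ) x ^ (q / (q - 1)) ∂V ≤
      (tC q θ B Λ * (X * 2 ^ (-(eta q θ * |Real.logb 2 L - Real.logb 2 X|)))) ^ (q / (q - 1)) *
        U.real R := by
  have hq0 : 0 < q := by linarith
  have hq1 : 0 < q - 1 := by linarith
  set r : ℝ := q / (q - 1) with hr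
  have hr1 : 1 < r := by
    rw [hr, lt_div_iff₀ hq1]; linarith
  have hr0 : 0 < r := by linarith
  have hrq : r - 1 = 1 / (q - 1) := by
    rw [hr]; field_simp; ring
  have hη := eta_pos hθ
  set Y : ℝ := X * 2 ^ (-(eta q θ * |Real.logb 2 L - Real.logb 2 X|)) with hY
  have hY0 : 0 < Y := mul_pos hX0 (two_rpow_pos _)
  have hB0 : 0 < B := by linarith
  -- the bound for `K`
  set κ : ℝ := (B ^ eta q θ * Y * L ^ (-(1 / q))) ^ r with hκ
  have hκ0 : 0 ≤ κ := Real.rpow_nonneg (by positivity) _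
  have hKκ : ∀ Q ∈ S, K Q ≤ κ := by
    intro Q hQ
    have hA := Apq_pos (q := q) (hS.pW Q hQ) (hS.pN Q hQ) (hS.pμ Q hQ)
    have h1 := scal hq hA (hK0 Q hQ) hX0 (hKA Q hQ) (hX Q hQ)
    have h2 : |Real.logb 2 L - Real.logb 2 X| ≤
        |Real.logb 2 (Apq q U V μ Q) - Real.logb 2 X| + Real.logb 2 B := by
      have h3 : Real.logb 2 L ≤ Real.logb 2 (Apq q U V μ Q) :=
        Real.logb_le_logb_of_le (by norm_num) hL (hlo Q hQ)
      have h4 : Real.logb 2 (Apq q U V μ Q) ≤ Real.logb 2 B + Real.logb 2 L := by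
        rw [← Real.logb_mul hB0.ne' hL.ne']
        exact Real.logb_le_logb_of_le (by norm_num) hA (hhi Q hQ)
      have h5 := abs_sub_abs_le_abs_sub (Real.logb 2 L - Real.logb 2 X)
        (Real.logb 2 (Apq q U V μ Q) - Real.logb 2 X)
      have h6 : |Real.logb 2 L - Real.logb 2 X - (Real.logb 2 (Apq q U V μ Q) - Real.logb 2 X)| ≤
          Real.logb 2 B := by
        rw [abs_le]
        constructor <;> linarith
      linarith
    have h7 : X * 2 ^ (-(eta q θ * |Real.logb 2 (Apq q U V μ Q) - Real.logb 2 X|)) ≤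
        B ^ eta q θ * Y := by
      have h8 : (2 : ℝ) ^ (-(eta q θ * |Real.logb 2 (Apq q U V μ Q) - Real.logb 2 X|)) ≤
          2 ^ (eta q θ * Real.logb 2 B) * 2 ^ (-(eta q θ * |Real.logb 2 L - Real.logb 2 X|)) := by
        rw [← Real.rpow_add (by norm_num)]
        apply Real.rpow_le_rpow_of_exponent_le (by norm_num)
        have := mul_le_mul_of_nonneg_left h2 hη.le
        linarith
      have h9 : (2 : ℝ) ^ (eta q θ * Real.logb 2 B) = B ^ eta q θ := by
        rw [mul_comm, Real.rpow_mul (by norm_num), Real.rpow_logb (by norm_num) (by norm_num) hB0]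
      rw [h9] at h8
      calc X * 2 ^ (-(eta q θ * |Real.logb 2 (Apq q U V μ Q) - Real.logb 2 X|))
          ≤ X * (B ^ eta q θ * 2 ^ (-(eta q θ * |Real.logb 2 L - Real.logb 2 X|))) :=
            mul_le_mul_of_nonneg_left h8 hX0.le
        _ = _ := by rw [hY]; ring
    have h10 : K Q ^ (1 - 1 / q) ≤ B ^ eta q θ * Y * L ^ (-(1 / q)) := by
      have h11 : L ^ (1 / q) * K Q ^ (1 - 1 / q) ≤ B ^ eta q θ * Y := by
        refine le_trans ?_ (h1.trans h7)
        apply mul_le_mul_of_nonneg_right _ (Real.rpow_nonneg (hK0 Q hQ).le _)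
        exact Real.rpow_le_rpow hL.le (hlo Q hQ) (by positivity)
      have h12 : L ^ (-(1 / q)) * (L ^ (1 / q) * K Q ^ (1 - 1 / q)) ≤
          L ^ (-(1 / q)) * (B ^ eta q θ * Y) :=
        mul_le_mul_of_nonneg_left h11 (Real.rpow_nonneg hL.le _)
      rw [← mul_assoc, ← Real.rpow_add hL] at h12
      simp only [neg_add_cancel, Real.rpow_zero, one_mul] at h12
      linarith [mul_comm (L ^ (-(1 / q))) (B ^ eta q θ * Y)]
    have h13 := Real.rpow_le_rpow (Real.rpow_nonneg (hK0 Q hQ).le _) h10 hr0.le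
    rw [← Real.rpow_mul (hK0 Q hQ).le, show (1 - 1 / q) * r = 1 by rw [hr]; field_simp,
      Real.rpow_one] at h13
    exact h13
  obtain ⟨h, h1, h2, h3, h4, h5⟩ := hK
  have hcar := carleson_ainf (W := U) hS.lam hS.ms hS.pμ (by linarith) hκ0 hS.carl h1 h2 h3 h4
    (fun Q hQ => (h5 Q hQ).trans (mul_le_mul_of_nonneg_right (hKκ Q hQ)
      (mul_nonneg (sq_nonneg _) measureReal_nonneg))) (hS.ms R hR)
  have hE : ∀ Q ∈ S, den V μ Q * den U μ Q ^ (r - 1) = Apq q U V μ Q ^ (1 / (q - 1)) := by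
    intro Q hQ
    exact Apq_conj hq (hS.pW Q hQ) (hS.pN Q hQ) (hS.pμ Q hQ)
  have hsub : sub S R ⊆ S := sub_subset
  have hS' := hS.mono hsub
  have ht := testing (μ := μ) (U := U) (V := V) hS'.lam hS'.ms hS'.pμ hS'.pW hr1
    (A := L ^ (1 / (q - 1))) (B := B ^ (1 / (q - 1))) (Real.rpow_pos_of_pos hL _)
    (Real.one_le_rpow hB (by positivity)) hΛ hS'.carl
    (fun Q hQ => by
      rw [hE Q (hsub hQ)]
      exact Real.rpow_le_rpow hL.le (hlo Q (hsub hQ)) (by positivity))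
    (fun Q hQ => by
      rw [hE Q (hsub hQ), ← Real.mul_rpow hB0.le hL.le]
      apply Real.rpow_le_rpow _ (hhi Q (hsub hQ)) (by positivity)
      exact (Apq_pos (hS.pW Q (hsub hQ)) (hS.pN Q (hsub hQ)) (hS.pμ Q (hsub hQ))).le)
  have htC := testC_nonneg hr1 (Real.one_le_rpow hB (by positivity : 0 ≤ 1 / (q - 1))) hΛ
  have hce := ce_nonneg (p := 2) (by norm_num)
  refine ht.trans ?_
  calc testC r (B ^ (1 / (q - 1))) Λ * L ^ (1 / (q - 1)) * ∑ Q ∈ sub S R, U.real Q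
      ≤ testC r (B ^ (1 / (q - 1))) Λ * L ^ (1 / (q - 1)) *
        (4 * Λ * ce 2 * κ * U.real R) :=
        mul_le_mul_of_nonneg_left hcar (mul_nonneg htC (Real.rpow_nonneg hL.le _))
    _ = (testC r (B ^ (1 / (q - 1))) Λ * (4 * Λ * ce 2)) * (L ^ (1 / (q - 1)) * κ) * U.real R := by
        ring
    _ = _ := by
        congr 1
        have e1 : L ^ (1 / (q - 1)) * κ = (B ^ eta q θ * Y) ^ r := by
          rw [hκ, Real.mul_rpow (by positivity) (by positivity), ← Real.rpow_mul hL.le]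
          have : -(1 / q) * r = -(1 / (q - 1)) := by
            rw [hr]; field_simp
          rw [this]
          calc L ^ (1 / (q - 1)) * ((B ^ eta q θ * Y) ^ r * L ^ (-(1 / (q - 1))))
              = (B ^ eta q θ * Y) ^ r * (L ^ (1 / (q - 1)) * L ^ (-(1 / (q - 1)))) := by ring
            _ = _ := by rw [← Real.rpow_add hL]; simp
        have e2 : testC r (B ^ (1 / (q - 1))) Λ * (4 * Λ * ce 2) =
            ((testC r (B ^ (1 / (q - 1))) Λ * (4 * Λ * ce 2)) ^ (1 / r)) ^ r := by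
          rw [← Real.rpow_mul (by positivity), one_div_mul_cancel hr0.ne', Real.rpow_one]
        rw [e1]
        nth_rewrite 1 [e2]
        rw [← Real.mul_rpow (by positivity) (by positivity)]
        congr 1
        unfold tC
        ring

end Pool.Agent.Helper51.Sp
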