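import Pool.Agent.Helper51.SPTest

/-! Testing implies the weak type inequality. -/

open MeasureTheory Set
open scoped ENNReal

namespace Pool.Agent.Helper51.Sp

variable {α : Type*}

open Classical in
/-- stopping sets at height `t` -/
noncomputable def stops (S : Finset (Set α)) (a : Set α → ℝ) (t : ℝ) : Finset (Set α) :=
  S.filter fun R => t < ∑ Q ∈ anc S R, a Q ∧ ∑ Q ∈ (anc S R).erase R, a Q ≤ t

open Classical in
theorem mem_stops {S : Finset (Set α)} {a : Set α → ℝ} {t : ℝ} {R : Set α} :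
    R ∈ stops S a t ↔ R ∈ S ∧ t < ∑ Q ∈ anc S R, a Q ∧ ∑ Q ∈ (anc S R).erase R, a Q ≤ t := by
  unfold stops
  rw [Finset.mem_filter]

open Classical in
theorem anc_sub_at {S : Finset (Set α)} {R : Set α} {x : α} (hx : x ∈ R) :
    anc S R ⊆ S.filter (x ∈ ·) := by
  intro Q hQ
  rw [mem_anc] at hQ
  exact Finset.mem_filter.mpr ⟨hQ.1, hQ.2 hx⟩

theorem exists_stop {S : Finset (Set α)} (hS : Lam S) {a : Set α → ℝ}
    {t : ℝ} (ht : 0 < t) {x : α} (hx : t < stepF S a x) : ∃ R ∈ stops S a t, x ∈ R := by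
  classical
  rw [stepF_eq] at hx
  set A := S.filter (x ∈ ·) with hA
  have hne : A.Nonempty := by
    by_contra hcon
    rw [Finset.not_nonempty_iff_eq_empty] at hcon
    rw [hcon, Finset.sum_empty] at hx
    linarith
  -- the smallest member
  obtain ⟨Q0, hQ0, hmax⟩ := A.exists_max_image (gen S) hne
  have hQ0' := Finset.mem_filter.mp hQ0
  have hancQ0 : anc S Q0 = A := by
    apply Finset.Subset.antisymm (anc_sub_at hQ0'.2)
    intro Q hQ
    have hQ' := Finset.mem_filter.mp hQ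
    rw [mem_anc]
    refine ⟨hQ'.1, ?_⟩
    rcases hS.chain hQ0'.1 hQ'.1 hQ0'.2 hQ'.2 with h | h
    · exact h
    · by_contra hcon
      have h1 : Q ⊂ Q0 := ⟨h, hcon⟩
      have h2 := gen_lt hQ'.1 h1
      have h3 := hmax Q hQ
      omega
  set B := A.filter fun R => t < ∑ Q ∈ anc S R, a Q with hB
  have hneB : B.Nonempty := ⟨Q0, Finset.mem_filter.mpr ⟨hQ0, by rw [hancQ0]; exact hx⟩⟩
  obtain ⟨R, hR, hmin⟩ := B.exists_min_image (gen S) hneB
  have hR1 := Finset.mem_filter.mp hR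
  have hR2 := Finset.mem_filter.mp hR1.1
  refine ⟨R, mem_stops.mpr ⟨hR2.1, hR1.2, ?_⟩, hR2.2⟩
  rcases Nat.eq_or_lt_of_le (gen_pos hR2.1) with h1 | h1
  · have h2 : (anc S R).erase R = ∅ := by
      rw [← Finset.card_eq_zero, Finset.card_erase_of_mem (mem_anc.mpr ⟨hR2.1, le_rfl⟩)]
      unfold gen at h1
      omega
    rw [h2, Finset.sum_empty]
    exact ht.le
  · obtain ⟨R', hR', hRR', hg⟩ := exists_anc hS hR2.1 (j := gen S R - 1) (by omega) (by omega)
    have h3 : (anc S R).erase R = anc S R' := by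
      symm
      apply Finset.eq_of_subset_of_card_le
      · intro Q hQ
        rw [mem_anc] at hQ
        rw [Finset.mem_erase]
        refine ⟨?_, mem_anc.mpr ⟨hQ.1, hRR'.trans hQ.2⟩⟩
        intro heq
        rw [heq] at hQ
        have h4 : R = R' := hRR'.antisymm hQ.2
        rw [← h4] at hg
        omega
      · rw [Finset.card_erase_of_mem (mem_anc.mpr ⟨hR2.1, le_rfl⟩)]
        unfold gen at hg
        omega
    rw [h3]
    by_contra hcon
    rw [not_le] at hcon
    have h5 : R' ∈ B := Finset.mem_filter.mpr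
      ⟨Finset.mem_filter.mpr ⟨hR', hRR' hR2.2⟩, hcon⟩
    have h6 := hmin R' h5
    omega

theorem stops_disj {S : Finset (Set α)} (hS : Lam S) {a : Set α → ℝ} (ha : ∀ Q ∈ S, 0 ≤ a Q)
    {t : ℝ} {R R' : Set α} (hR : R ∈ stops S a t) (hR' : R' ∈ stops S a t) (hne : R ≠ R') :
    Disjoint R R' := by
  classical
  have h1 := mem_stops.mp hR
  have h2 := mem_stops.mp hR'
  have key : ∀ {P P' : Set α}, P ∈ stops S a t → P' ∈ stops S a t → P ⊆ P' → P = P' := by
    intro P P' hP hP' hsub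
    have h3 := mem_stops.mp hP
    have h4 := mem_stops.mp hP'
    by_contra hcon
    have h5 : anc S P' ⊆ (anc S P).erase P := by
      intro Q hQ
      rw [mem_anc] at hQ
      rw [Finset.mem_erase]
      refine ⟨?_, mem_anc.mpr ⟨hQ.1, hsub.trans hQ.2⟩⟩
      intro heq
      rw [heq] at hQ
      exact hcon (hsub.antisymm hQ.2)
    have h6 : ∑ Q ∈ anc S P', a Q ≤ ∑ Q ∈ (anc S P).erase P, a Q :=
      Finset.sum_le_sum_of_subset_of_nonneg h5 fun Q hQ _ =>
        ha Q (mem_anc.mp (Finset.mem_of_mem_erase hQ)).1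
    linarith [h3.2.2, h4.2.1]
  rcases hS.lam R h1.1 R' h2.1 with h | h | h
  · exact absurd (key hR hR' h) hne
  · exact absurd (key hR' hR h).symm hne
  · exact h

theorem stops_sub {S : Finset (Set α)} {a : Set α → ℝ} (ha : ∀ Q ∈ S, 0 ≤ a Q)
    {t : ℝ} {R : Set α} (hR : R ∈ stops S a t) {x : α} (hx : x ∈ R) : t < stepF S a x := by
  classical
  have h1 := mem_stops.mp hR
  rw [stepF_eq]
  exact h1.2.1.trans_le (Finset.sum_le_sum_of_subset_of_nonneg (anc_sub_at hx) fun Q hQ _ =>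
    ha Q (Finset.mem_filter.mp hQ).1)

theorem stops_local {S : Finset (Set α)} (hS : Lam S) {a : Set α → ℝ} (ha : ∀ Q ∈ S, 0 ≤ a Q)
    {t : ℝ} {R : Set α} (hR : R ∈ stops S a t) {x : α} (hx : x ∈ R) (h2 : 2 * t < stepF S a x) :
    t < stepF (sub S R) a x := by
  classical
  have h1 := mem_stops.mp hR
  rw [stepF_eq] at h2 ⊢
  have h3 : S.filter (x ∈ ·) ⊆ (anc S R).erase R ∪ (sub S R).filter (x ∈ ·) := by
    intro Q hQ
    rw [Finset.mem_filter] at hQ
    rw [Finset.mem_union]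
    by_cases hQR : Q ⊆ R
    · right
      exact Finset.mem_filter.mpr ⟨mem_sub.mpr ⟨hQ.1, hQR⟩, hQ.2⟩
    · left
      rcases hS.chain hQ.1 h1.1 hQ.2 hx with h | h
      · exact absurd h hQR
      · rw [Finset.mem_erase]
        exact ⟨fun heq => hQR heq.subset, mem_anc.mpr ⟨hQ.1, h⟩⟩
  have h4 : ∑ Q ∈ S.filter (x ∈ ·), a Q ≤
      ∑ Q ∈ (anc S R).erase R, a Q + ∑ Q ∈ (sub S R).filter (x ∈ ·), a Q := by
    refine (Finset.sum_le_sum_of_subset_of_nonneg h3 ?_).trans ?_
    · intro Q hQ _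
      rw [Finset.mem_union] at hQ
      rcases hQ with hQ | hQ
      · exact ha Q (mem_anc.mp (Finset.mem_of_mem_erase hQ)).1
      · exact ha Q (mem_sub.mp (Finset.mem_filter.mp hQ).1).1
    · rw [← Finset.sum_union_inter]
      have : 0 ≤ ∑ Q ∈ (anc S R).erase R ∩ (sub S R).filter (x ∈ ·), a Q :=
        Finset.sum_nonneg fun Q hQ =>
          ha Q (mem_sub.mp (Finset.mem_filter.mp (Finset.mem_inter.mp hQ).2).1).1
      linarith
  linarith [h1.2.2]

/-- the numerical alternative in the good-lambda argument -/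
theorem good_lambda {p t y z I τ β : ℝ} (hp : 1 < p) (ht : 0 < t) (hy : 0 ≤ y) (hz : 0 ≤ z)
    (hI : 0 ≤ I) (hτ : 0 ≤ τ) (hβ : 0 < β)
    (h : t * y ≤ I ^ (1 / p) * (τ * z ^ (1 - 1 / p))) :
    y ≤ β * z + β ^ (1 - p) * (t ^ (-p) * τ ^ p * I) := by
  have hp0 : 0 < p := by linarith
  have hrhs : 0 ≤ β ^ (1 - p) * (t ^ (-p) * τ ^ p * I) := by
    have h1 := Real.rpow_nonneg hβ.le (1 - p)
    have h2 := Real.rpow_nonneg ht.le (-p)
    have h3 := Real.rpow_nonneg hτ p
    positivity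
  rcases le_or_gt y (β * z) with h1 | h1
  · linarith
  · have hy0 : 0 < y := lt_of_le_of_lt (mul_nonneg hβ.le hz) h1
    have hz1 : z ≤ y / β := by
      rw [le_div_iff₀ hβ]
      linarith
    have h2 : (t * y) ^ p ≤ (I ^ (1 / p) * (τ * z ^ (1 - 1 / p))) ^ p :=
      Real.rpow_le_rpow (by positivity) h hp0.le
    rw [Real.mul_rpow ht.le hy, Real.mul_rpow (Real.rpow_nonneg hI _)
      (mul_nonneg hτ (Real.rpow_nonneg hz _)), ← Real.rpow_mul hI, one_div_mul_cancel hp0.ne',
      Real.rpow_one, Real.mul_rpow hτ (Real.rpow_nonneg hz _), ← Real.rpow_mul hz,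
      show (1 - 1 / p) * p = p - 1 by field_simp] at h2
    have h3 : z ^ (p - 1) ≤ (y / β) ^ (p - 1) := Real.rpow_le_rpow hz hz1 (by linarith)
    have h4 : (y / β) ^ (p - 1) = y ^ (p - 1) * β ^ (1 - p) := by
      rw [Real.div_rpow hy hβ.le, show (1 : ℝ) - p = -(p - 1) by ring, Real.rpow_neg hβ.le,
        div_eq_mul_inv]
    have h5 : t ^ p * y ^ p ≤ I * (τ ^ p * (y ^ (p - 1) * β ^ (1 - p))) := by
      refine h2.trans ?_
      apply mul_le_mul_of_nonneg_left _ hI
      apply mul_le_mul_of_nonneg_left _ (Real.rpow_nonneg hτ _)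
      rw [← h4]
      exact h3
    have h6 : y ^ p = y * y ^ (p - 1) := by
      rw [Real.rpow_sub hy0, Real.rpow_one]
      field_simp
    have h7 : 0 < y ^ (p - 1) := Real.rpow_pos_of_pos hy0 _
    have h8 : t ^ p * y ≤ I * (τ ^ p * β ^ (1 - p)) := by
      apply le_of_mul_le_mul_right _ h7
      calc t ^ p * y * y ^ (p - 1) = t ^ p * y ^ p := by rw [h6]; ring
        _ ≤ _ := h5
        _ = _ := by ring
    have h9 : 0 < t ^ p := Real.rpow_pos_of_pos ht _
    have h10 : y ≤ β ^ (1 - p) * (t ^ (-p) * τ ^ p * I) := by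
      rw [Real.rpow_neg ht.le]
      have : β ^ (1 - p) * ((t ^ p)⁻¹ * τ ^ p * I) = (I * (τ ^ p * β ^ (1 - p))) / t ^ p := by
        rw [div_eq_mul_inv]; ring
      rw [this, le_div_iff₀ h9, mul_comm]
      exact h8
    have := mul_nonneg hβ.le hz
    linarith

variable [MeasurableSpace α]

/-- the local dual estimate -/
theorem local_dual {μ W N : Measure α} [IsFiniteMeasure N]
    {S : Finset (Set α)} (hm : ∀ Q ∈ S, MeasurableSet Q) {p : ℝ} (hp : 1 < p) {φ : α → ℝ}
    (hφ : MemLp φ (ENNReal.ofReal p) N) (hφ0 : ∀ x, 0 ≤ φ x) {R : Set α}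
    (hR : MeasurableSet R) (hSR : ∀ Q ∈ S, Q ⊆ R) {τ z : ℝ} (hτ : 0 ≤ τ) (hz : 0 ≤ z)
    (htest : ∫ x, stepF S (den W μ) x ^ (p / (p - 1)) ∂N ≤ τ ^ (p / (p - 1)) * z) :
    ∑ Q ∈ S, (∫ x in Q, φ x ∂N) / μ.real Q * W.real Q ≤
      (∫ x in R, φ x ^ p ∂N) ^ (1 / p) * (τ * z ^ (1 - 1 / p)) := by
  have hp0 : 0 < p := by linarith
  have hp1 : 0 < p - 1 := by linarith
  set p' : ℝ := p / (p - 1) with hp'
  have hpq : p.HolderConjugate p' := Real.HolderConjugate.conjExponent hp
  have hp'0 : 0 < p' := by positivity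
  have hφi : Integrable φ N := hφ.integrable (by
    rw [← ENNReal.ofReal_one]
    exact ENNReal.ofReal_le_ofReal hp.le)
  have hd0 : ∀ Q ∈ S, 0 ≤ den W μ Q := fun Q _ => div_nonneg measureReal_nonneg measureReal_nonneg
  have h1 : ∑ Q ∈ S, (∫ x in Q, φ x ∂N) / μ.real Q * W.real Q =
      ∫ x, R.indicator φ x * stepF S (den W μ) x ∂N := by
    have h2 : ∫ x, R.indicator φ x * stepF S (den W μ) x ∂N =
        ∫ x, φ x * stepF S (den W μ) x ∂N := by
      apply integral_congr_ae
      apply Filter.Eventually.of_forall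
      intro x
      simp only
      by_cases hx : x ∈ R
      · rw [Set.indicator_of_mem hx]
      · rw [Set.indicator_of_notMem hx, zero_mul]
        have : stepF S (den W μ) x = 0 := by
          classical
          rw [stepF_eq]
          apply Finset.sum_eq_zero
          intro F hF'
          rw [Finset.mem_filter] at hF'
          exact absurd (hSR F hF'.1 hF'.2) hx
        rw [this, mul_zero]
    rw [h2, integral_mul_stepF hm _ hφi]
    apply Finset.sum_congr rfl
    intro Q _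
    unfold den
    ring
  rw [h1]
  have h3 := integral_mul_le_Lp_mul_Lq_of_nonneg (μ := N) hpq
    (f := R.indicator φ) (g := stepF S (den W μ))
    (Filter.Eventually.of_forall fun x => Set.indicator_nonneg (fun y _ => hφ0 y) x)
    (Filter.Eventually.of_forall fun x => stepF_nonneg hd0 x) (hφ.indicator hR)
    (memLp_stepF hm hd0 _)
  refine h3.trans ?_
  have h4 : ∫ x, R.indicator φ x ^ p ∂N = ∫ x in R, φ x ^ p ∂N := by
    rw [← integral_indicator hR]
    apply integral_congr_ae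
    apply Filter.Eventually.of_forall
    intro x
    simp only
    by_cases hx : x ∈ R
    · rw [Set.indicator_of_mem hx, Set.indicator_of_mem hx]
    · rw [Set.indicator_of_notMem hx, Set.indicator_of_notMem hx, Real.zero_rpow hp0.ne']
  rw [h4]
  have hI0 : 0 ≤ ∫ x in R, φ x ^ p ∂N := integral_nonneg fun x => Real.rpow_nonneg (hφ0 x) _
  apply mul_le_mul_of_nonneg_left _ (Real.rpow_nonneg hI0 _)
  have h10 : 1 / p' = 1 - 1 / p := by rw [hp']; field_simp
  calc (∫ x, stepF S (den W μ) x ^ p' ∂N) ^ (1 / p') ≤ (τ ^ p' * z) ^ (1 / p') := by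
        apply Real.rpow_le_rpow _ htest (by positivity)
        exact integral_nonneg fun x => Real.rpow_nonneg (stepF_nonneg hd0 x) _
    _ = _ := by
        rw [Real.mul_rpow (Real.rpow_nonneg hτ _) hz, ← Real.rpow_mul hτ,
          mul_one_div_cancel hp'0.ne', Real.rpow_one, h10]

/-- the constant in the weak type theorem -/
noncomputable def wkC (p : ℝ) : ℝ := 2 * (2 ^ p * (2 ^ (-(p + 1))) ^ (1 - p))

/-- **testing implies the weak type inequality** -/
theorem weak_of_test {μ W N : Measure α} [IsFiniteMeasure W] [IsFiniteMeasure N]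
    {S : Finset (Set α)} (hS : Lam S) (hm : ∀ Q ∈ S, MeasurableSet Q) {p : ℝ} (hp : 1 < p)
    {φ : α → ℝ} (hφ : MemLp φ (ENNReal.ofReal p) N) (hφ0 : ∀ x, 0 ≤ φ x) {τ : ℝ} (hτ : 0 ≤ τ)
    (htest : ∀ R ∈ S, ∫ x, stepF (sub S R) (den W μ) x ^ (p / (p - 1)) ∂N ≤
      τ ^ (p / (p - 1)) * W.real R) {t : ℝ} (ht : 0 < t) :
    t ^ p * W.real {x | t < stepF S (fun Q => (∫ x in Q, φ x ∂N) / μ.real Q) x} ≤
      wkC p * τ ^ p * ∫ x, φ x ^ p ∂N := by
  classical
  have hp0 : 0 < p := by linarith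
  set a : Set α → ℝ := fun Q => (∫ x in Q, φ x ∂N) / μ.real Q with ha
  have ha0 : ∀ Q ∈ S, 0 ≤ a Q := fun Q _ =>
    div_nonneg (integral_nonneg fun x => hφ0 x) measureReal_nonneg
  set β : ℝ := 2 ^ (-(p + 1)) with hβ
  have hβ0 : 0 < β := two_rpow_pos _
  set Om : ℝ → Set α := fun t => {x | t < stepF S a x} with hOm
  have hOmm : ∀ t, MeasurableSet (Om t) := fun t => measurableSet_lt measurable_const
    (measurable_stepF hm a)
  have hint : Integrable (fun x => φ x ^ p) N := by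
    have := hφ.integrable_norm_rpow (by
      rw [Ne, ENNReal.ofReal_eq_zero, not_le]; exact hp0) ENNReal.ofReal_ne_top
    rw [ENNReal.toReal_ofReal hp0.le] at this
    refine this.congr (Filter.Eventually.of_forall fun x => ?_)
    simp only
    rw [Real.norm_of_nonneg (hφ0 x)]
  set I : ℝ := ∫ x, φ x ^ p ∂N with hI
  have hI0 : 0 ≤ I := integral_nonneg fun x => Real.rpow_nonneg (hφ0 x) _
  -- one step
  have hstep : ∀ t, 0 < t → W.real (Om (2 * t)) ≤
      β * W.real (Om t) + β ^ (1 - p) * (t ^ (-p) * τ ^ p * I) := by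
    intro t ht
    set 𝓡 := stops S a t with h𝓡
    have hRS : ∀ R ∈ 𝓡, R ∈ S := fun R hR => (mem_stops.mp hR).1
    have hRm : ∀ R ∈ 𝓡, MeasurableSet R := fun R hR => hm R (hRS R hR)
    have hdisj : (𝓡 : Set (Set α)).PairwiseDisjoint id := fun R hR R' hR' hne =>
      stops_disj hS ha0 hR hR' hne
    -- local estimate
    have hloc : ∀ R ∈ 𝓡, W.real (R ∩ Om (2 * t)) ≤ β * W.real R +
        β ^ (1 - p) * (t ^ (-p) * τ ^ p * ∫ x in R, φ x ^ p ∂N) := by
      intro R hR
      apply good_lambda hp ht measureReal_nonneg measureReal_nonneg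
        (integral_nonneg fun x => Real.rpow_nonneg (hφ0 x) _) hτ hβ0
      have hsub : ∀ Q ∈ sub S R, MeasurableSet Q := fun Q hQ => hm Q (sub_subset hQ)
      have h1 := local_dual (μ := μ) (W := W) hsub hp hφ hφ0 (hRm R hR)
        (fun Q hQ => (mem_sub.mp hQ).2) hτ measureReal_nonneg (htest R (hRS R hR))
      refine le_trans ?_ h1
      have ha0' : ∀ Q ∈ sub S R, 0 ≤ a Q := fun Q hQ => ha0 Q (sub_subset hQ)
      have h2 : ∑ Q ∈ sub S R, (∫ x in Q, φ x ∂N) / μ.real Q * W.real Q =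
          ∫ x, stepF (sub S R) a x ∂W := by rw [integral_stepF hsub]
      rw [h2]
      have h3 : t * W.real (R ∩ Om (2 * t)) = ∫ x, (R ∩ Om (2 * t)).indicator (fun _ => t) x ∂W := by
        rw [integral_indicator ((hRm R hR).inter (hOmm _)), setIntegral_const, smul_eq_mul, mul_comm]
      rw [h3]
      apply integral_mono
      · exact (integrable_const _).indicator ((hRm R hR).inter (hOmm _))
      · exact integrable_stepF hsub ha0'
      · intro x
        simp only
        by_cases hx : x ∈ R ∩ Om (2 * t)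
        · rw [Set.indicator_of_mem hx]
          exact (stops_local hS ha0 hR hx.1 hx.2).le
        · rw [Set.indicator_of_notMem hx]
          exact stepF_nonneg ha0' x
    have hcover : Om (2 * t) ⊆ ⋃ R ∈ 𝓡, R ∩ Om (2 * t) := by
      intro x hx
      have hx' : t < stepF S a x := by
        have : 2 * t < stepF S a x := hx
        linarith
      obtain ⟨R, hR, hxR⟩ := exists_stop hS ht hx'
      exact Set.mem_biUnion hR ⟨hxR, hx⟩
    have h1 : W.real (Om (2 * t)) ≤ ∑ R ∈ 𝓡, W.real (R ∩ Om (2 * t)) :=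
      (measureReal_mono hcover (measure_ne_top _ _)).trans (measureReal_biUnion_finset_le _ _)
    have h2 : ∑ R ∈ 𝓡, W.real R ≤ W.real (Om t) := by
      rw [← measureReal_biUnion_finset (f := fun R => R) hdisj hRm]
      apply measureReal_mono _ (measure_ne_top _ _)
      intro x hx
      rw [Set.mem_iUnion₂] at hx
      obtain ⟨R, hR, hxR⟩ := hx
      exact stops_sub ha0 hR hxR
    have h3 : ∑ R ∈ 𝓡, ∫ x in R, φ x ^ p ∂N ≤ I := by
      rw [← integral_biUnion_finset 𝓡 hRm hdisj fun R _ => hint.integrableOn]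
      exact setIntegral_le_integral hint
        (Filter.Eventually.of_forall fun x => Real.rpow_nonneg (hφ0 x) _)
    have hc : 0 ≤ β ^ (1 - p) * (t ^ (-p) * τ ^ p) := by
      have h4 := Real.rpow_nonneg hβ0.le (1 - p)
      have h5 := Real.rpow_nonneg ht.le (-p)
      have h6 := Real.rpow_nonneg hτ p
      positivity
    calc W.real (Om (2 * t)) ≤ ∑ R ∈ 𝓡, W.real (R ∩ Om (2 * t)) := h1
      _ ≤ ∑ R ∈ 𝓡, (β * W.real R + β ^ (1 - p) * (t ^ (-p) * τ ^ p) *
          ∫ x in R, φ x ^ p ∂N) := by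
          apply Finset.sum_le_sum
          intro R hR
          refine (hloc R hR).trans (le_of_eq ?_)
          ring
      _ = β * ∑ R ∈ 𝓡, W.real R + β ^ (1 - p) * (t ^ (-p) * τ ^ p) *
          ∑ R ∈ 𝓡, ∫ x in R, φ x ^ p ∂N := by
          rw [Finset.sum_add_distrib, Finset.mul_sum, Finset.mul_sum]
      _ ≤ β * W.real (Om t) + β ^ (1 - p) * (t ^ (-p) * τ ^ p) * I :=
          add_le_add (mul_le_mul_of_nonneg_left h2 hβ0.le) (mul_le_mul_of_nonneg_left h3 hc)
      _ = _ := by ring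
  -- iteration
  set K : ℝ := 2 ^ p * β ^ (1 - p) * (τ ^ p * I) with hK
  have hK0 : 0 ≤ K := by
    have h4 := Real.rpow_nonneg hβ0.le (1 - p)
    have h6 := Real.rpow_nonneg hτ p
    positivity
  have hiter : ∀ t, 0 < t → (2 * t) ^ p * W.real (Om (2 * t)) ≤
      1 / 2 * (t ^ p * W.real (Om t)) + K := by
    intro t ht
    have h1 := hstep t ht
    have h2 : 0 < (2 * t) ^ p := Real.rpow_pos_of_pos (by positivity) _
    have h3 := mul_le_mul_of_nonneg_left h1 h2.le
    refine h3.trans (le_of_eq ?_)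
    have h4 : (2 * t) ^ p = 2 ^ p * t ^ p := Real.mul_rpow (by norm_num) ht.le
    have h5 : t ^ p * t ^ (-p) = 1 := by
      rw [← Real.rpow_add ht, add_neg_cancel, Real.rpow_zero]
    have h6 : 2 ^ p * β = 1 / 2 := by
      rw [hβ, ← Real.rpow_add (by norm_num)]
      rw [show p + -(p + 1) = -1 by ring, Real.rpow_neg_one]
      norm_num
    rw [h4]
    calc 2 ^ p * t ^ p * (β * W.real (Om t) + β ^ (1 - p) * (t ^ (-p) * τ ^ p * I))
        = (2 ^ p * β) * (t ^ p * W.real (Om t)) +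
          (t ^ p * t ^ (-p)) * (2 ^ p * β ^ (1 - p) * (τ ^ p * I)) := by ring
      _ = _ := by rw [h5, h6, one_mul]
  set M : ℝ := W.real univ with hM
  have hbound : ∀ t, 0 < t → t ^ p * W.real (Om t) ≤ (∑ Q ∈ S, a Q) ^ p * M := by
    intro t ht
    have hsum0 : 0 ≤ ∑ Q ∈ S, a Q := Finset.sum_nonneg ha0
    by_cases htt : t ≤ ∑ Q ∈ S, a Q
    · exact mul_le_mul (Real.rpow_le_rpow ht.le htt hp0.le) (measureReal_mono (subset_univ _) (measure_ne_top _ _))
        measureReal_nonneg (Real.rpow_nonneg hsum0 _)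
    · have : Om t = ∅ := by
        ext x
        simp only [Set.mem_empty_iff_false, iff_false]
        intro hx
        have h1 : t < stepF S a x := hx
        exact htt (h1.le.trans (stepF_le ha0 x))
      rw [this, measureReal_empty, mul_zero]
      exact mul_nonneg (Real.rpow_nonneg hsum0 _) measureReal_nonneg
  have hall : ∀ j : ℕ, ∀ t, 0 < t → t ^ p * W.real (Om t) ≤
      (1 / 2) ^ j * ((∑ Q ∈ S, a Q) ^ p * M) + 2 * K := by
    intro j
    induction j with
    | zero =>
      intro t ht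
      have := hbound t ht
      rw [pow_zero, one_mul]
      linarith
    | succ j ih =>
      intro t ht
      have h1 := hiter (t / 2) (by positivity)
      rw [mul_div_cancel₀ t (by norm_num : (2 : ℝ) ≠ 0)] at h1
      have h2 := ih (t / 2) (by positivity)
      rw [pow_succ]
      linarith
  have hlim : Filter.Tendsto (fun j : ℕ => (1 / 2 : ℝ) ^ j * ((∑ Q ∈ S, a Q) ^ p * M) + 2 * K)
      Filter.atTop (nhds (0 * ((∑ Q ∈ S, a Q) ^ p * M) + 2 * K)) :=
    ((tendsto_pow_atTop_nhds_zero_of_lt_one (by norm_num) (by norm_num)).mul_const _).add_const _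
  rw [zero_mul, zero_add] at hlim
  have hfin := ge_of_tendsto' hlim fun j => hall j t ht
  refine hfin.trans (le_of_eq ?_)
  rw [hK]
  unfold wkC
  rw [← hβ]
  ring

end Pool.Agent.Helper51.Sp
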