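import Pool.Agent.Helper51.SPStrong2
import Pool.Agent.Helper51.SPSum
import Pool.Agent.Helper51.SPWeak

/-! Summation of the frozen levels: the weak and the strong estimate for one family. -/

open MeasureTheory Set
open scoped ENNReal

namespace Pool.Agent.Helper51.Sp

variable {α : Type*}

open Classical in
/-- the members of the family on a given level -/
noncomputable def lvl (S : Finset (Set α)) (A : Set α → ℝ) (a : ℤ) : Finset (Set α) :=
  S.filter fun Q => lev (A Q) = a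

theorem lvl_subset {S : Finset (Set α)} {A : Set α → ℝ} {a : ℤ} : lvl S A a ⊆ S := by
  classical
  exact Finset.filter_subset _ _

theorem mem_lvl {S : Finset (Set α)} {A : Set α → ℝ} {a : ℤ} {Q : Set α} :
    Q ∈ lvl S A a ↔ Q ∈ S ∧ lev (A Q) = a := by
  classical
  unfold lvl
  rw [Finset.mem_filter]

theorem stepF_lvl (S : Finset (Set α)) (A c : Set α → ℝ) (x : α) :
    stepF S c x = ∑ a ∈ S.image (fun Q => lev (A Q)), stepF (lvl S A a) c x := by
  classical
  unfold stepF lvl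
  rw [Finset.sum_fiberwise_of_maps_to]
  intro Q hQ
  exact Finset.mem_image_of_mem _ hQ

variable [MeasurableSpace α]

/-- Minkowski's inequality for bounded functions -/
theorem mink {W : Measure α} [IsFiniteMeasure W] {ι : Type*} (F : Finset ι) (g : ι → α → ℝ)
    (hg : ∀ a ∈ F, Measurable (g a)) (hg0 : ∀ a ∈ F, ∀ x, 0 ≤ g a x)
    (hgb : ∀ a ∈ F, ∃ C, ∀ x, |g a x| ≤ C) {p : ℝ} (hp : 1 ≤ p) :
    (∫ x, (∑ a ∈ F, g a x) ^ p ∂W) ^ (1 / p) ≤ ∑ a ∈ F, (∫ x, g a x ^ p ∂W) ^ (1 / p) := by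
  have hp0 : 0 < p := by linarith
  have hpp : ENNReal.ofReal p ≠ 0 := by
    rw [Ne, ENNReal.ofReal_eq_zero, not_le]; exact hp0
  have hmem : ∀ a ∈ F, MemLp (g a) (ENNReal.ofReal p) W := by
    intro a ha
    obtain ⟨C, hC⟩ := hgb a ha
    exact memLp_bdd (hg a ha) hC _
  have key : ∀ f : α → ℝ, MemLp f (ENNReal.ofReal p) W → (∀ x, 0 ≤ f x) →
      eLpNorm f (ENNReal.ofReal p) W = ENNReal.ofReal ((∫ x, f x ^ p ∂W) ^ (1 / p)) := by
    intro f hf hf0
    rw [hf.eLpNorm_eq_integral_rpow_norm hpp ENNReal.ofReal_ne_top,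
      ENNReal.toReal_ofReal hp0.le, one_div]
    congr 3
    funext x
    rw [Real.norm_of_nonneg (hf0 x)]
  have h1 := eLpNorm_sum_le (μ := W) (p := ENNReal.ofReal p) (s := F) (f := g)
    (fun a ha => (hg a ha).aestronglyMeasurable) (by
      rw [← ENNReal.ofReal_one]; exact ENNReal.ofReal_le_ofReal hp)
  have e1 : (∑ a ∈ F, g a) = fun x => ∑ a ∈ F, g a x := by
    funext x
    rw [Finset.sum_apply]
  have hsum : MemLp (fun x => ∑ a ∈ F, g a x) (ENNReal.ofReal p) W := memLp_finsetSum F hmem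
  rw [e1, key _ hsum (fun x => Finset.sum_nonneg fun a ha => hg0 a ha x),
    Finset.sum_congr rfl (fun a ha => key _ (hmem a ha) (hg0 a ha)),
    ← ENNReal.ofReal_sum_of_nonneg (fun a ha => Real.rpow_nonneg
      (integral_nonneg fun x => Real.rpow_nonneg (hg0 a ha x) _) _)] at h1
  rw [← ENNReal.ofReal_le_ofReal_iff (Finset.sum_nonneg fun a ha => Real.rpow_nonneg
      (integral_nonneg fun x => Real.rpow_nonneg (hg0 a ha x) _) _)]
  exact h1

theorem logb_two_rpow (x : ℝ) : Real.logb 2 ((2 : ℝ) ^ x) = x :=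
  Real.logb_rpow (by norm_num) (by norm_num)

/-- the constant of the weak type estimate -/
noncomputable def cW (p θ Λ : ℝ) : ℝ :=
  wkC p * (2 * (1 - (2 : ℝ) ^ (-(eta p θ / 2)))⁻¹) *
    (tC p θ 2 Λ * (2 * (1 - (2 : ℝ) ^ (-(eta p θ / 2)))⁻¹)) ^ p

/-- **the weak type estimate for one family** -/
theorem weak_family {μ W N : Measure α} [IsFiniteMeasure μ] [IsFiniteMeasure W]
    [IsFiniteMeasure N] {S : Finset (Set α)} {Λ : ℝ} (hS : Fam μ W N S Λ) (hΛ : 1 ≤ Λ)
    {K : Set α → ℝ} (hK : AInf μ W S K) (hK0 : ∀ Q ∈ S, 0 < K Q) {p θ X : ℝ} (hp : 1 < p)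
    (hθ : 1 / p < θ) (hX0 : 0 < X) (hKA : ∀ Q ∈ S, K Q ≤ Apq p W N μ Q)
    (hX : ∀ Q ∈ S, Apq p W N μ Q ^ θ * K Q ^ (1 - θ) ≤ X)
    {φ : α → ℝ} (hφ : MemLp φ (ENNReal.ofReal p) N) (hφ0 : ∀ x, 0 ≤ φ x) {t : ℝ} (ht : 0 < t) :
    t ^ p * W.real {x | t < stepF S (fun Q => (∫ x in Q, φ x ∂N) / μ.real Q) x} ≤
      cW p θ Λ * X ^ p * ∫ x, φ x ^ p ∂N := by
  classical
  have hp0 : 0 < p := by linarith
  have hη := eta_pos hθ
  set η := eta p θ with hηdef
  set c : Set α → ℝ := fun Q => (∫ x in Q, φ x ∂N) / μ.real Q with hc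
  set A : Set α → ℝ := Apq p W N μ with hA
  set F : Finset ℤ := S.image (fun Q => lev (A Q)) with hF
  set xs : ℝ := Real.logb 2 X with hxs
  set u : ℤ → ℝ := fun a => (2 : ℝ) ^ (-(η / 2 * |(a : ℝ) - xs|)) with hu
  have hu0 : ∀ a, 0 < u a := fun a => two_rpow_pos _
  have hu1 : ∀ a, u a ≤ 1 := fun a => by
    apply Real.rpow_le_one_of_one_le_of_nonpos (by norm_num)
    have : 0 ≤ η / 2 * |(a : ℝ) - xs| := by positivity
    linarith
  set G : ℝ := 2 * (1 - (2 : ℝ) ^ (-(η / 2)))⁻¹ with hG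
  have hG0 : 0 < G := by
    have := geo_const_pos (q := η / 2) (by positivity)
    positivity
  have hsum : ∑ a ∈ F, u a ≤ G := abs_sum F (by positivity) xs
  set I : ℝ := ∫ x, φ x ^ p ∂N with hI
  have hI0 : 0 ≤ I := integral_nonneg fun x => Real.rpow_nonneg (hφ0 x) _
  set Tc : ℝ := tC p θ 2 Λ with hTc
  have hTc0 : 0 ≤ Tc := tC_nonneg hp (by norm_num) hΛ
  have hwk : 0 ≤ wkC p := by
    unfold wkC
    positivity
  -- one level
  have hlevel : ∀ a ∈ F, W.real {x | t * u a / G < stepF (lvl S A a) c x} ≤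
      wkC p * (Tc * X * G / t) ^ p * I * u a := by
    intro a _
    have hsub : lvl S A a ⊆ S := lvl_subset
    have hS' := hS.mono hsub
    have hpos : ∀ Q ∈ S, 0 < A Q := fun Q hQ => Apq_pos (hS.pW Q hQ) (hS.pN Q hQ) (hS.pμ Q hQ)
    have htest := test_level (θ := θ) (L := (2 : ℝ) ^ (a : ℝ)) (B := 2) (X := X) hS' hΛ
      (hK.mono hsub) (fun Q hQ => hK0 Q (hsub hQ)) hp hθ (two_rpow_pos _) (by norm_num) hX0
      (fun Q hQ => by
        have h1 := mem_lvl.mp hQ
        rw [← h1.2]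
        exact lev_le (hpos Q h1.1))
      (fun Q hQ => by
        have h1 := mem_lvl.mp hQ
        rw [← h1.2]
        exact (lt_lev' (hpos Q h1.1)).le)
      (fun Q hQ => hKA Q (hsub hQ)) (fun Q hQ => hX Q (hsub hQ))
    rw [logb_two_rpow] at htest
    have e1 : (2 : ℝ) ^ (-(eta p θ * |(a : ℝ) - Real.logb 2 X|)) = u a * u a := by
      rw [hu]
      simp only
      rw [← Real.rpow_add (by norm_num)]
      congr 1
      ring
    rw [e1] at htest
    have hτ0 : 0 ≤ Tc * (X * (u a * u a)) := by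
      have := hu0 a
      positivity
    have h1 := weak_of_test (μ := μ) hS'.lam hS'.ms hp hφ hφ0 hτ0 htest
      (t := t * u a / G) (by have := hu0 a; positivity)
    have h2 : 0 < (t * u a / G) ^ p := Real.rpow_pos_of_pos (by have := hu0 a; positivity) _
    have h3 : W.real {x | t * u a / G < stepF (lvl S A a) c x} ≤
        (wkC p * (Tc * (X * (u a * u a))) ^ p * I) / (t * u a / G) ^ p := by
      rw [le_div_iff₀ h2]
      linarith
    refine h3.trans ?_
    have h4 : (wkC p * (Tc * (X * (u a * u a))) ^ p * I) / (t * u a / G) ^ p =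
        wkC p * (Tc * X * G / t) ^ p * I * u a ^ p := by
      have h5 : ∀ v : ℝ, 0 < v → (Tc * (X * (v * v))) ^ p = (Tc * X * G / t) ^ p * v ^ p *
          (t * v / G) ^ p := by
        intro v hv
        rw [← Real.mul_rpow (by positivity) (by positivity),
          ← Real.mul_rpow (by positivity) (by positivity)]
        congr 1
        field_simp
      rw [h5 _ (hu0 a)]
      field_simp
    rw [h4]
    apply mul_le_mul_of_nonneg_left
    · calc u a ^ p ≤ u a ^ (1 : ℝ) :=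
          Real.rpow_le_rpow_of_exponent_ge (hu0 a) (hu1 a) hp.le
        _ = u a := Real.rpow_one _
    · have : 0 ≤ (Tc * X * G / t) ^ p := Real.rpow_nonneg (by positivity) _
      positivity
  have hcover : {x | t < stepF S c x} ⊆ ⋃ a ∈ F, {x | t * u a / G < stepF (lvl S A a) c x} := by
    intro x hx
    by_contra hcon
    simp only [mem_iUnion, mem_ofPred_eq, not_exists, not_lt] at hcon
    have h1 : stepF S c x ≤ t := by
      rw [stepF_lvl S A c x]
      calc ∑ a ∈ F, stepF (lvl S A a) c x ≤ ∑ a ∈ F, t * u a / G :=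
            Finset.sum_le_sum fun a ha => hcon a ha
        _ = t / G * ∑ a ∈ F, u a := by
            rw [Finset.mul_sum]
            apply Finset.sum_congr rfl
            intro a _
            ring
        _ ≤ t / G * G := mul_le_mul_of_nonneg_left hsum (by positivity)
        _ = t := by field_simp
    exact absurd hx (not_lt.mpr h1)
  have h6 : W.real {x | t < stepF S c x} ≤ wkC p * (Tc * X * G / t) ^ p * I * G := by
    calc W.real {x | t < stepF S c x}
        ≤ W.real (⋃ a ∈ F, {x | t * u a / G < stepF (lvl S A a) c x}) := measureReal_mono hcover (measure_ne_top _ _)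
      _ ≤ ∑ a ∈ F, W.real {x | t * u a / G < stepF (lvl S A a) c x} :=
          measureReal_biUnion_finset_le _ _
      _ ≤ ∑ a ∈ F, wkC p * (Tc * X * G / t) ^ p * I * u a := Finset.sum_le_sum hlevel
      _ = wkC p * (Tc * X * G / t) ^ p * I * ∑ a ∈ F, u a := by rw [Finset.mul_sum]
      _ ≤ _ := by
          apply mul_le_mul_of_nonneg_left hsum
          have : 0 ≤ (Tc * X * G / t) ^ p := Real.rpow_nonneg (by positivity) _
          positivity
  calc t ^ p * W.real {x | t < stepF S c x}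
      ≤ t ^ p * (wkC p * (Tc * X * G / t) ^ p * I * G) :=
        mul_le_mul_of_nonneg_left h6 (Real.rpow_nonneg ht.le _)
    _ = wkC p * G * (t ^ p * (Tc * X * G / t) ^ p) * I := by ring
    _ = wkC p * G * (Tc * G * X) ^ p * I := by
        rw [← Real.mul_rpow ht.le (by positivity)]
        congr 3
        field_simp
    _ = _ := by
        rw [Real.mul_rpow (by positivity) hX0.le]
        unfold cW
        ring

theorem conj_conj {p : ℝ} (hp : 1 < p) : p / (p - 1) / (p / (p - 1) - 1) = p := by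
  have : p - 1 ≠ 0 := by linarith
  field_simp
  ring

theorem conj_gt {p : ℝ} (hp : 1 < p) : 1 < p / (p - 1) := by
  have hp1 : 0 < p - 1 := by linarith
  rw [lt_div_iff₀ hp1]
  linarith

/-- first constant of the strong type estimate -/
noncomputable def cS1 (p θ Λ : ℝ) : ℝ :=
  hC (p / (p - 1)) * tC p θ 2 Λ * (2 * (1 - (2 : ℝ) ^ (-(eta p θ)))⁻¹)

/-- second constant of the strong type estimate -/
noncomputable def cS2 (p θ' Λ : ℝ) : ℝ :=
  hC p * tC (p / (p - 1)) θ' (2 ^ (1 / (p - 1))) Λ *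
    (2 * (1 - (2 : ℝ) ^ (-(eta (p / (p - 1)) θ' / (p - 1))))⁻¹)

/-- **the strong type estimate for one family** -/
theorem strong_family {μ W N : Measure α} [IsFiniteMeasure μ] [IsFiniteMeasure W]
    [IsFiniteMeasure N] {S : Finset (Set α)} {Λ : ℝ} (hS : Fam μ W N S Λ) (hΛ : 1 ≤ Λ)
    {K K' : Set α → ℝ} (hK : AInf μ W S K) (hK0 : ∀ Q ∈ S, 0 < K Q)
    (hK' : AInf μ N S K') (hK0' : ∀ Q ∈ S, 0 < K' Q) {p θ θ' X X' : ℝ} (hp : 1 < p)
    (hθ : 1 / p < θ) (hθ' : 1 / (p / (p - 1)) < θ') (hX0 : 0 < X) (hX0' : 0 < X')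
    (hKA : ∀ Q ∈ S, K Q ≤ Apq p W N μ Q) (hKA' : ∀ Q ∈ S, K' Q ≤ Apq (p / (p - 1)) N W μ Q)
    (hX : ∀ Q ∈ S, Apq p W N μ Q ^ θ * K Q ^ (1 - θ) ≤ X)
    (hX' : ∀ Q ∈ S, Apq (p / (p - 1)) N W μ Q ^ θ' * K' Q ^ (1 - θ') ≤ X')
    {φ : α → ℝ} (hφ : MemLp φ (ENNReal.ofReal p) N) (hφ0 : ∀ x, 0 ≤ φ x) :
    (∫ x, stepF S (fun Q => (∫ x in Q, φ x ∂N) / μ.real Q) x ^ p ∂W) ^ (1 / p) ≤
      (cS2 p θ' Λ * X' + cS1 p θ Λ * X) * (∫ x, φ x ^ p ∂N) ^ (1 / p) := by
  classical
  have hp0 : 0 < p := by linarith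
  have hp1 : 0 < p - 1 := by linarith
  have hp' := conj_gt hp
  have hη := eta_pos hθ
  have hη' := eta_pos hθ'
  set p' : ℝ := p / (p - 1) with hp'def
  set c : Set α → ℝ := fun Q => (∫ x in Q, φ x ∂N) / μ.real Q with hc
  have hc0 : ∀ Q, 0 ≤ c Q := fun Q => div_nonneg (integral_nonneg fun x => hφ0 x)
    measureReal_nonneg
  set A : Set α → ℝ := Apq p W N μ with hA
  set F : Finset ℤ := S.image (fun Q => lev (A Q)) with hF
  set xs : ℝ := Real.logb 2 X with hxs
  set xs' : ℝ := Real.logb 2 X' with hxs'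
  set I : ℝ := ∫ x, φ x ^ p ∂N with hI
  have hI0 : 0 ≤ I := integral_nonneg fun x => Real.rpow_nonneg (hφ0 x) _
  set Tc : ℝ := tC p θ 2 Λ with hTc
  have hTc0 : 0 ≤ Tc := tC_nonneg hp (by norm_num) hΛ
  have h2p : (1 : ℝ) ≤ 2 ^ (1 / (p - 1)) := Real.one_le_rpow (by norm_num) (by positivity)
  set Tc' : ℝ := tC p' θ' (2 ^ (1 / (p - 1))) Λ with hTc'
  have hTc0' : 0 ≤ Tc' := tC_nonneg hp' h2p hΛ
  have hpos : ∀ Q ∈ S, 0 < A Q := fun Q hQ => Apq_pos (hS.pW Q hQ) (hS.pN Q hQ) (hS.pμ Q hQ)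
  -- one level
  have hlevel : ∀ a ∈ F, (∫ x, stepF (lvl S A a) c x ^ p ∂W) ^ (1 / p) ≤
      (hC p * (Tc' * (X' * 2 ^ (-(eta p' θ' / (p - 1) * |(a : ℝ) - (p - 1) * xs'|)))) +
        hC p' * (Tc * (X * 2 ^ (-(eta p θ * |(a : ℝ) - xs|))))) * I ^ (1 / p) := by
    intro a _
    have hsub : lvl S A a ⊆ S := lvl_subset
    have hS' := hS.mono hsub
    have hlo : ∀ Q ∈ lvl S A a, (2 : ℝ) ^ (a : ℝ) ≤ A Q := fun Q hQ => by
      have h1 := mem_lvl.mp hQ
      rw [← h1.2]
      exact lev_le (hpos Q h1.1)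
    have hhi : ∀ Q ∈ lvl S A a, A Q ≤ 2 * (2 : ℝ) ^ (a : ℝ) := fun Q hQ => by
      have h1 := mem_lvl.mp hQ
      rw [← h1.2]
      exact (lt_lev' (hpos Q h1.1)).le
    have hconj : ∀ Q ∈ lvl S A a, Apq p' N W μ Q = A Q ^ (1 / (p - 1)) := fun Q hQ =>
      Apq_conj hp (hS'.pW Q hQ) (hS'.pN Q hQ) (hS'.pμ Q hQ)
    have htest := test_level (θ := θ) (L := (2 : ℝ) ^ (a : ℝ)) (B := 2) (X := X) hS' hΛ
      (hK.mono hsub) (fun Q hQ => hK0 Q (hsub hQ)) hp hθ (two_rpow_pos _) (by norm_num) hX0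
      hlo hhi (fun Q hQ => hKA Q (hsub hQ)) (fun Q hQ => hX Q (hsub hQ))
    have htest' := test_level (θ := θ') (q := p') (L := (2 : ℝ) ^ ((a : ℝ) * (1 / (p - 1))))
      (B := 2 ^ (1 / (p - 1))) (X := X')
      hS'.swap hΛ (hK'.mono hsub) (fun Q hQ => hK0' Q (hsub hQ)) hp' hθ' (two_rpow_pos _) h2p hX0'
      (fun Q hQ => by
        rw [hconj Q hQ, Real.rpow_mul (by norm_num)]
        exact Real.rpow_le_rpow (two_rpow_pos _).le (hlo Q hQ) (by positivity))
      (fun Q hQ => by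
        rw [hconj Q hQ, Real.rpow_mul (by norm_num), ← Real.mul_rpow (by norm_num)
          (two_rpow_pos _).le]
        exact Real.rpow_le_rpow (hpos Q (hsub hQ)).le (hhi Q hQ) (by positivity))
      (fun Q hQ => hKA' Q (hsub hQ)) (fun Q hQ => hX' Q (hsub hQ))
    rw [logb_two_rpow] at htest htest'
    rw [conj_conj hp] at htest'
    have e1 : eta p' θ' * |(a : ℝ) * (1 / (p - 1)) - Real.logb 2 X'| =
        eta p' θ' / (p - 1) * |(a : ℝ) - (p - 1) * xs'| := by
      have : (a : ℝ) * (1 / (p - 1)) - Real.logb 2 X' = (1 / (p - 1)) *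
          ((a : ℝ) - (p - 1) * xs') := by
        rw [hxs']
        field_simp
      rw [this, abs_mul, abs_of_pos (by positivity : 0 < 1 / (p - 1))]
      ring
    rw [e1] at htest'
    have hτ0 : 0 ≤ Tc * (X * 2 ^ (-(eta p θ * |(a : ℝ) - xs|))) := by positivity
    have hτ0' : 0 ≤ Tc' * (X' * 2 ^ (-(eta p' θ' / (p - 1) * |(a : ℝ) - (p - 1) * xs'|))) := by
      positivity
    have h1 := strong_of_test (μ := μ) hS'.lam hS'.ms hS'.pμ hS'.pW hS'.pN hp hφ hφ0 hτ0' hτ0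
      htest' htest
    have hK0 : 0 ≤ hC p * (Tc' * (X' * 2 ^ (-(eta p' θ' / (p - 1) * |(a : ℝ) - (p - 1) * xs'|)))) +
        hC p' * (Tc * (X * 2 ^ (-(eta p θ * |(a : ℝ) - xs|)))) :=
      add_nonneg (mul_nonneg (hC_nonneg hp) hτ0') (mul_nonneg (hC_nonneg hp') hτ0)
    have h2 := Real.rpow_le_rpow (integral_nonneg fun x => Real.rpow_nonneg
      (stepF_nonneg (fun Q _ => hc0 Q) x) _) h1 (by positivity : 0 ≤ 1 / p)
    refine h2.trans (le_of_eq ?_)
    rw [Real.mul_rpow (Real.rpow_nonneg hK0 _) hI0, ← Real.rpow_mul hK0,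
      mul_one_div_cancel hp0.ne', Real.rpow_one]
  have h3 : (∫ x, stepF S c x ^ p ∂W) ^ (1 / p) ≤
      ∑ a ∈ F, (∫ x, stepF (lvl S A a) c x ^ p ∂W) ^ (1 / p) := by
    have := mink (W := W) F (fun a => stepF (lvl S A a) c)
      (fun a _ => measurable_stepF (fun Q hQ => hS.ms Q (lvl_subset hQ)) c)
      (fun a _ x => stepF_nonneg (fun Q _ => hc0 Q) x)
      (fun a _ => ⟨∑ Q ∈ lvl S A a, c Q, fun x => by
        rw [abs_of_nonneg (stepF_nonneg (fun Q _ => hc0 Q) x)]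
        exact stepF_le (fun Q _ => hc0 Q) x⟩) hp.le
    have e : ∀ x, ∑ a ∈ F, stepF (lvl S A a) c x = stepF S c x := fun x =>
      (stepF_lvl S A c x).symm
    simp only [e] at this
    exact this
  refine h3.trans ((Finset.sum_le_sum hlevel).trans ?_)
  rw [← Finset.sum_mul]
  apply mul_le_mul_of_nonneg_right _ (Real.rpow_nonneg hI0 _)
  rw [Finset.sum_add_distrib]
  have s1 := abs_sum F (div_pos hη' hp1) ((p - 1) * xs')
  have s2 := abs_sum F hη xs
  apply add_le_add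
  · calc ∑ a ∈ F, hC p * (Tc' * (X' * 2 ^ (-(eta p' θ' / (p - 1) * |(a : ℝ) - (p - 1) * xs'|))))
        = hC p * Tc' * X' *
          ∑ a ∈ F, (2 : ℝ) ^ (-(eta p' θ' / (p - 1) * |(a : ℝ) - (p - 1) * xs'|)) := by
          rw [Finset.mul_sum]
          apply Finset.sum_congr rfl
          intro a _
          ring
      _ ≤ hC p * Tc' * X' * (2 * (1 - (2 : ℝ) ^ (-(eta p' θ' / (p - 1))))⁻¹) := by
          apply mul_le_mul_of_nonneg_left s1
          have := hC_nonneg hp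
          positivity
      _ = _ := by
          unfold cS2
          ring
  · calc ∑ a ∈ F, hC p' * (Tc * (X * 2 ^ (-(eta p θ * |(a : ℝ) - xs|))))
        = hC p' * Tc * X * ∑ a ∈ F, (2 : ℝ) ^ (-(eta p θ * |(a : ℝ) - xs|)) := by
          rw [Finset.mul_sum]
          apply Finset.sum_congr rfl
          intro a _
          ring
      _ ≤ hC p' * Tc * X * (2 * (1 - (2 : ℝ) ^ (-(eta p θ)))⁻¹) := by
          apply mul_le_mul_of_nonneg_left s2
          have := hC_nonneg hp'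
          positivity
      _ = _ := by
          unfold cS1
          ring

end Pool.Agent.Helper51.Sp
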