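import Pool.Agent.Helper51.SPFam
import Pool.Agent.Helper51.SPSum2

/-! Weighted estimates for the sparse operator. -/

open MeasureTheory Set Filter Topology
open scoped ENNReal NNReal

namespace Pool.Agent.Helper51.Sp

open Mixed

variable {n : ℕ} {a : Fin n → ℝ} {h : ℝ} {F : Finset (Ix n)} {p : ℝ} {w : Fn n}

/-- `|f| / σ` -/
noncomputable def phi (p : ℝ) (w f : Fn n) : Fn n := fun x => |f x| / dual p w x

theorem phi_nonneg (hw : Wt p w) (f : Fn n) (x : Pt n) : 0 ≤ phi p w f x :=
  div_nonneg (abs_nonneg _) (hw.st.1 x).le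

theorem dual_phi (hw : Wt p w) (f : Fn n) (x : Pt n) : dual p w x * phi p w f x = |f x| := by
  have := (hw.st.1 x).ne'
  unfold phi
  field_simp

theorem dual_phi_pow (hw : Wt p w) (f : Fn n) (x : Pt n) :
    dual p w x * phi p w f x ^ p = w x * |f x| ^ p := by
  have hs := hw.st.1 x
  have hp1 : p - 1 ≠ 0 := by have := hw.hp; linarith
  have h1 : dual p w x ^ (1 - p) = w x := by
    rw [dual_eq hw.hp, ← Real.rpow_mul (hw.wt.1 x).le]
    have : -(1 / (p - 1)) * (1 - p) = 1 := by
      field_simp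
      ring
    rw [this, Real.rpow_one]
  unfold phi
  rw [Real.div_rpow (abs_nonneg _) hs.le]
  calc dual p w x * (|f x| ^ p / dual p w x ^ p) = dual p w x ^ (1 : ℝ) * (dual p w x ^ p)⁻¹ *
        |f x| ^ p := by rw [Real.rpow_one]; ring
    _ = _ := by
        rw [← Real.rpow_neg hs.le, ← Real.rpow_add hs, ← sub_eq_add_neg, h1]

theorem phi_meas (hw : Wt p w) {f : Fn n} (hf : IsTest f) :
    AEStronglyMeasurable (phi p w f) (volume : Measure (Pt n)) := by
  have h1 : AEMeasurable (dual p w) (volume : Measure (Pt n)) :=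
    hw.st.2.aestronglyMeasurable.aemeasurable
  exact (hf.1.abs.aemeasurable.div h1).aestronglyMeasurable

theorem wf_int (hw : IsWeight w) {f : Fn n} (hf : IsTest f) (hp0 : 0 < p)
    {B : Set (Pt n)} (hB : IntegrableOn w B volume) :
    IntegrableOn (fun x => w x * |f x| ^ p) B volume := by
  obtain ⟨C, hC⟩ := hf.2.1
  apply Integrable.mono' (g := fun x => C ^ p * w x) (hB.const_mul _)
  · exact (hw.2.aestronglyMeasurable.mul
      (hf.1.abs.pow_const p).aestronglyMeasurable).restrict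
  · apply Eventually.of_forall
    intro x
    have h1 : |f x| ^ p ≤ C ^ p := Real.rpow_le_rpow (abs_nonneg _) (hC x) hp0.le
    have h2 : 0 ≤ |f x| ^ p := Real.rpow_nonneg (abs_nonneg _) _
    have h3 := hw.1 x
    rw [Real.norm_of_nonneg (by positivity), mul_comm]
    exact mul_le_mul_of_nonneg_right h1 h3.le

/-- the weighted mass -/
noncomputable def PI (a : Fin n → ℝ) (h p : ℝ) (w f : Fn n) : ℝ := ∫ x in reg a h, w x * |f x| ^ p

theorem phi_memLp (hw : Wt p w) {f : Fn n} (hf : IsTest f) (a : Fin n → ℝ) (h : ℝ) :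
    MemLp (phi p w f) (ENNReal.ofReal p) (mw a h (dual p w)) := by
  have hp0 : 0 < p := by have := hw.hp; linarith
  have hN : mw a h (dual p w) = (volume.restrict (reg a h)).withDensity fun x =>
    ENNReal.ofReal (dual p w x) := wr_eq _ (measurableSet_reg a h)
  have hac : mw a h (dual p w) ≪ (volume : Measure (Pt n)) :=
    Measure.absolutelyContinuous_of_le Measure.restrict_le_self |>.trans (ac_wm _)
  rw [← integrable_norm_rpow_iff ((phi_meas hw hf).mono_ac hac)
    (by rw [Ne, ENNReal.ofReal_eq_zero, not_le]; exact hp0) ENNReal.ofReal_ne_top,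
    ENNReal.toReal_ofReal hp0.le, hN, integrable_withDensity_iff_integrable_smul₀'
    (aem hw.st).restrict (Eventually.of_forall fun x => ENNReal.ofReal_lt_top)]
  refine (wf_int hw.wt hf hp0 (intOn_reg hw.wt.2 a h)).congr (Eventually.of_forall fun x => ?_)
  simp only
  rw [ENNReal.toReal_ofReal (hw.st.1 x).le, smul_eq_mul, Real.norm_of_nonneg (phi_nonneg hw f x),
    dual_phi_pow hw]

theorem phi_int_pow (hw : Wt p w) (f : Fn n) (a : Fin n → ℝ) (h : ℝ) :
    ∫ x, phi p w f x ^ p ∂(mw a h (dual p w)) = PI a h p w f := by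
  unfold mw PI
  rw [int_wr hw.st (measurableSet_reg a h)]
  congr 1
  funext x
  exact dual_phi_pow hw f x

theorem phi_int_tb (hh : 0 < h) (hw : Wt p w) (f : Fn n) {k : Ix n} (hk : Ok k) :
    (∫ x in tb a h k, phi p w f x ∂(mw a h (dual p w))) / (mu a h).real (tb a h k) =
      av3 f a h k := by
  have hsub : tb a h k ⊆ reg a h := hk.tsubset hh
  unfold mw
  rw [setint_wr hw.st (measurableSet_tb _ _ _) hsub, real_mu (measurableSet_tb _ _ _) hsub]
  unfold av3
  congr 2
  funext x
  exact dual_phi hw f x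

/-- the step function of one class -/
noncomputable def stc (p : ℝ) (w f : Fn n) (a : Fin n → ℝ) (h : ℝ) (F : Finset (Ix n))
    (c : Fin n → ZMod 3) : Fn n :=
  stepF (Sc a h F c) fun Q => (∫ x in Q, phi p w f x ∂(mw a h (dual p w))) / (mu a h).real Q

theorem stc_nonneg (hw : Wt p w) (f : Fn n) (c : Fin n → ZMod 3) (x : Pt n) :
    0 ≤ stc p w f a h F c x :=
  stepF_nonneg (fun _ _ => div_nonneg (integral_nonneg fun x => phi_nonneg hw f x)
    measureReal_nonneg) x

open Classical in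
theorem spo_le [NeZero n] (hh : 0 < h) (hok : ∀ k ∈ F, Ok k) (hw : Wt p w) (f : Fn n)
    (x : Pt n) : spo f a h F x ≤ ∑ c : Fin n → ZMod 3, stc p w f a h F c x := by
  have h1 : spo f a h F x ≤ ∑ k ∈ F, (tb a h k).indicator (fun _ => av3 f a h k) x := by
    unfold spo
    apply Finset.sum_le_sum
    intro k _
    exact indicator_le_indicator_of_subset (cb_subset_tb hh k) (fun _ => av3_nonneg f a h k) x
  refine h1.trans (le_of_eq ?_)
  rw [← Finset.sum_fiberwise F cls]
  apply Finset.sum_congr rfl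
  intro c _
  unfold stc stepF Sc
  rw [Finset.sum_image (fun k _ l _ he => tb_inj hh he)]
  apply Finset.sum_congr rfl
  intro k hk
  have h2 := phi_int_tb (a := a) hh hw f (hok k (Finset.mem_filter.mp hk).1)
  simp only [h2]

theorem card_cls : (Fintype.card (Fin n → ZMod 3) : ℝ) = 3 ^ n := by
  rw [Fintype.card_fun, ZMod.card, Fintype.card_fin]
  push_cast
  rfl

theorem three_pow : (1 : ℝ) ≤ 2 * 3 ^ n := by
  have : (1 : ℝ) ≤ 3 ^ n := one_le_pow₀ (by norm_num)
  linarith

/-- **weak type estimate for the sparse operator** -/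
theorem spo_weak [NeZero n] (hh : 0 < h) (hok : ∀ k ∈ F, Ok k)
    (hcar : ∀ R, MeasurableSet R → cars a h F R ≤ 2 * volume R) (hw : Wt p w) {f : Fn n}
    (hf : IsTest f) {θ X : ℝ} (hθ : 1 / p < θ) (hX0 : 0 < X)
    (hX : ∀ b l, 0 < l → Aq p w (cube b l) ^ θ * Aexp w (cube b l) ^ (1 - θ) ≤ X) {s : ℝ}
    (hs : 0 < s) :
    (mw a h w).real {x | s < spo f a h F x} ≤
      3 ^ n * cW p θ (2 * 3 ^ n) * (3 ^ n * X / s) ^ p * PI a h p w f := by
  have hp := hw.hp
  have hp0 : 0 < p := by linarith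
  have := fin_mu a hh
  have := fin_mw a h hw.wt
  have := fin_mw a h hw.st
  have h3 : (0 : ℝ) < 3 ^ n := by positivity
  have hcls : ∀ c : Fin n → ZMod 3, (mw a h w).real {x | s / 3 ^ n < stc p w f a h F c x} ≤
      cW p θ (2 * 3 ^ n) * (3 ^ n * X / s) ^ p * PI a h p w f := by
    intro c
    have hfam := fam_Sc hh hok hcar c hw.wt hw.st
    have h1 := weak_family hfam three_pow (ainf_Sc hh hok c hw)
      (fun Q hQ => by
        obtain ⟨b, l, hl, _, h2⟩ := Apq_Sc hh hok hw hQ
        rw [h2]; exact Aexp_pos hw.wt hl)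
      hp hθ hX0
      (fun Q hQ => by
        obtain ⟨b, l, hl, h1, h2⟩ := Apq_Sc hh hok hw hQ
        rw [h1, h2]; exact Aexp_le hw hl)
      (fun Q hQ => by
        obtain ⟨b, l, hl, h1, h2⟩ := Apq_Sc hh hok hw hQ
        rw [h1, h2]; exact hX b l hl)
      (phi_memLp hw hf a h) (phi_nonneg hw f) (t := s / 3 ^ n) (by positivity)
    rw [phi_int_pow hw] at h1
    have h2 : 0 < (s / 3 ^ n) ^ p := Real.rpow_pos_of_pos (by positivity) _
    have h4 : (mw a h w).real {x | s / 3 ^ n < stc p w f a h F c x} ≤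
        cW p θ (2 * 3 ^ n) * X ^ p * PI a h p w f / (s / 3 ^ n) ^ p := by
      rw [le_div_iff₀ h2, mul_comm]
      exact h1
    refine h4.trans (le_of_eq ?_)
    have e : (3 ^ n * X / s) ^ p = X ^ p / (s / 3 ^ n) ^ p := by
      rw [← Real.div_rpow hX0.le (by positivity)]
      congr 1
      field_simp
    rw [e]
    ring
  have hcov : {x | s < spo f a h F x} ⊆
      ⋃ c ∈ (Finset.univ : Finset (Fin n → ZMod 3)), {x | s / 3 ^ n < stc p w f a h F c x} := by
    intro x hx
    by_contra hcon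
    simp only [mem_iUnion, mem_ofPred_eq, not_exists, not_lt] at hcon
    have h1 : spo f a h F x ≤ s := by
      calc spo f a h F x ≤ ∑ c : Fin n → ZMod 3, stc p w f a h F c x := spo_le hh hok hw f x
        _ ≤ ∑ _c : Fin n → ZMod 3, s / 3 ^ n :=
            Finset.sum_le_sum fun c hc => hcon c hc
        _ = s := by
            rw [Finset.sum_const, Finset.card_univ, nsmul_eq_mul, card_cls]
            field_simp
    exact absurd hx (not_lt.mpr h1)
  calc (mw a h w).real {x | s < spo f a h F x}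
      ≤ (mw a h w).real (⋃ c ∈ (Finset.univ : Finset (Fin n → ZMod 3)),
        {x | s / 3 ^ n < stc p w f a h F c x}) := measureReal_mono hcov (measure_ne_top _ _)
    _ ≤ ∑ c : Fin n → ZMod 3, (mw a h w).real {x | s / 3 ^ n < stc p w f a h F c x} :=
        measureReal_biUnion_finset_le _ _
    _ ≤ ∑ _c : Fin n → ZMod 3, cW p θ (2 * 3 ^ n) * (3 ^ n * X / s) ^ p * PI a h p w f :=
        Finset.sum_le_sum fun c _ => hcls c
    _ = _ := by
        rw [Finset.sum_const, Finset.card_univ, nsmul_eq_mul, card_cls]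
        ring

theorem conj_eq (p : ℝ) : conj p = p / (p - 1) := rfl

/-- **strong type estimate for the sparse operator** -/
theorem spo_strong [NeZero n] (hh : 0 < h) (hok : ∀ k ∈ F, Ok k)
    (hcar : ∀ R, MeasurableSet R → cars a h F R ≤ 2 * volume R) (hw : Wt p w) {f : Fn n}
    (hf : IsTest f) {θ θ' X X' : ℝ} (hθ : 1 / p < θ) (hθ' : 1 / conj p < θ') (hX0 : 0 < X)
    (hX0' : 0 < X')
    (hX : ∀ b l, 0 < l → Aq p w (cube b l) ^ θ * Aexp w (cube b l) ^ (1 - θ) ≤ X)
    (hX' : ∀ b l, 0 < l → Aq (conj p) (dual p w) (cube b l) ^ θ' *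
      Aexp (dual p w) (cube b l) ^ (1 - θ') ≤ X') :
    (∫ x, (∑ c : Fin n → ZMod 3, stc p w f a h F c x) ^ p ∂(mw a h w)) ^ (1 / p) ≤
      3 ^ n * (cS2 p θ' (2 * 3 ^ n) * X' + cS1 p θ (2 * 3 ^ n) * X) *
        PI a h p w f ^ (1 / p) := by
  have hp := hw.hp
  have hp0 : 0 < p := by linarith
  have := fin_mu a hh
  have := fin_mw a h hw.wt
  have := fin_mw a h hw.st
  have hwd : dual (conj p) (dual p w) = w := dual_dual hp hw.wt.1
  have hcls : ∀ c : Fin n → ZMod 3, (∫ x, stc p w f a h F c x ^ p ∂(mw a h w)) ^ (1 / p) ≤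
      (cS2 p θ' (2 * 3 ^ n) * X' + cS1 p θ (2 * 3 ^ n) * X) * PI a h p w f ^ (1 / p) := by
    intro c
    have hfam := fam_Sc hh hok hcar c hw.wt hw.st
    have h1 := strong_family hfam three_pow (ainf_Sc hh hok c hw)
      (fun Q hQ => by
        obtain ⟨b, l, hl, _, h2⟩ := Apq_Sc hh hok hw hQ
        rw [h2]; exact Aexp_pos hw.wt hl)
      (ainf_Sc hh hok c hw.symm)
      (fun Q hQ => by
        obtain ⟨b, l, hl, _, h2⟩ := Apq_Sc hh hok hw.symm hQ
        rw [h2]; exact Aexp_pos hw.st hl)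
      hp hθ (θ' := θ') hθ' hX0 hX0'
      (fun Q hQ => by
        obtain ⟨b, l, hl, h1, h2⟩ := Apq_Sc hh hok hw hQ
        rw [h1, h2]; exact Aexp_le hw hl)
      (fun Q hQ => by
        obtain ⟨b, l, hl, h1, h2⟩ := Apq_Sc hh hok hw.symm hQ
        rw [hwd] at h1
        rw [← conj_eq, h1, h2]; exact Aexp_le hw.symm hl)
      (fun Q hQ => by
        obtain ⟨b, l, hl, h1, h2⟩ := Apq_Sc hh hok hw hQ
        rw [h1, h2]; exact hX b l hl)
      (fun Q hQ => by
        obtain ⟨b, l, hl, h1, h2⟩ := Apq_Sc hh hok hw.symm hQ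
        rw [hwd] at h1
        rw [← conj_eq, h1, h2]; exact hX' b l hl)
      (phi_memLp hw hf a h) (phi_nonneg hw f)
    rw [phi_int_pow hw] at h1
    exact h1
  have hmink := mink (W := mw a h w) (Finset.univ : Finset (Fin n → ZMod 3))
    (fun c => stc p w f a h F c)
    (fun c _ => measurable_stepF (fun Q hQ => by
      obtain ⟨b, l, _, rfl⟩ := Sc_box hh hQ
      exact measurableSet_box _ _) _)
    (fun c _ x => stc_nonneg hw f c x)
    (fun c _ => ⟨_, fun x => by
      rw [abs_of_nonneg (stc_nonneg hw f c x)]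
      exact stepF_le (fun _ _ => div_nonneg (integral_nonneg fun x => phi_nonneg hw f x)
        measureReal_nonneg) x⟩) hp.le
  refine hmink.trans ((Finset.sum_le_sum fun c _ => hcls c).trans (le_of_eq ?_))
  rw [Finset.sum_const, Finset.card_univ, nsmul_eq_mul, card_cls]
  ring

end Pool.Agent.Helper51.Sp
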