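import Pool.Agent.Helper51.SPLim
import Pool.Agent.Helper51.SPSpo

/-! The weak and the strong estimate for Calderon-Zygmund operators. -/

open MeasureTheory Set Filter Topology
open scoped ENNReal NNReal

namespace Pool.Agent.Helper51.Sp

open Mixed

variable {n : ℕ} {T : Fn n → Fn n} {K : Pt n → Pt n → ℝ} {C2 Ck δ : ℝ}
variable {a : Fin n → ℝ} {h : ℝ} {p : ℝ} {w : Fn n}

/-- **the sparse domination principle** -/
theorem Opr.sparse [NeZero n] (hO : Opr T K C2 Ck δ) {f : Fn n} (hf : IsTest f)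
    (a : Fin n → ℝ) (hh : 0 < h) {η : ℝ≥0∞} (hη : 0 < η) :
    ∃ F : Finset (Ix n), (∀ k ∈ F, Ok k) ∧
      (∀ R, MeasurableSet R → cars a h F R ≤ 2 * volume R) ∧
      volume {x | x ∈ box a h ∧ c3 n C2 Ck δ * spo f a h F x <
        |T ((tb a h (z0 n)).indicator f) x|} ≤ η := by
  have hhn : 0 < h ^ n := pow_pos hh n
  obtain ⟨e, he0, he⟩ : ∃ e : ℝ, 0 < e ∧ ENNReal.ofReal e ≤ η := by
    have h1 : min η 1 ≠ ∞ := ((min_le_right η 1).trans_lt ENNReal.one_lt_top).ne
    have h2 : 0 < min η 1 := lt_min hη (by norm_num)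
    exact ⟨(min η 1).toReal, ENNReal.toReal_pos h2.ne' h1, by
      rw [ENNReal.ofReal_toReal h1]; exact min_le_left _ _⟩
  obtain ⟨N, hN⟩ := exists_pow_lt_of_lt_one (show 0 < e / (2 * h ^ n) by positivity)
    (show (1 / 2 : ℝ) < 1 by norm_num)
  obtain ⟨F, h1, h2, h3⟩ := hO.sparse_step hf (ε := e / (4 * h ^ n)) (by positivity) N a h hh
  refine ⟨F, h1, h2, h3.trans ((ENNReal.ofReal_le_ofReal ?_).trans he)⟩
  have h4 : (1 / 2 : ℝ) ^ N * h ^ n ≤ e / 2 := by
    have := mul_le_mul_of_nonneg_right hN.le hhn.le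
    refine this.trans (le_of_eq ?_)
    field_simp
  have h5 : 2 * (e / (4 * h ^ n)) * h ^ n = e / 2 := by
    field_simp
    ring
  calc ((1 / 2 : ℝ) ^ N + 2 * (e / (4 * h ^ n))) * h ^ n
      = (1 / 2 : ℝ) ^ N * h ^ n + 2 * (e / (4 * h ^ n)) * h ^ n := by ring
    _ ≤ e / 2 + e / 2 := add_le_add h4 h5.le
    _ = e := by ring

theorem Opr.c3_pos (hO : Opr T K C2 Ck δ) : 0 < c3 n C2 Ck δ := by
  unfold c3
  have h1 := hO.thA_ge
  have h2 := hO.oc_nonneg
  have h3 : 0 < thA n C2 Ck δ := by linarith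
  positivity

/-! ### the norm of the function -/

/-- the total weighted mass -/
noncomputable def TI (p : ℝ) (w f : Fn n) : ℝ := ∫ x, w x * |f x| ^ p

theorem wf_all (hw : IsWeight w) {f : Fn n} (hf : IsTest f) (hp0 : 0 < p) :
    Integrable (fun x => w x * |f x| ^ p) volume := by
  obtain ⟨r, hr⟩ := hf.2.2
  have h1 : IntegrableOn w (Metric.closedBall (0 : Pt n) r) volume :=
    hw.2.integrableOn_isCompact (isCompact_closedBall _ _)
  have h2 := wf_int hw hf hp0 h1
  rw [integrableOn_iff_integrable_of_support_subset] at h2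
  · exact h2
  · intro x hx
    rw [mem_closedBall_zero_iff]
    by_contra hcon
    apply hx
    show w x * |f x| ^ p = 0
    rw [hr x (not_le.mp hcon), abs_zero, Real.zero_rpow hp0.ne', mul_zero]

theorem TI_nonneg (hw : IsWeight w) (f : Fn n) : 0 ≤ TI p w f :=
  integral_nonneg fun x => mul_nonneg (hw.1 x).le (Real.rpow_nonneg (abs_nonneg _) _)

theorem PI_le (hw : IsWeight w) {f : Fn n} (hf : IsTest f) (hp0 : 0 < p) (a : Fin n → ℝ) (h : ℝ) :
    PI a h p w f ≤ TI p w f :=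
  setIntegral_le_integral (wf_all hw hf hp0)
    (Eventually.of_forall fun x => mul_nonneg (hw.1 x).le (Real.rpow_nonneg (abs_nonneg _) _))

theorem PI_nonneg (hw : IsWeight w) (f : Fn n) (a : Fin n → ℝ) (h : ℝ) :
    0 ≤ PI a h p w f :=
  integral_nonneg fun x => mul_nonneg (hw.1 x).le (Real.rpow_nonneg (abs_nonneg _) _)

theorem normLp_eq (hw : IsWeight w) {f : Fn n} (hf : IsTest f) (hp0 : 0 < p) :
    normLp p w f = ENNReal.ofReal (TI p w f ^ (1 / p)) := by
  have hpz : ENNReal.ofReal p ≠ 0 := by rw [Ne, ENNReal.ofReal_eq_zero, not_le]; exact hp0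
  have hmem : MemLp f (ENNReal.ofReal p) (wm w) := by
    rw [← integrable_norm_rpow_iff hf.1.aestronglyMeasurable hpz ENNReal.ofReal_ne_top,
      ENNReal.toReal_ofReal hp0.le]
    unfold wm
    rw [integrable_withDensity_iff_integrable_smul₀' (aem hw)
      (Eventually.of_forall fun x => ENNReal.ofReal_lt_top)]
    refine (wf_all hw hf hp0).congr (Eventually.of_forall fun x => ?_)
    simp only
    rw [ENNReal.toReal_ofReal (hw.1 x).le, smul_eq_mul, Real.norm_eq_abs]
  unfold normLp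
  rw [hmem.eLpNorm_eq_integral_rpow_norm hpz ENNReal.ofReal_ne_top, ENNReal.toReal_ofReal hp0.le,
    one_div]
  congr 2
  unfold wm TI
  rw [integral_withDensity_eq_integral_toReal_smul₀ (aem hw)
    (Eventually.of_forall fun x => ENNReal.ofReal_lt_top)]
  congr 1
  funext x
  rw [ENNReal.toReal_ofReal (hw.1 x).le, smul_eq_mul, Real.norm_eq_abs]

/-- large cubes contain the support -/
theorem supp_bx {f : Fn n} (hf : IsTest f) : ∃ j0 : ℕ, ∀ j, j0 ≤ j →
    (tb (fun _ => -((j : ℝ) + 1)) (2 * ((j : ℝ) + 1)) (z0 n)).indicator f = f := by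
  obtain ⟨r, hr⟩ := hf.2.2
  refine ⟨⌈r⌉₊, fun j hj => ?_⟩
  funext x
  by_cases hx : x ∈ tb (fun _ => -((j : ℝ) + 1)) (2 * ((j : ℝ) + 1)) (z0 n)
  · rw [indicator_of_mem hx]
  · rw [indicator_of_notMem hx]
    symm
    apply hr
    have h1 : x ∉ bx n j := by
      intro h
      apply hx
      have h2 : (0 : ℝ) < 2 * ((j : ℝ) + 1) := by positivity
      apply cb_subset_tb h2
      have : x ∈ cb (fun _ => -((j : ℝ) + 1)) (2 * ((j : ℝ) + 1)) (0, fun _ => 0) := by
        rw [cb_zero]; exact h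
      exact this
    have h2 : ¬ ‖x‖ < (j : ℝ) + 1 := fun h => h1 (mem_bx h)
    have h3 : r ≤ ⌈r⌉₊ := Nat.le_ceil r
    have h4 : (⌈r⌉₊ : ℝ) ≤ j := by exact_mod_cast hj
    linarith

theorem wkC_nonneg (p : ℝ) : 0 ≤ wkC p := by
  unfold wkC
  positivity

theorem cW_nonneg {p θ Λ : ℝ} (hp : 1 < p) (hθ : 1 / p < θ) (hΛ : 1 ≤ Λ) : 0 ≤ cW p θ Λ := by
  unfold cW
  have h1 := geo_const_pos (q := eta p θ / 2) (by have := eta_pos hθ; positivity)
  have h2 := tC_nonneg (θ := θ) hp (by norm_num : (1 : ℝ) ≤ 2) hΛ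
  have h3 := wkC_nonneg p
  have h4 : 0 ≤ tC p θ 2 Λ * (2 * (1 - (2 : ℝ) ^ (-(eta p θ / 2)))⁻¹) := by positivity
  have h5 := Real.rpow_nonneg h4 p
  positivity

/-- **the weak type estimate**, distributional form -/
theorem Opr.weak_dist [NeZero n] (hO : Opr T K C2 Ck δ) (hw : Wt p w) {f : Fn n}
    (hf : IsTest f) {θ X : ℝ} (hθ : 1 / p < θ) (hX0 : 0 < X)
    (hX : ∀ b l, 0 < l → Aq p w (cube b l) ^ θ * Aexp w (cube b l) ^ (1 - θ) ≤ X) {t : ℝ}
    (ht : 0 < t) :
    wm w {x | t < |T f x|} ≤ ENNReal.ofReal (3 ^ n * cW p θ (2 * 3 ^ n) *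
      (3 ^ n * X / (t / c3 n C2 Ck δ)) ^ p * TI p w f) := by
  have hp := hw.hp
  have hp0 : 0 < p := by linarith
  have hc3 := hO.c3_pos
  set C : ℝ := 3 ^ n * cW p θ (2 * 3 ^ n) * (3 ^ n * X / (t / c3 n C2 Ck δ)) ^ p * TI p w f
    with hC
  set S : Set (Pt n) := {x | t < |T f x|} with hS
  obtain ⟨j0, hj0⟩ := supp_bx hf
  have h1 : ∫⁻ _x, 1 ∂((wm w).restrict S) ≤ ENNReal.ofReal C := by
    apply lim_bx _ j0
    intro j hj
    have hbm : MeasurableSet (bx n j) := measurableSet_box _ _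
    rw [setLIntegral_one, Measure.restrict_apply hbm]
    have h2 : ∫⁻ _x in bx n j ∩ S, 1 ∂(wm w) ≤ ENNReal.ofReal C := by
      apply lim_exc (ac_wm w)
      intro η hη
      obtain ⟨F, hok, hcar, hE⟩ := hO.sparse hf (fun _ => -((j : ℝ) + 1))
        (h := 2 * ((j : ℝ) + 1)) (by positivity) hη
      rw [hj0 j hj] at hE
      refine ⟨_, hE, ?_⟩
      rw [setLIntegral_one]
      set a : Fin n → ℝ := fun _ => -((j : ℝ) + 1) with ha
      set h : ℝ := 2 * ((j : ℝ) + 1) with hh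
      have hh0 : 0 < h := by positivity
      have hsub : (bx n j ∩ S) \ {x | x ∈ box a h ∧ c3 n C2 Ck δ * spo f a h F x < |T f x|} ⊆
          {x | t / c3 n C2 Ck δ < spo f a h F x} ∩ reg a h := by
        rintro x ⟨⟨hxb, hxS⟩, hxE⟩
        have h3 : |T f x| ≤ c3 n C2 Ck δ * spo f a h F x := by
          by_contra h4
          exact hxE ⟨hxb, not_le.mp h4⟩
        have h5 : t < |T f x| := hxS
        refine ⟨?_, ?_⟩
        · show t / c3 n C2 Ck δ < spo f a h F x
          rw [div_lt_iff₀ hc3]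
          linarith
        · have h6 : x ∈ cb a h (0, fun _ => 0) := by rw [cb_zero]; exact hxb
          exact cb_subset_tb hh0 _ h6
      have := fin_mw a h hw.wt
      calc wm w ((bx n j ∩ S) \ {x | x ∈ box a h ∧ c3 n C2 Ck δ * spo f a h F x < |T f x|})
          ≤ wm w ({x | t / c3 n C2 Ck δ < spo f a h F x} ∩ reg a h) := measure_mono hsub
        _ = mw a h w {x | t / c3 n C2 Ck δ < spo f a h F x} := by
            unfold mw
            rw [Measure.restrict_apply' (measurableSet_reg a h)]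
        _ = ENNReal.ofReal ((mw a h w).real {x | t / c3 n C2 Ck δ < spo f a h F x}) := by
            rw [Measure.real, ENNReal.ofReal_toReal (measure_ne_top _ _)]
        _ ≤ ENNReal.ofReal C := by
            apply ENNReal.ofReal_le_ofReal
            refine (spo_weak hh0 hok hcar hw hf hθ hX0 hX (by positivity)).trans ?_
            apply mul_le_mul_of_nonneg_left (PI_le hw.wt hf hp0 a h)
            have h7 := cW_nonneg hp hθ (three_pow (n := n))
            have h8 : 0 ≤ (3 ^ n * X / (t / c3 n C2 Ck δ)) ^ p :=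
              Real.rpow_nonneg (by positivity) _
            positivity
    rw [setLIntegral_one] at h2
    exact h2
  rw [lintegral_one, Measure.restrict_apply_univ] at h1
  exact h1

/-- **the strong type estimate**, integral form -/
theorem Opr.strong_int [NeZero n] (hO : Opr T K C2 Ck δ) (hw : Wt p w) {f : Fn n}
    (hf : IsTest f) {θ θ' X X' : ℝ} (hθ : 1 / p < θ) (hθ' : 1 / conj p < θ') (hX0 : 0 < X)
    (hX0' : 0 < X')
    (hX : ∀ b l, 0 < l → Aq p w (cube b l) ^ θ * Aexp w (cube b l) ^ (1 - θ) ≤ X)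
    (hX' : ∀ b l, 0 < l → Aq (conj p) (dual p w) (cube b l) ^ θ' *
      Aexp (dual p w) (cube b l) ^ (1 - θ') ≤ X')
    (hD : 0 ≤ cS2 p θ' (2 * 3 ^ n) * X' + cS1 p θ (2 * 3 ^ n) * X) :
    ∫⁻ x, ‖T f x‖ₑ ^ p ∂(wm w) ≤ ENNReal.ofReal ((c3 n C2 Ck δ *
      (3 ^ n * (cS2 p θ' (2 * 3 ^ n) * X' + cS1 p θ (2 * 3 ^ n) * X))) ^ p * TI p w f) := by
  have hp := hw.hp
  have hp0 : 0 < p := by linarith
  have hc3 := hO.c3_pos
  set D : ℝ := 3 ^ n * (cS2 p θ' (2 * 3 ^ n) * X' + cS1 p θ (2 * 3 ^ n) * X) with hDdef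
  have hD0 : 0 ≤ D := by positivity
  obtain ⟨j0, hj0⟩ := supp_bx hf
  apply lim_bx _ j0
  intro j hj
  apply lim_exc (ac_wm w)
  intro η hη
  obtain ⟨F, hok, hcar, hE⟩ := hO.sparse hf (fun _ => -((j : ℝ) + 1))
    (h := 2 * ((j : ℝ) + 1)) (by positivity) hη
  rw [hj0 j hj] at hE
  set a : Fin n → ℝ := fun _ => -((j : ℝ) + 1) with ha
  set h : ℝ := 2 * ((j : ℝ) + 1) with hh
  have hh0 : 0 < h := by positivity
  set E : Set (Pt n) := {x | x ∈ box a h ∧ c3 n C2 Ck δ * spo f a h F x < |T f x|} with hEdef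
  refine ⟨toMeasurable volume E, by rw [measure_toMeasurable]; exact hE, ?_⟩
  have := fin_mw a h hw.wt
  set G : Fn n := fun x => ∑ c : Fin n → ZMod 3, stc p w f a h F c x with hG
  have hG0 : ∀ x, 0 ≤ G x := fun x => Finset.sum_nonneg fun c _ => stc_nonneg hw f c x
  have hGmem : MemLp G (ENNReal.ofReal p) (mw a h w) := by
    apply memLp_finsetSum
    intro c _
    apply memLp_stepF
    · intro Q hQ
      obtain ⟨b, l, _, rfl⟩ := Sc_box hh0 hQ
      exact measurableSet_box _ _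
    · exact fun _ _ => div_nonneg (integral_nonneg fun x => phi_nonneg hw f x) measureReal_nonneg
  have hGint : Integrable (fun x => (c3 n C2 Ck δ * G x) ^ p) (mw a h w) := by
    have h1 := (integrable_rpow_of hp0 hGmem hG0).const_mul (c3 n C2 Ck δ ^ p)
    refine h1.congr (Eventually.of_forall fun x => ?_)
    simp only
    rw [Real.mul_rpow hc3.le (hG0 x)]
  have hsub : bx n j \ toMeasurable volume E ⊆ reg a h := by
    intro x hx
    have h6 : x ∈ cb a h (0, fun _ => 0) := by rw [cb_zero]; exact hx.1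
    exact cb_subset_tb hh0 _ h6
  have hIG : ∫ x, G x ^ p ∂(mw a h w) ≤ D ^ p * TI p w f := by
    have h1 := spo_strong hh0 hok hcar hw hf hθ hθ' hX0 hX0' hX hX'
    have h2 : 0 ≤ ∫ x, G x ^ p ∂(mw a h w) := integral_nonneg fun x => Real.rpow_nonneg (hG0 x) _
    have h3 := Real.rpow_le_rpow (Real.rpow_nonneg h2 _) h1 hp0.le
    have hPI := PI_nonneg (p := p) hw.wt f a h
    rw [← Real.rpow_mul h2, one_div_mul_cancel hp0.ne', Real.rpow_one,
      Real.mul_rpow (by rw [← hDdef]; exact hD0) (Real.rpow_nonneg hPI _), ← Real.rpow_mul hPI,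
      one_div_mul_cancel hp0.ne', Real.rpow_one, ← hDdef] at h3
    exact h3.trans (mul_le_mul_of_nonneg_left (PI_le hw.wt hf hp0 a h)
      (Real.rpow_nonneg hD0 _))
  have hmeas : MeasurableSet (bx n j \ toMeasurable volume E) :=
    (measurableSet_box _ _).diff (measurableSet_toMeasurable _ _)
  calc ∫⁻ x in bx n j \ toMeasurable volume E, ‖T f x‖ₑ ^ p ∂(wm w)
      ≤ ∫⁻ x in bx n j \ toMeasurable volume E,
        ENNReal.ofReal ((c3 n C2 Ck δ * G x) ^ p) ∂(wm w) := by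
        apply setLIntegral_mono' hmeas
        rintro x ⟨hxb, hxE⟩
        have hxE' : x ∉ E := fun h => hxE (subset_toMeasurable _ _ h)
        have h3 : |T f x| ≤ c3 n C2 Ck δ * spo f a h F x := by
          by_contra h4
          exact hxE' ⟨hxb, not_le.mp h4⟩
        have h4 : |T f x| ≤ c3 n C2 Ck δ * G x :=
          h3.trans (mul_le_mul_of_nonneg_left (spo_le hh0 hok hw f x) hc3.le)
        rw [← ofReal_norm, Real.norm_eq_abs, ENNReal.ofReal_rpow_of_nonneg (abs_nonneg _) hp0.le]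
        exact ENNReal.ofReal_le_ofReal (Real.rpow_le_rpow (abs_nonneg _) h4 hp0.le)
    _ ≤ ∫⁻ x, ENNReal.ofReal ((c3 n C2 Ck δ * G x) ^ p) ∂(mw a h w) := lintegral_mono_set hsub
    _ = ENNReal.ofReal (∫ x, (c3 n C2 Ck δ * G x) ^ p ∂(mw a h w)) := by
        rw [ofReal_integral_eq_lintegral_ofReal hGint]
        exact Eventually.of_forall fun x => Real.rpow_nonneg (mul_nonneg hc3.le (hG0 x)) _
    _ ≤ _ := by
        apply ENNReal.ofReal_le_ofReal
        have h1 : ∫ x, (c3 n C2 Ck δ * G x) ^ p ∂(mw a h w) =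
            c3 n C2 Ck δ ^ p * ∫ x, G x ^ p ∂(mw a h w) := by
          rw [← integral_const_mul]
          congr 1
          funext x
          rw [Real.mul_rpow hc3.le (hG0 x)]
        rw [h1, Real.mul_rpow hc3.le hD0, mul_assoc]
        exact mul_le_mul_of_nonneg_left hIG (Real.rpow_nonneg hc3.le _)

end Pool.Agent.Helper51.Sp
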