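import Pool.Agent.Helper51.SPOp

/-! From test functions to all functions in `L²`. -/

open MeasureTheory Set Filter Topology
open scoped ENNReal NNReal

namespace Pool.Agent.Helper51.Sp

open Mixed

variable {n : ℕ} {T : Fn n → Fn n} {p : ℝ} {w : Fn n}

/-- truncation -/
noncomputable def trc (g : Fn n) (k : ℕ) : Fn n := {x | ‖x‖ ≤ k ∧ |g x| ≤ k}.indicator g

theorem trc_set {g : Fn n} (hg : Measurable g) (k : ℕ) :
    MeasurableSet {x : Pt n | ‖x‖ ≤ k ∧ |g x| ≤ k} :=
  (measurableSet_le measurable_norm measurable_const).inter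
    (measurableSet_le hg.abs measurable_const)

theorem trc_tst {g : Fn n} (hg : Measurable g) (k : ℕ) : IsTest (trc g k) := by
  refine ⟨hg.indicator (trc_set hg k), ⟨k, fun x => ?_⟩, k, fun x hx => ?_⟩
  · unfold trc
    by_cases h : x ∈ {x | ‖x‖ ≤ k ∧ |g x| ≤ k}
    · rw [indicator_of_mem h]; exact h.2
    · rw [indicator_of_notMem h]; simp
  · apply indicator_of_notMem
    intro h
    exact absurd h.1 (not_le.mpr hx)

theorem trc_le (g : Fn n) (k : ℕ) (x : Pt n) : |trc g k x| ≤ |g x| := by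
  unfold trc
  by_cases h : x ∈ {x | ‖x‖ ≤ k ∧ |g x| ≤ k}
  · rw [indicator_of_mem h]
  · rw [indicator_of_notMem h]; simp

theorem trc_lim (g : Fn n) (x : Pt n) : ∀ᶠ k : ℕ in atTop, trc g k x = g x := by
  obtain ⟨k0, hk0⟩ := exists_nat_ge (max ‖x‖ |g x|)
  filter_upwards [eventually_ge_atTop k0] with k hk
  unfold trc
  apply indicator_of_mem
  have h1 : (k0 : ℝ) ≤ k := by exact_mod_cast hk
  exact ⟨(le_max_left _ _).trans (hk0.trans h1), (le_max_right _ _).trans (hk0.trans h1)⟩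

theorem norm2_sq' {f : Fn n} (hf : IsL2 f) :
    norm2 f ^ (2 : ℝ) = ENNReal.ofReal (∫ x, f x ^ 2) := by
  have h1 := hf.eLpNorm_eq_integral_rpow_norm (by norm_num) (by norm_num)
  have h2 : ∫ x, ‖f x‖ ^ (2 : ℝ≥0∞).toReal = ∫ x, f x ^ 2 := by
    congr 1
    funext x
    simp
  rw [h2] at h1
  have h3 : 0 ≤ ∫ x, f x ^ 2 := integral_nonneg fun x => sq_nonneg _
  rw [norm2, h1, ENNReal.ofReal_rpow_of_nonneg (Real.rpow_nonneg h3 _) (by norm_num)]
  congr 1
  rw [← Real.rpow_mul h3]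
  norm_num

theorem trc_L2 {g : Fn n} (hg : Measurable g) (hg2 : IsL2 g) :
    Tendsto (fun k => norm2 (fun x => trc g k x - g x)) atTop (𝓝 0) := by
  have hd : ∀ k, IsL2 fun x => trc g k x - g x := fun k =>
    (test_memLp (trc_tst hg k)).sub hg2
  have h1 : Tendsto (fun k => ∫ x, (trc g k x - g x) ^ 2) atTop (𝓝 (∫ _x : Pt n, (0 : ℝ))) := by
    apply tendsto_integral_of_dominated_convergence (fun x => g x ^ 2)
    · intro k
      exact (hd k).1.pow 2
    · exact hg2.integrable_sq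
    · intro k
      apply Eventually.of_forall
      intro x
      rw [Real.norm_eq_abs, abs_of_nonneg (sq_nonneg _)]
      unfold trc
      by_cases h : x ∈ {x | ‖x‖ ≤ k ∧ |g x| ≤ k}
      · rw [indicator_of_mem h, sub_self]
        nlinarith [sq_nonneg (g x)]
      · rw [indicator_of_notMem h, zero_sub, neg_sq]
    · apply Eventually.of_forall
      intro x
      apply tendsto_const_nhds.congr'
      filter_upwards [trc_lim g x] with k hk
      rw [hk, sub_self]
      norm_num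
  rw [integral_zero] at h1
  have h2 : Tendsto (fun k => norm2 (fun x => trc g k x - g x) ^ (2 : ℝ)) atTop (𝓝 0) := by
    have h3 := ENNReal.tendsto_ofReal h1
    rw [ENNReal.ofReal_zero] at h3
    refine h3.congr fun k => ?_
    exact (norm2_sq' (hd k)).symm
  have h4 := ((ENNReal.continuous_rpow_const (y := 1 / 2)).tendsto 0).comp h2
  rw [ENNReal.zero_rpow_of_pos (by norm_num)] at h4
  refine h4.congr fun k => ?_
  simp only [Function.comp]
  rw [← ENNReal.rpow_mul]
  norm_num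

/-- approximation by test functions -/
theorem ext_seq (hT : IsBdd T) {f : Fn n} (hf : IsL2 f) :
    ∃ (g : Fn n) (u : ℕ → Fn n), g =ᵐ[volume] f ∧ (∀ k, IsTest (u k)) ∧
      (∀ k x, |u k x| ≤ |g x|) ∧
      ∀ᵐ x ∂(volume : Measure (Pt n)), Tendsto (fun k => T (u k) x) atTop (𝓝 (T f x)) := by
  have hfm := hf.1
  set g : Fn n := hfm.mk f with hgdef
  have hgm : Measurable g := hfm.stronglyMeasurable_mk.measurable
  have hge : f =ᵐ[volume] g := hfm.ae_eq_mk
  have hg2 : IsL2 g := (memLp_congr_ae hge).mp hf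
  have hTg := bdd_congr hT hf hg2 hge
  obtain ⟨C, hC⟩ := hT.bound
  have hd : ∀ k, IsL2 fun x => trc g k x - g x := fun k =>
    (test_memLp (trc_tst hgm k)).sub hg2
  have hlim : Tendsto (fun k => eLpNorm (T (trc g k) - T g) 2 volume) atTop (𝓝 0) := by
    have h1 : ∀ k, eLpNorm (T (trc g k) - T g) 2 volume ≤
        C * norm2 (fun x => trc g k x - g x) := by
      intro k
      have h2 := hT.add g (fun x => trc g k x - g x) hg2 (hd k)
      have e : (fun x => g x + (trc g k x - g x)) = trc g k := by funext x; ring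
      rw [e] at h2
      have h3 : T (trc g k) - T g =ᵐ[volume] T (fun x => trc g k x - g x) := by
        filter_upwards [h2] with x hx
        rw [Pi.sub_apply, hx]
        ring
      rw [eLpNorm_congr_ae h3]
      exact (hC _ (hd k)).2
    have h4 : Tendsto (fun k => (C : ℝ≥0∞) * norm2 (fun x => trc g k x - g x)) atTop
        (𝓝 (C * 0)) := ENNReal.Tendsto.const_mul (trc_L2 hgm hg2) (Or.inr ENNReal.coe_ne_top)
    rw [mul_zero] at h4
    exact tendsto_of_tendsto_of_tendsto_of_le_of_le tendsto_const_nhds h4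
      (fun _ => zero_le) h1
  have hmeas := tendstoInMeasure_of_tendsto_eLpNorm (by norm_num)
    (fun k => (hC _ (test_memLp (trc_tst hgm k))).1.1) (hC _ hg2).1.1 hlim
  obtain ⟨ns, _, hns⟩ := hmeas.exists_seq_tendsto_ae
  refine ⟨g, fun k => trc g (ns k), hge.symm, fun k => trc_tst hgm _, fun k x => trc_le g _ x, ?_⟩
  filter_upwards [hns, hTg] with x h1 h2
  rw [h2]
  exact h1

theorem normLp_mono {u g f : Fn n} (hle : ∀ x, |u x| ≤ |g x|) (hge : g =ᵐ[volume] f) :
    normLp p w u ≤ normLp p w f := by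
  unfold normLp
  rw [← eLpNorm_congr_ae (ac_wm w hge)]
  exact eLpNorm_mono fun x => by
    rw [Real.norm_eq_abs, Real.norm_eq_abs]; exact hle x

/-- strong type bounds extend to `L²` -/
theorem ext_strong (hT : IsBdd T) {N : ℝ≥0∞}
    (H : ∀ f, IsTest f → normLp p w (T f) ≤ N * normLp p w f) {f : Fn n} (hf : IsL2 f) :
    normLp p w (T f) ≤ N * normLp p w f := by
  obtain ⟨g, u, hge, hu1, hu2, hu3⟩ := ext_seq hT hf
  obtain ⟨C, hC⟩ := hT.bound
  have h1 : normLp p w (T f) ≤ atTop.liminf fun k => normLp p w (T (u k)) :=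
    Lp.eLpNorm_lim_le_liminf_eLpNorm
      (fun k => ((hC _ (test_memLp (hu1 k))).1.1).mono_ac (ac_wm w)) (T f) (ac_wm w hu3)
  refine h1.trans ?_
  have h2 : ∀ k, normLp p w (T (u k)) ≤ N * normLp p w f := fun k =>
    (H _ (hu1 k)).trans (mul_le_mul_right (normLp_mono (hu2 k) hge) _)
  calc atTop.liminf (fun k => normLp p w (T (u k))) ≤
        atTop.liminf (fun _ : ℕ => N * normLp p w f) :=
        liminf_le_liminf (Eventually.of_forall h2)
    _ = _ := liminf_const _

/-- weak type bounds extend to `L²` -/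
theorem ext_weak (hT : IsBdd T) (hp : 0 < p) {N : ℝ≥0∞}
    (H : ∀ f, IsTest f → ∀ t : ℝ≥0, t * wm w {x | (t : ℝ) < |T f x|} ^ (1 / p) ≤
      N * normLp p w f) {f : Fn n} (hf : IsL2 f) (t : ℝ≥0) :
    t * wm w {x | (t : ℝ) < |T f x|} ^ (1 / p) ≤ N * normLp p w f := by
  obtain ⟨g, u, hge, hu1, hu2, hu3⟩ := ext_seq hT hf
  set B : ℝ≥0∞ := N * normLp p w f with hB
  have hb : ∀ k, t * wm w {x | (t : ℝ) < |T (u k) x|} ^ (1 / p) ≤ B := fun k =>
    (H _ (hu1 k) t).trans (mul_le_mul_right (normLp_mono (hu2 k) hge) _)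
  set L : ℕ → Set (Pt n) := fun J => ⋂ k ∈ Ici J, {x | (t : ℝ) < |T (u k) x|} with hL
  have hLm : Monotone L := by
    intro J J' hJ x hx
    rw [hL] at hx ⊢
    simp only [mem_iInter] at hx ⊢
    intro k hk
    exact hx k (hJ.trans hk)
  have hsub : ({x | (t : ℝ) < |T f x|} : Set (Pt n)) ≤ᵐ[wm w] (⋃ J, L J : Set (Pt n)) := by
    filter_upwards [ac_wm w hu3] with x hx hxt
    have h1 : Tendsto (fun k => |T (u k) x|) atTop (𝓝 |T f x|) := hx.abs
    have h2 := h1.eventually (lt_mem_nhds hxt)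
    obtain ⟨J, hJ⟩ := eventually_atTop.mp h2
    refine mem_iUnion.mpr ⟨J, ?_⟩
    rw [hL]
    simp only [mem_iInter]
    intro k hk
    exact hJ k hk
  have h1 : wm w {x | (t : ℝ) < |T f x|} ≤ ⨆ J, wm w (L J) :=
    (measure_mono_ae hsub).trans (le_of_eq hLm.measure_iUnion)
  have hLk : ∀ J, t * wm w (L J) ^ (1 / p) ≤ B := by
    intro J
    refine le_trans ?_ (hb J)
    have h2 : wm w (L J) ≤ wm w {x | (t : ℝ) < |T (u J) x|} := by
      apply measure_mono
      intro x hx
      rw [hL] at hx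
      simp only [mem_iInter] at hx
      exact hx J self_mem_Ici
    have h1p : (0 : ℝ) ≤ 1 / p := by positivity
    gcongr
  rcases eq_or_ne t 0 with ht | ht
  · rw [ht]; simp
  · -- divide by `t`
    have htE : (t : ℝ≥0∞) ≠ 0 := by exact_mod_cast ht
    have h1p : (0 : ℝ) < 1 / p := by positivity
    have h3 : ∀ J, wm w (L J) ≤ (B / t) ^ p := by
      intro J
      have h4 : wm w (L J) ^ (1 / p) ≤ B / t := by
        rw [ENNReal.le_div_iff_mul_le (Or.inl htE) (Or.inl ENNReal.coe_ne_top), mul_comm]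
        exact hLk J
      have h5 := ENNReal.rpow_le_rpow h4 hp.le
      rwa [← ENNReal.rpow_mul, one_div_mul_cancel hp.ne', ENNReal.rpow_one] at h5
    have h6 : wm w {x | (t : ℝ) < |T f x|} ≤ (B / t) ^ p := h1.trans (iSup_le h3)
    have h7 := ENNReal.rpow_le_rpow h6 h1p.le
    rw [← ENNReal.rpow_mul, mul_one_div_cancel hp.ne', ENNReal.rpow_one] at h7
    calc t * wm w {x | (t : ℝ) < |T f x|} ^ (1 / p) ≤ t * (B / t) := mul_le_mul_right h7 _
      _ ≤ B := ENNReal.mul_div_le

end Pool.Agent.Helper51.Sp
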