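import Pool.Agent.Helper51.SPRec

/-! The testing estimate for frozen families and the `A_∞` Carleson estimate. -/

open MeasureTheory Set
open scoped ENNReal

namespace Pool.Agent.Helper51.Sp

variable {α : Type*}

theorem Carl.mono_sub {S : Finset (Set α)} {ν : Set α → ℝ} {Λ : ℝ} (hC : Carl S ν Λ)
    (hν : ∀ Q ∈ S, 0 ≤ ν Q) {S' : Finset (Set α)} (hs : S' ⊆ S) : Carl S' ν Λ := by
  intro R hR
  refine le_trans ?_ (hC R (hs hR))
  apply Finset.sum_le_sum_of_subset_of_nonneg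
  · intro Q hQ
    rw [mem_sub] at hQ ⊢
    exact ⟨hs hQ.1, hQ.2⟩
  · intro Q hQ _
    exact hν Q (mem_sub.mp hQ).1

variable [MeasurableSpace α]

/-- average of a function over a set -/
noncomputable def av (μ : Measure α) (h : α → ℝ) (Q : Set α) : ℝ :=
  (∫ x in Q, h x ∂μ) / μ.real Q

theorem sum_fiber_top {S : Finset (Set α)} (h : Lam S) (l : Set α → ℤ) (f : Set α → ℝ) :
    ∑ Q ∈ S, f Q = ∑ F ∈ recs S l, ∑ Q ∈ S with top S l Q = F, f Q := by
  classical
  rw [Finset.sum_fiberwise_of_maps_to]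
  intro Q hQ
  exact (top_spec h l hQ).1

/-- `L²` Carleson embedding for a Carleson family -/
theorem carleson_L2 {μ : Measure α} [IsFiniteMeasure μ] {S : Finset (Set α)} (hS : Lam S)
    (hm : ∀ Q ∈ S, MeasurableSet Q) (hpos : ∀ Q ∈ S, 0 < μ.real Q) {Λ : ℝ} (hΛ : 0 ≤ Λ)
    (hC : Carl S μ.real Λ) {h : α → ℝ} (hh : MemLp h 2 μ) (hh0 : ∀ x, 0 ≤ h x)
    (hhp : ∀ Q ∈ S, 0 < ∫ x in Q, h x ∂μ) {R : Set α} (hR : MeasurableSet R) :
    ∑ Q ∈ sub S R, av μ h Q ^ 2 * μ.real Q ≤ 4 * Λ * ce 2 * ∫ x in R, h x ^ 2 ∂μ := by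
  classical
  set S' := sub S R with hS'
  have hsub : S' ⊆ S := sub_subset
  have hL : Lam S' := hS.mono hsub
  set l : Set α → ℤ := fun Q => lev (av μ h Q) with hl
  have hav : ∀ Q ∈ S', 0 < av μ h Q := fun Q hQ => div_pos (hhp Q (hsub hQ)) (hpos Q (hsub hQ))
  have hC' : Carl S' μ.real Λ := hC.mono_sub (fun Q _ => measureReal_nonneg) hsub
  have h1 := carleson_recs (ν := μ) hL (fun Q hQ => hm Q (hsub hQ)) l (p := 2) (by norm_num)
    (φ := h) (by
      have : ENNReal.ofReal 2 = 2 := by norm_num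
      rw [this]
      exact hh) hh0
    (by
      intro Q hQ
      have h2 := lev_le (hav Q hQ)
      have h3 := hpos Q (hsub hQ)
      calc (2 : ℝ) ^ (l Q : ℝ) * μ.real Q ≤ av μ h Q * μ.real Q :=
            mul_le_mul_of_nonneg_right h2 h3.le
        _ = _ := by unfold av; rw [div_mul_cancel₀ _ h3.ne'])
    hR (fun Q hQ => (mem_sub.mp hQ).2)
  have h2 : ∀ Q ∈ S', av μ h Q ^ 2 * μ.real Q ≤
      4 * (2 : ℝ) ^ (2 * (l (top S' l Q) : ℝ)) * μ.real Q := by
    intro Q hQ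
    apply mul_le_mul_of_nonneg_right _ measureReal_nonneg
    have h3 := lt_lev' (hav Q hQ)
    have h4 := (top_spec hL l hQ).2.2.1
    have h5 : (2 : ℝ) ^ (l Q : ℝ) ≤ 2 ^ (l (top S' l Q) : ℝ) :=
      Real.rpow_le_rpow_of_exponent_le (by norm_num) (by exact_mod_cast h4)
    have h6 : av μ h Q ≤ 2 * 2 ^ (l (top S' l Q) : ℝ) := by
      have : (2 : ℝ) ^ (lev (av μ h Q) : ℝ) = 2 ^ (l Q : ℝ) := rfl
      rw [this] at h3
      linarith
    have h7 := pow_le_pow_left₀ (hav Q hQ).le h6 2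
    have h8 : (2 * (2 : ℝ) ^ (l (top S' l Q) : ℝ)) ^ 2 =
        4 * (2 : ℝ) ^ (2 * (l (top S' l Q) : ℝ)) := by
      rw [mul_pow, ← Real.rpow_natCast ((2 : ℝ) ^ _), ← Real.rpow_mul (by norm_num)]
      norm_num
      ring_nf
    rwa [h8] at h7
  calc ∑ Q ∈ S', av μ h Q ^ 2 * μ.real Q
      ≤ ∑ Q ∈ S', 4 * (2 : ℝ) ^ (2 * (l (top S' l Q) : ℝ)) * μ.real Q := Finset.sum_le_sum h2
    _ = ∑ F ∈ recs S' l, ∑ Q ∈ S' with top S' l Q = F,
        4 * (2 : ℝ) ^ (2 * (l (top S' l Q) : ℝ)) * μ.real Q := sum_fiber_top hL l _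
    _ ≤ ∑ F ∈ recs S' l, 4 * Λ * ((2 : ℝ) ^ (2 * (l F : ℝ)) * μ.real F) := by
        apply Finset.sum_le_sum
        intro F hF
        have hFS := recs_subset hF
        calc ∑ Q ∈ S' with top S' l Q = F, 4 * (2 : ℝ) ^ (2 * (l (top S' l Q) : ℝ)) * μ.real Q
            = ∑ Q ∈ S' with top S' l Q = F, 4 * (2 : ℝ) ^ (2 * (l F : ℝ)) * μ.real Q := by
              apply Finset.sum_congr rfl
              intro Q hQ
              rw [(Finset.mem_filter.mp hQ).2]
          _ = 4 * (2 : ℝ) ^ (2 * (l F : ℝ)) * ∑ Q ∈ S' with top S' l Q = F, μ.real Q := by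
              rw [Finset.mul_sum]
          _ ≤ 4 * (2 : ℝ) ^ (2 * (l F : ℝ)) * ∑ Q ∈ sub S' F, μ.real Q := by
              apply mul_le_mul_of_nonneg_left
              · apply Finset.sum_le_sum_of_subset_of_nonneg
                · intro Q hQ
                  rw [Finset.mem_filter] at hQ
                  rw [mem_sub]
                  refine ⟨hQ.1, ?_⟩
                  have := (top_spec hL l hQ.1).2.1
                  rwa [hQ.2] at this
                · intro Q _ _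
                  exact measureReal_nonneg
              · have := two_rpow_pos (2 * (l F : ℝ))
                positivity
          _ ≤ 4 * (2 : ℝ) ^ (2 * (l F : ℝ)) * (Λ * μ.real F) := by
              apply mul_le_mul_of_nonneg_left (hC' F hFS)
              have := two_rpow_pos (2 * (l F : ℝ))
              positivity
          _ = _ := by ring
    _ = 4 * Λ * ∑ F ∈ recs S' l, (2 : ℝ) ^ (2 * (l F : ℝ)) * μ.real F := by
        rw [Finset.mul_sum]
    _ ≤ 4 * Λ * (ce 2 * ∫ x in R, h x ^ (2 : ℝ) ∂μ) :=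
        mul_le_mul_of_nonneg_left h1 (by positivity)
    _ = _ := by
        simp only [Real.rpow_two]
        ring

/-- the Carleson property of an `A_∞` weight -/
theorem carleson_ainf {μ W : Measure α} [IsFiniteMeasure μ] {S : Finset (Set α)} (hS : Lam S)
    (hm : ∀ Q ∈ S, MeasurableSet Q) (hpos : ∀ Q ∈ S, 0 < μ.real Q) {Λ κ : ℝ} (hΛ : 0 ≤ Λ)
    (hκ : 0 ≤ κ) (hC : Carl S μ.real Λ) {h : α → ℝ} (hh : MemLp h 2 μ) (hh0 : ∀ x, 0 ≤ h x)
    (hhp : ∀ Q ∈ S, 0 < ∫ x in Q, h x ∂μ)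
    (hW : ∀ R, MeasurableSet R → ∫ x in R, h x ^ 2 ∂μ = W.real R)
    (hK : ∀ Q ∈ S, W.real Q ≤ κ * (av μ h Q ^ 2 * μ.real Q)) {R : Set α}
    (hR : MeasurableSet R) :
    ∑ Q ∈ sub S R, W.real Q ≤ 4 * Λ * ce 2 * κ * W.real R := by
  have h1 := carleson_L2 hS hm hpos hΛ hC hh hh0 hhp hR
  calc ∑ Q ∈ sub S R, W.real Q ≤ ∑ Q ∈ sub S R, κ * (av μ h Q ^ 2 * μ.real Q) :=
        Finset.sum_le_sum fun Q hQ => hK Q (sub_subset hQ)
    _ = κ * ∑ Q ∈ sub S R, av μ h Q ^ 2 * μ.real Q := by rw [Finset.mul_sum]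
    _ ≤ κ * (4 * Λ * ce 2 * ∫ x in R, h x ^ 2 ∂μ) := mul_le_mul_of_nonneg_left h1 hκ
    _ = _ := by rw [hW R hR]; ring

/-- average density of a measure -/
noncomputable def den (U μ : Measure α) (Q : Set α) : ℝ := U.real Q / μ.real Q

open Classical in
/-- pointwise estimate for sums of powers of two over a chain -/
theorem chain_power {S : Finset (Set α)} (hS : Lam S) (m : Set α → ℤ) {r s : ℝ} (hr : 1 < r)
    (hs : 1 < s) (x : α) :
    (stepF S (fun Q => (2 : ℝ) ^ (m Q : ℝ)) x) ^ r ≤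
      ((1 - s ^ (-(1 / (r - 1))))⁻¹) ^ (r - 1) * 2 ^ r *
        stepF S (fun Q => s ^ gen (S.filter (fun P => m P = m Q)) Q * (2 : ℝ) ^ (r * m Q)) x := by
  have hr0 : 0 < r := by linarith
  have hs0 : 0 < s := by linarith
  rw [stepF_eq, stepF_eq]
  set A := S.filter (x ∈ ·) with hA
  set k : Set α → ℕ := fun Q => gen (S.filter (fun P => m P = m Q)) Q with hk
  have hmem : ∀ Q ∈ A, Q ∈ S ∧ x ∈ Q := fun Q hQ => Finset.mem_filter.mp hQ
  have hinj : ∀ Q ∈ A, ∀ Q' ∈ A, m Q = m Q' → k Q = k Q' → Q = Q' := by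
    intro Q hQ Q' hQ' hm hkk
    have h1 := hmem Q hQ
    have h2 := hmem Q' hQ'
    have e : S.filter (fun P => m P = m Q) = S.filter (fun P => m P = m Q') := by rw [hm]
    have h3 : k Q' = gen (S.filter (fun P => m P = m Q)) Q' := by
      show gen (S.filter (fun P => m P = m Q')) Q' = gen (S.filter (fun P => m P = m Q)) Q'
      rw [e]
    rw [h3] at hkk
    apply gen_inj (hS.mono (Finset.filter_subset (fun P => m P = m Q) S))
      (Finset.mem_filter.mpr ⟨h1.1, rfl⟩) (Finset.mem_filter.mpr ⟨h2.1, hm.symm⟩)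
      (hS.chain h1.1 h2.1 h1.2 h2.2) hkk
  set b : ℕ → ℝ := fun j => ∑ Q ∈ A with k Q = j, (2 : ℝ) ^ (m Q : ℝ) with hb
  have hb0 : ∀ j ∈ A.image k, 0 ≤ b j := fun j _ =>
    Finset.sum_nonneg fun Q _ => (two_rpow_pos _).le
  have h1 : ∑ Q ∈ A, (2 : ℝ) ^ (m Q : ℝ) = ∑ j ∈ A.image k, b j := by
    rw [hb, Finset.sum_fiberwise_of_maps_to]
    intro Q hQ
    exact Finset.mem_image_of_mem k hQ
  have h2 := holder_exp (A.image k) b hb0 hr hs
  have hc0 : 0 ≤ ((1 - s ^ (-(1 / (r - 1))))⁻¹) ^ (r - 1) := by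
    apply Real.rpow_nonneg
    apply inv_nonneg.mpr
    have : s ^ (-(1 / (r - 1))) < 1 :=
      Real.rpow_lt_one_of_one_lt_of_neg hs (by
        have : 0 < 1 / (r - 1) := by
          have : 0 < r - 1 := by linarith
          positivity
        linarith)
    linarith
  rw [h1]
  refine h2.trans ?_
  rw [mul_assoc]
  apply mul_le_mul_of_nonneg_left _ hc0
  have h3 : ∑ Q ∈ A, s ^ k Q * (2 : ℝ) ^ (r * m Q) =
      ∑ j ∈ A.image k, ∑ Q ∈ A with k Q = j, s ^ k Q * (2 : ℝ) ^ (r * m Q) := by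
    rw [Finset.sum_fiberwise_of_maps_to]
    intro Q hQ
    exact Finset.mem_image_of_mem k hQ
  rw [h3, Finset.mul_sum]
  apply Finset.sum_le_sum
  intro j _
  have h4 : b j ^ r ≤ 2 ^ r * ∑ Q ∈ A with k Q = j, (2 : ℝ) ^ (r * m Q) := by
    have h5 := geo2 (A.filter (fun Q => k Q = j)) m (by
      intro Q hQ Q' hQ' hmm
      have h6 := Finset.mem_filter.mp hQ
      have h7 := Finset.mem_filter.mp hQ'
      exact hinj Q h6.1 Q' h7.1 hmm (h6.2.trans h7.2.symm)) (q := 1) one_pos hr0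
    have e1 : (1 - (2 : ℝ) ^ (-(1 : ℝ)))⁻¹ = 2 := by
      rw [Real.rpow_neg_one]; norm_num
    simp only [one_mul, e1] at h5
    exact h5
  calc s ^ j * b j ^ r ≤ s ^ j * (2 ^ r * ∑ Q ∈ A with k Q = j, (2 : ℝ) ^ (r * m Q)) :=
        mul_le_mul_of_nonneg_left h4 (by positivity)
    _ = _ := by
        rw [mul_left_comm, Finset.mul_sum]
        congr 1
        apply Finset.sum_congr rfl
        intro Q hQ
        rw [(Finset.mem_filter.mp hQ).2]

/-- the constant in the testing estimate -/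
noncomputable def testC (r B Λ : ℝ) : ℝ :=
  2 ^ r * (((1 - (1 + 1 / (2 * (B * 2 ^ (r - 1) * Λ))) ^ (-(1 / (r - 1))))⁻¹) ^ (r - 1) * 2 ^ r *
    (4 * (B * 2 ^ (r - 1) * Λ) ^ 2)) * B

open Classical in
/-- **the testing estimate for frozen families** -/
theorem testing {μ U V : Measure α} [IsFiniteMeasure μ] [IsFiniteMeasure V] [IsFiniteMeasure U]
    {S : Finset (Set α)} (hS : Lam S) (hm : ∀ Q ∈ S, MeasurableSet Q)
    (hμ : ∀ Q ∈ S, 0 < μ.real Q) (hU : ∀ Q ∈ S, 0 < U.real Q) {r A B Λ : ℝ} (hr : 1 < r)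
    (hA : 0 < A) (hB : 1 ≤ B) (hΛ : 1 ≤ Λ) (hC : Carl S μ.real Λ)
    (hlo : ∀ Q ∈ S, A ≤ den V μ Q * den U μ Q ^ (r - 1))
    (hhi : ∀ Q ∈ S, den V μ Q * den U μ Q ^ (r - 1) ≤ B * A) :
    ∫ x, stepF S (den U μ) x ^ r ∂V ≤ testC r B Λ * A * ∑ Q ∈ S, U.real Q := by
  have hr0 : 0 < r := by linarith
  have hr1 : 0 < r - 1 := by linarith
  have hdU : ∀ Q ∈ S, 0 < den U μ Q := fun Q hQ => div_pos (hU Q hQ) (hμ Q hQ)
  set Λ' : ℝ := B * 2 ^ (r - 1) * Λ with hΛ'
  have h2r : (1 : ℝ) ≤ 2 ^ (r - 1) := Real.one_le_rpow (by norm_num) hr1.le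
  have hΛ'1 : 1 ≤ Λ' := by
    rw [hΛ']
    exact one_le_mul_of_one_le_of_one_le (one_le_mul_of_one_le_of_one_le hB h2r) hΛ
  set s : ℝ := 1 + 1 / (2 * Λ') with hs
  have hs1 : 1 < s := by
    rw [hs]
    have : 0 < 1 / (2 * Λ') := by positivity
    linarith
  set m : Set α → ℤ := fun Q => lev (den U μ Q) with hmdef
  have hvV : ∀ Q ∈ S, V.real Q = den V μ Q * μ.real Q := fun Q hQ => by
    unfold den
    rw [div_mul_cancel₀ _ (hμ Q hQ).ne']
  have hdlo : ∀ Q ∈ S, (2 : ℝ) ^ ((r - 1) * (m Q : ℝ)) ≤ den U μ Q ^ (r - 1) := by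
    intro Q hQ
    have h1 := Real.rpow_le_rpow (two_rpow_pos _).le (lev_le (hdU Q hQ)) hr1.le
    rwa [← Real.rpow_mul (by norm_num), mul_comm] at h1
  have hdhi : ∀ Q ∈ S, den U μ Q ^ (r - 1) ≤ 2 ^ (r - 1) * (2 : ℝ) ^ ((r - 1) * (m Q : ℝ)) := by
    intro Q hQ
    have h1 := Real.rpow_le_rpow (hdU Q hQ).le (lt_lev' (hdU Q hQ)).le hr1.le
    rwa [Real.mul_rpow (by norm_num) (two_rpow_pos _).le, ← Real.rpow_mul (by norm_num),
      mul_comm (lev (den U μ Q) : ℝ)] at h1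
  -- Carleson property of the classes
  have hCm : ∀ j : ℤ, Carl (S.filter (fun P => m P = j)) V.real Λ' := by
    intro j R hR
    have hR' := Finset.mem_filter.mp hR
    set c := (2 : ℝ) ^ ((r - 1) * (j : ℝ)) with hc
    have hc0 : 0 < c := two_rpow_pos _
    have h1 : ∀ Q ∈ sub (S.filter (fun P => m P = j)) R, V.real Q ≤ B * A / c * μ.real Q := by
      intro Q hQ
      have hQ1 := Finset.mem_filter.mp (mem_sub.mp hQ).1
      rw [hvV Q hQ1.1]
      apply mul_le_mul_of_nonneg_right _ measureReal_nonneg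
      rw [le_div_iff₀ hc0]
      have h2 := hdlo Q hQ1.1
      rw [hQ1.2] at h2
      have h3 : 0 ≤ den V μ Q := div_nonneg measureReal_nonneg measureReal_nonneg
      exact (mul_le_mul_of_nonneg_left h2 h3).trans (hhi Q hQ1.1)
    have h4 : ∑ Q ∈ sub (S.filter (fun P => m P = j)) R, μ.real Q ≤ Λ * μ.real R :=
      (hC.mono_sub (fun Q _ => measureReal_nonneg) (Finset.filter_subset _ _)) R hR
    have h5 : A / (2 ^ (r - 1) * c) * μ.real R ≤ V.real R := by
      rw [hvV R hR'.1]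
      apply mul_le_mul_of_nonneg_right _ measureReal_nonneg
      rw [div_le_iff₀ (by positivity)]
      have h2 := hdhi R hR'.1
      rw [hR'.2] at h2
      have h3 : 0 ≤ den V μ R := div_nonneg measureReal_nonneg measureReal_nonneg
      exact (hlo R hR'.1).trans (mul_le_mul_of_nonneg_left h2 h3)
    calc ∑ Q ∈ sub (S.filter (fun P => m P = j)) R, V.real Q
        ≤ ∑ Q ∈ sub (S.filter (fun P => m P = j)) R, B * A / c * μ.real Q := Finset.sum_le_sum h1
      _ = B * A / c * ∑ Q ∈ sub (S.filter (fun P => m P = j)) R, μ.real Q := by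
          rw [Finset.mul_sum]
      _ ≤ B * A / c * (Λ * μ.real R) := mul_le_mul_of_nonneg_left h4 (by positivity)
      _ = Λ' * (A / (2 ^ (r - 1) * c) * μ.real R) := by
          rw [hΛ']
          field_simp
      _ ≤ Λ' * V.real R := mul_le_mul_of_nonneg_left h5 (by linarith)
  set c1 : ℝ := ((1 - s ^ (-(1 / (r - 1))))⁻¹) ^ (r - 1) with hc1
  have hc10 : 0 ≤ c1 := by
    apply Real.rpow_nonneg
    apply inv_nonneg.mpr
    have : s ^ (-(1 / (r - 1))) < 1 :=
      Real.rpow_lt_one_of_one_lt_of_neg hs1 (by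
        have : 0 < 1 / (r - 1) := by positivity
        linarith)
    linarith
  set d : Set α → ℝ := fun Q => s ^ gen (S.filter (fun P => m P = m Q)) Q * (2 : ℝ) ^ (r * m Q)
    with hd
  have hd0 : ∀ Q ∈ S, 0 ≤ d Q := fun Q _ => mul_nonneg (by positivity) (two_rpow_pos _).le
  have hpt : ∀ x, stepF S (den U μ) x ^ r ≤ 2 ^ r * (c1 * 2 ^ r) * stepF S d x := by
    intro x
    have h1 : stepF S (den U μ) x ≤ 2 * stepF S (fun Q => (2 : ℝ) ^ (m Q : ℝ)) x := by
      have h2 : stepF S (den U μ) x ≤ stepF S (fun Q => 2 * (2 : ℝ) ^ (m Q : ℝ)) x :=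
        stepF_mono (fun Q hQ => (lt_lev' (hdU Q hQ)).le) x
      refine h2.trans (le_of_eq ?_)
      rw [stepF_eq, stepF_eq, Finset.mul_sum]
    have h3 : 0 ≤ stepF S (fun Q => (2 : ℝ) ^ (m Q : ℝ)) x :=
      stepF_nonneg (fun Q _ => (two_rpow_pos _).le) x
    calc stepF S (den U μ) x ^ r ≤ (2 * stepF S (fun Q => (2 : ℝ) ^ (m Q : ℝ)) x) ^ r :=
          Real.rpow_le_rpow (stepF_nonneg (fun Q hQ => (hdU Q hQ).le) x) h1 hr0.le
      _ = 2 ^ r * stepF S (fun Q => (2 : ℝ) ^ (m Q : ℝ)) x ^ r :=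
          Real.mul_rpow (by norm_num) h3
      _ ≤ 2 ^ r * (c1 * 2 ^ r * stepF S d x) := by
          apply mul_le_mul_of_nonneg_left _ (by positivity)
          exact chain_power hS m hr hs1 x
      _ = _ := by ring
  have hsum : ∑ Q ∈ S, d Q * V.real Q ≤ 4 * Λ' ^ 2 * (B * A * ∑ Q ∈ S, U.real Q) := by
    have h1 : ∑ Q ∈ S, d Q * V.real Q = ∑ j ∈ S.image m, ∑ Q ∈ S with m Q = j,
        d Q * V.real Q := by
      rw [Finset.sum_fiberwise_of_maps_to]
      intro Q hQ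
      exact Finset.mem_image_of_mem m hQ
    have h2 : ∀ j : ℤ, ∑ Q ∈ S with m Q = j, d Q * V.real Q ≤
        4 * Λ' ^ 2 * ∑ Q ∈ S with m Q = j, (2 : ℝ) ^ (r * m Q) * V.real Q := by
      intro j
      have h3 := carl_exp (hS.mono (Finset.filter_subset (fun P => m P = j) S))
        (ν := V.real) (fun Q _ => measureReal_nonneg) hΛ'1 (hCm j)
      have h4 : ∑ Q ∈ S with m Q = j, d Q * V.real Q = (2 : ℝ) ^ (r * j) *
          ∑ Q ∈ S with m Q = j, (1 + 1 / (2 * Λ')) ^ gen (S.filter (fun P => m P = j)) Q *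
            V.real Q := by
        rw [Finset.mul_sum]
        apply Finset.sum_congr rfl
        intro Q hQ
        rw [hd]
        simp only
        rw [(Finset.mem_filter.mp hQ).2]
        ring
      rw [h4]
      have h5 : ∑ Q ∈ (S.filter (fun P => m P = j)).filter
          (fun Q => gen (S.filter (fun P => m P = j)) Q = 1), V.real Q ≤
          ∑ Q ∈ S with m Q = j, V.real Q :=
        Finset.sum_le_sum_of_subset_of_nonneg (Finset.filter_subset _ _)
          fun Q _ _ => measureReal_nonneg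
      have h6 : ∑ Q ∈ S with m Q = j, (2 : ℝ) ^ (r * m Q) * V.real Q =
          (2 : ℝ) ^ (r * j) * ∑ Q ∈ S with m Q = j, V.real Q := by
        rw [Finset.mul_sum]
        apply Finset.sum_congr rfl
        intro Q hQ
        rw [(Finset.mem_filter.mp hQ).2]
      rw [h6]
      calc (2 : ℝ) ^ (r * j) * ∑ Q ∈ S with m Q = j,
            (1 + 1 / (2 * Λ')) ^ gen (S.filter (fun P => m P = j)) Q * V.real Q
          ≤ (2 : ℝ) ^ (r * j) * (4 * Λ' ^ 2 * ∑ Q ∈ S with m Q = j, V.real Q) := by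
            apply mul_le_mul_of_nonneg_left _ (two_rpow_pos _).le
            exact h3.trans (mul_le_mul_of_nonneg_left h5 (by positivity))
        _ = _ := by ring
    have h7 : ∑ j ∈ S.image m, ∑ Q ∈ S with m Q = j, (2 : ℝ) ^ (r * m Q) * V.real Q =
        ∑ Q ∈ S, (2 : ℝ) ^ (r * m Q) * V.real Q := by
      rw [Finset.sum_fiberwise_of_maps_to]
      intro Q hQ
      exact Finset.mem_image_of_mem m hQ
    have h8 : ∀ Q ∈ S, (2 : ℝ) ^ (r * m Q) * V.real Q ≤ B * A * U.real Q := by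
      intro Q hQ
      have hμQ := hμ Q hQ
      have hUQ := hdU Q hQ
      have h9 : (2 : ℝ) ^ (r * (m Q : ℝ)) ≤ den U μ Q ^ r := by
        have h1 := Real.rpow_le_rpow (two_rpow_pos _).le (lev_le hUQ) hr0.le
        rwa [← Real.rpow_mul (by norm_num), mul_comm] at h1
      have h10 : U.real Q = den U μ Q * μ.real Q := by
        unfold den
        rw [div_mul_cancel₀ _ hμQ.ne']
      rw [hvV Q hQ, h10]
      have h11 : den U μ Q ^ r = den U μ Q ^ (r - 1) * den U μ Q := by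
        rw [← Real.rpow_add_one hUQ.ne']
        congr 1
        ring
      have h12 : 0 ≤ den V μ Q := div_nonneg measureReal_nonneg measureReal_nonneg
      calc (2 : ℝ) ^ (r * (m Q : ℝ)) * (den V μ Q * μ.real Q)
          ≤ den U μ Q ^ r * (den V μ Q * μ.real Q) :=
            mul_le_mul_of_nonneg_right h9 (by positivity)
        _ = (den V μ Q * den U μ Q ^ (r - 1)) * (den U μ Q * μ.real Q) := by rw [h11]; ring
        _ ≤ (B * A) * (den U μ Q * μ.real Q) :=
            mul_le_mul_of_nonneg_right (hhi Q hQ) (by positivity)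
    calc ∑ Q ∈ S, d Q * V.real Q ≤ ∑ j ∈ S.image m,
          4 * Λ' ^ 2 * ∑ Q ∈ S with m Q = j, (2 : ℝ) ^ (r * m Q) * V.real Q := by
          rw [h1]; exact Finset.sum_le_sum fun j _ => h2 j
      _ = 4 * Λ' ^ 2 * ∑ Q ∈ S, (2 : ℝ) ^ (r * m Q) * V.real Q := by
          rw [← Finset.mul_sum, h7]
      _ ≤ 4 * Λ' ^ 2 * ∑ Q ∈ S, B * A * U.real Q :=
          mul_le_mul_of_nonneg_left (Finset.sum_le_sum h8) (by positivity)
      _ = _ := by rw [← Finset.mul_sum]
  calc ∫ x, stepF S (den U μ) x ^ r ∂V ≤ ∫ x, 2 ^ r * (c1 * 2 ^ r) * stepF S d x ∂V := by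
        apply integral_mono_of_nonneg
        · exact Filter.Eventually.of_forall fun x =>
            Real.rpow_nonneg (stepF_nonneg (fun Q hQ => (hdU Q hQ).le) x) _
        · exact (integrable_stepF hm hd0).const_mul _
        · exact Filter.Eventually.of_forall hpt
    _ = 2 ^ r * (c1 * 2 ^ r) * ∑ Q ∈ S, d Q * V.real Q := by
        rw [integral_const_mul, integral_stepF hm]
    _ ≤ 2 ^ r * (c1 * 2 ^ r) * (4 * Λ' ^ 2 * (B * A * ∑ Q ∈ S, U.real Q)) :=
        mul_le_mul_of_nonneg_left hsum (by positivity)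
    _ = _ := by
        unfold testC
        rw [← hΛ', ← hs, ← hc1]
        ring

end Pool.Agent.Helper51.Sp
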