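import Pool.Agent.Helper51.SPGeo
import Pool.Agent.Helper51.SPTest

/-! Weights: the measures, the Jensen inequalities and the `A_∞` structure. -/

open MeasureTheory Set Filter Topology
open scoped ENNReal NNReal

namespace Pool.Agent.Helper51.Sp

open Mixed

variable {n : ℕ}

/-- a pair of dual weights -/
structure Wt (p : ℝ) (w : Fn n) : Prop where
  hp : 1 < p
  wt : IsWeight w
  st : IsWeight (dual p w)

theorem Wt.symm {p : ℝ} {w : Fn n} (h : Wt p w) : Wt (conj p) (dual p w) :=
  ⟨conj_gt_one h.hp, h.st, by rw [dual_dual h.hp h.wt.1]; exact h.wt⟩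

theorem box_subset_Icc (c : Fin n → ℝ) (l : ℝ) : box c l ⊆ Icc c fun i => c i + l := fun _ hx =>
  ⟨fun i => (hx i).1, fun i => (hx i).2.le⟩

theorem intOn_box {f : Fn n} (hf : LocallyIntegrable f volume) (c : Fin n → ℝ) (l : ℝ) :
    IntegrableOn f (box c l) volume :=
  (hf.integrableOn_isCompact isCompact_Icc).mono_set (box_subset_Icc c l)

variable {w : Fn n} {B : Set (Pt n)}

theorem wr_eq (w : Fn n) (hB : MeasurableSet B) : (wm w).restrict B =
    (volume.restrict B).withDensity fun x => ENNReal.ofReal (w x) := restrict_withDensity hB _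

theorem aem (hw : IsWeight w) : AEMeasurable (fun x => ENNReal.ofReal (w x)) (volume : Measure (Pt n)) :=
  ENNReal.measurable_ofReal.comp_aemeasurable hw.2.aestronglyMeasurable.aemeasurable

theorem int_wr (hw : IsWeight w) (hB : MeasurableSet B) (g : Fn n) :
    ∫ x, g x ∂((wm w).restrict B) = ∫ x in B, w x * g x := by
  rw [wr_eq w hB, integral_withDensity_eq_integral_toReal_smul₀ (aem hw).restrict
    (Eventually.of_forall fun x => ENNReal.ofReal_lt_top)]
  congr 1
  funext x
  rw [ENNReal.toReal_ofReal (hw.1 x).le, smul_eq_mul]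

theorem setint_wr (hw : IsWeight w) {Q : Set (Pt n)} (hQ : MeasurableSet Q) (hQB : Q ⊆ B)
    (g : Fn n) : ∫ x in Q, g x ∂((wm w).restrict B) = ∫ x in Q, w x * g x := by
  rw [Measure.restrict_restrict hQ, inter_eq_left.mpr hQB]
  exact int_wr hw hQ g

theorem real_wr' (hw : IsWeight w) (hB : MeasurableSet B) {Q : Set (Pt n)}
    (hQ : MeasurableSet Q) : ((wm w).restrict B).real Q = ∫ x in Q ∩ B, w x := by
  have h1 : ((wm w).restrict B).real Q = ∫ _x in Q, (1 : ℝ) ∂((wm w).restrict B) := by
    rw [setIntegral_const, smul_eq_mul, mul_one]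
  rw [h1, Measure.restrict_restrict hQ, int_wr hw (hQ.inter hB)]
  simp

theorem real_wr (hw : IsWeight w) (hB : MeasurableSet B) {Q : Set (Pt n)}
    (hQ : MeasurableSet Q) (hQB : Q ⊆ B) : ((wm w).restrict B).real Q = ∫ x in Q, w x := by
  rw [real_wr' hw hB hQ, inter_eq_left.mpr hQB]

theorem real_vr {Q : Set (Pt n)} (hQ : MeasurableSet Q) (hQB : Q ⊆ B) :
    ((volume : Measure (Pt n)).restrict B).real Q = volume.real Q := by
  rw [Measure.real, Measure.restrict_apply hQ, inter_eq_left.mpr hQB, Measure.real]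

theorem fin_wr (hB : MeasurableSet B) (hi : IntegrableOn w B volume) :
    IsFiniteMeasure ((wm w).restrict B) := by
  rw [wr_eq w hB]
  exact isFiniteMeasure_withDensity_ofReal hi.2

/-! ### averages over cubes -/

theorem real_box_pos (c : Fin n → ℝ) {l : ℝ} (hl : 0 < l) : 0 < volume.real (box c l) := by
  rw [real_box _ hl.le]; positivity

theorem avg_box_cube (c : Fin n → ℝ) (l : ℝ) (f : Fn n) :
    avg (box c l) f = avg (cube c l) f := by
  have h1 := box_ae_cube c l
  unfold avg cube
  rw [measure_congr h1, Measure.restrict_congr_set h1]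

theorem avg_box_pos {f : Fn n} (hf0 : ∀ x, 0 < f x) (hf : LocallyIntegrable f volume)
    (c : Fin n → ℝ) {l : ℝ} (hl : 0 < l) : 0 < ∫ x in box c l, f x := by
  rw [setIntegral_pos_iff_support_of_nonneg_ae]
  · have : Function.support f = Set.univ := by
      ext x
      simp [(hf0 x).ne']
    rw [this, Set.univ_inter, vol_box c hl.le]
    exact ENNReal.ofReal_pos.mpr (by positivity)
  · exact Eventually.of_forall fun x => (hf0 x).le
  · exact intOn_box hf c l

theorem den_wr (hw : IsWeight w) (hB : MeasurableSet B) {c : Fin n → ℝ} {l : ℝ}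
    (hQB : box c l ⊆ B) : den ((wm w).restrict B) (volume.restrict B) (box c l) =
      avg (cube c l) w := by
  unfold den
  rw [real_wr hw hB (measurableSet_box _ _) hQB, real_vr (measurableSet_box _ _) hQB,
    ← avg_box_cube, div_eq_inv_mul]
  rfl

theorem den_pos' (hw : IsWeight w) {c : Fin n → ℝ} {l : ℝ} (hl : 0 < l) :
    0 < avg (cube c l) w := by
  rw [← avg_box_cube]
  exact mul_pos (inv_pos.mpr (real_box_pos c hl)) (avg_box_pos hw.1 hw.2 c hl)

/-! ### Jensen's inequality -/

theorem jensen (c : Fin n → ℝ) {l : ℝ} (hl : 0 < l) {g : Fn n}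
    (hg : IntegrableOn g (box c l) volume)
    (he : IntegrableOn (fun x => Real.exp (g x)) (box c l) volume) :
    Real.exp (avg (box c l) g) ≤ avg (box c l) fun x => Real.exp (g x) := by
  rw [avg_eq, avg_eq]
  exact convexOn_exp.map_set_average_le Real.continuous_exp.continuousOn isClosed_univ
    (by
      have := real_box_pos c hl
      intro h0
      rw [Measure.real, h0] at this
      simp at this)
    (vol_box_ne_top c hl.le) (Eventually.of_forall fun x => mem_univ _) hg he

theorem log_int {p : ℝ} (h : Wt p w) (c : Fin n → ℝ) (l : ℝ) :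
    IntegrableOn (fun x => Real.log (w x)) (box c l) volume := by
  have hp1 : 0 < p - 1 := by have := h.hp; linarith
  have h1 := intOn_box h.wt.2 c l
  have h2 := intOn_box h.st.2 c l
  apply Integrable.mono' (g := fun x => w x + (p - 1) * dual p w x)
    (h1.add (h2.const_mul (p - 1)))
  · exact (Real.measurable_log.comp_aemeasurable
      h.wt.2.aestronglyMeasurable.aemeasurable).aestronglyMeasurable.restrict
  · apply Eventually.of_forall
    intro x
    have hw0 := h.wt.1 x
    have hs0 := h.st.1 x
    have h3 : Real.log (w x) ≤ w x := (Real.log_le_sub_one_of_pos hw0).trans (by linarith)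
    have h4 : Real.log (dual p w x) ≤ dual p w x :=
      (Real.log_le_sub_one_of_pos hs0).trans (by linarith)
    have h5 : Real.log (dual p w x) = -(1 / (p - 1)) * Real.log (w x) := by
      rw [dual_eq h.hp, Real.log_rpow hw0]
    have h6 : -Real.log (w x) = (p - 1) * Real.log (dual p w x) := by
      rw [h5]; field_simp
    rw [Real.norm_eq_abs, abs_le]
    have h7 := mul_le_mul_of_nonneg_left h4 hp1.le
    have h8 : 0 ≤ (p - 1) * dual p w x := by positivity
    constructor
    · linarith
    · linarith

theorem avg_neg (Q : Set (Pt n)) (f : Fn n) : avg Q (fun x => -f x) = -avg Q f := by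
  unfold avg
  rw [integral_neg, mul_neg]

theorem avg_mul (Q : Set (Pt n)) (f : Fn n) (r : ℝ) : avg Q (fun x => r * f x) = r * avg Q f := by
  unfold avg
  rw [integral_const_mul]
  ring

theorem Aexp_eq (Q : Set (Pt n)) (w : Fn n) :
    Aexp w Q = avg Q w * Real.exp (-avg Q fun x => Real.log (w x)) := by
  unfold Aexp
  congr 2
  rw [← avg_neg]
  congr 1
  funext x
  rw [Real.log_inv]

theorem Aexp_box_cube (c : Fin n → ℝ) (l : ℝ) (w : Fn n) :
    Aexp w (box c l) = Aexp w (cube c l) := by
  unfold Aexp
  rw [avg_box_cube, avg_box_cube]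

theorem Aexp_pos (hw : IsWeight w) {c : Fin n → ℝ} {l : ℝ} (hl : 0 < l) :
    0 < Aexp w (cube c l) := by
  unfold Aexp
  exact mul_pos (den_pos' hw hl) (Real.exp_pos _)

/-- `A_∞^exp ≤ A_p` -/
theorem Aexp_le {p : ℝ} (h : Wt p w) {c : Fin n → ℝ} {l : ℝ} (hl : 0 < l) :
    Aexp w (cube c l) ≤ Aq p w (cube c l) := by
  have hp1 : 0 < p - 1 := by have := h.hp; linarith
  rw [← Aexp_box_cube, Aexp_eq]
  unfold Aq
  rw [← avg_box_cube, ← avg_box_cube]
  have h0 : 0 < avg (box c l) w := by rw [avg_box_cube]; exact den_pos' h.wt hl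
  apply mul_le_mul_of_nonneg_left _ h0.le
  have hlog := log_int h c l
  have e1 : ∀ x, dual p w x = Real.exp (-(1 / (p - 1)) * Real.log (w x)) := by
    intro x
    rw [dual_eq h.hp, Real.rpow_def_of_pos (h.wt.1 x), mul_comm]
  have hj := jensen c hl (g := fun x => -(1 / (p - 1)) * Real.log (w x)) (hlog.const_mul _)
    (by
      have h2 := intOn_box h.st.2 c l
      refine h2.congr_fun (fun x _ => e1 x) (measurableSet_box _ _))
  rw [avg_mul] at hj
  have e2 : (fun x => Real.exp (-(1 / (p - 1)) * Real.log (w x))) = dual p w := by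
    funext x; exact (e1 x).symm
  rw [e2] at hj
  calc Real.exp (-avg (box c l) fun x => Real.log (w x))
      = Real.exp (-(1 / (p - 1)) * avg (box c l) fun x => Real.log (w x)) ^ (p - 1) := by
        rw [← Real.exp_mul]
        congr 1
        field_simp
    _ ≤ _ := Real.rpow_le_rpow (Real.exp_pos _).le hj hp1.le

/-- the square root -/
noncomputable def sq (w : Fn n) : Fn n := fun x => Real.sqrt (w x)

theorem sq_eq (hw : IsWeight w) (x : Pt n) : sq w x = Real.exp (1 / 2 * Real.log (w x)) := by
  unfold sq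
  rw [Real.sqrt_eq_rpow, Real.rpow_def_of_pos (hw.1 x), mul_comm]

theorem sq_sq (hw : IsWeight w) (x : Pt n) : sq w x ^ 2 = w x := Real.sq_sqrt (hw.1 x).le

theorem sq_meas (hw : IsWeight w) : AEStronglyMeasurable (sq w) volume :=
  Real.continuous_sqrt.comp_aestronglyMeasurable hw.2.aestronglyMeasurable

theorem sq_memLp (hw : IsWeight w) (hi : IntegrableOn w B volume) :
    MemLp (sq w) 2 (volume.restrict B) := by
  rw [memLp_two_iff_integrable_sq (sq_meas hw).restrict]
  refine hi.congr (Eventually.of_forall fun x => ?_)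
  exact (sq_sq hw x).symm

theorem sq_intOn (hw : IsWeight w) (c : Fin n → ℝ) {l : ℝ} (hl : 0 < l) :
    IntegrableOn (sq w) (box c l) volume := by
  have : IsFiniteMeasure ((volume : Measure (Pt n)).restrict (box c l)) :=
    ⟨by rw [Measure.restrict_apply_univ]; exact (vol_box_ne_top c hl.le).lt_top⟩
  exact (sq_memLp hw (intOn_box hw.2 c l)).integrable (by norm_num)

/-- the lower bound of `A_∞^exp` -/
theorem Aexp_ge {p : ℝ} (h : Wt p w) {c : Fin n → ℝ} {l : ℝ} (hl : 0 < l) :
    avg (box c l) w ≤ Aexp w (cube c l) * avg (box c l) (sq w) ^ 2 := by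
  rw [← Aexp_box_cube, Aexp_eq]
  have h0 : 0 < avg (box c l) w := by rw [avg_box_cube]; exact den_pos' h.wt hl
  have hlog := log_int h c l
  have e2 : (fun x => Real.exp (1 / 2 * Real.log (w x))) = sq w := by
    funext x; exact (sq_eq h.wt x).symm
  have hj := jensen c hl (g := fun x => 1 / 2 * Real.log (w x)) (hlog.const_mul _)
    (by rw [e2]; exact sq_intOn h.wt c hl)
  rw [avg_mul, e2] at hj
  have h1 : Real.exp (avg (box c l) fun x => Real.log (w x)) ≤ avg (box c l) (sq w) ^ 2 := by
    calc Real.exp (avg (box c l) fun x => Real.log (w x))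
        = Real.exp (1 / 2 * avg (box c l) fun x => Real.log (w x)) ^ 2 := by
          rw [← Real.exp_nat_mul]
          congr 1
          push_cast
          ring
      _ ≤ _ := pow_le_pow_left₀ (Real.exp_pos _).le hj 2
  calc avg (box c l) w = avg (box c l) w * (Real.exp (-avg (box c l) fun x => Real.log (w x)) *
        Real.exp (avg (box c l) fun x => Real.log (w x))) := by
        rw [← Real.exp_add]; simp
    _ ≤ avg (box c l) w * (Real.exp (-avg (box c l) fun x => Real.log (w x)) *
        avg (box c l) (sq w) ^ 2) := by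
        apply mul_le_mul_of_nonneg_left _ h0.le
        exact mul_le_mul_of_nonneg_left h1 (Real.exp_pos _).le
    _ = _ := by ring

end Pool.Agent.Helper51.Sp
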