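import Pool.Agent.Helper51.SPInd
import Pool.Agent.Helper51.SPSum
import Pool.Agent.Helper51.SPWt

/-! The classes of triples of a sparse family, seen by a pair of dual weights. -/

open MeasureTheory Set Filter Topology
open scoped ENNReal NNReal

namespace Pool.Agent.Helper51.Sp

open Mixed

variable {n : ℕ} {a : Fin n → ℝ} {h : ℝ} {F : Finset (Ix n)} {p : ℝ} {w : Fn n}

open Classical in
/-- the triples of one class -/
noncomputable def Sc (a : Fin n → ℝ) (h : ℝ) (F : Finset (Ix n)) (c : Fin n → ZMod 3) :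
    Finset (Set (Pt n)) := (F.filter fun k => cls k = c).image (tb a h)

theorem mem_Sc {c : Fin n → ZMod 3} {Q : Set (Pt n)} :
    Q ∈ Sc a h F c ↔ ∃ k ∈ F, cls k = c ∧ tb a h k = Q := by
  classical
  unfold Sc
  rw [Finset.mem_image]
  constructor
  · rintro ⟨k, hk, he⟩
    rw [Finset.mem_filter] at hk
    exact ⟨k, hk.1, hk.2, he⟩
  · rintro ⟨k, hk, hc, he⟩
    exact ⟨k, Finset.mem_filter.mpr ⟨hk, hc⟩, he⟩

/-- the region -/
noncomputable def reg (a : Fin n → ℝ) (h : ℝ) : Set (Pt n) := tb a h (z0 n)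

theorem measurableSet_reg (a : Fin n → ℝ) (h : ℝ) : MeasurableSet (reg a h) :=
  measurableSet_tb _ _ _

theorem sub_reg (hh : 0 < h) (hok : ∀ k ∈ F, Ok k) {c : Fin n → ZMod 3} {Q : Set (Pt n)}
    (hQ : Q ∈ Sc a h F c) : Q ⊆ reg a h := by
  obtain ⟨k, hk, _, rfl⟩ := mem_Sc.mp hQ
  exact (hok k hk).tsubset hh

/-- members of the family are cubes -/
theorem Sc_box (hh : 0 < h) {c : Fin n → ZMod 3} {Q : Set (Pt n)}
    (hQ : Q ∈ Sc a h F c) : ∃ (b : Fin n → ℝ) (l : ℝ), 0 < l ∧ Q = box b l := by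
  obtain ⟨k, _, _, rfl⟩ := mem_Sc.mp hQ
  exact ⟨_, _, by have := sd_pos hh k; positivity, rfl⟩

theorem intOn_reg {f : Fn n} (hf : LocallyIntegrable f volume) (a : Fin n → ℝ) (h : ℝ) :
    IntegrableOn f (reg a h) volume := intOn_box hf _ _

/-- the unweighted measure -/
noncomputable def mu (a : Fin n → ℝ) (h : ℝ) : Measure (Pt n) := volume.restrict (reg a h)

/-- the weighted measure -/
noncomputable def mw (a : Fin n → ℝ) (h : ℝ) (w : Fn n) : Measure (Pt n) :=
  (wm w).restrict (reg a h)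

theorem fin_mu (a : Fin n → ℝ) (hh : 0 < h) : IsFiniteMeasure (mu a h) := by
  refine ⟨?_⟩
  unfold mu
  rw [Measure.restrict_apply_univ]
  exact (vol_box_ne_top _ (by have := sd_pos hh (z0 n); positivity)).lt_top

theorem fin_mw (a : Fin n → ℝ) (h : ℝ) {w : Fn n} (hw : IsWeight w) :
    IsFiniteMeasure (mw a h w) := fin_wr (measurableSet_reg a h) (intOn_reg hw.2 a h)

theorem real_mu {Q : Set (Pt n)} (hQ : MeasurableSet Q) (hQB : Q ⊆ reg a h) :
    (mu a h).real Q = volume.real Q := real_vr hQ hQB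

theorem real_mw (hw : IsWeight w) {Q : Set (Pt n)} (hQ : MeasurableSet Q)
    (hQB : Q ⊆ reg a h) : (mw a h w).real Q = ∫ x in Q, w x :=
  real_wr hw (measurableSet_reg a h) hQ hQB

open Classical in
/-- the Carleson condition for the triples -/
theorem carl_Sc [NeZero n] (hh : 0 < h) (hok : ∀ k ∈ F, Ok k)
    (hcar : ∀ R, MeasurableSet R → cars a h F R ≤ 2 * volume R) (c : Fin n → ZMod 3) :
    Carl (Sc a h F c) (mu a h).real (2 * 3 ^ n) := by
  intro R hR
  obtain ⟨k0, hk0, hc0, rfl⟩ := mem_Sc.mp hR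
  have hRm := measurableSet_tb a h k0
  have h1 : sub (Sc a h F c) (tb a h k0) =
      ((F.filter fun k => cls k = c).filter fun k => tb a h k ⊆ tb a h k0).image (tb a h) := by
    ext Q
    rw [mem_sub]
    unfold Sc
    simp only [Finset.mem_image, Finset.mem_filter]
    constructor
    · rintro ⟨⟨k, hk, rfl⟩, hsub⟩
      exact ⟨k, ⟨hk, hsub⟩, rfl⟩
    · rintro ⟨k, ⟨hk, hsub⟩, rfl⟩
      exact ⟨⟨k, hk, rfl⟩, hsub⟩
  rw [h1, Finset.sum_image (fun k _ l _ he => tb_inj hh he),
    real_mu hRm ((hok k0 hk0).tsubset hh)]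
  have h2 : ∑ k ∈ F.filter (fun k => cb a h k ⊆ tb a h k0), sd h k ^ n ≤
      2 * volume.real (tb a h k0) := by
    have h3 := hcar (tb a h k0) hRm
    have h4 : cars a h F (tb a h k0) =
        ENNReal.ofReal (∑ k ∈ F.filter (fun k => cb a h k ⊆ tb a h k0), sd h k ^ n) := by
      unfold cars
      rw [← Finset.sum_filter, ENNReal.ofReal_sum_of_nonneg]
      intro k _
      have := sd_pos hh k
      positivity
    rw [h4] at h3
    have h5 : volume (tb a h k0) ≠ ∞ := by rw [vol_tb hh]; exact ENNReal.ofReal_ne_top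
    have h6 : (2 : ℝ≥0∞) * volume (tb a h k0) = ENNReal.ofReal (2 * volume.real (tb a h k0)) := by
      rw [ENNReal.ofReal_mul (by norm_num), Measure.real, ENNReal.ofReal_toReal h5]
      norm_num
    rw [h6, ENNReal.ofReal_le_ofReal_iff (by positivity)] at h3
    exact h3
  calc ∑ k ∈ (F.filter fun k => cls k = c).filter (fun k => tb a h k ⊆ tb a h k0),
        (mu a h).real (tb a h k)
      = ∑ k ∈ (F.filter fun k => cls k = c).filter (fun k => tb a h k ⊆ tb a h k0),
        3 ^ n * sd h k ^ n := by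
        apply Finset.sum_congr rfl
        intro k hk
        rw [Finset.mem_filter, Finset.mem_filter] at hk
        rw [real_mu (measurableSet_tb _ _ _) ((hok k hk.1.1).tsubset hh), real_tb hh]
    _ ≤ ∑ k ∈ F.filter (fun k => cb a h k ⊆ tb a h k0), 3 ^ n * sd h k ^ n := by
        apply Finset.sum_le_sum_of_subset_of_nonneg
        · intro k hk
          rw [Finset.mem_filter, Finset.mem_filter] at hk
          rw [Finset.mem_filter]
          exact ⟨hk.1.1, (cb_subset_tb hh k).trans hk.2⟩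
        · intro k _ _
          have := sd_pos hh k
          positivity
    _ = 3 ^ n * ∑ k ∈ F.filter (fun k => cb a h k ⊆ tb a h k0), sd h k ^ n := by
        rw [Finset.mul_sum]
    _ ≤ 3 ^ n * (2 * volume.real (tb a h k0)) := mul_le_mul_of_nonneg_left h2 (by positivity)
    _ = _ := by ring

theorem fam_Sc [NeZero n] (hh : 0 < h) (hok : ∀ k ∈ F, Ok k)
    (hcar : ∀ R, MeasurableSet R → cars a h F R ≤ 2 * volume R) (c : Fin n → ZMod 3)
    {u v : Fn n} (hu : IsWeight u) (hv : IsWeight v) :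
    Fam (mu a h) (mw a h u) (mw a h v) (Sc a h F c) (2 * 3 ^ n) := by
  have hms : ∀ Q ∈ Sc a h F c, MeasurableSet Q := by
    intro Q hQ
    obtain ⟨b, l, _, rfl⟩ := Sc_box hh hQ
    exact measurableSet_box _ _
  have hpos : ∀ (g : Fn n), IsWeight g → ∀ Q ∈ Sc a h F c, 0 < (mw a h g).real Q := by
    intro g hg Q hQ
    rw [real_mw hg (hms Q hQ) (sub_reg hh hok hQ)]
    obtain ⟨b, l, hl, rfl⟩ := Sc_box hh hQ
    exact avg_box_pos hg.1 hg.2 b hl
  refine ⟨⟨?_, ?_⟩, hms, ?_, hpos u hu, hpos v hv, carl_Sc hh hok hcar c⟩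
  · intro Q hQ R hR
    obtain ⟨k, _, hc, rfl⟩ := mem_Sc.mp hQ
    obtain ⟨l, _, hc', rfl⟩ := mem_Sc.mp hR
    exact tb_lam hh (hc.trans hc'.symm)
  · intro Q hQ
    obtain ⟨k, _, _, rfl⟩ := mem_Sc.mp hQ
    exact ⟨_, cb_subset_tb hh k (cor_mem_cb hh k)⟩
  · intro Q hQ
    rw [real_mu (hms Q hQ) (sub_reg hh hok hQ)]
    obtain ⟨b, l, hl, rfl⟩ := Sc_box hh hQ
    exact real_box_pos b hl

theorem ainf_Sc (hh : 0 < h) (hok : ∀ k ∈ F, Ok k) (c : Fin n → ZMod 3) (hw : Wt p w) :
    AInf (mu a h) (mw a h w) (Sc a h F c) (Aexp w) := by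
  refine ⟨sq w, sq_memLp hw.wt (intOn_reg hw.wt.2 a h), fun x => Real.sqrt_nonneg _, ?_, ?_, ?_⟩
  · intro Q hQ
    have hsub := sub_reg hh hok hQ
    obtain ⟨b, l, hl, rfl⟩ := Sc_box hh hQ
    unfold mu
    rw [Measure.restrict_restrict (measurableSet_box _ _), inter_eq_left.mpr hsub,
      setIntegral_pos_iff_support_of_nonneg_ae]
    · have : Function.support (sq w) = Set.univ := by
        ext x
        have h1 : sq w x ≠ 0 := (Real.sqrt_pos.mpr (hw.wt.1 x)).ne'
        simp [h1]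
      rw [this, Set.univ_inter, vol_box b hl.le]
      exact ENNReal.ofReal_pos.mpr (by positivity)
    · exact Eventually.of_forall fun x => Real.sqrt_nonneg _
    · exact sq_intOn hw.wt b hl
  · intro R hR
    unfold mu mw
    rw [Measure.restrict_restrict hR, real_wr' hw.wt (measurableSet_reg a h) hR]
    congr 1
    funext x
    exact sq_sq hw.wt x
  · intro Q hQ
    have hsub := sub_reg hh hok hQ
    obtain ⟨b, l, hl, rfl⟩ := Sc_box hh hQ
    have hm := measurableSet_box b l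
    rw [real_mw hw.wt hm hsub, real_mu hm hsub]
    have h1 := Aexp_ge hw (c := b) hl
    have hvp := real_box_pos b hl
    have h2 : av (mu a h) (sq w) (box b l) = avg (box b l) (sq w) := by
      unfold av mu
      rw [Measure.restrict_restrict hm, inter_eq_left.mpr hsub, real_vr hm hsub, div_eq_inv_mul]
      rfl
    rw [h2, Aexp_box_cube]
    have h3 : ∫ x in box b l, w x = avg (box b l) w * volume.real (box b l) := by
      unfold avg
      have : (vol n (box b l)).toReal = volume.real (box b l) := rfl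
      rw [this]
      field_simp
    rw [h3]
    calc avg (box b l) w * volume.real (box b l)
        ≤ Aexp w (cube b l) * avg (box b l) (sq w) ^ 2 * volume.real (box b l) :=
          mul_le_mul_of_nonneg_right h1 hvp.le
      _ = _ := by ring

theorem Apq_Sc (hh : 0 < h) (hok : ∀ k ∈ F, Ok k) {c : Fin n → ZMod 3} (hw : Wt p w)
    {Q : Set (Pt n)} (hQ : Q ∈ Sc a h F c) : ∃ (b : Fin n → ℝ) (l : ℝ), 0 < l ∧
      Apq p (mw a h w) (mw a h (dual p w)) (mu a h) Q = Aq p w (cube b l) ∧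
      Aexp w Q = Aexp w (cube b l) := by
  have hsub := sub_reg hh hok hQ
  obtain ⟨b, l, hl, rfl⟩ := Sc_box hh hQ
  refine ⟨b, l, hl, ?_, Aexp_box_cube b l w⟩
  unfold Apq Aq mw mu
  rw [den_wr hw.wt (measurableSet_reg a h) hsub, den_wr hw.st (measurableSet_reg a h) hsub]

end Pool.Agent.Helper51.Sp
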