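import Pool.Agent.Helper51.SPOne2

/-! The sparse domination principle, by induction on the number of steps. -/

open MeasureTheory Set Filter Topology
open scoped ENNReal NNReal

namespace Pool.Agent.Helper51.Sp

open Mixed

variable {n : ℕ} {T : Fn n → Fn n} {K : Pt n → Pt n → ℝ} {C2 Ck δ : ℝ}
variable {a : Fin n → ℝ} {h : ℝ}

/-- change of base -/
def sh (k l : Ix n) : Ix n := (k.1 + l.1, fun i => 2 ^ l.1 * k.2 i + l.2 i)

theorem sd_sh (h : ℝ) (k l : Ix n) : sd h (sh k l) = sd (sd h k) l := by
  unfold sd sh
  simp only
  rw [pow_add, div_div]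

theorem cor_sh (a : Fin n → ℝ) (h : ℝ) (k l : Ix n) :
    cor a h (sh k l) = cor (cor a h k) (sd h k) l := by
  funext i
  unfold cor
  rw [sd_sh]
  have e : sd (sd h k) l = sd h k / 2 ^ l.1 := rfl
  rw [e]
  unfold sh
  simp only
  push_cast
  field_simp
  ring

theorem cb_sh (a : Fin n → ℝ) (h : ℝ) (k l : Ix n) :
    cb a h (sh k l) = cb (cor a h k) (sd h k) l := by
  unfold cb
  rw [cor_sh, sd_sh]

theorem tb_sh (a : Fin n → ℝ) (h : ℝ) (k l : Ix n) :
    tb a h (sh k l) = tb (cor a h k) (sd h k) l := by
  unfold tb
  rw [cor_sh, sd_sh]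

theorem sh_z0 (k : Ix n) : sh k (z0 n) = k := by
  unfold sh
  apply Prod.ext
  · simp
  · funext i
    simp

theorem tb_z0 (a : Fin n → ℝ) (h : ℝ) (k : Ix n) :
    tb (cor a h k) (sd h k) (z0 n) = tb a h k := by
  rw [← tb_sh, sh_z0]

theorem av3_sh (f : Fn n) (a : Fin n → ℝ) (h : ℝ) (k l : Ix n) :
    av3 f a h (sh k l) = av3 f (cor a h k) (sd h k) l := by
  unfold av3
  rw [tb_sh]

theorem Ok.sh {k l : Ix n} (hk : Ok k) (hl : Ok l) : Ok (Sp.sh k l) := by
  intro i
  obtain ⟨h1, h2⟩ := hk i
  obtain ⟨h3, h4⟩ := hl i
  unfold Sp.sh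
  simp only
  have hp : (0 : ℤ) < 2 ^ l.1 := by positivity
  constructor
  · positivity
  · rw [pow_add]
    have h5 : k.2 i + 1 ≤ 2 ^ k.1 := h2
    have h6 := mul_le_mul_of_nonneg_left h5 hp.le
    calc 2 ^ l.1 * k.2 i + l.2 i < 2 ^ l.1 * k.2 i + 2 ^ l.1 := by linarith
      _ = 2 ^ l.1 * (k.2 i + 1) := by ring
      _ ≤ 2 ^ l.1 * 2 ^ k.1 := h6
      _ = _ := by ring

theorem sh_inj (k : Ix n) : Function.Injective (sh k) := by
  intro l l' he
  unfold sh at he
  have h1 : k.1 + l.1 = k.1 + l'.1 := congrArg Prod.fst he
  have h2 : l.1 = l'.1 := by omega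
  apply Prod.ext h2
  funext i
  have h3 := congrFun (congrArg Prod.snd he) i
  simp only at h3
  rw [h2] at h3
  omega

/-- sums over unions -/
theorem sum_biUnion_le' {ι κ : Type*} [DecidableEq κ] (s : Finset ι) (t : ι → Finset κ)
    (w : κ → ℝ≥0∞) :
    ∑ j ∈ s.biUnion t, w j ≤ ∑ i ∈ s, ∑ j ∈ t i, w j := by
  classical
  induction s using Finset.induction_on with
  | empty => simp
  | insert i s hi ih =>
    rw [Finset.biUnion_insert, Finset.sum_insert hi]
    refine le_trans ?_ (add_le_add_right ih _)
    rw [← Finset.sum_union_inter]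
    exact le_self_add

open Classical in
/-- the Carleson sum -/
noncomputable def cars (a : Fin n → ℝ) (h : ℝ) (F : Finset (Ix n)) (R : Set (Pt n)) : ℝ≥0∞ :=
  ∑ k ∈ F, if cb a h k ⊆ R then ENNReal.ofReal (sd h k ^ n) else 0

/-- the sparse operator -/
noncomputable def spo (f : Fn n) (a : Fin n → ℝ) (h : ℝ) (F : Finset (Ix n)) (x : Pt n) : ℝ :=
  ∑ k ∈ F, (cb a h k).indicator (fun _ => av3 f a h k) x

theorem spo_mono {f : Fn n} {F F' : Finset (Ix n)} (hs : F ⊆ F') (x : Pt n) :
    spo f a h F x ≤ spo f a h F' x :=
  Finset.sum_le_sum_of_subset_of_nonneg hs fun k _ _ =>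
    indicator_nonneg (fun _ _ => av3_nonneg f a h k) _

open Classical in
/-- **the sparse domination principle**, `N` steps -/
theorem Opr.sparse_step [NeZero n] (hO : Opr T K C2 Ck δ) {f : Fn n} (hf : IsTest f) {ε : ℝ}
    (hε : 0 < ε) (N : ℕ) : ∀ (a : Fin n → ℝ) (h : ℝ), 0 < h →
    ∃ F : Finset (Ix n), (∀ k ∈ F, Ok k) ∧
      (∀ R, MeasurableSet R → cars a h F R ≤ 2 * volume R) ∧
      volume {x | x ∈ box a h ∧ c3 n C2 Ck δ * spo f a h F x <
        |T ((tb a h (z0 n)).indicator f) x|} ≤ ENNReal.ofReal (((1 / 2) ^ N + 2 * ε) * h ^ n) := by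
  induction N with
  | zero =>
    intro a h hh
    refine ⟨∅, by simp, fun R _ => by unfold cars; simp, ?_⟩
    calc volume {x | x ∈ box a h ∧ c3 n C2 Ck δ * spo f a h ∅ x <
          |T ((tb a h (z0 n)).indicator f) x|} ≤ volume (box a h) :=
          measure_mono fun x hx => hx.1
      _ = ENNReal.ofReal (h ^ n) := vol_box a hh.le
      _ ≤ _ := by
          apply ENNReal.ofReal_le_ofReal
          rw [pow_zero]
          have : 0 < h ^ n := pow_pos hh n
          nlinarith
  | succ N ih =>
    intro a h hh
    have hhn : 0 < h ^ n := pow_pos hh n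
    obtain ⟨M, hM1, hM2, hM3, hM4⟩ := hO.one_step a hh hf (ε := ENNReal.ofReal (ε * h ^ n))
      (ENNReal.ofReal_pos.mpr (by positivity))
    have hih := fun k : Ix n => ih (cor a h k) (sd h k) (sd_pos hh k)
    choose Fk hF1 hF2 hF3 using hih
    have hc3 : 0 ≤ c3 n C2 Ck δ := by
      unfold c3
      have h1 := hO.thA_ge
      have h2 := hO.oc_nonneg
      have h3 : 0 ≤ thA n C2 Ck δ := by linarith
      positivity
    set B : Finset (Ix n) := M.biUnion fun k => (Fk k).image (sh k) with hB
    have hz : ∀ k ∈ M, z0 n ∉ (Fk k).image (sh k) := by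
      intro k hk hmem
      obtain ⟨l, _, hl2⟩ := Finset.mem_image.mp hmem
      have h1 : k.1 + l.1 = 0 := congrArg Prod.fst hl2
      have := (hM1 k hk).2
      omega
    have hzB : z0 n ∉ B := by
      intro hmem
      obtain ⟨k, hk, hk2⟩ := Finset.mem_biUnion.mp hmem
      exact hz k hk hk2
    refine ⟨insert (z0 n) B, ?_, ?_, ?_⟩
    · intro k hk
      rcases Finset.mem_insert.mp hk with h1 | h1
      · rw [h1]; exact Ok.zero
      · obtain ⟨j, hj, hj2⟩ := Finset.mem_biUnion.mp h1
        obtain ⟨l, hl1, hl2⟩ := Finset.mem_image.mp hj2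
        rw [← hl2]
        exact (hM1 j hj).1.sh (hF1 j l hl1)
    · intro R hR
      have h1 : cars a h (insert (z0 n) B) R = (if cb a h (z0 n) ⊆ R then
          ENNReal.ofReal (sd h (z0 n) ^ n) else 0) + cars a h B R := by
        unfold cars
        rw [Finset.sum_insert hzB]
      have h2 : cars a h B R ≤ ∑ k ∈ M, cars (cor a h k) (sd h k) (Fk k) R := by
        have h2a := sum_biUnion_le' M (fun k => (Fk k).image (sh k))
          (fun k => if cb a h k ⊆ R then ENNReal.ofReal (sd h k ^ n) else 0)
        unfold cars
        refine le_trans (le_of_eq ?_) (h2a.trans ?_)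
        · rfl
        apply Finset.sum_le_sum
        intro k _
        rw [Finset.sum_image (fun l _ l' _ h => sh_inj k h)]
        apply Finset.sum_le_sum
        intro l _
        rw [cb_sh, sd_sh]
      have h3 : ∀ k ∈ M, cars (cor a h k) (sd h k) (Fk k) R ≤ 2 * volume (R ∩ cb a h k) := by
        intro k _
        refine le_trans ?_ (hF2 k (R ∩ cb a h k) (hR.inter (measurableSet_cb _ _ _)))
        unfold cars
        apply Finset.sum_le_sum
        intro l hl
        by_cases h4 : cb (cor a h k) (sd h k) l ⊆ R
        · have h5 : cb (cor a h k) (sd h k) l ⊆ R ∩ cb a h k :=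
            subset_inter h4 ((hF1 k l hl).subset (sd_pos hh k))
          rw [if_pos h4, if_pos h5]
        · rw [if_neg h4]
          exact zero_le
      rw [h1]
      by_cases h4 : cb a h (z0 n) ⊆ R
      · rw [if_pos h4, sd_z0]
        have h5 : ∀ k ∈ M, cars (cor a h k) (sd h k) (Fk k) R ≤
            ENNReal.ofReal (2 * sd h k ^ n) := by
          intro k hk
          refine (h3 k hk).trans ?_
          have h6 : volume (R ∩ cb a h k) ≤ ENNReal.ofReal (sd h k ^ n) := by
            rw [← vol_cb hh k]
            exact measure_mono inter_subset_right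
          calc 2 * volume (R ∩ cb a h k) ≤ 2 * ENNReal.ofReal (sd h k ^ n) :=
                mul_le_mul_right h6 _
            _ = _ := by
                rw [ENNReal.ofReal_mul (by norm_num)]
                norm_num
        have h7 : cars a h B R ≤ ENNReal.ofReal (h ^ n) := by
          calc cars a h B R ≤ ∑ k ∈ M, ENNReal.ofReal (2 * sd h k ^ n) :=
                h2.trans (Finset.sum_le_sum h5)
            _ = ENNReal.ofReal (∑ k ∈ M, 2 * sd h k ^ n) := by
                rw [ENNReal.ofReal_sum_of_nonneg]
                intro k _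
                have := sd_pos hh k
                positivity
            _ ≤ _ := by
                apply ENNReal.ofReal_le_ofReal
                rw [← Finset.mul_sum]
                linarith
        calc ENNReal.ofReal (h ^ n) + cars a h B R ≤
              ENNReal.ofReal (h ^ n) + ENNReal.ofReal (h ^ n) := add_le_add_right h7 _
          _ = 2 * volume (cb a h (z0 n)) := by
              rw [vol_cb hh, sd_z0, two_mul]
          _ ≤ _ := mul_le_mul_right (measure_mono h4) _
      · rw [if_neg h4, zero_add]
        calc cars a h B R ≤ ∑ k ∈ M, 2 * volume (R ∩ cb a h k) :=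
              h2.trans (Finset.sum_le_sum h3)
          _ = 2 * volume (⋃ k ∈ M, R ∩ cb a h k) := by
              rw [← Finset.mul_sum, measure_biUnion_finset]
              · intro k hk l hl hne
                exact (hM2 k hk l hl hne).mono inter_subset_right inter_subset_right
              · exact fun k _ => hR.inter (measurableSet_cb _ _ _)
          _ ≤ _ := by
              apply mul_le_mul_right
              apply measure_mono
              exact iUnion₂_subset fun k _ => inter_subset_left
    · set Z : Set (Pt n) := {x | x ∈ box a h ∧ c3 n C2 Ck δ * av3 f a h (z0 n) +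
        ∑ k ∈ M, (cb a h k).indicator (fun x => |T ((tb a h k).indicator f) x|) x <
          |T ((tb a h (z0 n)).indicator f) x|} with hZ
      set Zk : Ix n → Set (Pt n) := fun k => {x | x ∈ box (cor a h k) (sd h k) ∧
        c3 n C2 Ck δ * spo f (cor a h k) (sd h k) (Fk k) x <
        |T ((tb (cor a h k) (sd h k) (z0 n)).indicator f) x|} with hZk
      have hcov : {x | x ∈ box a h ∧ c3 n C2 Ck δ * spo f a h (insert (z0 n) B) x <
          |T ((tb a h (z0 n)).indicator f) x|} ⊆ Z ∪ ⋃ k ∈ M, Zk k := by
        rintro x ⟨hx1, hx2⟩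
        by_contra hcon
        rw [mem_union, not_or] at hcon
        obtain ⟨hc1, hc2⟩ := hcon
        have h1 : |T ((tb a h (z0 n)).indicator f) x| ≤ c3 n C2 Ck δ * av3 f a h (z0 n) +
            ∑ k ∈ M, (cb a h k).indicator (fun x => |T ((tb a h k).indicator f) x|) x := by
          by_contra h2
          exact hc1 ⟨hx1, not_le.mp h2⟩
        have hz1 : (cb a h (z0 n)).indicator (fun _ => av3 f a h (z0 n)) x =
            av3 f a h (z0 n) := by
          rw [indicator_of_mem]
          rw [cb_zero]
          exact hx1
        by_cases hxM : ∃ k ∈ M, x ∈ cb a h k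
        · obtain ⟨k, hk, hxk⟩ := hxM
          have h2 : ∑ k ∈ M, (cb a h k).indicator
              (fun x => |T ((tb a h k).indicator f) x|) x = |T ((tb a h k).indicator f) x| := by
            rw [Finset.sum_eq_single k]
            · rw [indicator_of_mem hxk]
            · intro l hl hlk
              exact indicator_of_notMem
                (fun h => (Set.disjoint_left.mp (hM2 l hl k hk hlk) h) hxk) _
            · exact fun h => absurd hk h
          have h3 : |T ((tb a h k).indicator f) x| ≤
              c3 n C2 Ck δ * spo f (cor a h k) (sd h k) (Fk k) x := by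
            by_contra h4
            apply hc2
            apply mem_iUnion₂.mpr
            refine ⟨k, hk, hxk, ?_⟩
            rw [tb_z0]
            exact not_le.mp h4
          have h4 : spo f (cor a h k) (sd h k) (Fk k) x = spo f a h ((Fk k).image (sh k)) x := by
            unfold spo
            rw [Finset.sum_image (fun l _ l' _ h => sh_inj k h)]
            apply Finset.sum_congr rfl
            intro l _
            rw [cb_sh, av3_sh]
          have h5 : av3 f a h (z0 n) + spo f a h ((Fk k).image (sh k)) x ≤
              spo f a h (insert (z0 n) B) x := by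
            have h6 : av3 f a h (z0 n) + spo f a h ((Fk k).image (sh k)) x =
                spo f a h (insert (z0 n) ((Fk k).image (sh k))) x := by
              unfold spo
              rw [Finset.sum_insert (hz k hk), hz1]
            rw [h6]
            apply spo_mono
            apply Finset.insert_subset_insert
            exact Finset.subset_biUnion_of_mem (fun k => (Fk k).image (sh k)) hk
          rw [h2] at h1
          rw [h4] at h3
          have h6 := mul_le_mul_of_nonneg_left h5 hc3
          rw [mul_add] at h6
          linarith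
        · have h2 : ∑ k ∈ M, (cb a h k).indicator
              (fun x => |T ((tb a h k).indicator f) x|) x = 0 := by
            apply Finset.sum_eq_zero
            intro k hk
            exact indicator_of_notMem (fun h => hxM ⟨k, hk, h⟩) _
          rw [h2, add_zero] at h1
          have h5 : av3 f a h (z0 n) ≤ spo f a h (insert (z0 n) B) x := by
            have h6 : spo f a h {z0 n} x ≤ spo f a h (insert (z0 n) B) x := by
              apply spo_mono
              intro k hk
              rw [Finset.mem_singleton] at hk
              rw [hk]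
              exact Finset.mem_insert_self _ _
            refine le_trans (le_of_eq ?_) h6
            unfold spo
            rw [Finset.sum_singleton, hz1]
          have h6 := mul_le_mul_of_nonneg_left h5 hc3
          linarith
      calc volume {x | x ∈ box a h ∧ c3 n C2 Ck δ * spo f a h (insert (z0 n) B) x <
            |T ((tb a h (z0 n)).indicator f) x|} ≤ volume (Z ∪ ⋃ k ∈ M, Zk k) :=
            measure_mono hcov
        _ ≤ volume Z + volume (⋃ k ∈ M, Zk k) := measure_union_le _ _
        _ ≤ volume Z + ∑ k ∈ M, volume (Zk k) :=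
            add_le_add_right (measure_biUnion_finset_le _ _) _
        _ ≤ ENNReal.ofReal (ε * h ^ n) +
            ∑ k ∈ M, ENNReal.ofReal (((1 / 2) ^ N + 2 * ε) * sd h k ^ n) :=
            add_le_add hM4 (Finset.sum_le_sum fun k _ => hF3 k)
        _ = ENNReal.ofReal (ε * h ^ n + ∑ k ∈ M, ((1 / 2) ^ N + 2 * ε) * sd h k ^ n) := by
            rw [ENNReal.ofReal_add (by positivity), ENNReal.ofReal_sum_of_nonneg]
            · intro k _
              have := sd_pos hh k
              positivity
            · apply Finset.sum_nonneg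
              intro k _
              have := sd_pos hh k
              positivity
        _ ≤ _ := by
            apply ENNReal.ofReal_le_ofReal
            rw [← Finset.mul_sum]
            have h1 : (0 : ℝ) ≤ (1 / 2) ^ N + 2 * ε := by positivity
            have h2 := mul_le_mul_of_nonneg_left hM3 h1
            rw [pow_succ]
            linarith

end Pool.Agent.Helper51.Sp
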