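import Pool.Agent.Helper51.SPGeo

/-! Limiting arguments: removing exceptional sets of small measure and exhausting the space. -/

open MeasureTheory Set Filter Topology
open scoped ENNReal NNReal

namespace Pool.Agent.Helper51.Sp

open Mixed

variable {n : ℕ}

/-- removing exceptional sets of small measure -/
theorem lim_exc {ν : Measure (Pt n)} (hν : ν ≪ (volume : Measure (Pt n))) (A : Set (Pt n))
    (g : Pt n → ℝ≥0∞) {C : ℝ≥0∞}
    (H : ∀ η : ℝ≥0∞, 0 < η → ∃ E : Set (Pt n), volume E ≤ η ∧ ∫⁻ x in A \ E, g x ∂ν ≤ C) :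
    ∫⁻ x in A, g x ∂ν ≤ C := by
  have hη : ∀ j : ℕ, (0 : ℝ≥0∞) < (2⁻¹ : ℝ≥0∞) ^ j := fun j =>
    ENNReal.pow_pos (ENNReal.inv_pos.mpr (by norm_num)) j
  choose E hE1 hE2 using fun j : ℕ => H ((2⁻¹ : ℝ≥0∞) ^ j) (hη j)
  set L : Set (Pt n) := limsup E atTop with hL
  have hL0 : volume L = 0 := by
    apply measure_limsup_atTop_eq_zero
    have h1 : ∑' j, volume (E j) ≤ ∑' j : ℕ, (2⁻¹ : ℝ≥0∞) ^ j := ENNReal.tsum_le_tsum hE1
    rw [ENNReal.tsum_geometric] at h1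
    refine (h1.trans_lt ?_).ne
    rw [ENNReal.one_sub_inv_two, inv_inv]
    exact ENNReal.ofNat_lt_top
  have hνL : ν L = 0 := hν hL0
  set s : ℕ → Set (Pt n) := fun J => A \ ⋃ j ∈ Ici J, E j with hs
  have hmono : Monotone s := by
    intro J J' hJ
    apply sdiff_subset_sdiff_right
    intro x hx
    obtain ⟨j, hj, hxj⟩ := mem_iUnion₂.mp hx
    exact mem_iUnion₂.mpr ⟨j, hJ.trans hj, hxj⟩
  have hU : A \ L ⊆ ⋃ J, s J := by
    rintro x ⟨hxA, hxL⟩
    rw [hL, limsup_eq_iInf_iSup_of_nat] at hxL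
    simp only [iInf_eq_iInter, iSup_eq_iUnion, mem_iInter, not_forall] at hxL
    obtain ⟨J, hJ⟩ := hxL
    exact mem_iUnion.mpr ⟨J, hxA, hJ⟩
  have hbd : ∀ J, ∫⁻ x in s J, g x ∂ν ≤ C := by
    intro J
    refine le_trans (lintegral_mono_set ?_) (hE2 J)
    apply sdiff_subset_sdiff_right
    intro x hx
    exact mem_iUnion₂.mpr ⟨J, self_mem_Ici, hx⟩
  calc ∫⁻ x in A, g x ∂ν = ∫⁻ x in A \ L, g x ∂ν := by
        have h1 : (A \ L : Set (Pt n)) =ᵐ[ν] A := sdiff_null_ae_eq_self hνL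
        rw [Measure.restrict_congr_set h1]
    _ ≤ ∫⁻ x in ⋃ J, s J, g x ∂ν := lintegral_mono_set hU
    _ = ⨆ J, ∫⁻ x in s J, g x ∂ν := setLIntegral_iUnion_of_directed g hmono.directed_le
    _ ≤ C := iSup_le hbd

/-- the cubes exhausting the space -/
def bx (n : ℕ) (j : ℕ) : Set (Pt n) := box (fun _ => -((j : ℝ) + 1)) (2 * ((j : ℝ) + 1))

theorem mem_bx {j : ℕ} {x : Pt n} (hx : ‖x‖ < (j : ℝ) + 1) : x ∈ bx n j := by
  intro i
  have h1 := (norm_le_pi_norm x i).trans_lt hx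
  rw [Real.norm_eq_abs, abs_lt] at h1
  constructor <;> linarith

theorem bx_mono : Monotone (bx n) := by
  intro j j' hj x hx i
  have h1 := hx i
  have h2 : (j : ℝ) ≤ j' := by exact_mod_cast hj
  constructor <;> linarith

theorem bx_univ : ⋃ j, bx n j = univ := by
  rw [eq_univ_iff_forall]
  intro x
  obtain ⟨j, hj⟩ := exists_nat_gt ‖x‖
  exact mem_iUnion.mpr ⟨j, mem_bx (by linarith)⟩

/-- exhausting the space -/
theorem lim_bx {ν : Measure (Pt n)} (g : Pt n → ℝ≥0∞) {C : ℝ≥0∞} (j0 : ℕ)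
    (H : ∀ j, j0 ≤ j → ∫⁻ x in bx n j, g x ∂ν ≤ C) : ∫⁻ x, g x ∂ν ≤ C := by
  rw [← setLIntegral_univ, ← bx_univ, setLIntegral_iUnion_of_directed g bx_mono.directed_le]
  apply iSup_le
  intro j
  exact (lintegral_mono_set (bx_mono (le_max_left j j0))).trans (H _ (le_max_right j j0))

end Pool.Agent.Helper51.Sp
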