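import Pool.Agent.Helper51.CZCone
import Pool.Agent.Helper51.SPEnd
import Pool.Agent.Helper51.SPExt

/-! The weak and the strong bound for `0 < α < 1`, and the full answer. -/

open MeasureTheory Set Filter Topology
open scoped ENNReal NNReal

namespace Pool.Agent.Helper51.Sp

open Mixed

variable {n : ℕ} {T : Fn n → Fn n} {K : Pt n → Pt n → ℝ} {C2 Ck δ : ℝ} {p : ℝ} {w : Fn n}

/-- bounds from a finite mixed constant -/
theorem mixed_real (hw : Wt p w) {θ : ℝ} (hfin : mixed p θ (1 - θ) w ≠ ∞) :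
    0 < (mixed p θ (1 - θ) w).toReal ∧ ∀ b l, 0 < l →
      Aq p w (cube b l) ^ θ * Aexp w (cube b l) ^ (1 - θ) ≤ (mixed p θ (1 - θ) w).toReal := by
  have h1 : ∀ b l, 0 < l → Aq p w (cube b l) ^ θ * Aexp w (cube b l) ^ (1 - θ) ≤
      (mixed p θ (1 - θ) w).toReal := by
    intro b l hl
    have h2 : ENNReal.ofReal (Aq p w (cube b l) ^ θ * Aexp w (cube b l) ^ (1 - θ)) ≤
        mixed p θ (1 - θ) w := by
      unfold mixed
      exact le_iSup_of_le b (le_iSup_of_le l (le_iSup_of_le hl le_rfl))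
    rw [← ENNReal.ofReal_toReal hfin, ENNReal.ofReal_le_ofReal_iff ENNReal.toReal_nonneg] at h2
    exact h2
  refine ⟨lt_of_lt_of_le ?_ (h1 0 1 one_pos), h1⟩
  have h3 : 0 < Aq p w (cube 0 1) :=
    mul_pos (den_pos' hw.wt one_pos) (Real.rpow_pos_of_pos (den_pos' hw.st one_pos) _)
  exact mul_pos (Real.rpow_pos_of_pos h3 _)
    (Real.rpow_pos_of_pos (Aexp_pos hw.wt one_pos) _)

theorem wt_of_ap (hp : 1 < p) (h : IsAp p w) : Wt p w := ⟨hp, h.1, h.2.1⟩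

/-- constant of the weak bound -/
noncomputable def wC (n : ℕ) (p θ c : ℝ) : ℝ :=
  (3 ^ n * cW p θ (2 * 3 ^ n)) ^ (1 / p) * (3 ^ n * c)

theorem weak_final [NeZero n] (hO : Opr T K C2 Ck δ) (hw : Wt p w) {θ : ℝ} (hθ : 1 / p < θ)
    (hfin : mixed p θ (1 - θ) w ≠ ∞) {f : Fn n} (hf : IsTest f) (t : ℝ≥0) :
    t * wm w {x | (t : ℝ) < |T f x|} ^ (1 / p) ≤
      ENNReal.ofReal (wC n p θ (c3 n C2 Ck δ)) * mixed p θ (1 - θ) w * normLp p w f := by
  have hp := hw.hp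
  have hp0 : 0 < p := by linarith
  have h1p : (0 : ℝ) < 1 / p := by positivity
  have hc3 := hO.c3_pos
  obtain ⟨hX0, hX⟩ := mixed_real hw hfin
  set X := (mixed p θ (1 - θ) w).toReal with hXdef
  have hcW := cW_nonneg hp hθ (three_pow (n := n))
  have hTI := TI_nonneg (p := p) hw.wt f
  rcases eq_or_ne t 0 with ht | ht
  · rw [ht]; simp
  · have ht0 : (0 : ℝ) < t := by positivity
    have h1 := hO.weak_dist hw hf hθ hX0 hX ht0
    have h2 : wm w {x | (t : ℝ) < |T f x|} ^ (1 / p) ≤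
        ENNReal.ofReal ((3 ^ n * cW p θ (2 * 3 ^ n)) ^ (1 / p) *
          (3 ^ n * X / (t / c3 n C2 Ck δ)) * TI p w f ^ (1 / p)) := by
      refine (ENNReal.rpow_le_rpow h1 h1p.le).trans (le_of_eq ?_)
      have h3 : 0 ≤ 3 ^ n * X / (t / c3 n C2 Ck δ) := by positivity
      have h4 : 0 ≤ (3 ^ n * X / (t / c3 n C2 Ck δ)) ^ p := Real.rpow_nonneg h3 _
      rw [ENNReal.ofReal_rpow_of_nonneg (by positivity) h1p.le,
        Real.mul_rpow (by positivity) hTI, Real.mul_rpow (by positivity) h4, ← Real.rpow_mul h3,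
        mul_one_div_cancel hp0.ne', Real.rpow_one]
    have ht1 : (t : ℝ≥0∞) = ENNReal.ofReal t := (ENNReal.ofReal_coe_nnreal).symm
    have h5 : 0 ≤ (3 ^ n * cW p θ (2 * 3 ^ n)) ^ (1 / p) := Real.rpow_nonneg (by positivity) _
    have h6 : 0 ≤ TI p w f ^ (1 / p) := Real.rpow_nonneg hTI _
    calc t * wm w {x | (t : ℝ) < |T f x|} ^ (1 / p)
        ≤ ENNReal.ofReal t * ENNReal.ofReal ((3 ^ n * cW p θ (2 * 3 ^ n)) ^ (1 / p) *
          (3 ^ n * X / (t / c3 n C2 Ck δ)) * TI p w f ^ (1 / p)) := by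
          rw [← ht1]
          exact mul_le_mul_right h2 _
      _ = ENNReal.ofReal (wC n p θ (c3 n C2 Ck δ) * X * TI p w f ^ (1 / p)) := by
          rw [← ENNReal.ofReal_mul ht0.le]
          congr 1
          unfold wC
          field_simp
      _ = _ := by
          have h7 : 0 ≤ wC n p θ (c3 n C2 Ck δ) := by
            unfold wC
            positivity
          rw [normLp_eq hw.wt hf hp0, ENNReal.ofReal_mul (by positivity),
            ENNReal.ofReal_mul h7, hXdef, ENNReal.ofReal_toReal hfin]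

/-- constant of the strong bound -/
noncomputable def sC (n : ℕ) (p θ θ' c : ℝ) : ℝ :=
  c * (3 ^ n * (cS2 p θ' (2 * 3 ^ n) + cS1 p θ (2 * 3 ^ n)))

theorem cS1_nonneg {p θ Λ : ℝ} (hp : 1 < p) (hθ : 1 / p < θ) (hΛ : 1 ≤ Λ) : 0 ≤ cS1 p θ Λ := by
  unfold cS1
  have h1 := hC_nonneg (conj_gt hp)
  have h2 := tC_nonneg (θ := θ) hp (by norm_num : (1 : ℝ) ≤ 2) hΛ
  have h3 := geo_const_pos (eta_pos hθ)
  positivity

theorem cS2_nonneg {p θ Λ : ℝ} (hp : 1 < p) (hθ : 1 / conj p < θ) (hΛ : 1 ≤ Λ) :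
    0 ≤ cS2 p θ Λ := by
  unfold cS2
  have hp1 : 0 < p - 1 := by linarith
  have h1 := hC_nonneg hp
  have h2 := tC_nonneg (θ := θ) (conj_gt hp)
    (Real.one_le_rpow (by norm_num : (1 : ℝ) ≤ 2) (by positivity : 0 ≤ 1 / (p - 1))) hΛ
  have h4 : 0 < eta (p / (p - 1)) θ := eta_pos hθ
  have h3 := geo_const_pos (q := eta (p / (p - 1)) θ / (p - 1)) (by positivity)
  positivity

theorem strong_final [NeZero n] (hO : Opr T K C2 Ck δ) (hw : Wt p w) {θ θ' : ℝ}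
    (hθ : 1 / p < θ) (hθ' : 1 / conj p < θ') (hfin : mixed p θ (1 - θ) w ≠ ∞)
    (hfin' : mixed (conj p) θ' (1 - θ') (dual p w) ≠ ∞) {f : Fn n} (hf : IsTest f) :
    normLp p w (T f) ≤ ENNReal.ofReal (sC n p θ θ' (c3 n C2 Ck δ)) *
      (mixed p θ (1 - θ) w + mixed (conj p) θ' (1 - θ') (dual p w)) * normLp p w f := by
  have hp := hw.hp
  have hp0 : 0 < p := by linarith
  have h1p : (0 : ℝ) < 1 / p := by positivity
  have hc3 := hO.c3_pos
  obtain ⟨hX0, hX⟩ := mixed_real hw hfin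
  obtain ⟨hX0', hX'⟩ := mixed_real hw.symm hfin'
  set X := (mixed p θ (1 - θ) w).toReal with hXdef
  set X' := (mixed (conj p) θ' (1 - θ') (dual p w)).toReal with hXdef'
  have hTI := TI_nonneg (p := p) hw.wt f
  have hs1 := cS1_nonneg hp hθ (three_pow (n := n))
  have hs2 := cS2_nonneg hp hθ' (three_pow (n := n))
  have h1 := hO.strong_int hw hf hθ hθ' hX0 hX0' hX hX' (by positivity)
  have hpz : ENNReal.ofReal p ≠ 0 := by rw [Ne, ENNReal.ofReal_eq_zero, not_le]; exact hp0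
  have h2 : normLp p w (T f) = (∫⁻ x, ‖T f x‖ₑ ^ p ∂(wm w)) ^ (1 / p) := by
    unfold normLp
    rw [eLpNorm_eq_lintegral_rpow_enorm_toReal hpz ENNReal.ofReal_ne_top,
      ENNReal.toReal_ofReal hp0.le]
  set D : ℝ := c3 n C2 Ck δ * (3 ^ n * (cS2 p θ' (2 * 3 ^ n) * X' + cS1 p θ (2 * 3 ^ n) * X))
    with hD
  have hD0 : 0 ≤ D := by positivity
  have h3 : normLp p w (T f) ≤ ENNReal.ofReal (D * TI p w f ^ (1 / p)) := by
    rw [h2]
    refine (ENNReal.rpow_le_rpow h1 h1p.le).trans (le_of_eq ?_)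
    rw [ENNReal.ofReal_rpow_of_nonneg (mul_nonneg (Real.rpow_nonneg hD0 _) hTI) h1p.le,
      Real.mul_rpow (Real.rpow_nonneg hD0 _) hTI, ← Real.rpow_mul hD0,
      mul_one_div_cancel hp0.ne', Real.rpow_one]
  have h4 : D ≤ sC n p θ θ' (c3 n C2 Ck δ) * (X + X') := by
    rw [hD]
    unfold sC
    have h5 : cS2 p θ' (2 * 3 ^ n) * X' + cS1 p θ (2 * 3 ^ n) * X ≤
        (cS2 p θ' (2 * 3 ^ n) + cS1 p θ (2 * 3 ^ n)) * (X + X') := by
      nlinarith [mul_nonneg hs1 hX0'.le, mul_nonneg hs2 hX0.le]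
    calc c3 n C2 Ck δ * (3 ^ n * (cS2 p θ' (2 * 3 ^ n) * X' + cS1 p θ (2 * 3 ^ n) * X))
        ≤ c3 n C2 Ck δ * (3 ^ n * ((cS2 p θ' (2 * 3 ^ n) + cS1 p θ (2 * 3 ^ n)) * (X + X'))) := by
          apply mul_le_mul_of_nonneg_left _ hc3.le
          exact mul_le_mul_of_nonneg_left h5 (by positivity)
      _ = _ := by ring
  have h5 : 0 ≤ sC n p θ θ' (c3 n C2 Ck δ) := by
    unfold sC
    positivity
  have h6 : 0 ≤ TI p w f ^ (1 / p) := Real.rpow_nonneg hTI _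
  calc normLp p w (T f) ≤ ENNReal.ofReal (D * TI p w f ^ (1 / p)) := h3
    _ ≤ ENNReal.ofReal (sC n p θ θ' (c3 n C2 Ck δ) * (X + X') * TI p w f ^ (1 / p)) :=
        ENNReal.ofReal_le_ofReal (mul_le_mul_of_nonneg_right h4 h6)
    _ = _ := by
        rw [normLp_eq hw.wt hf hp0, ENNReal.ofReal_mul (by positivity), ENNReal.ofReal_mul h5,
          ENNReal.ofReal_add hX0.le hX0'.le, hXdef, hXdef', ENNReal.ofReal_toReal hfin,
          ENNReal.ofReal_toReal hfin']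

/-- **the weak bound** -/
theorem weakBound [NeZero n] (hT : IsCZO T) (hp : 1 < p) {α : ℝ} (h0 : 0 < α) (h1 : α < 1) :
    WeakBound T p α := by
  obtain ⟨K, C2, Ck, δ, hO⟩ := exists_opr hT
  have hp0 : 0 < p := by linarith
  have hpa : 0 < p - α := by linarith
  have hθ : 1 / p < 1 / (p - α) := one_div_lt_one_div_of_lt hpa (by linarith)
  refine ⟨(wC n p (1 / (p - α)) (c3 n C2 Ck δ)).toNNReal + 1, fun w hw => ?_⟩
  have hw' := wt_of_ap hp hw
  by_cases hfin : mixed p (1 / (p - α)) (1 - 1 / (p - α)) w = ∞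
  · rw [hfin, ENNReal.mul_top]
    · exact le_top
    · exact_mod_cast (by positivity :
        ((wC n p (1 / (p - α)) (c3 n C2 Ck δ)).toNNReal + 1 : ℝ≥0) ≠ 0)
  · apply sInf_le
    intro f hf t
    apply ext_weak hT.1 hp0 _ hf t
    intro f hf t
    refine (weak_final hO hw' hθ hfin hf t).trans ?_
    gcongr
    show ((wC n p (1 / (p - α)) (c3 n C2 Ck δ)).toNNReal : ℝ≥0∞) ≤ _
    exact_mod_cast (le_self_add :
      (wC n p (1 / (p - α)) (c3 n C2 Ck δ)).toNNReal ≤ _ + 1)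

/-- **the strong bound** -/
theorem strongBound [NeZero n] (hT : IsCZO T) (hp : 1 < p) {α : ℝ} (h0 : 0 < α) (h1 : α < 1) :
    StrongBound T p α := by
  obtain ⟨K, C2, Ck, δ, hO⟩ := exists_opr hT
  have hp0 : 0 < p := by linarith
  have hpa : 0 < p - α := by linarith
  have hp' := conj_gt_one hp
  have hpa' : 0 < conj p - α := by linarith
  have hθ : 1 / p < 1 / (p - α) := one_div_lt_one_div_of_lt hpa (by linarith)
  have hθ' : 1 / conj p < 1 / (conj p - α) := one_div_lt_one_div_of_lt hpa' (by linarith)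
  set C : ℝ := sC n p (1 / (p - α)) (1 / (conj p - α)) (c3 n C2 Ck δ) with hC
  refine ⟨C.toNNReal + 1, fun w hw => ?_⟩
  have hw' := wt_of_ap hp hw
  have hne : ((C.toNNReal + 1 : ℝ≥0) : ℝ≥0∞) ≠ 0 := by
    exact_mod_cast (by positivity : (C.toNNReal + 1 : ℝ≥0) ≠ 0)
  by_cases hfin : mixed p (1 / (p - α)) (1 - 1 / (p - α)) w = ∞
  · rw [hfin, top_add, ENNReal.mul_top hne]
    exact le_top
  by_cases hfin' : mixed (conj p) (1 / (conj p - α)) (1 - 1 / (conj p - α)) (dual p w) = ∞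
  · rw [hfin', add_top, ENNReal.mul_top hne]
    exact le_top
  · apply sInf_le
    intro f hf
    apply ext_strong hT.1 _ hf
    intro f hf
    refine (strong_final hO hw' hθ hθ' hfin hfin' hf).trans ?_
    gcongr
    show (C.toNNReal : ℝ≥0∞) ≤ _
    exact_mod_cast (le_self_add : C.toNNReal ≤ _ + 1)

/-- **the answer to Q1** -/
theorem answerWeak (n : ℕ) (hn : 1 ≤ n) :
    (∀ T : Fn n → Fn n, IsCZO T → ∀ p α : ℝ, 1 < p → 0 < α → α < 1 → WeakBound T p α) ∧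
    (∃ T : Fn n → Fn n, IsCZO T ∧ ∀ p, 1 < p → ¬ WeakBound T p 0) ∧
    (∀ (T : Fn n → Fn n) (K : Pt n → Pt n → ℝ) (C δ c₀ : ℝ),
      IsBdd T → IsKernel K C δ → HasKernel T K → 0 < c₀ → ConePositive K c₀ →
      ∀ p, 1 < p → ¬ WeakBound T p 0) := by
  have : NeZero n := ⟨by omega⟩
  obtain ⟨⟨T, hT1, hT2⟩, h2⟩ := endpoint n hn
  exact ⟨fun T hT p α hp h0 h1 => weakBound hT hp h0 h1, ⟨T, hT1, fun p hp => (hT2 p hp).1⟩,
    fun T K C δ c hb hk hr hc hcp p hp => (h2 T K C δ c hb hk hr hc hcp p hp).1⟩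

/-- **the answer to Q2** -/
theorem answerStrong (n : ℕ) (hn : 1 ≤ n) :
    (∀ T : Fn n → Fn n, IsCZO T → ∀ p α : ℝ, 1 < p → 0 < α → α < 1 → StrongBound T p α) ∧
    (∃ T : Fn n → Fn n, IsCZO T ∧ ∀ p, 1 < p → ¬ StrongBound T p 0) ∧
    (∀ (T : Fn n → Fn n) (K : Pt n → Pt n → ℝ) (C δ c₀ : ℝ),
      IsBdd T → IsKernel K C δ → HasKernel T K → 0 < c₀ → ConePositive K c₀ →
      ∀ p, 1 < p → ¬ StrongBound T p 0) := by
  have : NeZero n := ⟨by omega⟩
  obtain ⟨⟨T, hT1, hT2⟩, h2⟩ := endpoint n hn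
  exact ⟨fun T hT p α hp h0 h1 => strongBound hT hp h0 h1, ⟨T, hT1, fun p hp => (hT2 p hp).2⟩,
    fun T K C δ c hb hk hr hc hcp p hp => (h2 T K C δ c hb hk hr hc hcp p hp).2⟩

end Pool.Agent.Helper51.Sp
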