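import Pool.Agent.Helper51.SPOsc

/-! The one-step lemma of the sparse domination. -/

open MeasureTheory Set Filter Topology
open scoped ENNReal NNReal

namespace Pool.Agent.Helper51.Sp

open Mixed

variable {n : ℕ} {T : Fn n → Fn n} {K : Pt n → Pt n → ℝ} {C2 Ck δ : ℝ}
variable {a : Fin n → ℝ} {h : ℝ}

open Classical in
/-- weak type estimate of the maximal function over triples, one class -/
theorem max_class [NeZero n] (hh : 0 < h) {f : Fn n} (hf : IsTest f) {lam : ℝ} (hl : 0 < lam)
    {s : Finset (Ix n)} (hok : ∀ k ∈ s, Ok k) (hs : ∀ k ∈ s, lam < av3 f a h k)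
    (hd : ∀ k ∈ s, ∀ l ∈ s, k ≠ l → Disjoint (cb a h k) (cb a h l)) {c : Fin n → ZMod 3}
    (hc : ∀ k ∈ s, cls k = c) :
    lam * ∑ k ∈ s, sd h k ^ n ≤ ∫ y in tb a h (0, fun _ => 0), |f y| := by
  set M := mx s (tb a h) with hM
  have hMs : ∀ k ∈ M, k ∈ s := fun k hk => (mem_mx.mp hk).1
  have hdis : ∀ k ∈ M, ∀ l ∈ M, k ≠ l → Disjoint (tb a h k) (tb a h l) :=
    fun k hk l hl' hne => mx_disj (fun k hk l hl' => tb_lam hh ((hc k hk).trans (hc l hl').symm))
      hk hl' hne
  have hfi : Integrable (fun y => |f y|) volume := (tst_integrable hf).abs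
  have h1 : ∑ k ∈ s, sd h k ^ n = volume.real (⋃ k ∈ s, cb a h k) := by
    rw [measureReal_biUnion_finset (fun k hk l hl' hne => hd k hk l hl' hne)
      (fun k _ => measurableSet_cb _ _ _)
      (fun k _ => by rw [vol_cb hh]; exact ENNReal.ofReal_ne_top)]
    exact Finset.sum_congr rfl fun k _ => (real_cb hh k).symm
  have h2 : volume.real (⋃ k ∈ s, cb a h k) ≤ volume.real (⋃ l ∈ M, tb a h l) := by
    apply measureReal_mono
    · intro x hx
      obtain ⟨k, hk, hxk⟩ := mem_iUnion₂.mp hx
      obtain ⟨l, hl1, hl2⟩ := mx_cover (C := tb a h) (fun k _ l _ h => tb_inj hh h) hk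
      exact mem_iUnion₂.mpr ⟨l, hl1, hl2 (cb_subset_tb hh k hxk)⟩
    · apply ne_of_lt
      refine (measure_biUnion_finset_le _ _).trans_lt ?_
      apply ENNReal.sum_lt_top.mpr
      intro l _
      rw [vol_tb hh]; exact ENNReal.ofReal_lt_top
  have h3 : volume.real (⋃ l ∈ M, tb a h l) = ∑ l ∈ M, volume.real (tb a h l) := by
    rw [measureReal_biUnion_finset (fun k hk l hl' hne => hdis k hk l hl' hne)
      (fun k _ => measurableSet_tb _ _ _)
      (fun k _ => by rw [vol_tb hh]; exact ENNReal.ofReal_ne_top)]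
  rw [h1]
  calc lam * volume.real (⋃ k ∈ s, cb a h k) ≤ lam * ∑ l ∈ M, volume.real (tb a h l) := by
        rw [← h3]
        exact mul_le_mul_of_nonneg_left h2 hl.le
    _ = ∑ l ∈ M, lam * volume.real (tb a h l) := by rw [Finset.mul_sum]
    _ ≤ ∑ l ∈ M, ∫ y in tb a h l, |f y| := by
        apply Finset.sum_le_sum
        intro l hl'
        rw [int_tb hh, real_tb hh]
        apply mul_le_mul_of_nonneg_right (hs l (hMs l hl')).le
        have := sd_pos hh l
        positivity
    _ = ∫ y in ⋃ l ∈ M, tb a h l, |f y| := by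
        rw [integral_biUnion_finset M (fun k _ => measurableSet_tb _ _ _)
          (fun k hk l hl' hne => hdis k hk l hl' hne) (fun k _ => hfi.integrableOn)]
    _ ≤ _ := by
        apply setIntegral_mono_set hfi.integrableOn (Eventually.of_forall fun x => abs_nonneg _)
        apply LE.le.eventuallyLE
        intro x hx
        obtain ⟨l, hl1, hxl⟩ := mem_iUnion₂.mp hx
        exact (hok l (hMs l hl1)).tsubset hh hxl

open Classical in
/-- weak type estimate of the maximal function over triples -/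
theorem max_all [NeZero n] (hh : 0 < h) {f : Fn n} (hf : IsTest f) {lam : ℝ} (hl : 0 < lam)
    {s : Finset (Ix n)} (hok : ∀ k ∈ s, Ok k) (hs : ∀ k ∈ s, lam < av3 f a h k)
    (hd : ∀ k ∈ s, ∀ l ∈ s, k ≠ l → Disjoint (cb a h k) (cb a h l)) :
    lam * ∑ k ∈ s, sd h k ^ n ≤ 3 ^ n * ∫ y in tb a h (0, fun _ => 0), |f y| := by
  have h1 : ∑ k ∈ s, sd h k ^ n =
      ∑ c : Fin n → ZMod 3, ∑ k ∈ s with cls k = c, sd h k ^ n := by
    rw [Finset.sum_fiberwise]
  rw [h1, Finset.mul_sum]
  calc ∑ c : Fin n → ZMod 3, lam * ∑ k ∈ s with cls k = c, sd h k ^ n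
      ≤ ∑ _c : Fin n → ZMod 3, ∫ y in tb a h (0, fun _ => 0), |f y| := by
        apply Finset.sum_le_sum
        intro c _
        apply max_class hh hf hl (c := c)
        · exact fun k hk => hok k (Finset.mem_filter.mp hk).1
        · exact fun k hk => hs k (Finset.mem_filter.mp hk).1
        · exact fun k hk l hl' => hd k (Finset.mem_filter.mp hk).1 l (Finset.mem_filter.mp hl').1
        · exact fun k hk => (Finset.mem_filter.mp hk).2
    _ = _ := by
        rw [Finset.sum_const, Finset.card_univ, Fintype.card_fun, ZMod.card, Fintype.card_fin,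
          nsmul_eq_mul]
        push_cast
        ring

/-- the density part -/
theorem dens_sum {s : Finset (Ix n)} {E : Set (Pt n)} (hE : volume E ≠ ∞) {th : ℝ}
    (hEm : MeasurableSet E)
    (hs : ∀ k ∈ s, th * sd h k ^ n ≤ volume.real (cb a h k ∩ E))
    (hd : ∀ k ∈ s, ∀ l ∈ s, k ≠ l → Disjoint (cb a h k) (cb a h l)) :
    th * ∑ k ∈ s, sd h k ^ n ≤ volume.real E := by
  rw [Finset.mul_sum]
  calc ∑ k ∈ s, th * sd h k ^ n ≤ ∑ k ∈ s, volume.real (cb a h k ∩ E) := Finset.sum_le_sum hs
    _ = volume.real (⋃ k ∈ s, cb a h k ∩ E) := by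
        rw [measureReal_biUnion_finset (fun k hk l hl' hne =>
            (hd k hk l hl' hne).mono inter_subset_left inter_subset_left)
          (fun k _ => (measurableSet_cb _ _ _).inter hEm)
          (fun k _ => ((measure_mono inter_subset_right).trans_lt hE.lt_top).ne)]
    _ ≤ _ := by
        apply measureReal_mono _ hE
        exact iUnion₂_subset fun k _ => inter_subset_right

end Pool.Agent.Helper51.Sp
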