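import Pool.Agent.Helper51.SPOne

/-! The one-step lemma of the sparse domination: conclusion. -/

open MeasureTheory Set Filter Topology
open scoped ENNReal NNReal

namespace Pool.Agent.Helper51.Sp

open Mixed

variable {n : ℕ} {T : Fn n → Fn n} {K : Pt n → Pt n → ℝ} {C2 Ck δ : ℝ}
variable {a : Fin n → ℝ} {h : ℝ}

/-- the threshold -/
noncomputable def thA (n : ℕ) (C2 Ck δ : ℝ) : ℝ :=
  2 * (2 ^ (n + 1) * 3 ^ n * cw n C2 Ck δ + 9 ^ n) + 1

/-- the constant of the one-step lemma -/
noncomputable def c3 (n : ℕ) (C2 Ck δ : ℝ) : ℝ :=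
  thA n C2 Ck δ + 2 ^ n * thA n C2 Ck δ ^ 2 + 2 * oc n Ck δ * thA n C2 Ck δ

theorem Opr.thA_ge (hO : Opr T K C2 Ck δ) : 1 ≤ thA n C2 Ck δ := by
  unfold thA
  have := hO.cw_nonneg
  have h2 : 0 ≤ 2 * (2 ^ (n + 1) * 3 ^ n * cw n C2 Ck δ + 9 ^ n) := by positivity
  linarith

theorem Opr.thA_small (hO : Opr T K C2 Ck δ) {y : ℝ} (hy : 0 ≤ y) :
    cw n C2 Ck δ / thA n C2 Ck δ * (3 ^ n * y) ≤ 1 / 2 ^ (n + 1) * (1 / 2) * y := by
  have h0 := hO.cw_nonneg
  have h1 := hO.thA_ge
  have h2 : 0 < thA n C2 Ck δ := by linarith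
  have h3 : 2 * (2 ^ (n + 1) * 3 ^ n * cw n C2 Ck δ) ≤ thA n C2 Ck δ := by
    unfold thA
    have : (0 : ℝ) ≤ 9 ^ n := by positivity
    linarith
  have h4 : cw n C2 Ck δ / thA n C2 Ck δ * 3 ^ n ≤ 1 / 2 ^ (n + 1) * (1 / 2) := by
    rw [div_mul_eq_mul_div, div_le_iff₀ h2]
    have h5 : (0 : ℝ) < 2 ^ (n + 1) := by positivity
    have h6 : 1 / (2 : ℝ) ^ (n + 1) * (1 / 2) * (2 * (2 ^ (n + 1) * 3 ^ n * cw n C2 Ck δ)) =
        cw n C2 Ck δ * 3 ^ n := by
      field_simp
    rw [← h6]
    exact mul_le_mul_of_nonneg_left h3 (by positivity)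
  calc cw n C2 Ck δ / thA n C2 Ck δ * (3 ^ n * y) = cw n C2 Ck δ / thA n C2 Ck δ * 3 ^ n * y := by
        ring
    _ ≤ _ := mul_le_mul_of_nonneg_right h4 hy

theorem ind_split {s t : Set (Pt n)} (hst : t ⊆ s) (f : Fn n) (x : Pt n) :
    s.indicator f x = t.indicator f x + (s \ t).indicator f x := by
  by_cases h1 : x ∈ t
  · rw [indicator_of_mem (hst h1), indicator_of_mem h1, indicator_of_notMem (fun h => h.2 h1),
      add_zero]
  · by_cases h2 : x ∈ s
    · rw [indicator_of_mem h2, indicator_of_notMem h1,
        indicator_of_mem (show x ∈ s \ t from ⟨h2, h1⟩), zero_add]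
    · rw [indicator_of_notMem h2, indicator_of_notMem h1, indicator_of_notMem (fun h => h2 h.1),
        add_zero]

/-- the base index -/
abbrev z0 (n : ℕ) : Ix n := (0, fun _ => 0)

theorem sd_z0 (h : ℝ) : sd h (z0 n) = h := by unfold sd; simp

open Classical in
/-- **the one-step lemma** -/
theorem Opr.one_step [NeZero n] (hO : Opr T K C2 Ck δ) (a : Fin n → ℝ) (hh : 0 < h) {f : Fn n}
    (hf : IsTest f) {ε : ℝ≥0∞} (hε : 0 < ε) :
    ∃ M : Finset (Ix n), (∀ k ∈ M, Ok k ∧ k.1 ≠ 0) ∧
      (∀ k ∈ M, ∀ l ∈ M, k ≠ l → Disjoint (cb a h k) (cb a h l)) ∧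
      ∑ k ∈ M, sd h k ^ n ≤ 1 / 2 * h ^ n ∧
      volume {x | x ∈ box a h ∧ c3 n C2 Ck δ * av3 f a h (z0 n) +
        ∑ k ∈ M, (cb a h k).indicator (fun x => |T ((tb a h k).indicator f) x|) x <
          |T ((tb a h (z0 n)).indicator f) x|} ≤ ε := by
  set A := thA n C2 Ck δ with hA
  have hA1 : 1 ≤ A := hO.thA_ge
  have hA0 : 0 < A := by linarith
  have hoc := hO.oc_nonneg
  set m := av3 f a h (z0 n) with hm
  set f0 : Fn n := (tb a h (z0 n)).indicator f with hf0
  have hf0t : IsTest f0 := tst_ind hf (measurableSet_tb _ _ _)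
  have hhn : 0 < h ^ n := pow_pos hh n
  rcases (av3_nonneg f a h (z0 n)).eq_or_lt with hm0 | hm0
  · -- trivial case
    refine ⟨∅, by simp, by simp, by simp; positivity, ?_⟩
    have hI : ∫ x, |f0 x| = 0 := by
      have h1 := int_tb (a := a) hh f (z0 n)
      rw [← hm0, zero_mul, ← integral_indicator (measurableSet_tb _ _ _)] at h1
      rw [← h1]
      congr 1
      funext x
      rw [hf0]
      by_cases hx : x ∈ tb a h (z0 n)
      · rw [indicator_of_mem hx, indicator_of_mem hx]
      · rw [indicator_of_notMem hx, indicator_of_notMem hx, abs_zero]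
    rw [integral_eq_zero_iff_of_nonneg (fun x => abs_nonneg _) (tst_integrable hf0t).abs] at hI
    have h1 : f0 =ᵐ[volume] 0 := by
      filter_upwards [hI] with x hx
      exact abs_eq_zero.mp hx
    have h2 := hO.zero hf0t h1
    have h3 : volume {x | x ∈ box a h ∧ c3 n C2 Ck δ * m +
        ∑ k ∈ (∅ : Finset (Ix n)), (cb a h k).indicator
          (fun x => |T ((tb a h k).indicator f) x|) x < |T f0 x|} = 0 := by
      rw [measure_eq_zero_iff_ae_notMem]
      filter_upwards [h2] with x hx
      rintro ⟨_, h4⟩
      rw [hx, hm, ← hm0] at h4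
      simp at h4
    rw [h3]
    exact zero_le
  · -- main case
    have hm1 : 0 < m := hm0
    -- the measurable representative
    have hTm := (hO.memLp hf0t).1
    set u : Fn n := hTm.mk (T f0) with hu
    have hum : Measurable u := hTm.stronglyMeasurable_mk.measurable
    have hue : T f0 =ᵐ[volume] u := hTm.ae_eq_mk
    set E1 : Set (Pt n) := {x | A * m < |u x|} ∩ box a h with hE1
    have hE1m : MeasurableSet E1 :=
      (measurableSet_lt measurable_const hum.abs).inter (measurableSet_box _ _)
    have hE1v : volume E1 ≤ ENNReal.ofReal (1 / 2 ^ (n + 1) * (1 / 2) * h ^ n) := by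
      have h1 := hO.weakT hh hf (z0 n) (a := a) (A := A) hA1
      rw [sd_z0] at h1
      refine le_trans ?_ (h1.trans (ENNReal.ofReal_le_ofReal (hO.thA_small hhn.le)))
      apply measure_mono_ae
      filter_upwards [hue] with x hx hx2
      have h3 : A * m < |u x| := hx2.1
      rw [← hx] at h3
      exact h3
    have hE1t : volume E1 ≠ ∞ := (hE1v.trans_lt ENNReal.ofReal_lt_top).ne
    have hE1r : volume.real E1 ≤ 1 / 2 ^ (n + 1) * (1 / 2) * h ^ n :=
      ENNReal.toReal_le_of_le_ofReal (by positivity) hE1v
    set th : ℝ := 1 / 2 ^ (n + 1) with hth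
    have hth0 : 0 < th := by positivity
    have hth1 : th < 1 := by
      rw [hth, div_lt_one (by positivity)]
      exact one_lt_pow₀ (by norm_num) (Nat.succ_ne_zero n)
    set pred : Ix n → Prop := fun k => A * m < av3 f a h k ∨
      th * sd h k ^ n < volume.real (cb a h k ∩ E1) with hpred
    obtain ⟨N, hN⟩ := stop_levels a hh (g := E1.indicator fun _ => (1 : ℝ))
      (measurable_const.indicator hE1m) (C := 1)
      (fun x => by
        by_cases hx : x ∈ E1
        · rw [indicator_of_mem hx]; simp
        · rw [indicator_of_notMem hx]; simp) (lam := th) pred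
      (fun k hk => by
        right
        rwa [integral_indicator hE1m, setIntegral_const, smul_eq_mul, mul_one, Measure.real,
          Measure.restrict_apply hE1m, inter_comm] at hk) hε
    set 𝒢 := (ixs n N).filter pred with h𝒢
    have hN' := hN 𝒢 (fun k hk1 hk2 => Finset.mem_filter.mpr ⟨hk1, hk2⟩)
    set M := mx 𝒢 (cb a h) with hM
    have hdisj : ∀ k ∈ M, ∀ l ∈ M, k ≠ l → Disjoint (cb a h k) (cb a h l) :=
      fun k hk l hl' hne => mx_disj (fun k _ l _ => cb_lam hh k l) hk hl' hne
    have hMG : ∀ k ∈ M, k ∈ ixs n N ∧ pred k := fun k hk => Finset.mem_filter.mp (mem_mx.mp hk).1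
    have hcov : (⋃ k ∈ 𝒢, cb a h k) ⊆ ⋃ k ∈ M, cb a h k := by
      intro x hx
      simp only [mem_iUnion] at hx ⊢
      obtain ⟨k, hk, hxk⟩ := hx
      obtain ⟨l, hl1, hl2⟩ := mx_cover (C := cb a h) (fun k _ l _ h => cb_inj hh h) hk
      exact ⟨l, hl1, hl2 hxk⟩
    have hbase : ¬ pred (z0 n) := by
      rw [hpred]
      simp only [not_or, not_lt]
      constructor
      · nlinarith
      · rw [sd_z0]
        calc volume.real (cb a h (z0 n) ∩ E1) ≤ volume.real E1 :=
              measureReal_mono inter_subset_right hE1t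
          _ ≤ th * (1 / 2) * h ^ n := hE1r
          _ ≤ th * h ^ n := by nlinarith [mul_pos hth0 hhn]
    have hk0 : ∀ k ∈ M, k.1 ≠ 0 := by
      intro k hk h0
      obtain ⟨h1, h2⟩ := hMG k hk
      have h3 := (mem_ixs.mp h1).2.eq_zero h0
      rw [h3] at h2
      exact hbase h2
    have hup : ∀ k ∈ M, ∀ i, i < k.1 → ¬ pred (up k i) := by
      intro k hk i hi hp
      obtain ⟨h1, h2⟩ := hMG k hk
      have h3 := mem_ixs.mp h1
      have hl1 : up k i ∈ 𝒢 := by
        rw [h𝒢, Finset.mem_filter, mem_ixs]
        refine ⟨⟨?_, h3.2.up hi.le⟩, hp⟩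
        show i ≤ N
        omega
      have h4 := (mem_mx.mp hk).2 _ hl1 (cb_subset_up hh hi.le)
      have h5 : (up k i).1 = i := rfl
      rw [h4] at h5
      omega
    have hsdn : ∀ k : Ix n, 0 < sd h k ^ n := fun k => pow_pos (sd_pos hh k) n
    refine ⟨M, fun k hk => ⟨(mem_ixs.mp (hMG k hk).1).2, hk0 k hk⟩, hdisj, ?_, ?_⟩
    · -- total measure
      set M1 := M.filter fun k => A * m < av3 f a h k with hM1
      set M2 := M.filter fun k => ¬ A * m < av3 f a h k with hM2
      have hs1 := max_all (a := a) hh hf (lam := A * m) (by positivity) (s := M1)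
        (fun k hk => (mem_ixs.mp (hMG k (Finset.mem_filter.mp hk).1).1).2)
        (fun k hk => (Finset.mem_filter.mp hk).2)
        (fun k hk l hl' => hdisj k (Finset.mem_filter.mp hk).1 l (Finset.mem_filter.mp hl').1)
      have hs2 := dens_sum (s := M2) (a := a) (h := h) hE1t (th := th) hE1m
        (fun k hk => by
          have h1 := Finset.mem_filter.mp hk
          rcases (hMG k h1.1).2 with h2 | h2
          · exact absurd h2 h1.2
          · exact h2.le)
        (fun k hk l hl' => hdisj k (Finset.mem_filter.mp hk).1 l (Finset.mem_filter.mp hl').1)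
      have h1 : ∑ k ∈ M, sd h k ^ n = ∑ k ∈ M1, sd h k ^ n + ∑ k ∈ M2, sd h k ^ n :=
        (Finset.sum_filter_add_sum_filter_not M _ _).symm
      rw [int_tb hh, sd_z0] at hs1
      have h2 : A * ∑ k ∈ M1, sd h k ^ n ≤ 9 ^ n * h ^ n := by
        have h3 : m * (A * ∑ k ∈ M1, sd h k ^ n) ≤ m * (9 ^ n * h ^ n) := by
          calc m * (A * ∑ k ∈ M1, sd h k ^ n) = A * m * ∑ k ∈ M1, sd h k ^ n := by ring
            _ ≤ 3 ^ n * (av3 f a h (z0 n) * (3 ^ n * h ^ n)) := hs1
            _ = m * (9 ^ n * h ^ n) := by
                rw [show (9 : ℝ) = 3 * 3 by norm_num, mul_pow]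
                ring
        exact le_of_mul_le_mul_left h3 hm1
      have h3 : ∑ k ∈ M1, sd h k ^ n ≤ 9 ^ n / A * h ^ n := by
        rw [div_mul_eq_mul_div, le_div_iff₀ hA0]
        linarith
      have h4 : ∑ k ∈ M2, sd h k ^ n ≤ 2 ^ (n + 1) * volume.real E1 := by
        have h5 : (0 : ℝ) < 2 ^ (n + 1) := by positivity
        have h6 : 2 ^ (n + 1) * (th * ∑ k ∈ M2, sd h k ^ n) ≤ 2 ^ (n + 1) * volume.real E1 :=
          mul_le_mul_of_nonneg_left hs2 h5.le
        rw [← mul_assoc, hth, mul_one_div_cancel h5.ne', one_mul] at h6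
        exact h6
      have hE1r' : volume.real E1 ≤ cw n C2 Ck δ / A * (3 ^ n * h ^ n) := by
        apply ENNReal.toReal_le_of_le_ofReal
        · have := hO.cw_nonneg
          positivity
        · have h1 := hO.weakT hh hf (z0 n) (a := a) (A := A) hA1
          rw [sd_z0] at h1
          refine le_trans ?_ h1
          apply measure_mono_ae
          filter_upwards [hue] with x hx hx2
          have h3 : A * m < |u x| := hx2.1
          rw [← hx] at h3
          exact h3
      have h6 : 9 ^ n / A * h ^ n + 2 ^ (n + 1) * (cw n C2 Ck δ / A * (3 ^ n * h ^ n)) =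
          (2 ^ (n + 1) * 3 ^ n * cw n C2 Ck δ + 9 ^ n) / A * h ^ n := by ring
      have h7 : (2 ^ (n + 1) * 3 ^ n * cw n C2 Ck δ + 9 ^ n) / A ≤ 1 / 2 := by
        rw [div_le_iff₀ hA0, hA]
        unfold thA
        linarith
      have h8 : 2 ^ (n + 1) * volume.real E1 ≤
          2 ^ (n + 1) * (cw n C2 Ck δ / A * (3 ^ n * h ^ n)) :=
        mul_le_mul_of_nonneg_left hE1r' (by positivity)
      have h9 := mul_le_mul_of_nonneg_right h7 hhn.le
      rw [h1]
      linarith
    · -- the pointwise estimate
      have hcube : ∀ k ∈ M, ∃ v : ℝ, |v| ≤ (A + 2 ^ n * A ^ 2 + oc n Ck δ * A) * m ∧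
          ∀ᵐ x ∂(volume : Measure (Pt n)), x ∈ cb a h k →
            |T ((tb a h (0, fun _ => 0) \ tb a h k).indicator f) x - v| ≤
              oc n Ck δ * (A * m) := by
        intro k hk
        have hok := (mem_ixs.mp (hMG k hk).1).2
        have hnp := hup k hk
        have hav : ∀ i, i < k.1 → av3 f a h (up k i) ≤ A * m := by
          intro i hi
          have h1 := hnp i hi
          rw [hpred] at h1
          simp only [not_or, not_lt] at h1
          exact h1.1
        obtain ⟨v, hv⟩ := hO.osc hh hf hok hav (by positivity)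
        refine ⟨v, ?_, hv⟩
        -- parent
        have hkp : k.1 - 1 < k.1 := by have := hk0 k hk; omega
        have hpar := hnp (k.1 - 1) hkp
        rw [hpred] at hpar
        simp only [not_or, not_lt] at hpar
        have hsp := sd_parent (h := h) (hk0 k hk)
        rw [hsp, mul_pow] at hpar
        have hsub : cb a h k ⊆ cb a h (up k (k.1 - 1)) := cb_subset_up hh (Nat.sub_le _ _)
        have htsub : tb a h k ⊆ tb a h (up k (k.1 - 1)) := tb_subset_up hh (Nat.sub_le _ _)
        have hE1k : volume.real (cb a h k ∩ E1) ≤ 1 / 2 * sd h k ^ n := by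
          calc volume.real (cb a h k ∩ E1) ≤ volume.real (cb a h (up k (k.1 - 1)) ∩ E1) :=
                measureReal_mono (inter_subset_inter_left _ hsub)
                  ((measure_mono inter_subset_right).trans_lt hE1t.lt_top).ne
            _ ≤ th * (2 ^ n * sd h k ^ n) := hpar.2
            _ = _ := by
                rw [hth, pow_succ]
                field_simp
        have hak : av3 f a h k ≤ 2 ^ n * (A * m) := by
          have h1 : ∫ y in tb a h k, |f y| ≤ ∫ y in tb a h (up k (k.1 - 1)), |f y| :=
            setIntegral_mono_set (tst_integrable hf).abs.integrableOn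
              (Eventually.of_forall fun x => abs_nonneg _) htsub.eventuallyLE
          rw [int_tb hh, int_tb hh, hsp, mul_pow] at h1
          have h2 := hsdn k
          have h3 : av3 f a h k * (3 ^ n * sd h k ^ n) ≤
              2 ^ n * (A * m) * (3 ^ n * sd h k ^ n) := by
            calc av3 f a h k * (3 ^ n * sd h k ^ n) ≤ _ := h1
              _ ≤ A * m * (3 ^ n * (2 ^ n * sd h k ^ n)) :=
                mul_le_mul_of_nonneg_right (hav _ hkp) (by positivity)
              _ = _ := by ring
          exact le_of_mul_le_mul_right h3 (by positivity)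
        -- the bad set of the local piece
        set fk : Fn n := (tb a h k).indicator f with hfk
        have hfkt : IsTest fk := tst_ind hf (measurableSet_tb _ _ _)
        set fo : Fn n := (tb a h (0, fun _ => 0) \ tb a h k).indicator f with hfo
        have hfot : IsTest fo :=
          tst_ind hf ((measurableSet_tb _ _ _).diff (measurableSet_tb _ _ _))
        have hBk := (hO.weakT hh hf k (a := a) (A := A) hA1).trans
          (ENNReal.ofReal_le_ofReal (hO.thA_small (hsdn k).le))
        have hlin : T f0 =ᵐ[volume] fun x => T fk x + T fo x := by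
          have e : f0 = fun x => fk x + fo x := by
            funext x
            exact ind_split (hok.tsubset (a := a) hh) f x
          rw [e]
          exact hO.add hfkt hfot
        -- existence of a good point
        have hex : ∃ x ∈ cb a h k, x ∉ E1 ∧ |T fk x| ≤ A * av3 f a h k ∧ T f0 x = u x ∧
            T f0 x = T fk x + T fo x ∧ |T fo x - v| ≤ oc n Ck δ * (A * m) := by
          by_contra hcon
          push Not at hcon
          have h1 : (cb a h k : Set (Pt n)) ≤ᵐ[volume]
              ((cb a h k ∩ E1) ∪ {x | A * av3 f a h k < |T fk x|} : Set (Pt n)) := by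
            filter_upwards [hlin, hue, hv] with x hx1 hx2 hx3 hxk
            have h2 := hcon x hxk
            by_cases h3 : x ∈ E1
            · exact Or.inl ⟨hxk, h3⟩
            · right
              by_contra h4
              have h4' : ¬ A * av3 f a h k < |T fk x| := h4
              rw [not_lt] at h4'
              have h5 := h2 h3 h4' hx2 hx1
              exact absurd (hx3 hxk) (not_le.mpr h5)
          have h2 := measure_mono_ae h1
          have h3 : volume (cb a h k ∩ E1) ≤ ENNReal.ofReal (1 / 2 * sd h k ^ n) := by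
            rw [← ENNReal.ofReal_toReal
              ((measure_mono (inter_subset_right (s := cb a h k))).trans_lt hE1t.lt_top).ne]
            exact ENNReal.ofReal_le_ofReal hE1k
          have h4 := h2.trans ((measure_union_le _ _).trans (add_le_add h3 hBk))
          rw [vol_cb hh, ← ENNReal.ofReal_add (by have := hsdn k; positivity)
            (by have := hsdn k; positivity),
            ENNReal.ofReal_le_ofReal_iff (by have := hsdn k; positivity)] at h4
          have h5 : 1 / (2 : ℝ) ^ (n + 1) * (1 / 2) ≤ 1 / 4 := by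
            have h6 : (1 : ℝ) / 2 ^ (n + 1) ≤ 1 / 2 := by
              apply one_div_le_one_div_of_le (by norm_num)
              calc (2 : ℝ) = 2 ^ 1 := (pow_one 2).symm
                _ ≤ 2 ^ (n + 1) := pow_le_pow_right₀ (by norm_num) (by omega)
            linarith
          have h6 := mul_le_mul_of_nonneg_right h5 (hsdn k).le
          have h7 := hsdn k
          linarith
        obtain ⟨x, hxk, hx1, hx2, hx3, hx4, hx5⟩ := hex
        have h1 : |u x| ≤ A * m := by
          by_contra h2
          rw [not_le] at h2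
          exact hx1 ⟨h2, hok.subset hh hxk⟩
        have h2 : |T fo x| ≤ A * m + A * (2 ^ n * (A * m)) := by
          have h3 : T fo x = u x - T fk x := by rw [← hx3, hx4]; ring
          rw [h3]
          have h4 := abs_sub (u x) (T fk x)
          have h5 : A * av3 f a h k ≤ A * (2 ^ n * (A * m)) :=
            mul_le_mul_of_nonneg_left hak hA0.le
          linarith
        have h3 : |v| ≤ |T fo x| + |T fo x - v| := by
          have := abs_sub_abs_le_abs_sub v (T fo x)
          rw [abs_sub_comm] at this
          linarith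
        calc |v| ≤ _ := h3
          _ ≤ A * m + A * (2 ^ n * (A * m)) + oc n Ck δ * (A * m) := add_le_add h2 hx5
          _ = _ := by ring
      -- conclusion
      choose! v hv1 hv2 using hcube
      have hall : ∀ᵐ x ∂(volume : Measure (Pt n)), ∀ k ∈ M, x ∈ cb a h k →
          |T ((tb a h (0, fun _ => 0) \ tb a h k).indicator f) x - v k| ≤
            oc n Ck δ * (A * m) := by
        exact (Filter.eventually_all_finset M).mpr hv2
      have hall2 : ∀ᵐ x ∂(volume : Measure (Pt n)), ∀ k ∈ M, T f0 x =
          T ((tb a h k).indicator f) x +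
            T ((tb a h (0, fun _ => 0) \ tb a h k).indicator f) x := by
        refine (Filter.eventually_all_finset M).mpr ?_
        intro k hk
        have hok := (mem_ixs.mp (hMG k hk).1).2
        have e : f0 = fun x => (tb a h k).indicator f x +
            (tb a h (0, fun _ => 0) \ tb a h k).indicator f x := by
          funext x
          exact ind_split (hok.tsubset (a := a) hh) f x
        rw [e]
        exact hO.add (tst_ind hf (measurableSet_tb _ _ _))
          (tst_ind hf ((measurableSet_tb _ _ _).diff (measurableSet_tb _ _ _)))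
      refine le_trans ?_ hN'
      apply measure_mono_ae
      filter_upwards [hall, hall2, hue] with x hx1 hx2 hx3 hx4
      obtain ⟨hxb, hx5⟩ := hx4
      have hnn : ∀ k ∈ M, 0 ≤ (cb a h k).indicator
          (fun x => |T ((tb a h k).indicator f) x|) x := fun k _ =>
        indicator_nonneg (fun _ _ => abs_nonneg _) _
      have hxM : ¬ ∃ k ∈ M, x ∈ cb a h k := by
        rintro ⟨k, hk, hxk⟩
        have h1 := hx1 k hk hxk
        have h2 := hx2 k hk
        have h3 := hv1 k hk
        have h4 : |T ((tb a h k).indicator f) x| ≤ ∑ k ∈ M, (cb a h k).indicator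
            (fun x => |T ((tb a h k).indicator f) x|) x := by
          have h5 := Finset.single_le_sum hnn hk
          rwa [indicator_of_mem hxk] at h5
        have h5 : |T f0 x| ≤ |T ((tb a h k).indicator f) x| +
            |T ((tb a h (0, fun _ => 0) \ tb a h k).indicator f) x| := by
          rw [h2]
          exact abs_add_le _ _
        have h6 : |T ((tb a h (0, fun _ => 0) \ tb a h k).indicator f) x| ≤
            |v k| + oc n Ck δ * (A * m) := by
          have := abs_sub_abs_le_abs_sub
            (T ((tb a h (0, fun _ => 0) \ tb a h k).indicator f) x) (v k)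
          linarith
        have h7 : c3 n C2 Ck δ * m = (A + 2 ^ n * A ^ 2 + oc n Ck δ * A) * m +
            oc n Ck δ * (A * m) := by
          unfold c3
          rw [← hA]
          ring
        have hx5' : c3 n C2 Ck δ * m + ∑ k ∈ M, (cb a h k).indicator
          (fun x => |T ((tb a h k).indicator f) x|) x < |T f0 x| := hx5
        linarith
      have hxsum : ∑ k ∈ M, (cb a h k).indicator
          (fun x => |T ((tb a h k).indicator f) x|) x = 0 := by
        apply Finset.sum_eq_zero
        intro k hk
        exact indicator_of_notMem (fun h => hxM ⟨k, hk, h⟩) _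
      rw [hxsum, add_zero] at hx5
      have hxE : x ∈ E1 := by
        refine ⟨?_, hxb⟩
        show A * m < |u x|
        rw [← hx3]
        refine lt_of_le_of_lt ?_ hx5
        apply mul_le_mul_of_nonneg_right _ hm1.le
        unfold c3
        rw [← hA]
        have : 0 ≤ 2 ^ n * A ^ 2 + 2 * oc n Ck δ * A := by positivity
        linarith
      refine ⟨⟨hxb, ?_⟩, fun h => hxM ?_⟩
      · rw [indicator_of_mem hxE]
        exact hth1
      · obtain ⟨k, hk, hxk⟩ := mem_iUnion₂.mp (hcov h)
        exact ⟨k, hk, hxk⟩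

end Pool.Agent.Helper51.Sp
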