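import Pool.Agent.Helper51.SPWk11

/-! Averages over triples and the oscillation estimate. -/

open MeasureTheory Set Filter Topology
open scoped ENNReal NNReal

namespace Pool.Agent.Helper51.Sp

open Mixed

variable {n : ℕ} {T : Fn n → Fn n} {K : Pt n → Pt n → ℝ} {C2 Ck δ : ℝ}

/-- average over the triple -/
noncomputable def av3 (f : Fn n) (a : Fin n → ℝ) (h : ℝ) (k : Ix n) : ℝ :=
  (∫ y in tb a h k, |f y|) / volume.real (tb a h k)

theorem av3_nonneg (f : Fn n) (a : Fin n → ℝ) (h : ℝ) (k : Ix n) : 0 ≤ av3 f a h k :=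
  div_nonneg (integral_nonneg fun _ => abs_nonneg _) measureReal_nonneg

variable {a : Fin n → ℝ} {h : ℝ}

theorem int_tb (hh : 0 < h) (f : Fn n) (k : Ix n) :
    ∫ y in tb a h k, |f y| = av3 f a h k * (3 ^ n * sd h k ^ n) := by
  unfold av3
  have := sd_pos hh k
  rw [real_tb hh]
  field_simp

theorem measurableSet_tb (a : Fin n → ℝ) (h : ℝ) (k : Ix n) : MeasurableSet (tb a h k) :=
  measurableSet_box _ _

theorem measurableSet_cb (a : Fin n → ℝ) (h : ℝ) (k : Ix n) : MeasurableSet (cb a h k) :=
  measurableSet_box _ _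

/-- the weak type estimate for a cube -/
theorem Opr.weakT [NeZero n] (hO : Opr T K C2 Ck δ) (hh : 0 < h) {f : Fn n} (hf : IsTest f)
    (k : Ix n) {A : ℝ} (hA : 1 ≤ A) :
    volume {x | A * av3 f a h k < |T ((tb a h k).indicator f) x|} ≤
      ENNReal.ofReal (cw n C2 Ck δ / A * (3 ^ n * sd h k ^ n)) := by
  have hft : IsTest ((tb a h k).indicator f) := tst_ind hf (measurableSet_tb a h k)
  have hI : ∫ x, |(tb a h k).indicator f x| = av3 f a h k * (3 ^ n * sd h k ^ n) := by
    rw [← int_tb hh, ← integral_indicator (measurableSet_tb a h k)]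
    congr 1
    funext x
    by_cases hx : x ∈ tb a h k
    · rw [indicator_of_mem hx, indicator_of_mem hx]
    · rw [indicator_of_notMem hx, indicator_of_notMem hx, abs_zero]
  have hs := sd_pos hh k
  have hA0 : 0 < A := by linarith
  rcases (av3_nonneg f a h k).eq_or_lt with h0 | h0
  · rw [← h0, zero_mul] at hI
    rw [integral_eq_zero_iff_of_nonneg (fun x => abs_nonneg _) (tst_integrable hft).abs] at hI
    have h1 : (tb a h k).indicator f =ᵐ[volume] 0 := by
      filter_upwards [hI] with x hx
      exact abs_eq_zero.mp hx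
    have h2 := hO.zero hft h1
    have h3 : volume {x | A * av3 f a h k < |T ((tb a h k).indicator f) x|} = 0 := by
      rw [measure_eq_zero_iff_ae_notMem]
      filter_upwards [h2] with x hx
      rw [hx, ← h0]
      simp
    rw [h3]
    exact zero_le
  · have hl : 0 < A * av3 f a h k := by positivity
    have h1 := hO.weak11 (a := fun i => cor a h k i - sd h k) (h := 3 * sd h k) (by positivity)
      hft (fun x hx => indicator_of_notMem hx _) hl (by
        rw [hI, mul_pow]
        have h2 : 0 < av3 f a h k * (3 ^ n * sd h k ^ n) := by positivity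
        nlinarith)
    refine h1.trans (le_of_eq ?_)
    rw [hI]
    congr 1
    field_simp

/-- the oscillation constant -/
noncomputable def oc (n : ℕ) (Ck δ : ℝ) : ℝ := Ck * 6 ^ n * (1 - (2 : ℝ) ^ (-δ))⁻¹

theorem Opr.oc_nonneg (hO : Opr T K C2 Ck δ) : 0 ≤ oc n Ck δ := by
  unfold oc
  have h1 := (geo_const_pos hO.δ0).le
  have h2 := hO.ck
  positivity

theorem far_pt {c : Fin n → ℝ} {l : ℝ} {m y : Fin n → ℝ} (hm : m ∈ box c l)
    (hy : y ∉ box (fun i => c i - l) (3 * l)) : l ≤ ‖m - y‖ := by
  rw [mem_box] at hy
  push Not at hy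
  obtain ⟨i, hi⟩ := hy
  refine le_trans ?_ (norm_le_pi_norm _ i)
  rw [Pi.sub_apply, Real.norm_eq_abs]
  have := hm i
  by_cases h1 : c i - l ≤ y i
  · have h2 := hi h1
    rw [le_abs]
    right
    linarith
  · rw [not_le] at h1
    rw [le_abs]
    left
    linarith

theorem up_self (k : Ix n) : up k k.1 = k := by
  unfold up
  apply Prod.ext
  · rfl
  · funext i
    simp

/-- **the oscillation estimate** -/
theorem Opr.osc (hO : Opr T K C2 Ck δ) (hh : 0 < h) {f : Fn n} (hf : IsTest f) {k : Ix n}
    (hk : Ok k) {L : ℝ} (hL : ∀ i, i < k.1 → av3 f a h (up k i) ≤ L) (hL0 : 0 ≤ L) :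
    ∃ v : ℝ, ∀ᵐ x ∂(volume : Measure (Pt n)), x ∈ cb a h k →
      |T ((tb a h (0, fun _ => 0) \ tb a h k).indicator f) x - v| ≤ oc n Ck δ * L := by
  classical
  have hl := sd_pos hh k
  set l := sd h k with hldef
  set c := cor a h k with hc
  set m : Pt n := fun i => c i + l / 2 with hm
  set D : Set (Pt n) := tb a h (0, fun _ => 0) \ tb a h k with hD
  have hDm : MeasurableSet D := (measurableSet_tb _ _ _).diff (measurableSet_tb _ _ _)
  set fo : Fn n := D.indicator f with hfo
  have hfot : IsTest fo := tst_ind hf hDm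
  have hmP : m ∈ cb a h k := by
    intro i
    constructor
    · show c i ≤ c i + l / 2
      linarith
    · show c i + l / 2 < c i + l
      linarith
  -- the compact set
  obtain ⟨a3, s3, hb3⟩ : ∃ (a3 : Fin n → ℝ) (s3 : ℝ), tb a h (0, fun _ => 0) = box a3 s3 := ⟨_, _, rfl⟩
  set S : Set (Pt n) := Icc a3 (fun i => a3 i + s3) \ Metric.ball m (3 * l / 2) with hS
  have hScpt : IsCompact S := isCompact_Icc.diff Metric.isOpen_ball
  have hballsub : ∀ y, y ∈ Metric.ball m (3 * l / 2) → y ∈ tb a h k := by
    intro y hy
    by_contra hcon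
    have h1 := far_center hl hcon
    rw [mem_ball_iff_norm] at hy
    exact absurd hy (not_lt.mpr h1)
  have hfS : ∀ y, y ∉ S → fo y = 0 := by
    intro y hy
    apply indicator_of_notMem
    rintro ⟨h1, h2⟩
    apply hy
    refine ⟨?_, fun h3 => h2 (hballsub y h3)⟩
    rw [hb3] at h1
    exact ⟨fun i => (h1 i).1, fun i => (h1 i).2.le⟩
  have hrep := hO.rep S hScpt fo (test_memLp hfot) hfS
  -- bound for the kernel
  set x2 : ℝ := (2 : ℝ) ^ (-δ) with hx2
  have hx20 : 0 < x2 := two_rpow_pos _
  have hx21 : x2 < 1 := two_rpow_neg_lt_one hO.δ0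
  set w : ℕ → ℝ := fun i => Ck * x2 ^ (k.1 - 1 - i) / sd h (up k (i + 1)) ^ n with hw
  have hw0 : ∀ i, 0 ≤ w i := fun i => by
    have := sd_pos hh (up k (i + 1))
    have := hO.ck
    positivity
  have hkey : ∀ x, x ∈ cb a h k → ∀ y, |(K x y - K m y) * fo y| ≤
      ∑ i ∈ Finset.range k.1, w i * (tb a h (up k i)).indicator (fun y => |f y|) y := by
    intro x hx y
    have hnn : ∀ i ∈ Finset.range k.1, 0 ≤
        w i * (tb a h (up k i)).indicator (fun y => |f y|) y := fun i _ =>
      mul_nonneg (hw0 i) (indicator_nonneg (fun _ _ => abs_nonneg _) _)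
    by_cases hy : y ∈ D
    · -- find the scale
      have hex : ∃ i, i ≤ k.1 ∧ y ∉ tb a h (up k i) := ⟨k.1, le_rfl, by rw [up_self]; exact hy.2⟩
      set i1 := Nat.find hex with hi1
      obtain ⟨hi2, hi3⟩ := Nat.find_spec hex
      have hi0 : i1 ≠ 0 := by
        intro h0
        rw [← hi1, h0, hk.up_zero] at hi3
        exact hi3 hy.1
      obtain ⟨i, hi⟩ := Nat.exists_eq_succ_of_ne_zero hi0
      have hik : i < k.1 := by
        rw [← hi1] at hi2
        omega
      have hyi : y ∈ tb a h (up k i) := by
        have h1 := Nat.find_min hex (m := i) (by rw [← hi1]; omega)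
        rw [not_and, not_not] at h1
        exact h1 hik.le
      have hyi1 : y ∉ tb a h (up k (i + 1)) := by
        rw [← hi1, hi] at hi3
        exact hi3
      have hdist : sd h (up k (i + 1)) ≤ ‖m - y‖ :=
        far_pt (cb_subset_up hh (k := k) (j := i + 1) hik hmP) hyi1
      have hsdi := sd_pos hh (up k (i + 1))
      have hmy : 0 < ‖m - y‖ := hsdi.trans_le hdist
      have hfar := far_center hl hy.2
      rw [norm_sub_rev] at hfar
      have hnear := near_center hl hx
      have h5 := hO.ker.smooth m x y (by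
        intro h
        rw [h, sub_self, norm_zero] at hmy
        exact lt_irrefl _ hmy) (by
        show 2 * ‖m - x‖ ≤ ‖m - y‖
        have h6 : ‖m - x‖ ≤ l / 2 := hnear
        have h7 : 3 * l / 2 ≤ ‖m - y‖ := hfar
        linarith)
      have h6 : |K x y - K m y| ≤ Ck * (‖m - x‖ / ‖m - y‖) ^ δ / ‖m - y‖ ^ n := by
        rw [abs_sub_comm]
        have := abs_nonneg (K y m - K y x)
        linarith
      have h7 : |K x y - K m y| ≤ w i := by
        refine h6.trans ?_
        rw [hw]
        simp only
        apply div_le_div₀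
        · have := hO.ck
          positivity
        · apply mul_le_mul_of_nonneg_left _ hO.ck
          have h8 : ‖m - x‖ / ‖m - y‖ ≤ 2 ^ (-((k.1 - 1 - i : ℕ) : ℝ)) := by
            rw [Real.rpow_neg (by norm_num), Real.rpow_natCast, div_le_iff₀ hmy]
            have h9 : sd h (up k (i + 1)) = 2 ^ (k.1 - 1 - i) * l := by
              rw [hldef]
              unfold sd up
              simp only
              obtain ⟨r, hr⟩ := Nat.exists_eq_add_of_lt hik
              have : k.1 - 1 - i = r := by omega
              rw [this, hr, pow_add, pow_add, pow_add]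
              field_simp
            have h10 : 2 ^ (k.1 - 1 - i) * l ≤ ‖m - y‖ := by rw [← h9]; exact hdist
            have h11 : ‖m - x‖ ≤ l := by
              have : ‖m - x‖ ≤ l / 2 := hnear
              linarith
            rw [inv_mul_eq_div, le_div_iff₀ (by positivity)]
            calc ‖m - x‖ * 2 ^ (k.1 - 1 - i) ≤ l * 2 ^ (k.1 - 1 - i) :=
                mul_le_mul_of_nonneg_right h11 (by positivity)
              _ ≤ _ := by linarith
          calc (‖m - x‖ / ‖m - y‖) ^ δ ≤ (2 ^ (-((k.1 - 1 - i : ℕ) : ℝ))) ^ δ :=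
              Real.rpow_le_rpow (by positivity) h8 hO.δ0.le
            _ = x2 ^ (k.1 - 1 - i) := by
              rw [hx2, ← Real.rpow_natCast, ← Real.rpow_mul (by norm_num),
                ← Real.rpow_mul (by norm_num)]
              congr 1
              ring
        · positivity
        · exact pow_le_pow_left₀ hsdi.le hdist n
      have h8 : |(K x y - K m y) * fo y| ≤
          w i * (tb a h (up k i)).indicator (fun y => |f y|) y := by
        rw [abs_mul, indicator_of_mem hyi, hfo, indicator_of_mem hy]
        exact mul_le_mul_of_nonneg_right h7 (abs_nonneg _)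
      refine h8.trans ?_
      exact Finset.single_le_sum hnn (Finset.mem_range.mpr hik)
    · rw [hfo, indicator_of_notMem hy, mul_zero, abs_zero]
      exact Finset.sum_nonneg hnn
  -- integrability
  have hint : ∀ x, x ∈ cb a h k → Integrable (fun y => K x y * fo y) volume := by
    intro x hx
    have hKm : Measurable fun y => K x y := hO.ker.measurable.comp measurable_prodMk_left
    apply Integrable.mono' (g := fun y => Ck / l ^ n * |fo y|)
      ((tst_integrable hfot).abs.const_mul _)
    · exact (hKm.mul hfot.1).aestronglyMeasurable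
    · apply Eventually.of_forall
      intro y
      rw [Real.norm_eq_abs, abs_mul]
      by_cases hy : y ∈ D
      · apply mul_le_mul_of_nonneg_right _ (abs_nonneg _)
        have h1 : l ≤ ‖x - y‖ := far_pt hx hy.2
        have h2 := hO.ker.size x y (by
          intro h
          rw [h, sub_self, norm_zero] at h1
          linarith)
        refine h2.trans ?_
        apply div_le_div_of_nonneg_left hO.ck (by positivity)
        exact pow_le_pow_left₀ hl.le h1 n
      · rw [hfo, indicator_of_notMem hy, abs_zero, mul_zero, mul_zero]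
  refine ⟨∫ y, K m y * fo y, ?_⟩
  filter_upwards [hrep] with x hx hxk
  have hxS : x ∉ S := by
    rintro ⟨_, h2⟩
    apply h2
    rw [mem_ball_iff_norm, norm_sub_rev]
    have h3 : ‖m - x‖ ≤ l / 2 := near_center hl hxk
    linarith
  rw [hx hxS, ← integral_sub (hint x hxk) (hint m hmP)]
  have e1 : (fun y => K x y * fo y - K m y * fo y) = fun y => (K x y - K m y) * fo y := by
    funext y; ring
  rw [e1]
  have hdi : Integrable (fun y => (K x y - K m y) * fo y) volume := by
    rw [← e1]
    exact (hint x hxk).sub (hint m hmP)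
  have hfi : ∀ i, Integrable ((tb a h (up k i)).indicator fun y => |f y|) volume := fun i =>
    tst_integrable (tst_ind (tst_abs hf) (measurableSet_tb _ _ _))
  calc |∫ y, (K x y - K m y) * fo y| ≤ ∫ y, |(K x y - K m y) * fo y| :=
        abs_integral_le_integral_abs
    _ ≤ ∫ y, ∑ i ∈ Finset.range k.1, w i * (tb a h (up k i)).indicator (fun y => |f y|) y :=
        integral_mono hdi.abs (integrable_finsetSum _ fun i _ => (hfi i).const_mul _)
          (hkey x hxk)
    _ = ∑ i ∈ Finset.range k.1, w i * ∫ y in tb a h (up k i), |f y| := by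
        rw [integral_finsetSum _ fun i _ => (hfi i).const_mul _]
        apply Finset.sum_congr rfl
        intro i _
        rw [integral_const_mul, integral_indicator (measurableSet_tb _ _ _)]
    _ ≤ ∑ i ∈ Finset.range k.1, Ck * 6 ^ n * L * x2 ^ (k.1 - 1 - i) := by
        apply Finset.sum_le_sum
        intro i hi
        have hik := Finset.mem_range.mp hi
        rw [int_tb hh]
        have h1 := hL i hik
        have hsd : sd h (up k i) = 2 * sd h (up k (i + 1)) := by
          unfold sd up
          simp only
          rw [pow_succ]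
          field_simp
        have hsdi := sd_pos hh (up k (i + 1))
        rw [hsd, hw]
        simp only
        have e2 : Ck * x2 ^ (k.1 - 1 - i) / sd h (up k (i + 1)) ^ n *
            (av3 f a h (up k i) * (3 ^ n * (2 * sd h (up k (i + 1))) ^ n)) =
            Ck * 6 ^ n * av3 f a h (up k i) * x2 ^ (k.1 - 1 - i) := by
          rw [mul_pow, show (6 : ℝ) = 3 * 2 by norm_num, mul_pow]
          field_simp
        rw [e2]
        apply mul_le_mul_of_nonneg_right _ (by positivity)
        apply mul_le_mul_of_nonneg_left h1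
        have := hO.ck
        positivity
    _ = Ck * 6 ^ n * L * ∑ i ∈ Finset.range k.1, x2 ^ (k.1 - 1 - i) := by rw [Finset.mul_sum]
    _ = Ck * 6 ^ n * L * ∑ i ∈ Finset.range k.1, x2 ^ i := by
        rw [Finset.sum_range_reflect (fun i => x2 ^ i) k.1]
    _ ≤ Ck * 6 ^ n * L * (1 - x2)⁻¹ := by
        apply mul_le_mul_of_nonneg_left (geo_sum _ hx20.le hx21)
        have := hO.ck
        positivity
    _ = _ := by
        unfold oc
        ring

end Pool.Agent.Helper51.Sp
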