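import Pool.Agent.Helper51.SPLam

/-! Record families and the Carleson embedding theorem. -/

open MeasureTheory Set
open scoped ENNReal

namespace Pool.Agent.Helper51.Sp

variable {α : Type*}

open Classical in
/-- the members whose level exceeds the level of all larger members -/
noncomputable def recs (S : Finset (Set α)) (l : Set α → ℤ) : Finset (Set α) :=
  S.filter fun Q => ∀ R ∈ S, Q ⊂ R → l R < l Q

theorem mem_recs {S : Finset (Set α)} {l : Set α → ℤ} {Q : Set α} :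
    Q ∈ recs S l ↔ Q ∈ S ∧ ∀ R ∈ S, Q ⊂ R → l R < l Q := by
  classical
  unfold recs
  rw [Finset.mem_filter]

theorem recs_subset {S : Finset (Set α)} {l : Set α → ℤ} : recs S l ⊆ S := fun _ hQ =>
  (mem_recs.mp hQ).1

theorem exists_top {S : Finset (Set α)} (h : Lam S) (l : Set α → ℤ) {Q : Set α} (hQ : Q ∈ S) :
    ∃ F ∈ recs S l, Q ⊆ F ∧ l Q ≤ l F ∧ ∀ R ∈ recs S l, Q ⊆ R → F ⊆ R := by
  classical
  have hne : (anc S Q).Nonempty := ⟨Q, mem_anc.mpr ⟨hQ, le_rfl⟩⟩
  obtain ⟨F0, hF0, hmax⟩ := (anc S Q).exists_max_image l hne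
  have hne2 : ((anc S Q).filter fun R => l R = l F0).Nonempty :=
    ⟨F0, Finset.mem_filter.mpr ⟨hF0, rfl⟩⟩
  obtain ⟨F, hF, hmin⟩ := ((anc S Q).filter fun R => l R = l F0).exists_min_image (gen S) hne2
  have hF1 := Finset.mem_filter.mp hF
  have hF2 := mem_anc.mp hF1.1
  have hFrec : F ∈ recs S l := by
    rw [mem_recs]
    refine ⟨hF2.1, ?_⟩
    intro R hR hFR
    have hRanc : R ∈ anc S Q := mem_anc.mpr ⟨hR, hF2.2.trans hFR.subset⟩
    have h1 := hmax R hRanc
    rcases lt_or_eq_of_le h1 with h2 | h2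
    · rw [hF1.2]; exact h2
    · have h3 := hmin R (Finset.mem_filter.mpr ⟨hRanc, h2⟩)
      have h4 := gen_lt hF2.1 hFR
      omega
  refine ⟨F, hFrec, hF2.2, ?_, ?_⟩
  · rw [hF1.2]
    exact hmax Q (mem_anc.mpr ⟨hQ, le_rfl⟩)
  · intro R hR hQR
    have hR2 := mem_recs.mp hR
    rcases h.anc_chain hQ hF2.1 hR2.1 hF2.2 hQR with h1 | h1
    · exact h1
    · by_contra hcon
      have h2 : R ⊂ F := ⟨h1, hcon⟩
      have h3 := hR2.2 F hF2.1 h2
      have h4 := hmax R (mem_anc.mpr ⟨hR2.1, hQR⟩)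
      rw [hF1.2] at h3
      omega

open Classical in
/-- the smallest record containing a given member -/
noncomputable def top (S : Finset (Set α)) (l : Set α → ℤ) (Q : Set α) : Set α :=
  if h : ∃ F ∈ recs S l, Q ⊆ F ∧ l Q ≤ l F ∧ ∀ R ∈ recs S l, Q ⊆ R → F ⊆ R then h.choose else Q

theorem top_spec {S : Finset (Set α)} (h : Lam S) (l : Set α → ℤ) {Q : Set α} (hQ : Q ∈ S) :
    top S l Q ∈ recs S l ∧ Q ⊆ top S l Q ∧ l Q ≤ l (top S l Q) ∧
      ∀ R ∈ recs S l, Q ⊆ R → top S l Q ⊆ R := by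
  have hex := exists_top h l hQ
  unfold top
  rw [dif_pos hex]
  exact hex.choose_spec

/-- levels are injective on the records containing a point -/
theorem recs_inj {S : Finset (Set α)} (h : Lam S) (l : Set α → ℤ) {F F' : Set α}
    (hF : F ∈ recs S l) (hF' : F' ∈ recs S l) {x : α} (hx : x ∈ F) (hx' : x ∈ F')
    (heq : l F = l F') : F = F' := by
  have h1 := mem_recs.mp hF
  have h2 := mem_recs.mp hF'
  by_contra hne
  rcases h.chain h1.1 h2.1 hx hx' with h3 | h3
  · have := h1.2 F' h2.1 (Set.ssubset_iff_subset_ne.mpr ⟨h3, hne⟩)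
    omega
  · have := h2.2 F h1.1 (Set.ssubset_iff_subset_ne.mpr ⟨h3, fun h => hne h.symm⟩)
    omega

/-- the function `∑ c_Q 1_Q` -/
noncomputable def stepF (S : Finset (Set α)) (c : Set α → ℝ) (x : α) : ℝ :=
  ∑ Q ∈ S, Q.indicator (fun _ => c Q) x

open Classical in
theorem stepF_eq (S : Finset (Set α)) (c : Set α → ℝ) (x : α) :
    stepF S c x = ∑ Q ∈ S.filter (x ∈ ·), c Q := by
  unfold stepF
  rw [Finset.sum_filter]
  apply Finset.sum_congr rfl
  intro Q _
  by_cases h : x ∈ Q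
  · rw [Set.indicator_of_mem h, if_pos h]
  · rw [Set.indicator_of_notMem h, if_neg h]

theorem stepF_nonneg {S : Finset (Set α)} {c : Set α → ℝ} (hc : ∀ Q ∈ S, 0 ≤ c Q) (x : α) :
    0 ≤ stepF S c x :=
  Finset.sum_nonneg fun Q hQ => Set.indicator_nonneg (fun _ _ => hc Q hQ) x

theorem stepF_mono {S : Finset (Set α)} {c d : Set α → ℝ} (h : ∀ Q ∈ S, c Q ≤ d Q) (x : α) :
    stepF S c x ≤ stepF S d x :=
  Finset.sum_le_sum fun Q hQ => Set.indicator_le_indicator (h Q hQ)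

theorem stepF_le_subset {S S' : Finset (Set α)} (hs : S' ⊆ S) {c : Set α → ℝ}
    (hc : ∀ Q ∈ S, 0 ≤ c Q) (x : α) : stepF S' c x ≤ stepF S c x :=
  Finset.sum_le_sum_of_subset_of_nonneg hs fun Q hQ _ =>
    Set.indicator_nonneg (fun _ _ => hc Q hQ) x

theorem stepF_le {S : Finset (Set α)} {c : Set α → ℝ} (hc : ∀ Q ∈ S, 0 ≤ c Q) (x : α) :
    stepF S c x ≤ ∑ Q ∈ S, c Q := by
  apply Finset.sum_le_sum
  intro Q hQ
  by_cases h : x ∈ Q
  · rw [Set.indicator_of_mem h]
  · rw [Set.indicator_of_notMem h]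
    exact hc Q hQ

variable [MeasurableSpace α]

theorem measurable_stepF {S : Finset (Set α)} (hS : ∀ Q ∈ S, MeasurableSet Q)
    (c : Set α → ℝ) : Measurable (stepF S c) := by
  unfold stepF
  exact Finset.measurable_sum S fun Q hQ => measurable_const.indicator (hS Q hQ)

theorem memLp_bdd {ν : Measure α} [IsFiniteMeasure ν] {f : α → ℝ} (hf : Measurable f) {C : ℝ}
    (hC : ∀ x, |f x| ≤ C) (p : ℝ≥0∞) : MemLp f p ν :=
  MemLp.of_bound hf.aestronglyMeasurable C (Filter.Eventually.of_forall hC)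

theorem memLp_stepF {ν : Measure α} [IsFiniteMeasure ν] {S : Finset (Set α)}
    (hS : ∀ Q ∈ S, MeasurableSet Q) {c : Set α → ℝ} (hc : ∀ Q ∈ S, 0 ≤ c Q) (p : ℝ≥0∞) :
    MemLp (stepF S c) p ν := by
  apply memLp_bdd (measurable_stepF hS c) (C := ∑ Q ∈ S, c Q)
  intro x
  rw [abs_of_nonneg (stepF_nonneg hc x)]
  exact stepF_le hc x

theorem integrable_stepF {ν : Measure α} [IsFiniteMeasure ν] {S : Finset (Set α)}
    (hS : ∀ Q ∈ S, MeasurableSet Q) {c : Set α → ℝ} (hc : ∀ Q ∈ S, 0 ≤ c Q) :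
    Integrable (stepF S c) ν := memLp_one_iff_integrable.mp (memLp_stepF hS hc 1)

theorem integral_stepF {ν : Measure α} [IsFiniteMeasure ν] {S : Finset (Set α)}
    (hS : ∀ Q ∈ S, MeasurableSet Q) (c : Set α → ℝ) :
    ∫ x, stepF S c x ∂ν = ∑ Q ∈ S, c Q * ν.real Q := by
  unfold stepF
  rw [integral_finsetSum]
  · apply Finset.sum_congr rfl
    intro Q hQ
    rw [integral_indicator (hS Q hQ), setIntegral_const, smul_eq_mul, mul_comm]
  · intro Q hQ
    exact (integrable_const _).indicator (hS Q hQ)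

theorem integral_mul_stepF {ν : Measure α} {S : Finset (Set α)}
    (hS : ∀ Q ∈ S, MeasurableSet Q) (c : Set α → ℝ) {φ : α → ℝ} (hφ : Integrable φ ν) :
    ∫ x, φ x * stepF S c x ∂ν = ∑ Q ∈ S, c Q * ∫ x in Q, φ x ∂ν := by
  unfold stepF
  simp only [Finset.mul_sum]
  rw [integral_finsetSum]
  · apply Finset.sum_congr rfl
    intro Q hQ
    rw [← integral_const_mul, ← integral_indicator (hS Q hQ)]
    apply integral_congr_ae
    apply Filter.Eventually.of_forall
    intro x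
    simp only
    by_cases h : x ∈ Q
    · rw [Set.indicator_of_mem h, Set.indicator_of_mem h, mul_comm]
    · rw [Set.indicator_of_notMem h, Set.indicator_of_notMem h, mul_zero]
  · intro Q hQ
    have : (fun x => φ x * Q.indicator (fun _ => c Q) x) = Q.indicator fun x => φ x * c Q := by
      funext x
      by_cases h : x ∈ Q
      · rw [Set.indicator_of_mem h, Set.indicator_of_mem h]
      · rw [Set.indicator_of_notMem h, Set.indicator_of_notMem h, mul_zero]
    rw [this]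
    exact (hφ.mul_const _).indicator (hS Q hQ)

theorem absorb {Z a c p : ℝ} (hp : 1 < p) (hZ : 0 ≤ Z) (ha : 0 ≤ a) (hc : 0 ≤ c)
    (h : Z ≤ a * (c * Z) ^ (1 - 1 / p)) : Z ≤ a ^ p * c ^ (p - 1) := by
  have hp0 : 0 < p := by linarith
  rcases hZ.eq_or_lt with h0 | h0
  · rw [← h0]
    exact mul_nonneg (Real.rpow_nonneg ha _) (Real.rpow_nonneg hc _)
  · have h1 : Z ^ p ≤ (a * (c * Z) ^ (1 - 1 / p)) ^ p := Real.rpow_le_rpow hZ h hp0.le
    have h2 : 0 ≤ c * Z := mul_nonneg hc hZ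
    rw [Real.mul_rpow ha (Real.rpow_nonneg h2 _), ← Real.rpow_mul h2,
      show (1 - 1 / p) * p = p - 1 by field_simp, Real.mul_rpow hc hZ] at h1
    have h3 : Z ^ p = Z * Z ^ (p - 1) := by
      rw [Real.rpow_sub h0, Real.rpow_one]
      field_simp
    rw [h3, ← mul_assoc] at h1
    exact le_of_mul_le_mul_right h1 (Real.rpow_pos_of_pos h0 _)

/-- the constant in the Carleson embedding theorem -/
noncomputable def ce (p : ℝ) : ℝ := ((1 - (2 : ℝ) ^ (-(p - 1)))⁻¹) ^ p

theorem ce_nonneg {p : ℝ} (hp : 1 < p) : 0 ≤ ce p :=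
  Real.rpow_nonneg (geo_const_pos (by linarith)).le _

/-- **Carleson embedding for records.** -/
theorem carleson_recs {ν : Measure α} [IsFiniteMeasure ν] {S : Finset (Set α)} (h : Lam S)
    (hS : ∀ Q ∈ S, MeasurableSet Q) (l : Set α → ℤ) {p : ℝ} (hp : 1 < p) {φ : α → ℝ}
    (hφ : MemLp φ (ENNReal.ofReal p) ν) (hφ0 : ∀ x, 0 ≤ φ x)
    (hl : ∀ Q ∈ S, (2 : ℝ) ^ (l Q : ℝ) * ν.real Q ≤ ∫ x in Q, φ x ∂ν) {U : Set α}
    (hU : MeasurableSet U) (hSU : ∀ Q ∈ S, Q ⊆ U) :
    ∑ F ∈ recs S l, (2 : ℝ) ^ (p * l F) * ν.real F ≤ ce p * ∫ x in U, φ x ^ p ∂ν := by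
  classical
  have hp0 : 0 < p := by linarith
  have hp1 : 0 < p - 1 := by linarith
  set 𝓕 := recs S l with h𝓕
  have hF : ∀ F ∈ 𝓕, MeasurableSet F := fun F hF => hS F (recs_subset hF)
  set D : α → ℝ := stepF 𝓕 fun F => (2 : ℝ) ^ ((p - 1) * l F) with hD
  have hc0 : ∀ F ∈ 𝓕, 0 ≤ (2 : ℝ) ^ ((p - 1) * l F) := fun F _ => (two_rpow_pos _).le
  have hD0 : ∀ x, 0 ≤ D x := fun x => stepF_nonneg hc0 x
  set Z : ℝ := ∑ F ∈ 𝓕, (2 : ℝ) ^ (p * l F) * ν.real F with hZ
  have hZ0 : 0 ≤ Z := Finset.sum_nonneg fun F _ => mul_nonneg (two_rpow_pos _).le measureReal_nonneg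
  set p' : ℝ := p / (p - 1) with hp'
  have hpq : p.HolderConjugate p' := Real.HolderConjugate.conjExponent hp
  have hp'0 : 0 < p' := by positivity
  have hφi : Integrable φ ν := hφ.integrable (by
    rw [← ENNReal.ofReal_one]
    exact ENNReal.ofReal_le_ofReal hp.le)
  -- first estimate
  have h1 : Z ≤ ∫ x, φ x * D x ∂ν := by
    rw [hD, integral_mul_stepF hF _ hφi]
    apply Finset.sum_le_sum
    intro F hF'
    have h2 : (2 : ℝ) ^ (p * l F) = 2 ^ ((p - 1) * l F) * 2 ^ (l F : ℝ) := by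
      rw [← Real.rpow_add (by norm_num)]
      congr 1
      ring
    rw [h2, mul_assoc]
    exact mul_le_mul_of_nonneg_left (hl F (recs_subset hF')) (two_rpow_pos _).le
  -- restrict to `U`
  have h2 : ∫ x, φ x * D x ∂ν = ∫ x, U.indicator φ x * D x ∂ν := by
    apply integral_congr_ae
    apply Filter.Eventually.of_forall
    intro x
    simp only
    by_cases hx : x ∈ U
    · rw [Set.indicator_of_mem hx]
    · rw [Set.indicator_of_notMem hx, zero_mul]
      have : D x = 0 := by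
        rw [hD, stepF_eq]
        apply Finset.sum_eq_zero
        intro F hF'
        rw [Finset.mem_filter] at hF'
        exact absurd (hSU F (recs_subset hF'.1) hF'.2) hx
      rw [this, mul_zero]
  have h3 : ∫ x, U.indicator φ x * D x ∂ν ≤
      (∫ x, U.indicator φ x ^ p ∂ν) ^ (1 / p) * (∫ x, D x ^ p' ∂ν) ^ (1 / p') :=
    integral_mul_le_Lp_mul_Lq_of_nonneg hpq
      (Filter.Eventually.of_forall fun x => Set.indicator_nonneg (fun y _ => hφ0 y) x)
      (Filter.Eventually.of_forall hD0) (hφ.indicator hU) (memLp_stepF hF hc0 _)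
  have h4 : ∫ x, U.indicator φ x ^ p ∂ν = ∫ x in U, φ x ^ p ∂ν := by
    rw [← integral_indicator hU]
    apply integral_congr_ae
    apply Filter.Eventually.of_forall
    intro x
    simp only
    by_cases hx : x ∈ U
    · rw [Set.indicator_of_mem hx, Set.indicator_of_mem hx]
    · rw [Set.indicator_of_notMem hx, Set.indicator_of_notMem hx, Real.zero_rpow hp0.ne']
  set κ : ℝ := (1 - (2 : ℝ) ^ (-(p - 1)))⁻¹ with hκ
  have hκ0 : 0 < κ := geo_const_pos hp1
  have h5 : ∫ x, D x ^ p' ∂ν ≤ κ ^ p' * Z := by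
    have h6 : ∀ x, D x ^ p' ≤ κ ^ p' * stepF 𝓕 (fun F => (2 : ℝ) ^ (p * l F)) x := by
      intro x
      rw [hD, stepF_eq, stepF_eq]
      have h7 := geo2 (𝓕.filter (x ∈ ·)) l (by
        intro F hF1 F' hF2 heq
        have hF1' := Finset.mem_filter.mp hF1
        have hF2' := Finset.mem_filter.mp hF2
        exact recs_inj h l hF1'.1 hF2'.1 hF1'.2 hF2'.2 heq) hp1 hp'0
      have h8 : (p - 1) * p' = p := by rw [hp']; field_simp
      rw [h8] at h7
      exact h7
    calc ∫ x, D x ^ p' ∂ν ≤ ∫ x, κ ^ p' * stepF 𝓕 (fun F => (2 : ℝ) ^ (p * l F)) x ∂ν := by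
          apply integral_mono_of_nonneg
          · exact Filter.Eventually.of_forall fun x => Real.rpow_nonneg (hD0 x) _
          · exact (integrable_stepF hF fun F _ => (two_rpow_pos _).le).const_mul _
          · exact Filter.Eventually.of_forall h6
      _ = κ ^ p' * Z := by rw [integral_const_mul, integral_stepF hF]
  have h9 : Z ≤ (∫ x in U, φ x ^ p ∂ν) ^ (1 / p) * (κ ^ p' * Z) ^ (1 - 1 / p) := by
    have h10 : 1 / p' = 1 - 1 / p := by rw [hp']; field_simp
    rw [h2] at h1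
    rw [h4, h10] at h3
    refine (h1.trans h3).trans ?_
    apply mul_le_mul_of_nonneg_left
    · apply Real.rpow_le_rpow
      · exact integral_nonneg fun x => Real.rpow_nonneg (hD0 x) _
      · exact h5
      · rw [← h10]; positivity
    · apply Real.rpow_nonneg
      exact integral_nonneg fun x => Real.rpow_nonneg (hφ0 x) _
  have hI0 : 0 ≤ ∫ x in U, φ x ^ p ∂ν := integral_nonneg fun x => Real.rpow_nonneg (hφ0 x) _
  have h11 := absorb hp hZ0 (Real.rpow_nonneg hI0 _) (Real.rpow_nonneg hκ0.le _) h9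
  rw [← Real.rpow_mul hI0, one_div_mul_cancel hp0.ne', Real.rpow_one, ← Real.rpow_mul hκ0.le] at h11
  have h12 : p' * (p - 1) = p := by rw [hp']; field_simp
  rw [h12, mul_comm] at h11
  exact h11

/-- average levels -/
noncomputable def lev (a : ℝ) : ℤ := ⌊Real.logb 2 a⌋

theorem lev_le {a : ℝ} (ha : 0 < a) : (2 : ℝ) ^ (lev a : ℝ) ≤ a := by
  have h1 : (lev a : ℝ) ≤ Real.logb 2 a := Int.floor_le _
  calc (2 : ℝ) ^ (lev a : ℝ) ≤ 2 ^ (Real.logb 2 a) :=
        Real.rpow_le_rpow_of_exponent_le (by norm_num) h1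
    _ = a := Real.rpow_logb (by norm_num) (by norm_num) ha

theorem lt_lev {a : ℝ} (ha : 0 < a) : a < (2 : ℝ) ^ ((lev a : ℝ) + 1) := by
  have h1 : Real.logb 2 a < (lev a : ℝ) + 1 := Int.lt_floor_add_one _
  calc a = 2 ^ (Real.logb 2 a) := (Real.rpow_logb (by norm_num) (by norm_num) ha).symm
    _ < _ := Real.rpow_lt_rpow_of_exponent_lt (by norm_num) h1

theorem lt_lev' {a : ℝ} (ha : 0 < a) : a < 2 * (2 : ℝ) ^ (lev a : ℝ) := by
  have := lt_lev ha
  rwa [Real.rpow_add (by norm_num), Real.rpow_one, mul_comm] at this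

end Pool.Agent.Helper51.Sp
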