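import Pool.Agent.Helper51.SPTest

/-! Two testing conditions imply the strong type inequality. -/

open MeasureTheory Set
open scoped ENNReal

namespace Pool.Agent.Helper51.Sp

variable {α : Type*}

open Classical in
/-- children of a member in a family -/
noncomputable def ch (𝓕 : Finset (Set α)) (F : Set α) : Finset (Set α) :=
  𝓕.filter fun F' => F' ⊂ F ∧ ∀ F'' ∈ 𝓕, F' ⊂ F'' → F ⊆ F''

theorem mem_ch {𝓕 : Finset (Set α)} {F F' : Set α} :
    F' ∈ ch 𝓕 F ↔ F' ∈ 𝓕 ∧ F' ⊂ F ∧ ∀ F'' ∈ 𝓕, F' ⊂ F'' → F ⊆ F'' := by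
  classical
  unfold ch
  rw [Finset.mem_filter]

theorem ch_disj {𝓕 : Finset (Set α)} (h : Lam 𝓕) {F F1 F2 : Set α} (h1 : F1 ∈ ch 𝓕 F)
    (h2 : F2 ∈ ch 𝓕 F) (hne : F1 ≠ F2) : Disjoint F1 F2 := by
  rw [mem_ch] at h1 h2
  rcases h.lam F1 h1.1 F2 h2.1 with h3 | h3 | h3
  · have := h1.2.2 F2 h2.1 (Set.ssubset_iff_subset_ne.mpr ⟨h3, hne⟩)
    exact absurd this h2.2.1.not_subset
  · have := h2.2.2 F1 h1.1 (Set.ssubset_iff_subset_ne.mpr ⟨h3, hne.symm⟩)
    exact absurd this h1.2.1.not_subset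
  · exact h3

theorem ch_unique {𝓕 : Finset (Set α)} {F1 F2 F' : Set α} (hF1 : F1 ∈ 𝓕) (hF2 : F2 ∈ 𝓕)
    (h1 : F' ∈ ch 𝓕 F1) (h2 : F' ∈ ch 𝓕 F2) : F1 = F2 := by
  rw [mem_ch] at h1 h2
  exact (h1.2.2 F2 hF2 h2.2.1).antisymm (h2.2.2 F1 hF1 h1.2.1)

theorem exists_ch {𝓕 : Finset (Set α)} (h : Lam 𝓕) {F F' : Set α} (hF : F ∈ 𝓕) (hF' : F' ∈ 𝓕)
    (hsub : F' ⊂ F) : ∃ C ∈ ch 𝓕 F, F' ⊆ C := by
  classical
  set A := 𝓕.filter fun C => F' ⊆ C ∧ C ⊂ F with hA
  have hne : A.Nonempty := ⟨F', Finset.mem_filter.mpr ⟨hF', le_rfl, hsub⟩⟩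
  obtain ⟨C, hC, hmin⟩ := A.exists_min_image (gen 𝓕) hne
  have hC1 := Finset.mem_filter.mp hC
  refine ⟨C, mem_ch.mpr ⟨hC1.1, hC1.2.2, ?_⟩, hC1.2.1⟩
  intro F'' hF'' hCF
  rcases h.anc_chain hF' hF hF'' hsub.subset (hC1.2.1.trans hCF.subset) with h1 | h1
  · exact h1
  · by_contra hcon
    have h2 : F'' ⊂ F := ⟨h1, hcon⟩
    have h3 := hmin F'' (Finset.mem_filter.mpr ⟨hF'', hC1.2.1.trans hCF.subset, h2⟩)
    have h4 := gen_lt hC1.1 hCF
    omega

/-- the part of a member outside its children -/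
def core (𝓕 : Finset (Set α)) (F : Set α) : Set α := F \ ⋃ C ∈ ch 𝓕 F, C

theorem core_disj {𝓕 : Finset (Set α)} (h : Lam 𝓕) {F1 F2 : Set α} (h1 : F1 ∈ 𝓕) (h2 : F2 ∈ 𝓕)
    (hne : F1 ≠ F2) : Disjoint (core 𝓕 F1) (core 𝓕 F2) := by
  rw [Set.disjoint_left]
  intro x hx1 hx2
  have key : ∀ {A B : Set α}, A ∈ 𝓕 → B ∈ 𝓕 → A ⊂ B → x ∈ A → x ∉ core 𝓕 B := by
    intro A B hA hB hAB hxA hxB
    obtain ⟨C, hC, hAC⟩ := exists_ch h hB hA hAB
    exact hxB.2 (Set.mem_biUnion hC (hAC hxA))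
  rcases h.chain h1 h2 hx1.1 hx2.1 with h3 | h3
  · exact key h1 h2 (Set.ssubset_iff_subset_ne.mpr ⟨h3, hne⟩) hx1.1 hx2
  · exact key h2 h1 (Set.ssubset_iff_subset_ne.mpr ⟨h3, hne.symm⟩) hx2.1 hx1

variable [MeasurableSpace α]

theorem measurableSet_core {𝓕 : Finset (Set α)} (hm : ∀ Q ∈ 𝓕, MeasurableSet Q) {F : Set α}
    (hF : F ∈ 𝓕) : MeasurableSet (core 𝓕 F) :=
  (hm F hF).diff (Finset.measurableSet_biUnion _ fun C hC => hm C (mem_ch.mp hC).1)

/-- one stopping cube -/
theorem one_block {W : Measure α} [IsFiniteMeasure W] {𝓕 : Finset (Set α)} (h𝓕 : Lam 𝓕)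
    (hm : ∀ Q ∈ 𝓕, MeasurableSet Q) (hW : ∀ Q ∈ 𝓕, 0 < W.real Q) {F : Set α} (hF : F ∈ 𝓕)
    {p : ℝ} (hp : 1 < p) {h ψ : α → ℝ} (hh : MemLp h (ENNReal.ofReal (p / (p - 1))) W)
    (hh0 : ∀ x, 0 ≤ h x) (hψm : Measurable ψ) (hψ0 : ∀ x, 0 ≤ ψ x) {Cψ : ℝ}
    (hψb : ∀ x, ψ x ≤ Cψ) (hψF : ∀ x, x ∉ F → ψ x = 0)
    (hconst : ∀ C ∈ ch 𝓕 F, ∀ x ∈ C, ∀ y ∈ C, ψ x = ψ y) :
    ∫ x, h x * ψ x ∂W ≤ (∫ x, ψ x ^ p ∂W) ^ (1 / p) *
      ((∫ x in core 𝓕 F, h x ^ (p / (p - 1)) ∂W) +
        ∑ C ∈ ch 𝓕 F, ((∫ x in C, h x ∂W) / W.real C) ^ (p / (p - 1)) * W.real C) ^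
          (1 - 1 / p) := by
  classical
  have hp0 : 0 < p := by linarith
  have hp1 : 0 < p - 1 := by linarith
  set p' : ℝ := p / (p - 1) with hp'
  have hpq : p.HolderConjugate p' := Real.HolderConjugate.conjExponent hp
  have hp'0 : 0 < p' := by positivity
  have hp'1 : 1 < p' := by
    rw [hp', lt_div_iff₀ hp1]
    linarith
  have hhi : Integrable h W := hh.integrable (by
    rw [← ENNReal.ofReal_one]
    exact ENNReal.ofReal_le_ofReal hp'1.le)
  have hψabs : ∀ x, |ψ x| ≤ Cψ := fun x => by rw [abs_of_nonneg (hψ0 x)]; exact hψb x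
  have hψL : ∀ q : ℝ≥0∞, MemLp ψ q W := fun q => memLp_bdd hψm hψabs q
  set E := core 𝓕 F with hE
  have hEm : MeasurableSet E := measurableSet_core hm hF
  have hCm : ∀ C ∈ ch 𝓕 F, MeasurableSet C := fun C hC => hm C (mem_ch.mp hC).1
  have hCW : ∀ C ∈ ch 𝓕 F, 0 < W.real C := fun C hC => hW C (mem_ch.mp hC).1
  set b : Set α → ℝ := fun C => (∫ x in C, h x ∂W) / W.real C with hb
  have hb0 : ∀ C ∈ ch 𝓕 F, 0 ≤ b C := fun C _ =>
    div_nonneg (integral_nonneg fun x => hh0 x) measureReal_nonneg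
  set k : α → ℝ := fun x => E.indicator h x + stepF (ch 𝓕 F) b x with hk
  have hk0 : ∀ x, 0 ≤ k x := fun x =>
    add_nonneg (Set.indicator_nonneg (fun y _ => hh0 y) x) (stepF_nonneg hb0 x)
  have hkL : MemLp k (ENNReal.ofReal p') W := (hh.indicator hEm).add (memLp_stepF hCm hb0 _)
  -- the integral does not change
  have hhψ : Integrable (fun x => h x * ψ x) W := by
    have := hhi.mul_bdd (c := Cψ) hψm.aestronglyMeasurable
      (Filter.Eventually.of_forall fun x => by rw [Real.norm_eq_abs]; exact hψabs x)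
    exact this
  have hdec : F = E ∪ ⋃ C ∈ ch 𝓕 F, C := by
    rw [hE]
    unfold core
    rw [Set.sdiff_union_of_subset]
    intro x hx
    rw [Set.mem_iUnion₂] at hx
    obtain ⟨C, hC, hxC⟩ := hx
    exact (mem_ch.mp hC).2.1.subset hxC
  have hdisj : Disjoint E (⋃ C ∈ ch 𝓕 F, C) := by
    rw [hE]
    exact Set.disjoint_sdiff_left
  have hUm : MeasurableSet (⋃ C ∈ ch 𝓕 F, C) := Finset.measurableSet_biUnion _ hCm
  have hpd : ((ch 𝓕 F : Finset (Set α)) : Set (Set α)).PairwiseDisjoint id :=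
    fun C hC C' hC' hne => ch_disj h𝓕 hC hC' hne
  have hi1 : ∫ x, h x * ψ x ∂W = (∫ x in E, h x * ψ x ∂W) +
      ∑ C ∈ ch 𝓕 F, ∫ x in C, h x * ψ x ∂W := by
    have h1 : ∫ x, h x * ψ x ∂W = ∫ x in F, h x * ψ x ∂W := by
      symm
      apply setIntegral_eq_integral_of_forall_compl_eq_zero
      intro x hx
      rw [hψF x hx, mul_zero]
    rw [h1]
    conv_lhs => rw [hdec]
    rw [setIntegral_union hdisj hUm hhψ.integrableOn hhψ.integrableOn,
      integral_biUnion_finset _ hCm hpd fun C _ => hhψ.integrableOn]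
  have hi2 : ∀ C ∈ ch 𝓕 F, ∫ x in C, h x * ψ x ∂W = b C * ∫ x in C, ψ x ∂W := by
    intro C hC
    obtain ⟨y, hy⟩ := h𝓕.ne C (mem_ch.mp hC).1
    have h1 : ∫ x in C, h x * ψ x ∂W = ∫ x in C, h x * ψ y ∂W :=
      setIntegral_congr_fun (hCm C hC) fun x hx => by
        show h x * ψ x = h x * ψ y
        rw [hconst C hC x hx y hy]
    have h2 : ∫ x in C, ψ x ∂W = ∫ x in C, ψ y ∂W :=
      setIntegral_congr_fun (hCm C hC) fun x hx => hconst C hC x hx y hy
    rw [h1, h2, integral_mul_const, setIntegral_const, smul_eq_mul, hb]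
    have := (hCW C hC).ne'
    field_simp
  have hi3 : ∫ x, k x * ψ x ∂W = ∫ x, h x * ψ x ∂W := by
    have h1 : ∀ x, k x * ψ x = E.indicator (fun x => h x * ψ x) x +
        ψ x * stepF (ch 𝓕 F) b x := by
      intro x
      rw [hk]
      simp only
      by_cases hx : x ∈ E
      · rw [Set.indicator_of_mem hx, Set.indicator_of_mem hx]; ring
      · rw [Set.indicator_of_notMem hx, Set.indicator_of_notMem hx]; ring
    simp only [h1]
    have hψi : Integrable ψ W := memLp_one_iff_integrable.mp (hψL 1)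
    have hint2 : Integrable (fun x => ψ x * stepF (ch 𝓕 F) b x) W := by
      apply hψi.mul_bdd (c := ∑ C ∈ ch 𝓕 F, b C) (measurable_stepF hCm b).aestronglyMeasurable
      exact Filter.Eventually.of_forall fun x => by
        rw [Real.norm_of_nonneg (stepF_nonneg hb0 x)]; exact stepF_le hb0 x
    rw [integral_add (hhψ.indicator hEm) hint2, integral_indicator hEm,
      integral_mul_stepF hCm b hψi, hi1]
    congr 1
    apply Finset.sum_congr rfl
    intro C hC
    rw [hi2 C hC]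
  rw [← hi3]
  have hH := integral_mul_le_Lp_mul_Lq_of_nonneg (μ := W) hpq (f := ψ) (g := k)
    (Filter.Eventually.of_forall hψ0) (Filter.Eventually.of_forall hk0) (hψL _) hkL
  have hcomm : ∫ x, k x * ψ x ∂W = ∫ x, ψ x * k x ∂W := by
    congr 1; funext x; ring
  rw [hcomm]
  refine hH.trans ?_
  have h10 : 1 / p' = 1 - 1 / p := by rw [hp']; field_simp
  rw [h10]
  apply mul_le_mul_of_nonneg_left
  · apply Real.rpow_le_rpow (integral_nonneg fun x => Real.rpow_nonneg (hk0 x) _)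
    · -- the integral of `k ^ p'`
      have h1 : ∀ x, k x ^ p' = E.indicator (fun x => h x ^ p') x +
          stepF (ch 𝓕 F) (fun C => b C ^ p') x := by
        intro x
        rw [hk]
        simp only
        by_cases hx : x ∈ E
        · have h2 : ∀ c : Set α → ℝ, stepF (ch 𝓕 F) c x = 0 := by
            intro c
            rw [stepF_eq]
            apply Finset.sum_eq_zero
            intro C hC
            rw [Finset.mem_filter] at hC
            exact absurd (Set.mem_biUnion hC.1 hC.2) hx.2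
          rw [Set.indicator_of_mem hx, Set.indicator_of_mem hx, h2, h2, add_zero, add_zero]
        · rw [Set.indicator_of_notMem hx, Set.indicator_of_notMem hx, zero_add, zero_add]
          rw [stepF_eq, stepF_eq]
          by_cases hex : ∃ C ∈ ch 𝓕 F, x ∈ C
          · obtain ⟨C, hC, hxC⟩ := hex
            have h3 : (ch 𝓕 F).filter (x ∈ ·) = {C} := by
              ext C'
              rw [Finset.mem_filter, Finset.mem_singleton]
              constructor
              · rintro ⟨h4, h5⟩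
                by_contra hne
                exact Set.disjoint_left.mp (ch_disj h𝓕 h4 hC hne) h5 hxC
              · rintro rfl
                exact ⟨hC, hxC⟩
            rw [h3, Finset.sum_singleton, Finset.sum_singleton]
          · push Not at hex
            have h3 : (ch 𝓕 F).filter (x ∈ ·) = ∅ := by
              rw [Finset.filter_eq_empty_iff]
              exact fun {C} hC => hex C hC
            rw [h3, Finset.sum_empty, Finset.sum_empty, Real.zero_rpow hp'0.ne']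
      simp only [h1]
      have hhp : Integrable (fun x => h x ^ p') W := by
        have := hh.integrable_norm_rpow (by
          rw [Ne, ENNReal.ofReal_eq_zero, not_le]; exact hp'0) ENNReal.ofReal_ne_top
        rw [ENNReal.toReal_ofReal hp'0.le] at this
        refine this.congr (Filter.Eventually.of_forall fun x => ?_)
        simp only
        rw [Real.norm_of_nonneg (hh0 x)]
      rw [integral_add (hhp.indicator hEm) (integrable_stepF hCm fun C hC =>
        Real.rpow_nonneg (hb0 C hC) _), integral_indicator hEm, integral_stepF hCm]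
    · rw [← h10]; positivity
  · exact Real.rpow_nonneg (integral_nonneg fun x => Real.rpow_nonneg (hψ0 x) _) _

open Classical in
/-- the one-sided estimate -/
theorem half {μ W N : Measure α} [IsFiniteMeasure W] [IsFiniteMeasure N]
    {S : Finset (Set α)} (hS : Lam S) (hm : ∀ Q ∈ S, MeasurableSet Q)
    (hμ : ∀ Q ∈ S, 0 < μ.real Q) (hW : ∀ Q ∈ S, 0 < W.real Q) (hN : ∀ Q ∈ S, 0 < N.real Q)
    {p : ℝ} (hp : 1 < p) {φ h : α → ℝ} (hφ : MemLp φ (ENNReal.ofReal p) N) (hφ0 : ∀ x, 0 ≤ φ x)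
    (hh : MemLp h (ENNReal.ofReal (p / (p - 1))) W) (hh0 : ∀ x, 0 ≤ h x)
    (hG : ∀ Q ∈ S, 0 < ∫ x in Q, φ x ∂N) {ρ : ℝ} (hρ : 0 ≤ ρ)
    (hcmp : ∀ Q ∈ S, ((∫ x in Q, h x ∂W) / W.real Q) ^ (p / (p - 1)) * W.real Q ≤
      ρ * (((∫ x in Q, φ x ∂N) / N.real Q) ^ p * N.real Q)) {τ : ℝ} (hτ : 0 ≤ τ)
    (htest : ∀ R ∈ S, ∫ x, stepF (sub S R) (den N μ) x ^ p ∂W ≤ τ ^ p * N.real R) :
    ∑ Q ∈ S, (∫ x in Q, φ x ∂N) / μ.real Q * ∫ x in Q, h x ∂W ≤
      2 * τ * (ce p * ∫ x, φ x ^ p ∂N) ^ (1 / p) *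
        ((∫ x, h x ^ (p / (p - 1)) ∂W) + ρ * (2 ^ p * (ce p * ∫ x, φ x ^ p ∂N))) ^
          (1 - 1 / p) := by
  have hp0 : 0 < p := by linarith
  have hp1 : 0 < p - 1 := by linarith
  set p' : ℝ := p / (p - 1) with hp'
  have hpq : p.HolderConjugate p' := Real.HolderConjugate.conjExponent hp
  have hp'0 : 0 < p' := by positivity
  have hp'1 : 1 < p' := by
    rw [hp', lt_div_iff₀ hp1]
    linarith
  have h10 : 1 / p' = 1 - 1 / p := by rw [hp']; field_simp
  have hhi : Integrable h W := hh.integrable (by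
    rw [← ENNReal.ofReal_one]
    exact ENNReal.ofReal_le_ofReal hp'1.le)
  set G : Set α → ℝ := fun Q => ∫ x in Q, φ x ∂N with hGdef
  set H : Set α → ℝ := fun Q => ∫ x in Q, h x ∂W with hHdef
  have hH0 : ∀ Q, 0 ≤ H Q := fun Q => integral_nonneg fun x => hh0 x
  set l : Set α → ℤ := fun Q => lev (G Q / N.real Q) with hl
  have hGN : ∀ Q ∈ S, 0 < G Q / N.real Q := fun Q hQ => div_pos (hG Q hQ) (hN Q hQ)
  set 𝓕 := recs S l with h𝓕
  have hsub : 𝓕 ⊆ S := recs_subset
  have hL : Lam 𝓕 := hS.mono hsub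
  have hFm : ∀ F ∈ 𝓕, MeasurableSet F := fun F hF => hm F (hsub hF)
  have hd0 : ∀ Q, 0 ≤ den N μ Q := fun Q => div_nonneg measureReal_nonneg measureReal_nonneg
  set ψ : Set α → α → ℝ := fun F => stepF (S.filter fun Q => top S l Q = F) (den N μ) with hψ
  have hfm : ∀ F, ∀ Q ∈ S.filter fun Q => top S l Q = F, MeasurableSet Q := fun F Q hQ =>
    hm Q (Finset.mem_filter.mp hQ).1
  -- reduction to the blocks
  have hstep1 : ∑ Q ∈ S, G Q / μ.real Q * H Q ≤
      ∑ F ∈ 𝓕, 2 * (2 : ℝ) ^ (l F : ℝ) * ∫ x, h x * ψ F x ∂W := by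
    rw [sum_fiber_top hS l]
    apply Finset.sum_le_sum
    intro F hF
    rw [hψ]
    simp only
    rw [integral_mul_stepF (hfm F) _ hhi, Finset.mul_sum]
    apply Finset.sum_le_sum
    intro Q hQ
    have hQ' := Finset.mem_filter.mp hQ
    have h1 := lt_lev' (hGN Q hQ'.1)
    have h2 := (top_spec hS l hQ'.1).2.2.1
    rw [hQ'.2] at h2
    have h3 : (2 : ℝ) ^ (l Q : ℝ) ≤ 2 ^ (l F : ℝ) :=
      Real.rpow_le_rpow_of_exponent_le (by norm_num) (by exact_mod_cast h2)
    have h4 : G Q / N.real Q ≤ 2 * 2 ^ (l F : ℝ) := by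
      have : (2 : ℝ) ^ (lev (G Q / N.real Q) : ℝ) = 2 ^ (l Q : ℝ) := rfl
      rw [this] at h1
      linarith
    have hNQ := hN Q hQ'.1
    have hμQ := hμ Q hQ'.1
    have h5 : G Q / μ.real Q = G Q / N.real Q * den N μ Q := by
      unfold den
      field_simp
    rw [h5]
    calc G Q / N.real Q * den N μ Q * H Q ≤ 2 * 2 ^ (l F : ℝ) * den N μ Q * H Q :=
          mul_le_mul_of_nonneg_right (mul_le_mul_of_nonneg_right h4 (hd0 Q)) (hH0 Q)
      _ = _ := by ring
  -- the estimate for a block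
  set bF : Set α → ℝ := fun F => (∫ x in core 𝓕 F, h x ^ p' ∂W) +
    ∑ C ∈ ch 𝓕 F, (H C / W.real C) ^ p' * W.real C with hbF
  have hbF0 : ∀ F, 0 ≤ bF F := fun F => add_nonneg
    (integral_nonneg fun x => Real.rpow_nonneg (hh0 x) _)
    (Finset.sum_nonneg fun C _ => mul_nonneg (Real.rpow_nonneg (div_nonneg (hH0 C)
      measureReal_nonneg) _) measureReal_nonneg)
  have hblock : ∀ F ∈ 𝓕, ∫ x, h x * ψ F x ∂W ≤
      τ * N.real F ^ (1 / p) * bF F ^ (1 / p') := by
    intro F hF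
    have hfd0 : ∀ Q ∈ S.filter (fun Q => top S l Q = F), 0 ≤ den N μ Q := fun Q _ => hd0 Q
    have h1 := one_block hL hFm (fun Q hQ => hW Q (hsub hQ)) hF hp (h := h) (ψ := ψ F) hh hh0
      (measurable_stepF (hfm F) _) (stepF_nonneg hfd0)
      (Cψ := ∑ Q ∈ S.filter (fun Q => top S l Q = F), den N μ Q) (stepF_le hfd0)
      (by
        intro x hx
        rw [hψ]
        simp only
        rw [stepF_eq]
        apply Finset.sum_eq_zero
        intro Q hQ
        rw [Finset.mem_filter, Finset.mem_filter] at hQ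
        have h2 := (top_spec hS l hQ.1.1).2.1
        rw [hQ.1.2] at h2
        exact absurd (h2 hQ.2) hx)
      (by
        intro C hC x hx y hy
        rw [hψ]
        simp only
        rw [stepF_eq, stepF_eq]
        have hC' := mem_ch.mp hC
        have key : ∀ u ∈ C, ∀ v ∈ C, ∀ Q ∈ S.filter (fun Q => top S l Q = F), u ∈ Q → v ∈ Q := by
          intro u hu v hv Q hQ huQ
          have hQ' := Finset.mem_filter.mp hQ
          rcases hS.chain hQ'.1 (hsub hC'.1) huQ hu with h2 | h2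
          · have h3 := (top_spec hS l hQ'.1).2.2.2 C hC'.1 h2
            rw [hQ'.2] at h3
            exact absurd h3 hC'.2.1.not_subset
          · exact h2 hv
        apply Finset.sum_congr _ fun _ _ => rfl
        ext Q
        constructor
        · intro hQ
          have hQ2 := Finset.mem_filter.mp hQ
          exact Finset.mem_filter.mpr ⟨hQ2.1, key x hx y hy Q hQ2.1 hQ2.2⟩
        · intro hQ
          have hQ2 := Finset.mem_filter.mp hQ
          exact Finset.mem_filter.mpr ⟨hQ2.1, key y hy x hx Q hQ2.1 hQ2.2⟩)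
    refine h1.trans ?_
    rw [← h10]
    apply mul_le_mul_of_nonneg_right _ (Real.rpow_nonneg (hbF0 F) _)
    have h2 : ∫ x, ψ F x ^ p ∂W ≤ τ ^ p * N.real F := by
      refine le_trans ?_ (htest F (hsub hF))
      have hsd0 : ∀ Q ∈ sub S F, 0 ≤ den N μ Q := fun Q _ => hd0 Q
      apply integral_mono_of_nonneg
      · exact Filter.Eventually.of_forall fun x => Real.rpow_nonneg (stepF_nonneg hfd0 x) _
      · have h3 : MemLp (stepF (sub S F) (den N μ)) (ENNReal.ofReal p) W :=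
          memLp_stepF (fun Q hQ => hm Q (sub_subset hQ)) hsd0 _
        have := h3.integrable_norm_rpow (by
          rw [Ne, ENNReal.ofReal_eq_zero, not_le]; exact hp0) ENNReal.ofReal_ne_top
        rw [ENNReal.toReal_ofReal hp0.le] at this
        refine this.congr (Filter.Eventually.of_forall fun x => ?_)
        simp only
        rw [Real.norm_of_nonneg (stepF_nonneg hsd0 x)]
      · apply Filter.Eventually.of_forall
        intro x
        apply Real.rpow_le_rpow (stepF_nonneg hfd0 x) _ hp0.le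
        apply stepF_le_subset _ hsd0
        intro Q hQ
        have hQ' := Finset.mem_filter.mp hQ
        have h3 := (top_spec hS l hQ'.1).2.1
        rw [hQ'.2] at h3
        exact mem_sub.mpr ⟨hQ'.1, h3⟩
    calc (∫ x, ψ F x ^ p ∂W) ^ (1 / p) ≤ (τ ^ p * N.real F) ^ (1 / p) := by
          apply Real.rpow_le_rpow _ h2 (by positivity)
          exact integral_nonneg fun x => Real.rpow_nonneg (stepF_nonneg hfd0 x) _
      _ = _ := by
          rw [Real.mul_rpow (Real.rpow_nonneg hτ _) measureReal_nonneg, ← Real.rpow_mul hτ,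
            mul_one_div_cancel hp0.ne', Real.rpow_one]
  -- summation
  set X : ℝ := ∫ x, φ x ^ p ∂N with hX
  set Y : ℝ := ∫ x, h x ^ p' ∂W with hY
  have hce := ce_nonneg hp
  have hcar : ∑ F ∈ 𝓕, (2 : ℝ) ^ (p * l F) * N.real F ≤ ce p * X := by
    have := carleson_recs (ν := N) hS hm l hp hφ hφ0 (by
      intro Q hQ
      have h2 := lev_le (hGN Q hQ)
      calc (2 : ℝ) ^ (l Q : ℝ) * N.real Q ≤ G Q / N.real Q * N.real Q :=
            mul_le_mul_of_nonneg_right h2 (hN Q hQ).le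
        _ = _ := div_mul_cancel₀ _ (hN Q hQ).ne') (U := univ) MeasurableSet.univ
        (fun Q _ => subset_univ Q)
    rwa [setIntegral_univ] at this
  have hbsum : ∑ F ∈ 𝓕, bF F ≤ Y + ρ * (2 ^ p * (ce p * X)) := by
    rw [hbF]
    simp only
    rw [Finset.sum_add_distrib]
    apply add_le_add
    · have hhp : Integrable (fun x => h x ^ p') W := by
        have := hh.integrable_norm_rpow (by
          rw [Ne, ENNReal.ofReal_eq_zero, not_le]; exact hp'0) ENNReal.ofReal_ne_top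
        rw [ENNReal.toReal_ofReal hp'0.le] at this
        refine this.congr (Filter.Eventually.of_forall fun x => ?_)
        simp only
        rw [Real.norm_of_nonneg (hh0 x)]
      rw [← integral_biUnion_finset 𝓕 (fun F hF => measurableSet_core hFm hF)
        (fun F hF F' hF' hne => core_disj hL hF hF' hne) fun F _ => hhp.integrableOn]
      exact setIntegral_le_integral hhp
        (Filter.Eventually.of_forall fun x => Real.rpow_nonneg (hh0 x) _)
    · have hpd : (𝓕 : Set (Set α)).PairwiseDisjoint (ch 𝓕) := by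
        intro F hF F' hF' hne
        rw [Function.onFun, Finset.disjoint_left]
        intro C hC hC'
        exact hne (ch_unique hF hF' hC hC')
      rw [← Finset.sum_biUnion hpd]
      calc ∑ C ∈ 𝓕.biUnion (ch 𝓕), (H C / W.real C) ^ p' * W.real C
          ≤ ∑ C ∈ 𝓕, (H C / W.real C) ^ p' * W.real C := by
            apply Finset.sum_le_sum_of_subset_of_nonneg
            · intro C hC
              rw [Finset.mem_biUnion] at hC
              obtain ⟨F, _, hC⟩ := hC
              exact (mem_ch.mp hC).1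
            · intro C _ _
              exact mul_nonneg (Real.rpow_nonneg (div_nonneg (hH0 C) measureReal_nonneg) _)
                measureReal_nonneg
        _ ≤ ∑ C ∈ 𝓕, ρ * (2 ^ p * ((2 : ℝ) ^ (p * l C) * N.real C)) := by
            apply Finset.sum_le_sum
            intro C hC
            refine (hcmp C (hsub hC)).trans ?_
            apply mul_le_mul_of_nonneg_left _ hρ
            rw [← mul_assoc]
            apply mul_le_mul_of_nonneg_right _ measureReal_nonneg
            have h1 := Real.rpow_le_rpow (hGN C (hsub hC)).le (lt_lev' (hGN C (hsub hC))).le hp0.le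
            rw [Real.mul_rpow (by norm_num) (two_rpow_pos _).le, ← Real.rpow_mul (by norm_num),
              mul_comm (lev _ : ℝ) p] at h1
            exact h1
        _ = ρ * (2 ^ p * ∑ C ∈ 𝓕, (2 : ℝ) ^ (p * l C) * N.real C) := by
            rw [Finset.mul_sum, Finset.mul_sum]
        _ ≤ _ := by
            apply mul_le_mul_of_nonneg_left _ hρ
            exact mul_le_mul_of_nonneg_left hcar (by positivity)
  have hX0 : 0 ≤ X := integral_nonneg fun x => Real.rpow_nonneg (hφ0 x) _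
  have hY0 : 0 ≤ Y := integral_nonneg fun x => Real.rpow_nonneg (hh0 x) _
  calc ∑ Q ∈ S, G Q / μ.real Q * H Q
      ≤ ∑ F ∈ 𝓕, 2 * (2 : ℝ) ^ (l F : ℝ) * ∫ x, h x * ψ F x ∂W := hstep1
    _ ≤ ∑ F ∈ 𝓕, 2 * (2 : ℝ) ^ (l F : ℝ) * (τ * N.real F ^ (1 / p) * bF F ^ (1 / p')) := by
        apply Finset.sum_le_sum
        intro F hF
        apply mul_le_mul_of_nonneg_left (hblock F hF)
        have := two_rpow_pos (l F : ℝ)
        positivity
    _ = 2 * τ * ∑ F ∈ 𝓕, ((2 : ℝ) ^ (l F : ℝ) * N.real F ^ (1 / p)) * bF F ^ (1 / p') := by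
        rw [Finset.mul_sum]
        apply Finset.sum_congr rfl
        intro F _
        ring
    _ ≤ 2 * τ * ((∑ F ∈ 𝓕, ((2 : ℝ) ^ (l F : ℝ) * N.real F ^ (1 / p)) ^ p) ^ (1 / p) *
        (∑ F ∈ 𝓕, (bF F ^ (1 / p')) ^ p') ^ (1 / p')) := by
        apply mul_le_mul_of_nonneg_left _ (by positivity)
        apply Real.inner_le_Lp_mul_Lq_of_nonneg 𝓕 hpq
        · intro F _
          exact mul_nonneg (two_rpow_pos _).le (Real.rpow_nonneg measureReal_nonneg _)
        · intro F _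
          exact Real.rpow_nonneg (hbF0 F) _
    _ = 2 * τ * ((∑ F ∈ 𝓕, (2 : ℝ) ^ (p * l F) * N.real F) ^ (1 / p) *
        (∑ F ∈ 𝓕, bF F) ^ (1 / p')) := by
        have e1 : ∑ F ∈ 𝓕, ((2 : ℝ) ^ (l F : ℝ) * N.real F ^ (1 / p)) ^ p =
            ∑ F ∈ 𝓕, (2 : ℝ) ^ (p * l F) * N.real F := by
          apply Finset.sum_congr rfl
          intro F _
          rw [Real.mul_rpow (two_rpow_pos _).le (Real.rpow_nonneg measureReal_nonneg _),
            ← Real.rpow_mul (by norm_num), ← Real.rpow_mul measureReal_nonneg,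
            one_div_mul_cancel hp0.ne', Real.rpow_one, mul_comm (l F : ℝ) p]
        have e2 : ∑ F ∈ 𝓕, (bF F ^ (1 / p')) ^ p' = ∑ F ∈ 𝓕, bF F := by
          apply Finset.sum_congr rfl
          intro F _
          rw [← Real.rpow_mul (hbF0 F), one_div_mul_cancel hp'0.ne', Real.rpow_one]
        rw [e1, e2]
    _ ≤ 2 * τ * ((ce p * X) ^ (1 / p) * (Y + ρ * (2 ^ p * (ce p * X))) ^ (1 / p')) := by
        apply mul_le_mul_of_nonneg_left _ (by positivity)
        apply mul_le_mul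
        · apply Real.rpow_le_rpow _ hcar (by positivity)
          exact Finset.sum_nonneg fun F _ => mul_nonneg (two_rpow_pos _).le measureReal_nonneg
        · apply Real.rpow_le_rpow _ hbsum (by positivity)
          exact Finset.sum_nonneg fun F _ => hbF0 F
        · exact Real.rpow_nonneg (Finset.sum_nonneg fun F _ => hbF0 F) _
        · exact Real.rpow_nonneg (mul_nonneg hce hX0) _
    _ = _ := by rw [h10]; ring

end Pool.Agent.Helper51.Sp
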