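import Pool.Agent.Helper51.SPStrong

/-! Two testing conditions imply the strong type inequality: conclusion. -/

open MeasureTheory Set
open scoped ENNReal

namespace Pool.Agent.Helper51.Sp

variable {α : Type*} [MeasurableSpace α]

theorem integrable_rpow_of {ν : Measure α} {φ : α → ℝ} {p : ℝ} (hp : 0 < p)
    (hφ : MemLp φ (ENNReal.ofReal p) ν) (hφ0 : ∀ x, 0 ≤ φ x) :
    Integrable (fun x => φ x ^ p) ν := by
  have := hφ.integrable_norm_rpow (by
    rw [Ne, ENNReal.ofReal_eq_zero, not_le]; exact hp) ENNReal.ofReal_ne_top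
  rw [ENNReal.toReal_ofReal hp.le] at this
  refine this.congr (Filter.Eventually.of_forall fun x => ?_)
  simp only
  rw [Real.norm_of_nonneg (hφ0 x)]

/-- constant of the one-sided estimate -/
noncomputable def hC (p : ℝ) : ℝ := 2 * ce p ^ (1 / p) * (1 + 2 ^ p * ce p) ^ (1 - 1 / p)

theorem hC_nonneg {p : ℝ} (hp : 1 < p) : 0 ≤ hC p := by
  unfold hC
  have h1 := ce_nonneg hp
  have h2 := Real.rpow_nonneg h1 (1 / p)
  have h3 : 0 ≤ 1 + 2 ^ p * ce p := by positivity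
  have h4 := Real.rpow_nonneg h3 (1 - 1 / p)
  positivity

theorem half_const {p X Y τ : ℝ} (hp : 1 < p) (hX : 0 < X) (hY : 0 < Y) :
    2 * τ * (ce p * X) ^ (1 / p) * (Y + Y / X * (2 ^ p * (ce p * X))) ^ (1 - 1 / p) =
      hC p * τ * (X ^ (1 / p) * Y ^ (1 - 1 / p)) := by
  have h1 := ce_nonneg hp
  have h3 : 0 ≤ 1 + 2 ^ p * ce p := by positivity
  have e : Y + Y / X * (2 ^ p * (ce p * X)) = (1 + 2 ^ p * ce p) * Y := by
    field_simp
  rw [e, Real.mul_rpow h1 hX.le, Real.mul_rpow h3 hY.le]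
  unfold hC
  ring

open Classical in
/-- the bilinear estimate -/
theorem bilinear {μ W N : Measure α} [IsFiniteMeasure W] [IsFiniteMeasure N]
    {S : Finset (Set α)} (hS : Lam S) (hm : ∀ Q ∈ S, MeasurableSet Q)
    (hμ : ∀ Q ∈ S, 0 < μ.real Q) (hW : ∀ Q ∈ S, 0 < W.real Q) (hN : ∀ Q ∈ S, 0 < N.real Q)
    {p : ℝ} (hp : 1 < p) {φ h : α → ℝ} (hφ : MemLp φ (ENNReal.ofReal p) N) (hφ0 : ∀ x, 0 ≤ φ x)
    (hh : MemLp h (ENNReal.ofReal (p / (p - 1))) W) (hh0 : ∀ x, 0 ≤ h x)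
    {τ1 τ2 : ℝ} (hτ1 : 0 ≤ τ1) (hτ2 : 0 ≤ τ2)
    (htest1 : ∀ R ∈ S, ∫ x, stepF (sub S R) (den N μ) x ^ p ∂W ≤ τ1 ^ p * N.real R)
    (htest2 : ∀ R ∈ S, ∫ x, stepF (sub S R) (den W μ) x ^ (p / (p - 1)) ∂N ≤
      τ2 ^ (p / (p - 1)) * W.real R)
    (hX : 0 < ∫ x, φ x ^ p ∂N) (hY : 0 < ∫ x, h x ^ (p / (p - 1)) ∂W) :
    ∑ Q ∈ S, (∫ x in Q, φ x ∂N) / μ.real Q * ∫ x in Q, h x ∂W ≤
      (hC p * τ1 + hC (p / (p - 1)) * τ2) *
        ((∫ x, φ x ^ p ∂N) ^ (1 / p) * (∫ x, h x ^ (p / (p - 1)) ∂W) ^ (1 - 1 / p)) := by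
  have hp0 : 0 < p := by linarith
  have hp1 : 0 < p - 1 := by linarith
  set p' : ℝ := p / (p - 1) with hp'
  have hp'0 : 0 < p' := by positivity
  have hp'1 : 1 < p' := by
    rw [hp', lt_div_iff₀ hp1]
    linarith
  have hpp : p' / (p' - 1) = p := by
    rw [hp']
    field_simp
    ring
  have h10 : 1 / p' = 1 - 1 / p := by rw [hp']; field_simp
  have h11 : 1 - 1 / p' = 1 / p := by rw [h10]; ring
  set G : Set α → ℝ := fun Q => ∫ x in Q, φ x ∂N with hGdef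
  set H : Set α → ℝ := fun Q => ∫ x in Q, h x ∂W with hHdef
  have hG0 : ∀ Q, 0 ≤ G Q := fun Q => integral_nonneg fun x => hφ0 x
  have hH0 : ∀ Q, 0 ≤ H Q := fun Q => integral_nonneg fun x => hh0 x
  set X : ℝ := ∫ x, φ x ^ p ∂N with hXdef
  set Y : ℝ := ∫ x, h x ^ p' ∂W with hYdef
  set S' := S.filter fun Q => 0 < G Q ∧ 0 < H Q with hS'
  set S1 := S'.filter fun Q => (H Q / W.real Q) ^ p' * W.real Q ≤
    Y / X * ((G Q / N.real Q) ^ p * N.real Q) with hS1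
  set S2 := S'.filter fun Q => ¬ (H Q / W.real Q) ^ p' * W.real Q ≤
    Y / X * ((G Q / N.real Q) ^ p * N.real Q) with hS2
  have hS'S : S' ⊆ S := Finset.filter_subset _ _
  have hS1S : S1 ⊆ S := (Finset.filter_subset _ _).trans hS'S
  have hS2S : S2 ⊆ S := (Finset.filter_subset _ _).trans hS'S
  have h1 : ∑ Q ∈ S, G Q / μ.real Q * H Q = ∑ Q ∈ S', G Q / μ.real Q * H Q := by
    rw [hS', Finset.sum_filter]
    apply Finset.sum_congr rfl
    intro Q _
    split_ifs with hQ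
    · rfl
    · rw [not_and_or, not_lt, not_lt] at hQ
      rcases hQ with hQ | hQ
      · rw [le_antisymm hQ (hG0 Q), zero_div, zero_mul]
      · rw [le_antisymm hQ (hH0 Q), mul_zero]
  have h2 : ∑ Q ∈ S', G Q / μ.real Q * H Q = (∑ Q ∈ S1, G Q / μ.real Q * H Q) +
      ∑ Q ∈ S2, G Q / μ.real Q * H Q :=
    (Finset.sum_filter_add_sum_filter_not S' _ _).symm
  -- testing passes to subfamilies
  have hsubtest : ∀ {M1 M2 : Measure α} [IsFiniteMeasure M2] {q : ℝ} (_ : 0 < q)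
      {S0 : Finset (Set α)} (_ : S0 ⊆ S) (R : Set α),
      ∫ x, stepF (sub S0 R) (den M1 μ) x ^ q ∂M2 ≤ ∫ x, stepF (sub S R) (den M1 μ) x ^ q ∂M2 := by
    intro M1 M2 _ q hq S0 hS0 R
    have hd0 : ∀ Q, 0 ≤ den M1 μ Q := fun Q => div_nonneg measureReal_nonneg measureReal_nonneg
    apply integral_mono_of_nonneg
    · exact Filter.Eventually.of_forall fun x =>
        Real.rpow_nonneg (stepF_nonneg (fun Q _ => hd0 Q) x) _
    · apply integrable_rpow_of hq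
      · exact memLp_stepF (fun Q hQ => hm Q (sub_subset hQ)) (fun Q _ => hd0 Q) _
      · exact fun x => stepF_nonneg (fun Q _ => hd0 Q) x
    · apply Filter.Eventually.of_forall
      intro x
      apply Real.rpow_le_rpow (stepF_nonneg (fun Q _ => hd0 Q) x) _ hq.le
      apply stepF_le_subset _ fun Q _ => hd0 Q
      intro Q hQ
      rw [mem_sub] at hQ ⊢
      exact ⟨hS0 hQ.1, hQ.2⟩
  have hb1 := half (μ := μ) (W := W) (N := N) (hS.mono hS1S) (fun Q hQ => hm Q (hS1S hQ))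
    (fun Q hQ => hμ Q (hS1S hQ)) (fun Q hQ => hW Q (hS1S hQ)) (fun Q hQ => hN Q (hS1S hQ)) hp
    hφ hφ0 hh hh0
    (fun Q hQ => (Finset.mem_filter.mp (Finset.mem_filter.mp hQ).1).2.1)
    (ρ := Y / X) (by positivity)
    (fun Q hQ => (Finset.mem_filter.mp hQ).2) hτ1
    (fun R hR => (hsubtest hp0 hS1S R).trans (htest1 R (hS1S hR)))
  have hh' : MemLp h (ENNReal.ofReal p') W := hh
  have hφ' : MemLp φ (ENNReal.ofReal (p' / (p' - 1))) N := by rw [hpp]; exact hφ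
  have hb2 := half (μ := μ) (W := N) (N := W) (hS.mono hS2S) (fun Q hQ => hm Q (hS2S hQ))
    (fun Q hQ => hμ Q (hS2S hQ)) (fun Q hQ => hN Q (hS2S hQ)) (fun Q hQ => hW Q (hS2S hQ)) hp'1
    hh' hh0 hφ' hφ0
    (fun Q hQ => (Finset.mem_filter.mp (Finset.mem_filter.mp hQ).1).2.2)
    (ρ := X / Y) (by positivity)
    (by
      intro Q hQ
      rw [hpp]
      have h3 := (Finset.mem_filter.mp hQ).2
      rw [not_le] at h3
      have h4 : X / Y * (Y / X * ((G Q / N.real Q) ^ p * N.real Q)) ≤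
          X / Y * ((H Q / W.real Q) ^ p' * W.real Q) :=
        mul_le_mul_of_nonneg_left h3.le (by positivity)
      refine le_trans (le_of_eq ?_) h4
      show (G Q / N.real Q) ^ p * N.real Q = _
      field_simp) hτ2
    (fun R hR => (hsubtest hp'0 hS2S R).trans (htest2 R (hS2S hR)))
  rw [hpp] at hb2
  have hb1' := hb1.trans (le_of_eq (half_const hp hX hY))
  have hb2' := hb2.trans (le_of_eq (half_const hp'1 hY hX))
  rw [h11, h10] at hb2'
  rw [h1, h2]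
  have hcomm : ∑ Q ∈ S2, G Q / μ.real Q * H Q = ∑ Q ∈ S2, H Q / μ.real Q * G Q := by
    apply Finset.sum_congr rfl
    intro Q _
    ring
  rw [hcomm]
  calc (∑ Q ∈ S1, G Q / μ.real Q * H Q) + ∑ Q ∈ S2, H Q / μ.real Q * G Q
      ≤ hC p * τ1 * (X ^ (1 / p) * Y ^ (1 - 1 / p)) +
        hC p' * τ2 * (Y ^ (1 - 1 / p) * X ^ (1 / p)) := add_le_add hb1' hb2'
    _ = _ := by ring

/-- **two testing conditions imply the strong type inequality** -/
theorem strong_of_test {μ W N : Measure α} [IsFiniteMeasure W] [IsFiniteMeasure N]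
    {S : Finset (Set α)} (hS : Lam S) (hm : ∀ Q ∈ S, MeasurableSet Q)
    (hμ : ∀ Q ∈ S, 0 < μ.real Q) (hW : ∀ Q ∈ S, 0 < W.real Q) (hN : ∀ Q ∈ S, 0 < N.real Q)
    {p : ℝ} (hp : 1 < p) {φ : α → ℝ} (hφ : MemLp φ (ENNReal.ofReal p) N) (hφ0 : ∀ x, 0 ≤ φ x)
    {τ1 τ2 : ℝ} (hτ1 : 0 ≤ τ1) (hτ2 : 0 ≤ τ2)
    (htest1 : ∀ R ∈ S, ∫ x, stepF (sub S R) (den N μ) x ^ p ∂W ≤ τ1 ^ p * N.real R)
    (htest2 : ∀ R ∈ S, ∫ x, stepF (sub S R) (den W μ) x ^ (p / (p - 1)) ∂N ≤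
      τ2 ^ (p / (p - 1)) * W.real R) :
    ∫ x, stepF S (fun Q => (∫ x in Q, φ x ∂N) / μ.real Q) x ^ p ∂W ≤
      (hC p * τ1 + hC (p / (p - 1)) * τ2) ^ p * ∫ x, φ x ^ p ∂N := by
  have hp0 : 0 < p := by linarith
  have hp1 : 0 < p - 1 := by linarith
  have hp'1 : 1 < p / (p - 1) := by
    rw [lt_div_iff₀ hp1]
    linarith
  set a : Set α → ℝ := fun Q => (∫ x in Q, φ x ∂N) / μ.real Q with ha
  have ha0 : ∀ Q ∈ S, 0 ≤ a Q := fun Q _ =>
    div_nonneg (integral_nonneg fun x => hφ0 x) measureReal_nonneg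
  set u : α → ℝ := stepF S a with hu
  have hu0 : ∀ x, 0 ≤ u x := stepF_nonneg ha0
  have hum : Measurable u := measurable_stepF hm a
  set A : ℝ := ∑ Q ∈ S, a Q with hA
  have huA : ∀ x, u x ≤ A := stepF_le ha0
  have hA0 : 0 ≤ A := Finset.sum_nonneg ha0
  set K : ℝ := hC p * τ1 + hC (p / (p - 1)) * τ2 with hK
  have hK0 : 0 ≤ K := by
    have h1 := hC_nonneg hp
    have h2 := hC_nonneg hp'1
    positivity
  set X : ℝ := ∫ x, φ x ^ p ∂N with hX
  set Z : ℝ := ∫ x, u x ^ p ∂W with hZ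
  have hX0 : 0 ≤ X := integral_nonneg fun x => Real.rpow_nonneg (hφ0 x) _
  have hZ0 : 0 ≤ Z := integral_nonneg fun x => Real.rpow_nonneg (hu0 x) _
  rcases hZ0.eq_or_lt with hZe | hZpos
  · rw [← hZe]
    exact mul_nonneg (Real.rpow_nonneg hK0 _) hX0
  rcases hX0.eq_or_lt with hXe | hXpos
  · -- then `φ = 0` a.e.
    exfalso
    have hint := integrable_rpow_of hp0 hφ hφ0
    have h1 : (fun x => φ x ^ p) =ᵐ[N] 0 := by
      rw [← integral_eq_zero_iff_of_nonneg (fun x => Real.rpow_nonneg (hφ0 x) _) hint]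
      exact hXe.symm
    have h2 : φ =ᵐ[N] 0 := by
      filter_upwards [h1] with x hx
      exact (Real.rpow_eq_zero (hφ0 x) hp0.ne').mp hx
    have h3 : ∀ Q, a Q = 0 := by
      intro Q
      rw [ha]
      simp only
      have : ∫ x in Q, φ x ∂N = 0 := by
        rw [integral_congr_ae (ae_restrict_of_ae h2)]
        simp
      rw [this, zero_div]
    have h4 : ∀ x, u x = 0 := by
      intro x
      classical
      rw [hu, stepF_eq]
      exact Finset.sum_eq_zero fun Q _ => h3 Q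
    have h5 : Z = 0 := by
      rw [hZ]
      simp only [h4, Real.zero_rpow hp0.ne', integral_zero]
    linarith
  · set h : α → ℝ := fun x => u x ^ (p - 1) with hh
    have hh0 : ∀ x, 0 ≤ h x := fun x => Real.rpow_nonneg (hu0 x) _
    have hhm : Measurable h := hum.pow_const _
    have hhb : ∀ x, |h x| ≤ A ^ (p - 1) := fun x => by
      rw [abs_of_nonneg (hh0 x)]
      exact Real.rpow_le_rpow (hu0 x) (huA x) hp1.le
    have hhL : ∀ q : ℝ≥0∞, MemLp h q W := fun q => memLp_bdd hhm hhb q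
    have hY : ∫ x, h x ^ (p / (p - 1)) ∂W = Z := by
      rw [hZ]
      congr 1
      funext x
      rw [hh]
      simp only
      rw [← Real.rpow_mul (hu0 x)]
      congr 1
      field_simp
    have hb := bilinear hS hm hμ hW hN hp hφ hφ0 (hhL _) hh0 hτ1 hτ2 htest1 htest2 hXpos
      (by rw [hY]; exact hZpos)
    rw [hY] at hb
    have h1 : ∑ Q ∈ S, (∫ x in Q, φ x ∂N) / μ.real Q * ∫ x in Q, h x ∂W = Z := by
      have h2 := integral_mul_stepF (ν := W) hm a (φ := h)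
        (memLp_one_iff_integrable.mp (hhL 1))
      rw [hZ]
      rw [show ∑ Q ∈ S, (∫ x in Q, φ x ∂N) / μ.real Q * ∫ x in Q, h x ∂W =
        ∑ Q ∈ S, a Q * ∫ x in Q, h x ∂W from rfl, ← h2]
      congr 1
      funext x
      show u x ^ (p - 1) * u x = u x ^ p
      rcases (hu0 x).eq_or_lt with h3 | h3
      · rw [← h3, mul_zero, Real.zero_rpow hp0.ne']
      · rw [← Real.rpow_add_one h3.ne']
        congr 1
        ring
    rw [h1] at hb
    have h3 : Z ≤ (K * X ^ (1 / p)) * (1 * Z) ^ (1 - 1 / p) := by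
      rw [one_mul]
      refine hb.trans (le_of_eq ?_)
      ring
    have h4 := absorb hp hZ0 (mul_nonneg hK0 (Real.rpow_nonneg hX0 _)) zero_le_one h3
    rw [Real.one_rpow, mul_one, Real.mul_rpow hK0 (Real.rpow_nonneg hX0 _), ← Real.rpow_mul hX0,
      one_div_mul_cancel hp0.ne', Real.rpow_one] at h4
    exact h4

end Pool.Agent.Helper51.Sp
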