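import Pool.Agent.Helper51.SPCZ

/-! The (local) weak type (1,1) inequality for Calderon-Zygmund operators. -/

open MeasureTheory Set Filter Topology
open scoped ENNReal NNReal

namespace Pool.Agent.Helper51.Sp

open Mixed

variable {n : ℕ} {T : Fn n → Fn n} {K : Pt n → Pt n → ℝ} {C2 Ck δ : ℝ}

/-- the weak type constant -/
noncomputable def cw (n : ℕ) (C2 Ck δ : ℝ) : ℝ := 9 * C2 ^ 2 * 2 ^ n + 3 ^ n + 6 * tC1 n Ck δ

theorem Opr.cw_nonneg (hO : Opr T K C2 Ck δ) : 0 ≤ cw n C2 Ck δ := by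
  unfold cw tC1
  have h1 := (tlC_pos n hO.δ0).le
  have h2 := hO.ck
  positivity

/-- **weak type (1,1)** -/
theorem Opr.weak11 [NeZero n] (hO : Opr T K C2 Ck δ) {a : Fin n → ℝ} {h : ℝ} (hh : 0 < h)
    {g : Fn n} (hg : IsTest g) (hs : ∀ x, x ∉ box a h → g x = 0) {lam : ℝ} (hl : 0 < lam)
    (hav : ∫ x, |g x| ≤ lam * h ^ n) :
    volume {x | lam < |T g x|} ≤ ENNReal.ofReal (cw n C2 Ck δ / lam * ∫ x, |g x|) := by
  classical
  set I : ℝ := ∫ x, |g x| with hI
  have hI0 : 0 ≤ I := integral_nonneg fun x => abs_nonneg _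
  have htC : 0 ≤ tC1 n Ck δ := mul_nonneg hO.ck (tlC_pos n hO.δ0).le
  have hl3 : 0 < lam / 3 := by positivity
  apply ENNReal.le_of_forall_pos_le_add
  intro ε hε _
  set c0 : ℝ := C2 ^ 2 / (lam / 3) ^ 2 with hc0
  have hc00 : 0 ≤ c0 := by positivity
  obtain ⟨M, G, E, b, hGt, hEt, hbt, hdec, hG2, hE2, hbs, hb0, hbI, hMI⟩ :=
    cz_dec hh hg hs hl hav (ε := ε / (c0 + 1)) (by positivity)
  -- linearity
  have hbt' : IsTest (fun x => ∑ k ∈ M, b k x) := tst_sum M hbt
  have hlin : T g =ᵐ[volume] fun x => T G x + (T E x + T (fun x => ∑ k ∈ M, b k x) x) := by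
    have e : g = fun x => G x + (E x + ∑ k ∈ M, b k x) := funext hdec
    have h1 := hO.add hGt (tst_add hEt hbt')
    have h2 := hO.add hEt hbt'
    rw [← e] at h1
    filter_upwards [h1, h2] with x h3 h4
    rw [h3, h4]
  set tbU : Set (Pt n) := ⋃ k ∈ M, tb a h k with htbU
  have htbm : MeasurableSet tbU := Finset.measurableSet_biUnion _ fun k _ => measurableSet_box _ _
  have hcover : ({x | lam < |T g x|} : Set (Pt n)) ≤ᵐ[volume]
      (({x | lam / 3 < |T G x|} ∪ {x | lam / 3 < |T E x|}) ∪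
        (tbU ∪ ({x | lam / 3 < |T (fun x => ∑ k ∈ M, b k x) x|} ∩ tbUᶜ)) : Set (Pt n)) := by
    filter_upwards [hlin] with x hx hlt
    by_contra hcon
    have hcon' : x ∉ (({x | lam / 3 < |T G x|} ∪ {x | lam / 3 < |T E x|}) ∪
        (tbU ∪ ({x | lam / 3 < |T (fun x => ∑ k ∈ M, b k x) x|} ∩ tbUᶜ)) : Set (Pt n)) := hcon
    simp only [mem_union, not_or, mem_inter_iff, mem_ofPred_eq, not_and, not_lt,
      mem_compl_iff] at hcon'
    obtain ⟨⟨h1, h2⟩, h3, h4⟩ := hcon'
    have h5 : |T (fun x => ∑ k ∈ M, b k x) x| ≤ lam / 3 := by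
      by_contra h6
      rw [not_le] at h6
      exact h4 h6 h3
    have h6 : lam < |T g x| := hlt
    rw [hx] at h6
    have h7 := abs_add_le (T G x) (T E x + T (fun x => ∑ k ∈ M, b k x) x)
    have h8 := abs_add_le (T E x) (T (fun x => ∑ k ∈ M, b k x) x)
    linarith
  have hm1 : volume {x | lam / 3 < |T G x|} ≤ ENNReal.ofReal (c0 * (2 ^ n * lam * I)) :=
    (hO.cheb hGt hl3).trans (ENNReal.ofReal_le_ofReal (mul_le_mul_of_nonneg_left hG2 hc00))
  have hm2 : volume {x | lam / 3 < |T E x|} ≤ ENNReal.ofReal ε := by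
    refine (hO.cheb hEt hl3).trans (ENNReal.ofReal_le_ofReal ?_)
    calc c0 * ∫ x, E x ^ 2 ≤ c0 * (ε / (c0 + 1)) := mul_le_mul_of_nonneg_left hE2 hc00
      _ ≤ ε := by
          rw [mul_div_assoc', div_le_iff₀ (by positivity)]
          nlinarith [NNReal.coe_nonneg ε]
  have hm3 : volume tbU ≤ ENNReal.ofReal (3 ^ n / lam * I) := by
    calc volume tbU ≤ ∑ k ∈ M, volume (tb a h k) := measure_biUnion_finset_le _ _
      _ = ∑ k ∈ M, ENNReal.ofReal (3 ^ n * sd h k ^ n) :=
          Finset.sum_congr rfl fun k _ => vol_tb hh k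
      _ = ENNReal.ofReal (∑ k ∈ M, 3 ^ n * sd h k ^ n) := by
          rw [ENNReal.ofReal_sum_of_nonneg]
          intro k _
          have := sd_pos hh k
          positivity
      _ ≤ _ := by
          apply ENNReal.ofReal_le_ofReal
          rw [← Finset.mul_sum, div_mul_eq_mul_div, mul_div_assoc]
          apply mul_le_mul_of_nonneg_left _ (by positivity)
          rw [le_div_iff₀ hl, mul_comm, Finset.mul_sum]
          exact hMI
  have hm4 : volume ({x | lam / 3 < |T (fun x => ∑ k ∈ M, b k x) x|} ∩ tbUᶜ) ≤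
      ENNReal.ofReal (tC1 n Ck δ * (2 * I) / (lam / 3)) := by
    set F : Fn n := T (fun x => ∑ k ∈ M, b k x) with hF
    have hFm : AEMeasurable (fun x => ENNReal.ofReal |F x|) (volume.restrict tbUᶜ) := by
      have h1 : AEMeasurable F volume := (hO.memLp hbt').1.aemeasurable
      exact (ENNReal.measurable_ofReal.comp_aemeasurable (h1.abs)).restrict
    have hmk := mul_meas_ge_le_lintegral₀ hFm (ENNReal.ofReal (lam / 3))
    have h2 : volume ({x | lam / 3 < |F x|} ∩ tbUᶜ) ≤
        (volume.restrict tbUᶜ) {x | ENNReal.ofReal (lam / 3) ≤ ENNReal.ofReal |F x|} := by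
      rw [Measure.restrict_apply' htbm.compl]
      apply measure_mono
      apply inter_subset_inter_left
      intro x hx
      exact ENNReal.ofReal_le_ofReal (le_of_lt hx)
    have h3 : ∫⁻ x in tbUᶜ, ENNReal.ofReal |F x| ≤ ENNReal.ofReal (tC1 n Ck δ * (2 * I)) := by
      have hsum := hO.sum M hbt
      calc ∫⁻ x in tbUᶜ, ENNReal.ofReal |F x|
          ≤ ∫⁻ x in tbUᶜ, ∑ k ∈ M, ENNReal.ofReal |T (b k) x| := by
            apply setLIntegral_mono_ae' htbm.compl
            filter_upwards [hsum] with x hx _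
            rw [hF, hx, ← ENNReal.ofReal_sum_of_nonneg (fun k _ => abs_nonneg _)]
            exact ENNReal.ofReal_le_ofReal (Finset.abs_sum_le_sum_abs _ _)
        _ = ∑ k ∈ M, ∫⁻ x in tbUᶜ, ENNReal.ofReal |T (b k) x| := by
            rw [lintegral_finsetSum']
            intro k hk
            have h1 : AEMeasurable (T (b k)) volume := (hO.memLp (hbt k hk)).1.aemeasurable
            exact (ENNReal.measurable_ofReal.comp_aemeasurable (h1.abs)).restrict
        _ ≤ ∑ k ∈ M, ENNReal.ofReal (tC1 n Ck δ * ∫ x, |b k x|) := by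
            apply Finset.sum_le_sum
            intro k hk
            refine le_trans ?_ (hO.tail (sd_pos hh k) (hbt k hk) (hbs k hk) (hb0 k hk))
            apply lintegral_mono_set
            apply compl_subset_compl.mpr
            intro x hx
            exact mem_iUnion₂.mpr ⟨k, hk, hx⟩
        _ = ENNReal.ofReal (∑ k ∈ M, tC1 n Ck δ * ∫ x, |b k x|) := by
            rw [ENNReal.ofReal_sum_of_nonneg]
            intro k _
            exact mul_nonneg htC (integral_nonneg fun x => abs_nonneg _)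
        _ ≤ _ := by
            apply ENNReal.ofReal_le_ofReal
            rw [← Finset.mul_sum]
            exact mul_le_mul_of_nonneg_left hbI htC
    have h4 : ENNReal.ofReal (lam / 3) * volume ({x | lam / 3 < |F x|} ∩ tbUᶜ) ≤
        ENNReal.ofReal (tC1 n Ck δ * (2 * I)) :=
      (mul_le_mul_right h2 _).trans (hmk.trans h3)
    rw [ENNReal.ofReal_div_of_pos hl3,
      ENNReal.le_div_iff_mul_le (Or.inl (ENNReal.ofReal_pos.mpr hl3).ne')
      (Or.inl ENNReal.ofReal_ne_top), mul_comm]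
    exact h4
  calc volume {x | lam < |T g x|}
      ≤ volume (({x | lam / 3 < |T G x|} ∪ {x | lam / 3 < |T E x|}) ∪
        (tbU ∪ ({x | lam / 3 < |T (fun x => ∑ k ∈ M, b k x) x|} ∩ tbUᶜ))) :=
        measure_mono_ae hcover
    _ ≤ (volume {x | lam / 3 < |T G x|} + volume {x | lam / 3 < |T E x|}) + (volume tbU +
        volume ({x | lam / 3 < |T (fun x => ∑ k ∈ M, b k x) x|} ∩ tbUᶜ)) :=
        (measure_union_le _ _).trans (add_le_add (measure_union_le _ _) (measure_union_le _ _))
    _ ≤ (ENNReal.ofReal (c0 * (2 ^ n * lam * I)) + ENNReal.ofReal ε) +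
        (ENNReal.ofReal (3 ^ n / lam * I) +
          ENNReal.ofReal (tC1 n Ck δ * (2 * I) / (lam / 3))) :=
        add_le_add (add_le_add hm1 hm2) (add_le_add hm3 hm4)
    _ = (ENNReal.ofReal (c0 * (2 ^ n * lam * I)) + (ENNReal.ofReal (3 ^ n / lam * I) +
          ENNReal.ofReal (tC1 n Ck δ * (2 * I) / (lam / 3)))) + ENNReal.ofReal ε := by ring
    _ = _ := by
        rw [← ENNReal.ofReal_add (by positivity) (by positivity),
          ← ENNReal.ofReal_add (by positivity) (by positivity), ENNReal.ofReal_coe_nnreal]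
        congr 2
        rw [hc0]
        unfold cw
        field_simp
        ring

end Pool.Agent.Helper51.Sp
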