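import Pool.Agent.Helper51.CZWeight

/-! The positive tree kernel: construction, size and smoothness. -/

open MeasureTheory Metric Set
open scoped ENNReal NNReal Topology

namespace Pool.Agent.Helper51.Tree

open Pool.Agent.Helper51

variable {n : ℕ}

/-- centre of the second child -/
noncomputable def e (n : ℕ) : E n := fun _ => 1 / 2

theorem norm_e [NeZero n] : ‖e n‖ = 1 / 2 := by
  unfold e
  have : Nonempty (Fin n) := ⟨0⟩
  rw [pi_norm_const, Real.norm_of_nonneg (by norm_num)]

/-- cut-off function -/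
noncomputable def φ (x : E n) : ℝ := max 0 (min 1 (4 * (1 - ‖x‖)))

theorem φ_nonneg (x : E n) : 0 ≤ φ x := le_max_left _ _

theorem φ_le_one (x : E n) : φ x ≤ 1 := max_le zero_le_one (min_le_left _ _)

theorem φ_eq_one {x : E n} (hx : ‖x‖ ≤ 3 / 4) : φ x = 1 := by
  unfold φ
  rw [min_eq_left (by linarith), max_eq_right zero_le_one]

theorem φ_eq_zero {x : E n} (hx : 1 ≤ ‖x‖) : φ x = 0 := by
  unfold φ
  rw [max_eq_left]
  exact (min_le_right _ _).trans (by linarith)

theorem continuous_φ : Continuous (φ : E n → ℝ) := by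
  unfold φ
  fun_prop

theorem φ_lip (x y : E n) : |φ x - φ y| ≤ 4 * ‖x - y‖ := by
  have h1 : |φ x - φ y| ≤ |min 1 (4 * (1 - ‖x‖)) - min 1 (4 * (1 - ‖y‖))| := by
    unfold φ
    have := abs_max_sub_max_le_max 0 (min 1 (4 * (1 - ‖x‖))) 0 (min 1 (4 * (1 - ‖y‖)))
    rw [sub_self, abs_zero] at this
    exact this.trans (max_le (abs_nonneg _) le_rfl)
  have h2 : |min 1 (4 * (1 - ‖x‖)) - min 1 (4 * (1 - ‖y‖))| ≤
      |4 * (1 - ‖x‖) - 4 * (1 - ‖y‖)| := by
    have := abs_min_sub_min_le_max 1 (4 * (1 - ‖x‖)) 1 (4 * (1 - ‖y‖))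
    rw [sub_self, abs_zero] at this
    exact this.trans (max_le (abs_nonneg _) le_rfl)
  have h3 : |4 * (1 - ‖x‖) - 4 * (1 - ‖y‖)| = 4 * |‖x‖ - ‖y‖| := by
    have : 4 * (1 - ‖x‖) - 4 * (1 - ‖y‖) = -(4 * (‖x‖ - ‖y‖)) := by ring
    rw [this, abs_neg, abs_mul, abs_of_pos (by norm_num : (0 : ℝ) < 4)]
  have h4 := abs_norm_sub_norm_le x y
  linarith

/-- first inverse branch -/
noncomputable def u0 (x : E n) : E n := (8 : ℝ) • x

/-- second inverse branch -/
noncomputable def u1 (x : E n) : E n := (8 : ℝ) • (x - e n)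

/-- the truncated kernels -/
noncomputable def KN : ℕ → E n → E n → ℝ
  | 0 => fun _ _ => 0
  | (N + 1) => fun x y => φ x * φ y + R n * (KN N (u0 x) (u0 y) + KN N (u1 x) (u1 y))

theorem KN_succ (N : ℕ) (x y : E n) :
    KN (N + 1) x y = φ x * φ y + R n * (KN N (u0 x) (u0 y) + KN N (u1 x) (u1 y)) := rfl

theorem KN_nonneg (N : ℕ) (x y : E n) : 0 ≤ KN N x y := by
  induction N generalizing x y with
  | zero => exact le_rfl
  | succ N ih =>
    rw [KN_succ]
    have h1 := φ_nonneg x
    have h2 := φ_nonneg y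
    have h3 := ih (u0 x) (u0 y)
    have h4 := ih (u1 x) (u1 y)
    have := R_pos (n := n)
    positivity

theorem KN_symm (N : ℕ) (x y : E n) : KN N x y = KN N y x := by
  induction N generalizing x y with
  | zero => rfl
  | succ N ih =>
    rw [KN_succ, KN_succ, ih (u0 x), ih (u1 x), mul_comm (φ x)]

theorem KN_le_succ (N : ℕ) (x y : E n) : KN N x y ≤ KN (N + 1) x y := by
  induction N generalizing x y with
  | zero => exact KN_nonneg 1 x y
  | succ N ih =>
    rw [KN_succ, KN_succ (N + 1)]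
    have h3 := ih (u0 x) (u0 y)
    have h4 := ih (u1 x) (u1 y)
    have hR := R_pos (n := n)
    have := mul_le_mul_of_nonneg_left (add_le_add h3 h4) hR.le
    linarith

theorem KN_mono (x y : E n) : Monotone fun N => KN N x y :=
  monotone_nat_of_le_succ fun N => KN_le_succ N x y

theorem measurable_u0 : Measurable (u0 : E n → E n) := by
  show Measurable fun x : E n => (8 : ℝ) • x
  fun_prop

theorem measurable_u1 : Measurable (u1 : E n → E n) := by
  show Measurable fun x : E n => (8 : ℝ) • (x - e n)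
  fun_prop

theorem measurable_KN (N : ℕ) : Measurable fun z : E n × E n => KN N z.1 z.2 := by
  induction N with
  | zero => exact measurable_const
  | succ N ih =>
    simp only [KN_succ]
    have h0 : Measurable fun z : E n × E n => (u0 z.1, u0 z.2) :=
      (measurable_u0.comp measurable_fst).prodMk (measurable_u0.comp measurable_snd)
    have h1 : Measurable fun z : E n × E n => (u1 z.1, u1 z.2) :=
      (measurable_u1.comp measurable_fst).prodMk (measurable_u1.comp measurable_snd)
    have h2 := ih.comp h0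
    have h3 := ih.comp h1
    have h4 : Measurable fun z : E n × E n => φ z.1 * φ z.2 :=
      (continuous_φ.measurable.comp measurable_fst).mul
        (continuous_φ.measurable.comp measurable_snd)
    exact h4.add ((h2.add h3).const_mul _)

theorem norm_u0 (x : E n) : ‖u0 x‖ = 8 * ‖x‖ := by
  unfold u0
  rw [norm_smul, Real.norm_of_nonneg (by norm_num)]

theorem norm_u1 (x : E n) : ‖u1 x‖ = 8 * ‖x - e n‖ := by
  unfold u1
  rw [norm_smul, Real.norm_of_nonneg (by norm_num)]

theorem u0_sub (x y : E n) : ‖u0 x - u0 y‖ = 8 * ‖x - y‖ := by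
  unfold u0
  rw [← smul_sub, norm_smul, Real.norm_of_nonneg (by norm_num)]

theorem u1_sub (x y : E n) : ‖u1 x - u1 y‖ = 8 * ‖x - y‖ := by
  unfold u1
  rw [← smul_sub, norm_smul, Real.norm_of_nonneg (by norm_num), sub_sub_sub_cancel_right]

/-- the children are disjoint -/
theorem disj [NeZero n] {x : E n} (h0 : ‖u0 x‖ ≤ 1) : 1 < ‖u1 x‖ := by
  rw [norm_u0] at h0
  rw [norm_u1]
  have h1 := norm_e (n := n)
  have h2 := norm_sub_norm_le (e n) x
  rw [norm_sub_rev] at h2
  linarith

theorem mem_child0 {x : E n} (h0 : ‖u0 x‖ ≤ 1) : ‖x‖ ≤ 1 := by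
  rw [norm_u0] at h0
  have := norm_nonneg x
  linarith

theorem mem_child1 [NeZero n] {x : E n} (h0 : ‖u1 x‖ ≤ 1) : ‖x‖ ≤ 1 := by
  rw [norm_u1] at h0
  have h1 := norm_e (n := n)
  have h2 := norm_sub_norm_le x (e n)
  linarith

theorem KN_supp_left [NeZero n] (N : ℕ) {x : E n} (hx : 1 < ‖x‖) (y : E n) : KN N x y = 0 := by
  induction N generalizing x y with
  | zero => rfl
  | succ N ih =>
    rw [KN_succ, φ_eq_zero hx.le, zero_mul, zero_add, ih, ih, add_zero, mul_zero]
    · by_contra h
      exact absurd (mem_child1 (not_lt.mp h)) (not_le.mpr hx)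
    · by_contra h
      exact absurd (mem_child0 (not_lt.mp h)) (not_le.mpr hx)

theorem KN_supp_right [NeZero n] (N : ℕ) (x : E n) {y : E n} (hy : 1 < ‖y‖) : KN N x y = 0 := by
  rw [KN_symm, KN_supp_left N hy]

/-- size of the kernel inside the unit cube -/
theorem KN_size' [NeZero n] (N : ℕ) {x y : E n} (hx : ‖x‖ ≤ 1) (hy : ‖y‖ ≤ 1) (hne : x ≠ y) :
    KN N x y ≤ 2 * 2 ^ n / ‖x - y‖ ^ n - 1 := by
  have hR := R_ge (n := n)
  have hpos : ∀ {a b : E n}, a ≠ b → 0 < ‖a - b‖ := fun h => norm_pos_iff.mpr (sub_ne_zero.mpr h)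
  have hbase : ∀ {a b : E n}, ‖a‖ ≤ 1 → ‖b‖ ≤ 1 → a ≠ b →
      1 ≤ 2 * 2 ^ n / ‖a - b‖ ^ n - 1 := by
    intro a b ha hb hab
    have h1 : ‖a - b‖ ≤ 2 := by
      have := norm_sub_le a b
      linarith
    have h2 : ‖a - b‖ ^ n ≤ 2 ^ n := pow_le_pow_left₀ (norm_nonneg _) h1 n
    have h3 := pow_pos (hpos hab) n
    have h4 : 2 ≤ 2 * 2 ^ n / ‖a - b‖ ^ n := by
      rw [le_div_iff₀ h3]
      linarith
    linarith
  induction N generalizing x y with
  | zero =>
    have := hbase hx hy hne
    show (0 : ℝ) ≤ _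
    linarith
  | succ N ih =>
    rw [KN_succ]
    have hφ : φ x * φ y ≤ 1 := mul_le_one₀ (φ_le_one x) (φ_nonneg y) (φ_le_one y)
    have hscale : ∀ {a b : E n}, ‖a - b‖ = 8 * ‖x - y‖ →
        R n * (2 * 2 ^ n / ‖a - b‖ ^ n) = 2 * 2 ^ n / ‖x - y‖ ^ n := by
      intro a b hab
      rw [hab, mul_pow]
      have h3 := pow_pos (hpos hne) n
      have : R n = 8 ^ n := rfl
      rw [this]
      field_simp
    by_cases h0 : ‖u0 x‖ ≤ 1 ∧ ‖u0 y‖ ≤ 1
    · rw [KN_supp_left N (disj h0.1), add_zero]
      have hne0 : u0 x ≠ u0 y := by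
        intro h
        have h1 := u0_sub x y
        rw [h, sub_self, norm_zero] at h1
        have := hpos hne
        linarith
      have h1 := ih h0.1 h0.2 hne0
      have h2 := hscale (u0_sub x y)
      have h3 : R n * KN N (u0 x) (u0 y) ≤ R n * (2 * 2 ^ n / ‖u0 x - u0 y‖ ^ n - 1) :=
        mul_le_mul_of_nonneg_left h1 (by linarith)
      rw [mul_sub, h2] at h3
      linarith
    · have e0 : KN N (u0 x) (u0 y) = 0 := by
        rw [not_and_or, not_le, not_le] at h0
        rcases h0 with h | h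
        · exact KN_supp_left N h _
        · exact KN_supp_right N _ h
      rw [e0, zero_add]
      by_cases h1 : ‖u1 x‖ ≤ 1 ∧ ‖u1 y‖ ≤ 1
      · have hne1 : u1 x ≠ u1 y := by
          intro h
          have h1 := u1_sub x y
          rw [h, sub_self, norm_zero] at h1
          have := hpos hne
          linarith
        have h2 := ih h1.1 h1.2 hne1
        have h3 := hscale (u1_sub x y)
        have h4 : R n * KN N (u1 x) (u1 y) ≤ R n * (2 * 2 ^ n / ‖u1 x - u1 y‖ ^ n - 1) :=
          mul_le_mul_of_nonneg_left h2 (by linarith)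
        rw [mul_sub, h3] at h4
        linarith
      · have e1 : KN N (u1 x) (u1 y) = 0 := by
          rw [not_and_or, not_le, not_le] at h1
          rcases h1 with h | h
          · exact KN_supp_left N h _
          · exact KN_supp_right N _ h
        rw [e1, mul_zero, add_zero]
        exact hφ.trans (hbase hx hy hne)

theorem KN_size [NeZero n] (N : ℕ) {x y : E n} (hne : x ≠ y) :
    KN N x y ≤ 2 * 2 ^ n / ‖x - y‖ ^ n := by
  have hpos : 0 < ‖x - y‖ := norm_pos_iff.mpr (sub_ne_zero.mpr hne)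
  have h0 : 0 ≤ 2 * 2 ^ n / ‖x - y‖ ^ n := by positivity
  by_cases hx : ‖x‖ ≤ 1
  · by_cases hy : ‖y‖ ≤ 1
    · have := KN_size' N hx hy hne
      linarith
    · rw [KN_supp_right N x (not_le.mp hy)]
      exact h0
  · rw [KN_supp_left N (not_le.mp hx)]
    exact h0

/-- smoothness of the kernel -/
theorem KN_smooth' [NeZero n] (N : ℕ) {x x' y : E n} (hy : ‖y‖ ≤ 1) (hx : ‖x‖ ≤ 1 ∨ ‖x'‖ ≤ 1)
    (hne : x ≠ y) (h : 2 * ‖x - x'‖ ≤ ‖x - y‖) :
    |KN N x y - KN N x' y| ≤ (5 * 4 ^ (n + 1) / ‖x - y‖ ^ (n + 1) - 1) * ‖x - x'‖ := by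
  have hR := R_ge (n := n)
  have hpos : ∀ {a b : E n}, a ≠ b → 0 < ‖a - b‖ := fun h => norm_pos_iff.mpr (sub_ne_zero.mpr h)
  have hbase : ∀ {a a' b : E n}, ‖b‖ ≤ 1 → (‖a‖ ≤ 1 ∨ ‖a'‖ ≤ 1) → a ≠ b →
      2 * ‖a - a'‖ ≤ ‖a - b‖ → 4 ≤ 5 * 4 ^ (n + 1) / ‖a - b‖ ^ (n + 1) - 1 := by
    intro a a' b hb ha hab hh
    have h1 : ‖a - b‖ ≤ 4 := by
      rcases ha with ha | ha
      · have := norm_sub_le a b
        linarith
      · have h2 := norm_sub_le a' b
        have h3 : ‖a - b‖ ≤ ‖a - a'‖ + ‖a' - b‖ := by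
          have := norm_add_le (a - a') (a' - b)
          rwa [sub_add_sub_cancel] at this
        linarith
    have h2 : ‖a - b‖ ^ (n + 1) ≤ 4 ^ (n + 1) := pow_le_pow_left₀ (norm_nonneg _) h1 _
    have h3 := pow_pos (hpos hab) (n + 1)
    have h4 : 5 ≤ 5 * 4 ^ (n + 1) / ‖a - b‖ ^ (n + 1) := by
      rw [le_div_iff₀ h3]
      linarith
    linarith
  induction N generalizing x x' y with
  | zero =>
    have := hbase hy hx hne h
    show |(0 : ℝ) - 0| ≤ _
    rw [sub_self, abs_zero]
    have := norm_nonneg (x - x')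
    nlinarith
  | succ N ih =>
    have hn0 := norm_nonneg (x - x')
    have hφ : |φ x * φ y - φ x' * φ y| ≤ 4 * ‖x - x'‖ := by
      rw [← sub_mul, abs_mul, abs_of_nonneg (φ_nonneg y)]
      have h1 := φ_lip x x'
      have h2 : |φ x - φ x'| * φ y ≤ |φ x - φ x'| * 1 :=
        mul_le_mul_of_nonneg_left (φ_le_one y) (abs_nonneg _)
      linarith
    -- one child
    have hchild : ∀ u : E n → E n, (∀ a b, ‖u a - u b‖ = 8 * ‖a - b‖) → ‖u y‖ ≤ 1 →
        R n * |KN N (u x) (u y) - KN N (u x') (u y)| + 4 * ‖x - x'‖ ≤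
          (5 * 4 ^ (n + 1) / ‖x - y‖ ^ (n + 1) - 1) * ‖x - x'‖ := by
      intro u hu huy
      by_cases hux : ‖u x‖ ≤ 1 ∨ ‖u x'‖ ≤ 1
      · have hneu : u x ≠ u y := by
          intro hcon
          have h1 := hu x y
          rw [hcon, sub_self, norm_zero] at h1
          have := hpos hne
          linarith
        have h1 := ih huy hux hneu (by rw [hu, hu]; linarith)
        rw [hu x x'] at h1
        have h2 : R n * |KN N (u x) (u y) - KN N (u x') (u y)| ≤
            R n * ((5 * 4 ^ (n + 1) / ‖u x - u y‖ ^ (n + 1) - 1) * (8 * ‖x - x'‖)) :=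
          mul_le_mul_of_nonneg_left h1 (by linarith)
        have h3 : R n * ((5 * 4 ^ (n + 1) / ‖u x - u y‖ ^ (n + 1) - 1) * (8 * ‖x - x'‖)) =
            (5 * 4 ^ (n + 1) / ‖x - y‖ ^ (n + 1)) * ‖x - x'‖ - 8 * R n * ‖x - x'‖ := by
          have h4 : R n = 8 ^ n := rfl
          have h5 := pow_pos (hpos hne) (n + 1)
          rw [hu, mul_pow, h4, pow_succ 8 n]
          field_simp
        rw [h3] at h2
        nlinarith
      · rw [not_or, not_le, not_le] at hux
        rw [KN_supp_left N hux.1, KN_supp_left N hux.2, sub_self, abs_zero, mul_zero, zero_add]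
        exact mul_le_mul_of_nonneg_right (hbase hy hx hne h) hn0
    have hdec : KN (N + 1) x y - KN (N + 1) x' y = (φ x * φ y - φ x' * φ y) +
        R n * ((KN N (u0 x) (u0 y) - KN N (u0 x') (u0 y)) +
        (KN N (u1 x) (u1 y) - KN N (u1 x') (u1 y))) := by
      rw [KN_succ, KN_succ]; ring
    rw [hdec]
    by_cases h0 : ‖u0 y‖ ≤ 1
    · rw [KN_supp_right N (u1 x) (disj h0), KN_supp_right N (u1 x') (disj h0), sub_self, add_zero]
      have h1 := hchild u0 u0_sub h0
      have h2 := abs_add_le (φ x * φ y - φ x' * φ y)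
        (R n * (KN N (u0 x) (u0 y) - KN N (u0 x') (u0 y)))
      rw [abs_mul (R n), abs_of_nonneg (by linarith : 0 ≤ R n)] at h2
      linarith
    · rw [KN_supp_right N (u0 x) (not_le.mp h0), KN_supp_right N (u0 x') (not_le.mp h0), sub_self,
        zero_add]
      by_cases h1 : ‖u1 y‖ ≤ 1
      · have h1 := hchild u1 u1_sub h1
        have h2 := abs_add_le (φ x * φ y - φ x' * φ y)
          (R n * (KN N (u1 x) (u1 y) - KN N (u1 x') (u1 y)))
        rw [abs_mul (R n), abs_of_nonneg (by linarith : 0 ≤ R n)] at h2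
        linarith
      · rw [KN_supp_right N (u1 x) (not_le.mp h1), KN_supp_right N (u1 x') (not_le.mp h1), sub_self,
          mul_zero, add_zero]
        exact hφ.trans (mul_le_mul_of_nonneg_right (hbase hy hx hne h) hn0)

theorem KN_smooth [NeZero n] (N : ℕ) {x x' y : E n} (hne : x ≠ y)
    (h : 2 * ‖x - x'‖ ≤ ‖x - y‖) :
    |KN N x y - KN N x' y| ≤ 5 * 4 ^ (n + 1) / ‖x - y‖ ^ (n + 1) * ‖x - x'‖ := by
  have hpos : 0 < ‖x - y‖ := norm_pos_iff.mpr (sub_ne_zero.mpr hne)
  have hn0 := norm_nonneg (x - x')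
  have h0 : 0 ≤ 5 * 4 ^ (n + 1) / ‖x - y‖ ^ (n + 1) * ‖x - x'‖ := by positivity
  by_cases hy : ‖y‖ ≤ 1
  · by_cases hx : ‖x‖ ≤ 1 ∨ ‖x'‖ ≤ 1
    · have := KN_smooth' N hy hx hne h
      linarith
    · rw [not_or, not_le, not_le] at hx
      rw [KN_supp_left N hx.1, KN_supp_left N hx.2, sub_self, abs_zero]
      exact h0
  · rw [KN_supp_right N x (not_le.mp hy), KN_supp_right N x' (not_le.mp hy), sub_self, abs_zero]
    exact h0

/-! ### The Schur test function -/

open Classical in
/-- test function: `2` to the depth -/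
noncomputable def h : ℕ → E n → ℝ
  | 0 => fun _ => 1
  | (N + 1) => fun x => if ‖u0 x‖ ≤ 1 then 2 * h N (u0 x) else
      if ‖u1 x‖ ≤ 1 then 2 * h N (u1 x) else 1

theorem h_succ0 (N : ℕ) {x : E n} (hx : ‖u0 x‖ ≤ 1) : h (N + 1) x = 2 * h N (u0 x) := by
  show (if ‖u0 x‖ ≤ 1 then _ else _) = _
  rw [if_pos hx]

theorem h_succ1 [NeZero n] (N : ℕ) {x : E n} (hx : ‖u1 x‖ ≤ 1) :
    h (N + 1) x = 2 * h N (u1 x) := by
  have h0 : ¬ ‖u0 x‖ ≤ 1 := fun h0 => absurd (disj h0) (not_lt.mpr hx)
  show (if ‖u0 x‖ ≤ 1 then _ else if ‖u1 x‖ ≤ 1 then _ else _) = _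
  rw [if_neg h0, if_pos hx]

theorem h_succ2 (N : ℕ) {x : E n} (h0 : ¬ ‖u0 x‖ ≤ 1) (h1 : ¬ ‖u1 x‖ ≤ 1) :
    h (N + 1) x = 1 := by
  show (if ‖u0 x‖ ≤ 1 then _ else if ‖u1 x‖ ≤ 1 then _ else _) = _
  rw [if_neg h0, if_neg h1]

theorem one_le_h [NeZero n] (N : ℕ) (x : E n) : 1 ≤ h N x := by
  induction N generalizing x with
  | zero => exact le_rfl
  | succ N ih =>
    by_cases h0 : ‖u0 x‖ ≤ 1
    · rw [h_succ0 N h0]
      have := ih (u0 x)
      linarith
    · by_cases h1 : ‖u1 x‖ ≤ 1
      · rw [h_succ1 N h1]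
        have := ih (u1 x)
        linarith
      · rw [h_succ2 N h0 h1]

theorem nice_h [NeZero n] (N : ℕ) : Nice (h N : E n → ℝ) := by
  classical
  induction N with
  | zero => exact Nice.const _
  | succ N ih =>
    obtain ⟨C, hC⟩ := ih.bdd
    refine ⟨?_, max (2 * C) 1, fun x => ?_⟩
    · unfold h
      apply Measurable.ite (measurableSet_le (measurable_u0.norm) measurable_const)
      · exact (ih.meas.comp measurable_u0).const_mul 2
      · apply Measurable.ite (measurableSet_le (measurable_u1.norm) measurable_const)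
        · exact (ih.meas.comp measurable_u1).const_mul 2
        · exact measurable_const
    · by_cases h0 : ‖u0 x‖ ≤ 1
      · rw [h_succ0 N h0, abs_mul, abs_of_pos (by norm_num : (0 : ℝ) < 2)]
        have := hC (u0 x)
        exact le_max_of_le_left (by linarith)
      · by_cases h1 : ‖u1 x‖ ≤ 1
        · rw [h_succ1 N h1, abs_mul, abs_of_pos (by norm_num : (0 : ℝ) < 2)]
          have := hC (u1 x)
          exact le_max_of_le_left (by linarith)
        · rw [h_succ2 N h0 h1, abs_one]
          exact le_max_right _ _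

theorem KN_bdd (N : ℕ) : ∃ C : ℝ, ∀ x y : E n, |KN N x y| ≤ C := by
  induction N with
  | zero => exact ⟨0, fun x y => by show |(0 : ℝ)| ≤ 0; rw [abs_zero]⟩
  | succ N ih =>
    obtain ⟨C, hC⟩ := ih
    have hR := R_pos (n := n)
    refine ⟨1 + R n * (C + C), fun x y => ?_⟩
    rw [KN_succ]
    have h1 : |φ x * φ y| ≤ 1 := by
      rw [abs_of_nonneg (mul_nonneg (φ_nonneg x) (φ_nonneg y))]
      exact mul_le_one₀ (φ_le_one x) (φ_nonneg y) (φ_le_one y)
    have h2 : |R n * (KN N (u0 x) (u0 y) + KN N (u1 x) (u1 y))| ≤ R n * (C + C) := by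
      rw [abs_mul, abs_of_pos hR]
      apply mul_le_mul_of_nonneg_left _ hR.le
      exact (abs_add_le _ _).trans (add_le_add (hC _ _) (hC _ _))
    exact (abs_add_le _ _).trans (add_le_add h1 h2)

theorem nice_KN (N : ℕ) (x : E n) : Nice (fun y => KN N x y) := by
  obtain ⟨C, hC⟩ := KN_bdd (n := n) N
  exact ⟨(measurable_KN N).comp (measurable_const.prodMk measurable_id), C, fun y => hC x y⟩

/-- change of variables -/
theorem int_u0 (f : E n → ℝ) : ∫ y, f (u0 y) = (R n)⁻¹ * ∫ z, f z := by
  unfold u0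
  rw [Measure.integral_comp_smul_of_nonneg _ _ _ (hR := by norm_num)]
  simp [R]

theorem int_u1 (f : E n → ℝ) : ∫ y, f (u1 y) = (R n)⁻¹ * ∫ z, f z := by
  have h1 : ∫ y, f (u1 y) = ∫ y, f (u0 y) := by
    unfold u1 u0
    exact integral_sub_right_eq_self (fun y : E n => f ((8 : ℝ) • y)) (e n)
  rw [h1, int_u0]

/-- integral of `h` over the unit cube -/
theorem int_h [NeZero n] (N : ℕ) : ∫ x, (closedBall (0 : E n) 1).indicator (h N) x ≤ 2 * 2 ^ n := by
  have hR := R_ge (n := n)
  have h2n : (0 : ℝ) < 2 ^ n := by positivity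
  have hI1 : ∫ x, (closedBall (0 : E n) 1).indicator (fun _ => (1 : ℝ)) x = 2 ^ n := by
    rw [integral_indicator measurableSet_closedBall, setIntegral_const, vol_B, smul_eq_mul, mul_one]
  have hint : ∀ {f : E n → ℝ}, Nice f → Integrable ((closedBall (0 : E n) 1).indicator f) := by
    intro f hf
    rw [integrable_indicator_iff measurableSet_closedBall]
    exact hf.integrableOn (vol_ball_ne_top _ _)
  induction N with
  | zero =>
    show ∫ x, (closedBall (0 : E n) 1).indicator (fun _ => (1 : ℝ)) x ≤ _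
    rw [hI1]
    linarith
  | succ N ih =>
    have hmem : ∀ x : E n, x ∈ closedBall (0 : E n) 1 ↔ ‖x‖ ≤ 1 := fun x => by
      rw [mem_closedBall, dist_zero_right]
    have hpt : ∀ x, (closedBall (0 : E n) 1).indicator (h (N + 1)) x ≤
        (closedBall (0 : E n) 1).indicator (fun _ => (1 : ℝ)) x +
        (2 * (closedBall (0 : E n) 1).indicator (h N) (u0 x) +
          2 * (closedBall (0 : E n) 1).indicator (h N) (u1 x)) := by
      intro x
      have hi : ∀ z : E n, 0 ≤ (closedBall (0 : E n) 1).indicator (h N) z := fun z =>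
        Set.indicator_nonneg (fun y _ => zero_le_one.trans (one_le_h N y)) z
      have hi0 := hi (u0 x)
      have hi1 := hi (u1 x)
      have hi2 : 0 ≤ (closedBall (0 : E n) 1).indicator (fun _ => (1 : ℝ)) x :=
        Set.indicator_nonneg (fun _ _ => zero_le_one) x
      by_cases hx : x ∈ closedBall (0 : E n) 1
      · rw [Set.indicator_of_mem hx]
        by_cases h0 : ‖u0 x‖ ≤ 1
        · rw [h_succ0 N h0]
          rw [Set.indicator_of_mem ((hmem (u0 x)).mpr h0)]
          linarith
        · by_cases h1 : ‖u1 x‖ ≤ 1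
          · rw [h_succ1 N h1]
            rw [Set.indicator_of_mem ((hmem (u1 x)).mpr h1)]
            linarith
          · rw [h_succ2 N h0 h1, Set.indicator_of_mem hx]
            linarith
      · rw [Set.indicator_of_notMem hx]
        linarith
    have hc0 : Integrable (fun x => (closedBall (0 : E n) 1).indicator (h N) (u0 x)) := by
      have := (hint (nice_h N)).comp_smul (R := (8 : ℝ)) (by norm_num)
      exact this
    have hc1 : Integrable (fun x => (closedBall (0 : E n) 1).indicator (h N) (u1 x)) := by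
      have := hc0.comp_sub_right (e n)
      exact this
    have hsum : Integrable (fun x => 2 * (closedBall (0 : E n) 1).indicator (h N) (u0 x) +
        2 * (closedBall (0 : E n) 1).indicator (h N) (u1 x)) :=
      (hc0.const_mul 2).add (hc1.const_mul 2)
    calc ∫ x, (closedBall (0 : E n) 1).indicator (h (N + 1)) x
        ≤ ∫ x, ((closedBall (0 : E n) 1).indicator (fun _ => (1 : ℝ)) x +
          (2 * (closedBall (0 : E n) 1).indicator (h N) (u0 x) +
          2 * (closedBall (0 : E n) 1).indicator (h N) (u1 x))) :=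
          integral_mono (hint (nice_h (N + 1)))
            ((hint (Nice.const 1)).add hsum) hpt
      _ = 2 ^ n + (2 * ((R n)⁻¹ * ∫ x, (closedBall (0 : E n) 1).indicator (h N) x) +
          2 * ((R n)⁻¹ * ∫ x, (closedBall (0 : E n) 1).indicator (h N) x)) := by
          rw [integral_add (hint (Nice.const 1)) hsum,
            integral_add (hc0.const_mul 2) (hc1.const_mul 2), integral_const_mul,
            integral_const_mul, int_u0, int_u1, hI1]
      _ ≤ 2 * 2 ^ n := by
          have h3 : (R n)⁻¹ ≤ 1 / 8 := by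
            rw [one_div]
            exact inv_anti₀ (by norm_num) hR
          have h4 : (R n)⁻¹ * ∫ x, (closedBall (0 : E n) 1).indicator (h N) x ≤
              1 / 8 * (2 * 2 ^ n) := by
            apply mul_le_mul h3 ih _ (by norm_num)
            exact integral_nonneg fun x =>
              Set.indicator_nonneg (fun y _ => zero_le_one.trans (one_le_h N y)) x
          linarith

theorem integrable_KN_mul [NeZero n] (N : ℕ) (x : E n) {f : E n → ℝ} (hf : Nice f) :
    Integrable (fun y => KN N x y * f y) := by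
  have e1 : (fun y => KN N x y * f y) =
      (closedBall (0 : E n) 1).indicator (fun y => KN N x y * f y) := by
    funext y
    by_cases hy : y ∈ closedBall (0 : E n) 1
    · rw [Set.indicator_of_mem hy]
    · rw [Set.indicator_of_notMem hy]
      rw [mem_closedBall, dist_zero_right, not_le] at hy
      rw [KN_supp_right N x hy, zero_mul]
  rw [e1, integrable_indicator_iff measurableSet_closedBall]
  exact ((nice_KN N x).mul hf).integrableOn (vol_ball_ne_top _ _)

/-- the Schur estimate -/
theorem schur_KN [NeZero n] (N : ℕ) {x : E n} (hx : ‖x‖ ≤ 1) :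
    ∫ y, KN N x y * h N y ≤ 4 * 2 ^ n * h N x - 2 * 2 ^ n := by
  have h2n : (0 : ℝ) < 2 ^ n := by positivity
  have hR := R_pos (n := n)
  have hmem : ∀ x : E n, x ∈ closedBall (0 : E n) 1 ↔ ‖x‖ ≤ 1 := fun x => by
    rw [mem_closedBall, dist_zero_right]
  induction N generalizing x with
  | zero =>
    show ∫ y, (0 : ℝ) * h 0 y ≤ 4 * 2 ^ n * 1 - 2 * 2 ^ n
    simp only [zero_mul, integral_zero]
    linarith
  | succ N ih =>
    have hφint : Integrable (fun y : E n => φ x * (φ y * h (N + 1) y)) := by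
      have e1 : (fun y : E n => φ x * (φ y * h (N + 1) y)) =
          (closedBall (0 : E n) 1).indicator (fun y => φ x * (φ y * h (N + 1) y)) := by
        funext y
        by_cases hy : y ∈ closedBall (0 : E n) 1
        · rw [Set.indicator_of_mem hy]
        · rw [Set.indicator_of_notMem hy]
          rw [mem_closedBall, dist_zero_right, not_le] at hy
          rw [φ_eq_zero hy.le, zero_mul, mul_zero]
      rw [e1, integrable_indicator_iff measurableSet_closedBall]
      have hφ : Nice (φ : E n → ℝ) := ⟨continuous_φ.measurable, 1, fun y => by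
        rw [abs_of_nonneg (φ_nonneg y)]; exact φ_le_one y⟩
      exact ((Nice.const (φ x)).mul (hφ.mul (nice_h (N + 1)))).integrableOn (vol_ball_ne_top _ _)
    have hφle : ∫ y : E n, φ x * (φ y * h (N + 1) y) ≤ 2 * 2 ^ n := by
      refine le_trans ?_ (int_h (n := n) (N + 1))
      apply integral_mono hφint
      · rw [integrable_indicator_iff measurableSet_closedBall]
        exact (nice_h (N + 1)).integrableOn (vol_ball_ne_top _ _)
      · intro y
        have hh := one_le_h (n := n) (N + 1) y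
        by_cases hy : y ∈ closedBall (0 : E n) 1
        · rw [Set.indicator_of_mem hy]
          have h1 : φ x * φ y ≤ 1 := mul_le_one₀ (φ_le_one x) (φ_nonneg y) (φ_le_one y)
          calc φ x * (φ y * h (N + 1) y) = (φ x * φ y) * h (N + 1) y := by ring
            _ ≤ 1 * h (N + 1) y := mul_le_mul_of_nonneg_right h1 (by linarith)
            _ = _ := one_mul _
        · rw [Set.indicator_of_notMem hy]
          rw [mem_closedBall, dist_zero_right, not_le] at hy
          show φ x * (φ y * h (N + 1) y) ≤ 0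
          rw [φ_eq_zero hy.le, zero_mul, mul_zero]
    -- the two children
    have hi0 : Integrable (fun y => KN N (u0 x) (u0 y) * (2 * h N (u0 y))) := by
      have := (integrable_KN_mul N (u0 x) ((Nice.const (n := n) 2).mul (nice_h N))).comp_smul
        (R := (8 : ℝ)) (by norm_num)
      exact this
    have hi1 : Integrable (fun y => KN N (u1 x) (u1 y) * (2 * h N (u1 y))) := by
      have h1 : Integrable (fun y => KN N (u1 x) (u0 y) * (2 * h N (u0 y))) := by
        have := (integrable_KN_mul N (u1 x) ((Nice.const (n := n) 2).mul (nice_h N))).comp_smul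
          (R := (8 : ℝ)) (by norm_num)
        exact this
      have := h1.comp_sub_right (e n)
      exact this
    have hpt : ∀ y, KN (N + 1) x y * h (N + 1) y = φ x * (φ y * h (N + 1) y) +
        (R n * (KN N (u0 x) (u0 y) * (2 * h N (u0 y))) +
          R n * (KN N (u1 x) (u1 y) * (2 * h N (u1 y)))) := by
      intro y
      rw [KN_succ]
      have e0 : KN N (u0 x) (u0 y) * h (N + 1) y = KN N (u0 x) (u0 y) * (2 * h N (u0 y)) := by
        by_cases h0 : ‖u0 y‖ ≤ 1
        · rw [h_succ0 N h0]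
        · rw [KN_supp_right N _ (not_le.mp h0), zero_mul, zero_mul]
      have e1 : KN N (u1 x) (u1 y) * h (N + 1) y = KN N (u1 x) (u1 y) * (2 * h N (u1 y)) := by
        by_cases h1 : ‖u1 y‖ ≤ 1
        · rw [h_succ1 N h1]
        · rw [KN_supp_right N _ (not_le.mp h1), zero_mul, zero_mul]
      rw [← e0, ← e1]
      ring
    have hsum : Integrable (fun y => R n * (KN N (u0 x) (u0 y) * (2 * h N (u0 y))) +
        R n * (KN N (u1 x) (u1 y) * (2 * h N (u1 y)))) :=
      (hi0.const_mul _).add (hi1.const_mul _)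
    have hval : ∫ y, KN (N + 1) x y * h (N + 1) y = (∫ y : E n, φ x * (φ y * h (N + 1) y)) +
        (2 * (∫ z, KN N (u0 x) z * h N z) + 2 * (∫ z, KN N (u1 x) z * h N z)) := by
      simp only [hpt]
      rw [integral_add hφint hsum,
        integral_add (hi0.const_mul _) (hi1.const_mul _), integral_const_mul (R n),
        integral_const_mul (R n)]
      have c0 := int_u0 (fun z => KN N (u0 x) z * (2 * h N z))
      have c1 := int_u1 (fun z => KN N (u1 x) z * (2 * h N z))
      rw [c0, c1]
      have m0 : ∀ w : E n, ∫ z, KN N w z * (2 * h N z) = 2 * ∫ z, KN N w z * h N z := by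
        intro w
        rw [← integral_const_mul]
        congr 1
        funext z
        ring
      rw [m0, m0]
      have : R n ≠ 0 := hR.ne'
      field_simp
    rw [hval]
    have hz : ∀ w : E n, 1 < ‖w‖ → ∫ z, KN N w z * h N z = 0 := by
      intro w hw
      simp only [KN_supp_left N hw, zero_mul, integral_zero]
    by_cases h0 : ‖u0 x‖ ≤ 1
    · rw [hz (u1 x) (disj h0), h_succ0 N h0]
      have := ih h0
      linarith
    · rw [hz (u0 x) (not_le.mp h0)]
      by_cases h1 : ‖u1 x‖ ≤ 1
      · rw [h_succ1 N h1]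
        have := ih h1
        linarith
      · rw [hz (u1 x) (not_le.mp h1), h_succ2 N h0 h1]
        linarith

/-- the Schur estimate for all points -/
theorem schur_KN' [NeZero n] (N : ℕ) (x : E n) :
    ∫ y, KN N x y * h N y ≤ 4 * 2 ^ n * h N x := by
  have h2n : (0 : ℝ) < 2 ^ n := by positivity
  by_cases hx : ‖x‖ ≤ 1
  · have := schur_KN N hx
    linarith
  · simp only [KN_supp_left N (not_le.mp hx), zero_mul, integral_zero]
    have := one_le_h (n := n) N x
    positivity

end Pool.Agent.Helper51.Tree
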