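import Pool.Agent.Helper51.TreeKer
import Pool.Agent.Helper51.CZFail

/-! The positive tree operator is a Calderon-Zygmund operator. -/

open MeasureTheory Metric Set
open scoped ENNReal NNReal Topology

namespace Pool.Agent.Helper51.Tree

open Pool.Agent.Helper51 Pool.Agent.Helper51.Mixed

variable {n : ℕ}

/-- Schur's test -/
theorem schur_test {k : E n → E n → ℝ≥0∞} (hk : Measurable (Function.uncurry k))
    (hs : ∀ x y, k x y = k y x) {h : E n → ℝ≥0∞} (hh : Measurable h) (h0 : ∀ x, h x ≠ 0)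
    (h1 : ∀ x, h x ≠ ⊤) {C : ℝ≥0∞} (hC : ∀ x, ∫⁻ y, k x y * h y ≤ C * h x)
    {f : E n → ℝ≥0∞} (hf : Measurable f) :
    ∫⁻ x, (∫⁻ y, k x y * f y) ^ 2 ≤ C ^ 2 * ∫⁻ x, f x ^ 2 := by
  have hkx : ∀ x, Measurable (k x) := fun x => hk.of_uncurry_left
  have hpt : ∀ x, (∫⁻ y, k x y * f y) ^ 2 ≤
      (C * h x) * ∫⁻ y, k x y * (f y ^ 2 * (h y)⁻¹) := by
    intro x
    have hH := ENNReal.lintegral_mul_le_Lp_mul_Lq (volume : Measure (E n))
      (p := 2) (q := 2) Real.HolderConjugate.two_two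
      (f := fun y => (k x y * h y) ^ (1 / 2 : ℝ))
      (g := fun y => (k x y * (f y ^ 2 * (h y)⁻¹)) ^ (1 / 2 : ℝ))
      ((((hkx x).mul hh).pow_const (1 / 2 : ℝ)).aemeasurable)
      ((((hkx x).mul ((hf.pow_const 2).mul hh.inv)).pow_const (1 / 2 : ℝ)).aemeasurable)
    have e1 : ∀ y, ((fun y => (k x y * h y) ^ (1 / 2 : ℝ)) *
        fun y => (k x y * (f y ^ 2 * (h y)⁻¹)) ^ (1 / 2 : ℝ)) y = k x y * f y := by
      intro y
      rw [Pi.mul_apply, ← ENNReal.mul_rpow_of_nonneg _ _ (by norm_num)]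
      have e2 : k x y * h y * (k x y * (f y ^ 2 * (h y)⁻¹)) = (k x y * f y) ^ 2 := by
        calc k x y * h y * (k x y * (f y ^ 2 * (h y)⁻¹)) =
            (k x y * f y) ^ 2 * (h y * (h y)⁻¹) := by ring
          _ = _ := by rw [ENNReal.mul_inv_cancel (h0 y) (h1 y), mul_one]
      rw [e2, ← ENNReal.rpow_natCast, ← ENNReal.rpow_mul]
      norm_num
    have e3 : ∀ a : ℝ≥0∞, (a ^ (1 / 2 : ℝ)) ^ (2 : ℝ) = a := by
      intro a
      rw [← ENNReal.rpow_mul]
      norm_num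
    simp only [e1, e3] at hH
    calc (∫⁻ y, k x y * f y) ^ 2 ≤ ((∫⁻ y, k x y * h y) ^ (1 / 2 : ℝ) *
          (∫⁻ y, k x y * (f y ^ 2 * (h y)⁻¹)) ^ (1 / 2 : ℝ)) ^ 2 := by gcongr
      _ = (∫⁻ y, k x y * h y) * ∫⁻ y, k x y * (f y ^ 2 * (h y)⁻¹) := by
          rw [mul_pow]
          have e4 : ∀ a : ℝ≥0∞, (a ^ (1 / 2 : ℝ)) ^ 2 = a := by
            intro a
            rw [← ENNReal.rpow_natCast, ← ENNReal.rpow_mul]
            norm_num
          rw [e4, e4]
      _ ≤ _ := by gcongr; exact hC x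
  calc ∫⁻ x, (∫⁻ y, k x y * f y) ^ 2
      ≤ ∫⁻ x, (C * h x) * ∫⁻ y, k x y * (f y ^ 2 * (h y)⁻¹) := lintegral_mono hpt
    _ = ∫⁻ x, ∫⁻ y, C * h x * (k x y * (f y ^ 2 * (h y)⁻¹)) := by
        apply lintegral_congr
        intro x
        rw [lintegral_const_mul]
        exact (hkx x).mul ((hf.pow_const 2).mul hh.inv)
    _ = ∫⁻ y, ∫⁻ x, C * h x * (k x y * (f y ^ 2 * (h y)⁻¹)) := by
        apply lintegral_lintegral_swap
        apply Measurable.aemeasurable
        have m1 : Measurable fun z : E n × E n => C * h z.1 :=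
          (hh.comp measurable_fst).const_mul C
        have m2 : Measurable fun z : E n × E n => f z.2 ^ 2 * (h z.2)⁻¹ :=
          ((hf.comp measurable_snd).pow_const 2).mul (hh.comp measurable_snd).inv
        exact m1.mul (hk.mul m2)
    _ ≤ ∫⁻ y, C ^ 2 * f y ^ 2 := by
        apply lintegral_mono
        intro y
        have e5 : ∀ x, C * h x * (k x y * (f y ^ 2 * (h y)⁻¹)) =
            (C * (f y ^ 2 * (h y)⁻¹)) * (k y x * h x) := by
          intro x
          rw [hs x y]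
          ring
        simp only [e5]
        have hmm : Measurable fun x => k y x * h x := (hkx y).mul hh
        rw [lintegral_const_mul _ hmm]
        calc C * (f y ^ 2 * (h y)⁻¹) * ∫⁻ x, k y x * h x
            ≤ C * (f y ^ 2 * (h y)⁻¹) * (C * h y) := by gcongr; exact hC y
          _ = C ^ 2 * f y ^ 2 * (h y * (h y)⁻¹) := by ring
          _ = _ := by rw [ENNReal.mul_inv_cancel (h0 y) (h1 y), mul_one]
    _ = _ := by rw [lintegral_const_mul _ (hf.pow_const 2)]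

/-- the kernel -/
noncomputable def Kr (x y : E n) : ℝ := ⨆ N, KN N x y

theorem measurable_Kr : Measurable fun z : E n × E n => Kr z.1 z.2 :=
  Measurable.iSup fun N => measurable_KN N

theorem bdd_KN [NeZero n] {x y : E n} (hne : x ≠ y) : BddAbove (range fun N => KN N x y) := by
  refine ⟨2 * 2 ^ n / ‖x - y‖ ^ n, ?_⟩
  rintro _ ⟨N, rfl⟩
  exact KN_size N hne

theorem tendsto_KN [NeZero n] {x y : E n} (hne : x ≠ y) :
    Filter.Tendsto (fun N => KN N x y) Filter.atTop (𝓝 (Kr x y)) :=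
  tendsto_atTop_ciSup (KN_mono x y) (bdd_KN hne)

theorem KN_le_Kr [NeZero n] (N : ℕ) {x y : E n} (hne : x ≠ y) : KN N x y ≤ Kr x y :=
  le_ciSup (bdd_KN hne) N

theorem Kr_nonneg (x y : E n) : 0 ≤ Kr x y :=
  Real.iSup_nonneg fun N => KN_nonneg N x y

theorem Kr_symm (x y : E n) : Kr x y = Kr y x := by
  unfold Kr
  congr 1
  funext N
  exact KN_symm N x y

theorem Kr_size [NeZero n] {x y : E n} (hne : x ≠ y) :
    |Kr x y| ≤ 2 * 2 ^ n / ‖x - y‖ ^ n := by
  rw [abs_of_nonneg (Kr_nonneg x y)]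
  exact ciSup_le fun N => KN_size N hne

theorem Kr_smooth [NeZero n] {x x' y : E n} (hne : x ≠ y) (h : 2 * ‖x - x'‖ ≤ ‖x - y‖) :
    |Kr x y - Kr x' y| ≤ 5 * 4 ^ (n + 1) / ‖x - y‖ ^ (n + 1) * ‖x - x'‖ := by
  have hpos : 0 < ‖x - y‖ := norm_pos_iff.mpr (sub_ne_zero.mpr hne)
  have hne' : x' ≠ y := by
    intro hcon
    rw [hcon] at h
    linarith
  have h1 := ((tendsto_KN hne).sub (tendsto_KN hne')).abs
  exact le_of_tendsto h1 (Filter.Eventually.of_forall fun N => KN_smooth N hne h)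

theorem isKernel_Kr [NeZero n] : IsKernel (Kr : E n → E n → ℝ) (10 * 4 ^ (n + 1)) 1 := by
  refine ⟨measurable_Kr, ?_, ?_⟩
  · intro x y hne
    refine (Kr_size hne).trans ?_
    have hpos : 0 < ‖x - y‖ := norm_pos_iff.mpr (sub_ne_zero.mpr hne)
    have h1 : (2 : ℝ) ^ n ≤ 4 ^ n := pow_le_pow_left₀ (by norm_num) (by norm_num) n
    have h2 : (0 : ℝ) < 4 ^ n := by positivity
    have h3 : (2 : ℝ) * 2 ^ n ≤ 10 * 4 ^ (n + 1) := by rw [pow_succ]; linarith
    gcongr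
  · intro x x' y hne h
    have hpos : 0 < ‖x - y‖ := norm_pos_iff.mpr (sub_ne_zero.mpr hne)
    have h1 := Kr_smooth hne h
    rw [Kr_symm y x, Kr_symm y x', Real.rpow_one]
    have e : 10 * 4 ^ (n + 1) * (‖x - x'‖ / ‖x - y‖) / ‖x - y‖ ^ n =
        2 * (5 * 4 ^ (n + 1) / ‖x - y‖ ^ (n + 1) * ‖x - x'‖) := by
      rw [pow_succ ‖x - y‖]
      field_simp
      ring
    rw [e]
    linarith

/-- the operator -/
noncomputable def T (f : Fn n) : Fn n := fun x => ∫ y, Kr x y * f y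

/-- `L²` bound for the truncated kernels -/
theorem l2_KN [NeZero n] (N : ℕ) {f : E n → ℝ≥0∞} (hf : Measurable f) :
    ∫⁻ x, (∫⁻ y, ENNReal.ofReal (KN N x y) * f y) ^ 2 ≤
      (ENNReal.ofReal (4 * 2 ^ n)) ^ 2 * ∫⁻ x, f x ^ 2 := by
  apply schur_test (h := fun x => ENNReal.ofReal (h N x))
  · exact (measurable_KN N).ennreal_ofReal
  · intro x y
    rw [KN_symm]
  · exact (nice_h N).meas.ennreal_ofReal
  · intro x
    have := one_le_h (n := n) N x
    rw [Ne, ENNReal.ofReal_eq_zero, not_le]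
    linarith
  · intro x
    exact ENNReal.ofReal_ne_top
  · intro x
    have h1 : ∀ y, ENNReal.ofReal (KN N x y) * ENNReal.ofReal (h N y) =
        ENNReal.ofReal (KN N x y * h N y) := fun y => (ENNReal.ofReal_mul (KN_nonneg N x y)).symm
    simp only [h1]
    rw [← ofReal_integral_eq_lintegral_ofReal (integrable_KN_mul N x (nice_h N)),
      ← ENNReal.ofReal_mul (by positivity)]
    · exact ENNReal.ofReal_le_ofReal (schur_KN' N x)
    · exact Filter.Eventually.of_forall fun y =>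
        mul_nonneg (KN_nonneg N x y) (zero_le_one.trans (one_le_h N y))
  · exact hf

theorem ae_ne [NeZero n] (x : E n) : ∀ᵐ y, x ≠ y := by
  have : Nonempty (Fin n) := ⟨0⟩
  have h : volume ({x} : Set (E n)) = 0 := measure_singleton x
  rw [ae_iff]
  convert h using 2
  ext y
  simp [eq_comm]

/-- `L²` bound for the kernel -/
theorem l2_Kr [NeZero n] {f : E n → ℝ≥0∞} (hf : Measurable f) :
    ∫⁻ x, (∫⁻ y, ENNReal.ofReal (Kr x y) * f y) ^ 2 ≤
      (ENNReal.ofReal (4 * 2 ^ n)) ^ 2 * ∫⁻ x, f x ^ 2 := by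
  have h1 : ∀ x, ∫⁻ y, ENNReal.ofReal (Kr x y) * f y =
      ⨆ N, ∫⁻ y, ENNReal.ofReal (KN N x y) * f y := by
    intro x
    have h2 : ∫⁻ y, ENNReal.ofReal (Kr x y) * f y =
        ∫⁻ y, ⨆ N, ENNReal.ofReal (KN N x y) * f y := by
      apply lintegral_congr_ae
      filter_upwards [ae_ne x] with y hy
      rw [← ENNReal.iSup_mul]
      congr 1
      have h3 : Filter.Tendsto (fun N => ENNReal.ofReal (KN N x y)) Filter.atTop
          (𝓝 (ENNReal.ofReal (Kr x y))) := ENNReal.tendsto_ofReal (tendsto_KN hy)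
      have h4 : Monotone fun N => ENNReal.ofReal (KN N x y) := fun a b hab =>
        ENNReal.ofReal_le_ofReal (KN_mono x y hab)
      exact tendsto_nhds_unique h3 (tendsto_atTop_iSup h4)
    rw [h2, lintegral_iSup]
    · intro N
      exact ((measurable_KN N).comp (measurable_const.prodMk measurable_id)).ennreal_ofReal.mul hf
    · intro a b hab y
      have := ENNReal.ofReal_le_ofReal (KN_mono x y hab)
      exact mul_le_mul_left this _
  have h5 : ∀ x, (∫⁻ y, ENNReal.ofReal (Kr x y) * f y) ^ 2 =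
      ⨆ N, (∫⁻ y, ENNReal.ofReal (KN N x y) * f y) ^ 2 := by
    intro x
    rw [h1 x]
    have hm : Monotone fun N => ∫⁻ y, ENNReal.ofReal (KN N x y) * f y := by
      intro a b hab
      apply lintegral_mono
      intro y
      exact mul_le_mul_left (ENNReal.ofReal_le_ofReal (KN_mono x y hab)) _
    have hm2 : Monotone fun N => (∫⁻ y, ENNReal.ofReal (KN N x y) * f y) ^ 2 := fun a b hab =>
      pow_le_pow_left' (hm hab) 2
    have t1 := (tendsto_atTop_iSup hm)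
    have t2 : Filter.Tendsto (fun N => (∫⁻ y, ENNReal.ofReal (KN N x y) * f y) ^ 2) Filter.atTop
        (𝓝 ((⨆ N, ∫⁻ y, ENNReal.ofReal (KN N x y) * f y) ^ 2)) :=
      ((ENNReal.continuous_pow 2).tendsto _).comp t1
    exact tendsto_nhds_unique t2 (tendsto_atTop_iSup hm2)
  simp only [h5]
  rw [lintegral_iSup]
  · exact iSup_le fun N => l2_KN N hf
  · intro N
    apply Measurable.pow_const
    have hk : Measurable fun z : E n × E n => ENNReal.ofReal (KN N z.1 z.2) * f z.2 :=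
      (measurable_KN N).ennreal_ofReal.mul (hf.comp measurable_snd)
    exact hk.lintegral_prod_right'
  · intro a b hab x
    apply pow_le_pow_left'
    apply lintegral_mono
    intro y
    exact mul_le_mul_left (ENNReal.ofReal_le_ofReal (KN_mono x y hab)) _

theorem eLpNorm_two_sq {f : E n → ℝ} : eLpNorm f 2 volume ^ 2 = ∫⁻ x, ‖f x‖ₑ ^ 2 := by
  rw [eLpNorm_eq_lintegral_rpow_enorm_toReal (by norm_num) (by norm_num)]
  rw [← ENNReal.rpow_natCast, ← ENNReal.rpow_mul]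
  norm_num

/-- `L²` bound in terms of the absolute values -/
theorem l2_abs [NeZero n] {f : E n → ℝ} (hf : MemLp f 2 volume) :
    ∫⁻ x, (∫⁻ y, ‖Kr x y * f y‖ₑ) ^ 2 ≤
      (ENNReal.ofReal (4 * 2 ^ n) * eLpNorm f 2 volume) ^ 2 := by
  obtain ⟨g, hg, hfg⟩ := hf.1
  have h1 : ∀ x, ∫⁻ y, ‖Kr x y * f y‖ₑ = ∫⁻ y, ENNReal.ofReal (Kr x y) * ‖g y‖ₑ := by
    intro x
    apply lintegral_congr_ae
    filter_upwards [hfg] with y hy
    rw [hy, enorm_mul, Real.enorm_of_nonneg (Kr_nonneg x y)]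
  simp only [h1]
  refine (l2_Kr hg.measurable.enorm).trans ?_
  rw [mul_pow, eLpNorm_congr_ae hfg, eLpNorm_two_sq]

theorem meas_Kf {f : E n → ℝ} (hf : MemLp f 2 volume) :
    AEStronglyMeasurable (fun z : E n × E n => Kr z.1 z.2 * f z.2)
      ((volume : Measure (E n)).prod volume) :=
  measurable_Kr.aestronglyMeasurable.mul hf.1.comp_snd

theorem ae_integrable [NeZero n] {f : E n → ℝ} (hf : MemLp f 2 volume) :
    ∀ᵐ x, Integrable (fun y => Kr x y * f y) := by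
  have h1 := l2_abs hf
  have hlt : ∫⁻ x, (∫⁻ y, ‖Kr x y * f y‖ₑ) ^ 2 < ⊤ :=
    h1.trans_lt (ENNReal.pow_lt_top (ENNReal.mul_lt_top ENNReal.ofReal_lt_top hf.2))
  have hm : AEMeasurable (fun x => (∫⁻ y, ‖Kr x y * f y‖ₑ) ^ 2) volume := by
    apply AEMeasurable.pow_const
    exact (meas_Kf hf).enorm.lintegral_prod_right'
  have h2 := ae_lt_top' hm hlt.ne
  have h3 : ∀ᵐ x, AEStronglyMeasurable (fun y => Kr x y * f y) volume := by
    apply Filter.Eventually.of_forall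
    intro x
    have : Measurable fun y => Kr x y :=
      measurable_Kr.comp (measurable_const.prodMk measurable_id)
    exact this.aestronglyMeasurable.mul hf.1
  filter_upwards [h2, h3] with x hx hx3
  refine ⟨hx3, ?_⟩
  unfold HasFiniteIntegral
  by_contra hcon
  rw [not_lt, top_le_iff] at hcon
  rw [hcon] at hx
  simp at hx

theorem isBdd_T [NeZero n] : IsBdd (T : Fn n → Fn n) := by
  refine ⟨?_, ?_, ⟨(4 * 2 ^ n : ℝ≥0), ?_⟩⟩
  · intro f g hf hg
    filter_upwards [ae_integrable hf, ae_integrable hg] with x hx hy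
    show ∫ y, Kr x y * (f y + g y) = (∫ y, Kr x y * f y) + ∫ y, Kr x y * g y
    rw [← integral_add hx hy]
    congr 1
    funext y
    ring
  · intro c f _
    apply Filter.Eventually.of_forall
    intro x
    show ∫ y, Kr x y * (c * f y) = c * ∫ y, Kr x y * f y
    rw [← integral_const_mul]
    congr 1
    funext y
    ring
  · intro f hf
    have hm : AEStronglyMeasurable (T f) volume := (meas_Kf hf).integral_prod_right'
    have hle : eLpNorm (T f) 2 volume ≤ ENNReal.ofReal (4 * 2 ^ n) * eLpNorm f 2 volume := by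
      have h1 : eLpNorm (T f) 2 volume ^ 2 ≤
          (ENNReal.ofReal (4 * 2 ^ n) * eLpNorm f 2 volume) ^ 2 := by
        rw [eLpNorm_two_sq]
        refine le_trans ?_ (l2_abs hf)
        apply lintegral_mono
        intro x
        apply pow_le_pow_left'
        exact enorm_integral_le_lintegral_enorm _
      exact (ENNReal.pow_le_pow_left_iff (by norm_num)).mp h1
    have e : ENNReal.ofReal (4 * 2 ^ n) = ((4 * 2 ^ n : ℝ≥0) : ℝ≥0∞) := by
      rw [ENNReal.ofReal]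
      congr 1
      rw [Real.toNNReal_mul (by norm_num), Real.toNNReal_pow (by norm_num)]
      norm_num
    rw [e] at hle
    exact ⟨⟨hm, hle.trans_lt (ENNReal.mul_lt_top ENNReal.coe_lt_top hf.2)⟩, hle⟩

theorem hasKernel_T : HasKernel (T : Fn n → Fn n) Kr := by
  intro S _ f _ _
  apply Filter.Eventually.of_forall
  intro x _
  rfl

theorem isCZO_T [NeZero n] : IsCZO (T : Fn n → Fn n) :=
  ⟨isBdd_T, Kr, 10 * 4 ^ (n + 1), 1, one_pos, le_rfl, isKernel_Kr, hasKernel_T⟩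

/-! ### Lower bound at the nodes -/

/-- the nodes of the tree: centre and radius -/
inductive Node : E n → ℝ → Prop
  | root : Node 0 1
  | zero {c ρ} : Node c ρ → Node c (ρ / 8)
  | one {c ρ} : Node c ρ → Node (c + ρ • e n) (ρ / 8)

theorem node_lower {c : E n} {ρ : ℝ} (h : Node c ρ) : 0 < ρ ∧
    ∃ d, ∀ N x y, (ρ ^ n)⁻¹ * KN N (ρ⁻¹ • (x - c)) (ρ⁻¹ • (y - c)) ≤ KN (N + d) x y := by
  have hR := R_pos (n := n)
  induction h with
  | root =>
    refine ⟨one_pos, 0, fun N x y => ?_⟩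
    simp
  | @zero c ρ _ ih =>
    obtain ⟨hρ, d, hd⟩ := ih
    refine ⟨by positivity, d + 1, fun N x y => ?_⟩
    have h1 := hd (N + 1) x y
    have e1 : ∀ z : E n, (ρ / 8)⁻¹ • (z - c) = u0 (ρ⁻¹ • (z - c)) := by
      intro z
      unfold u0
      rw [smul_smul, inv_div, div_eq_mul_inv]
    have e2 : ((ρ / 8) ^ n)⁻¹ = (ρ ^ n)⁻¹ * R n := by
      unfold R
      rw [div_pow, inv_div, div_eq_mul_inv, mul_comm]
    have h2 : R n * KN N (u0 (ρ⁻¹ • (x - c))) (u0 (ρ⁻¹ • (y - c))) ≤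
        KN (N + 1) (ρ⁻¹ • (x - c)) (ρ⁻¹ • (y - c)) := by
      rw [KN_succ]
      have := mul_nonneg (φ_nonneg (ρ⁻¹ • (x - c))) (φ_nonneg (ρ⁻¹ • (y - c)))
      have := mul_nonneg hR.le (KN_nonneg N (u1 (ρ⁻¹ • (x - c))) (u1 (ρ⁻¹ • (y - c))))
      linarith
    rw [e1, e1, e2, mul_assoc]
    have h3 : (ρ ^ n)⁻¹ * (R n * KN N (u0 (ρ⁻¹ • (x - c))) (u0 (ρ⁻¹ • (y - c)))) ≤
        (ρ ^ n)⁻¹ * KN (N + 1) (ρ⁻¹ • (x - c)) (ρ⁻¹ • (y - c)) :=
      mul_le_mul_of_nonneg_left h2 (by positivity)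
    have e3 : N + (d + 1) = N + 1 + d := by ring
    rw [e3]
    exact h3.trans h1
  | @one c ρ _ ih =>
    obtain ⟨hρ, d, hd⟩ := ih
    refine ⟨by positivity, d + 1, fun N x y => ?_⟩
    have h1 := hd (N + 1) x y
    have e1 : ∀ z : E n, (ρ / 8)⁻¹ • (z - (c + ρ • e n)) = u1 (ρ⁻¹ • (z - c)) := by
      intro z
      unfold u1
      rw [← sub_sub, smul_sub, smul_sub (8 : ℝ), smul_smul, smul_smul, inv_div]
      congr 1
      rw [div_mul_cancel₀ _ hρ.ne']
    have e2 : ((ρ / 8) ^ n)⁻¹ = (ρ ^ n)⁻¹ * R n := by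
      unfold R
      rw [div_pow, inv_div, div_eq_mul_inv, mul_comm]
    have h2 : R n * KN N (u1 (ρ⁻¹ • (x - c))) (u1 (ρ⁻¹ • (y - c))) ≤
        KN (N + 1) (ρ⁻¹ • (x - c)) (ρ⁻¹ • (y - c)) := by
      rw [KN_succ]
      have := mul_nonneg (φ_nonneg (ρ⁻¹ • (x - c))) (φ_nonneg (ρ⁻¹ • (y - c)))
      have := mul_nonneg hR.le (KN_nonneg N (u0 (ρ⁻¹ • (x - c))) (u0 (ρ⁻¹ • (y - c))))
      linarith
    rw [e1, e1, e2, mul_assoc]
    have h3 : (ρ ^ n)⁻¹ * (R n * KN N (u1 (ρ⁻¹ • (x - c))) (u1 (ρ⁻¹ • (y - c)))) ≤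
        (ρ ^ n)⁻¹ * KN (N + 1) (ρ⁻¹ • (x - c)) (ρ⁻¹ • (y - c)) :=
      mul_le_mul_of_nonneg_left h2 (by positivity)
    have e3 : N + (d + 1) = N + 1 + d := by ring
    rw [e3]
    exact h3.trans h1

theorem node_zero {c : E n} {ρ : ℝ} (h : Node c ρ) (k : ℕ) : Node c (ρ * (1 / 8) ^ k) := by
  induction k with
  | zero => simpa using h
  | succ k ih =>
    have := ih.zero
    have e1 : ρ * (1 / 8) ^ (k + 1) = ρ * (1 / 8) ^ k / 8 := by rw [pow_succ]; ring
    rwa [e1]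

theorem adm_node [NeZero n] (P : Par n) : Adm P (Kr : E n → E n → ℝ) 1 Node := by
  refine ⟨?_, ?_⟩
  · intro c ρ hρ hN k _
    have h1 := (node_zero hN k).one
    have h2 := node_zero h1 k
    have e1 : (ρ * (1 / 8) ^ k) • e n = ρ • ck n k := by
      unfold e ck
      funext i
      simp only [Pi.smul_apply, smul_eq_mul]
      ring
    have e2 : ρ * (1 / 8) ^ k / 8 * (1 / 8) ^ k = ρ * rk k := by
      unfold rk
      have : (1 / 8 : ℝ) ^ (2 * k + 1) = (1 / 8) ^ k * (1 / 8) ^ k * (1 / 8) := by ring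
      rw [this]
      ring
    rwa [e1, e2] at h2
  · intro c ρ hρ hN k hk x hx y hy
    obtain ⟨hρ', d, hd⟩ := node_lower (node_zero hN k)
    have h1 := hd 1 x y
    have h8 := e8_pos k
    have hx1 : ρ⁻¹ • (x - c) ∈ Fk n k := (mem_ball_scale c (ck n k) x hρ (rk k)).mp hx
    have hy1 : ρ⁻¹ • (y - c) ∈ closedBall (0 : E n) ((1 / 8 : ℝ) ^ (2 * P.K + 1)) := by
      have := mem_ball_scale c 0 y hρ ((1 / 8 : ℝ) ^ (2 * P.K + 1))
      rw [smul_zero, add_zero] at this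
      exact this.mp hy
    rw [mem_closedBall, dist_zero_right] at hy1
    have hsc : ∀ z : E n, ‖(ρ * (1 / 8) ^ k)⁻¹ • (z - c)‖ =
        ((1 / 8 : ℝ) ^ k)⁻¹ * ‖ρ⁻¹ • (z - c)‖ := by
      intro z
      rw [mul_inv, mul_comm, mul_smul, norm_smul ((1 / 8 : ℝ) ^ k)⁻¹,
        Real.norm_of_nonneg (by positivity)]
    have hx2 : ‖(ρ * (1 / 8) ^ k)⁻¹ • (x - c)‖ ≤ 3 / 4 := by
      rw [hsc, inv_mul_le_iff₀ h8]
      have := (norm_mem_Fk hx1).2
      linarith
    have hy2 : ‖(ρ * (1 / 8) ^ k)⁻¹ • (y - c)‖ ≤ 3 / 4 := by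
      rw [hsc, inv_mul_le_iff₀ h8]
      have : (1 / 8 : ℝ) ^ (2 * P.K + 1) ≤ (1 / 8) ^ k / 8 := e8_succ_le (by omega)
      linarith
    have e1 : KN 1 ((ρ * (1 / 8) ^ k)⁻¹ • (x - c)) ((ρ * (1 / 8) ^ k)⁻¹ • (y - c)) = 1 := by
      rw [KN_succ, φ_eq_one hx2, φ_eq_one hy2]
      simp [KN]
    have hne : x ≠ y := by
      intro hxy
      rw [hxy] at hx1
      have h2 := (norm_mem_Fk hx1).1
      have : (1 / 8 : ℝ) ^ (2 * P.K + 1) ≤ (1 / 8) ^ k / 8 := e8_succ_le (by omega)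
      linarith
    rw [e1, mul_one] at h1
    have e2 : ((ρ * (1 / 8) ^ k) ^ n)⁻¹ = 1 * (R n ^ k / ρ ^ n) := by
      rw [mul_pow, e8_pow, mul_inv, inv_inv, one_mul, div_eq_mul_inv, mul_comm]
    rw [e2] at h1
    exact h1.trans (KN_le_Kr _ hne)

/-- both estimates fail for the tree operator -/
theorem fails_T [NeZero n] {p : ℝ} (hp : 1 < p) :
    ¬ WeakBound (T : Fn n → Fn n) p 0 ∧ ¬ StrongBound (T : Fn n → Fn n) p 0 :=
  fails_of_adm isBdd_T hasKernel_T measurable_Kr (C := 2 * 2 ^ n) (by positivity)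
    (fun _ _ hne => Kr_size hne) one_pos (fun P => ⟨Node, adm_node P, Node.root⟩) hp

end Pool.Agent.Helper51.Tree
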